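import Pool.Agent.PFlow.StmtsE1

/-!
# CUTM: the modified metric and tensor
-/

open MeasureTheory Filter Topology
open scoped ContDiff ENNReal

namespace Pool.Agent.PFlow

open Pool.Agent.PenroseSph

namespace CUTM

lemma kap_nonneg (h : Stmt_KAP) (s : ℝ) : 0 ≤ kap s := (h.2.1 s).1

lemma kap_le_one (h : Stmt_KAP) (s : ℝ) : kap s ≤ 1 := (h.2.1 s).2

lemma kin_nonneg (h : Stmt_KAP) (R : ℝ) (x : E3) : 0 ≤ kin R x := by
  unfold kin
  linarith [kap_le_one h (32 * R * ‖x‖)]

lemma kin_le_one (h : Stmt_KAP) (R : ℝ) (x : E3) : kin R x ≤ 1 := by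
  unfold kin
  linarith [kap_nonneg h (32 * R * ‖x‖)]

lemma kin_zero (h : Stmt_KAP) {R : ℝ} (hR : 0 < R) {x : E3} (hx : ‖x‖ ≤ 1 / (32 * R)) :
    kin R x = 0 := by
  unfold kin
  rw [h.2.2.1 _ ?_, sub_self]
  rw [le_div_iff₀ (by positivity)] at hx
  linarith

lemma kin_one (h : Stmt_KAP) {R : ℝ} (hR : 0 < R) {x : E3} (hx : 1 / (16 * R) ≤ ‖x‖) :
    kin R x = 1 := by
  unfold kin
  rw [h.2.2.2.1 _ ?_, sub_zero]
  rw [div_le_iff₀ (by positivity)] at hx
  linarith

lemma ne_zero_of_norm {x : E3} {a : ℝ} (ha : 0 < a) (h : a ≤ ‖x‖) : x ≠ 0 := by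
  rintro rfl
  rw [norm_zero] at h
  linarith

/-- A smooth function times a function smooth off the origin, if the factor vanishes near the
origin. -/
lemma smooth_of {c f : E3 → ℝ} {a : ℝ} (ha : 0 < a) (hc : ContDiff ℝ ∞ c)
    (h0 : ∀ x : E3, ‖x‖ ≤ a → c x = 0) (hf : ContDiffOn ℝ ∞ f {0}ᶜ) :
    ContDiff ℝ ∞ (fun x => c x * f x) := by
  rw [contDiff_iff_contDiffAt]
  intro x
  by_cases hx : ‖x‖ < a
  · have : (fun x => c x * f x) =ᶠ[𝓝 x] fun _ => (0 : ℝ) := by
      have ho : IsOpen {y : E3 | ‖y‖ < a} := isOpen_lt continuous_norm continuous_const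
      filter_upwards [ho.mem_nhds hx] with y hy
      rw [h0 y (le_of_lt hy), zero_mul]
    exact contDiffAt_const.congr_of_eventuallyEq this
  · have hx0 : x ≠ 0 := ne_zero_of_norm ha (not_lt.1 hx)
    exact hc.contDiffAt.mul (hf.contDiffAt (isOpen_compl_singleton.mem_nhds hx0))

/-- Convex combinations with the identity matrix are positive definite. -/
lemma posDef_comb {G : Bil} (hG : G.PosDef) {c : ℝ} (h0 : 0 ≤ c) (h1 : c ≤ 1) :
    (1 + c • (G - 1) : Bil).PosDef := by
  have e : (1 + c • (G - 1) : Bil) = (1 - c) • (1 : Bil) + c • G := by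
    rw [smul_sub, sub_smul, one_smul]
    abel
  rw [e]
  rcases eq_or_lt_of_le h0 with h | h
  · subst h
    simpa using (Matrix.PosDef.one : (1 : Bil).PosDef)
  · exact Matrix.PosDef.posSemidef_add ((Matrix.PosSemidef.one).smul (sub_nonneg.2 h1)) (hG.smul h)

end CUTM

open CUTM in
theorem CUTM (hHATB : Stmt_HATB) (hKAP : Stmt_KAP) : Stmt_CUTM := by
  intro g h η l R hη hl hR hg hh hps
  obtain ⟨hT, hTN, -, -⟩ := hHATB g h η hη hg hh hps
  have hl0 : 0 < l := by linarith
  have hR0 : 0 < R := by linarith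
  have hR2 : 0 < R / 2 := by linarith
  have hkl : ContDiff ℝ ∞ (fun y : E3 => kap (‖y‖ / l)) := hKAP.2.2.2.2.2.1 l hl0
  have hkl2 : ContDiff ℝ ∞ (fun y : E3 => kap (2 * ‖y‖ / l)) := by
    have := hKAP.2.2.2.2.2.1 (l / 2) (by linarith)
    have e : (fun y : E3 => kap (2 * ‖y‖ / l)) = fun y : E3 => kap (‖y‖ / (l / 2)) := by
      funext y
      congr 1
      field_simp
    rw [e]
    exact this
  have hkin : ∀ R : ℝ, 0 < R → ContDiff ℝ ∞ (kin R) := hKAP.2.2.2.2.2.2
  -- the factors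
  let c : E3 → ℝ := fun x => kap (‖x‖ / l) * kin R x
  let c' : E3 → ℝ := fun x => kap (2 * ‖x‖ / l) * kin (R / 2) x
  have hc : ContDiff ℝ ∞ c := hkl.mul (hkin R hR0)
  have hc' : ContDiff ℝ ∞ c' := hkl2.mul (hkin (R / 2) hR2)
  have hcz : ∀ x : E3, ‖x‖ ≤ 1 / (32 * R) → c x = 0 := by
    intro x hx
    show kap (‖x‖ / l) * kin R x = 0
    rw [kin_zero hKAP hR0 hx, mul_zero]
  have hcz' : ∀ x : E3, ‖x‖ ≤ 1 / (16 * R) → c' x = 0 := by
    intro x hx
    show kap (2 * ‖x‖ / l) * kin (R / 2) x = 0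
    rw [kin_zero hKAP hR2 (by convert hx using 2; ring), mul_zero]
  have hc0 : ∀ x, 0 ≤ c x := fun x => mul_nonneg (kap_nonneg hKAP _) (kin_nonneg hKAP _ _)
  have hc1 : ∀ x, c x ≤ 1 := fun x =>
    mul_le_one₀ (kap_le_one hKAP _) (kin_nonneg hKAP _ _) (kin_le_one hKAP _ _)
  have hc0' : ∀ x, 0 ≤ c' x := fun x => mul_nonneg (kap_nonneg hKAP _) (kin_nonneg hKAP _ _)
  have hcl : ∀ x : E3, l ≤ ‖x‖ → c' x = 0 := by
    intro x hx
    show kap (2 * ‖x‖ / l) * kin (R / 2) x = 0
    rw [hKAP.2.2.2.1 _ ?_, zero_mul]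
    rw [le_div_iff₀ hl0]
    linarith
  have hGsame : ∀ x : E3, 1 / (16 * R) < ‖x‖ → ‖x‖ < l → modG l R g x = g x := by
    intro x h1 h2
    show 1 + (kap (‖x‖ / l) * kin R x) • (g x - 1) = g x
    rw [kin_one hKAP hR0 h1.le, hKAP.2.2.1 _ ?_, one_mul, one_smul, add_sub_cancel]
    rw [div_le_one hl0]
    exact h2.le
  refine ⟨⟨?_, ?_⟩, ⟨?_, ?_⟩, ?_, hGsame, ?_, ?_, ?_⟩
  · -- smoothness of the metric
    intro i j
    have h1 : ContDiff ℝ ∞ (fun x => c x * (g x i j - (1 : Bil) i j)) :=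
      smooth_of (a := 1 / (32 * R)) (by positivity) hc hcz ((hg.smooth i j).sub contDiffOn_const)
    exact (contDiff_const.add h1).contDiffOn
  · -- positivity
    intro x _
    by_cases hx : x = 0
    · have e : modG l R g x = 1 := by
        show 1 + c x • (g x - 1) = 1
        rw [hcz x (by rw [hx, norm_zero]; positivity), zero_smul, add_zero]
      rw [e]
      exact Matrix.PosDef.one
    · exact posDef_comb (hg.posDef x hx) (hc0 x) (hc1 x)
  · -- smoothness of the tensor
    intro i j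
    have h1 : ContDiff ℝ ∞ (fun x => c' x * hat η g h x i j) :=
      smooth_of (a := 1 / (16 * R)) (by positivity) hc' hcz' (hT.smooth i j)
    exact h1.contDiffOn
  · intro x _
    by_cases hx : x = 0
    · have e : modH η l R g h x = 0 := by
        show c' x • hat η g h x = 0
        rw [hcz' x (by rw [hx, norm_zero]; positivity), zero_smul]
      rw [e]
      exact Matrix.isSymm_zero
    · exact (hT.symm x hx).smul (c' x)
  · -- 2-nonnegative
    intro x _ v hv
    have ev_smul : ∀ (a : ℝ) (B : Bil), ev (a • B) v v = a * ev B v v := by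
      intro a B
      simp only [ev, Matrix.smul_apply, smul_eq_mul, Finset.mul_sum]
      refine Finset.sum_congr rfl fun i _ => Finset.sum_congr rfl fun j _ => ?_
      ring
    have tr_smul : ∀ (G : TensorField) (a : ℝ) (B : Bil), trg G x (a • B) = a * trg G x B := by
      intro G a B
      simp only [trg, Matrix.smul_apply, smul_eq_mul, Finset.mul_sum]
      refine Finset.sum_congr rfl fun i _ => Finset.sum_congr rfl fun j _ => ?_
      ring
    show ev (c' x • hat η g h x) v v ≤ trg (modG l R g) x (c' x • hat η g h x)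
    rw [ev_smul, tr_smul]
    by_cases h0 : c' x = 0
    · rw [h0, zero_mul, zero_mul]
    · have h1 : 1 / (16 * R) < ‖x‖ := by
        by_contra hcon
        exact h0 (hcz' x (not_lt.1 hcon))
      have h2 : ‖x‖ < l := by
        by_contra hcon
        exact h0 (hcl x (not_lt.1 hcon))
      have h3 := hGsame x h1 h2
      have hx0 : x ∈ ({0}ᶜ : Set E3) := ne_zero_of_norm (by positivity) h1.le
      rw [h3] at hv
      have h4 : trg (modG l R g) x (hat η g h x) = trg g x (hat η g h x) := by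
        unfold trg
        rw [h3]
      rw [h4]
      exact mul_le_mul_of_nonneg_left (hTN x hx0 v hv) (hc0' x)
  · intro x hx
    show 1 + (kap (‖x‖ / l) * kin R x) • (g x - 1) = 1
    rw [hKAP.2.2.2.1 _ ?_, zero_mul, zero_smul, add_zero]
    rw [le_div_iff₀ hl0]
    linarith
  · intro x hx
    show c' x • hat η g h x = 0
    rw [hcl x hx, zero_smul]
  · intro x h1 h2
    show (kap (2 * ‖x‖ / l) * kin (R / 2) x) • hat η g h x = hat η g h x
    rw [kin_one hKAP hR2 (by convert h1 using 2; ring), hKAP.2.2.1 _ ?_, one_mul, one_smul]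
    rw [div_le_one hl0]
    linarith

end Pool.Agent.PFlow
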