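import Pool.Agent.PFlow.StmtsE1

/-!
# The cut-off functions of the energy block
-/

open MeasureTheory Filter Topology
open scoped ContDiff ENNReal

namespace Pool.Agent.PFlow

open Pool.Agent.PenroseSph

namespace KAPm

theorem kap_smooth : ContDiff ℝ ∞ kap := by
  unfold kap
  exact Real.smoothTransition.contDiff.comp (contDiff_const.sub contDiff_id)

theorem kap_one {s : ℝ} (hs : s ≤ 1) : kap s = 1 := by
  unfold kap
  exact Real.smoothTransition.one_of_one_le (by linarith)

theorem kap_zero {s : ℝ} (hs : 2 ≤ s) : kap s = 0 := by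
  unfold kap
  exact Real.smoothTransition.zero_of_nonpos (by linarith)

/-- the radial cut-off -/
noncomputable def phi (x : E3) : ℝ := kap ‖x‖

theorem phi_smooth : ContDiff ℝ ∞ phi := by
  rw [contDiff_iff_contDiffAt]
  intro x
  by_cases hx : ‖x‖ < 1
  · have h : phi =ᶠ[𝓝 x] fun _ => 1 := by
      filter_upwards [continuous_norm.continuousAt.eventually (gt_mem_nhds hx)] with y hy
      exact kap_one hy.le
    exact contDiffAt_const.congr_of_eventuallyEq h
  · have hx0 : x ≠ 0 := by
      intro h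
      apply hx
      rw [h, norm_zero]
      exact one_pos
    have h1 : ContDiffAt ℝ ∞ (fun y : E3 => ‖y‖) x := contDiffAt_norm ℝ hx0
    exact kap_smooth.contDiffAt.comp x h1

theorem phi_compact : HasCompactSupport phi := by
  apply HasCompactSupport.intro (isCompact_closedBall (0 : E3) 2)
  intro x hx
  rw [Metric.mem_closedBall, dist_zero_right, not_le] at hx
  exact kap_zero hx.le

theorem pd_smooth {f : E3 → ℝ} (hf : ContDiff ℝ ∞ f) (k : Fin 3) : ContDiff ℝ ∞ (pd k f) := by
  have h : ContDiff ℝ ∞ (fderiv ℝ f) := hf.fderiv_right (by simp)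
  exact h.clm_apply contDiff_const

theorem pd_compact {f : E3 → ℝ} (hf : HasCompactSupport f) (k : Fin 3) :
    HasCompactSupport (pd k f) := by
  have h := hf.fderiv (𝕜 := ℝ)
  exact h.comp_left (g := fun L : E3 →L[ℝ] ℝ => L (EuclideanSpace.single k 1)) rfl

theorem pd_scale {f : E3 → ℝ} (hf : ContDiff ℝ ∞ f) (k : Fin 3) (c : ℝ) (x : E3) :
    pd k (fun y => f (c • y)) x = c * pd k f (c • x) := by
  have hd : HasFDerivAt f (fderiv ℝ f (c • x)) (c • x) :=
    ((hf.differentiable (by simp)) (c • x)).hasFDerivAt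
  have h1 : HasFDerivAt (fun y : E3 => c • y) (c • ContinuousLinearMap.id ℝ E3) x :=
    (hasFDerivAt_id x).const_smul c
  have h2 : HasFDerivAt (fun y => f (c • y))
      ((fderiv ℝ f (c • x)).comp (c • ContinuousLinearMap.id ℝ E3)) x := hd.comp x h1
  unfold pd
  rw [h2.fderiv]
  simp

theorem pd_const_mul {f : E3 → ℝ} {x : E3} (hf : DifferentiableAt ℝ f x) (k : Fin 3) (c : ℝ) :
    pd k (fun y => c * f y) x = c * pd k f x := by
  unfold pd
  rw [(hf.hasFDerivAt.const_mul c).fderiv]
  simp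

theorem scale_eq {l : ℝ} (hl : 0 < l) : (fun y : E3 => kap (‖y‖ / l)) = fun y => phi (l⁻¹ • y) := by
  funext y
  unfold phi
  rw [norm_smul, norm_inv, Real.norm_of_nonneg hl.le]
  congr 1
  rw [div_eq_inv_mul]

theorem phi_scale_smooth (c : ℝ) : ContDiff ℝ ∞ fun y : E3 => phi (c • y) :=
  phi_smooth.comp (contDiff_const_smul c)

theorem bounded {f : E3 → ℝ} (hf : ContDiff ℝ ∞ f) (hc : HasCompactSupport f) :
    ∃ C : ℝ, ∀ x, |f x| ≤ C := hc.exists_bound_of_continuous hf.continuous

end KAPm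

theorem KAP : Stmt_KAP := by
  refine ⟨KAPm.kap_smooth, ?_, fun s hs => KAPm.kap_one hs, fun s hs => KAPm.kap_zero hs, ?_, ?_, ?_⟩
  · intro s
    exact ⟨Real.smoothTransition.nonneg _, Real.smoothTransition.le_one _⟩
  · have h1 : ∀ k : Fin 3, ∃ C : ℝ, ∀ x, |pd k KAPm.phi x| ≤ C := fun k =>
      KAPm.bounded (KAPm.pd_smooth KAPm.phi_smooth k) (KAPm.pd_compact KAPm.phi_compact k)
    have h2 : ∀ p : Fin 3 × Fin 3, ∃ C : ℝ, ∀ x, |pd p.1 (pd p.2 KAPm.phi) x| ≤ C := fun p =>
      KAPm.bounded (KAPm.pd_smooth (KAPm.pd_smooth KAPm.phi_smooth p.2) p.1)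
        (KAPm.pd_compact (KAPm.pd_compact KAPm.phi_compact p.2) p.1)
    choose A hA using h1
    choose B hB using h2
    obtain ⟨C1, hC1⟩ := (Set.finite_range A).bddAbove
    obtain ⟨C2, hC2⟩ := (Set.finite_range B).bddAbove
    refine ⟨max (max C1 C2) 1, lt_max_of_lt_right one_pos, ?_⟩
    intro l hl x
    have hinv : 0 < l⁻¹ := inv_pos.mpr hl
    rw [KAPm.scale_eq hl]
    constructor
    · intro k
      rw [KAPm.pd_scale KAPm.phi_smooth, abs_mul, abs_of_pos hinv, div_eq_inv_mul]
      apply mul_le_mul_of_nonneg_left _ hinv.le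
      exact ((hA k _).trans (hC1 ⟨k, rfl⟩)).trans ((le_max_left _ _).trans (le_max_left _ _))
    · intro k m
      have e1 : pd m (fun y : E3 => KAPm.phi (l⁻¹ • y)) =
          fun y => l⁻¹ * (fun z : E3 => pd m KAPm.phi (l⁻¹ • z)) y := by
        funext y
        exact KAPm.pd_scale KAPm.phi_smooth m l⁻¹ y
      have hsm := KAPm.pd_smooth KAPm.phi_smooth m
      have e2 : pd k (pd m (fun y : E3 => KAPm.phi (l⁻¹ • y))) x =
          l⁻¹ * (l⁻¹ * pd k (pd m KAPm.phi) (l⁻¹ • x)) := by
        rw [e1, KAPm.pd_const_mul, KAPm.pd_scale hsm]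
        exact ((hsm.comp (contDiff_const_smul l⁻¹)).differentiable (by simp)) x
      rw [e2, abs_mul, abs_mul, abs_of_pos hinv]
      have e3 : max (max C1 C2) 1 / l ^ 2 = l⁻¹ * (l⁻¹ * max (max C1 C2) 1) := by
        field_simp
      rw [e3]
      apply mul_le_mul_of_nonneg_left _ hinv.le
      apply mul_le_mul_of_nonneg_left _ hinv.le
      exact ((hB (k, m) _).trans (hC2 ⟨(k, m), rfl⟩)).trans
        ((le_max_right _ _).trans (le_max_left _ _))
  · intro l hl
    rw [KAPm.scale_eq hl]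
    exact KAPm.phi_scale_smooth _
  · intro R hR
    have h : kin R = fun x => 1 - KAPm.phi ((32 * R) • x) := by
      funext x
      unfold kin KAPm.phi
      rw [norm_smul, Real.norm_of_nonneg (by positivity)]
    rw [h]
    exact contDiff_const.sub (KAPm.phi_scale_smooth _)

end Pool.Agent.PFlow
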