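import Pool.Agent.PFlow.StmtsE1

/-!
# Module SHELL: the surplus in the region where the tensor is cut off
-/

open MeasureTheory Filter Topology
open scoped ContDiff

namespace Pool.Agent.PFlow

open Pool.Agent.PenroseSph

namespace EShell

/-! ### Germs -/

theorem pd_congr {f f' : E3 → ℝ} {x : E3} (h : f =ᶠ[𝓝 x] f') (i : Fin 3) :
    pd i f x = pd i f' x := by
  unfold pd
  rw [h.fderiv_eq]

theorem comp_congr {g g' : TensorField} {x : E3} (h : g =ᶠ[𝓝 x] g') (i j : Fin 3) :
    (fun y => g y i j) =ᶠ[𝓝 x] fun y => g' y i j :=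
  h.mono fun y hy => by simp only [hy]

theorem christoffel_congr {g g' : TensorField} {x : E3} (h : g =ᶠ[𝓝 x] g') (k i j : Fin 3) :
    christoffel g k i j x = christoffel g' k i j x := by
  have hx : g x = g' x := h.self_of_nhds
  unfold christoffel
  rw [hx]
  simp only [pd_congr (comp_congr h _ _)]

theorem christoffel_congr' {g g' : TensorField} {x : E3} (h : g =ᶠ[𝓝 x] g') (k i j : Fin 3) :
    christoffel g k i j =ᶠ[𝓝 x] christoffel g' k i j :=
  h.eventuallyEq_nhds.mono fun _ hy => christoffel_congr hy k i j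

theorem scalar_congr {g g' : TensorField} {x : E3} (h : g =ᶠ[𝓝 x] g') :
    scalarCurvature g x = scalarCurvature g' x := by
  have hx : g x = g' x := h.self_of_nhds
  unfold scalarCurvature ricci
  rw [hx]
  simp only [pd_congr (christoffel_congr' h _ _ _), christoffel_congr h]

theorem trace_congr {g g' h h' : TensorField} {x : E3} (hg : g x = g' x) (hh : h x = h' x) :
    traceWith g h x = traceWith g' h' x := by
  unfold traceWith
  rw [hg, hh]

theorem norm_congr {g g' h h' : TensorField} {x : E3} (hg : g x = g' x) (hh : h x = h' x) :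
    normSqWith g h x = normSqWith g' h' x := by
  unfold normSqWith
  rw [hg, hh]

theorem energy_congr {g g' h h' : TensorField} {x : E3} (hg : g =ᶠ[𝓝 x] g')
    (hh : h =ᶠ[𝓝 x] h') : energyDensity g h x = energyDensity g' h' x := by
  unfold energyDensity
  rw [scalar_congr hg, trace_congr hg.self_of_nhds hh.self_of_nhds,
    norm_congr hg.self_of_nhds hh.self_of_nhds]

theorem momentum_congr {g g' h h' : TensorField} {x : E3} (hg : g =ᶠ[𝓝 x] g')
    (hh : h =ᶠ[𝓝 x] h') (j : Fin 3) : momentumDensity g h j x = momentumDensity g' h' j x := by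
  have hT : (fun y => h y - traceWith g h y • g y) =ᶠ[𝓝 x]
      fun y => h' y - traceWith g' h' y • g' y := by
    filter_upwards [hg, hh] with y hy hy'
    rw [trace_congr hy hy', hy, hy']
  have hTx := hT.self_of_nhds
  unfold momentumDensity divergence covDeriv
  rw [hg.self_of_nhds]
  simp only [pd_congr (comp_congr hT _ _), christoffel_congr hg]
  simp only [hTx]

theorem surplus_congr {g g' h h' : TensorField} {x : E3} (hg : g =ᶠ[𝓝 x] g')
    (hh : h =ᶠ[𝓝 x] h') : surplus g h x = surplus g' h' x := by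
  unfold surplus jlen
  rw [energy_congr hg hh, hg.self_of_nhds]
  simp only [momentum_congr hg hh]

/-! ### Bounds at a point -/

theorem ev_symm {B : Bil} (hB : B.IsSymm) (v w : Cov) : ev B v w = ev B w v := by
  unfold ev
  rw [Finset.sum_comm]
  refine Finset.sum_congr rfl fun i _ => Finset.sum_congr rfl fun j _ => ?_
  rw [hB.apply i j]
  ring

/-- The inverse of an elliptic matrix is bounded. -/
theorem ev_inv_le {P : Bil} (hP : P.PosDef) {C : ℝ} (hC : ∀ v : Cov, ∑ i, v i ^ 2 ≤ C * ev P v v)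
    (p : Cov) : 0 ≤ ev P⁻¹ p p ∧ ev P⁻¹ p p ≤ C * ∑ i, p i ^ 2 := by
  have hdet : IsUnit P.det := hP.det_pos.ne'.isUnit
  set v : Cov := P⁻¹.mulVec p with hv
  have hPv : P.mulVec v = p := by
    rw [hv, Matrix.mulVec_mulVec, Matrix.mul_nonsing_inv _ hdet, Matrix.one_mulVec]
  have h1 : ev P⁻¹ p p = ∑ i, p i * v i := by
    unfold ev
    refine Finset.sum_congr rfl fun i _ => ?_
    rw [hv, Matrix.mulVec, dotProduct, Finset.mul_sum]
    refine Finset.sum_congr rfl fun j _ => ?_
    ring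
  have h2 : ev P v v = ∑ i, p i * v i := by
    unfold ev
    refine Finset.sum_congr rfl fun i _ => ?_
    rw [← hPv, Matrix.mulVec, dotProduct, Finset.sum_mul]
    refine Finset.sum_congr rfl fun j _ => ?_
    ring
  have h3 : 0 ≤ ev P⁻¹ p p := by
    have := hP.inv.posSemidef.dotProduct_mulVec_nonneg p
    rw [h1]
    simpa [hv, dotProduct] using this
  refine ⟨h3, ?_⟩
  have h4 : ∑ i, v i ^ 2 ≤ C * ev P⁻¹ p p := by
    rw [h1, ← h2]
    exact hC v
  have h5 : (∑ i, p i * v i) ^ 2 ≤ (∑ i, p i ^ 2) * ∑ i, v i ^ 2 :=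
    Finset.sum_mul_sq_le_sq_mul_sq _ _ _
  rw [← h1] at h5
  have h6 : 0 ≤ ∑ i, p i ^ 2 := Finset.sum_nonneg fun i _ => sq_nonneg _
  rcases h3.eq_or_lt with h7 | h7
  · rw [← h7]
    have hCp : 0 ≤ C := by
      by_contra hneg
      push Not at hneg
      have h8 := hC (Pi.single 0 1)
      have h9 : (0 : ℝ) ≤ ev P (Pi.single 0 1) (Pi.single 0 1) := by
        have := hP.posSemidef.dotProduct_mulVec_nonneg (Pi.single 0 1 : Cov)
        simp only [Fin.isValue, star_trivial, single_one_dotProduct, Matrix.mulVec_single_one,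
          Matrix.col_apply] at this
        simpa [ev, Fin.sum_univ_three, Pi.single_apply] using this
      have h10 : ∑ i : Fin 3, (Pi.single 0 1 : Cov) i ^ 2 = 1 := by
        simp [Fin.sum_univ_three, Pi.single_apply]
      rw [h10] at h8
      nlinarith
    positivity
  · have h8 : ev P⁻¹ p p ^ 2 ≤ (∑ i, p i ^ 2) * (C * ev P⁻¹ p p) :=
      h5.trans (mul_le_mul_of_nonneg_left h4 h6)
    have h9 : ev P⁻¹ p p * ev P⁻¹ p p ≤ (C * ∑ i, p i ^ 2) * ev P⁻¹ p p := by nlinarith
    exact le_of_mul_le_mul_right h9 h7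

theorem ev_single (B : Bil) (i j : Fin 3) (a b : ℝ) :
    ev B (Pi.single i a) (Pi.single j b) = B i j * a * b := by
  unfold ev
  rw [Finset.sum_eq_single i, Finset.sum_eq_single j]
  · simp
  · intro k _ hk; simp [hk]
  · simp
  · intro k _ hk; simp [hk]
  · simp

theorem ev_add (B : Bil) (v w v' w' : Cov) :
    ev B (v + w) (v' + w') = ev B v v' + ev B v w' + ev B w v' + ev B w w' := by
  unfold ev
  rw [← Finset.sum_add_distrib, ← Finset.sum_add_distrib, ← Finset.sum_add_distrib]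
  refine Finset.sum_congr rfl fun i _ => ?_
  rw [← Finset.sum_add_distrib, ← Finset.sum_add_distrib, ← Finset.sum_add_distrib]
  refine Finset.sum_congr rfl fun j _ => ?_
  simp only [Pi.add_apply]
  ring

theorem inv_entry {P : Bil} (hP : P.PosDef) {C : ℝ}
    (hC : ∀ v : Cov, ∑ i, v i ^ 2 ≤ C * ev P v v) (i j : Fin 3) : |P⁻¹ i j| ≤ C := by
  have hsymm : (P⁻¹).IsSymm := by
    have h1 := hP.inv.isHermitian
    rw [Matrix.IsHermitian, Matrix.conjTranspose_eq_transpose_of_trivial] at h1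
    exact h1
  have hs : ∀ k : Fin 3, ∀ a : ℝ, ∑ l, (Pi.single k a : Cov) l ^ 2 = a ^ 2 := by
    intro k a
    rw [Finset.sum_eq_single k]
    · simp
    · intro l _ hl; simp [hl]
    · simp
  have hd : ∀ k : Fin 3, P⁻¹ k k ≤ C := by
    intro k
    have := (ev_inv_le hP hC (Pi.single k 1)).2
    rw [ev_single, hs] at this
    linarith
  have h1 := (ev_inv_le hP hC (Pi.single i 1 + Pi.single j 1)).1
  have h2 := (ev_inv_le hP hC (Pi.single i 1 + Pi.single j (-1))).1
  rw [ev_add, ev_single, ev_single, ev_single, ev_single] at h1 h2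
  have h3 : P⁻¹ j i = P⁻¹ i j := hsymm.apply i j
  rw [h3] at h1 h2
  rw [abs_le]
  constructor <;> linarith [hd i, hd j]

theorem abs_entry_le_msz (B : Bil) (i j : Fin 3) : |B i j| ≤ msz B := by
  unfold msz
  apply Real.abs_le_sqrt
  have h1 : B i j ^ 2 ≤ ∑ l, B i l ^ 2 :=
    Finset.single_le_sum (f := fun l => B i l ^ 2) (fun l _ => sq_nonneg _) (Finset.mem_univ j)
  have h2 : ∑ l, B i l ^ 2 ≤ ∑ k, ∑ l, B k l ^ 2 :=
    Finset.single_le_sum (f := fun k => ∑ l, B k l ^ 2)
      (fun k _ => Finset.sum_nonneg fun l _ => sq_nonneg _) (Finset.mem_univ i)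
  exact h1.trans h2

theorem msz_nonneg (B : Bil) : 0 ≤ msz B := Real.sqrt_nonneg _

theorem trg_le {g : TensorField} {x : E3} (B : Bil) {C M : ℝ} (hC : ∀ i j, |(g x)⁻¹ i j| ≤ C)
    (hM : ∀ i j, |B i j| ≤ M) : |trg g x B| ≤ 9 * (C * M) := by
  have hC0 : 0 ≤ C := (abs_nonneg _).trans (hC 0 0)
  unfold trg
  refine (Finset.abs_sum_le_sum_abs _ _).trans ?_
  have h1 : ∀ i : Fin 3, |∑ j, (g x)⁻¹ i j * B i j| ≤ 3 * (C * M) := by
    intro i
    refine (Finset.abs_sum_le_sum_abs _ _).trans ?_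
    refine (Finset.sum_le_sum fun j _ => ?_ : _ ≤ ∑ _j : Fin 3, C * M).trans (by simp)
    rw [abs_mul]
    exact mul_le_mul (hC i j) (hM i j) (abs_nonneg _) hC0
  refine (Finset.sum_le_sum fun i _ => h1 i).trans ?_
  simp
  linarith

theorem nsq_le {g : TensorField} {x : E3} (B : Bil) {C M : ℝ} (hC : ∀ i j, |(g x)⁻¹ i j| ≤ C)
    (hM : ∀ i j, |B i j| ≤ M) : |nsq g x B| ≤ 81 * (C * M) ^ 2 := by
  have hC0 : 0 ≤ C := (abs_nonneg _).trans (hC 0 0)
  have hM0 : 0 ≤ M := (abs_nonneg _).trans (hM 0 0)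
  unfold nsq
  refine (Finset.abs_sum_le_sum_abs _ _).trans ?_
  have h1 : ∀ i j k l : Fin 3, |(g x)⁻¹ i k * (g x)⁻¹ j l * B i j * B k l| ≤ (C * M) ^ 2 := by
    intro i j k l
    rw [abs_mul, abs_mul, abs_mul]
    calc |(g x)⁻¹ i k| * |(g x)⁻¹ j l| * |B i j| * |B k l| ≤ C * C * M * M := by
          gcongr
          · exact hC i k
          · exact hC j l
          · exact hM i j
          · exact hM k l
      _ = (C * M) ^ 2 := by ring
  have h2 : ∀ i : Fin 3, |∑ j, ∑ k, ∑ l, (g x)⁻¹ i k * (g x)⁻¹ j l * B i j * B k l|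
      ≤ 27 * (C * M) ^ 2 := by
    intro i
    refine (Finset.abs_sum_le_sum_abs _ _).trans ?_
    have h3 : ∀ j : Fin 3, |∑ k, ∑ l, (g x)⁻¹ i k * (g x)⁻¹ j l * B i j * B k l|
        ≤ 9 * (C * M) ^ 2 := by
      intro j
      refine (Finset.abs_sum_le_sum_abs _ _).trans ?_
      have h4 : ∀ k : Fin 3, |∑ l, (g x)⁻¹ i k * (g x)⁻¹ j l * B i j * B k l|
          ≤ 3 * (C * M) ^ 2 := by
        intro k
        refine (Finset.abs_sum_le_sum_abs _ _).trans ?_
        refine (Finset.sum_le_sum fun l _ => h1 i j k l).trans ?_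
        simp
      refine (Finset.sum_le_sum fun k _ => h4 k).trans ?_
      simp
      linarith
    refine (Finset.sum_le_sum fun j _ => h3 j).trans ?_
    simp
    linarith
  refine (Finset.sum_le_sum fun i _ => h2 i).trans ?_
  simp
  linarith

theorem len_le {g : TensorField} {x : E3} (p : Cov) {C M : ℝ} (hC : ∀ i j, |(g x)⁻¹ i j| ≤ C)
    (hM : ∀ i, |p i| ≤ M) : len g x p ≤ 3 * (1 + C) * M := by
  have hC0 : 0 ≤ C := (abs_nonneg _).trans (hC 0 0)
  have hM0 : 0 ≤ M := (abs_nonneg _).trans (hM 0)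
  have h1 : ev (g x)⁻¹ p p ≤ 9 * (C * M ^ 2) := by
    refine (le_abs_self _).trans ?_
    unfold ev
    refine (Finset.abs_sum_le_sum_abs _ _).trans ?_
    have h2 : ∀ i : Fin 3, |∑ j, (g x)⁻¹ i j * p i * p j| ≤ 3 * (C * M ^ 2) := by
      intro i
      refine (Finset.abs_sum_le_sum_abs _ _).trans ?_
      refine (Finset.sum_le_sum fun j _ => ?_ : _ ≤ ∑ _j : Fin 3, C * M ^ 2).trans (by simp)
      rw [abs_mul, abs_mul]
      calc |(g x)⁻¹ i j| * |p i| * |p j| ≤ C * M * M := by
            gcongr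
            · exact hC i j
            · exact hM i
            · exact hM j
        _ = C * M ^ 2 := by ring
    refine (Finset.sum_le_sum fun i _ => h2 i).trans ?_
    simp
    linarith
  unfold len
  apply Real.sqrt_le_iff.mpr
  refine ⟨by positivity, h1.trans ?_⟩
  have h3 : C ≤ (1 + C) ^ 2 := by nlinarith
  calc 9 * (C * M ^ 2) ≤ 9 * ((1 + C) ^ 2 * M ^ 2) := by gcongr
    _ = (3 * (1 + C) * M) ^ 2 := by ring

theorem trg_smul (g : TensorField) (x : E3) (c : ℝ) (B : Bil) :
    trg g x (c • B) = c * trg g x B := by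
  unfold trg
  rw [Finset.mul_sum]
  refine Finset.sum_congr rfl fun i _ => ?_
  rw [Finset.mul_sum]
  refine Finset.sum_congr rfl fun j _ => ?_
  rw [Matrix.smul_apply, smul_eq_mul]
  ring

theorem nsq_smul (g : TensorField) (x : E3) (c : ℝ) (B : Bil) :
    nsq g x (c • B) = c ^ 2 * nsq g x B := by
  unfold nsq
  simp only [Finset.mul_sum]
  refine Finset.sum_congr rfl fun i _ => Finset.sum_congr rfl fun j _ =>
    Finset.sum_congr rfl fun k _ => Finset.sum_congr rfl fun l _ => ?_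
  rw [Matrix.smul_apply, smul_eq_mul, Matrix.smul_apply, smul_eq_mul]
  ring

theorem hatF_sq_le (η t : ℝ) (hη : 0 < η) : hatF η t ^ 2 ≤ 1 := by
  unfold hatF
  rw [div_pow, Real.sq_sqrt (by positivity), div_le_one (by positivity)]
  nlinarith [sq_nonneg η]

theorem kap_pos {s : ℝ} (hs : s < 2) : 0 < kap s := by
  unfold kap
  exact Real.smoothTransition.pos_of_pos (by linarith)

end EShell

open EShell in
theorem SHELL (_hHATA : Stmt_HATA) (hHATC : Stmt_HATC) (hJPROD : Stmt_JPROD) (hKAP : Stmt_KAP)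
    (hCUTM : Stmt_CUTM) : Stmt_SHELL := by
  intro g h C hg hh hPS hDEC _hdec hell
  obtain ⟨_, hk01, hk1, hk2, ⟨K, hK0, hK⟩, hksm, _⟩ := hKAP
  have hCpos : 0 ≤ C := by
    have hx : (EuclideanSpace.single 0 1 : E3) ∈ ({0}ᶜ : Set E3) := by
      intro h0
      have := congrArg (fun y : E3 => ‖y‖) h0
      simp at this
    have h1 := inv_entry (hg.posDef _ hx) (C := C)
      (fun v => ((hell (EuclideanSpace.single 0 1) (by simp) v).1)) 0 0
    exact (abs_nonneg _).trans h1
  refine ⟨122 * C ^ 2 + 108 * (C * (1 + C)) * K + 1, by positivity, ?_⟩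
  intro η l R hη hl hR x hx1 hx2
  have hl0 : 0 < l := by linarith
  have hx0 : x ≠ 0 := by
    rintro rfl
    rw [norm_zero] at hx1
    linarith
  have hxn : 1 ≤ ‖x‖ := by linarith
  have hgx := hg.posDef x hx0
  obtain ⟨hmg, hmh, _, hsame, _, _, _⟩ := hCUTM g h η l R hη (by linarith) hR hg hh hPS
  set f : E3 → ℝ := fun y => kap (‖y‖ / (l / 2)) with hf
  -- the open shell
  set U : Set E3 := {y : E3 | l / 2 < ‖y‖ ∧ ‖y‖ < l} with hU
  have hUo : IsOpen U := by
    have : U = (fun y : E3 => ‖y‖) ⁻¹' Set.Ioo (l / 2) l := rfl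
    rw [this]
    exact isOpen_Ioo.preimage continuous_norm
  have hxU : x ∈ U := ⟨hx1, hx2⟩
  have hRpos : 0 < R := by linarith
  have hGU : ∀ y ∈ U, modG l R g y = g y := by
    intro y hy
    apply hsame y _ hy.2
    have h1 : 1 / (16 * R) < 1 := by
      rw [div_lt_one (by positivity)]
      linarith
    have := hy.1
    linarith
  have hHU : ∀ y ∈ U, modH η l R g h y = f y • hat η g h y := by
    intro y hy
    unfold modH kin
    have h1 : kap (32 * (R / 2) * ‖y‖) = 0 := by
      apply hk2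
      have h2 : 1 ≤ ‖y‖ := by linarith [hy.1]
      nlinarith
    have h2 : 2 * ‖y‖ / l = ‖y‖ / (l / 2) := by field_simp
    rw [h1, h2, sub_zero, mul_one]
  have hUsub : U ⊆ ({0}ᶜ : Set E3) := by
    intro y hy h0
    rw [Set.mem_singleton_iff] at h0
    have := hy.1
    rw [h0, norm_zero] at this
    linarith
  have hfpos : ∀ y ∈ U, 0 < f y := by
    intro y hy
    apply kap_pos
    rw [div_lt_iff₀ (by positivity)]
    linarith [hy.2]
  have hfsm : ContDiff ℝ ∞ f := hksm (l / 2) (by positivity)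
  have hhatU : TensorOn U (hat η g h) := by
    constructor
    · intro i j
      have h1 : ContDiffOn ℝ ∞ (fun y => (f y)⁻¹ * modH η l R g h y i j) U := by
        apply ContDiffOn.mul
        · exact hfsm.contDiffOn.inv fun y hy => (hfpos y hy).ne'
        · exact (hmh.smooth i j).mono (Set.subset_univ _)
      refine h1.congr ?_
      intro y hy
      rw [hHU y hy, Matrix.smul_apply, smul_eq_mul, ← mul_assoc,
        inv_mul_cancel₀ (hfpos y hy).ne', one_mul]
    · intro y hy
      unfold hat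
      exact (hh.symm y (hUsub hy)).smul _
  have hgU : MetricOn U g := ⟨fun i j => (hg.smooth i j).mono hUsub, fun y hy =>
    hg.posDef y (hUsub hy)⟩
  have hnear : ∀ᶠ y in 𝓝 x, y ∈ U := hUo.mem_nhds hxU
  have e1 : modG l R g =ᶠ[𝓝 x] g := hnear.mono hGU
  have e2 : modH η l R g h =ᶠ[𝓝 x] fun y => f y • hat η g h y := hnear.mono hHU
  rw [surplus_congr e1 e2]
  -- the ingredients
  have hJ := (hJPROD U g (hat η g h) f hUo hgU hhatU hfsm.contDiffOn x hxU).2
  have hC' := (hHATC g h η hη hg hh hPS x hx0).2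
  have hD : jlen g h x ≤ energyDensity g h x := hDEC x (by linarith)
  have hinv : ∀ i j, |(g x)⁻¹ i j| ≤ C := inv_entry hgx fun v => (hell x hxn v).1
  have hM : ∀ i j, |h x i j| ≤ msz (h x) := abs_entry_le_msz _
  have hm0 : 0 ≤ msz (h x) := msz_nonneg _
  have ht := trg_le (h x) hinv hM
  have hn := nsq_le (h x) hinv hM
  have hlen : len g x (grad f x) ≤ 3 * (1 + C) * (K / (l / 2)) :=
    len_le _ hinv fun i => (hK (l / 2) (by positivity) x).1 i
  set t := trg g x (h x) with ht'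
  set N := nsq g x (h x) with hN'
  set m := msz (h x) with hm'
  have hf0 : 0 ≤ f x := (hk01 _).1
  have hf1 : f x ≤ 1 := (hk01 _).2
  set F := hatF η t with hF'
  have hF2 : F ^ 2 ≤ 1 := hatF_sq_le η t hη
  have hF0 : 0 ≤ F ^ 2 := sq_nonneg _
  have hhat : hat η g h x = F • h x := rfl
  have hnh : nsq g x (hat η g h x) = F ^ 2 * N := by rw [hhat, nsq_smul]
  have hth : trg g x (hat η g h x) = F * t := by rw [hhat, trg_smul]
  have ht2 : t ^ 2 ≤ 81 * (C * m) ^ 2 := by
    have h1 : t ^ 2 = |t| ^ 2 := (sq_abs t).symm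
    rw [h1]
    have h2 : |t| ^ 2 ≤ (9 * (C * m)) ^ 2 := by gcongr
    linarith [h2, (by ring : (9 * (C * m)) ^ 2 = 81 * (C * m) ^ 2)]
  have hNabs := abs_le.mp hn
  -- the energy density
  have hE : energyDensity g (fun y => f y • hat η g h y) x
      = (1 / 2) * (scalarCurvature g x - f x ^ 2 * (F ^ 2 * N) + (f x * (F * t)) ^ 2) := by
    have h1 : normSqWith g (fun y => f y • hat η g h y) x = f x ^ 2 * (F ^ 2 * N) := by
      have : normSqWith g (fun y => f y • hat η g h y) x = nsq g x (f x • hat η g h x) := rfl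
      rw [this, nsq_smul, hnh]
    have h2 : traceWith g (fun y => f y • hat η g h y) x = f x * (F * t) := by
      have : traceWith g (fun y => f y • hat η g h y) x = trg g x (f x • hat η g h x) := rfl
      rw [this, trg_smul, hth]
    unfold energyDensity
    rw [h1, h2]
  have hE0 : energyDensity g h x = (1 / 2) * (scalarCurvature g x - N + t ^ 2) := rfl
  have hc : f x ^ 2 * F ^ 2 ≤ 1 := by
    have : f x ^ 2 ≤ 1 := by nlinarith
    nlinarith [sq_nonneg (f x)]
  have hc0 : 0 ≤ f x ^ 2 * F ^ 2 := by positivity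
  have hA0 : 0 ≤ 81 * (C * m) ^ 2 := by positivity
  have hfN : f x ^ 2 * (F ^ 2 * N) ≤ 81 * (C * m) ^ 2 := by
    have : f x ^ 2 * (F ^ 2 * N) = (f x ^ 2 * F ^ 2) * N := by ring
    rw [this]
    nlinarith [hNabs.2]
  have hsq : Real.sqrt (nsq g x (hat η g h x) + trg g x (hat η g h x) ^ 2) ≤ 18 * (C * m) := by
    rw [hnh, hth]
    apply Real.sqrt_le_iff.mpr
    refine ⟨by positivity, ?_⟩
    have h1 : F ^ 2 * N ≤ 81 * (C * m) ^ 2 := by nlinarith [hNabs.2]
    have h2 : (F * t) ^ 2 ≤ 81 * (C * m) ^ 2 := by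
      rw [mul_pow]
      nlinarith [sq_nonneg t]
    nlinarith
  have hsl : Real.sqrt (nsq g x (hat η g h x) + trg g x (hat η g h x) ^ 2) * len g x (grad f x)
      ≤ (18 * (C * m)) * (3 * (1 + C) * (K / (l / 2))) :=
    mul_le_mul hsq hlen (Real.sqrt_nonneg _) (by positivity)
  have hj0 : 0 ≤ jlen g (hat η g h) x := Real.sqrt_nonneg _
  have hfj : |f x| * jlen g (hat η g h) x ≤ jlen g (hat η g h) x := by
    rw [abs_of_nonneg hf0]
    nlinarith
  have hfin : (18 * (C * m)) * (3 * (1 + C) * (K / (l / 2))) = 108 * (C * (1 + C)) * K * (m / l) := by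
    field_simp
    ring
  rw [hfin] at hsl
  have hexp : (122 * C ^ 2 + 108 * (C * (1 + C)) * K + 1) * (m / l + m ^ 2)
      ≥ 122 * C ^ 2 * m ^ 2 + 108 * (C * (1 + C)) * K * (m / l) := by
    have h1 : 0 ≤ m / l := by positivity
    have h2 : 0 ≤ C ^ 2 * (m / l) := by positivity
    have h3 : 0 ≤ (C * (1 + C)) * K * m ^ 2 := by positivity
    have h4 : 0 ≤ m ^ 2 := by positivity
    nlinarith
  unfold surplus
  rw [hE]
  rw [hE0] at hD
  have hpos : 0 ≤ (f x * (F * t)) ^ 2 := sq_nonneg _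
  nlinarith [hNabs.1, hNabs.2]

end Pool.Agent.PFlow
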