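import Pool.Agent.PFlow.StmtsE1

/-!
# The size of `h` at the other end

The squared length of a tensor does not depend on the coordinates; in the inverted coordinates the
metric is uniformly elliptic and the tensor is bounded by `C / |y|²`.
-/

open MeasureTheory Filter Topology
open scoped ContDiff ENNReal

namespace Pool.Agent.PFlow

open Pool.Agent.PenroseSph

namespace HSM2

/-- The squared length as a function of two matrices. -/
noncomputable def q (A B : Bil) : ℝ :=
  ∑ i, ∑ j, ∑ k, ∑ l, A i k * A j l * B i j * B k l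

theorem q_eq (A B : Bil) : q A B = (B.transpose * (A * B * A.transpose)).trace := by
  have h1 : q A B = ∑ i, ∑ j, B i j * (A * B * A.transpose) i j := by
    unfold q
    refine Finset.sum_congr rfl fun i _ => Finset.sum_congr rfl fun j _ => ?_
    simp only [Matrix.mul_apply, Matrix.transpose_apply, Finset.mul_sum, Finset.sum_mul]
    rw [Finset.sum_comm]
    refine Finset.sum_congr rfl fun k _ => Finset.sum_congr rfl fun l _ => ?_
    ring
  rw [h1]
  unfold Matrix.trace
  simp only [Matrix.diag_apply, Matrix.mul_apply (M := B.transpose), Matrix.transpose_apply]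
  rw [Finset.sum_comm]

/-- Invariance of the squared length. -/
theorem q_congr (A B J : Bil) : q (J * A * J.transpose) B = q A (J.transpose * B * J) := by
  rw [q_eq, q_eq]
  simp only [Matrix.transpose_mul, Matrix.transpose_transpose]
  have h1 : B.transpose * (J * A * J.transpose * B * (J * (A.transpose * J.transpose)))
      = (B.transpose * J * A * J.transpose * B * J * A.transpose) * J.transpose := by
    simp only [Matrix.mul_assoc]
  have h2 : J.transpose * (B.transpose * J) * (A * (J.transpose * B * J) * A.transpose)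
      = J.transpose * (B.transpose * J * A * J.transpose * B * J * A.transpose) := by
    simp only [Matrix.mul_assoc]
  rw [h1, h2, Matrix.trace_mul_comm]

theorem q_le (A B : Bil) (a b : ℝ) (ha : 0 ≤ a) (hb : 0 ≤ b) (hA : ∀ i j, |A i j| ≤ a)
    (hB : ∀ i j, |B i j| ≤ b) : q A B ≤ 81 * (a ^ 2 * b ^ 2) := by
  have hs : ∀ i j k l : Fin 3, A i k * A j l * B i j * B k l ≤ a ^ 2 * b ^ 2 := by
    intro i j k l
    calc A i k * A j l * B i j * B k l ≤ |A i k * A j l * B i j * B k l| := le_abs_self _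
      _ = |A i k| * |A j l| * |B i j| * |B k l| := by rw [abs_mul, abs_mul, abs_mul]
      _ ≤ a * a * b * b := by
          gcongr
          · exact hA i k
          · exact hA j l
          · exact hB i j
          · exact hB k l
      _ = a ^ 2 * b ^ 2 := by ring
  unfold q
  calc ∑ i, ∑ j, ∑ k, ∑ l, A i k * A j l * B i j * B k l
      ≤ ∑ i : Fin 3, ∑ j : Fin 3, ∑ k : Fin 3, ∑ l : Fin 3, a ^ 2 * b ^ 2 :=
        Finset.sum_le_sum fun i _ => Finset.sum_le_sum fun j _ => Finset.sum_le_sum fun k _ =>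
          Finset.sum_le_sum fun l _ => hs i j k l
    _ = 81 * (a ^ 2 * b ^ 2) := by
        simp only [Finset.sum_const, Finset.card_univ, Fintype.card_fin, nsmul_eq_mul]
        push_cast
        ring

theorem ev_eq (M : Bil) (v : Cov) : ev M v v = ∑ i, v i * (M.mulVec v) i := by
  unfold ev
  refine Finset.sum_congr rfl fun i _ => ?_
  simp only [Matrix.mulVec, dotProduct, Finset.mul_sum]
  refine Finset.sum_congr rfl fun j _ => ?_
  ring

/-- An elliptic matrix has a bounded inverse. -/
theorem inv_bound (M : Bil) (C : ℝ) (hC : 0 ≤ C)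
    (h : ∀ v : Cov, (∑ i, v i ^ 2) ≤ C * ev M v v) (hM : IsUnit M.det) (i j : Fin 3) :
    |M⁻¹ i j| ≤ C := by
  set v : Cov := M⁻¹.mulVec (Pi.single j 1) with hv
  have hvi : ∀ i, v i = M⁻¹ i j := by
    intro i
    rw [hv, Matrix.mulVec_single_one]
    rfl
  have hMv : M.mulVec v = Pi.single j 1 := by
    rw [hv, Matrix.mulVec_mulVec, Matrix.mul_nonsing_inv M hM, Matrix.one_mulVec]
  have h1 : (∑ i, v i ^ 2) ≤ C * v j := by
    have h2 := h v
    rw [ev_eq, hMv] at h2
    have h3 : ∑ i, v i * (Pi.single j (1 : ℝ) : Cov) i = v j := by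
      rw [Finset.sum_eq_single j]
      · simp
      · intro b _ hb
        simp [hb]
      · intro hb
        exact absurd (Finset.mem_univ _) hb
    rwa [h3] at h2
  have h4 : ∀ k, v k ^ 2 ≤ C * v j := fun k =>
    (Finset.single_le_sum (fun m _ => sq_nonneg (v m)) (Finset.mem_univ k)).trans h1
  have h5 : v j ≤ C := by
    by_contra hcon
    push Not at hcon
    have h6 := h4 j
    have h7 : 0 < v j := lt_of_le_of_lt hC hcon
    nlinarith
  have h6 : v i ^ 2 ≤ C ^ 2 := by
    calc v i ^ 2 ≤ C * v j := h4 i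
      _ ≤ C * C := mul_le_mul_of_nonneg_left h5 hC
      _ = C ^ 2 := by ring
  rw [← hvi i]
  exact abs_le_of_sq_le_sq h6 hC

/-- The Jacobian of the inversion squares to a multiple of the identity. -/
theorem jac_sq (y : E3) (hy : y ≠ 0) :
    inversionJac y * inversionJac y = ((‖y‖ ^ 2)⁻¹ ^ 2) • (1 : Bil) := by
  have hn : ‖y‖ ≠ 0 := norm_ne_zero_iff.mpr hy
  have hs : ‖y‖ ^ 2 = y 0 ^ 2 + y 1 ^ 2 + y 2 ^ 2 := by
    rw [EuclideanSpace.norm_sq_eq]
    simp [Fin.sum_univ_three]
  have hs0 : y 0 ^ 2 + y 1 ^ 2 + y 2 ^ 2 ≠ 0 := by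
    rw [← hs]
    positivity
  ext i j
  simp only [inversionJac, Matrix.mul_apply, Matrix.of_apply, Fin.sum_univ_three,
    Matrix.smul_apply, Matrix.one_apply, smul_eq_mul, hs]
  fin_cases i <;> fin_cases j <;> simp <;> field_simp <;> ring

theorem jac_unit (y : E3) (hy : y ≠ 0) : IsUnit (inversionJac y).det := by
  have hn : 0 < ‖y‖ := norm_pos_iff.mpr hy
  have h := congrArg Matrix.det (jac_sq y hy)
  rw [Matrix.det_mul, Matrix.det_smul, Matrix.det_one] at h
  rw [isUnit_iff_ne_zero]
  intro h0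
  rw [h0] at h
  have : (0 : ℝ) < ((‖y‖ ^ 2)⁻¹ ^ 2) ^ Fintype.card (Fin 3) * 1 := by positivity
  rw [← h] at this
  simp at this

theorem inversion_ne (x : E3) (hx : x ≠ 0) : inversion x ≠ 0 := by
  unfold inversion
  have hn : 0 < ‖x‖ := norm_pos_iff.mpr hx
  exact smul_ne_zero (by positivity) hx

theorem norm_inversion (x : E3) (hx : x ≠ 0) : ‖inversion x‖ = ‖x‖⁻¹ := by
  unfold inversion
  have hn : 0 < ‖x‖ := norm_pos_iff.mpr hx
  rw [norm_smul, norm_inv, norm_pow, norm_norm]
  field_simp

theorem inversion_inversion (x : E3) (hx : x ≠ 0) : inversion (inversion x) = x := by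
  have hn : 0 < ‖x‖ := norm_pos_iff.mpr hx
  have h1 : inversion (inversion x) = (‖inversion x‖ ^ 2)⁻¹ • inversion x := rfl
  rw [h1, norm_inversion x hx]
  unfold inversion
  rw [smul_smul]
  have : ((‖x‖⁻¹ ^ 2)⁻¹ * (‖x‖ ^ 2)⁻¹) = 1 := by field_simp
  rw [this, one_smul]

/-- The squared length in the inverted coordinates. -/
theorem nsq_eq (g h : TensorField) (x : E3) (hx : x ≠ 0) :
    nsq g x (h x) = q (inverted g (inversion x))⁻¹ (inverted h (inversion x)) := by
  have hJ := jac_unit (inversion x) (inversion_ne x hx)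
  set J := inversionJac (inversion x) with hJdef
  have hinv : ∀ k : TensorField, inverted k (inversion x) = J.transpose * k x * J := by
    intro k
    unfold inverted
    rw [inversion_inversion x hx]
  have h1 : nsq g x (h x) = q (g x)⁻¹ (h x) := rfl
  have hJt : IsUnit J.transpose.det := by rwa [Matrix.det_transpose]
  have h2 : (g x)⁻¹ = J * (inverted g (inversion x))⁻¹ * J.transpose := by
    rw [hinv g, Matrix.mul_inv_rev, Matrix.mul_inv_rev]
    calc (g x)⁻¹ = (J * J⁻¹) * (g x)⁻¹ * (J.transpose⁻¹ * J.transpose) := by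
          rw [Matrix.mul_nonsing_inv J hJ, Matrix.nonsing_inv_mul _ hJt, Matrix.one_mul,
            Matrix.mul_one]
      _ = J * (J⁻¹ * ((g x)⁻¹ * J.transpose⁻¹)) * J.transpose := by
          simp only [Matrix.mul_assoc]
  rw [h1, h2, q_congr, ← hinv h]

end HSM2

theorem HSM2 : Stmt_HSM2 := by
  intro g h C hg _ hdec hell
  have hC : 0 ≤ C := by
    have h1 : ∃ y : E3, (1 : ℝ) ≤ ‖y‖ ∧ y ≠ 0 := by
      refine ⟨EuclideanSpace.single 0 1, ?_, ?_⟩
      · simp
      · intro h0
        have := congrArg norm h0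
        simp at this
    obtain ⟨y, hy, hy0⟩ := h1
    have h2 := (hdec y hy 0 0).2.2.2.1
    have h3 : 0 ≤ C / ‖y‖ ^ 2 := (abs_nonneg _).trans h2
    have hn : 0 < ‖y‖ := lt_of_lt_of_le one_pos hy
    by_contra hcon
    push Not at hcon
    have : C / ‖y‖ ^ 2 < 0 := div_neg_of_neg_of_pos hcon (by positivity)
    linarith
  refine ⟨81 * C ^ 4 + 1, by positivity, ?_⟩
  intro x hx hx1
  have hn : 0 < ‖x‖ := norm_pos_iff.mpr hx
  have hy : 1 ≤ ‖inversion x‖ := by
    rw [HSM2.norm_inversion x hx]
    exact (one_le_inv₀ hn).mpr hx1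
  rw [HSM2.nsq_eq g h x hx]
  have hJ := HSM2.jac_unit (inversion x) (HSM2.inversion_ne x hx)
  have hunit : IsUnit (inverted g (inversion x)).det := by
    unfold inverted
    rw [HSM2.inversion_inversion x hx, Matrix.det_mul, Matrix.det_mul, Matrix.det_transpose]
    have hgx : IsUnit (g x).det := by
      rw [isUnit_iff_ne_zero]
      exact (hg.posDef x hx).det_pos.ne'
    exact (hJ.mul hgx).mul hJ
  have h1 := HSM2.q_le (inverted g (inversion x))⁻¹ (inverted h (inversion x)) C (C * ‖x‖ ^ 2)
    hC (by positivity)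
    (HSM2.inv_bound _ C hC (fun v => (hell _ hy v).1) hunit)
    (by
      intro i j
      have h2 := (hdec _ hy i j).2.2.2.1
      rw [HSM2.norm_inversion x hx] at h2
      refine h2.trans (le_of_eq ?_)
      field_simp)
  refine h1.trans ?_
  have h3 : 81 * (C ^ 2 * (C * ‖x‖ ^ 2) ^ 2) = 81 * C ^ 4 * ‖x‖ ^ 4 := by ring
  rw [h3]
  have h4 : 0 ≤ ‖x‖ ^ 4 := by positivity
  nlinarith

end Pool.Agent.PFlow
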