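import Pool.Agent.PFlow.StmtsE1

/-!
# HATA: if all sums of two eigenvalues of `B` are nonnegative then `|B|² ≤ 3 (tr B)²`
-/

open Matrix

namespace Pool.Agent.PFlow

open Pool.Agent.PenroseSph

namespace HATA

/-- A positive definite real matrix has a symmetric square root. -/
lemma exists_sqrt {G : Bil} (hG : G.PosSemidef) : ∃ S : Bil, Sᵀ = S ∧ S * S = G := by
  open scoped MatrixOrder in
  have h0 : (0 : Bil) ≤ G := Matrix.nonneg_iff_posSemidef.2 hG
  refine ⟨CFC.sqrt G, ?_, CFC.sqrt_mul_sqrt_self G h0⟩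
  have h1 : (0 : Bil) ≤ CFC.sqrt G := CFC.sqrt_nonneg G
  have h2 := (Matrix.nonneg_iff_posSemidef.1 h1).isHermitian
  rwa [Matrix.IsHermitian, Matrix.conjTranspose_eq_transpose_of_trivial] at h2

/-- Diagonalisation of a symmetric matrix. -/
lemma exists_diag {C : Bil} (hC : Cᵀ = C) :
    ∃ (U : Bil) (l : Fin 3 → ℝ), Uᵀ * U = 1 ∧ Uᵀ * C * U = Matrix.diagonal l := by
  have h1 : C.IsHermitian := by
    rwa [Matrix.IsHermitian, Matrix.conjTranspose_eq_transpose_of_trivial]
  refine ⟨(h1.eigenvectorUnitary : Bil), h1.eigenvalues, ?_, ?_⟩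
  · have h2 := Unitary.coe_star_mul_self h1.eigenvectorUnitary
    rwa [Matrix.star_eq_conjTranspose, Matrix.conjTranspose_eq_transpose_of_trivial] at h2
  · have h2 := h1.conjStarAlgAut_star_eigenvectorUnitary
    rw [Unitary.conjStarAlgAut_star_apply, Matrix.star_eq_conjTranspose,
      Matrix.conjTranspose_eq_transpose_of_trivial] at h2
    rw [h2]
    rfl

/-- Simultaneous diagonalisation. -/
lemma exists_simul {G B : Bil} (hG : G.PosDef) (hB : Bᵀ = B) :
    ∃ (V : Bil) (l : Fin 3 → ℝ), Vᵀ * G * V = 1 ∧ Vᵀ * B * V = Matrix.diagonal l ∧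
      V * Vᵀ = G⁻¹ := by
  obtain ⟨S, hS, hSS⟩ := exists_sqrt hG.inv.posSemidef
  have hdet : IsUnit G.det := (Matrix.isUnit_iff_isUnit_det _).1 hG.isUnit
  have h1 : (G * S) * S = 1 := by
    rw [Matrix.mul_assoc, hSS, Matrix.mul_nonsing_inv _ hdet]
  have h2 : S * (G * S) = 1 := mul_eq_one_comm.1 h1
  have hC : (S * B * S)ᵀ = S * B * S := by
    simp only [Matrix.transpose_mul, hS, hB, Matrix.mul_assoc]
  obtain ⟨U, l, hU, hUl⟩ := exists_diag hC
  have hU' : U * Uᵀ = 1 := mul_eq_one_comm.1 hU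
  refine ⟨S * U, l, ?_, ?_, ?_⟩
  · rw [Matrix.transpose_mul, hS]
    have h3 : Uᵀ * S * G * (S * U) = Uᵀ * (S * (G * S)) * U := by
      simp only [Matrix.mul_assoc]
    rw [h3, h2, Matrix.mul_one, hU]
  · rw [Matrix.transpose_mul, hS, ← hUl]
    simp only [Matrix.mul_assoc]
  · rw [Matrix.transpose_mul, hS]
    have h3 : S * U * (Uᵀ * S) = S * (U * Uᵀ) * S := by
      simp only [Matrix.mul_assoc]
    rw [h3, hU', Matrix.mul_one, hSS]

lemma ev_col (B V : Bil) (i : Fin 3) :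
    ev B (fun k => V k i) (fun k => V k i) = (Vᵀ * B * V) i i := by
  simp only [ev, Matrix.mul_apply, Matrix.transpose_apply, Finset.sum_mul]
  rw [Finset.sum_comm]
  refine Finset.sum_congr rfl fun j _ => Finset.sum_congr rfl fun k _ => ?_
  ring

lemma trg_trace (Gi B : Bil) (hG : Giᵀ = Gi) :
    ∑ i, ∑ j, Gi i j * B i j = (Gi * B).trace := by
  have hs : ∀ i j, Gi i j = Gi j i := fun i j => by
    conv_lhs => rw [← hG]
    rfl
  simp only [Matrix.trace, Matrix.diag_apply, Matrix.mul_apply]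
  rw [Finset.sum_comm]
  refine Finset.sum_congr rfl fun i _ => Finset.sum_congr rfl fun j _ => ?_
  rw [hs j i]

lemma nsq_trace (Gi B : Bil) (hG : Giᵀ = Gi) (hB : Bᵀ = B) :
    ∑ i, ∑ j, ∑ k, ∑ l, Gi i k * Gi j l * B i j * B k l = (Gi * B * Gi * B).trace := by
  have hs : ∀ i j, Gi i j = Gi j i := fun i j => by
    conv_lhs => rw [← hG]
    rfl
  have hb : ∀ i j, B i j = B j i := fun i j => by
    conv_lhs => rw [← hB]
    rfl
  simp only [Matrix.trace, Matrix.diag_apply, Matrix.mul_apply, Finset.sum_mul]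
  calc ∑ i, ∑ j, ∑ k, ∑ l, Gi i k * Gi j l * B i j * B k l
      = ∑ i, ∑ j, ∑ l, ∑ k, Gi i k * Gi j l * B i j * B k l := by
        refine Finset.sum_congr rfl fun i _ => Finset.sum_congr rfl fun j _ => ?_
        exact Finset.sum_comm
    _ = _ := by
        refine Finset.sum_congr rfl fun i _ => Finset.sum_congr rfl fun j _ =>
          Finset.sum_congr rfl fun l _ => Finset.sum_congr rfl fun k _ => ?_
        rw [hb i j, hb k l, hs j l]
        rw [hb l k]
        ring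

end HATA

open HATA in
/-- HATA: if all sums of two eigenvalues of `B` are nonnegative then `|B|² ≤ 3 (tr B)²`. -/
theorem HATA : Stmt_HATA := by
  intro g x B hg hB hv
  have hB' : Bᵀ = B := hB
  have hGi : ((g x)⁻¹)ᵀ = (g x)⁻¹ := by
    have := hg.inv.isHermitian
    rwa [Matrix.IsHermitian, Matrix.conjTranspose_eq_transpose_of_trivial] at this
  obtain ⟨V, l, h1, h2, h3⟩ := exists_simul hg hB'
  have ht : trg g x B = l 0 + l 1 + l 2 := by
    have e1 : trg g x B = ((g x)⁻¹ * B).trace := trg_trace _ _ hGi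
    rw [e1, ← h3, Matrix.mul_assoc, Matrix.trace_mul_comm, h2, Matrix.trace_diagonal,
      Fin.sum_univ_three]
  have hn : nsq g x B = l 0 ^ 2 + l 1 ^ 2 + l 2 ^ 2 := by
    have e1 : nsq g x B = ((g x)⁻¹ * B * (g x)⁻¹ * B).trace := nsq_trace _ _ hGi hB'
    rw [e1, ← h3]
    have e2 : V * Vᵀ * B * (V * Vᵀ) * B = V * (Vᵀ * B * V * (Vᵀ * B)) := by
      simp only [Matrix.mul_assoc]
    have e3 : Vᵀ * B * V * (Vᵀ * B) * V = (Vᵀ * B * V) * (Vᵀ * B * V) := by
      simp only [Matrix.mul_assoc]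
    rw [e2, Matrix.trace_mul_comm, e3, h2, Matrix.diagonal_mul_diagonal, Matrix.trace_diagonal,
      Fin.sum_univ_three]
    ring
  have hl : ∀ i, l i ≤ l 0 + l 1 + l 2 := by
    intro i
    have e1 := hv (fun k => V k i) (by rw [ev_col, h1]; simp)
    rw [ev_col, h2, ht] at e1
    simpa using e1
  have h4 := hl 0
  have h5 := hl 1
  have h6 := hl 2
  rw [ht, hn]
  constructor
  · linarith
  · nlinarith [mul_nonneg (sub_nonneg.2 h4) (sub_nonneg.2 h5),
      mul_nonneg (sub_nonneg.2 h4) (sub_nonneg.2 h6),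
      mul_nonneg (sub_nonneg.2 h5) (sub_nonneg.2 h6)]

end Pool.Agent.PFlow
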