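import Pool.Agent.PFlow.StmtsE2
import Pool.Agent.PFlow.M_L4
import Pool.Agent.PFlow.M_CT
import Pool.Agent.PFlow.M_Coef

/-!
# Module WGT, first part: dominated convergence and pointwise bounds
-/

set_option autoImplicit false

open MeasureTheory Filter Topology
open scoped ContDiff ENNReal

namespace Pool.Agent.PFlow

open Pool.Agent.PenroseSph

namespace EWGT

/-! ### Generalised dominated convergence -/

lemma ui_pow {μ : Measure E3} {u : ℕ → E3 → ℝ} {m : ℕ} (hm : 0 < m)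
    (h : UnifIntegrable u m μ) : UnifIntegrable (fun n x => u n x ^ m) 1 μ := by
  intro ε hε
  have hmr : (0 : ℝ) < m := by exact_mod_cast hm
  obtain ⟨δ, hδ, hu⟩ := h (Real.rpow_pos_of_pos hε (1 / (m : ℝ)))
  refine ⟨δ, hδ, fun n s hs hμ => ?_⟩
  have h1 := hu n s hs hμ
  have h0 : (fun x => ‖s.indicator (fun x => u n x ^ m) x‖) =
      fun x => ‖s.indicator (u n) x‖ ^ (m : ℝ) := by
    funext x
    by_cases hx : x ∈ s
    · simp [hx]
    · simp [hx, hm.ne']
  have h2 : eLpNorm (s.indicator (fun x => u n x ^ m)) 1 μ =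
      eLpNorm (s.indicator (u n)) m μ ^ (m : ℝ) := by
    rw [← eLpNorm_norm, h0, eLpNorm_norm_rpow _ hmr]
    norm_num
  rw [h2]
  calc eLpNorm (s.indicator (u n)) m μ ^ (m : ℝ)
      ≤ (ENNReal.ofReal (ε ^ (1 / (m : ℝ)))) ^ (m : ℝ) :=
        ENNReal.rpow_le_rpow h1 hmr.le
    _ = ENNReal.ofReal ε := by
        rw [ENNReal.ofReal_rpow_of_nonneg (Real.rpow_nonneg hε.le _) hmr.le]
        congr 1
        rw [← Real.rpow_mul hε.le, one_div, inv_mul_cancel₀ hmr.ne', Real.rpow_one]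

lemma ui_dom {μ : Measure E3} {u v : ℕ → E3 → ℝ} (h : UnifIntegrable u 1 μ)
    (hv : ∀ n, ∀ᵐ x ∂μ, |v n x| ≤ |u n x|) : UnifIntegrable v 1 μ := by
  intro ε hε
  obtain ⟨δ, hδ, hu⟩ := h hε
  refine ⟨δ, hδ, fun n s hs hμ => le_trans (eLpNorm_mono_ae ?_) (hu n s hs hμ)⟩
  filter_upwards [hv n] with x hx
  by_cases hxs : x ∈ s <;> simp [hxs, hx]

lemma ui_sum {ι : Type} {μ : Measure E3} (s : Finset ι) {u : ι → ℕ → E3 → ℝ}
    (h : ∀ i, UnifIntegrable (u i) 1 μ) (hm : ∀ i n, AEStronglyMeasurable (u i n) μ) :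
    UnifIntegrable (fun n x => ∑ i ∈ s, u i n x) 1 μ := by
  classical
  induction s using Finset.induction_on with
  | empty =>
    simp only [Finset.sum_empty]
    exact unifIntegrable_const le_rfl ENNReal.one_ne_top (by simp)
  | insert a s ha ih =>
    have : (fun n x => ∑ i ∈ insert a s, u i n x) = u a + fun n x => ∑ i ∈ s, u i n x := by
      funext n x
      rw [Finset.sum_insert ha]
      rfl
    rw [this]
    exact (h a).add ih le_rfl (hm a) (fun n => Finset.aestronglyMeasurable_fun_sum _ (fun i _ => hm i n))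

/-- a subsequence converging almost everywhere, for finitely many sequences -/
lemma sub_ae {ι : Type} {μ : Measure E3} (s : Finset ι) (u : ι → ℕ → E3 → ℝ) (g : ι → E3 → ℝ)
    (h : ∀ i, TendstoInMeasure μ (u i) atTop (g i)) :
    ∃ ns : ℕ → ℕ, StrictMono ns ∧ ∀ i ∈ s, ∀ᵐ x ∂μ,
      Tendsto (fun k => u i (ns k) x) atTop (𝓝 (g i x)) := by
  classical
  induction s using Finset.induction_on with
  | empty => exact ⟨id, strictMono_id, by simp⟩
  | insert a s ha ih =>
    obtain ⟨ns, hns, hs⟩ := ih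
    have h1 : TendstoInMeasure μ (fun k => u a (ns k)) atTop (g a) :=
      fun ε hε => (h a ε hε).comp hns.tendsto_atTop
    obtain ⟨ms, hms, h2⟩ := h1.exists_seq_tendsto_ae
    refine ⟨ns ∘ ms, hns.comp hms, fun i hi => ?_⟩
    rw [Finset.mem_insert] at hi
    rcases hi with rfl | hi
    · exact h2
    · filter_upwards [hs i hi] with x hx
      exact hx.comp hms.tendsto_atTop

/-- The size of a jet. -/
def jet (p : Cov) (m : Bil) : ℝ := 1 + ∑ i, p i ^ 4 + msq m

lemma jet_nonneg (p : Cov) (m : Bil) : 0 ≤ jet p m := by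
  unfold jet msq
  positivity

lemma jet_int {μ : Measure E3} [IsFiniteMeasure μ] {p : E3 → Cov} {m : E3 → Bil}
    (h1 : ∀ i, MemLp (fun x => p x i) 4 μ) (h2 : ∀ i j, MemLp (fun x => m x i j) 2 μ) :
    Integrable (fun x => jet (p x) (m x)) μ := by
  refine ((integrable_const 1).add ?_).add ?_
  · refine integrable_finsetSum _ fun i _ => ?_
    have h3 := (h1 i).integrable_norm_pow (p := 4) (by norm_num)
    refine h3.congr (Eventually.of_forall fun x => ?_)
    simp only [Real.norm_eq_abs]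
    exact Even.pow_abs (by decide) _
  · exact integrable_finsetSum _ fun i _ => integrable_finsetSum _ fun j _ =>
      (h2 i j).integrable_sq

/-- Generalised dominated convergence. -/
theorem gen4 {μ : Measure E3} [IsFiniteMeasure μ] {P : ℕ → E3 → Cov} {N : ℕ → E3 → Bil}
    {G : E3 → Cov} {M : E3 → Bil}
    (hP : ∀ n i, MemLp (fun x => P n x i) 4 μ) (hN : ∀ n i j, MemLp (fun x => N n x i j) 2 μ)
    (hG : ∀ i, MemLp (fun x => G x i) 4 μ) (hM : ∀ i j, MemLp (fun x => M x i j) 2 μ)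
    (cP : ∀ i, Tendsto (fun n => eLpNorm (fun x => P n x i - G x i) 4 μ) atTop (𝓝 0))
    (cN : ∀ i j, Tendsto (fun n => eLpNorm (fun x => N n x i j - M x i j) 2 μ) atTop (𝓝 0))
    (aP : ∀ᵐ x ∂μ, ∀ i, Tendsto (fun n => P n x i) atTop (𝓝 (G x i)))
    (aN : ∀ᵐ x ∂μ, ∀ i j, Tendsto (fun n => N n x i j) atTop (𝓝 (M x i j)))
    (F : ℕ → E3 → ℝ) (F' : E3 → ℝ) (C : ℝ)
    (hb : ∀ n, ∀ᵐ x ∂μ, |F n x| ≤ C * jet (P n x) (N n x))
    (hlim : ∀ᵐ x ∂μ, Tendsto (fun n => F n x) atTop (𝓝 (F' x)))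
    (hm : ∀ n, AEStronglyMeasurable (F n) μ) :
    Integrable F' μ ∧ Tendsto (fun n => ∫ x, F n x ∂μ) atTop (𝓝 (∫ x, F' x ∂μ)) := by
  have hmG : AEStronglyMeasurable F' μ := aestronglyMeasurable_of_tendsto_ae atTop hm hlim
  have hIG : Integrable F' μ := by
    refine Integrable.mono' ((jet_int hG hM).const_mul C) hmG ?_
    filter_upwards [aP, aN, hlim, ae_all_iff.2 hb] with x h1 h2 h3 h4
    have h5 : Tendsto (fun n => C * jet (P n x) (N n x)) atTop (𝓝 (C * jet (G x) (M x))) := by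
      unfold jet msq
      refine Tendsto.const_mul _ ((tendsto_const_nhds.add ?_).add ?_)
      · exact tendsto_finsetSum _ fun i _ => (h1 i).pow 4
      · exact tendsto_finsetSum _ fun i _ => tendsto_finsetSum _ fun j _ => (h2 i j).pow 2
    exact le_of_tendsto_of_tendsto' h3.norm h5 fun n => h4 n
  refine ⟨hIG, ?_⟩
  have huP : ∀ i, UnifIntegrable (fun n x => P n x i ^ 4) 1 μ := fun i =>
    ui_pow (m := 4) (by norm_num) (by
      exact_mod_cast unifIntegrable_of_tendsto_Lp (by norm_num) (by norm_num)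
        (fun n => hP n i) (hG i) (cP i))
  have huN : ∀ i j, UnifIntegrable (fun n x => N n x i j ^ 2) 1 μ := fun i j =>
    ui_pow (m := 2) (by norm_num) (by
      exact_mod_cast unifIntegrable_of_tendsto_Lp (by norm_num) (by norm_num)
        (fun n => hN n i j) (hM i j) (cN i j))
  have h1 : UnifIntegrable (fun n x => ∑ i, P n x i ^ 4) 1 μ :=
    ui_sum Finset.univ huP (fun i n => ((hP n i).1.pow 4))
  have h2 : UnifIntegrable (fun n x => msq (N n x)) 1 μ :=
    ui_sum Finset.univ (fun i => ui_sum Finset.univ (huN i) (fun j n => ((hN n i j).1.pow 2)))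
      (fun i n => Finset.aestronglyMeasurable_fun_sum _ fun j _ => (hN n i j).1.pow 2)
  have hmv : ∀ n, AEStronglyMeasurable (fun x => ∑ i, P n x i ^ 4) μ := fun n =>
    Finset.aestronglyMeasurable_fun_sum _ fun i _ => (hP n i).1.pow 4
  have hmm : ∀ n, AEStronglyMeasurable (fun x => msq (N n x)) μ := fun n =>
    Finset.aestronglyMeasurable_fun_sum _ fun i _ =>
      Finset.aestronglyMeasurable_fun_sum _ fun j _ => (hN n i j).1.pow 2
  have h3 : UnifIntegrable (fun (_ : ℕ) (_ : E3) => (1 : ℝ)) 1 μ :=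
    unifIntegrable_const le_rfl ENNReal.one_ne_top (memLp_const 1)
  have h4 := (h3.add h1 le_rfl (fun _ => aestronglyMeasurable_const) hmv).add h2 le_rfl
    (fun n => aestronglyMeasurable_const.add (hmv n)) hmm
  have h5 : UnifIntegrable (fun n x => C * jet (P n x) (N n x)) 1 μ := by
    intro ε hε
    obtain ⟨δ, hδ, hu⟩ := h4 (show 0 < ε / (|C| + 1) by positivity)
    refine ⟨δ, hδ, fun n s hs hμ => ?_⟩
    have e1 := hu n s hs hμ
    have e2 : (s.indicator fun x => C * jet (P n x) (N n x)) =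
        C • (s.indicator fun x => (1 + ∑ i, P n x i ^ 4 + msq (N n x))) := by
      funext x
      by_cases hx : x ∈ s <;> simp [hx, jet]
    rw [e2, eLpNorm_const_smul]
    refine (mul_le_mul_right e1 _).trans ?_
    rw [Real.enorm_eq_ofReal_abs, ← ENNReal.ofReal_mul (abs_nonneg _)]
    apply ENNReal.ofReal_le_ofReal
    rw [mul_div_assoc', div_le_iff₀ (by positivity)]
    nlinarith [abs_nonneg C]
  have h6 : UnifIntegrable F 1 μ := by
    refine ui_dom h5 fun n => ?_
    filter_upwards [hb n] with x hx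
    exact hx.trans (le_abs_self _)
  have h7 := tendsto_Lp_finite_of_tendsto_ae le_rfl ENNReal.one_ne_top hm
    (memLp_one_iff_integrable.2 hIG) h6 hlim
  refine tendsto_integral_of_L1' _ hIG.1 (Eventually.of_forall fun n => ?_) h7
  refine Integrable.mono' ((jet_int (hP n) (hN n)).const_mul C) (hm n) (hb n)

/-! ### Linear algebra -/

lemma ev_nonneg {A : Bil} (hA : A.PosDef) (p : Cov) : 0 ≤ ev A p p := by
  rw [MCT.ev_eq]
  have h := hA.posSemidef.dotProduct_mulVec_nonneg p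
  simpa using h

lemma inv_ell {A : Bil} (hA : A.PosDef) {c : ℝ} (hc : 0 < c)
    (h : ∀ v : Cov, ev A v v ≤ c * ∑ i, v i ^ 2) (D : Cov) : ∑ i, D i ^ 2 ≤ c * ev A⁻¹ D D := by
  have hdet : IsUnit A.det := hA.det_pos.ne'.isUnit
  set u : Cov := A⁻¹.mulVec D with hu
  have hAu : A.mulVec u = D := by
    rw [hu, Matrix.mulVec_mulVec, Matrix.mul_nonsing_inv A hdet, Matrix.one_mulVec]
  have hsym : A.transpose = A := by
    have := hA.isHermitian
    rwa [Matrix.IsHermitian, Matrix.conjTranspose_eq_transpose_of_trivial] at this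
  have h1 : dotProduct u (A.mulVec D) = dotProduct D D := by
    rw [Matrix.dotProduct_mulVec, ← Matrix.mulVec_transpose, hsym, hAu]
  have h2 := ev_nonneg hA (u - (1 / c) • D)
  rw [MCT.ev_eq, Matrix.mulVec_sub, Matrix.mulVec_smul, hAu, sub_dotProduct, dotProduct_sub,
    dotProduct_sub, smul_dotProduct, smul_dotProduct, dotProduct_smul, dotProduct_smul, h1] at h2
  have h3 := h D
  rw [MCT.ev_eq] at h3
  have h4 : ∑ i, D i ^ 2 = dotProduct D D := by
    unfold dotProduct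
    exact Finset.sum_congr rfl fun i _ => sq _
  rw [MCT.ev_eq, ← hu, h4]
  rw [h4] at h3
  rw [dotProduct_comm u D] at h2
  simp only [smul_eq_mul] at h2
  set a := dotProduct D u
  set b := dotProduct D D
  set e := dotProduct D (A.mulVec D)
  have h5 : (1 / c) * ((1 / c) * e) ≤ (1 / c) * b := by
    have : (1 / c) * e ≤ b := by
      rw [one_div, inv_mul_le_iff₀ hc]
      exact h3
    exact mul_le_mul_of_nonneg_left this (by positivity)
  have h6 : 0 ≤ a - (1 / c) * b := by linarith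
  have h7 : c * (a - 1 / c * b) = c * a - b := by
    field_simp
  have h8 : 0 ≤ c * (a - 1 / c * b) := mul_nonneg hc.le h6
  linarith

lemma det_lower {A : Bil} (hA : A.PosDef) {c : ℝ}
    (h : ∀ v : Cov, (∑ i, v i ^ 2) ≤ c * ev A v v) : 1 ≤ c ^ 3 * A.det := by
  have hH := hA.isHermitian
  have h1 : ∀ i, 1 ≤ c * hH.eigenvalues i := by
    intro i
    have e1 := hH.eigenvalues_eq i
    have e2 := h (fun j => hH.eigenvectorBasis i j)
    rw [MCT.ev_eq] at e2
    have e3 : ∑ j, (hH.eigenvectorBasis i j) ^ 2 = 1 := by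
      have e4 := hH.eigenvectorBasis.orthonormal.1 i
      have e5 := EuclideanSpace.norm_sq_eq (hH.eigenvectorBasis i)
      rw [e4] at e5
      simp only [Real.norm_eq_abs, sq_abs] at e5
      rw [← e5]
      norm_num
    rw [e3] at e2
    rw [e1]
    simpa using e2
  have h2 : A.det = ∏ i, hH.eigenvalues i := by
    have := hH.det_eq_prod_eigenvalues
    simpa using this
  rw [h2]
  have h3 : c ^ 3 * ∏ i, hH.eigenvalues i = ∏ i, (c * hH.eigenvalues i) := by
    rw [Finset.prod_mul_distrib]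
    simp
  rw [h3]
  rw [Fin.prod_univ_three]
  exact one_le_mul_of_one_le_of_one_le (one_le_mul_of_one_le_of_one_le (h1 0) (h1 1)) (h1 2)

/-! ### The regularised weight -/

/-- The regularised squared length. -/
noncomputable def qd (d : ℝ) (g : TensorField) (x : E3) (p : Cov) : ℝ := ev (g x)⁻¹ p p + d ^ 2

/-- The regularised root of the weight. -/
noncomputable def fr (ε d : ℝ) (g : TensorField) (x : E3) (s : ℝ) (p : Cov) : ℝ :=
  Real.exp (s / (2 - ε) / 2) * Real.sqrt (Real.sqrt (qd d g x p))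

/-- Its logarithmic gradient, up to the factor `1/2`. -/
noncomputable def Dr (ε d : ℝ) (g : TensorField) (x : E3) (p : Cov) (M : Bil) : Cov := fun k =>
  1 / (2 - ε) * p k + (∑ j, cHess g x p M k j * raise g x p j) / qd d g x p

/-- The squared length of the gradient. -/
noncomputable def FF (ε d : ℝ) (g : TensorField) (x : E3) (s : ℝ) (p : Cov) (M : Bil) : ℝ :=
  ∑ k, (fr ε d g x s p / 2 * Dr ε d g x p M k) ^ 2

lemma qd_pos {d : ℝ} {g : TensorField} {x : E3} (hg : (g x).PosDef) (hd : 0 < d) (p : Cov) :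
    0 < qd d g x p := by
  unfold qd
  have := ev_nonneg hg.inv p
  positivity

section Smooth

variable {U : Set E3} {g : TensorField} {v : E3 → ℝ} {x : E3}

lemma q_smooth (hU : IsOpen U) (hg : MetricOn U g) (hv : ContDiff ℝ ∞ v) (hx : x ∈ U) :
    ContDiffAt ℝ ∞ (fun y => ev (g y)⁻¹ (grad v y) (grad v y)) x := by
  unfold ev
  refine ContDiffAt.sum fun i _ => ContDiffAt.sum fun j _ => ?_
  exact ((MCF.inv_smooth hU hg hx i j).mul (MCF.pd_smooth hv.contDiffAt i)).mul
    (MCF.pd_smooth hv.contDiffAt j)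

lemma fr_smooth (ε : ℝ) {d : ℝ} (hd : 0 < d) (hU : IsOpen U) (hg : MetricOn U g)
    (hv : ContDiff ℝ ∞ v) (hx : x ∈ U) :
    ContDiffAt ℝ ∞ (fun y => fr ε d g y (v y) (grad v y)) x := by
  have h0 := qd_pos (hg.posDef x hx) hd (grad v x)
  have h1 : ContDiffAt ℝ ∞ (fun y => qd d g y (grad v y)) x :=
    (q_smooth hU hg hv hx).add contDiffAt_const
  unfold fr
  refine ContDiffAt.mul ?_ ((h1.sqrt h0.ne').sqrt (Real.sqrt_pos.2 h0).ne')
  exact ((hv.contDiffAt.div_const _).div_const _).exp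

lemma pd_fr (hGRADL : Stmt_GRADL) (ε : ℝ) {d : ℝ} (hd : 0 < d) (hU : IsOpen U)
    (hg : MetricOn U g) (hv : ContDiff ℝ ∞ v) (hx : x ∈ U) (k : Fin 3) :
    pd k (fun y => fr ε d g y (v y) (grad v y)) x
      = fr ε d g x (v x) (grad v x) / 2 * Dr ε d g x (grad v x) (hess2 v x) k := by
  have h0 := qd_pos (hg.posDef x hx) hd (grad v x)
  set q : E3 → ℝ := fun y => ev (g y)⁻¹ (grad v y) (grad v y) with hq
  have hqd : ∀ y, qd d g y (grad v y) = q y + d ^ 2 := fun y => rfl
  have hqx : 0 < q x + d ^ 2 := h0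
  have hs : 0 < Real.sqrt (q x + d ^ 2) := Real.sqrt_pos.2 hqx
  have hr : 0 < Real.sqrt (Real.sqrt (q x + d ^ 2)) := Real.sqrt_pos.2 hs
  have d1 : HasFDerivAt q (fderiv ℝ q x) x :=
    ((q_smooth hU hg hv hx).differentiableAt (by simp)).hasFDerivAt
  have d2 : HasFDerivAt (fun y => q y + d ^ 2) (fderiv ℝ q x) x := d1.add_const _
  have d3 := (d2.sqrt hqx.ne').sqrt hs.ne'
  have d4 : HasFDerivAt v (fderiv ℝ v x) x :=
    ((hv.differentiable (by simp)) x).hasFDerivAt
  have d5 : HasFDerivAt (fun y => v y / (2 - ε) / 2)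
      ((1 / (2 - ε) / 2) • fderiv ℝ v x) x := by
    have := d4.const_mul (1 / (2 - ε) / 2)
    refine this.congr_of_eventuallyEq (Eventually.of_forall fun y => ?_)
    simp only
    ring
  have d6 := d5.exp.mul d3
  have d7 : pd k (fun y => fr ε d g y (v y) (grad v y)) x
      = (Real.exp (v x / (2 - ε) / 2) • (1 / (2 * √√(q x + d ^ 2))) •
          (1 / (2 * √(q x + d ^ 2))) • fderiv ℝ q x +
        √√(q x + d ^ 2) • Real.exp (v x / (2 - ε) / 2) • (1 / (2 - ε) / 2) • fderiv ℝ v x)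
          (EuclideanSpace.single k 1) := by
    unfold pd
    exact congrArg (fun L : E3 →L[ℝ] ℝ => L (EuclideanSpace.single k 1)) d6.fderiv
  have hG : pd k q x = 2 * ∑ j, cHess g x (grad v x) (hess2 v x) k j * raise g x (grad v x) j := by
    refine hGRADL g v x ?_ (hg.posDef x hx).det_pos.ne' (fun i j => ?_)
      (hv.contDiffAt.of_le ENat.LEInfty.out) k
    · filter_upwards [hU.mem_nhds hx] with y hy
      have := (hg.posDef y hy).isHermitian
      rwa [Matrix.IsHermitian, Matrix.conjTranspose_eq_transpose_of_trivial] at this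
    · exact (MCF.g_smooth hU hg hx i j).of_le (by simp)
  have hG' : fderiv ℝ q x (EuclideanSpace.single k 1)
      = 2 * ∑ j, cHess g x (grad v x) (hess2 v x) k j * raise g x (grad v x) j := hG
  have hv' : fderiv ℝ v x (EuclideanSpace.single k 1) = grad v x k := rfl
  rw [d7]
  simp only [add_apply, smul_apply, smul_eq_mul, hG', hv']
  unfold fr Dr
  rw [hqd x]
  have hss : Real.sqrt (Real.sqrt (q x + d ^ 2)) * Real.sqrt (Real.sqrt (q x + d ^ 2))
      = Real.sqrt (q x + d ^ 2) := Real.mul_self_sqrt hs.le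
  have hqq : Real.sqrt (q x + d ^ 2) * Real.sqrt (q x + d ^ 2) = q x + d ^ 2 :=
    Real.mul_self_sqrt hqx.le
  set S := Real.sqrt (q x + d ^ 2)
  set R := Real.sqrt S
  set E := Real.exp (v x / (2 - ε) / 2)
  set H := ∑ j, cHess g x (grad v x) (hess2 v x) k j * raise g x (grad v x) j
  rw [← hqq]
  have hR : R ≠ 0 := hr.ne'
  have hS : S = R * R := hss.symm
  rw [hS]
  field_simp
  ring

end Smooth

lemma norm_fderiv_le (f : E3 → ℝ) (x : E3) : ‖fderiv ℝ f x‖ ^ 2 ≤ ∑ k, pd k f x ^ 2 := by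
  have h1 : ‖fderiv ℝ f x‖ ≤ Real.sqrt (∑ k, pd k f x ^ 2) := by
    refine ContinuousLinearMap.opNorm_le_bound _ (Real.sqrt_nonneg _) fun v => ?_
    have h2 : fderiv ℝ f x v = ∑ k, v k * pd k f x := by
      conv_lhs => rw [← (EuclideanSpace.basisFun (Fin 3) ℝ).sum_repr v]
      rw [map_sum]
      refine Finset.sum_congr rfl fun k _ => ?_
      rw [map_smul, EuclideanSpace.basisFun_repr, EuclideanSpace.basisFun_apply, smul_eq_mul]
      rfl
    rw [h2, Real.norm_eq_abs]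
    refine abs_le_of_sq_le_sq ?_ (by positivity)
    rw [mul_pow, Real.sq_sqrt (Finset.sum_nonneg fun _ _ => sq_nonneg _),
      EuclideanSpace.norm_sq_eq]
    simp only [Real.norm_eq_abs, sq_abs]
    rw [mul_comm (∑ k, pd k f x ^ 2)]
    exact Finset.sum_mul_sq_le_sq_mul_sq _ _ _
  calc ‖fderiv ℝ f x‖ ^ 2 ≤ Real.sqrt (∑ k, pd k f x ^ 2) ^ 2 :=
        pow_le_pow_left₀ (norm_nonneg _) h1 2
    _ = _ := Real.sq_sqrt (Finset.sum_nonneg fun _ _ => sq_nonneg _)

/-! ### Pointwise bounds -/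

lemma vsq_nonneg (p : Cov) : 0 ≤ vsq p := Finset.sum_nonneg fun _ _ => sq_nonneg _

lemma msq_nonneg (M : Bil) : 0 ≤ msq M :=
  Finset.sum_nonneg fun _ _ => Finset.sum_nonneg fun _ _ => sq_nonneg _

lemma one_le_jet (p : Cov) (M : Bil) : 1 ≤ jet p M := by
  unfold jet
  have h1 : 0 ≤ ∑ i, p i ^ 4 := Finset.sum_nonneg fun i _ => by positivity
  have h2 := msq_nonneg M
  linarith

lemma msq_le_jet (p : Cov) (M : Bil) : msq M ≤ jet p M := by
  unfold jet
  have h1 : 0 ≤ ∑ i, p i ^ 4 := Finset.sum_nonneg fun i _ => by positivity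
  linarith

lemma vsq_sq_le_jet (p : Cov) (M : Bil) : vsq p ^ 2 ≤ 3 * jet p M := by
  have h2 := msq_nonneg M
  unfold jet vsq
  simp only [Fin.sum_univ_three]
  nlinarith [sq_nonneg (p 0 ^ 2 - p 1 ^ 2), sq_nonneg (p 0 ^ 2 - p 2 ^ 2),
    sq_nonneg (p 1 ^ 2 - p 2 ^ 2)]

lemma vsq_le_jet (p : Cov) (M : Bil) : vsq p ≤ 3 * jet p M := by
  have h1 := vsq_sq_le_jet p M
  have h2 := one_le_jet p M
  nlinarith [sq_nonneg (vsq p - 1), h1, h2]

lemma H_le (g : TensorField) (x : E3) (p : Cov) (M : Bil) :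
    ∑ k, (∑ j, cHess g x p M k j * raise g x p j) ^ 2
      ≤ msq (cHess g x p M) * vsq (raise g x p) := by
  unfold msq vsq
  rw [Finset.sum_mul]
  exact Finset.sum_le_sum fun k _ => Finset.sum_mul_sq_le_sq_mul_sq _ _ _

lemma msq_cHess_le {g : TensorField} {x : E3} {C : ℝ}
    (hΓ : ∀ k i j, |christoffel g k i j x| ≤ C) (p : Cov) (M : Bil) :
    msq (cHess g x p M) ≤ 2 * msq M + 54 * C ^ 2 * vsq p := by
  have h1 : ∀ i j, (cHess g x p M i j) ^ 2 ≤ 2 * M i j ^ 2 + 6 * C ^ 2 * vsq p := by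
    intro i j
    have e1 : cHess g x p M i j = M i j - ∑ k, christoffel g k i j x * p k := rfl
    have e2 : (∑ k, christoffel g k i j x * p k) ^ 2 ≤ 3 * C ^ 2 * vsq p := by
      refine (Finset.sum_mul_sq_le_sq_mul_sq _ _ _).trans ?_
      refine mul_le_mul_of_nonneg_right ?_ (vsq_nonneg p)
      have e3 : ∀ k, christoffel g k i j x ^ 2 ≤ C ^ 2 := fun k => by
        rw [← sq_abs]
        exact pow_le_pow_left₀ (abs_nonneg _) (hΓ k i j) 2
      calc ∑ k, christoffel g k i j x ^ 2 ≤ ∑ _k : Fin 3, C ^ 2 :=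
            Finset.sum_le_sum fun k _ => e3 k
        _ = 3 * C ^ 2 := by simp
    rw [e1]
    nlinarith [sq_nonneg (M i j + ∑ k, christoffel g k i j x * p k)]
  calc msq (cHess g x p M) ≤ ∑ i, ∑ j, (2 * M i j ^ 2 + 6 * C ^ 2 * vsq p) :=
        Finset.sum_le_sum fun i _ => Finset.sum_le_sum fun j _ => h1 i j
    _ = 2 * msq M + 54 * C ^ 2 * vsq p := by
        unfold msq
        simp only [Fin.sum_univ_three]
        ring

lemma fr_sq {ε d : ℝ} {g : TensorField} {x : E3} (s : ℝ) (p : Cov) :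
    fr ε d g x s p ^ 2 = Real.exp (s / (2 - ε)) * Real.sqrt (qd d g x p) := by
  unfold fr
  rw [mul_pow, Real.sq_sqrt (Real.sqrt_nonneg _), ← Real.exp_nat_mul]
  congr 2
  push_cast
  ring

lemma fr_nonneg {ε d : ℝ} {g : TensorField} {x : E3} (s : ℝ) (p : Cov) :
    0 ≤ fr ε d g x s p := by
  unfold fr
  positivity

lemma FF_eq {ε d : ℝ} {g : TensorField} {x : E3} (s : ℝ) (p : Cov) (M : Bil) :
    FF ε d g x s p M
      = Real.exp (s / (2 - ε)) * (Real.sqrt (qd d g x p) * ∑ k, Dr ε d g x p M k ^ 2) / 4 := by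
  unfold FF
  simp only [mul_pow, div_pow, fr_sq]
  rw [← Finset.mul_sum]
  ring

lemma FF_nonneg {ε d : ℝ} {g : TensorField} {x : E3} (s : ℝ) (p : Cov) (M : Bil) :
    0 ≤ FF ε d g x s p M := Finset.sum_nonneg fun _ _ => sq_nonneg _

/-- The constants at a point. -/
structure Pc (C : ℝ) (g : TensorField) (x : E3) : Prop where
  one : 1 ≤ C
  q : ∀ p, vsq p / C ≤ ev (g x)⁻¹ p p ∧ ev (g x)⁻¹ p p ≤ C * vsq p
  chr : ∀ k i j, |christoffel g k i j x| ≤ C
  inv : ∀ i j, |(g x)⁻¹ i j| ≤ C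

lemma qd_le {C d : ℝ} {g : TensorField} {x : E3} (H : Pc C g x) (p : Cov) (M : Bil) :
    qd d g x p ≤ (d ^ 2 + 3 * C) * jet p M := by
  unfold qd
  have h1 := (H.q p).2
  have h2 := vsq_le_jet p M
  have h3 := one_le_jet p M
  have h4 : C * vsq p ≤ C * (3 * jet p M) :=
    mul_le_mul_of_nonneg_left h2 (by linarith [H.one])
  nlinarith [sq_nonneg d]

lemma sqrt_le_one_add {y : ℝ} (hy : 0 ≤ y) : Real.sqrt y ≤ 1 + y :=
  Real.sqrt_le_iff.2 ⟨by positivity, by nlinarith⟩

lemma FF_le {ε d C E : ℝ} {g : TensorField} {x : E3} (hε0 : 0 < ε) (hε : ε ≤ 1 / 2)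
    (hd : 0 < d) (hg : (g x).PosDef) (H : Pc C g x) {s : ℝ}
    (hs : Real.exp (s / (2 - ε)) ≤ E) (p : Cov) (M : Bil) :
    |FF ε d g x s p M| ≤ E / 4 * (2 * (3 * (1 + d ^ 2) + 3 * C)
      + 18 * C ^ 3 / d * (2 + 162 * C ^ 2)) * jet p M := by
  rw [abs_of_nonneg (FF_nonneg s p M), FF_eq]
  have hC := H.one
  have hC0 : 0 < C := by linarith
  have hq0 := qd_pos hg hd p
  set S := Real.sqrt (qd d g x p) with hS
  have hS0 : 0 < S := Real.sqrt_pos.2 hq0
  have hSS : S ^ 2 = qd d g x p := Real.sq_sqrt hq0.le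
  have hev := ev_nonneg hg.inv p
  have hdS : d ≤ S := by
    rw [hS]
    apply Real.le_sqrt_of_sq_le
    unfold qd
    linarith
  have hv := vsq_nonneg p
  have hj := one_le_jet p M
  set Hs := ∑ k, (∑ j, cHess g x p M k j * raise g x p j) ^ 2 with hHs
  have hD : ∑ k, Dr ε d g x p M k ^ 2 ≤ 2 * vsq p + 2 * (Hs / S ^ 4) := by
    have e0 : 2 * vsq p + 2 * (Hs / S ^ 4) = ∑ k, (2 * p k ^ 2
        + 2 * ((∑ j, cHess g x p M k j * raise g x p j) ^ 2 / S ^ 4)) := by
      rw [Finset.sum_add_distrib, ← Finset.mul_sum, ← Finset.mul_sum, ← Finset.sum_div]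
      rfl
    rw [e0]
    refine Finset.sum_le_sum fun k _ => ?_
    unfold Dr
    rw [← hSS]
    set a := ∑ j, cHess g x p M k j * raise g x p j
    have e1 : (a / S ^ 2) ^ 2 = a ^ 2 / S ^ 4 := by
      rw [div_pow, ← pow_mul]
    rw [← e1]
    have e2 : (1 / (2 - ε) * p k) ^ 2 ≤ p k ^ 2 := by
      rw [mul_pow]
      have e3 : (1 / (2 - ε)) ^ 2 ≤ 1 := by
        have e4 : 0 ≤ 1 / (2 - ε) := by
          apply div_nonneg one_pos.le
          linarith
        have e5 : 1 / (2 - ε) ≤ 1 := by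
          rw [div_le_one (by linarith)]
          linarith
        exact pow_le_one₀ e4 e5
      nlinarith [sq_nonneg (p k)]
    nlinarith [sq_nonneg (1 / (2 - ε) * p k - a / S ^ 2)]
  have hHs0 : 0 ≤ Hs := Finset.sum_nonneg fun _ _ => sq_nonneg _
  have hHle : Hs ≤ (2 * msq M + 54 * C ^ 2 * vsq p) * (9 * C ^ 3 * S ^ 2) := by
    refine (H_le g x p M).trans ?_
    have e1 := msq_cHess_le H.chr p M
    have e2 : vsq (raise g x p) ≤ 9 * C ^ 2 * vsq p := MCT.vsq_up hC0.le H.inv p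
    have e3 : vsq p ≤ C * S ^ 2 := by
      have := (H.q p).1
      rw [div_le_iff₀ hC0] at this
      rw [hSS]
      unfold qd
      nlinarith [sq_nonneg d]
    have e4 : 9 * C ^ 2 * vsq p ≤ 9 * C ^ 3 * S ^ 2 := by
      calc 9 * C ^ 2 * vsq p ≤ 9 * C ^ 2 * (C * S ^ 2) :=
            mul_le_mul_of_nonneg_left e3 (by positivity)
        _ = _ := by ring
    exact mul_le_mul e1 (e2.trans e4) (vsq_nonneg _) (by
      have := msq_nonneg M
      positivity)
  have hK : S * (∑ k, Dr ε d g x p M k ^ 2)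
      ≤ (2 * (3 * (1 + d ^ 2) + 3 * C) + 18 * C ^ 3 / d * (2 + 162 * C ^ 2)) * jet p M := by
    have e1 : S * (∑ k, Dr ε d g x p M k ^ 2) ≤ S * (2 * vsq p + 2 * (Hs / S ^ 4)) :=
      mul_le_mul_of_nonneg_left hD hS0.le
    have e2 : S * vsq p ≤ (3 * (1 + d ^ 2) + 3 * C) * jet p M := by
      have f1 : S ≤ 1 + S ^ 2 := by nlinarith [sq_nonneg (S - 1)]
      have f2 : S ^ 2 ≤ d ^ 2 + C * vsq p := by
        rw [hSS]
        unfold qd
        linarith [(H.q p).2]
      have f3 : S * vsq p ≤ (1 + d ^ 2 + C * vsq p) * vsq p :=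
        mul_le_mul_of_nonneg_right (by linarith) hv
      have f4 : (1 + d ^ 2) * vsq p ≤ (1 + d ^ 2) * (3 * jet p M) :=
        mul_le_mul_of_nonneg_left (vsq_le_jet p M) (by positivity)
      have f5 : C * vsq p ^ 2 ≤ C * (3 * jet p M) :=
        mul_le_mul_of_nonneg_left (vsq_sq_le_jet p M) hC0.le
      nlinarith
    have e3 : S * (Hs / S ^ 4) ≤ 9 * C ^ 3 / d * (2 + 162 * C ^ 2) * jet p M := by
      have f1 : S * (Hs / S ^ 4) ≤ S * ((2 * msq M + 54 * C ^ 2 * vsq p)
          * (9 * C ^ 3 * S ^ 2) / S ^ 4) := by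
        refine mul_le_mul_of_nonneg_left ?_ hS0.le
        exact div_le_div_of_nonneg_right hHle (by positivity)
      have f2 : S * ((2 * msq M + 54 * C ^ 2 * vsq p) * (9 * C ^ 3 * S ^ 2) / S ^ 4)
          = 9 * C ^ 3 * (2 * msq M + 54 * C ^ 2 * vsq p) / S := by
        field_simp
      have f3 : 2 * msq M + 54 * C ^ 2 * vsq p ≤ (2 + 162 * C ^ 2) * jet p M := by
        have g1 := msq_le_jet p M
        have g2 : 54 * C ^ 2 * vsq p ≤ 54 * C ^ 2 * (3 * jet p M) :=
          mul_le_mul_of_nonneg_left (vsq_le_jet p M) (by positivity)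
        nlinarith
      have f4 : 0 ≤ 2 * msq M + 54 * C ^ 2 * vsq p := by
        have := msq_nonneg M
        positivity
      calc S * (Hs / S ^ 4) ≤ 9 * C ^ 3 * (2 * msq M + 54 * C ^ 2 * vsq p) / S := by
            rw [← f2]; exact f1
        _ ≤ 9 * C ^ 3 * (2 * msq M + 54 * C ^ 2 * vsq p) / d := by
            apply div_le_div_of_nonneg_left _ hd hdS
            positivity
        _ ≤ 9 * C ^ 3 * ((2 + 162 * C ^ 2) * jet p M) / d := by
            apply div_le_div_of_nonneg_right _ hd.le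
            exact mul_le_mul_of_nonneg_left f3 (by positivity)
        _ = 9 * C ^ 3 / d * (2 + 162 * C ^ 2) * jet p M := by ring
    have e4 : S * (2 * vsq p + 2 * (Hs / S ^ 4)) = 2 * (S * vsq p) + 2 * (S * (Hs / S ^ 4)) := by
      ring
    rw [e4] at e1
    refine e1.trans ?_
    have e5 : (2 * (3 * (1 + d ^ 2) + 3 * C) + 18 * C ^ 3 / d * (2 + 162 * C ^ 2)) * jet p M
        = 2 * ((3 * (1 + d ^ 2) + 3 * C) * jet p M)
          + 2 * (9 * C ^ 3 / d * (2 + 162 * C ^ 2) * jet p M) := by ring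
    rw [e5]
    linarith
  have hE0 : 0 ≤ Real.exp (s / (2 - ε)) := (Real.exp_pos _).le
  have hT0 : 0 ≤ S * (∑ k, Dr ε d g x p M k ^ 2) :=
    mul_nonneg hS0.le (Finset.sum_nonneg fun _ _ => sq_nonneg _)
  have hfin := mul_le_mul hs hK hT0 (hE0.trans hs)
  calc Real.exp (s / (2 - ε)) * (S * ∑ k, Dr ε d g x p M k ^ 2) / 4
      ≤ E * ((2 * (3 * (1 + d ^ 2) + 3 * C) + 18 * C ^ 3 / d * (2 + 162 * C ^ 2))
          * jet p M) / 4 := div_le_div_of_nonneg_right hfin (by norm_num)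
    _ = _ := by ring

lemma frsq_le {ε d C E : ℝ} {g : TensorField} {x : E3} (hd : 0 < d) (hg : (g x).PosDef)
    (H : Pc C g x) {s : ℝ} (hs : Real.exp (s / (2 - ε)) ≤ E) (p : Cov) (M : Bil) :
    |fr ε d g x s p ^ 2| ≤ E * (1 + d ^ 2 + 3 * C) * jet p M := by
  rw [abs_of_nonneg (sq_nonneg _), fr_sq]
  have h0 := (qd_pos hg hd p).le
  have h1 := sqrt_le_one_add h0
  have h2 := qd_le (d := d) H p M
  have h3 := one_le_jet p M
  have h4 : Real.sqrt (qd d g x p) ≤ (1 + d ^ 2 + 3 * C) * jet p M := by nlinarith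
  calc Real.exp (s / (2 - ε)) * Real.sqrt (qd d g x p)
      ≤ E * ((1 + d ^ 2 + 3 * C) * jet p M) :=
        mul_le_mul hs h4 (Real.sqrt_nonneg _) ((Real.exp_pos _).le.trans hs)
    _ = _ := by ring

lemma fr_le {ε d C E : ℝ} {g : TensorField} {x : E3} (hd : 0 < d) (hg : (g x).PosDef)
    (H : Pc C g x) {s : ℝ} (hs : Real.exp (s / (2 - ε)) ≤ E) (p : Cov) (M : Bil) :
    |fr ε d g x s p| ≤ (1 + E * (1 + d ^ 2 + 3 * C)) * jet p M := by
  have h1 := frsq_le (M := M) hd hg H hs p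
  rw [abs_of_nonneg (sq_nonneg _)] at h1
  rw [abs_of_nonneg (fr_nonneg s p)]
  have h2 := one_le_jet p M
  nlinarith [sq_nonneg (fr ε d g x s p - 1)]

/-! ### The bound in the limit -/

lemma nsq_nonneg {g : TensorField} {x : E3} (hg : (g x).PosDef) (H : Bil) : 0 ≤ nsq g x H := by
  obtain ⟨Q, hQ⟩ := MCT.factor hg.inv.posSemidef
  rw [MCT.nsq_factor hQ]
  exact Finset.sum_nonneg fun m _ => ev_nonneg hg.inv _

lemma ev_pos {A : Bil} (hA : A.PosDef) {p : Cov} (hp : p ≠ 0) : 0 < ev A p p := by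
  rw [MCT.ev_eq]
  have h := hA.dotProduct_mulVec_pos hp
  simpa using h

lemma FF_lim {ε d C1 Cg : ℝ} {g h : TensorField} {x : E3} (hd : 0 < d) (hC1 : 0 < C1)
    (hCg : 0 < Cg)
    (hPT : ∀ (g h : TensorField) (x : E3) (p : Cov) (M : Bil), (g x).PosDef → (h x).IsSymm →
      M.IsSymm → (∀ k i j, christoffel g k i j x = christoffel g k j i x) → p ≠ 0 →
      (∀ v : Cov, ev (g x) v v = 1 → ev (h x) v v ≤ trg g x (h x)) →
      beps ε g x p (cHess g x p M) = len g x p ^ 2 + len g x p * beps ε g x p (h x) →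
      0 ≤ diss ε g h x p M ∧
      (∀ t : ℝ, 0 ≤ t → t ≤ 1 →
        ev (g x)⁻¹ (fun i => 1 / (2 - ε) * p i + t * (∑ j, cHess g x p M i j * nrm g x p j)
            / len g x p)
          (fun i => 1 / (2 - ε) * p i + t * (∑ j, cHess g x p M i j * nrm g x p j) / len g x p)
        ≤ C1 * t ^ 2 * (diss ε g h x p M + nsq g x (h x)) + 2 * (1 - t) ^ 2 * len g x p ^ 2))
    (hg : (g x).PosDef) (hh : (h x).IsSymm)
    (hchr : ∀ k i j, christoffel g k i j x = christoffel g k j i x)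
    (h2 : ∀ v : Cov, ev (g x) v v = 1 → ev (h x) v v ≤ trg g x (h x))
    (hCge : ∀ v : Cov, ev (g x) v v ≤ Cg * ∑ i, v i ^ 2)
    (p : Cov) (M : Bil) (hM : M.IsSymm)
    (heq : p ≠ 0 → beps ε g x p (cHess g x p M) = len g x p ^ 2 + len g x p * beps ε g x p (h x))
    (heq0 : p = 0 → M = 0) (s : ℝ) :
    0 ≤ len g x p * (diss ε g h x p M + nsq g x (h x)) ∧
    FF ε d g x s p M ≤ Cg / 4 * (Real.exp (s / (2 - ε))
      * (C1 * (len g x p * (diss ε g h x p M + nsq g x (h x))) + 2 * d ^ 3)) := by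
  by_cases hp : p = 0
  · have hM0 := heq0 hp
    subst hp
    subst hM0
    have hl : len g x 0 = 0 := by
      unfold len ev
      simp
    have hD : ∀ k, Dr ε d g x 0 0 k = 0 := by
      intro k
      unfold Dr
      have : ∀ j, cHess g x 0 0 k j = 0 := by
        intro j
        unfold cHess
        simp
      simp [this]
    have hF : FF ε d g x s 0 0 = 0 := by
      unfold FF
      simp [hD]
    rw [hF, hl]
    refine ⟨by simp, ?_⟩
    simp only [zero_mul, mul_zero, zero_add]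
    positivity
  · obtain ⟨hdiss, hkey⟩ := hPT g h x p M hg hh hM hchr hp h2 (heq hp)
    have hn := nsq_nonneg hg (h x)
    have hq : 0 < ev (g x)⁻¹ p p := ev_pos hg.inv hp
    have hL : 0 < len g x p := Real.sqrt_pos.2 hq
    have hLL : len g x p ^ 2 = ev (g x)⁻¹ p p := Real.sq_sqrt hq.le
    set L := len g x p with hLdef
    set X := diss ε g h x p M + nsq g x (h x) with hX
    have hX0 : 0 ≤ X := add_nonneg hdiss hn
    refine ⟨mul_nonneg hL.le hX0, ?_⟩
    have hq0 := qd_pos hg hd p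
    rw [FF_eq]
    set S := Real.sqrt (qd d g x p) with hS
    have hS0 : 0 < S := Real.sqrt_pos.2 hq0
    have hSS : S ^ 2 = L ^ 2 + d ^ 2 := by
      rw [hS, Real.sq_sqrt hq0.le, hLL]
      rfl
    have hdS : d ≤ S := by
      apply le_of_sq_le_sq _ hS0.le
      nlinarith [sq_nonneg L]
    have hLS : L ≤ S := by
      apply le_of_sq_le_sq _ hS0.le
      nlinarith [sq_nonneg d]
    set t : ℝ := L ^ 2 / S ^ 2 with ht
    have hS2 : 0 < S ^ 2 := by positivity
    have ht0 : 0 ≤ t := by positivity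
    have ht1 : t ≤ 1 := by
      rw [ht, div_le_one hS2]
      nlinarith [sq_nonneg d]
    have h1t : 1 - t = d ^ 2 / S ^ 2 := by
      rw [ht, eq_div_iff hS2.ne', sub_mul, div_mul_cancel₀ _ hS2.ne']
      linarith
    have hfun : (fun i => 1 / (2 - ε) * p i + t * (∑ j, cHess g x p M i j * nrm g x p j) / L)
        = Dr ε d g x p M := by
      funext i
      have e1 : ∑ j, cHess g x p M i j * nrm g x p j
          = (∑ j, cHess g x p M i j * raise g x p j) / L := by
        rw [Finset.sum_div]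
        refine Finset.sum_congr rfl fun j _ => ?_
        unfold nrm
        rw [← hLdef]
        ring
      have e2 : qd d g x p = S ^ 2 := (Real.sq_sqrt hq0.le).symm
      unfold Dr
      rw [e1, e2, ht]
      congr 1
      field_simp
    have hk := hkey t ht0 ht1
    rw [hfun] at hk
    have hI := inv_ell hg hCg hCge (Dr ε d g x p M)
    have hI2 : ∑ k, Dr ε d g x p M k ^ 2
        ≤ Cg * (C1 * t ^ 2 * X + 2 * (1 - t) ^ 2 * L ^ 2) :=
      hI.trans (mul_le_mul_of_nonneg_left hk hCg.le)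
    have hA : S * t ^ 2 ≤ L := by
      have e1 : S * t ^ 2 = L ^ 4 / S ^ 3 := by
        rw [ht]
        field_simp
      rw [e1, div_le_iff₀ (by positivity)]
      have e2 : L ^ 3 ≤ S ^ 3 := pow_le_pow_left₀ hL.le hLS 3
      calc L ^ 4 = L * L ^ 3 := by ring
        _ ≤ L * S ^ 3 := mul_le_mul_of_nonneg_left e2 hL.le
    have hB : S * ((1 - t) ^ 2 * L ^ 2) ≤ d ^ 3 := by
      have e1 : S * ((1 - t) ^ 2 * L ^ 2) = d ^ 4 * L ^ 2 / S ^ 3 := by
        rw [h1t]
        field_simp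
      rw [e1, div_le_iff₀ (by positivity)]
      have e2 : L ^ 2 ≤ S ^ 2 := pow_le_pow_left₀ hL.le hLS 2
      calc d ^ 4 * L ^ 2 = d ^ 3 * (d * L ^ 2) := by ring
        _ ≤ d ^ 3 * (S * S ^ 2) := by
            refine mul_le_mul_of_nonneg_left ?_ (by positivity)
            exact mul_le_mul hdS e2 (by positivity) hS0.le
        _ = d ^ 3 * S ^ 3 := by ring
    have hfin : S * ∑ k, Dr ε d g x p M k ^ 2 ≤ Cg * (C1 * (L * X) + 2 * d ^ 3) := by
      calc S * ∑ k, Dr ε d g x p M k ^ 2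
          ≤ S * (Cg * (C1 * t ^ 2 * X + 2 * (1 - t) ^ 2 * L ^ 2)) :=
            mul_le_mul_of_nonneg_left hI2 hS0.le
        _ = Cg * (C1 * ((S * t ^ 2) * X) + 2 * (S * ((1 - t) ^ 2 * L ^ 2))) := by ring
        _ ≤ Cg * (C1 * (L * X) + 2 * d ^ 3) := by
            refine mul_le_mul_of_nonneg_left ?_ hCg.le
            refine add_le_add ?_ ?_
            · exact mul_le_mul_of_nonneg_left (mul_le_mul_of_nonneg_right hA hX0) hC1.le
            · exact mul_le_mul_of_nonneg_left hB (by norm_num)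
    have hE := (Real.exp_pos (s / (2 - ε))).le
    calc Real.exp (s / (2 - ε)) * (S * ∑ k, Dr ε d g x p M k ^ 2) / 4
        ≤ Real.exp (s / (2 - ε)) * (Cg * (C1 * (L * X) + 2 * d ^ 3)) / 4 :=
          div_le_div_of_nonneg_right (mul_le_mul_of_nonneg_left hfin hE) (by norm_num)
      _ = _ := by ring

/-! ### Continuity in the jet -/

section Tend

variable {ε d : ℝ} {g : TensorField} {x : E3} {sn : ℕ → ℝ} {pn : ℕ → Cov} {Mn : ℕ → Bil}
  {s : ℝ} {p : Cov} {M : Bil}

lemma qd_tend (hp : ∀ i, Tendsto (fun n => pn n i) atTop (𝓝 (p i))) :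
    Tendsto (fun n => qd d g x (pn n)) atTop (𝓝 (qd d g x p)) := by
  unfold qd ev
  refine Tendsto.add ?_ tendsto_const_nhds
  exact tendsto_finsetSum _ fun i _ => tendsto_finsetSum _ fun j _ =>
    (tendsto_const_nhds.mul (hp i)).mul (hp j)

lemma fr_tend (hs : Tendsto sn atTop (𝓝 s)) (hp : ∀ i, Tendsto (fun n => pn n i) atTop (𝓝 (p i))) :
    Tendsto (fun n => fr ε d g x (sn n) (pn n)) atTop (𝓝 (fr ε d g x s p)) := by
  unfold fr
  refine Tendsto.mul ?_ ?_
  · exact (Real.continuous_exp.tendsto _).comp ((hs.div_const _).div_const _)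
  · exact (Real.continuous_sqrt.tendsto _).comp
      ((Real.continuous_sqrt.tendsto _).comp (qd_tend hp))

lemma FF_tend (hg : (g x).PosDef) (hd : 0 < d) (hs : Tendsto sn atTop (𝓝 s))
    (hp : ∀ i, Tendsto (fun n => pn n i) atTop (𝓝 (p i)))
    (hM : ∀ i j, Tendsto (fun n => Mn n i j) atTop (𝓝 (M i j))) :
    Tendsto (fun n => FF ε d g x (sn n) (pn n) (Mn n)) atTop (𝓝 (FF ε d g x s p M)) := by
  unfold FF
  refine tendsto_finsetSum _ fun k _ => ?_
  refine Tendsto.pow ?_ 2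
  refine ((fr_tend hs hp).div_const 2).mul ?_
  unfold Dr
  refine (tendsto_const_nhds.mul (hp k)).add ?_
  refine Tendsto.div ?_ (qd_tend hp) (qd_pos hg hd p).ne'
  refine tendsto_finsetSum _ fun j _ => Tendsto.mul ?_ ?_
  · unfold cHess
    simp only [Matrix.of_apply]
    exact (hM k j).sub (tendsto_finsetSum _ fun l _ => tendsto_const_nhds.mul (hp l))
  · unfold raise
    exact tendsto_finsetSum _ fun l _ => tendsto_const_nhds.mul (hp l)

end Tend

end EWGT

end Pool.Agent.PFlow
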