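import Pool.Agent.PFlow.StmtsE1
import Pool.Agent.PFlow.StmtsE3

/-!
# Module EXI1: existence of a setup with a cut
-/

set_option autoImplicit false

open MeasureTheory Filter Topology
open scoped ContDiff ENNReal

namespace Pool.Agent.PFlow

open Pool.Agent.PenroseSph

namespace EXI1aux

lemma sME_tendsto {ε γ : ℝ} (hε : ε < 2) : Tendsto (fun R : ℝ => sME ε γ R) atTop atTop := by
  unfold sME
  have h1 : Tendsto (fun R : ℝ => R / 2) atTop atTop :=
    tendsto_id.atTop_div_const (by norm_num)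
  have h2 : Tendsto (fun R : ℝ => (2 - ε) * Real.log (R / 2)) atTop atTop :=
    (Real.tendsto_log_atTop.comp h1).const_mul_atTop (by linarith)
  exact tendsto_atTop_add_const_right _ (-γ) h2

lemma lam_pos {ε : ℝ} (hε : 0 < ε) (hε2 : ε ≤ 1 / 2) : 0 < lam ε / 2 - 1 / (2 - ε) := by
  unfold lam
  have h1 : 0 < 2 - ε := by linarith
  have h2 : (4 - ε) / (ε * (2 - ε)) / 2 - 1 / (2 - ε) = (4 - 3 * ε) / (2 * ε * (2 - ε)) := by
    field_simp
    ring
  rw [h2]
  apply div_pos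
  · linarith
  · positivity

lemma err_tendsto {f : ℝ → ℝ} (hf : Tendsto f atTop atTop) {a : ℝ} (ha : 0 < a) (K s : ℝ) :
    Tendsto (fun R : ℝ => Real.exp K * Real.exp (-(a * (f R - 2 - s)))) atTop (𝓝 0) := by
  have h1 : Tendsto (fun R : ℝ => f R - 2 - s) atTop atTop := by
    have := tendsto_atTop_add_const_right atTop (-2 - s) hf
    refine this.congr fun R => ?_
    ring
  have h2 : Tendsto (fun R : ℝ => a * (f R - 2 - s)) atTop atTop := h1.const_mul_atTop ha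
  have h3 := (Real.tendsto_exp_neg_atTop_nhds_zero.comp h2).const_mul (Real.exp K)
  rw [mul_zero] at h3
  exact h3

end EXI1aux

open EXI1aux in
/-- EXI1: for given data, `ε` and small error, existence of a setup with a cut. -/
theorem EXI1 (hAFD : Stmt_AFD) (hMOD : Stmt_MOD) (hMODM : Stmt_MODM) (hLOC : Stmt_LOC)
    (hLOCU : Stmt_LOCU) (hP : Stmt_P) (hABS : Stmt_ABS) (hDEFE : Stmt_DEFE)
    (_hSETW : Stmt_SETW) : Stmt_EXI1 := by
  intro g h hTE hDE hPS
  obtain ⟨C₁, hC₁, hD1, -, -, hE2⟩ := hAFD g h hTE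
  obtain ⟨Cm, lm, hCm, hlm, hmod⟩ := hMOD g h hTE hDE hPS
  obtain ⟨C, hC⟩ : ∃ C, C = max C₁ Cm := ⟨_, rfl⟩
  have hCC₁ : C₁ ≤ C := by rw [hC]; exact le_max_left _ _
  have hCCm : Cm ≤ C := by rw [hC]; exact le_max_right _ _
  have hC0 : 0 < C := lt_of_lt_of_le hC₁ hCC₁
  obtain ⟨ρ, r, hρ0, hρ1, hr1, hU⟩ := hLOCU C hC0
  refine ⟨C, ρ, r, hC0, hρ0, hρ1, hr1, fun ε hε hε2 => ?_⟩
  obtain ⟨c, C₂, γ, κ, lL, hc0, hc1, hC₂, hγ, hκ0, hκ1, hlL, hloc⟩ := hLOC ε C hε hε2 hC0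
  obtain ⟨RU, hRU⟩ := hU ε hε hε2
  obtain ⟨B, l₁, hB, hl₁, habs⟩ := hABS ⟨ε, C, c, C₂, γ, κ⟩
  refine ⟨⟨ε, C, c, C₂, γ, κ⟩, B, max 4 (max lm (max lL (max l₁ (r + 1)))), rfl, hB,
    le_max_left _ _, ?_, fun l τ L hl hτ hL => ?_⟩
  · exact lt_of_lt_of_le (by linarith : r < r + 1)
      ((le_max_right l₁ (r + 1)).trans ((le_max_right lL _).trans
        ((le_max_right lm _).trans (le_max_right 4 _))))
  have hl4 : 4 ≤ l := (le_max_left _ _).trans hl
  have hl' := (le_max_right _ _).trans hl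
  have hllm : lm ≤ l := (le_max_left _ _).trans hl'
  have hl'' := (le_max_right _ _).trans hl'
  have hllL : lL ≤ l := (le_max_left _ _).trans hl''
  have hl''' := (le_max_right _ _).trans hl''
  have hll₁ : l₁ ≤ l := (le_max_left _ _).trans hl'''
  have hl0 : 0 < l := by linarith
  obtain ⟨RL, hRL16, hRL⟩ := hloc l hllL
  obtain ⟨B', hB', hdef⟩ := hDEFE ⟨ε, C, c, C₂, γ, κ⟩ B g l
  -- the small number for the defect
  obtain ⟨t, ht⟩ : ∃ t, t = min τ 1 := ⟨_, rfl⟩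
  have ht0 : 0 < t := by rw [ht]; exact lt_min hτ one_pos
  have htτ : t ≤ τ := by rw [ht]; exact min_le_left _ _
  have ht1 : t ≤ 1 := by rw [ht]; exact min_le_right _ _
  have hq1 : 1 ≤ (1 + ε) / ε := by
    rw [le_div_iff₀ hε]
    linarith
  have hτ'0 : 0 < (t / B') ^ ((1 + ε) / ε) := Real.rpow_pos_of_pos (div_pos ht0 hB') _
  -- the choice of `R`
  have hsM := sME_tendsto (ε := ε) (γ := γ) (by linarith)
  have hlam := lam_pos hε hε2
  have e8 := (err_tendsto hsM hlam (s2E ε γ l / (2 - ε)) (s2E ε γ l)).eventually_le_const ht0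
  have e6 := hsM.eventually_gt_atTop (s2E ε γ l + L + 1)
  have e7 := hsM.eventually_ge_atTop (s2E ε γ l + 1 + 2 * γ + 2)
  obtain ⟨R, h1, h2, h3, h4, h5, h6, h7, h8⟩ := ((eventually_ge_atTop RL).and
    ((eventually_ge_atTop RU).and ((eventually_ge_atTop (kE ε γ ^ 4 * l)).and
    ((eventually_ge_atTop (2 * l / κ)).and ((eventually_gt_atTop (1 / ρ)).and
    (e6.and (e7.and e8))))))).exists
  have hR16 : 16 * l ≤ R := hRL16.trans h1
  have hR0 : 0 < R := by linarith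
  have hR64 : 64 ≤ R := by linarith
  obtain ⟨g', h', e, hM, hτ'⟩ := hmod l R hllm (by linarith) (κ / l) ((1 + ε) / ε)
    ((t / B') ^ ((1 + ε) / ε)) (div_pos hκ0 hl0) hq1 hτ'0
  have hM' := hMODM g h Cm C l R g' h' e hl0 hR0 hCCm hM
  have hη0 : 0 < R ^ (-pe ε - 1) := Real.rpow_pos_of_pos hR0 _
  obtain ⟨u, G, M, hS⟩ := hP ε (1 / R) R (R ^ (-pe ε - 1)) g' h' hε (by linarith)
    (by positivity) (by
      rw [mul_one_div, div_le_iff₀ hR0]
      nlinarith) hη0 hM'.metric hM'.tensor (by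
      intro x hx
      exact ⟨hM'.flat x (by linarith), hM'.supp x (by linarith)⟩)
  have hbar : ∀ x : E3, 1 / (8 * R) ≤ ‖x‖ → |barB ε g' h' x - bE ε ‖x‖| ≤ C / (1 + ‖x‖ ^ 2) :=
    hM'.barrier ε hε (by linarith)
  have hL' : Located ε c C₂ γ κ l R u :=
    hRL R h1 _ g' h' u G M hη0 le_rfl hM'.metric hbar hS
  have hfin := hRU R h2 _ g' h' u G M hη0 le_rfl hM'.metric hbar hS
  have hSet : Setup ⟨ε, C, c, C₂, γ, κ⟩
      ⟨l, R, R ^ (-pe ε - 1), g, h, g', h', e, u, G, M⟩ :=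
    { eps_pos := hε
      eps_le := hε2
      C_pos := hC0
      c_pos := hc0
      c_le := hc1
      C2_pos := hC₂
      gam_pos := hγ
      kap_pos := hκ0
      kap_le := hκ1
      l_ge := hl4
      R_ge := h3
      R_ge' := h4
      metric0 := hTE.metric
      tensor0 := hTE.tensor
      hdecay := by
        intro x hx i j
        refine ((hD1 x hx i j).2.2.2.1).trans ?_
        exact div_le_div_of_nonneg_right hCC₁ (by positivity)
      ell2 := by
        intro y hy v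
        obtain ⟨a1, a2⟩ := hE2 y hy v
        have h0 : 0 ≤ ∑ i, v i ^ 2 := Finset.sum_nonneg fun i _ => sq_nonneg _
        have hev : 0 ≤ ev (inverted g y) v v := by
          by_contra hcon
          push Not at hcon
          have : C₁ * ev (inverted g y) v v < 0 := mul_neg_of_pos_of_neg hC₁ hcon
          linarith
        exact ⟨a1.trans (mul_le_mul_of_nonneg_right hCC₁ hev),
          a2.trans (mul_le_mul_of_nonneg_right hCC₁ h0)⟩
      modified := hM'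
      sol := hS
      located := hL' }
  have hA : AbsOf ⟨ε, C, c, C₂, γ, κ⟩ ⟨l, R, R ^ (-pe ε - 1), g, h, g', h', e, u, G, M⟩ B :=
    habs _ hSet hll₁
  obtain ⟨-, hN0, hN⟩ := hdef _ hSet hA rfl rfl
  have hNt : Dat.Nd ⟨l, R, R ^ (-pe ε - 1), g, h, g', h', e, u, G, M⟩ ⟨ε, C, c, C₂, γ, κ⟩ ≤ t := by
    refine hN.trans ?_
    have hi0 : 0 ≤ ∫ x in cAnn (κ / l) l, e x ^ ((1 + ε) / ε) :=
      integral_nonneg fun x => Real.rpow_nonneg (hM'.defect_nonneg x) _
    have h9 : (∫ x in cAnn (κ / l) l, e x ^ ((1 + ε) / ε)) ^ (ε / (1 + ε)) ≤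
        ((t / B') ^ ((1 + ε) / ε)) ^ (ε / (1 + ε)) :=
      Real.rpow_le_rpow hi0 hτ' (by positivity)
    have h10 : ((t / B') ^ ((1 + ε) / ε)) ^ (ε / (1 + ε)) = t / B' := by
      rw [← Real.rpow_mul (by positivity)]
      have : (1 + ε) / ε * (ε / (1 + ε)) = 1 := by
        have : 1 + ε ≠ 0 := by positivity
        field_simp
      rw [this, Real.rpow_one]
    rw [h10] at h9
    calc B' * (∫ x in cAnn (κ / l) l, e x ^ ((1 + ε) / ε)) ^ (ε / (1 + ε))
        ≤ B' * (t / B') := mul_le_mul_of_nonneg_left h9 hB'.le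
      _ = t := by field_simp
  have her : Dat.er ⟨l, R, R ^ (-pe ε - 1), g, h, g', h', e, u, G, M⟩ ⟨ε, C, c, C₂, γ, κ⟩
      (sME ε γ R - 2) ≤ t := h8
  refine ⟨⟨l, R, R ^ (-pe ε - 1), g, h, g', h', e, u, G, M⟩, sME ε γ R - 2, rfl, rfl, rfl, hSet,
    hA, ⟨?_, ?_, her.trans ht1, hNt.trans ht1⟩, hNt.trans htτ, her.trans htτ, h6, ?_, hfin⟩
  · show s2E ε γ l + 1 + 2 * γ ≤ sME ε γ R - 2
    linarith
  · show sME ε γ R - 2 + 1 < sME ε γ R
    linarith
  · show 1 / R < ρ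
    rw [div_lt_iff₀ hR0]
    rw [div_lt_iff₀ hρ0] at h5
    linarith

end Pool.Agent.PFlow
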