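import Pool.Agent.PFlow.StmtsE1
import Pool.Agent.PFlow.StmtsE2

/-!
# Module BARR: the barriers are strict sub- and supersolutions
-/

open MeasureTheory Filter Topology
open scoped ContDiff

namespace Pool.Agent.PFlow

open Pool.Agent.PenroseSph

namespace BARRm

lemma contDiffAt_phiDen (ε σ C : ℝ) {r : ℝ} (hr : 0 < r) :
    ContDiffAt ℝ 1 (phiDen ε σ C) r := by
  have h1 : ContDiffAt ℝ 1 (fun t : ℝ => t ^ (pe ε - 1)) r :=
    contDiffAt_id.rpow_const_of_ne hr.ne'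
  have h2 : ContDiffAt ℝ 1 (fun t : ℝ => (1 + t ^ 2) ^ (-pe ε)) r :=
    (contDiffAt_const.add (contDiffAt_id.pow 2)).rpow_const_of_ne
      (by positivity : (1 : ℝ) + r ^ 2 ≠ 0)
  have h3 : ContDiffAt ℝ 1 (fun t : ℝ => Real.exp (-(σ * C * Real.arctan t / ε))) r :=
    (((contDiffAt_const.mul contDiffAt_id.arctan).div_const ε).neg).exp
  exact (h1.mul h2).mul h3

end BARRm

open BARRm in
/-- **(BARR)** The barriers are strict sub- and supersolutions. -/
theorem BARR (hRADN : Stmt_RADN) (hPHI : Stmt_PHI) : Stmt_BARR := by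
  intro ε C g h x hε hε2 hC hx hg hb σ hσ
  have hr : 0 < ‖x‖ := norm_pos_iff.mpr hx
  obtain ⟨-, hd, -⟩ := hPHI ε (C + 1) σ hε hε2 (by linarith) hσ
  have hdF : ∀ r : ℝ, 0 < r → deriv (phiB ε σ (C + 1)) r = -phiDen ε σ (C + 1) r :=
    fun r hr => (hd r hr).2.1.deriv
  have hdF' : deriv (phiB ε σ (C + 1)) =ᶠ[𝓝 ‖x‖] fun r => -phiDen ε σ (C + 1) r := by
    filter_upwards [lt_mem_nhds hr] with r hr'
    exact hdF r hr'
  -- the first two derivatives of `k * F + c`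
  have hC2 : ContDiffAt ℝ 2 (phiB ε σ (C + 1)) ‖x‖ := by
    have h1 : ContDiffOn ℝ 2 (phiB ε σ (C + 1)) (Set.Ioi 0) := by
      have h2 : ContDiffOn ℝ (1 + 1) (phiB ε σ (C + 1)) (Set.Ioi 0) := by
        rw [contDiffOn_succ_iff_deriv_of_isOpen isOpen_Ioi]
        refine ⟨?_, ?_, ?_⟩
        · intro r hr'
          exact (hd r hr').2.1.differentiableAt.differentiableWithinAt
        · intro h3
          exact absurd h3 (by decide)
        · have h3 : ContDiffOn ℝ 1 (fun r => -phiDen ε σ (C + 1) r) (Set.Ioi 0) :=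
            fun r hr' => (contDiffAt_phiDen ε σ (C + 1) hr').neg.contDiffWithinAt
          exact h3.congr fun r hr' => hdF r hr'
      exact h2.of_le (by norm_num)
    exact (h1 ‖x‖ hr).contDiffAt (Ioi_mem_nhds hr)
  have hpos := (hd ‖x‖ hr).1
  have hdd : deriv (deriv (phiB ε σ (C + 1))) ‖x‖
      = phiDen ε σ (C + 1) ‖x‖ * (bE ε ‖x‖ + σ * (C + 1) / (1 + ‖x‖ ^ 2)) / ε := by
    rw [hdF'.deriv_eq]
    have h1 := (hd ‖x‖ hr).2.2.neg
    rw [neg_neg] at h1
    exact h1.deriv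
  have hfst : ∀ k c : ℝ, deriv (fun r => k * phiB ε σ (C + 1) r + c) =ᶠ[𝓝 ‖x‖]
      fun r => k * (-phiDen ε σ (C + 1) r) := by
    intro k c
    filter_upwards [lt_mem_nhds hr] with r hr'
    exact (((hd r hr').2.1.const_mul k).add_const c).deriv
  have hfst' : ∀ k c : ℝ, deriv (fun r => k * phiB ε σ (C + 1) r + c) ‖x‖
      = k * (-phiDen ε σ (C + 1) ‖x‖) := fun k c => (hfst k c).self_of_nhds
  have hsnd : ∀ k c : ℝ, deriv (deriv (fun r => k * phiB ε σ (C + 1) r + c)) ‖x‖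
      = k * (phiDen ε σ (C + 1) ‖x‖ * (bE ε ‖x‖ + σ * (C + 1) / (1 + ‖x‖ ^ 2)) / ε) := by
    intro k c
    rw [(hfst k c).deriv_eq]
    have h1 := ((hd ‖x‖ hr).2.2.neg).const_mul k
    rw [neg_neg] at h1
    exact h1.deriv
  have hop : ∀ k c : ℝ, 0 < k →
      opN ε g h (fun y : E3 => k * phiB ε σ (C + 1) ‖y‖ + c) x
        = len g x (grad rad x) ^ 2 * (k * phiDen ε σ (C + 1) ‖x‖ *
          (bE ε ‖x‖ + σ * (C + 1) / (1 + ‖x‖ ^ 2) - barB ε g h x)) ∧
      0 < len g x (grad rad x) := by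
    intro k c hk
    have h1 := hRADN ε g h (fun r => k * phiB ε σ (C + 1) r + c) x hx hg
      ((contDiffAt_const.mul hC2).add contDiffAt_const) (by
        rw [hfst']
        nlinarith)
    refine ⟨?_, h1.2.1⟩
    rw [h1.2.2, hfst', hsnd]
    have hε0 : ε ≠ 0 := hε.ne'
    field_simp
    ring
  have hab := abs_le.mp hb
  have hq : 0 < 1 + ‖x‖ ^ 2 := by positivity
  have hsplit : (C + 1) / (1 + ‖x‖ ^ 2) = C / (1 + ‖x‖ ^ 2) + 1 / (1 + ‖x‖ ^ 2) := add_div _ _ _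
  have hone : 0 < 1 / (1 + ‖x‖ ^ 2) := by positivity
  refine ⟨?_, ?_, ?_, ?_⟩
  · exact hC2.comp x (contDiffAt_norm ℝ hx)
  · exact (hRADN ε g h (phiB ε σ (C + 1)) x hx hg hC2 (by
      rw [hdF _ hr]
      linarith)).1
  · intro hs k c hk
    have h1 := hop k (-(k * c)) hk
    have h2 : (fun y : E3 => k * (phiB ε σ (C + 1) ‖y‖ - c))
        = fun y : E3 => k * phiB ε σ (C + 1) ‖y‖ + -(k * c) := by
      funext y
      ring
    rw [h2, h1.1]
    have h3 := h1.2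
    have h4 : 0 < bE ε ‖x‖ + σ * (C + 1) / (1 + ‖x‖ ^ 2) - barB ε g h x := by
      rw [hs, one_mul, hsplit]
      linarith [hab.2]
    positivity
  · intro hs k c hk
    have h1 := hop k c hk
    rw [h1.1]
    have h3 := h1.2
    have h4 : bE ε ‖x‖ + σ * (C + 1) / (1 + ‖x‖ ^ 2) - barB ε g h x < 0 := by
      rw [hs, neg_one_mul, neg_div, hsplit]
      linarith [hab.1]
    have h5 : 0 < len g x (grad rad x) ^ 2 := by positivity
    have h6 : 0 < k * phiDen ε σ (C + 1) ‖x‖ := by positivity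
    exact mul_neg_of_pos_of_neg h5 (mul_neg_of_pos_of_neg h6 h4)

end Pool.Agent.PFlow
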