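import Pool.Agent.PFlow.StmtsE2

/-!
# Location of the level sets

The solution is compared with the radial barriers `(1 - η) (Φ₊(|x|) - Φ₊(R)) / Φ₊(0)` (from below)
and `Φ₋(|x|) / Φ₋(1/R) + η` (from above).
-/

open MeasureTheory Filter Topology
open scoped ContDiff ENNReal

namespace Pool.Agent.PFlow

open Pool.Agent.PenroseSph

namespace Loc

theorem mul_pe (ε : ℝ) (h0 : 0 < ε) : ε * pe ε = 2 - ε := by
  unfold pe
  field_simp

theorem pe_ge (ε : ℝ) (h0 : 0 < ε) (h1 : ε ≤ 1 / 2) : 3 ≤ pe ε := by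
  have h2 : ε * 3 ≤ ε * pe ε := by
    rw [mul_pe ε h0]
    linarith
  exact le_of_mul_le_mul_left h2 h0

/-- Lower bound of the density of the barriers. -/
theorem den_lower (ε σ C t : ℝ) (hε : 0 < ε) (hp : 0 ≤ pe ε) (hC : 0 ≤ C)
    (hσ : σ = 1 ∨ σ = -1) (ht : 1 ≤ t) :
    2 ^ (-pe ε) * Real.exp (-(C * Real.pi / (2 * ε))) * t ^ (-pe ε - 1) ≤ phiDen ε σ C t := by
  have ht0 : 0 < t := by linarith
  unfold phiDen
  have h1 : (2 * t ^ 2) ^ (-pe ε) ≤ (1 + t ^ 2) ^ (-pe ε) :=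
    Real.rpow_le_rpow_of_nonpos (by positivity) (by nlinarith) (by linarith)
  have h2 : (2 * t ^ 2) ^ (-pe ε) = 2 ^ (-pe ε) * t ^ (-(2 * pe ε)) := by
    rw [Real.mul_rpow (by norm_num) (by positivity), ← Real.rpow_natCast t 2, ← Real.rpow_mul ht0.le]
    congr 2
    push_cast
    ring
  have h3 : Real.exp (-(C * Real.pi / (2 * ε))) ≤ Real.exp (-(σ * C * Real.arctan t / ε)) := by
    apply Real.exp_le_exp.mpr
    have ha : Real.arctan t < Real.pi / 2 := Real.arctan_lt_pi_div_two t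
    have ha0 : 0 < Real.arctan t := Real.arctan_pos.mpr ht0
    have h4 : σ * C * Real.arctan t ≤ C * (Real.pi / 2) := by
      rcases hσ with h | h
      · rw [h, one_mul]
        exact mul_le_mul_of_nonneg_left ha.le hC
      · rw [h]
        have h5 : 0 ≤ C * Real.arctan t := mul_nonneg hC ha0.le
        have h6 : 0 ≤ C * (Real.pi / 2) := mul_nonneg hC (by positivity)
        linarith
    have h5 : σ * C * Real.arctan t / ε ≤ C * (Real.pi / 2) / ε :=
      div_le_div_of_nonneg_right h4 hε.le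
    have h6 : C * (Real.pi / 2) / ε = C * Real.pi / (2 * ε) := by
      field_simp
    linarith
  have h4 : t ^ (-pe ε - 1) = t ^ (pe ε - 1) * t ^ (-(2 * pe ε)) := by
    rw [← Real.rpow_add ht0]
    congr 1
    ring
  rw [h4]
  calc 2 ^ (-pe ε) * Real.exp (-(C * Real.pi / (2 * ε))) * (t ^ (pe ε - 1) * t ^ (-(2 * pe ε)))
      = t ^ (pe ε - 1) * (2 ^ (-pe ε) * t ^ (-(2 * pe ε)))
          * Real.exp (-(C * Real.pi / (2 * ε))) := by ring
    _ ≤ t ^ (pe ε - 1) * (1 + t ^ 2) ^ (-pe ε) * Real.exp (-(σ * C * Real.arctan t / ε)) := by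
        rw [← h2]
        gcongr

/-- The properties of the barrier functions that are used. -/
structure Facts (p q E : ℝ) (Φ : ℝ → ℝ) : Prop where
  anti : ∀ r s, 0 ≤ r → r < s → Φ s < Φ r
  low : ∀ r, 1 ≤ r → q * r ^ (-p) / p ≤ Φ r
  upp : ∀ r, 1 ≤ r → Φ r ≤ E * r ^ (-p) / p
  dlow : ∀ r s, 0 ≤ r → r ≤ s → s ≤ 1 → q * (s ^ p - r ^ p) / p ≤ Φ r - Φ s
  dupp : ∀ r s, 0 ≤ r → r ≤ s → s ≤ 1 → Φ r - Φ s ≤ E * (s ^ p - r ^ p) / p
  dlow1 : ∀ r s, 1 ≤ r → r ≤ s → q * (r ^ (-p) - s ^ (-p)) / p ≤ Φ r - Φ s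

theorem facts (hPHI : Stmt_PHI) (ε C σ : ℝ) (hε : 0 < ε) (hε1 : ε ≤ 1 / 2) (hC : 0 ≤ C)
    (hσ : σ = 1 ∨ σ = -1) :
    Facts (pe ε) (2 ^ (-pe ε) * Real.exp (-(C * Real.pi / (2 * ε))))
      (Real.exp (C * Real.pi / (2 * ε))) (phiB ε σ C) := by
  obtain ⟨-, hd, hc, hb, hs⟩ := hPHI ε C σ hε hε1 hC hσ
  have hp : 0 < pe ε := by linarith [pe_ge ε hε hε1]
  have hanti : StrictAntiOn (phiB ε σ C) (Set.Ici 0) := by
    refine strictAntiOn_of_deriv_neg (convex_Ici 0) hc ?_
    intro x hx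
    rw [interior_Ici] at hx
    rw [(hd x hx).2.1.deriv]
    exact neg_neg_of_pos (hd x hx).1
  refine ⟨?_, fun r hr => (hb r hr).1, fun r hr => (hb r hr).2, ?_, ?_, ?_⟩
  · intro r s hr hrs
    exact hanti hr (le_trans hr hrs.le) hrs
  · intro r s h1 h2 h3
    exact (hs r s h1 h2 h3).1
  · intro r s h1 h2 h3
    exact (hs r s h1 h2 h3).2
  · intro r s hr hrs
    set q := 2 ^ (-pe ε) * Real.exp (-(C * Real.pi / (2 * ε))) with hq
    have hderiv : ∀ t : ℝ, 1 ≤ t → HasDerivAt (fun t => phiB ε σ C t - q * t ^ (-pe ε) / pe ε)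
        (-phiDen ε σ C t + q * t ^ (-pe ε - 1)) t := by
      intro t ht
      have ht0 : 0 < t := by linarith
      have h1 := (hd t ht0).2.1
      have h2 : HasDerivAt (fun t : ℝ => t ^ (-pe ε)) (-pe ε * t ^ (-pe ε - 1)) t :=
        Real.hasDerivAt_rpow_const (Or.inl ht0.ne')
      have h3 := h1.sub ((h2.const_mul q).div_const (pe ε))
      refine h3.congr_deriv ?_
      field_simp
      ring
    have hmono : AntitoneOn (fun t => phiB ε σ C t - q * t ^ (-pe ε) / pe ε) (Set.Ici 1) := by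
      refine antitoneOn_of_deriv_nonpos (convex_Ici 1) ?_ ?_ ?_
      · intro t ht
        exact (hderiv t ht).continuousAt.continuousWithinAt
      · intro t ht
        rw [interior_Ici] at ht
        exact (hderiv t (le_of_lt ht)).differentiableAt.differentiableWithinAt
      · intro t ht
        rw [interior_Ici] at ht
        rw [(hderiv t (le_of_lt ht)).deriv]
        have := den_lower ε σ C t hε hp.le hC hσ (le_of_lt ht)
        linarith
    have h1 := hmono (Set.mem_Ici.mpr hr) (Set.mem_Ici.mpr (hr.trans hrs)) hrs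
    simp only at h1
    have h2 : q * (r ^ (-pe ε) - s ^ (-pe ε)) / pe ε
        = q * r ^ (-pe ε) / pe ε - q * s ^ (-pe ε) / pe ε := by ring
    rw [h2]
    linarith

variable {p q E : ℝ} {Φ : ℝ → ℝ}

theorem Facts.anti' (h : Facts p q E Φ) {r s : ℝ} (hr : 0 ≤ r) (hrs : r ≤ s) : Φ s ≤ Φ r := by
  rcases hrs.eq_or_lt with h1 | h1
  · rw [h1]
  · exact (h.anti r s hr h1).le

theorem Facts.pos (h : Facts p q E Φ) (hp : 0 < p) (hq : 0 < q) {r : ℝ} (hr : 0 ≤ r) :
    0 < Φ r := by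
  have h1 : Φ (r + 1) < Φ r := h.anti r (r + 1) hr (by linarith)
  have h2 := h.low (r + 1) (by linarith)
  have h3 : 0 < q * (r + 1) ^ (-p) / p := by positivity
  linarith

theorem Facts.zero_low (h : Facts p q E Φ) (hp : 0 < p) : 2 * q / p ≤ Φ 0 := by
  have h1 := h.dlow 0 1 le_rfl zero_le_one le_rfl
  have h2 := h.low 1 le_rfl
  rw [Real.one_rpow, Real.zero_rpow hp.ne'] at h1
  rw [Real.one_rpow] at h2
  have h3 : 2 * q / p = q * (1 - 0) / p + q * 1 / p := by ring
  linarith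

theorem Facts.zero_upp (h : Facts p q E Φ) (hp : 0 < p) : Φ 0 ≤ 2 * E / p := by
  have h1 := h.dupp 0 1 le_rfl zero_le_one le_rfl
  have h2 := h.upp 1 le_rfl
  rw [Real.one_rpow, Real.zero_rpow hp.ne'] at h1
  rw [Real.one_rpow] at h2
  have h3 : 2 * E / p = E * (1 - 0) / p + E * 1 / p := by ring
  linarith

/-- Lower bound of the lower barrier far out. -/
theorem Facts.lower_out (h : Facts p q E Φ) (hp : 1 ≤ p) (hq : 0 < q) (hE : 0 < E) {r s R η : ℝ}
    (hr : 0 ≤ r) (hrs : r ≤ s) (hs : 1 ≤ s) (hR : 2 * s ≤ R) (hη : η ≤ 1 / 2) :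
    q / (8 * E) * s ^ (-p) ≤ (1 - η) / Φ 0 * (Φ r - Φ R) := by
  have hp0 : 0 < p := by linarith
  have h1 := h.dlow1 s R hs (by linarith)
  have h2 := h.anti' hr hrs
  have h0 := h.pos hp0 hq le_rfl
  have h0u := h.zero_upp hp0
  have h3 : R ^ (-p) ≤ s ^ (-p) / 2 := by
    calc R ^ (-p) ≤ (2 * s) ^ (-p) :=
          Real.rpow_le_rpow_of_nonpos (by positivity) hR (by linarith)
      _ = 2 ^ (-p) * s ^ (-p) := Real.mul_rpow (by norm_num) (by linarith)
      _ ≤ 2 ^ (-(1 : ℝ)) * s ^ (-p) := by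
          gcongr
          norm_num
      _ = s ^ (-p) / 2 := by
          rw [Real.rpow_neg_one]
          ring
  have hsp : 0 < s ^ (-p) := by positivity
  have h4 : q * s ^ (-p) / (2 * p) ≤ Φ r - Φ R := by
    have h5 : q * (s ^ (-p) / 2) / p ≤ q * (s ^ (-p) - R ^ (-p)) / p := by
      gcongr
      linarith
    have h6 : q * (s ^ (-p) / 2) / p = q * s ^ (-p) / (2 * p) := by ring
    linarith
  have h5 : p / (4 * E) ≤ (1 - η) / Φ 0 := by
    rw [div_le_div_iff₀ (by positivity) h0]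
    have h6 : p * Φ 0 ≤ 2 * E := by
      have := mul_le_mul_of_nonneg_left h0u hp0.le
      have h7 : p * (2 * E / p) = 2 * E := by field_simp
      linarith
    nlinarith
  calc q / (8 * E) * s ^ (-p) = p / (4 * E) * (q * s ^ (-p) / (2 * p)) := by
        field_simp
        ring
    _ ≤ (1 - η) / Φ 0 * (Φ r - Φ R) := by
        gcongr
        exact div_nonneg (by linarith) h0.le

/-- Bound of one minus the lower barrier near the centre. -/
theorem Facts.lower_in (h : Facts p q E Φ) (hp : 1 ≤ p) (hq : 0 < q) (hE : 0 < E) {r s R η : ℝ}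
    (hr : 0 ≤ r) (hrs : r ≤ s) (hs0 : 0 < s) (hs : s ≤ 1) (hR : 1 ≤ R) (hRs : 1 / R ≤ s)
    (hη0 : 0 ≤ η) (hη : η ≤ R ^ (-p)) :
    1 - (1 - η) / Φ 0 * (Φ r - Φ R) ≤ (E / q + 1) * s ^ p := by
  have hp0 : 0 < p := by linarith
  have h0 := h.pos hp0 hq le_rfl
  have h0l := h.zero_low hp0
  have h1 := h.dupp 0 s le_rfl hs0.le hs
  have h2 := h.anti' hr hrs
  have h3 := h.upp R hR
  have hRp : 0 < Φ R := h.pos hp0 hq (by linarith)
  rw [Real.zero_rpow hp0.ne', sub_zero] at h1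
  have hR0 : 0 < R := by linarith
  have h4 : R ^ (-p) ≤ s ^ p := by
    rw [Real.rpow_neg hR0.le, ← Real.inv_rpow hR0.le]
    refine Real.rpow_le_rpow (by positivity) ?_ hp0.le
    rw [← one_div]
    exact hRs
  have h5 : (Φ 0 - (Φ r - Φ R)) ≤ 2 * (E * s ^ p / p) := by
    have h6 : E * R ^ (-p) / p ≤ E * s ^ p / p := by gcongr
    linarith
  have h6 : (Φ 0 - (Φ r - Φ R)) / Φ 0 ≤ E / q * s ^ p := by
    rw [div_le_iff₀ h0]
    have h7 : E / q * s ^ p * (2 * q / p) ≤ E / q * s ^ p * Φ 0 := by gcongr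
    have h8 : E / q * s ^ p * (2 * q / p) = 2 * (E * s ^ p / p) := by
      field_simp
    linarith
  have h7 : (Φ r - Φ R) / Φ 0 ≤ 1 := by
    rw [div_le_one h0]
    have := h.anti' le_rfl hr
    linarith
  have h8 : 1 - (1 - η) / Φ 0 * (Φ r - Φ R)
      = (Φ 0 - (Φ r - Φ R)) / Φ 0 + η * ((Φ r - Φ R) / Φ 0) := by
    field_simp
    ring
  rw [h8]
  have h9 : η * ((Φ r - Φ R) / Φ 0) ≤ s ^ p :=
    calc η * ((Φ r - Φ R) / Φ 0) ≤ η * 1 := mul_le_mul_of_nonneg_left h7 hη0
      _ = η := mul_one η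
      _ ≤ s ^ p := hη.trans h4
  linarith

/-- Upper bound of the upper barrier far out. -/
theorem Facts.upper_out (h : Facts p q E Φ) (hp : 1 ≤ p) (hq : 0 < q) (hE : 0 < E) {r R η : ℝ}
    (hr : 1 ≤ r) (hR : r ≤ R) (hη : η ≤ R ^ (-p)) :
    1 / Φ (1 / R) * Φ r + η ≤ (E / q + 1) * r ^ (-p) := by
  have hp0 : 0 < p := by linarith
  have hR1 : 1 ≤ R := hr.trans hR
  have h1 := h.upp r hr
  have h2 : Φ 1 ≤ Φ (1 / R) := by
    refine h.anti' (by positivity) ?_
    rw [div_le_one (by linarith)]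
    exact hR1
  have h3 := h.low 1 le_rfl
  rw [Real.one_rpow, mul_one] at h3
  have h4 : R ^ (-p) ≤ r ^ (-p) := Real.rpow_le_rpow_of_nonpos (by linarith) hR (by linarith)
  have h5 : 0 < q / p := by positivity
  have h6 : 1 / Φ (1 / R) ≤ p / q := by
    rw [div_le_div_iff₀ (by linarith) hq]
    have h7 : q / p * p ≤ Φ (1 / R) * p := mul_le_mul_of_nonneg_right (by linarith) hp0.le
    have h8 : q / p * p = q := by field_simp
    linarith
  have h7 : 0 < Φ r := h.pos hp0 hq (by linarith)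
  have h8 : 1 / Φ (1 / R) * Φ r ≤ p / q * (E * r ^ (-p) / p) := by gcongr
  have h9 : p / q * (E * r ^ (-p) / p) = E / q * r ^ (-p) := by field_simp
  rw [h9] at h8
  linarith

/-- One minus the upper barrier near the centre. -/
theorem Facts.upper_in (h : Facts p q E Φ) (hp : 1 ≤ p) (hq : 0 < q) (hq1 : q ≤ 1) (hE : 1 ≤ E)
    {r s R η : ℝ} (hs0 : 0 < s) (hs : s ≤ 1) (hrs : s ≤ r) (hR : 8 * E / q ≤ R * s)
    (hη : η ≤ R ^ (-p)) :
    q / (4 * E) * s ^ p < 1 - (1 / Φ (1 / R) * Φ r + η) := by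
  have hp0 : 0 < p := by linarith
  have hA : 1 ≤ 8 * E / q := by
    rw [le_div_iff₀ hq]
    linarith
  have hR0 : 0 < R := by
    by_contra hcon
    push Not at hcon
    have : R * s ≤ 0 := mul_nonpos_of_nonpos_of_nonneg hcon hs0.le
    linarith
  have hRs : 1 / R ≤ s := by
    rw [div_le_iff₀ hR0, mul_comm]
    linarith
  have h1 := h.dlow (1 / R) s (by positivity) hRs hs
  have h2 := h.anti' hs0.le hrs
  have hP : 0 < Φ (1 / R) := h.pos hp0 hq (by positivity)
  have hP0 : Φ (1 / R) ≤ Φ 0 := h.anti' le_rfl (by positivity)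
  have h0u := h.zero_upp hp0
  have hRp : R ^ (-p) ≤ q / (8 * E) * s ^ p := by
    have h3 : 8 * E / q / s ≤ R := by
      rw [div_le_iff₀ hs0]
      exact hR
    calc R ^ (-p) ≤ (8 * E / q / s) ^ (-p) :=
          Real.rpow_le_rpow_of_nonpos (by positivity) h3 (by linarith)
      _ = (8 * E / q) ^ (-p) * s ^ p := by
          rw [Real.div_rpow (by positivity) hs0.le, Real.rpow_neg hs0.le, div_inv_eq_mul]
      _ ≤ (8 * E / q) ^ (-(1 : ℝ)) * s ^ p := by
          gcongr
      _ = q / (8 * E) * s ^ p := by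
          rw [Real.rpow_neg_one, inv_div]
  have hR2 : (1 / R) ^ p ≤ q / (8 * E) * s ^ p := by
    have h3 : (1 / R) ^ p = R ^ (-p) := by
      rw [one_div, Real.inv_rpow hR0.le, Real.rpow_neg hR0.le]
    rw [h3]
    exact hRp
  have hsp : 0 < s ^ p := by positivity
  have hqE : q / (8 * E) ≤ 1 / 8 := by
    rw [div_le_div_iff₀ (by positivity) (by norm_num)]
    nlinarith
  have h3 : q * (7 / 8 * s ^ p) / p ≤ Φ (1 / R) - Φ r := by
    have h4 : q * (7 / 8 * s ^ p) / p ≤ q * (s ^ p - (1 / R) ^ p) / p := by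
      gcongr
      have : q / (8 * E) * s ^ p ≤ 1 / 8 * s ^ p := by gcongr
      linarith
    linarith
  have h4 : q / (2 * E) * (7 / 8 * s ^ p) ≤ (Φ (1 / R) - Φ r) / Φ (1 / R) := by
    rw [le_div_iff₀ hP]
    calc q / (2 * E) * (7 / 8 * s ^ p) * Φ (1 / R)
        ≤ q / (2 * E) * (7 / 8 * s ^ p) * (2 * E / p) := by
          gcongr
          exact hP0.trans h0u
      _ = q * (7 / 8 * s ^ p) / p := by field_simp
      _ ≤ Φ (1 / R) - Φ r := h3
  have h5 : 1 - (1 / Φ (1 / R) * Φ r + η) = (Φ (1 / R) - Φ r) / Φ (1 / R) - η := by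
    field_simp
    ring
  rw [h5]
  have h6 : q / (2 * E) * (7 / 8 * s ^ p) - q / (8 * E) * s ^ p = 5 / 16 * (q / E) * s ^ p := by
    field_simp
    ring
  have h7 : q / (4 * E) * s ^ p = 4 / 16 * (q / E) * s ^ p := by
    field_simp
    ring
  have h8 : 0 < (q / E) * s ^ p := by positivity
  rw [h7]
  linarith

/-! ### Comparison -/

theorem frontier_shell (a b : ℝ) (x : E3)
    (hx : x ∈ frontier {x : E3 | a ≤ ‖x‖ ∧ ‖x‖ ≤ b}) : ‖x‖ = a ∨ ‖x‖ = b := by
  have hcl : IsClosed {x : E3 | a ≤ ‖x‖ ∧ ‖x‖ ≤ b} :=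
    (isClosed_le continuous_const continuous_norm).inter
      (isClosed_le continuous_norm continuous_const)
  have hop : IsOpen {x : E3 | a < ‖x‖ ∧ ‖x‖ < b} :=
    (isOpen_lt continuous_const continuous_norm).inter
      (isOpen_lt continuous_norm continuous_const)
  rw [hcl.frontier_eq] at hx
  obtain ⟨h1, h2⟩ := hx
  by_contra hcon
  push Not at hcon
  apply h2
  rw [mem_interior]
  exact ⟨{x : E3 | a < ‖x‖ ∧ ‖x‖ < b}, fun y hy => ⟨le_of_lt hy.1, le_of_lt hy.2⟩, hop,
    lt_of_le_of_ne h1.1 (Ne.symm hcon.1), lt_of_le_of_ne h1.2 hcon.2⟩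

theorem isCompact_shell (a b : ℝ) : IsCompact {x : E3 | a ≤ ‖x‖ ∧ ‖x‖ ≤ b} := by
  have hcl : IsClosed {x : E3 | a ≤ ‖x‖ ∧ ‖x‖ ≤ b} :=
    (isClosed_le continuous_const continuous_norm).inter
      (isClosed_le continuous_norm continuous_const)
  refine Metric.isCompact_of_isClosed_isBounded hcl ?_
  refine (Metric.isBounded_closedBall (x := (0 : E3)) (r := b)).subset ?_
  intro x hx
  rw [mem_closedBall_zero_iff]
  exact hx.2

theorem grad_affine (F : E3 → ℝ) (x : E3) (k c : ℝ) (hF : DifferentiableAt ℝ F x) (hk : k ≠ 0)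
    (hg : grad F x ≠ 0) : grad (fun y => k * F y + c) x ≠ 0 := by
  intro h0
  apply hg
  ext i
  have h1 := congrFun h0 i
  simp only [grad, pd, Pi.zero_apply] at h1 ⊢
  have h2 : fderiv ℝ (fun y => k * F y + c) x = k • fderiv ℝ F x := by
    rw [fderiv_add_const, fderiv_const_mul hF]
  rw [h2] at h1
  simp only [smul_apply, smul_eq_mul, mul_eq_zero] at h1
  exact h1.resolve_left hk

end Loc

open Loc in
theorem LOC (hPHI : Stmt_PHI) (hBARR : Stmt_BARR) : Stmt_LOC := by
  intro ε C hε hε1 hC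
  have hp3 := pe_ge ε hε hε1
  have hεp := mul_pe ε hε
  set p := pe ε with hp
  set q := 2 ^ (-p) * Real.exp (-((C + 1) * Real.pi / (2 * ε))) with hq
  set E := Real.exp ((C + 1) * Real.pi / (2 * ε)) with hE
  have hC1 : 0 ≤ C + 1 := by linarith
  have hp0 : 0 < p := by linarith
  have hp1 : 1 ≤ p := by linarith
  have hq0 : 0 < q := by positivity
  have hE1 : 1 ≤ E := Real.one_le_exp (by positivity)
  have hE0 : 0 < E := by linarith
  have hq1 : q ≤ 1 := by
    have h1 : (2 : ℝ) ^ (-p) ≤ 1 := Real.rpow_le_one_of_one_le_of_nonpos (by norm_num) (by linarith)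
    have h2 : Real.exp (-((C + 1) * Real.pi / (2 * ε))) ≤ 1 := by
      rw [Real.exp_le_one_iff]
      have : 0 ≤ (C + 1) * Real.pi / (2 * ε) := by positivity
      linarith
    calc q ≤ 1 * 1 := by
          rw [hq]
          gcongr
      _ = 1 := by ring
  have hFp : Facts p q E (phiB ε 1 (C + 1)) := facts hPHI ε (C + 1) 1 hε hε1 hC1 (Or.inl rfl)
  have hFm : Facts p q E (phiB ε (-1) (C + 1)) :=
    facts hPHI ε (C + 1) (-1) hε hε1 hC1 (Or.inr rfl)
  set Φp := phiB ε 1 (C + 1) with hΦp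
  set Φm := phiB ε (-1) (C + 1) with hΦm
  set c : ℝ := q / (4 * E) with hc
  set C₂ : ℝ := E / q + 1 with hC₂
  have hEq : 1 ≤ E / q := by
    rw [le_div_iff₀ hq0]
    linarith
  have hC₂1 : 2 ≤ C₂ := by
    rw [hC₂]
    linarith
  have hc0 : 0 < c := by positivity
  have hc1 : c ≤ 1 := by
    rw [hc, div_le_one (by positivity)]
    linarith
  set κ : ℝ := c / (64 * C₂) with hκ
  have hκ0 : 0 < κ := by positivity
  have hκ8 : κ ≤ 1 / 128 := by
    rw [hκ, div_le_div_iff₀ (by positivity) (by norm_num)]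
    nlinarith
  set A : ℝ := 8 * E / q with hA
  have hA1 : 1 ≤ A := by
    rw [hA, le_div_iff₀ hq0]
    linarith
  have hlogA : 0 ≤ Real.log A := Real.log_nonneg hA1
  set γ : ℝ := ε * Real.log A + 1 with hγ
  have hγ0 : 0 < γ := by positivity
  refine ⟨c, C₂, γ, κ, 2 * C₂, hc0, hc1, by linarith, hγ0, hκ0, by linarith, by linarith, ?_⟩
  intro l hl
  have hl1 : 1 ≤ l := by linarith
  have hl0 : 0 < l := by linarith
  refine ⟨16 * l + l / κ + 4 * l * A, ?_, ?_⟩
  · have h1 : 0 ≤ l / κ := by positivity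
    have h2 : 0 ≤ 4 * l * A := by positivity
    linarith
  intro R hR η g h u G M hη0 hη hg hbar sol
  have hRa : 16 * l ≤ R := by
    have h1 : 0 ≤ l / κ := by positivity
    have h2 : 0 ≤ 4 * l * A := by positivity
    linarith
  have hRb : l / κ ≤ R := by
    have h2 : 0 ≤ 4 * l * A := by positivity
    linarith
  have hRc : 4 * l * A ≤ R := by
    have h1 : 0 ≤ l / κ := by positivity
    linarith
  have hR16 : 16 ≤ R := by linarith
  have hR0 : 0 < R := by linarith
  have hηp : η ≤ R ^ (-p) := by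
    refine hη.trans (Real.rpow_le_rpow_of_exponent_le (by linarith) (by linarith))
  have hη1 : η ≤ 1 / 2 := by
    have h1 : R ^ (-p) ≤ R ^ (-(1 : ℝ)) :=
      Real.rpow_le_rpow_of_exponent_le (by linarith) (by linarith)
    rw [Real.rpow_neg_one] at h1
    have h2 : R⁻¹ ≤ 16⁻¹ := inv_anti₀ (by norm_num) hR16
    have h3 : (16 : ℝ)⁻¹ ≤ 1 / 2 := by norm_num
    linarith
  have hRi : 1 / R ≤ 1 := by
    rw [div_le_one hR0]
    linarith
  -- the lower barrier
  have hΦ0 : 0 < Φp 0 := hFp.pos hp0 hq0 le_rfl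
  have hlower : ∀ x : E3, 1 / R / 2 ≤ ‖x‖ → ‖x‖ ≤ R →
      (1 - η) / Φp 0 * (Φp ‖x‖ - Φp R) ≤ u x := by
    have hk : 0 < (1 - η) / Φp 0 := div_pos (by linarith) hΦ0
    have hx0 : ∀ x : E3, 1 / R / 2 ≤ ‖x‖ → x ≠ 0 := by
      intro x hx h0
      rw [h0, norm_zero] at hx
      have : 0 < 1 / R / 2 := by positivity
      linarith
    have hba : ∀ x : E3, 1 / R / 2 ≤ ‖x‖ → |barB ε g h x - bE ε ‖x‖| ≤ C / (1 + ‖x‖ ^ 2) := by
      intro x hx
      refine hbar x (le_trans ?_ hx)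
      rw [div_div]
      exact one_div_le_one_div_of_le (by positivity) (by linarith)
    intro x hx1 hx2
    refine sol.sub {x : E3 | 1 / R / 2 ≤ ‖x‖ ∧ ‖x‖ ≤ R} (isCompact_shell _ _) subset_rfl
      (fun y => (1 - η) / Φp 0 * (Φp ‖y‖ - Φp R)) ?_ ?_ ?_ x ⟨hx1, hx2⟩
    · intro y hy
      have h1 := (hBARR ε C g h y hε hε1 hC.le (hx0 y hy.1) (hg.posDef y (Set.mem_univ y))
        (hba y hy.1) 1 (Or.inl rfl)).1
      exact contDiffAt_const.mul (h1.sub contDiffAt_const)
    · intro y hy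
      have h1 := hBARR ε C g h y hε hε1 hC.le (hx0 y hy.1) (hg.posDef y (Set.mem_univ y))
        (hba y hy.1) 1 (Or.inl rfl)
      refine ⟨?_, h1.2.2.1 rfl _ _ hk⟩
      have h2 := grad_affine (fun y : E3 => phiB ε 1 (C + 1) ‖y‖) y ((1 - η) / Φp 0)
        (-((1 - η) / Φp 0 * Φp R)) (h1.1.differentiableAt (by norm_num)) hk.ne' h1.2.1
      have h3 : (fun y : E3 => (1 - η) / Φp 0 * phiB ε 1 (C + 1) ‖y‖
          + -((1 - η) / Φp 0 * Φp R)) = fun y => (1 - η) / Φp 0 * (Φp ‖y‖ - Φp R) := by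
        ext y
        rw [hΦp]
        ring
      rwa [h3] at h2
    · intro y hy
      rcases frontier_shell _ _ y hy with h1 | h1
      · have h2 := sol.inner y (le_of_eq h1)
        have h3 : (1 - η) / Φp 0 * (Φp ‖y‖ - Φp R) ≤ 1 - η := by
          have h4 : Φp ‖y‖ - Φp R ≤ Φp 0 := by
            have h5 := hFp.anti' le_rfl (norm_nonneg y)
            have h6 := hFp.pos hp0 hq0 hR0.le
            linarith
          calc (1 - η) / Φp 0 * (Φp ‖y‖ - Φp R) ≤ (1 - η) / Φp 0 * Φp 0 :=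
                mul_le_mul_of_nonneg_left h4 hk.le
            _ = 1 - η := by field_simp
        linarith
      · have h2 := sol.nonneg y
        simp only [h1, sub_self, mul_zero]
        exact h2
  -- the upper barrier
  have hΦR : 0 < Φm (1 / R) := hFm.pos hp0 hq0 (by positivity)
  have hupper : ∀ x : E3, 1 / R ≤ ‖x‖ → ‖x‖ ≤ 2 * R →
      u x ≤ 1 / Φm (1 / R) * Φm ‖x‖ + η := by
    have hk : 0 < 1 / Φm (1 / R) := by positivity
    have hx0 : ∀ x : E3, 1 / R ≤ ‖x‖ → x ≠ 0 := by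
      intro x hx h0
      rw [h0, norm_zero] at hx
      have : 0 < 1 / R := by positivity
      linarith
    have hba : ∀ x : E3, 1 / R ≤ ‖x‖ → |barB ε g h x - bE ε ‖x‖| ≤ C / (1 + ‖x‖ ^ 2) := by
      intro x hx
      refine hbar x (le_trans ?_ hx)
      gcongr
      linarith
    intro x hx1 hx2
    refine sol.super {x : E3 | 1 / R ≤ ‖x‖ ∧ ‖x‖ ≤ 2 * R} (isCompact_shell _ _) subset_rfl
      (fun y => 1 / Φm (1 / R) * Φm ‖y‖ + η) ?_ ?_ ?_ x ⟨hx1, hx2⟩
    · intro y hy
      have h1 := (hBARR ε C g h y hε hε1 hC.le (hx0 y hy.1) (hg.posDef y (Set.mem_univ y))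
        (hba y hy.1) (-1) (Or.inr rfl)).1
      exact (contDiffAt_const.mul h1).add contDiffAt_const
    · intro y hy
      have h1 := hBARR ε C g h y hε hε1 hC.le (hx0 y hy.1) (hg.posDef y (Set.mem_univ y))
        (hba y hy.1) (-1) (Or.inr rfl)
      exact ⟨grad_affine (fun y : E3 => phiB ε (-1) (C + 1) ‖y‖) y (1 / Φm (1 / R)) η
        (h1.1.differentiableAt (by norm_num)) hk.ne' h1.2.1, h1.2.2.2 rfl _ _ hk⟩
    · intro y hy
      rcases frontier_shell _ _ y hy with h1 | h1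
      · have h2 := sol.le_one y
        have h3 : 1 / Φm (1 / R) * Φm ‖y‖ = 1 := by
          rw [h1]
          field_simp
        rw [h3]
        linarith
      · have h2 := sol.outer y (le_of_eq h1.symm)
        have h3 : 0 < Φm ‖y‖ := hFm.pos hp0 hq0 (norm_nonneg y)
        have h4 : 0 ≤ 1 / Φm (1 / R) * Φm ‖y‖ := by positivity
        linarith
  -- positivity
  have hpos : ∀ x ∈ Ann (1 / R) R, 0 < u x := by
    intro x hx
    refine lt_of_lt_of_le ?_ (hlower x ?_ hx.2.le)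
    · have h1 := hFp.anti ‖x‖ R (norm_nonneg x) hx.2
      exact mul_pos (div_pos (by linarith) hΦ0) (by linarith)
    · have h1 : 1 / R / 2 ≤ 1 / R := half_le_self (by positivity)
      exact h1.trans hx.1.le
  have hhalf : ∀ x ∈ Ann (1 / R) R, 1 / R / 2 ≤ ‖x‖ := fun x hx =>
    (half_le_self (by positivity : (0 : ℝ) ≤ 1 / R)).trans hx.1.le
  -- (A) upper bound of w
  have hwA : ∀ x : E3, 0 < u x → 1 / R / 2 ≤ ‖x‖ → ∀ s, ‖x‖ ≤ s → 1 ≤ s → 2 * s ≤ R →
      wOf ε u x ≤ (2 - ε) * Real.log s + ε * Real.log A := by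
    intro x hux hx1 s hs hs1 hsR
    have h1 := hFp.lower_out hp1 hq0 hE0 (norm_nonneg x) hs hs1 hsR hη1
    have h2 := hlower x hx1 (by linarith)
    have h3 : q / (8 * E) * s ^ (-p) ≤ u x := h1.trans h2
    have hs0 : 0 < s := by linarith
    have h4 : Real.log (q / (8 * E) * s ^ (-p)) ≤ Real.log (u x) :=
      Real.log_le_log (by positivity) h3
    have h5 : Real.log (q / (8 * E) * s ^ (-p)) = -Real.log A - p * Real.log s := by
      rw [Real.log_mul (by positivity) (by positivity), Real.log_rpow hs0]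
      have h6 : q / (8 * E) = A⁻¹ := by rw [hA, inv_div]
      rw [h6, Real.log_inv]
      ring
    unfold wOf
    rw [h5] at h4
    calc -ε * Real.log (u x) ≤ -ε * (-Real.log A - p * Real.log s) := by
          have := mul_le_mul_of_nonneg_left h4 hε.le
          linarith
      _ = ε * p * Real.log s + ε * Real.log A := by ring
      _ = (2 - ε) * Real.log s + ε * Real.log A := by rw [hεp]
  -- (B) lower bound of w
  have hwB : ∀ x : E3, 1 ≤ ‖x‖ → ‖x‖ < R →
      (2 - ε) * Real.log ‖x‖ - ε * Real.log A ≤ wOf ε u x := by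
    intro x hx1 hx2
    have hx0 : 0 < ‖x‖ := by linarith
    have h1 := hFm.upper_out hp1 hq0 hE0 hx1 hx2.le hηp
    have h2 := hupper x (hRi.trans hx1) (by linarith)
    have hux : 0 < u x := hpos x ⟨by
      refine lt_of_lt_of_le ?_ hx1
      rw [div_lt_one hR0]
      linarith, hx2⟩
    have h3 : u x ≤ A * ‖x‖ ^ (-p) := by
      refine (h2.trans h1).trans ?_
      have h4 : E / q + 1 ≤ A := by
        have h5 : A = 8 * (E / q) := by
          rw [hA]
          ring
        linarith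
      gcongr
    have h4 : Real.log (u x) ≤ Real.log (A * ‖x‖ ^ (-p)) := Real.log_le_log hux h3
    have h5 : Real.log (A * ‖x‖ ^ (-p)) = Real.log A - p * Real.log ‖x‖ := by
      rw [Real.log_mul (by positivity) (by positivity), Real.log_rpow hx0]
      ring
    unfold wOf
    rw [h5] at h4
    calc (2 - ε) * Real.log ‖x‖ - ε * Real.log A
        = -ε * (Real.log A - p * Real.log ‖x‖) := by
          rw [← hεp]
          ring
      _ ≤ -ε * Real.log (u x) := by
          have := mul_le_mul_of_nonneg_left h4 hε.le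
          linarith
  -- (C) bound of 1 - u near the centre
  have hRκ : 1 / R ≤ κ / l := by
    rw [div_le_div_iff₀ hR0 hl0, one_mul]
    have := mul_le_mul_of_nonneg_left hRb hκ0.le
    have h1 : κ * (l / κ) = l := by field_simp
    linarith
  have hCin : ∀ x : E3, 1 / R / 2 ≤ ‖x‖ → ∀ s, ‖x‖ ≤ s → κ / l ≤ s → s ≤ 1 →
      1 - u x ≤ C₂ * s ^ p := by
    intro x hx1 s hs hs1 hs2
    have hs0 : 0 < s := lt_of_lt_of_le (by positivity) hs1
    have h1 := hFp.lower_in hp1 hq0 hE0 (norm_nonneg x) hs hs0 hs2 (by linarith)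
      (hRκ.trans hs1) hη0.le hηp
    have h2 := hlower x hx1 (by linarith)
    linarith
  have hκR : ∀ x : E3, κ / l ≤ ‖x‖ → 1 / R / 2 ≤ ‖x‖ := fun x hx =>
    (half_le_self (by positivity : (0 : ℝ) ≤ 1 / R)).trans (hRκ.trans hx)
  refine ⟨hpos, ?_, ?_, ?_, ?_, ?_, ?_, ?_⟩
  · intro x hx1 hx2
    have hux : 0 < u x := hpos x ⟨by
      refine lt_of_lt_of_le ?_ hx1
      rw [div_lt_one hR0]
      linarith, by linarith⟩
    have hxR : 1 / R / 2 ≤ ‖x‖ :=
      (half_le_self (by positivity : (0 : ℝ) ≤ 1 / R)).trans (hRi.trans hx1)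
    have h1 := hwA x hux hxR ‖x‖ le_rfl hx1 (by linarith)
    have h2 := hwB x hx1 (by linarith)
    rw [abs_le]
    constructor <;> linarith
  · intro x hx1 hx2
    have h2 := hwB x hx1 hx2
    linarith
  · intro x hx1 hx2
    exact hCin x (hκR x hx1) ‖x‖ le_rfl hx1 hx2
  · intro x hx1 hx2
    have hl' : 1 / l ≤ 1 := by
      rw [div_le_one hl0]
      exact hl1
    have h1 := hCin x (hκR x hx1) (1 / l) hx2 (by gcongr; linarith) hl'
    have h2 : C₂ * (1 / l) ^ p ≤ C₂ * (1 / l) ^ (1 : ℝ) := by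
      have := Real.rpow_le_rpow_of_exponent_ge (by positivity) hl' hp1
      gcongr
    rw [Real.rpow_one] at h2
    have h3 : C₂ * (1 / l) ≤ 1 / 2 := by
      rw [mul_one_div, div_le_div_iff₀ hl0 (by norm_num)]
      linarith
    linarith
  · intro x hx hw
    by_contra hcon
    push Not at hcon
    have hs0 : 0 < 1 / (4 * l) := by positivity
    have hs1 : 1 / (4 * l) ≤ 1 := by
      rw [div_le_one (by positivity)]
      linarith
    have hRs : 8 * E / q ≤ R * (1 / (4 * l)) := by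
      rw [mul_one_div, le_div_iff₀ (by positivity)]
      have : 8 * E / q * (4 * l) = 4 * l * A := by
        rw [hA]
        ring
      linarith
    have h1 := hFm.upper_in hp1 hq0 hq1 hE1 hs0 hs1 hcon.le hRs hηp
    have h2 := hupper x hx.1.le (by linarith [hx.2])
    have h3 : c * (4 * l) ^ (-p) < 1 - u x := by
      have h4 : (1 / (4 * l)) ^ p = (4 * l) ^ (-p) := by
        rw [one_div, Real.inv_rpow (by positivity), Real.rpow_neg (by positivity)]
      rw [h4] at h1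
      linarith
    have h4 : Real.log (u x) ≤ u x - 1 := Real.log_le_sub_one_of_pos (hpos x hx)
    have h5 : ε * (1 - u x) ≤ wOf ε u x := by
      unfold wOf
      have := mul_le_mul_of_nonneg_left h4 hε.le
      linarith
    have h6 : sbE ε c l < ε * (1 - u x) := by
      unfold sbE
      have := mul_lt_mul_of_pos_left h3 hε
      rw [← hp]
      linarith
    linarith
  · intro x hx hw
    by_contra hcon
    push Not at hcon
    have hκl : κ / l ≤ 1 := by
      rw [div_le_one hl0]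
      linarith
    have hκl' : κ / l ≤ κ := div_le_self hκ0.le hl1
    have h1 := hCin x (hhalf x hx) (κ / l) hcon.le le_rfl hκl
    have hp4 : (κ / l) ^ p ≤ 4 * κ * (4 * l) ^ (-p) := by
      have h2 : κ / l = 4 * κ * (4 * l)⁻¹ := by
        field_simp
      rw [h2, Real.mul_rpow (by positivity) (by positivity), Real.inv_rpow (by positivity),
        ← Real.rpow_neg (by positivity)]
      have h3 : (4 * κ) ^ p ≤ (4 * κ) ^ (1 : ℝ) :=
        Real.rpow_le_rpow_of_exponent_ge (by positivity) (by linarith) hp1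
      rw [Real.rpow_one] at h3
      gcongr
    have hu : 1 / 2 ≤ u x := by
      have h2 : (κ / l) ^ p ≤ κ := by
        have h3 : (κ / l) ^ p ≤ (κ / l) ^ (1 : ℝ) :=
          Real.rpow_le_rpow_of_exponent_ge (by positivity) hκl hp1
        rw [Real.rpow_one] at h3
        linarith
      have h3 : C₂ * κ = c / 64 := by
        rw [hκ]
        field_simp
      have h4 : C₂ * (κ / l) ^ p ≤ C₂ * κ := by gcongr
      linarith
    have hu0 : 0 < u x := by linarith
    have h2 : -Real.log (u x) ≤ 2 * (1 - u x) := by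
      have h3 : Real.log (u x)⁻¹ ≤ (u x)⁻¹ - 1 := Real.log_le_sub_one_of_pos (by positivity)
      rw [Real.log_inv] at h3
      have h4 : (u x)⁻¹ - 1 = (1 - u x) / u x := by field_simp
      have h5 : (1 - u x) / u x ≤ 2 * (1 - u x) := by
        rw [div_le_iff₀ hu0]
        have h6 : 0 ≤ 1 - u x := by linarith [sol.le_one x]
        nlinarith
      linarith
    have h3 : wOf ε u x ≤ ε * (2 * (1 - u x)) := by
      unfold wOf
      have := mul_le_mul_of_nonneg_left h2 hε.le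
      linarith
    have h4 : 2 * (1 - u x) ≤ c / 8 * (4 * l) ^ (-p) := by
      have h5 : C₂ * (4 * κ * (4 * l) ^ (-p)) = c / 16 * (4 * l) ^ (-p) := by
        rw [hκ]
        field_simp
        ring
      have h6 : C₂ * (κ / l) ^ p ≤ C₂ * (4 * κ * (4 * l) ^ (-p)) := by gcongr
      linarith
    have h5 : wOf ε u x ≤ ε * (c / 8 * (4 * l) ^ (-p)) :=
      h3.trans (mul_le_mul_of_nonneg_left h4 hε.le)
    have h6 : sbE ε c l / 4 = ε * (c / 4 * (4 * l) ^ (-p)) := by
      unfold sbE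
      rw [← hp]
      ring
    have h7 : ε * (c / 8 * (4 * l) ^ (-p)) < ε * (c / 4 * (4 * l) ^ (-p)) := by
      have h8 : 0 < ε * (c * (4 * l) ^ (-p)) := by positivity
      linarith
    linarith
  · intro x hx hxl
    have h1 := hwA x (hpos x hx) (hhalf x hx) (4 * l) hxl.le (by linarith) (by linarith)
    unfold s2E
    linarith

end Pool.Agent.PFlow
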