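import Pool.Agent.PFlow.StmtsE2

/-!
# Module PHI: the barrier integrals
-/

open MeasureTheory Filter Topology
open scoped ContDiff ENNReal

namespace Pool.Agent.PFlow

open Pool.Agent.PenroseSph

namespace PhiM

theorem pe_ge {ε : ℝ} (h0 : 0 < ε) (h1 : ε ≤ 1 / 2) : 3 ≤ pe ε := by
  unfold pe
  have : 4 ≤ 2 / ε := by
    rw [le_div_iff₀ h0]
    linarith
  linarith

theorem cont {ε σ C : ℝ} (hp : 3 ≤ pe ε) : Continuous (phiDen ε σ C) := by
  unfold phiDen
  refine ((continuous_id.rpow_const fun x => Or.inr (by linarith)).mul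
    ((continuous_const.add (continuous_id.pow 2)).rpow_const fun x => Or.inl ?_)).mul
    (Real.continuous_exp.comp ?_)
  · have : (0 : ℝ) < 1 + id x ^ 2 := by positivity
    exact this.ne'
  · exact ((continuous_const.mul Real.continuous_arctan).div_const ε).neg

theorem exp_bd {ε σ C : ℝ} (t : ℝ) (h0 : 0 < ε) (hC : 0 ≤ C) (hσ : σ = 1 ∨ σ = -1) :
    Real.exp (-(C * Real.pi / (2 * ε))) ≤ Real.exp (-(σ * C * Real.arctan t / ε)) ∧
    Real.exp (-(σ * C * Real.arctan t / ε)) ≤ Real.exp (C * Real.pi / (2 * ε)) := by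
  have h1 : |σ * C * Real.arctan t / ε| ≤ C * Real.pi / (2 * ε) := by
    have h2 : |σ| = 1 := by rcases hσ with h | h <;> simp [h]
    have h3 : |Real.arctan t| ≤ Real.pi / 2 :=
      abs_le.2 ⟨by linarith [Real.neg_pi_div_two_lt_arctan t],
        (Real.arctan_lt_pi_div_two t).le⟩
    rw [abs_div, abs_mul, abs_mul, abs_of_pos h0, abs_of_nonneg hC, h2, one_mul]
    calc C * |Real.arctan t| / ε ≤ C * (Real.pi / 2) / ε := by gcongr
      _ = C * Real.pi / (2 * ε) := by field_simp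
  have h2 := abs_le.1 h1
  exact ⟨Real.exp_le_exp.2 (by linarith), Real.exp_le_exp.2 (by linarith)⟩

/-- The bounds for `t ≥ 1`. -/
theorem bd_out {ε σ C t : ℝ} (h0 : 0 < ε) (hC : 0 ≤ C) (hσ : σ = 1 ∨ σ = -1) (hp : 3 ≤ pe ε)
    (ht : 1 ≤ t) :
    2 ^ (-pe ε) * Real.exp (-(C * Real.pi / (2 * ε))) * t ^ (-pe ε - 1) ≤ phiDen ε σ C t ∧
    phiDen ε σ C t ≤ Real.exp (C * Real.pi / (2 * ε)) * t ^ (-pe ε - 1) := by
  obtain ⟨e1, e2⟩ := exp_bd t h0 hC hσ
  have ht0 : 0 < t := by linarith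
  have hp0 : 0 < pe ε := by linarith
  have k1 : t ^ (pe ε - 1) * (t ^ 2) ^ (-pe ε) = t ^ (-pe ε - 1) := by
    rw [← Real.rpow_natCast t 2, ← Real.rpow_mul ht0.le, ← Real.rpow_add ht0]
    congr 1
    push_cast
    ring
  have k2 : (1 + t ^ 2) ^ (-pe ε) ≤ (t ^ 2) ^ (-pe ε) :=
    Real.rpow_le_rpow_of_nonpos (by positivity) (by linarith) (by linarith)
  have k3 : 2 ^ (-pe ε) * (t ^ 2) ^ (-pe ε) ≤ (1 + t ^ 2) ^ (-pe ε) := by
    rw [← Real.mul_rpow (by norm_num) (by positivity)]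
    exact Real.rpow_le_rpow_of_nonpos (by positivity) (by nlinarith) (by linarith)
  have k4 : (0 : ℝ) ≤ t ^ (pe ε - 1) := Real.rpow_nonneg ht0.le _
  have k5 : (0 : ℝ) ≤ (1 + t ^ 2) ^ (-pe ε) := Real.rpow_nonneg (by positivity) _
  unfold phiDen
  constructor
  · calc 2 ^ (-pe ε) * Real.exp (-(C * Real.pi / (2 * ε))) * t ^ (-pe ε - 1)
        = (t ^ (pe ε - 1) * (2 ^ (-pe ε) * (t ^ 2) ^ (-pe ε))) *
          Real.exp (-(C * Real.pi / (2 * ε))) := by rw [← k1]; ring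
      _ ≤ (t ^ (pe ε - 1) * (1 + t ^ 2) ^ (-pe ε)) *
          Real.exp (-(σ * C * Real.arctan t / ε)) :=
        mul_le_mul (mul_le_mul_of_nonneg_left k3 k4) e1 (Real.exp_pos _).le (mul_nonneg k4 k5)
  · calc t ^ (pe ε - 1) * (1 + t ^ 2) ^ (-pe ε) * Real.exp (-(σ * C * Real.arctan t / ε))
        ≤ (t ^ (pe ε - 1) * (t ^ 2) ^ (-pe ε)) * Real.exp (C * Real.pi / (2 * ε)) :=
        mul_le_mul (mul_le_mul_of_nonneg_left k2 k4) e2 (Real.exp_pos _).le
          (mul_nonneg k4 (Real.rpow_nonneg (by positivity) _))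
      _ = Real.exp (C * Real.pi / (2 * ε)) * t ^ (-pe ε - 1) := by rw [k1]; ring

/-- The bounds for `0 ≤ t ≤ 1`. -/
theorem bd_in {ε σ C t : ℝ} (h0 : 0 < ε) (hC : 0 ≤ C) (hσ : σ = 1 ∨ σ = -1) (hp : 3 ≤ pe ε)
    (ht0 : 0 ≤ t) (ht : t ≤ 1) :
    2 ^ (-pe ε) * Real.exp (-(C * Real.pi / (2 * ε))) * t ^ (pe ε - 1) ≤ phiDen ε σ C t ∧
    phiDen ε σ C t ≤ Real.exp (C * Real.pi / (2 * ε)) * t ^ (pe ε - 1) := by
  obtain ⟨e1, e2⟩ := exp_bd t h0 hC hσ
  have hp0 : 0 < pe ε := by linarith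
  have k2 : (1 + t ^ 2) ^ (-pe ε) ≤ 1 :=
    Real.rpow_le_one_of_one_le_of_nonpos (by nlinarith) (by linarith)
  have k3 : 2 ^ (-pe ε) ≤ (1 + t ^ 2) ^ (-pe ε) :=
    Real.rpow_le_rpow_of_nonpos (by positivity) (by nlinarith) (by linarith)
  have k4 : (0 : ℝ) ≤ t ^ (pe ε - 1) := Real.rpow_nonneg ht0 _
  have k5 : (0 : ℝ) ≤ (1 + t ^ 2) ^ (-pe ε) := Real.rpow_nonneg (by positivity) _
  unfold phiDen
  constructor
  · calc 2 ^ (-pe ε) * Real.exp (-(C * Real.pi / (2 * ε))) * t ^ (pe ε - 1)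
        = (t ^ (pe ε - 1) * 2 ^ (-pe ε)) * Real.exp (-(C * Real.pi / (2 * ε))) := by ring
      _ ≤ (t ^ (pe ε - 1) * (1 + t ^ 2) ^ (-pe ε)) *
          Real.exp (-(σ * C * Real.arctan t / ε)) :=
        mul_le_mul (mul_le_mul_of_nonneg_left k3 k4) e1 (Real.exp_pos _).le (mul_nonneg k4 k5)
  · calc t ^ (pe ε - 1) * (1 + t ^ 2) ^ (-pe ε) * Real.exp (-(σ * C * Real.arctan t / ε))
        ≤ (t ^ (pe ε - 1) * 1) * Real.exp (C * Real.pi / (2 * ε)) :=
        mul_le_mul (mul_le_mul_of_nonneg_left k2 k4) e2 (Real.exp_pos _).le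
          (mul_nonneg k4 zero_le_one)
      _ = Real.exp (C * Real.pi / (2 * ε)) * t ^ (pe ε - 1) := by ring

theorem integrable {ε σ C : ℝ} (h0 : 0 < ε) (hC : 0 ≤ C) (hσ : σ = 1 ∨ σ = -1)
    (hp : 3 ≤ pe ε) : IntegrableOn (phiDen ε σ C) (Set.Ioi 0) := by
  have hc : Continuous (phiDen ε σ C) := cont hp
  have h1 : IntegrableOn (phiDen ε σ C) (Set.Ioc 0 1) :=
    (hc.integrableOn_Icc (a := 0) (b := 1)).mono_set Set.Ioc_subset_Icc_self
  have h2 : IntegrableOn (phiDen ε σ C) (Set.Ioi 1) := by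
    have h3 : IntegrableOn (fun t : ℝ => Real.exp (C * Real.pi / (2 * ε)) * t ^ (-pe ε - 1))
        (Set.Ioi 1) :=
      (integrableOn_Ioi_rpow_of_lt (by linarith) one_pos).const_mul _
    refine Integrable.mono' h3 hc.aestronglyMeasurable.restrict ?_
    filter_upwards [ae_restrict_mem measurableSet_Ioi] with t ht
    have ht1 : (1 : ℝ) ≤ t := (Set.mem_Ioi.1 ht).le
    have h4 := bd_out (σ := σ) (C := C) h0 hC hσ hp ht1
    have h5 : 0 ≤ phiDen ε σ C t :=
      le_trans (mul_nonneg (mul_nonneg (Real.rpow_nonneg (by norm_num) _) (Real.exp_pos _).le)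
        (Real.rpow_nonneg (by linarith) _)) h4.1
    rw [Real.norm_eq_abs, abs_of_nonneg h5]
    exact h4.2
  rw [← Set.Ioc_union_Ioi_eq_Ioi (zero_le_one (α := ℝ))]
  exact h1.union h2

end PhiM

open PhiM in
theorem PHI : Stmt_PHI := by
  intro ε C σ h0 h1 hC hσ
  have hp : 3 ≤ pe ε := pe_ge h0 h1
  have hp0 : 0 < pe ε := by linarith
  have hc : Continuous (phiDen ε σ C) := cont hp
  have hI : IntegrableOn (phiDen ε σ C) (Set.Ioi 0) := integrable h0 hC hσ hp
  have hIr : ∀ r, 0 ≤ r → IntegrableOn (phiDen ε σ C) (Set.Ioi r) := fun r hr =>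
    hI.mono_set (Set.Ioi_subset_Ioi hr)
  have hsplit : ∀ r, 0 ≤ r → phiB ε σ C r = (∫ t in Set.Ioi 0, phiDen ε σ C t) -
      ∫ t in (0 : ℝ)..r, phiDen ε σ C t := by
    intro r hr
    have := intervalIntegral.integral_interval_add_Ioi hI (hIr r hr)
    unfold phiB
    linarith
  have hder : ∀ r, 0 < r → HasDerivAt (phiB ε σ C) (-phiDen ε σ C r) r := by
    intro r hr
    have h2 : HasDerivAt (fun r => (∫ t in Set.Ioi 0, phiDen ε σ C t) -
        ∫ t in (0 : ℝ)..r, phiDen ε σ C t) (-phiDen ε σ C r) r :=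
      ((hc.integral_hasStrictDerivAt 0 r).hasDerivAt).const_sub _
    refine h2.congr_of_eventuallyEq ?_
    filter_upwards [lt_mem_nhds hr] with s hs
    exact hsplit s hs.le
  have hE : ∀ r₁ r₂, 0 ≤ r₁ → r₁ ≤ r₂ → phiB ε σ C r₁ - phiB ε σ C r₂ =
      ∫ t in r₁..r₂, phiDen ε σ C t := by
    intro r₁ r₂ hr₁ h12
    exact intervalIntegral.integral_Ioi_sub_Ioi (hIr r₁ hr₁) h12
  refine ⟨hI, ?_, ?_, ?_, ?_⟩
  · intro r hr
    have hq : (0 : ℝ) < 1 + r ^ 2 := by positivity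
    have hpos : 0 < phiDen ε σ C r := by
      unfold phiDen
      exact mul_pos (mul_pos (Real.rpow_pos_of_pos hr _) (Real.rpow_pos_of_pos hq _))
        (Real.exp_pos _)
    refine ⟨hpos, hder r hr, ?_⟩
    have d1 : HasDerivAt (fun t : ℝ => t ^ (pe ε - 1)) ((pe ε - 1) * r ^ (pe ε - 1 - 1)) r :=
      Real.hasDerivAt_rpow_const (Or.inl hr.ne')
    have d2 : HasDerivAt (fun t : ℝ => (1 + t ^ 2) ^ (-pe ε))
        ((2 * r) * (-pe ε) * (1 + r ^ 2) ^ (-pe ε - 1)) r := by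
      have d3 : HasDerivAt (fun t : ℝ => 1 + t ^ 2) (2 * r) r := by
        have := (hasDerivAt_pow 2 r).const_add 1
        simpa using this
      exact d3.rpow_const (Or.inl hq.ne')
    have d4 : HasDerivAt (fun t : ℝ => Real.exp (-(σ * C * Real.arctan t / ε)))
        (Real.exp (-(σ * C * Real.arctan r / ε)) * (-(σ * C * (1 / (1 + r ^ 2)) / ε))) r :=
      ((((Real.hasDerivAt_arctan r).const_mul (σ * C)).div_const ε).neg).exp
    have d5 := (d1.mul d2).mul d4
    have e1 : r ^ (pe ε - 1 - 1) = r ^ (pe ε - 1) / r := by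
      rw [Real.rpow_sub hr, Real.rpow_one]
    have e2 : (1 + r ^ 2) ^ (-pe ε - 1) = (1 + r ^ 2) ^ (-pe ε) / (1 + r ^ 2) := by
      rw [Real.rpow_sub hq, Real.rpow_one]
    have e3 : pe ε = 2 / ε - 1 := rfl
    refine HasDerivAt.congr_deriv (f' := _) d5 ?_
    rw [e1, e2]
    simp only [Pi.mul_apply]
    unfold phiDen bE
    have hr' : r ≠ 0 := hr.ne'
    have h0' : ε ≠ 0 := h0.ne'
    have hq' : 1 + r ^ 2 ≠ 0 := hq.ne'
    have hq2 : r ^ 2 + 1 ≠ 0 := by rw [add_comm]; exact hq'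
    generalize hP : r ^ (pe ε - 1) = P
    generalize hQ : (1 + r ^ 2) ^ (-pe ε) = Q
    generalize hX : Real.exp (-(σ * C * Real.arctan r / ε)) = X
    rw [e3]
    field_simp
    ring
  · have h2 : Continuous (fun r => (∫ t in Set.Ioi 0, phiDen ε σ C t) -
        ∫ t in (0 : ℝ)..r, phiDen ε σ C t) :=
      continuous_const.sub (intervalIntegral.continuous_primitive
        (fun a b => hc.intervalIntegrable a b) 0)
    exact h2.continuousOn.congr fun r hr => hsplit r hr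
  · intro r hr
    have hr0 : 0 < r := by linarith
    have hir : IntegrableOn (fun t : ℝ => t ^ (-pe ε - 1)) (Set.Ioi r) :=
      integrableOn_Ioi_rpow_of_lt (by linarith) hr0
    have hval : ∫ t in Set.Ioi r, t ^ (-pe ε - 1) = r ^ (-pe ε) / pe ε := by
      rw [integral_Ioi_rpow_of_lt (by linarith) hr0]
      have : -pe ε - 1 + 1 = -pe ε := by ring
      rw [this, neg_div_neg_eq]
    unfold phiB
    constructor
    · calc 2 ^ (-pe ε) * Real.exp (-(C * Real.pi / (2 * ε))) * r ^ (-pe ε) / pe ε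
          = ∫ t in Set.Ioi r, 2 ^ (-pe ε) * Real.exp (-(C * Real.pi / (2 * ε))) *
              t ^ (-pe ε - 1) := by
            rw [integral_const_mul, hval]
            ring
        _ ≤ ∫ t in Set.Ioi r, phiDen ε σ C t := by
            refine setIntegral_mono_on (hir.const_mul _) (hIr r hr0.le) measurableSet_Ioi
              fun t ht => ?_
            exact (bd_out h0 hC hσ hp (by linarith [Set.mem_Ioi.1 ht])).1
    · calc ∫ t in Set.Ioi r, phiDen ε σ C t
          ≤ ∫ t in Set.Ioi r, Real.exp (C * Real.pi / (2 * ε)) * t ^ (-pe ε - 1) := by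
            refine setIntegral_mono_on (hIr r hr0.le) (hir.const_mul _) measurableSet_Ioi
              fun t ht => ?_
            exact (bd_out h0 hC hσ hp (by linarith [Set.mem_Ioi.1 ht])).2
        _ = Real.exp (C * Real.pi / (2 * ε)) * r ^ (-pe ε) / pe ε := by
            rw [integral_const_mul, hval]
            ring
  · intro r₁ r₂ hr₁ h12 hr₂
    rw [hE r₁ r₂ hr₁ h12]
    have hval : ∫ t in r₁..r₂, t ^ (pe ε - 1) = (r₂ ^ pe ε - r₁ ^ pe ε) / pe ε := by
      rw [integral_rpow (Or.inl (by linarith))]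
      have : pe ε - 1 + 1 = pe ε := by ring
      rw [this]
    have hci : Continuous (fun t : ℝ => t ^ (pe ε - 1)) :=
      continuous_id.rpow_const fun x => Or.inr (by linarith)
    constructor
    · calc 2 ^ (-pe ε) * Real.exp (-(C * Real.pi / (2 * ε))) * (r₂ ^ pe ε - r₁ ^ pe ε) / pe ε
          = ∫ t in r₁..r₂, 2 ^ (-pe ε) * Real.exp (-(C * Real.pi / (2 * ε))) *
              t ^ (pe ε - 1) := by
            rw [intervalIntegral.integral_const_mul, hval]
            ring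
        _ ≤ ∫ t in r₁..r₂, phiDen ε σ C t := by
            refine intervalIntegral.integral_mono_on h12
              ((continuous_const.mul hci).intervalIntegrable _ _) (hc.intervalIntegrable _ _)
              fun t ht => ?_
            exact (bd_in h0 hC hσ hp (hr₁.trans ht.1) (ht.2.trans hr₂)).1
    · calc ∫ t in r₁..r₂, phiDen ε σ C t
          ≤ ∫ t in r₁..r₂, Real.exp (C * Real.pi / (2 * ε)) * t ^ (pe ε - 1) := by
            refine intervalIntegral.integral_mono_on h12 (hc.intervalIntegrable _ _)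
              ((continuous_const.mul hci).intervalIntegrable _ _) fun t ht => ?_
            exact (bd_in h0 hC hσ hp (hr₁.trans ht.1) (ht.2.trans hr₂)).2
        _ = Real.exp (C * Real.pi / (2 * ε)) * (r₂ ^ pe ε - r₁ ^ pe ε) / pe ε := by
            rw [intervalIntegral.integral_const_mul, hval]
            ring

end Pool.Agent.PFlow
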