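import Pool.Agent.PFlow.StmtsE1

/-!
# RADN: the operator on radial functions
-/

open MeasureTheory Filter Topology
open scoped ContDiff

namespace Pool.Agent.PFlow

open Pool.Agent.PenroseSph

namespace RADN

/-! ### Algebra -/

theorem ev_smul2 (B : Bil) (c : ℝ) (v : Cov) :
    ev B (fun i => c * v i) (fun i => c * v i) = c ^ 2 * ev B v v := by
  unfold ev
  rw [Finset.mul_sum]
  refine Finset.sum_congr rfl fun i _ => ?_
  rw [Finset.mul_sum]
  refine Finset.sum_congr rfl fun j _ => ?_
  ring

theorem len_smul (g : TensorField) (x : E3) (c : ℝ) (p : Cov) :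
    len g x (fun i => c * p i) = |c| * len g x p := by
  unfold len
  rw [ev_smul2, Real.sqrt_mul (sq_nonneg c), Real.sqrt_sq_eq_abs]

theorem raise_smul (g : TensorField) (x : E3) (c : ℝ) (p : Cov) (i : Fin 3) :
    raise g x (fun i => c * p i) i = c * raise g x p i := by
  unfold raise
  rw [Finset.mul_sum]
  refine Finset.sum_congr rfl fun j _ => ?_
  ring

theorem bnn_smul (g : TensorField) (x : E3) {c : ℝ} (hc : c < 0) (p : Cov) (B : Bil) :
    bnn g x (fun i => c * p i) B = bnn g x p B := by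
  have h1 : nrm g x (fun i => c * p i) = fun i => (-1) * nrm g x p i := by
    funext i
    unfold nrm
    rw [raise_smul, len_smul, abs_of_neg hc]
    by_cases hl : len g x p = 0
    · rw [hl]
      simp
    · have hc' : c ≠ 0 := hc.ne
      field_simp
  unfold bnn
  rw [h1, ev_smul2]
  norm_num

theorem beps_smul (ε : ℝ) (g : TensorField) (x : E3) {c : ℝ} (hc : c < 0) (p : Cov) (B : Bil) :
    beps ε g x (fun i => c * p i) B = beps ε g x p B := by
  unfold beps
  rw [bnn_smul g x hc]

theorem trg_lin (g : TensorField) (x : E3) (a b : ℝ) (H K : Bil) :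
    trg g x (Matrix.of fun i j => a * H i j + b * K i j) = a * trg g x H + b * trg g x K := by
  unfold trg
  simp only [Finset.mul_sum]
  rw [← Finset.sum_add_distrib]
  refine Finset.sum_congr rfl fun i _ => ?_
  rw [← Finset.sum_add_distrib]
  refine Finset.sum_congr rfl fun j _ => ?_
  rw [Matrix.of_apply]
  ring

theorem ev_lin (a b : ℝ) (H K : Bil) (v : Cov) :
    ev (Matrix.of fun i j => a * H i j + b * K i j) v v = a * ev H v v + b * ev K v v := by
  unfold ev
  simp only [Finset.mul_sum]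
  rw [← Finset.sum_add_distrib]
  refine Finset.sum_congr rfl fun i _ => ?_
  rw [← Finset.sum_add_distrib]
  refine Finset.sum_congr rfl fun j _ => ?_
  rw [Matrix.of_apply]
  ring

theorem beps_lin (ε : ℝ) (g : TensorField) (x : E3) (p : Cov) (a b : ℝ) (H K : Bil) :
    beps ε g x p (Matrix.of fun i j => a * H i j + b * K i j) =
      a * beps ε g x p H + b * beps ε g x p K := by
  unfold beps bnn
  rw [trg_lin, ev_lin]
  ring

theorem inv_posDef {g : TensorField} {x : E3} (hg : (g x).PosDef) : ((g x)⁻¹).PosDef := hg.inv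

theorem ev_pos {B : Bil} (hB : B.PosDef) {p : Cov} (hp : p ≠ 0) : 0 < ev B p p := by
  have h := hB.dotProduct_mulVec_pos hp
  have e : ev B p p = star p ⬝ᵥ (B.mulVec p) := by
    unfold ev dotProduct Matrix.mulVec dotProduct
    refine Finset.sum_congr rfl fun i _ => ?_
    rw [Finset.mul_sum]
    refine Finset.sum_congr rfl fun j _ => ?_
    simp
    ring
  rw [e]
  exact h

theorem len_pos {g : TensorField} {x : E3} (hg : (g x).PosDef) {p : Cov} (hp : p ≠ 0) :
    0 < len g x p := Real.sqrt_pos.mpr (ev_pos (inv_posDef hg) hp)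

theorem beps_self (ε : ℝ) {g : TensorField} {x : E3} (hg : (g x).PosDef) {p : Cov} (hp : p ≠ 0) :
    beps ε g x p (Matrix.of fun i j => p i * p j) = ε * len g x p ^ 2 := by
  have hE := ev_pos (inv_posDef hg) hp
  have hl := len_pos hg hp
  have h2 : len g x p ^ 2 = ev (g x)⁻¹ p p := by
    unfold len
    rw [Real.sq_sqrt hE.le]
  have h3 : trg g x (Matrix.of fun i j => p i * p j) = len g x p ^ 2 := by
    rw [h2]
    unfold trg ev
    refine Finset.sum_congr rfl fun i _ => Finset.sum_congr rfl fun j _ => ?_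
    rw [Matrix.of_apply]
    ring
  have h4 : ∑ i, p i * nrm g x p i = len g x p := by
    have : ∑ i, p i * nrm g x p i = ev (g x)⁻¹ p p / len g x p := by
      unfold nrm raise ev
      rw [Finset.sum_div]
      refine Finset.sum_congr rfl fun i _ => ?_
      rw [← mul_div_assoc, Finset.mul_sum]
      congr 1
      refine Finset.sum_congr rfl fun j _ => ?_
      ring
    rw [this, ← h2]
    field_simp
  have h5 : bnn g x p (Matrix.of fun i j => p i * p j) = len g x p ^ 2 := by
    unfold bnn ev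
    rw [← h4, sq, Finset.sum_mul_sum]
    refine Finset.sum_congr rfl fun i _ => Finset.sum_congr rfl fun j _ => ?_
    rw [Matrix.of_apply]
    ring
  unfold beps
  rw [h3, h5]
  ring

/-! ### Calculus -/

theorem pd_comp {F : ℝ → ℝ} {i : Fin 3} {y : E3} (hF : DifferentiableAt ℝ F ‖y‖) (hy : y ≠ 0) :
    pd i (fun z => F ‖z‖) y = deriv F ‖y‖ * pd i rad y := by
  have h1 : HasFDerivAt (rad : E3 → ℝ) (fderiv ℝ rad y) y := by
    have : DifferentiableAt ℝ (rad : E3 → ℝ) y :=
      ((contDiffAt_norm ℝ hy (n := 1)).differentiableAt (by norm_num))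
    exact this.hasFDerivAt
  have h2 := hF.hasDerivAt.comp_hasFDerivAt y h1
  have h3 : fderiv ℝ (fun z : E3 => F ‖z‖) y = deriv F ‖y‖ • fderiv ℝ rad y := h2.fderiv
  unfold pd
  rw [h3]
  rfl

theorem rad_smooth {y : E3} (hy : y ≠ 0) : ContDiffAt ℝ ∞ (rad : E3 → ℝ) y :=
  contDiffAt_norm ℝ hy

theorem pd_rad_diff {y : E3} (hy : y ≠ 0) (j : Fin 3) :
    DifferentiableAt ℝ (fun z => pd j rad z) y := by
  have h1 : ContDiffAt ℝ 1 (fderiv ℝ (rad : E3 → ℝ)) y :=
    ((rad_smooth hy).of_le (show (2 : WithTop ℕ∞) ≤ ∞ by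
      exact WithTop.coe_le_coe.mpr le_top)).fderiv_right (m := 1) (by norm_num)
  have h2 : DifferentiableAt ℝ (fderiv ℝ (rad : E3 → ℝ)) y := h1.differentiableAt (by norm_num)
  exact h2.clm_apply (differentiableAt_const _)

theorem grad_rad_ne {x : E3} (hx : x ≠ 0) : grad rad x ≠ 0 := by
  intro h
  have hd : DifferentiableAt ℝ (rad : E3 → ℝ) x := (rad_smooth hx).differentiableAt (by simp)
  have h1 : fderiv ℝ (rad : E3 → ℝ) x x = ‖x‖ := by
    exact DifferentiableAt.fderiv_norm_self hd
  have h2 : x = ∑ i, x i • EuclideanSpace.single i (1 : ℝ) := by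
    ext j
    simp [Fin.sum_univ_three]
    fin_cases j <;> simp
  have h3 : fderiv ℝ (rad : E3 → ℝ) x x = 0 := by
    have h10 : fderiv ℝ (rad : E3 → ℝ) x (∑ i, x i • EuclideanSpace.single i (1 : ℝ)) = 0 := by
      rw [map_sum]
      apply Finset.sum_eq_zero
      intro i _
      rw [map_smul]
      have h4 : grad rad x i = 0 := by rw [h]; rfl
      unfold grad pd at h4
      rw [h4, smul_zero]
    rwa [← h2] at h10
  rw [h3] at h1
  exact hx (norm_eq_zero.mp h1.symm)

theorem hess_comp {F : ℝ → ℝ} {x : E3} (hF : ContDiffAt ℝ 2 F ‖x‖) (hx : x ≠ 0) (i j : Fin 3) :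
    pd i (pd j (fun z => F ‖z‖)) x =
      deriv F ‖x‖ * pd i (pd j rad) x + deriv (deriv F) ‖x‖ * (pd i rad x * pd j rad x) := by
  have hev : ∀ᶠ y in 𝓝 x, pd j (fun z => F ‖z‖) y = deriv F ‖y‖ * pd j rad y := by
    have h1 : ∀ᶠ s in 𝓝 ‖x‖, ContDiffAt ℝ 2 F s := hF.eventually (by simp)
    have h2 : ∀ᶠ y in 𝓝 x, ContDiffAt ℝ 2 F ‖y‖ := continuous_norm.continuousAt.eventually h1
    have h3 : ∀ᶠ y in 𝓝 x, y ≠ 0 := isOpen_ne.mem_nhds hx
    filter_upwards [h2, h3] with y hy1 hy2
    exact pd_comp (hy1.differentiableAt (by norm_num)) hy2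
  have hdF : DifferentiableAt ℝ (deriv F) ‖x‖ := by
    have h1 : ContDiffAt ℝ 1 (deriv F) ‖x‖ := by
      have h2 : ContDiffAt ℝ 1 (fderiv ℝ F) ‖x‖ := hF.fderiv_right (m := 1) (by norm_num)
      have h3 : (deriv F) = fun s => fderiv ℝ F s 1 := by
        funext s
        exact (fderiv_apply_one_eq_deriv).symm
      rw [h3]
      exact h2.clm_apply contDiffAt_const
    exact h1.differentiableAt (by norm_num)
  have hd1 : DifferentiableAt ℝ (fun y : E3 => deriv F ‖y‖) x := by
    have hr : DifferentiableAt ℝ (fun y : E3 => ‖y‖) x :=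
      (rad_smooth hx).differentiableAt (by simp)
    exact hdF.comp x hr
  have e1 : pd i (pd j (fun z => F ‖z‖)) x = pd i (fun y => deriv F ‖y‖ * pd j rad y) x := by
    unfold pd at hev ⊢
    rw [Filter.EventuallyEq.fderiv_eq hev]
  rw [e1]
  have e2 : pd i (fun y => deriv F ‖y‖ * pd j rad y) x =
      deriv F ‖x‖ * pd i (pd j rad) x + pd j rad x * pd i (fun y => deriv F ‖y‖) x := by
    have := fderiv_fun_mul hd1 (pd_rad_diff hx j)
    change (fderiv ℝ (fun y => deriv F ‖y‖ * pd j rad y) x) _ = _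
    rw [this]
    rfl
  rw [e2, pd_comp (F := deriv F) hdF hx]
  ring

end RADN

open RADN in
theorem RADN : Stmt_RADN := by
  intro ε g h F x hx hg hF hF'
  have hFd : DifferentiableAt ℝ F ‖x‖ := hF.differentiableAt (by norm_num)
  have hgr : grad (fun y => F ‖y‖) x = fun i => deriv F ‖x‖ * grad rad x i := by
    funext i
    exact pd_comp hFd hx
  have hr := grad_rad_ne hx
  have hlen := len_pos hg hr
  refine ⟨?_, hlen, ?_⟩
  · intro h0
    apply hr
    funext i
    have h1 := congrFun h0 i
    rw [hgr] at h1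
    rcases mul_eq_zero.mp h1 with h2 | h2
    · exact absurd h2 hF'.ne
    · exact h2
  · have hH : cHess g x (grad (fun y => F ‖y‖) x) (hess2 (fun y => F ‖y‖) x) =
        Matrix.of fun i j => deriv F ‖x‖ * cHess g x (grad rad x) (hess2 rad x) i j +
          deriv (deriv F) ‖x‖ * (Matrix.of fun i j => grad rad x i * grad rad x j : Bil) i j := by
      ext i j
      rw [hgr]
      unfold cHess hess2
      simp only [Matrix.of_apply]
      rw [hess_comp hF hx i j]
      have e1 : ∑ k, christoffel g k i j x * (deriv F ‖x‖ * grad rad x k) =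
          deriv F ‖x‖ * ∑ k, christoffel g k i j x * grad rad x k := by
        rw [Finset.mul_sum]
        refine Finset.sum_congr rfl fun k _ => ?_
        ring
      rw [e1]
      unfold grad
      ring
    unfold opN
    rw [hH, hgr, beps_smul ε g x hF', beps_smul ε g x hF', beps_lin, beps_self ε hg hr, len_smul,
      abs_of_neg hF']
    unfold barB
    field_simp
    ring

end Pool.Agent.PFlow
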