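import Pool.Agent.PFlow.StmtsE1

/-!
# Module AFD: uniform constants for both ends, from radius one on
-/

open MeasureTheory Filter Topology
open scoped ContDiff ENNReal

namespace Pool.Agent.PFlow.AFDaux

open Pool.Agent.PenroseSph Pool.Agent.PFlow

/-! ### Smoothness of the inversion -/

theorem isOpen_compl_zero : IsOpen ({0}ᶜ : Set E3) := isOpen_compl_singleton

theorem contDiffOn_normSq_inv : ContDiffOn ℝ ∞ (fun x : E3 => (‖x‖ ^ 2)⁻¹) {0}ᶜ := by
  have h1 : ContDiffOn ℝ ∞ (fun x : E3 => ‖x‖ ^ 2) {0}ᶜ := (contDiff_norm_sq ℝ).contDiffOn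
  refine h1.inv ?_
  intro x hx
  have : x ≠ 0 := by simpa using hx
  positivity

theorem contDiffOn_inversion : ContDiffOn ℝ ∞ inversion {0}ᶜ := by
  unfold inversion
  exact contDiffOn_normSq_inv.smul contDiffOn_id

theorem inversion_ne_zero {x : E3} (hx : x ≠ 0) : inversion x ≠ 0 := by
  unfold inversion
  refine smul_ne_zero ?_ hx
  positivity

theorem mapsTo_inversion : Set.MapsTo inversion ({0}ᶜ : Set E3) {0}ᶜ := by
  intro x hx
  have : x ≠ 0 := by simpa using hx
  simpa using inversion_ne_zero this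

theorem contDiffOn_coord (i : Fin 3) : ContDiffOn ℝ ∞ (fun x : E3 => x i) {0}ᶜ := by
  have : (fun y : E3 => y i) = fun y => (EuclideanSpace.proj i : E3 →L[ℝ] ℝ) y := rfl
  rw [this]
  exact (ContinuousLinearMap.contDiff _).contDiffOn

theorem contDiffOn_jac (a i : Fin 3) :
    ContDiffOn ℝ ∞ (fun x : E3 => inversionJac x a i) {0}ᶜ := by
  have h : (fun x : E3 => inversionJac x a i) = fun x : E3 =>
      ((if a = i then 1 else 0) - 2 * x a * x i * (‖x‖ ^ 2)⁻¹) * (‖x‖ ^ 2)⁻¹ := by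
    funext x
    simp only [inversionJac, Matrix.of_apply, div_eq_mul_inv]
  rw [h]
  refine ContDiffOn.mul (ContDiffOn.sub contDiffOn_const ?_) contDiffOn_normSq_inv
  exact ((contDiffOn_const.mul (contDiffOn_coord a)).mul (contDiffOn_coord i)).mul
    contDiffOn_normSq_inv

theorem inverted_apply (g : TensorField) (y : E3) (i j : Fin 3) :
    inverted g y i j = ∑ b, (∑ a, inversionJac y a i * g (inversion y) a b) * inversionJac y b j := by
  simp only [inverted, Matrix.mul_apply, Matrix.transpose_apply]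

theorem inverted_smooth (g : TensorField)
    (hg : ∀ i j, ContDiffOn ℝ ∞ (fun x => g x i j) {0}ᶜ) (i j : Fin 3) :
    ContDiffOn ℝ ∞ (fun x => inverted g x i j) {0}ᶜ := by
  have h : (fun x => inverted g x i j) = fun y =>
      ∑ b, (∑ a, inversionJac y a i * g (inversion y) a b) * inversionJac y b j := by
    funext y; exact inverted_apply g y i j
  rw [h]
  refine ContDiffOn.sum fun b _ => ContDiffOn.mul (ContDiffOn.sum fun a _ => ?_)
    (contDiffOn_jac b j)
  refine (contDiffOn_jac a i).mul ?_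
  exact (hg a b).comp contDiffOn_inversion mapsTo_inversion

/-! ### The inverted fields -/

theorem normSq_eq3 (x : E3) : ‖x‖ ^ 2 = x 0 ^ 2 + x 1 ^ 2 + x 2 ^ 2 := by
  rw [EuclideanSpace.norm_sq_eq, Fin.sum_univ_three]
  simp

theorem jac_sq {y : E3} (hy : y ≠ 0) :
    inversionJac y * inversionJac y = ((‖y‖ ^ 2)⁻¹ ^ 2) • (1 : Bil) := by
  have hn : ‖y‖ ^ 2 ≠ 0 := by positivity
  have hs := normSq_eq3 y
  ext i j
  simp only [Matrix.mul_apply, inversionJac, Matrix.of_apply, Matrix.smul_apply, smul_eq_mul,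
    Fin.sum_univ_three, Matrix.one_apply]
  generalize hN : ‖y‖ ^ 2 = N at *
  have hN' : N ≠ 0 := hn
  fin_cases i <;> fin_cases j <;> simp <;> field_simp <;> rw [hs] <;> ring

theorem jac_transpose (y : E3) : (inversionJac y).transpose = inversionJac y := by
  ext i j
  simp only [Matrix.transpose_apply, inversionJac, Matrix.of_apply, eq_comm]
  congr 2
  ring

theorem inverted_posDef {g : TensorField} {y : E3} (hy : y ≠ 0)
    (hg : (g (inversion y)).PosDef) : (inverted g y).PosDef := by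
  have hJ : Function.Injective (inversionJac y).mulVec := by
    intro v w hvw
    have h1 : (inversionJac y).mulVec ((inversionJac y).mulVec v)
        = (inversionJac y).mulVec ((inversionJac y).mulVec w) := congrArg _ hvw
    simp only [Matrix.mulVec_mulVec, jac_sq hy, Matrix.smul_mulVec, Matrix.one_mulVec] at h1
    have hn : ((‖y‖ ^ 2)⁻¹ ^ 2) ≠ 0 := by positivity
    exact smul_right_injective _ hn h1
  have h2 := hg.conjTranspose_mul_mul_same hJ
  have h3 : (inversionJac y).conjTranspose = (inversionJac y).transpose := by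
    ext i j
    simp [Matrix.conjTranspose_apply, Matrix.transpose_apply]
  rw [h3] at h2
  exact h2

theorem inverted_metric {g : TensorField} (hg : MetricOn {0}ᶜ g) : MetricOn {0}ᶜ (inverted g) where
  smooth := inverted_smooth g hg.smooth
  posDef := by
    intro x hx
    have hx0 : x ≠ 0 := by simpa using hx
    exact inverted_posDef hx0 (hg.posDef _ (mapsTo_inversion hx))

theorem inverted_tensor {h : TensorField} (hh : TensorOn {0}ᶜ h) : TensorOn {0}ᶜ (inverted h) where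
  smooth := inverted_smooth h hh.smooth
  symm := by
    intro x hx
    have h1 := hh.symm _ (mapsTo_inversion hx)
    unfold Matrix.IsSymm at h1 ⊢
    simp only [inverted, Matrix.transpose_mul, Matrix.transpose_transpose, h1, Matrix.mul_assoc]

/-! ### Continuity of the partial derivatives off the origin -/

theorem contDiffOn_pd {f : E3 → ℝ} (hf : ContDiffOn ℝ ∞ f {0}ᶜ) (k : Fin 3) :
    ContDiffOn ℝ ∞ (pd k f) {0}ᶜ := by
  have h1 : ContDiffOn ℝ ∞ (fderiv ℝ f) {0}ᶜ :=
    hf.fderiv_of_isOpen isOpen_compl_zero (by simp)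
  unfold pd
  exact h1.clm_apply contDiffOn_const

/-- The closed annulus is compact. -/
theorem isCompact_cAnn (a b : ℝ) : IsCompact (cAnn a b) := by
  have h1 : cAnn a b = Metric.closedBall (0 : E3) b ∩ {x : E3 | a ≤ ‖x‖} := by
    ext x
    simp only [cAnn, Set.mem_ofPred_eq, Set.mem_inter_iff, Metric.mem_closedBall, dist_zero_right]
    exact and_comm
  rw [h1]
  exact (isCompact_closedBall _ _).inter_right (isClosed_le continuous_const continuous_norm)

theorem cAnn_subset {a b : ℝ} (ha : 0 < a) : cAnn a b ⊆ ({0}ᶜ : Set E3) := by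
  intro x hx
  have h1 : a ≤ ‖x‖ := hx.1
  simp only [Set.mem_compl_iff, Set.mem_singleton_iff]
  rintro rfl
  simp at h1
  linarith

/-- A finite family of continuous functions on the punctured space is bounded on annuli. -/
theorem bound_family {ι : Type} [Fintype ι] (F : ι → E3 → ℝ)
    (hF : ∀ i, ContinuousOn (F i) {0}ᶜ) (R : ℝ) :
    ∃ M : ℝ, 0 < M ∧ ∀ i, ∀ x ∈ cAnn 1 R, |F i x| ≤ M := by
  have h1 : ∀ i, ∃ M : ℝ, ∀ x ∈ cAnn 1 R, |F i x| ≤ M := by
    intro i
    obtain ⟨M, hM⟩ := (isCompact_cAnn 1 R).exists_bound_of_continuousOn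
      ((hF i).mono (cAnn_subset one_pos))
    exact ⟨M, fun x hx => by simpa [Real.norm_eq_abs] using hM x hx⟩
  choose M hM using h1
  refine ⟨1 + ∑ i, |M i|, by positivity, fun i x hx => ?_⟩
  have h2 : |M i| ≤ ∑ j, |M j| :=
    Finset.single_le_sum (f := fun j => |M j|) (fun j _ => abs_nonneg _) (Finset.mem_univ i)
  have h3 := hM i x hx
  have h4 := le_abs_self (M i)
  linarith

/-! ### Decay from radius one -/

theorem decay_mono {C C' R : ℝ} {g h : TensorField} (hd : DecayFrom C R g h) (hR : 0 < R)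
    (hC : C ≤ C') : DecayFrom C' R g h := by
  intro x hx i j
  have hxp : 0 < ‖x‖ := lt_of_lt_of_le hR hx
  obtain ⟨h1, h2, h3, h4, h5⟩ := hd x hx i j
  have hm : ∀ n : ℕ, C / ‖x‖ ^ n ≤ C' / ‖x‖ ^ n := fun n =>
    div_le_div_of_nonneg_right hC (by positivity)
  have hm1 : C / ‖x‖ ≤ C' / ‖x‖ := by simpa using hm 1
  exact ⟨h1.trans hm1, fun k => (h2 k).trans (hm 2), fun k l => (h3 k l).trans (hm 3),
    h4.trans (hm 2), fun k => (h5 k).trans (hm 3)⟩

theorem decay_one {g h : TensorField}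
    (hg : ∀ i j, ContDiffOn ℝ ∞ (fun x => g x i j) {0}ᶜ)
    (hh : ∀ i j, ContDiffOn ℝ ∞ (fun x => h x i j) {0}ᶜ)
    (hd : ∃ C R : ℝ, DecayFrom C R g h) : ∃ C : ℝ, 0 < C ∧ DecayFrom C 1 g h := by
  obtain ⟨C, R, hd⟩ := hd
  obtain ⟨M0, hM0, b0⟩ := bound_family (ι := Fin 3 × Fin 3)
    (fun p x => g x p.1 p.2 - (1 : Bil) p.1 p.2)
    (fun p => ((hg p.1 p.2).continuousOn).sub continuousOn_const) (max R 1)
  obtain ⟨M1, hM1, b1⟩ := bound_family (ι := Fin 3 × Fin 3 × Fin 3)
    (fun p x => pd p.2.2 (fun y => g y p.1 p.2.1) x)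
    (fun p => (contDiffOn_pd (hg p.1 p.2.1) p.2.2).continuousOn) (max R 1)
  obtain ⟨M2, hM2, b2⟩ := bound_family (ι := Fin 3 × Fin 3 × Fin 3 × Fin 3)
    (fun p x => pd p.2.2.1 (pd p.2.2.2 (fun y => g y p.1 p.2.1)) x)
    (fun p => (contDiffOn_pd (contDiffOn_pd (hg p.1 p.2.1) p.2.2.2) p.2.2.1).continuousOn)
    (max R 1)
  obtain ⟨N0, hN0, c0⟩ := bound_family (ι := Fin 3 × Fin 3)
    (fun p x => h x p.1 p.2) (fun p => (hh p.1 p.2).continuousOn) (max R 1)
  obtain ⟨N1, hN1, c1⟩ := bound_family (ι := Fin 3 × Fin 3 × Fin 3)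
    (fun p x => pd p.2.2 (fun y => h y p.1 p.2.1) x)
    (fun p => (contDiffOn_pd (hh p.1 p.2.1) p.2.2).continuousOn) (max R 1)
  set Q : ℝ := max R 1 with hQ
  have hQ1 : 1 ≤ Q := le_max_right _ _
  have hQR : R ≤ Q := le_max_left _ _
  set M : ℝ := M0 + M1 + M2 + N0 + N1 with hM
  have hMp : 0 < M := by positivity
  refine ⟨|C| + M * Q ^ 3, by positivity, ?_⟩
  intro x hx i j
  have hxp : 0 < ‖x‖ := by linarith
  by_cases hxR : R ≤ ‖x‖
  · obtain ⟨h1, h2, h3, h4, h5⟩ := hd x hxR i j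
    have hCC : C ≤ |C| + M * Q ^ 3 := by
      have : 0 ≤ M * Q ^ 3 := by positivity
      have := le_abs_self C
      linarith
    have hm : ∀ n : ℕ, C / ‖x‖ ^ n ≤ (|C| + M * Q ^ 3) / ‖x‖ ^ n := fun n =>
      div_le_div_of_nonneg_right hCC (by positivity)
    have hm1 : C / ‖x‖ ≤ (|C| + M * Q ^ 3) / ‖x‖ := by simpa using hm 1
    exact ⟨h1.trans hm1, fun k => (h2 k).trans (hm 2), fun k l => (h3 k l).trans (hm 3),
      h4.trans (hm 2), fun k => (h5 k).trans (hm 3)⟩
  · have hxQ : ‖x‖ ≤ Q := by linarith [not_le.mp hxR]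
    have hmem : x ∈ cAnn 1 Q := ⟨hx, hxQ⟩
    have hm : ∀ n : ℕ, n ≤ 3 → ∀ t : ℝ, t ≤ M → t ≤ (|C| + M * Q ^ 3) / ‖x‖ ^ n := by
      intro n hn t ht
      rw [le_div_iff₀ (by positivity)]
      have e1 : ‖x‖ ^ n ≤ Q ^ n := pow_le_pow_left₀ hxp.le hxQ n
      have e2 : Q ^ n ≤ Q ^ 3 := pow_le_pow_right₀ hQ1 hn
      have e3 : t * ‖x‖ ^ n ≤ M * ‖x‖ ^ n := mul_le_mul_of_nonneg_right ht (by positivity)
      have e4 : M * ‖x‖ ^ n ≤ M * Q ^ 3 := mul_le_mul_of_nonneg_left (e1.trans e2) hMp.le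
      have := abs_nonneg C
      linarith
    have hm1 : ∀ t : ℝ, t ≤ M → t ≤ (|C| + M * Q ^ 3) / ‖x‖ := by
      intro t ht
      simpa using hm 1 (by norm_num) t ht
    refine ⟨hm1 _ ?_, fun k => hm 2 (by norm_num) _ ?_, fun k l => hm 3 le_rfl _ ?_,
      hm 2 (by norm_num) _ ?_, fun k => hm 3 le_rfl _ ?_⟩
    · have := b0 (i, j) x hmem
      simp only at this
      linarith
    · have := b1 (i, j, k) x hmem
      simp only at this
      linarith
    · have := b2 (i, j, k, l) x hmem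
      simp only at this
      linarith
    · have := c0 (i, j) x hmem
      simp only at this
      linarith
    · have := c1 (i, j, k) x hmem
      simp only at this
      linarith

/-! ### Ellipticity -/

theorem ev_smul (B : Bil) (s : ℝ) (v : Cov) : ev B (s • v) (s • v) = s ^ 2 * ev B v v := by
  simp only [ev, Fin.sum_univ_three, Pi.smul_apply, smul_eq_mul]
  ring

theorem ev_posDef {B : Bil} (hB : B.PosDef) {v : Cov} (hv : v ≠ 0) : 0 < ev B v v := by
  have h1 := hB.dotProduct_mulVec_pos hv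
  have h2 : ev B v v = star v ⬝ᵥ B.mulVec v := by
    simp only [ev, dotProduct, Matrix.mulVec, Fin.sum_univ_three, Pi.star_apply, star_trivial]
    ring
  rw [h2]
  exact h1

/-- The unit sphere of covectors. -/
def unitCov : Set Cov := {v : Cov | ∑ i, v i ^ 2 = 1}

theorem isCompact_unitCov : IsCompact unitCov := by
  refine Metric.isCompact_of_isClosed_isBounded ?_ ?_
  · refine isClosed_eq ?_ continuous_const
    exact continuous_finsetSum _ fun i _ => (continuous_apply i).pow 2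
  · refine (Metric.isBounded_closedBall (x := (0 : Cov)) (r := 1)).subset ?_
    intro v hv
    have hv' : ∑ i, v i ^ 2 = 1 := hv
    rw [mem_closedBall_zero_iff, pi_norm_le_iff_of_nonneg zero_le_one]
    intro i
    have h1 : v i ^ 2 ≤ ∑ j, v j ^ 2 :=
      Finset.single_le_sum (f := fun j => v j ^ 2) (fun j _ => sq_nonneg _) (Finset.mem_univ i)
    rw [hv'] at h1
    rw [Real.norm_eq_abs]
    exact abs_le_of_sq_le_sq' (by simpa using h1) zero_le_one |> abs_le.mpr

theorem elliptic_annulus {g : TensorField} (hg : MetricOn {0}ᶜ g) (R : ℝ) :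
    ∃ C : ℝ, 0 < C ∧ ∀ x ∈ cAnn 1 R, ∀ v : Cov,
      (∑ i, v i ^ 2) ≤ C * ev (g x) v v ∧ ev (g x) v v ≤ C * ∑ i, v i ^ 2 := by
  have hcomp : IsCompact (cAnn 1 R ×ˢ unitCov) := (isCompact_cAnn 1 R).prod isCompact_unitCov
  have hcont : ContinuousOn (fun p : E3 × Cov => ev (g p.1) p.2 p.2) (cAnn 1 R ×ˢ unitCov) := by
    unfold ev
    refine continuousOn_finsetSum _ fun i _ => continuousOn_finsetSum _ fun j _ => ?_
    refine (ContinuousOn.mul ?_ ?_).mul ?_
    · exact ((hg.smooth i j).continuousOn.mono (cAnn_subset one_pos)).comp continuousOn_fst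
        (fun p hp => hp.1)
    · exact ((continuous_apply i).comp continuous_snd).continuousOn
    · exact ((continuous_apply j).comp continuous_snd).continuousOn
  have hpos : ∀ p ∈ cAnn 1 R ×ˢ unitCov, 0 < ev (g p.1) p.2 p.2 := by
    intro p hp
    refine ev_posDef (hg.posDef _ (cAnn_subset one_pos hp.1)) ?_
    intro h0
    have h1 : ∑ i, p.2 i ^ 2 = 1 := hp.2
    rw [h0] at h1
    simp at h1
  obtain ⟨M, hM⟩ := hcomp.exists_bound_of_continuousOn hcont
  obtain ⟨N, hN⟩ := hcomp.exists_bound_of_continuousOn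
    (hcont.inv₀ fun p hp => (hpos p hp).ne')
  refine ⟨1 + |M| + |N|, by positivity, ?_⟩
  intro x hx v
  by_cases hv : v = 0
  · subst hv
    simp [ev]
  have hs : 0 < ∑ i, v i ^ 2 := by
    obtain ⟨i, hi⟩ := Function.ne_iff.mp hv
    have h1 : v i ^ 2 ≤ ∑ j, v j ^ 2 :=
      Finset.single_le_sum (f := fun j => v j ^ 2) (fun j _ => sq_nonneg _) (Finset.mem_univ i)
    have h2 : 0 < v i ^ 2 := by
      have : v i ≠ 0 := by simpa using hi
      positivity
    linarith
  set s : ℝ := Real.sqrt (∑ i, v i ^ 2) with hsdef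
  have hsp : 0 < s := Real.sqrt_pos.mpr hs
  have hs2 : s ^ 2 = ∑ i, v i ^ 2 := Real.sq_sqrt hs.le
  have hw : (s⁻¹ • v) ∈ unitCov := by
    show ∑ i, (s⁻¹ • v) i ^ 2 = 1
    have : ∑ i, (s⁻¹ • v) i ^ 2 = (s⁻¹) ^ 2 * ∑ i, v i ^ 2 := by
      rw [Finset.mul_sum]
      refine Finset.sum_congr rfl fun i _ => ?_
      simp only [Pi.smul_apply, smul_eq_mul]
      ring
    rw [this, ← hs2]
    field_simp
  have hmem : (x, s⁻¹ • v) ∈ cAnn 1 R ×ˢ unitCov := ⟨hx, hw⟩
  have hev : ev (g x) v v = s ^ 2 * ev (g x) (s⁻¹ • v) (s⁻¹ • v) := by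
    rw [ev_smul]
    field_simp
  have hp := hpos _ hmem
  have h1 := hM _ hmem
  have h2 := hN _ hmem
  simp only [Real.norm_eq_abs, Pi.inv_apply] at h1 h2 hp
  set E : ℝ := ev (g x) (s⁻¹ • v) (s⁻¹ • v) with hE
  rw [← hs2, hev]
  rw [abs_of_pos hp] at h1
  rw [abs_of_pos (inv_pos.mpr hp)] at h2
  have h3 : E ≤ 1 + |M| + |N| := by
    have := le_abs_self M
    have := abs_nonneg N
    linarith
  have h4 : 1 ≤ (1 + |M| + |N|) * E := by
    have h5 : E⁻¹ ≤ 1 + |M| + |N| := by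
      have := le_abs_self N
      have := abs_nonneg M
      linarith
    calc (1 : ℝ) = E⁻¹ * E := by field_simp
      _ ≤ (1 + |M| + |N|) * E := mul_le_mul_of_nonneg_right h5 hp.le
  constructor
  · nlinarith [sq_nonneg s]
  · nlinarith [sq_nonneg s]

theorem ev_near_one {B : Bil} {δ : ℝ} (hδ : δ ≤ 1 / 6)
    (hB : ∀ i j, |B i j - (1 : Bil) i j| ≤ δ) (v : Cov) :
    (∑ i, v i ^ 2) ≤ 2 * ev B v v ∧ ev B v v ≤ 2 * ∑ i, v i ^ 2 := by
  have hδ0 : 0 ≤ δ := (abs_nonneg _).trans (hB 0 0)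
  have h1 : ev B v v = (∑ i, v i ^ 2) + ∑ i, ∑ j, (B i j - (1 : Bil) i j) * v i * v j := by
    simp only [ev, Fin.sum_univ_three, Matrix.one_apply]
    simp
    ring
  have h2 : |∑ i, ∑ j, (B i j - (1 : Bil) i j) * v i * v j| ≤ 3 * δ * ∑ i, v i ^ 2 := by
    have e1 : |∑ i, ∑ j, (B i j - (1 : Bil) i j) * v i * v j|
        ≤ ∑ i, ∑ j, δ * (|v i| * |v j|) := by
      refine (Finset.abs_sum_le_sum_abs _ _).trans (Finset.sum_le_sum fun i _ => ?_)
      refine (Finset.abs_sum_le_sum_abs _ _).trans (Finset.sum_le_sum fun j _ => ?_)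
      rw [abs_mul, abs_mul, mul_assoc]
      exact mul_le_mul_of_nonneg_right (hB i j) (by positivity)
    refine e1.trans ?_
    simp only [Fin.sum_univ_three]
    have q0 := sq_abs (v 0)
    have q1 := sq_abs (v 1)
    have q2 := sq_abs (v 2)
    have k1 := mul_nonneg hδ0 (sq_nonneg (|v 0| - |v 1|))
    have k2 := mul_nonneg hδ0 (sq_nonneg (|v 0| - |v 2|))
    have k3 := mul_nonneg hδ0 (sq_nonneg (|v 1| - |v 2|))
    rw [← q0, ← q1, ← q2]
    nlinarith
  have h3 : 0 ≤ ∑ i, v i ^ 2 := Finset.sum_nonneg fun i _ => sq_nonneg _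
  have h4 := abs_le.mp h2
  have h5 : 3 * δ * ∑ i, v i ^ 2 ≤ (1 / 2) * ∑ i, v i ^ 2 :=
    mul_le_mul_of_nonneg_right (by linarith) h3
  constructor
  · rw [h1]; linarith [h4.1]
  · rw [h1]; linarith [h4.2]

theorem elliptic_one {g h : TensorField} {C : ℝ} (hg : MetricOn {0}ᶜ g)
    (hd : DecayFrom C 1 g h) :
    ∃ C' : ℝ, 0 < C' ∧ ∀ x : E3, 1 ≤ ‖x‖ → ∀ v : Cov,
      (∑ i, v i ^ 2) ≤ C' * ev (g x) v v ∧ ev (g x) v v ≤ C' * ∑ i, v i ^ 2 := by
  obtain ⟨A, hA, hA2⟩ := elliptic_annulus hg (max 1 (6 * C))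
  have hpos : ∀ x : E3, 1 ≤ ‖x‖ → ∀ v : Cov, 0 ≤ ev (g x) v v := by
    intro x hx v
    by_cases hv : v = 0
    · subst hv; simp [ev]
    · refine (ev_posDef (hg.posDef x ?_) hv).le
      simp only [Set.mem_compl_iff, Set.mem_singleton_iff]
      rintro rfl
      simp at hx
      linarith
  refine ⟨A + 2, by positivity, ?_⟩
  intro x hx v
  have hn : 0 ≤ ∑ i, v i ^ 2 := Finset.sum_nonneg fun i _ => sq_nonneg _
  have he := hpos x hx v
  by_cases hxR : ‖x‖ ≤ max 1 (6 * C)
  · obtain ⟨h1, h2⟩ := hA2 x ⟨hx, hxR⟩ v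
    constructor
    · nlinarith
    · nlinarith
  · have hx6 : 6 * C < ‖x‖ := lt_of_le_of_lt (le_max_right _ _) (not_le.mp hxR)
    have hxp : 0 < ‖x‖ := by linarith
    have hδ : C / ‖x‖ ≤ 1 / 6 := by
      rw [div_le_iff₀ hxp]
      linarith
    obtain ⟨h1, h2⟩ := ev_near_one hδ (fun i j => (hd x hx i j).1) v
    constructor
    · nlinarith
    · nlinarith

end Pool.Agent.PFlow.AFDaux

namespace Pool.Agent.PFlow

open Pool.Agent.PenroseSph AFDaux

theorem AFD : Stmt_AFD := by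
  intro g h hT
  have hg' := inverted_metric hT.metric
  have hh' := inverted_tensor hT.tensor
  obtain ⟨C1, hC1, d1⟩ := decay_one hT.metric.smooth hT.tensor.smooth hT.end_one
  obtain ⟨C2, hC2, d2⟩ := decay_one hg'.smooth hh'.smooth hT.end_two
  obtain ⟨C3, hC3, e1⟩ := elliptic_one hT.metric d1
  obtain ⟨C4, hC4, e2⟩ := elliptic_one hg' d2
  refine ⟨C1 + C2 + C3 + C4, by positivity, decay_mono d1 one_pos (by linarith),
    decay_mono d2 one_pos (by linarith), ?_, ?_⟩
  · intro x hx v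
    obtain ⟨h1, h2⟩ := e1 x hx v
    have hn : 0 ≤ ∑ i, v i ^ 2 := Finset.sum_nonneg fun i _ => sq_nonneg _
    have he : 0 ≤ ev (g x) v v := by
      by_contra hneg
      nlinarith
    constructor
    · nlinarith
    · nlinarith
  · intro x hx v
    obtain ⟨h1, h2⟩ := e2 x hx v
    have hn : 0 ≤ ∑ i, v i ^ 2 := Finset.sum_nonneg fun i _ => sq_nonneg _
    have he : 0 ≤ ev (inverted g x) v v := by
      by_contra hneg
      nlinarith
    constructor
    · nlinarith
    · nlinarith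

end Pool.Agent.PFlow
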