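import Pool.Agent.PFlow.StmtsE1
import Pool.Agent.PFlow.M_CT
import Pool.Agent.PFlow.E.HSM2
import Pool.Agent.PFlow.E.AFD
import Pool.Agent.PenroseSph.Calc
import Pool.Agent.PenroseConvex.COVC

/-!
# BARB: the coefficient of the radial equation at the other end
-/

open MeasureTheory Filter Topology
open scoped ContDiff

namespace Pool.Agent.PFlow

open Pool.Agent.PenroseSph

namespace BARBm

/-! ### Bounds -/

theorem sum1_le {f : Fin 3 → ℝ} {c : ℝ} (h : ∀ i, |f i| ≤ c) : |∑ i, f i| ≤ 3 * c := by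
  rw [Fin.sum_univ_three]
  have h0 := abs_le.1 (h 0)
  have h1 := abs_le.1 (h 1)
  have h2 := abs_le.1 (h 2)
  rw [abs_le]
  constructor <;> linarith [h0.1, h0.2, h1.1, h1.2, h2.1, h2.2]

theorem sum2_le {f : Fin 3 → Fin 3 → ℝ} {c : ℝ} (h : ∀ i j, |f i j| ≤ c) :
    |∑ i, ∑ j, f i j| ≤ 9 * c := by
  have := sum1_le (f := fun i => ∑ j, f i j) (c := 3 * c) fun i => sum1_le (h i)
  linarith

theorem mul_le {a b A B : ℝ} (ha : |a| ≤ A) (hb : |b| ≤ B) : |a * b| ≤ A * B := by
  rw [abs_mul]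
  exact mul_le_mul ha hb (abs_nonneg _) ((abs_nonneg _).trans ha)

theorem add_le {a b A B : ℝ} (ha : |a| ≤ A) (hb : |b| ≤ B) : |a + b| ≤ A + B :=
  (abs_add_le a b).trans (by linarith)

theorem sub_le {a b A B : ℝ} (ha : |a| ≤ A) (hb : |b| ≤ B) : |a - b| ≤ A + B :=
  (abs_sub a b).trans (by linarith)

/-- Kronecker symbol -/
def dl (i j : Fin 3) : ℝ := if i = j then 1 else 0

theorem dl_le (i j : Fin 3) : |dl i j| ≤ 1 := by
  unfold dl; split_ifs <;> norm_num

/-- the tensor `T_ijl` -/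
def Tt (D : Fin 3 → Fin 3 → Fin 3 → ℝ) (i j l : Fin 3) : ℝ := D i j l + D j i l - D l i j

/-- the normalised Hessian -/
noncomputable def Hh (n : Cov) (P : Fin 3 → Fin 3 → ℝ) (D : Fin 3 → Fin 3 → Fin 3 → ℝ)
    (i j : Fin 3) : ℝ :=
  dl i j - n i * n j - 1 / 2 * ∑ k, (∑ l, P k l * Tt D i j l) * n k

section Core

variable {A r : ℝ} {n : Cov} {P F h : Fin 3 → Fin 3 → ℝ} {D E : Fin 3 → Fin 3 → Fin 3 → ℝ}

/-- the error of the Hessian -/
noncomputable def cc (n : Cov) (F : Fin 3 → Fin 3 → ℝ) (D E : Fin 3 → Fin 3 → Fin 3 → ℝ)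
    (i j : Fin 3) : ℝ :=
  -(1 / 2) * (∑ l, (∑ k, F k l * n k) * Tt D i j l + ∑ l, n l * Tt E i j l)

theorem Hh_eq (hn : n 0 ^ 2 + n 1 ^ 2 + n 2 ^ 2 = 1) (hP : ∀ i j, P i j = dl i j + r * F i j)
    (hD : ∀ k i j, D k i j = -4 * n k * dl i j + r * E k i j) (i j : Fin 3) :
    Hh n P D i j = 3 * n i * n j - dl i j + r * cc n F D E i j := by
  have e1 : ∑ k, (∑ l, P k l * Tt D i j l) * n k = ∑ l, n l * Tt D i j l +
      r * ∑ l, (∑ k, F k l * n k) * Tt D i j l := by
    simp only [hP, dl, Fin.sum_univ_three]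
    simp
    ring
  have e2 : ∑ l, n l * Tt D i j l = -4 * (2 * n i * n j - dl i j) + r * ∑ l, n l * Tt E i j l := by
    have : ∀ l, Tt D i j l = -4 * (n i * dl j l + n j * dl i l - n l * dl i j) +
        r * Tt E i j l := by
      intro l
      simp only [Tt, hD]; ring
    simp only [this, Fin.sum_univ_three]
    have e3 : n 0 * (n i * dl j 0 + n j * dl i 0 - n 0 * dl i j) +
        n 1 * (n i * dl j 1 + n j * dl i 1 - n 1 * dl i j) +
        n 2 * (n i * dl j 2 + n j * dl i 2 - n 2 * dl i j) = 2 * n i * n j - dl i j := by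
      have e4 : n 0 * dl j 0 + n 1 * dl j 1 + n 2 * dl j 2 = n j := by
        fin_cases j <;> simp [dl]
      have e5 : n 0 * dl i 0 + n 1 * dl i 1 + n 2 * dl i 2 = n i := by
        fin_cases i <;> simp [dl]
      linear_combination n i * e4 + n j * e5 - dl i j * hn
    linear_combination -4 * e3
  rw [Hh, e1, e2, cc]
  ring

variable (hA : 1 ≤ A) (hr0 : 0 < r) (hr1 : r ≤ 1)
  (hn : n 0 ^ 2 + n 1 ^ 2 + n 2 ^ 2 = 1) (hP : ∀ i j, P i j = dl i j + r * F i j)
  (hD : ∀ k i j, D k i j = -4 * n k * dl i j + r * E k i j)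
  (hF : ∀ i j, |F i j| ≤ A) (hE : ∀ k i j, |E k i j| ≤ A) (hh : ∀ i j, |h i j| ≤ A)

include hn in
theorem n_le (i : Fin 3) : |n i| ≤ 1 := by
  rw [abs_le]
  fin_cases i <;> constructor <;> simp <;> nlinarith [sq_nonneg (n 0), sq_nonneg (n 1), sq_nonneg (n 2)]

include hA hr0 hr1 hn hD hE in
theorem T_le (i j l : Fin 3) : |Tt D i j l| ≤ 15 * A := by
  have h1 : ∀ k i j, |D k i j| ≤ 4 + A := by
    intro k i j
    rw [hD]
    refine add_le ?_ ?_
    · rw [abs_mul, abs_mul]
      have := mul_le_mul (n_le hn k) (dl_le i j) (abs_nonneg _) zero_le_one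
      norm_num
      linarith
    · have := mul_le (show |r| ≤ 1 by rwa [abs_of_pos hr0]) (hE k i j)
      linarith
  unfold Tt
  have := sub_le (add_le (h1 i j l) (h1 j i l)) (h1 l i j)
  linarith

include hE in
theorem TE_le (i j l : Fin 3) : |Tt E i j l| ≤ 3 * A := by
  unfold Tt
  have := sub_le (add_le (hE i j l) (hE j i l)) (hE l i j)
  linarith

include hA hr0 hr1 hn hD hF hE in
theorem cc_le (i j : Fin 3) : |cc n F D E i j| ≤ 72 * A ^ 2 := by
  unfold cc
  have h1 : |∑ l, (∑ k, F k l * n k) * Tt D i j l| ≤ 3 * (3 * (A * 1) * (15 * A)) :=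
    sum1_le fun l => mul_le (sum1_le fun k => mul_le (hF k l) (n_le hn k))
      (T_le hA hr0 hr1 hn hD hE i j l)
  have h2 : |∑ l, n l * Tt E i j l| ≤ 3 * (1 * (3 * A)) :=
    sum1_le fun l => mul_le (n_le hn l) (TE_le hE i j l)
  have h3 := mul_le (show |(-(1 / 2) : ℝ)| ≤ 1 / 2 by norm_num) (add_le h1 h2)
  refine h3.trans ?_
  nlinarith

include hA hr0 hr1 hn hP hD hF hE in
theorem Hh_le (i j : Fin 3) : |Hh n P D i j| ≤ 76 * A ^ 2 := by
  rw [Hh_eq hn hP hD]
  have h1 : |3 * n i * n j - dl i j| ≤ 3 * 1 * 1 + 1 :=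
    sub_le (mul_le (mul_le (by norm_num) (n_le hn i)) (n_le hn j)) (dl_le i j)
  have h2 := mul_le (show |r| ≤ 1 by rwa [abs_of_pos hr0])
    (cc_le hA hr0 hr1 hn hD hF hE i j)
  have h3 := add_le h1 h2
  refine h3.trans ?_
  nlinarith

/-- `(P n)_i - n_i` divided by `r` -/
def ff (n : Cov) (F : Fin 3 → Fin 3 → ℝ) (i : Fin 3) : ℝ := ∑ j, F i j * n j

include hn hF in
theorem ff_le (i : Fin 3) : |ff n F i| ≤ 3 * A := by
  have := sum1_le fun j => mul_le (hF i j) (n_le hn j)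
  rw [mul_one] at this
  exact this

/-- the vector `P n` -/
def vv (n : Cov) (P : Fin 3 → Fin 3 → ℝ) (i : Fin 3) : ℝ := ∑ j, P i j * n j

include hP in
theorem vv_eq (i : Fin 3) : vv n P i = n i + r * ff n F i := by
  unfold vv ff
  simp only [hP, Fin.sum_univ_three]
  have : dl i 0 * n 0 + dl i 1 * n 1 + dl i 2 * n 2 = n i := by fin_cases i <;> simp [dl]
  linear_combination this

include hA hr0 hr1 hn hP hF in
theorem vv_le (i : Fin 3) : |vv n P i| ≤ 4 * A := by
  rw [vv_eq hP]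
  have := add_le (n_le hn i) (mul_le (show |r| ≤ 1 by rwa [abs_of_pos hr0]) (ff_le hn hF i))
  linarith

/-- the trace -/
theorem trace_eq (hn : n 0 ^ 2 + n 1 ^ 2 + n 2 ^ 2 = 1)
    (hP : ∀ i j, P i j = dl i j + r * F i j)
    (hD : ∀ k i j, D k i j = -4 * n k * dl i j + r * E k i j) :
    ∑ i, ∑ j, P i j * Hh n P D i j = r * (∑ i, cc n F D E i i + ∑ i, ∑ j, F i j * Hh n P D i j) := by
  have h1 : ∑ i, ∑ j, P i j * Hh n P D i j = ∑ i, Hh n P D i i +
      r * ∑ i, ∑ j, F i j * Hh n P D i j := by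
    simp only [hP, dl, Fin.sum_univ_three]
    simp
    ring
  have h2 : ∑ i, Hh n P D i i = r * ∑ i, cc n F D E i i := by
    simp only [Hh_eq hn hP hD, Fin.sum_univ_three, dl]
    simp
    linear_combination 3 * hn
  rw [h1, h2]; ring

/-- the normal component -/
theorem norm_eq (hn : n 0 ^ 2 + n 1 ^ 2 + n 2 ^ 2 = 1)
    (hP : ∀ i j, P i j = dl i j + r * F i j)
    (hD : ∀ k i j, D k i j = -4 * n k * dl i j + r * E k i j) :
    ∑ i, ∑ j, Hh n P D i j * vv n P i * vv n P j = 2 + r * (∑ i, ∑ j, cc n F D E i j * n i * n j +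
      ∑ i, ∑ j, Hh n P D i j * (ff n F i * n j + n i * ff n F j + r * ff n F i * ff n F j)) := by
  have h1 : ∑ i, ∑ j, Hh n P D i j * vv n P i * vv n P j = ∑ i, ∑ j, Hh n P D i j * n i * n j +
      r * ∑ i, ∑ j, Hh n P D i j * (ff n F i * n j + n i * ff n F j + r * ff n F i * ff n F j) := by
    simp only [vv_eq hP, Fin.sum_univ_three]
    ring
  have h2 : ∑ i, ∑ j, Hh n P D i j * n i * n j = 2 + r * ∑ i, ∑ j, cc n F D E i j * n i * n j := by
    simp only [Hh_eq hn hP hD, Fin.sum_univ_three, dl]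
    simp
    linear_combination (3 * (n 0 ^ 2 + n 1 ^ 2 + n 2 ^ 2) + 2) * hn
  rw [h1, h2]; ring

end Core

/-- The estimate. -/
theorem core {A r : ℝ} {n : Cov} {P F h : Fin 3 → Fin 3 → ℝ} {D E : Fin 3 → Fin 3 → Fin 3 → ℝ}
    {L ε : ℝ} (hA : 1 ≤ A) (hr0 : 0 < r) (hr1 : r ≤ 1)
    (hn : n 0 ^ 2 + n 1 ^ 2 + n 2 ^ 2 = 1) (hP : ∀ i j, P i j = dl i j + r * F i j)
    (hD : ∀ k i j, D k i j = -4 * n k * dl i j + r * E k i j)
    (hF : ∀ i j, |F i j| ≤ A) (hE : ∀ k i j, |E k i j| ≤ A) (hh : ∀ i j, |h i j| ≤ A)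
    (hL : L = ∑ i, n i * vv n P i) (hLA : 1 / A ≤ L) (hε0 : 0 < ε) (hε1 : ε ≤ 1) :
    |1 / r * ((∑ i, ∑ j, P i j * Hh n P D i j) / L -
        (1 - ε) * (∑ i, ∑ j, Hh n P D i j * vv n P i * vv n P j) / L ^ 2 + 2 * (1 - ε)) -
      ((∑ i, ∑ j, P i j * h i j) - (1 - ε) * (∑ i, ∑ j, h i j * vv n P i * vv n P j) / L) /
        Real.sqrt L| ≤ 20000 * A ^ 6 := by
  have hA0 : 0 < A := by linarith
  have hL0 : 0 < L := lt_of_lt_of_le (by positivity) hLA
  have hr : |r| ≤ 1 := by rwa [abs_of_pos hr0]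
  set t := ∑ i, cc n F D E i i + ∑ i, ∑ j, F i j * Hh n P D i j with ht
  set q := ∑ i, ∑ j, cc n F D E i j * n i * n j +
      ∑ i, ∑ j, Hh n P D i j * (ff n F i * n j + n i * ff n F j + r * ff n F i * ff n F j) with hq
  set lm := ∑ i, n i * ff n F i with hlm
  have hLe : L = 1 + r * lm := by
    rw [hL, hlm]
    simp only [vv_eq hP, Fin.sum_univ_three]
    linear_combination hn
  have ht1 : |t| ≤ 900 * A ^ 3 := by
    have h1 : |∑ i, cc n F D E i i| ≤ 3 * (72 * A ^ 2) :=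
      sum1_le fun i => cc_le hA hr0 hr1 hn hD hF hE i i
    have h2 : |∑ i, ∑ j, F i j * Hh n P D i j| ≤ 9 * (A * (76 * A ^ 2)) :=
      sum2_le fun i j => mul_le (hF i j) (Hh_le hA hr0 hr1 hn hP hD hF hE i j)
    have h3 := add_le h1 h2
    have h4 : A ^ 2 ≤ A ^ 3 := pow_le_pow_right₀ hA (by norm_num)
    refine h3.trans ?_
    nlinarith
  have hq1 : |q| ≤ 11000 * A ^ 4 := by
    have h1 : |∑ i, ∑ j, cc n F D E i j * n i * n j| ≤ 9 * (72 * A ^ 2 * 1 * 1) :=
      sum2_le fun i j => mul_le (mul_le (cc_le hA hr0 hr1 hn hD hF hE i j) (n_le hn i)) (n_le hn j)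
    have h2 : |∑ i, ∑ j, Hh n P D i j * (ff n F i * n j + n i * ff n F j +
        r * ff n F i * ff n F j)| ≤ 9 * (76 * A ^ 2 * (3 * A * 1 + 1 * (3 * A) +
          1 * (3 * A) * (3 * A))) :=
      sum2_le fun i j => mul_le (Hh_le hA hr0 hr1 hn hP hD hF hE i j)
        (add_le (add_le (mul_le (ff_le hn hF i) (n_le hn j)) (mul_le (n_le hn i) (ff_le hn hF j)))
          (mul_le (mul_le hr (ff_le hn hF i)) (ff_le hn hF j)))
    have h3 := add_le h1 h2
    have h4 : A ^ 2 ≤ A ^ 4 := pow_le_pow_right₀ hA (by norm_num)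
    have h5 : A ^ 3 ≤ A ^ 4 := pow_le_pow_right₀ hA (by norm_num)
    refine h3.trans ?_
    nlinarith
  have hl1 : |lm| ≤ 9 * A := by
    have := sum1_le fun i => mul_le (n_le hn i) (ff_le hn hF i)
    linarith
  have hLi : |1 / L| ≤ A := by
    rw [abs_of_pos (by positivity), div_le_iff₀ hL0]
    rw [div_le_iff₀ hA0] at hLA
    linarith
  have hLs : |1 / Real.sqrt L| ≤ A := by
    rw [abs_of_pos (by positivity)]
    have h1 : Real.sqrt (1 / A ^ 2) ≤ Real.sqrt L := by
      refine Real.sqrt_le_sqrt (le_trans ?_ hLA)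
      rw [div_le_div_iff_of_pos_left one_pos (by positivity) hA0]
      nlinarith
    rw [Real.sqrt_div zero_le_one, Real.sqrt_one, Real.sqrt_sq hA0.le] at h1
    rw [div_le_iff₀ (by positivity)]
    rw [div_le_iff₀ hA0] at h1
    linarith
  have hε : |1 - ε| ≤ 1 := by rw [abs_le]; constructor <;> linarith
  have key : 1 / r * ((∑ i, ∑ j, P i j * Hh n P D i j) / L -
        (1 - ε) * (∑ i, ∑ j, Hh n P D i j * vv n P i * vv n P j) / L ^ 2 + 2 * (1 - ε)) -
      ((∑ i, ∑ j, P i j * h i j) - (1 - ε) * (∑ i, ∑ j, h i j * vv n P i * vv n P j) / L) /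
        Real.sqrt L =
      t * (1 / L) - (1 - ε) * ((q - 4 * lm - 2 * r * lm ^ 2) * (1 / L) * (1 / L)) -
        ((∑ i, ∑ j, P i j * h i j) - (1 - ε) * ((∑ i, ∑ j, h i j * vv n P i * vv n P j) * (1 / L))) *
          (1 / Real.sqrt L) := by
    rw [trace_eq hn hP hD, norm_eq hn hP hD]
    have : 2 * (1 - ε) = (1 - ε) * (2 * (1 + r * lm) ^ 2 / L ^ 2) := by
      rw [hLe]
      have : (1 + r * lm) ≠ 0 := by rw [← hLe]; exact hL0.ne'
      field_simp
    rw [this, ← ht, ← hq]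
    field_simp
    ring
  rw [key]
  have g1 := mul_le ht1 hLi
  have g2 : |(1 - ε) * ((q - 4 * lm - 2 * r * lm ^ 2) * (1 / L) * (1 / L))| ≤
      1 * ((11000 * A ^ 4 + 4 * (9 * A) + 2 * 1 * (9 * A * (9 * A))) * A * A) := by
    refine mul_le hε (mul_le (mul_le (sub_le (sub_le hq1 (mul_le (by norm_num) hl1)) ?_) hLi) hLi)
    rw [pow_two]
    exact mul_le (mul_le (by norm_num) hr) (mul_le hl1 hl1)
  have hP1 : ∀ i j, |P i j| ≤ 2 * A := by
    intro i j
    rw [hP]
    have := add_le (dl_le i j) (mul_le hr (hF i j))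
    linarith
  have g3 : |((∑ i, ∑ j, P i j * h i j) - (1 - ε) * ((∑ i, ∑ j, h i j * vv n P i * vv n P j) *
      (1 / L))) * (1 / Real.sqrt L)| ≤ (9 * (2 * A * A) + 1 * ((9 * (A * (4 * A) * (4 * A))) * A)) * A := by
    refine mul_le (sub_le (sum2_le fun i j => mul_le (hP1 i j) (hh i j)) (mul_le hε (mul_le
      (sum2_le fun i j => mul_le (mul_le (hh i j) (vv_le hA hr0 hr1 hn hP hF i))
        (vv_le hA hr0 hr1 hn hP hF j)) hLi))) hLs
  have g4 := sub_le (sub_le g1 g2) g3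
  refine g4.trans ?_
  have p3 : A ^ 3 ≤ A ^ 6 := pow_le_pow_right₀ hA (by norm_num)
  have p4 : A ^ 4 ≤ A ^ 6 := pow_le_pow_right₀ hA (by norm_num)
  have p5 : A ^ 5 ≤ A ^ 6 := pow_le_pow_right₀ hA (by norm_num)
  nlinarith

/-! ### Link with the geometry -/

/-- The quotient in normalised quantities. -/
theorem barB_eq {g h : TensorField} {x : E3} {r L ε : ℝ} {n : Cov} {P h' : Fin 3 → Fin 3 → ℝ}
    {D : Fin 3 → Fin 3 → Fin 3 → ℝ} (hr0 : 0 < r)
    (hL : L = ∑ i, n i * vv n P i) (hL0 : 0 < L)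
    (hinv : ∀ i j, (g x)⁻¹ i j = r ^ 4 * P i j) (hgrad : grad rad x = n)
    (hH : ∀ i j, cHess g x n (hess2 rad x) i j = 1 / r * Hh n P D i j)
    (hh : ∀ i j, h x i j = h' i j / r ^ 2) :
    barB ε g h x + 2 * (1 - ε) / r =
      1 / r * ((∑ i, ∑ j, P i j * Hh n P D i j) / L -
        (1 - ε) * (∑ i, ∑ j, Hh n P D i j * vv n P i * vv n P j) / L ^ 2 + 2 * (1 - ε)) -
      ((∑ i, ∑ j, P i j * h' i j) - (1 - ε) * (∑ i, ∑ j, h' i j * vv n P i * vv n P j) / L) /
        Real.sqrt L := by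
  have hs : Real.sqrt L ^ 2 = L := Real.sq_sqrt hL0.le
  have hs0 : 0 < Real.sqrt L := Real.sqrt_pos.2 hL0
  have hlen : len g x n = r ^ 2 * Real.sqrt L := by
    unfold len
    have : ev (g x)⁻¹ n n = (r ^ 2) ^ 2 * L := by
      unfold ev
      rw [hL]
      simp only [hinv, vv, Fin.sum_univ_three]
      ring
    rw [this, Real.sqrt_mul (by positivity), Real.sqrt_sq (by positivity)]
  have hraise : ∀ i, raise g x n i = r ^ 4 * vv n P i := by
    intro i
    unfold raise vv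
    simp only [hinv, Finset.mul_sum]
    refine Finset.sum_congr rfl fun j _ => ?_
    ring
  have hnrm : ∀ i, nrm g x n i = r ^ 2 / Real.sqrt L * vv n P i := by
    intro i
    unfold nrm
    rw [hraise, hlen]
    field_simp
  have hbnn : ∀ B : Bil, bnn g x n B = r ^ 4 / L * ∑ i, ∑ j, B i j * vv n P i * vv n P j := by
    intro B
    unfold bnn ev
    rw [Finset.mul_sum]
    refine Finset.sum_congr rfl fun i _ => ?_
    rw [Finset.mul_sum]
    refine Finset.sum_congr rfl fun j _ => ?_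
    rw [hnrm, hnrm]
    have : (r ^ 2 / Real.sqrt L) * (r ^ 2 / Real.sqrt L) = r ^ 4 / L := by
      rw [div_mul_div_comm, ← pow_two (Real.sqrt L), hs]; ring
    linear_combination B i j * vv n P i * vv n P j * this
  have htrg : ∀ B : Bil, trg g x B = r ^ 4 * ∑ i, ∑ j, P i j * B i j := by
    intro B
    unfold trg
    rw [Finset.mul_sum]
    refine Finset.sum_congr rfl fun i _ => ?_
    rw [Finset.mul_sum]
    refine Finset.sum_congr rfl fun j _ => ?_
    rw [hinv]; ring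
  have e1 : ∑ i, ∑ j, P i j * cHess g x n (hess2 rad x) i j =
      1 / r * ∑ i, ∑ j, P i j * Hh n P D i j := by
    rw [Finset.mul_sum]
    refine Finset.sum_congr rfl fun i _ => ?_
    rw [Finset.mul_sum]
    refine Finset.sum_congr rfl fun j _ => ?_
    rw [hH]; ring
  have e2 : ∑ i, ∑ j, cHess g x n (hess2 rad x) i j * vv n P i * vv n P j =
      1 / r * ∑ i, ∑ j, Hh n P D i j * vv n P i * vv n P j := by
    rw [Finset.mul_sum]
    refine Finset.sum_congr rfl fun i _ => ?_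
    rw [Finset.mul_sum]
    refine Finset.sum_congr rfl fun j _ => ?_
    rw [hH]; ring
  have e3 : ∑ i, ∑ j, P i j * h x i j = 1 / r ^ 2 * ∑ i, ∑ j, P i j * h' i j := by
    rw [Finset.mul_sum]
    refine Finset.sum_congr rfl fun i _ => ?_
    rw [Finset.mul_sum]
    refine Finset.sum_congr rfl fun j _ => ?_
    rw [hh]; ring
  have e4 : ∑ i, ∑ j, h x i j * vv n P i * vv n P j =
      1 / r ^ 2 * ∑ i, ∑ j, h' i j * vv n P i * vv n P j := by
    rw [Finset.mul_sum]
    refine Finset.sum_congr rfl fun i _ => ?_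
    rw [Finset.mul_sum]
    refine Finset.sum_congr rfl fun j _ => ?_
    rw [hh]; ring
  unfold barB beps
  rw [hgrad, hlen, htrg, htrg, hbnn, hbnn, e1, e2, e3, e4]
  set a := ∑ i, ∑ j, P i j * Hh n P D i j
  set b := ∑ i, ∑ j, Hh n P D i j * vv n P i * vv n P j
  set c := ∑ i, ∑ j, P i j * h' i j
  set d := ∑ i, ∑ j, h' i j * vv n P i * vv n P j
  set s := Real.sqrt L
  rw [← hs]
  field_simp
  ring

/-! ### Derivatives -/

/-- the unit vector -/
noncomputable def nu (x : E3) : Cov := fun i => x i / ‖x‖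

theorem nu_sq {x : E3} (hx : x ≠ 0) : nu x 0 ^ 2 + nu x 1 ^ 2 + nu x 2 ^ 2 = 1 := by
  have hn : ‖x‖ ≠ 0 := norm_ne_zero_iff.2 hx
  have := norm_sq_eq x
  unfold nu
  field_simp
  linarith

theorem grad_rad {x : E3} (hx : x ≠ 0) : grad rad x = nu x := by
  funext i
  unfold grad nu
  have := pd_radial (i := i) (F := fun t => t) (F' := 1) hx (hasDerivAt_id _)
  rw [one_mul] at this
  exact this

theorem pd_inv_norm {x : E3} (hx : x ≠ 0) (k : Fin 3) :
    pd k (fun y => ‖y‖⁻¹) x = -(1 / ‖x‖ ^ 2) * nu x k := by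
  have hn : ‖x‖ ≠ 0 := norm_ne_zero_iff.2 hx
  have h1 : HasDerivAt (fun t : ℝ => t⁻¹) (-(‖x‖ ^ 2)⁻¹) ‖x‖ := hasDerivAt_inv hn
  rw [pd_radial hx h1, nu, one_div]

theorem diff_inv_norm {x : E3} (hx : x ≠ 0) : DifferentiableAt ℝ (fun y : E3 => ‖y‖⁻¹) x :=
  (differentiableAt_norm hx).fun_inv (norm_ne_zero_iff.2 hx)

theorem hess_rad {x : E3} (hx : x ≠ 0) (i j : Fin 3) :
    hess2 rad x i j = 1 / ‖x‖ * (dl i j - nu x i * nu x j) := by
  have hn : ‖x‖ ≠ 0 := norm_ne_zero_iff.2 hx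
  have h1 : pd j rad =ᶠ[𝓝 x] fun y => y j * ‖y‖⁻¹ := by
    filter_upwards [isOpen_compl_singleton.mem_nhds hx] with y hy
    have := congrFun (grad_rad (x := y) hy) j
    unfold grad nu at this
    rw [this, div_eq_mul_inv]
  unfold hess2
  rw [Matrix.of_apply, pd_congr h1, pd_mul (differentiableAt_coord j) (diff_inv_norm hx),
    pd_coord, pd_inv_norm hx]
  unfold dl nu
  field_simp
  ring

theorem pd_nsq {x : E3} (hx : x ≠ 0) (k : Fin 3) :
    pd k (fun y => (‖y‖ ^ 2)⁻¹) x = -(2 / ‖x‖ ^ 3) * nu x k := by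
  have hn : ‖x‖ ≠ 0 := norm_ne_zero_iff.2 hx
  have h1 : (fun y : E3 => (‖y‖ ^ 2)⁻¹) = fun y => ‖y‖⁻¹ * ‖y‖⁻¹ := by
    funext y; rw [pow_two, mul_inv]
  rw [h1, pd_mul (diff_inv_norm hx) (diff_inv_norm hx), pd_inv_norm hx]
  field_simp
  ring

theorem diff_nsq {x : E3} (hx : x ≠ 0) : DifferentiableAt ℝ (fun y : E3 => (‖y‖ ^ 2)⁻¹) x := by
  have h1 : (fun y : E3 => (‖y‖ ^ 2)⁻¹) = fun y => ‖y‖⁻¹ * ‖y‖⁻¹ := by
    funext y; rw [pow_two, mul_inv]
  rw [h1]
  exact (diff_inv_norm hx).fun_mul (diff_inv_norm hx)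

/-- the reflection -/
def Sr (n : Cov) (a i : Fin 3) : ℝ := dl a i - 2 * n a * n i

/-- the derivative of the Jacobian of the inversion, normalised -/
def kp (n : Cov) (k a i : Fin 3) : ℝ :=
  -2 * dl a i * n k - 2 * (dl k a * n i + dl k i * n a) + 8 * n a * n i * n k

theorem jac_eq {x : E3} (hx : x ≠ 0) (a i : Fin 3) :
    inversionJac x a i = Sr (nu x) a i / ‖x‖ ^ 2 := by
  have hn : ‖x‖ ≠ 0 := norm_ne_zero_iff.2 hx
  unfold inversionJac Sr nu dl
  rw [Matrix.of_apply]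
  field_simp

theorem jac_fun (a i : Fin 3) : (fun y : E3 => inversionJac y a i) =
    fun y => dl a i * (‖y‖ ^ 2)⁻¹ - 2 * ((y a * y i) * ((‖y‖ ^ 2)⁻¹ * (‖y‖ ^ 2)⁻¹)) := by
  funext y
  unfold inversionJac dl
  rw [Matrix.of_apply, div_eq_mul_inv, div_eq_mul_inv]
  ring

theorem diff_jac {x : E3} (hx : x ≠ 0) (a i : Fin 3) :
    DifferentiableAt ℝ (fun y : E3 => inversionJac y a i) x := by
  rw [jac_fun]
  exact ((diff_nsq hx).const_mul _).fun_sub ((((differentiableAt_coord a).fun_mul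
    (differentiableAt_coord i)).fun_mul ((diff_nsq hx).fun_mul (diff_nsq hx))).const_mul _)

theorem pd_jac {x : E3} (hx : x ≠ 0) (k a i : Fin 3) :
    pd k (fun y : E3 => inversionJac y a i) x = kp (nu x) k a i / ‖x‖ ^ 3 := by
  have hn : ‖x‖ ≠ 0 := norm_ne_zero_iff.2 hx
  have hd := diff_nsq hx
  have hc : ∀ j : Fin 3, DifferentiableAt ℝ (fun y : E3 => y j) x := fun j =>
    differentiableAt_coord j
  rw [jac_fun, pd_sub (hd.const_mul _) ((((hc a).fun_mul (hc i)).fun_mul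
    (hd.fun_mul hd)).const_mul _), pd_const_mul _ hd, pd_const_mul _ (((hc a).fun_mul
    (hc i)).fun_mul (hd.fun_mul hd)), pd_mul ((hc a).fun_mul (hc i)) (hd.fun_mul hd),
    pd_mul (hc a) (hc i), pd_mul hd hd, pd_nsq hx, pd_coord, pd_coord]
  have ha : x a = ‖x‖ * nu x a := by unfold nu; field_simp
  have hi : x i = ‖x‖ * nu x i := by unfold nu; field_simp
  rw [ha, hi]
  unfold kp
  have e1 : (if k = a then (1 : ℝ) else 0) = dl k a := rfl
  have e2 : (if k = i then (1 : ℝ) else 0) = dl k i := rfl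
  rw [e1, e2]
  field_simp
  ring

theorem inversion_fun (c : Fin 3) : (fun y : E3 => inversion y c) =
    fun y => (‖y‖ ^ 2)⁻¹ * y c := by
  funext y
  unfold inversion
  rw [PiLp.smul_apply, smul_eq_mul]

theorem pd_inversion {x : E3} (hx : x ≠ 0) (k c : Fin 3) :
    pd k (fun y : E3 => inversion y c) x = Sr (nu x) c k / ‖x‖ ^ 2 := by
  have hn : ‖x‖ ≠ 0 := norm_ne_zero_iff.2 hx
  rw [inversion_fun, pd_mul (diff_nsq hx) (differentiableAt_coord c), pd_nsq hx, pd_coord]
  have hc : x c = ‖x‖ * nu x c := by unfold nu; field_simp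
  rw [hc]
  unfold Sr
  have e1 : (if k = c then (1 : ℝ) else 0) = dl c k := by unfold dl; simp only [eq_comm]
  rw [e1]
  field_simp
  ring

theorem diff_inversion {x : E3} (hx : x ≠ 0) : DifferentiableAt ℝ inversion x := by
  unfold inversion
  exact (diff_nsq hx).smul differentiableAt_id

theorem nu_inversion {x : E3} (hx : x ≠ 0) : nu (inversion x) = nu x := by
  have hn : 0 < ‖x‖ := norm_pos_iff.2 hx
  funext i
  unfold nu
  rw [HSM2.norm_inversion x hx]
  have := congrFun (inversion_fun i) x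
  simp only at this
  rw [this]
  field_simp

theorem dl_sum (f : Fin 3 → ℝ) (i : Fin 3) : ∑ a, dl a i * f a = f i := by
  unfold dl
  rw [Finset.sum_eq_single i]
  · simp
  · intro b _ hb; rw [if_neg hb, zero_mul]
  · intro h; exact absurd (Finset.mem_univ _) h

theorem dl_sum' (f : Fin 3 → ℝ) (i : Fin 3) : ∑ a, dl i a * f a = f i := by
  unfold dl
  rw [Finset.sum_eq_single i]
  · simp
  · intro b _ hb; rw [if_neg (Ne.symm hb), zero_mul]
  · intro h; exact absurd (Finset.mem_univ _) h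

theorem Sr_symm (n : Cov) (a i : Fin 3) : Sr n a i = Sr n i a := by
  unfold Sr dl
  simp only [eq_comm]
  ring

theorem kp_symm (n : Cov) (k a i : Fin 3) : kp n k a i = kp n k i a := by
  unfold kp dl
  simp only [eq_comm (a := a) (b := i)]
  ring

/-- The metric in terms of the inverted metric. -/
theorem g_eq (g : TensorField) {x : E3} (hx : x ≠ 0) (i j : Fin 3) :
    g x i j = ∑ b, (∑ a, inversionJac x a i * inverted g (inversion x) a b) * inversionJac x b j := by
  have hn : 0 < ‖x‖ := norm_pos_iff.2 hx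
  have h1 : inversionJac (inversion x) = (‖x‖ ^ 2) ^ 2 • inversionJac x := by
    ext a i
    rw [Matrix.smul_apply, smul_eq_mul, jac_eq (HSM2.inversion_ne x hx), jac_eq hx,
      nu_inversion hx, HSM2.norm_inversion x hx]
    field_simp
  have h2 : inversionJac (inversion x) * inversionJac x = 1 := by
    rw [h1, Matrix.smul_mul, HSM2.jac_sq x hx, smul_smul]
    have : (‖x‖ ^ 2) ^ 2 * ((‖x‖ ^ 2)⁻¹ ^ 2) = 1 := by field_simp
    rw [this, one_smul]
  have h3 : inverted (inverted g) x = g x := by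
    have e1 : inverted (inverted g) x = (inversionJac x).transpose *
        ((inversionJac (inversion x)).transpose * g (inversion (inversion x)) *
          inversionJac (inversion x)) * inversionJac x := rfl
    rw [e1, HSM2.inversion_inversion x hx]
    have e2 : (inversionJac x).transpose *
        ((inversionJac (inversion x)).transpose * g x * inversionJac (inversion x)) *
          inversionJac x = (inversionJac (inversion x) * inversionJac x).transpose * g x *
          (inversionJac (inversion x) * inversionJac x) := by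
      rw [Matrix.transpose_mul]
      simp only [Matrix.mul_assoc]
    rw [e2, h2, Matrix.transpose_one, Matrix.one_mul, Matrix.mul_one]
  rw [← AFDaux.inverted_apply (inverted g) x i j, h3]

/-- The derivative of the metric. -/
theorem pd_g {g : TensorField} (hg : MetricOn {0}ᶜ g) {x : E3} (hx : x ≠ 0) (k i j : Fin 3) :
    pd k (fun y => g y i j) x = ∑ b, ((∑ a, Sr (nu x) a i / ‖x‖ ^ 2 *
        inverted g (inversion x) a b) * (kp (nu x) k b j / ‖x‖ ^ 3) +
      Sr (nu x) b j / ‖x‖ ^ 2 * ∑ a, (Sr (nu x) a i / ‖x‖ ^ 2 *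
        (∑ c, pd c (fun y => inverted g y a b) (inversion x) * (Sr (nu x) c k / ‖x‖ ^ 2)) +
        inverted g (inversion x) a b * (kp (nu x) k a i / ‖x‖ ^ 3))) := by
  have h1 : (fun y => g y i j) =ᶠ[𝓝 x] fun y => ∑ b, (∑ a, inversionJac y a i *
      inverted g (inversion y) a b) * inversionJac y b j := by
    filter_upwards [isOpen_compl_singleton.mem_nhds hx] with y hy
    exact g_eq g hy i j
  have hy : inversion x ∈ ({0}ᶜ : Set E3) := HSM2.inversion_ne x hx
  have hG : ∀ a b, DifferentiableAt ℝ (fun y => inverted g y a b) (inversion x) := fun a b =>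
    (((AFDaux.inverted_metric hg).smooth a b).contDiffAt
      (isOpen_compl_singleton.mem_nhds hy)).differentiableAt (by simp)
  have hI := diff_inversion hx
  have hG' : ∀ a b, DifferentiableAt ℝ (fun y => inverted g (inversion y) a b) x := fun a b =>
    DifferentiableAt.comp x (f := inversion) (g := fun y => inverted g y a b) (hG a b) hI
  have hJ := fun a i => diff_jac hx a i
  rw [pd_congr h1, pd_sum]
  · refine Finset.sum_congr rfl fun b _ => ?_
    rw [pd_mul (DifferentiableAt.fun_sum fun a _ => (hJ a i).fun_mul (hG' a b)) (hJ b j),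
      pd_jac hx, pd_sum]
    · rw [jac_eq hx b j]
      congr 1
      · congr 1
        refine Finset.sum_congr rfl fun a _ => ?_
        rw [jac_eq hx]
      · congr 1
        refine Finset.sum_congr rfl fun a _ => ?_
        rw [pd_mul (hJ a i) (hG' a b), pd_jac hx, jac_eq hx,
          PenroseConvex.COVC.pd_comp (f := fun y => inverted g y a b) (hG a b) hI]
        congr 2
        refine Finset.sum_congr rfl fun c _ => ?_
        congr 1
        exact pd_inversion hx k c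
    · intro a _
      exact (hJ a i).fun_mul (hG' a b)
  · intro b _
    exact (DifferentiableAt.fun_sum fun a _ => (hJ a i).fun_mul (hG' a b)).fun_mul (hJ b j)

/-! ### Normalised quantities -/

/-- the error of the inverted metric, divided by `r` -/
noncomputable def gh (g : TensorField) (x : E3) (a b : Fin 3) : ℝ :=
  (inverted g (inversion x) a b - dl a b) / ‖x‖

/-- the derivative of the inverted metric, divided by `r²` -/
noncomputable def gm (g : TensorField) (x : E3) (c a b : Fin 3) : ℝ :=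
  pd c (fun y => inverted g y a b) (inversion x) / ‖x‖ ^ 2

/-- the error of the derivative of the metric -/
noncomputable def Eh (g : TensorField) (x : E3) (k i j : Fin 3) : ℝ :=
  ∑ b, ∑ a, (Sr (nu x) a i * kp (nu x) k b j + kp (nu x) k a i * Sr (nu x) b j) * gh g x a b +
    ∑ b, ∑ a, Sr (nu x) a i * Sr (nu x) b j * ∑ c, gm g x c a b * Sr (nu x) c k

theorem id1 {n : Cov} (hn : n 0 ^ 2 + n 1 ^ 2 + n 2 ^ 2 = 1) (k i j : Fin 3) :
    ∑ b, ∑ a, (Sr n a i * kp n k b j + kp n k a i * Sr n b j) * dl a b = -4 * n k * dl i j := by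
  have hw : ∀ j, ∑ b, n b * kp n k b j = 4 * n k * n j - 2 * dl k j := by
    intro j
    have e1 : ∑ b, n b * kp n k b j = -2 * (∑ b, dl j b * n b) * n k -
        2 * ((∑ b, dl k b * n b) * n j + dl k j * (n 0 ^ 2 + n 1 ^ 2 + n 2 ^ 2)) +
        8 * (n 0 ^ 2 + n 1 ^ 2 + n 2 ^ 2) * n j * n k := by
      unfold kp
      simp only [Fin.sum_univ_three]
      have e : ∀ b, dl b j = dl j b := fun b => by unfold dl; simp only [eq_comm]
      simp only [e]
      ring
    rw [e1, hn, dl_sum' (fun b => n b), dl_sum' (fun b => n b)]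
    ring
  have h1 : ∀ i j, ∑ a, Sr n a i * kp n k a j = kp n k i j - 2 * n i * (4 * n k * n j - 2 * dl k j) := by
    intro i j
    rw [← hw j]
    have e1 : ∑ a, Sr n a i * kp n k a j = ∑ a, dl i a * kp n k a j -
        2 * n i * ∑ b, n b * kp n k b j := by
      unfold Sr
      simp only [Fin.sum_univ_three]
      have e : ∀ b, dl b i = dl i b := fun b => by unfold dl; simp only [eq_comm]
      simp only [e]
      ring
    rw [e1, dl_sum' (fun a => kp n k a j)]
  have h2 : ∑ b, ∑ a, (Sr n a i * kp n k b j + kp n k a i * Sr n b j) * dl a b =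
      ∑ a, Sr n a i * kp n k a j + ∑ a, Sr n a j * kp n k a i := by
    have e1 : ∀ b, ∑ a, (Sr n a i * kp n k b j + kp n k a i * Sr n b j) * dl a b =
        Sr n b i * kp n k b j + kp n k b i * Sr n b j := by
      intro b
      have e : ∀ a, dl a b = dl b a := fun a => by unfold dl; simp only [eq_comm]
      have := dl_sum (fun a => Sr n a i * kp n k b j + kp n k a i * Sr n b j) b
      rw [← this]
      refine Finset.sum_congr rfl fun a _ => ?_
      rw [e]; ring
    rw [Finset.sum_congr rfl fun b _ => e1 b, Finset.sum_add_distrib]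
    congr 1
    refine Finset.sum_congr rfl fun b _ => ?_
    ring
  rw [h2, h1 i j, h1 j i]
  unfold kp
  have e3 : dl j i = dl i j := by unfold dl; simp only [eq_comm]
  rw [e3]
  ring

theorem D_eq {g : TensorField} (hg : MetricOn {0}ᶜ g) {x : E3} (hx : x ≠ 0) (k i j : Fin 3) :
    ‖x‖ ^ 5 * pd k (fun y => g y i j) x = -4 * nu x k * dl i j + ‖x‖ * Eh g x k i j := by
  have hn : ‖x‖ ≠ 0 := norm_ne_zero_iff.2 hx
  have h1 : ‖x‖ ^ 5 * pd k (fun y => g y i j) x =
      ∑ b, ∑ a, (Sr (nu x) a i * kp (nu x) k b j + kp (nu x) k a i * Sr (nu x) b j) *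
        inverted g (inversion x) a b +
      ‖x‖ * ∑ b, ∑ a, Sr (nu x) a i * Sr (nu x) b j * ∑ c, gm g x c a b * Sr (nu x) c k := by
    rw [pd_g hg hx]
    unfold gm
    simp only [Fin.sum_univ_three]
    field_simp
    ring
  have h2 : ∀ a b, inverted g (inversion x) a b = dl a b + ‖x‖ * gh g x a b := by
    intro a b
    unfold gh
    field_simp
    ring
  rw [h1, ← id1 (nu_sq hx) k i j]
  unfold Eh
  simp only [h2, Fin.sum_univ_three]
  ring

theorem Sr_le {n : Cov} (hn : n 0 ^ 2 + n 1 ^ 2 + n 2 ^ 2 = 1) (a i : Fin 3) : |Sr n a i| ≤ 3 := by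
  unfold Sr
  have := sub_le (dl_le a i) (mul_le (mul_le (show |(2 : ℝ)| ≤ 2 by norm_num) (n_le hn a))
    (n_le hn i))
  linarith

theorem kp_le {n : Cov} (hn : n 0 ^ 2 + n 1 ^ 2 + n 2 ^ 2 = 1) (k a i : Fin 3) :
    |kp n k a i| ≤ 14 := by
  unfold kp
  have := add_le (sub_le (mul_le (mul_le (show |(-2 : ℝ)| ≤ 2 by norm_num) (dl_le a i)) (n_le hn k))
    (mul_le (show |(2 : ℝ)| ≤ 2 by norm_num) (add_le (mul_le (dl_le k a) (n_le hn i))
      (mul_le (dl_le k i) (n_le hn a))))) (mul_le (mul_le (mul_le (show |(8 : ℝ)| ≤ 8 by norm_num)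
        (n_le hn a)) (n_le hn i)) (n_le hn k))
  linarith

theorem Eh_le {g : TensorField} {x : E3} {C : ℝ} (hx : x ≠ 0)
    (h1 : ∀ a b, |gh g x a b| ≤ C) (h2 : ∀ c a b, |gm g x c a b| ≤ C) (k i j : Fin 3) :
    |Eh g x k i j| ≤ 1485 * C := by
  have hn := nu_sq hx
  unfold Eh
  have := add_le (sum2_le fun b a => mul_le (add_le (mul_le (Sr_le hn a i) (kp_le hn k b j))
    (mul_le (kp_le hn k a i) (Sr_le hn b j))) (h1 a b))
    (sum2_le fun b a => mul_le (mul_le (Sr_le hn a i) (Sr_le hn b j))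
      (sum1_le fun c => mul_le (h2 c a b) (Sr_le hn c k)))
  refine this.trans (le_of_eq ?_)
  ring

/-- the error of the metric -/
noncomputable def gE (g : TensorField) (x : E3) (i j : Fin 3) : ℝ :=
  ∑ b, (∑ a, Sr (nu x) a i * gh g x a b) * Sr (nu x) b j

theorem gE_le {g : TensorField} {x : E3} {C : ℝ} (hx : x ≠ 0)
    (h1 : ∀ a b, |gh g x a b| ≤ C) (i j : Fin 3) : |gE g x i j| ≤ 81 * C := by
  have hn := nu_sq hx
  unfold gE
  have := sum1_le fun b => mul_le (sum1_le fun a => mul_le (Sr_le hn a i) (h1 a b)) (Sr_le hn b j)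
  refine this.trans (le_of_eq ?_)
  ring

theorem Sr_sq {n : Cov} (hn : n 0 ^ 2 + n 1 ^ 2 + n 2 ^ 2 = 1) (i j : Fin 3) :
    ∑ a, Sr n a i * Sr n a j = dl i j := by
  have e1 : ∑ a, Sr n a i * Sr n a j = (∑ a, dl i a * dl a j) - 2 * n j * (∑ a, dl i a * n a) -
      2 * n i * (∑ a, dl j a * n a) + 4 * n i * n j * (n 0 ^ 2 + n 1 ^ 2 + n 2 ^ 2) := by
    unfold Sr
    simp only [Fin.sum_univ_three]
    have e : ∀ b i, dl b i = dl i b := fun b i => by unfold dl; simp only [eq_comm]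
    rw [e 0 i, e 1 i, e 2 i, e 0 j, e 1 j, e 2 j]
    ring
  rw [e1, hn, dl_sum' (fun a => n a), dl_sum' (fun a => n a), dl_sum' (fun a => dl a j)]
  ring

theorem m_eq {g : TensorField} {x : E3} (hx : x ≠ 0) (i j : Fin 3) :
    ‖x‖ ^ 4 * g x i j = dl i j + ‖x‖ * gE g x i j := by
  have hn : ‖x‖ ≠ 0 := norm_ne_zero_iff.2 hx
  have h2 : ∀ a b, inverted g (inversion x) a b = dl a b + ‖x‖ * gh g x a b := by
    intro a b
    unfold gh
    field_simp
    ring
  have h3 : ∑ b, (∑ a, Sr (nu x) a i * dl a b) * Sr (nu x) b j = dl i j := by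
    rw [← Sr_sq (nu_sq hx) i j]
    refine Finset.sum_congr rfl fun b _ => ?_
    have e : ∀ a, Sr (nu x) a i * dl a b = dl b a * Sr (nu x) a i := fun a => by
      unfold dl; simp only [eq_comm]; ring
    rw [Finset.sum_congr rfl fun a _ => e a, dl_sum' (fun a => Sr (nu x) a i)]
  rw [g_eq g hx, ← h3]
  unfold gE
  simp only [jac_eq hx, h2, Fin.sum_univ_three]
  field_simp
  ring

/-- Ellipticity of the normalised metric. -/
theorem m_ell {g : TensorField} {x : E3} {C : ℝ} (hx : x ≠ 0)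
    (h : ∀ v : Cov, (∑ i, v i ^ 2) ≤ C * ev (inverted g (inversion x)) v v) (v : Cov) :
    (∑ i, v i ^ 2) ≤ C * ev (‖x‖ ^ 4 • g x) v v := by
  have hn : ‖x‖ ≠ 0 := norm_ne_zero_iff.2 hx
  have h1 := h (fun a => ∑ i, Sr (nu x) a i * v i)
  have h2 : (∑ a, (∑ i, Sr (nu x) a i * v i) ^ 2) = ∑ i, v i ^ 2 := by
    have e1 : (∑ a, (∑ i, Sr (nu x) a i * v i) ^ 2) =
        ∑ i, ∑ j, (∑ a, Sr (nu x) a i * Sr (nu x) a j) * v i * v j := by
      simp only [Fin.sum_univ_three]
      ring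
    rw [e1]
    simp only [Sr_sq (nu_sq hx)]
    simp only [Fin.sum_univ_three, dl]
    simp
    ring
  have h3 : ev (inverted g (inversion x)) (fun a => ∑ i, Sr (nu x) a i * v i)
      (fun a => ∑ i, Sr (nu x) a i * v i) = ev (‖x‖ ^ 4 • g x) v v := by
    unfold ev
    simp only [Matrix.smul_apply, smul_eq_mul, g_eq g hx, jac_eq hx, Fin.sum_univ_three]
    field_simp
    ring
  rw [h2, h3] at h1
  exact h1

end BARBm

open BARBm in
theorem BARB : Stmt_BARB := by
  intro C₀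
  set C : ℝ := |C₀| + 1 with hCdef
  have hC1 : 1 ≤ C := by rw [hCdef]; linarith [abs_nonneg C₀]
  have hCC : C₀ ≤ C := by rw [hCdef]; linarith [le_abs_self C₀]
  set A : ℝ := 100000 * C ^ 3 with hA
  have hC3 : 1 ≤ C ^ 3 := one_le_pow₀ hC1
  have hA1 : 1 ≤ A := by rw [hA]; linarith
  refine ⟨20000 * A ^ 6, by positivity, ?_⟩
  intro g h x hx hx1 hg hsymm hdec hell hns ε hε0 hε1
  have hn0 : 0 < ‖x‖ := norm_pos_iff.2 hx
  have hn : ‖x‖ ≠ 0 := hn0.ne'
  have hyn := HSM2.norm_inversion x hx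
  have hy1 : 1 ≤ ‖inversion x‖ := by
    rw [hyn]; exact (one_le_inv₀ hn0).2 hx1
  have hgx : (g x).PosDef := hg.posDef x hx
  -- bounds of the inverted metric
  have b1 : ∀ a b, |gh g x a b| ≤ C := by
    intro a b
    have h1 := (hdec _ hy1 a b).1
    rw [hyn, div_inv_eq_mul] at h1
    unfold gh
    rw [abs_div, abs_of_pos hn0, div_le_iff₀ hn0]
    have h2 : (1 : Bil) a b = dl a b := by
      unfold dl; rw [Matrix.one_apply]
    rw [h2] at h1
    exact h1.trans (mul_le_mul_of_nonneg_right hCC hn0.le)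
  have b2 : ∀ c a b, |gm g x c a b| ≤ C := by
    intro c a b
    have h1 := (hdec _ hy1 a b).2.1 c
    rw [hyn] at h1
    unfold gm
    rw [abs_div, abs_of_pos (by positivity : 0 < ‖x‖ ^ 2), div_le_iff₀ (by positivity)]
    refine h1.trans ?_
    rw [inv_pow, div_inv_eq_mul]
    exact mul_le_mul_of_nonneg_right hCC (by positivity)
  have hell1 : ∀ v : Cov, (∑ i, v i ^ 2) ≤ C * ev (inverted g (inversion x)) v v := by
    intro v
    have h1 := (hell _ hy1 v).1
    have h2 : 0 ≤ ev (inverted g (inversion x)) v v := by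
      by_cases hv : v = 0
      · subst hv
        unfold ev
        simp
      · exact (AFDaux.ev_posDef ((AFDaux.inverted_metric hg).posDef _
          (HSM2.inversion_ne x hx)) hv).le
    exact h1.trans (mul_le_mul_of_nonneg_right hCC h2)
  -- the normalised inverse metric
  set m : Bil := ‖x‖ ^ 4 • g x with hm
  have hmP : m.PosDef := hgx.smul (by positivity)
  have hmu : IsUnit m.det := hmP.det_pos.ne'.isUnit
  have hmE : ∀ i j, m i j = dl i j + ‖x‖ * gE g x i j := by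
    intro i j
    rw [hm, Matrix.smul_apply, smul_eq_mul, m_eq hx]
  have hPb : ∀ i j, |m⁻¹ i j| ≤ C :=
    HSM2.inv_bound m C (by linarith) (m_ell hx hell1) hmu
  have hinv : ∀ i j, (g x)⁻¹ i j = ‖x‖ ^ 4 * m⁻¹ i j := by
    intro i j
    have h1 : m * ((‖x‖ ^ 4)⁻¹ • (g x)⁻¹) = 1 := by
      rw [hm, Matrix.smul_mul, Matrix.mul_smul, smul_smul, mul_inv_cancel₀ (by positivity),
        one_smul, Matrix.mul_nonsing_inv _ hgx.det_pos.ne'.isUnit]
    rw [Matrix.inv_eq_right_inv h1, Matrix.smul_apply, smul_eq_mul]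
    field_simp
  set F : Fin 3 → Fin 3 → ℝ := fun i j => (m⁻¹ i j - dl i j) / ‖x‖ with hF
  have hPF : ∀ i j, m⁻¹ i j = dl i j + ‖x‖ * F i j := by
    intro i j
    simp only [hF]
    field_simp
    ring
  have hFe : ∀ i j, F i j = -∑ k, m⁻¹ i k * gE g x k j := by
    intro i j
    have h1 : (m⁻¹ * m) i j = (1 : Bil) i j := by rw [Matrix.nonsing_inv_mul _ hmu]
    rw [Matrix.mul_apply, Matrix.one_apply] at h1
    have h2 : ∑ k, m⁻¹ i k * m k j = m⁻¹ i j + ‖x‖ * ∑ k, m⁻¹ i k * gE g x k j := by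
      have h3 : ∑ k, dl j k * m⁻¹ i k = m⁻¹ i j := dl_sum' (fun k => m⁻¹ i k) j
      rw [← h3, Finset.mul_sum, ← Finset.sum_add_distrib]
      refine Finset.sum_congr rfl fun k _ => ?_
      rw [hmE]
      have : dl k j = dl j k := by unfold dl; simp only [eq_comm]
      rw [this]; ring
    rw [h2] at h1
    have h4 : (if i = j then (1 : ℝ) else 0) = dl i j := rfl
    rw [h4] at h1
    simp only [hF]
    field_simp
    linarith
  have hFb : ∀ i j, |F i j| ≤ A := by
    intro i j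
    rw [hFe, abs_neg]
    refine (sum1_le fun k => mul_le (hPb i k) (gE_le hx b1 k j)).trans ?_
    rw [hA]
    nlinarith [pow_le_pow_right₀ hC1 (show 2 ≤ 3 by norm_num)]
  -- the derivatives
  set D : Fin 3 → Fin 3 → Fin 3 → ℝ := fun k i j => ‖x‖ ^ 5 * pd k (fun y => g y i j) x with hD
  have hDe : ∀ k i j, D k i j = -4 * nu x k * dl i j + ‖x‖ * Eh g x k i j := fun k i j =>
    D_eq hg hx k i j
  have hEb : ∀ k i j, |Eh g x k i j| ≤ A := by
    intro k i j
    refine (Eh_le hx b1 b2 k i j).trans ?_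
    rw [hA]
    nlinarith [pow_le_pow_right₀ hC1 (show 1 ≤ 3 by norm_num)]
  -- lower bound
  have hmb : ∀ i j, |m i j| ≤ 82 * C := by
    intro i j
    rw [hmE]
    refine (add_le (dl_le i j) (mul_le (show |‖x‖| ≤ 1 by rwa [abs_of_pos hn0])
      (gE_le hx b1 i j))).trans ?_
    linarith
  have hlow : ∀ p : Cov, vsq p ≤ 246 * C * ev m⁻¹ p p := by
    intro p
    have := MCT.ev_lower hmP (by linarith) hmb p
    refine this.trans (le_of_eq ?_)
    ring
  set L : ℝ := ∑ i, nu x i * vv (nu x) (fun i j => m⁻¹ i j) i with hL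
  have hLe : ev m⁻¹ (nu x) (nu x) = L := by
    rw [hL]
    unfold ev vv
    refine Finset.sum_congr rfl fun i _ => ?_
    rw [Finset.mul_sum]
    refine Finset.sum_congr rfl fun j _ => ?_
    ring
  have hLA : 1 / A ≤ L := by
    have h1 := hlow (nu x)
    have h2 : vsq (nu x) = 1 := by
      unfold vsq
      rw [Fin.sum_univ_three]
      exact nu_sq hx
    rw [h2, hLe] at h1
    have hL0 : 0 < L := by
      by_contra hcon
      push Not at hcon
      nlinarith
    rw [div_le_iff₀ (by linarith)]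
    have : 246 * C ≤ A := by
      rw [hA]
      nlinarith [pow_le_pow_right₀ hC1 (show 1 ≤ 3 by norm_num)]
    nlinarith
  have hL0 : 0 < L := lt_of_lt_of_le (by positivity) hLA
  -- the tensor h
  set h' : Fin 3 → Fin 3 → ℝ := fun i j => ‖x‖ ^ 2 * h x i j with hh'
  have hhb : ∀ i j, |h' i j| ≤ A := by
    obtain ⟨Q, hQ⟩ := MCT.factor hmP.inv.posSemidef
    have hQ' : ((fun _ : E3 => m) x)⁻¹ = Q.transpose * Q := hQ
    have e1 := MCT.nsq_factor (g := fun _ => m) (x := x) hQ' (h x)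
    have e2 := MCT.rows_factor (g := fun _ => m) (x := x) hQ' (h x)
    have e3 : nsq g x (h x) = ‖x‖ ^ 8 * nsq (fun _ => m) x (h x) := by
      unfold nsq
      simp only [hinv, Finset.mul_sum]
      refine Finset.sum_congr rfl fun i _ => Finset.sum_congr rfl fun j _ =>
        Finset.sum_congr rfl fun k _ => Finset.sum_congr rfl fun l _ => ?_
      ring
    have e4 : msq (h x) ≤ (246 * C) ^ 2 * nsq (fun _ => m) x (h x) := by
      have f1 : msq (h x) ≤ 246 * C * ∑ i, ev m⁻¹ (h x i) (h x i) := by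
        unfold msq
        rw [Finset.mul_sum]
        refine Finset.sum_le_sum fun i _ => ?_
        exact hlow (h x i)
      have f2 : ∑ i, ev m⁻¹ (h x i) (h x i) ≤ 246 * C * nsq (fun _ => m) x (h x) := by
        rw [e1, Finset.mul_sum]
        change ∑ i, ev ((fun _ : E3 => m) x)⁻¹ (h x i) (h x i) ≤ _
        rw [← e2]
        exact Finset.sum_le_sum fun i _ => hlow _
      calc msq (h x) ≤ 246 * C * ∑ i, ev m⁻¹ (h x i) (h x i) := f1
        _ ≤ 246 * C * (246 * C * nsq (fun _ => m) x (h x)) :=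
          mul_le_mul_of_nonneg_left f2 (by linarith)
        _ = _ := by ring
    have e5 : ‖x‖ ^ 8 * nsq (fun _ => m) x (h x) ≤ C * ‖x‖ ^ 4 := by
      rw [← e3]
      exact hns.trans (mul_le_mul_of_nonneg_right hCC (by positivity))
    have e6 : ‖x‖ ^ 4 * nsq (fun _ => m) x (h x) ≤ C := by
      have : ‖x‖ ^ 4 * (‖x‖ ^ 4 * nsq (fun _ => m) x (h x)) ≤ ‖x‖ ^ 4 * C := by
        calc _ = ‖x‖ ^ 8 * nsq (fun _ => m) x (h x) := by ring
          _ ≤ C * ‖x‖ ^ 4 := e5
          _ = _ := by ring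
      exact le_of_mul_le_mul_left this (by positivity)
    intro i j
    have e7 : h x i j ^ 2 ≤ msq (h x) := by
      unfold msq
      calc h x i j ^ 2 ≤ ∑ j, h x i j ^ 2 :=
            Finset.single_le_sum (f := fun j => h x i j ^ 2) (fun k _ => sq_nonneg _)
              (Finset.mem_univ j)
        _ ≤ _ := Finset.single_le_sum (f := fun i => ∑ j, h x i j ^ 2)
              (fun k _ => Finset.sum_nonneg fun l _ => sq_nonneg _) (Finset.mem_univ i)
    have e8 : h' i j ^ 2 ≤ (246 * C) ^ 2 * C := by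
      simp only [hh']
      calc (‖x‖ ^ 2 * h x i j) ^ 2 = ‖x‖ ^ 4 * h x i j ^ 2 := by ring
        _ ≤ ‖x‖ ^ 4 * ((246 * C) ^ 2 * nsq (fun _ => m) x (h x)) :=
          mul_le_mul_of_nonneg_left (e7.trans e4) (by positivity)
        _ = (246 * C) ^ 2 * (‖x‖ ^ 4 * nsq (fun _ => m) x (h x)) := by ring
        _ ≤ _ := mul_le_mul_of_nonneg_left e6 (by positivity)
    refine abs_le_of_sq_le_sq ?_ (by linarith)
    refine e8.trans ?_
    rw [hA]
    have : (246 * C) ^ 2 * C = 60516 * C ^ 3 := by ring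
    rw [this]
    nlinarith
  -- the Hessian
  have hH : ∀ i j, cHess g x (nu x) (hess2 rad x) i j =
      1 / ‖x‖ * Hh (nu x) (fun i j => m⁻¹ i j) D i j := by
    intro i j
    unfold cHess Hh
    rw [Matrix.of_apply, hess_rad hx]
    have e1 : ∀ k, christoffel g k i j x =
        1 / ‖x‖ * (1 / 2 * ∑ l, m⁻¹ k l * Tt D i j l) := by
      intro k
      unfold christoffel Tt
      simp only [hinv, hD, Fin.sum_univ_three]
      field_simp
    simp only [e1, Fin.sum_univ_three]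
    ring
  have key := barB_eq (ε := ε) (h := h) (h' := h') hn0 hL hL0 hinv (grad_rad hx) hH
    (fun i j => by simp only [hh']; field_simp)
  rw [key]
  exact core hA1 hn0 hx1 (nu_sq hx) hPF hDe hFb hEb hhb hL hLA hε0 hε1

end Pool.Agent.PFlow
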