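import Pool.Agent.PFlow.StmtsE2

/-!
# LOCU: location of the level sets, uniformly in `ε`
-/

open MeasureTheory Filter Topology
open scoped ContDiff

namespace Pool.Agent.PFlow

open Pool.Agent.PenroseSph

namespace LOCU

/-- The closed annulus is compact. -/
theorem isCompact_cAnn (a b : ℝ) : IsCompact (cAnn a b) := by
  have h1 : IsClosed (cAnn a b) := by
    have : cAnn a b = {x : E3 | a ≤ ‖x‖} ∩ {x : E3 | ‖x‖ ≤ b} := by
      ext x; simp [cAnn]
    rw [this]
    exact (isClosed_le continuous_const continuous_norm).inter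
      (isClosed_le continuous_norm continuous_const)
  refine IsCompact.of_isClosed_subset (isCompact_closedBall (0 : E3) b) h1 ?_
  intro x hx
  simpa [Metric.mem_closedBall, dist_zero_right] using hx.2

/-- The frontier of the closed annulus. -/
theorem frontier_cAnn {a b : ℝ} {x : E3} (hx : x ∈ frontier (cAnn a b)) :
    ‖x‖ = a ∨ ‖x‖ = b := by
  have hcl : x ∈ cAnn a b := (isCompact_cAnn a b).isClosed.frontier_subset hx
  by_contra hcon
  rw [not_or] at hcon
  obtain ⟨h1, h2⟩ := hcon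
  have ha : a < ‖x‖ := lt_of_le_of_ne hcl.1 (Ne.symm h1)
  have hb : ‖x‖ < b := lt_of_le_of_ne hcl.2 h2
  have hopen : IsOpen (Ann a b) := by
    have : Ann a b = {x : E3 | a < ‖x‖} ∩ {x : E3 | ‖x‖ < b} := by
      ext x; simp [Ann]
    rw [this]
    exact (isOpen_lt continuous_const continuous_norm).inter
      (isOpen_lt continuous_norm continuous_const)
  have hsub : Ann a b ⊆ cAnn a b := fun y hy => ⟨hy.1.le, hy.2.le⟩
  have hint : x ∈ interior (cAnn a b) := interior_maximal hsub hopen ⟨ha, hb⟩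
  exact hx.2 hint

/-- The gradient of `k f + c`. -/
theorem grad_affine {f : E3 → ℝ} {x : E3} (k c : ℝ) (hf : DifferentiableAt ℝ f x) :
    grad (fun y => k * f y + c) x = k • grad f x := by
  funext i
  have h1 : HasFDerivAt (fun y => k * f y + c) (k • fderiv ℝ f x) x :=
    (hf.hasFDerivAt.const_mul k).add_const c
  simp only [grad, pd, h1.fderiv, Pi.smul_apply]
  simp

/-- The barrier integrals are strictly decreasing. -/
theorem strictAnti (hPHI : Stmt_PHI) {ε C σ : ℝ} (hε : 0 < ε) (hε2 : ε ≤ 1 / 2) (hC : 0 ≤ C)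
    (hσ : σ = 1 ∨ σ = -1) : StrictAntiOn (phiB ε σ C) (Set.Ioi 0) := by
  obtain ⟨-, h2, -⟩ := hPHI ε C σ hε hε2 hC hσ
  apply strictAntiOn_of_deriv_neg (convex_Ioi 0)
  · intro r hr
    exact (h2 r hr).2.1.continuousAt.continuousWithinAt
  · intro r hr
    rw [interior_Ioi] at hr
    rw [(h2 r hr).2.1.deriv]
    have := (h2 r hr).1
    linarith

/-- Comparison with the lower barrier. -/
theorem lower (hPHI : Stmt_PHI) (hBARR : Stmt_BARR) {ε C R η : ℝ} {g h : TensorField}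
    {u : E3 → ℝ} {G : E3 → Cov} {M : E3 → Bil} (hC : 0 < C) (hε : 0 < ε) (hε2 : ε ≤ 1 / 2)
    (hR : 2 ≤ R) (hη1 : η < 1) (hg : MetricOn Set.univ g)
    (hbar : ∀ x : E3, 1 / (8 * R) ≤ ‖x‖ → |barB ε g h x - bE ε ‖x‖| ≤ C / (1 + ‖x‖ ^ 2))
    (hsol : Solution ε (1 / R) R η g h u G M) {x : E3} (hx : x ∈ cAnn (1 / (2 * R)) R) :
    (1 - η) * (phiB ε 1 (C + 1) ‖x‖ - phiB ε 1 (C + 1) R)
      ≤ u x * (phiB ε 1 (C + 1) (1 / (2 * R)) - phiB ε 1 (C + 1) R) := by
  have hR0 : 0 < R := by linarith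
  have ha0 : 0 < 1 / (2 * R) := by positivity
  have hanti := strictAnti hPHI hε hε2 (by linarith : 0 ≤ C + 1) (Or.inl rfl)
  have hlt : 1 / (2 * R) < R := by
    rw [div_lt_iff₀ (by positivity)]
    nlinarith
  have hD : 0 < phiB ε 1 (C + 1) (1 / (2 * R)) - phiB ε 1 (C + 1) R := by
    have := hanti (Set.mem_Ioi.2 ha0) (Set.mem_Ioi.2 hR0) hlt
    linarith
  set D := phiB ε 1 (C + 1) (1 / (2 * R)) - phiB ε 1 (C + 1) R with hDdef
  set k := (1 - η) / D with hk
  have hkpos : 0 < k := div_pos (by linarith) hD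
  have hmain := hsol.sub (cAnn (1 / (2 * R)) R) (isCompact_cAnn _ _)
    (fun y hy => ⟨by have := hy.1; rw [show 1 / R / 2 = 1 / (2 * R) by field_simp]; exact this,
      hy.2⟩)
    (fun y => k * (phiB ε 1 (C + 1) ‖y‖ - phiB ε 1 (C + 1) R))
  have hpt : ∀ y ∈ cAnn (1 / (2 * R)) R, ContDiffAt ℝ 2 (fun y : E3 => phiB ε 1 (C + 1) ‖y‖) y ∧
      grad (fun y : E3 => phiB ε 1 (C + 1) ‖y‖) y ≠ 0 ∧
      0 < opN ε g h (fun y : E3 => k * (phiB ε 1 (C + 1) ‖y‖ - phiB ε 1 (C + 1) R)) y := by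
    intro y hy
    have hy0 : y ≠ 0 := by
      intro h0
      have := hy.1
      rw [h0, norm_zero] at this
      linarith
    have hb : 1 / (8 * R) ≤ ‖y‖ := by
      refine le_trans ?_ hy.1
      apply one_div_le_one_div_of_le (by positivity)
      linarith
    obtain ⟨h1, h2, h3, -⟩ := hBARR ε C g h y hε hε2 hC.le hy0 (hg.posDef y (Set.mem_univ y))
      (hbar y hb) 1 (Or.inl rfl)
    exact ⟨h1, h2, h3 rfl k _ hkpos⟩
  have h4 := hmain (fun y hy => contDiffAt_const.mul ((hpt y hy).1.sub contDiffAt_const)) ?_ ?_ x hx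
  · rw [hk, div_mul_eq_mul_div, div_le_iff₀ hD] at h4
    exact h4
  · intro y hy
    refine ⟨?_, (hpt y hy).2.2⟩
    have hd : DifferentiableAt ℝ (fun y : E3 => phiB ε 1 (C + 1) ‖y‖) y :=
      (hpt y hy).1.differentiableAt (by norm_num)
    have hg2 := grad_affine k (-(k * phiB ε 1 (C + 1) R)) hd
    have heq : (fun y : E3 => k * (phiB ε 1 (C + 1) ‖y‖ - phiB ε 1 (C + 1) R))
        = fun y : E3 => k * phiB ε 1 (C + 1) ‖y‖ + -(k * phiB ε 1 (C + 1) R) := by
      funext y; ring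
    rw [heq, hg2]
    exact smul_ne_zero hkpos.ne' (hpt y hy).2.1
  · intro y hy
    rcases frontier_cAnn hy with h5 | h5
    · show k * (phiB ε 1 (C + 1) ‖y‖ - phiB ε 1 (C + 1) R) ≤ u y
      rw [h5, ← hDdef, hk, div_mul_cancel₀ _ hD.ne']
      apply hsol.inner
      rw [h5]
      exact (by field_simp : 1 / (2 * R) = 1 / R / 2).le
    · show k * (phiB ε 1 (C + 1) ‖y‖ - phiB ε 1 (C + 1) R) ≤ u y
      rw [h5, sub_self, mul_zero]
      exact hsol.nonneg y

/-- Comparison with the upper barrier. -/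
theorem upper (hPHI : Stmt_PHI) (hBARR : Stmt_BARR) {ε C R η : ℝ} {g h : TensorField}
    {u : E3 → ℝ} {G : E3 → Cov} {M : E3 → Bil} (hC : 0 < C) (hε : 0 < ε) (hε2 : ε ≤ 1 / 2)
    (hR : 2 ≤ R) (hη : 0 < η) (hg : MetricOn Set.univ g)
    (hbar : ∀ x : E3, 1 / (8 * R) ≤ ‖x‖ → |barB ε g h x - bE ε ‖x‖| ≤ C / (1 + ‖x‖ ^ 2))
    (hsol : Solution ε (1 / R) R η g h u G M) (hpos1 : 0 < phiB ε (-1) (C + 1) (1 / R))
    (hpos2 : 0 < phiB ε (-1) (C + 1) (2 * R)) {x : E3} (hx : x ∈ cAnn (1 / R) (2 * R)) :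
    u x ≤ phiB ε (-1) (C + 1) ‖x‖ / phiB ε (-1) (C + 1) (1 / R) + η := by
  have hR0 : 0 < R := by linarith
  have ha0 : 0 < 1 / R := by positivity
  set k := 1 / phiB ε (-1) (C + 1) (1 / R) with hk
  have hkpos : 0 < k := div_pos one_pos hpos1
  have hmain := hsol.super (cAnn (1 / R) (2 * R)) (isCompact_cAnn _ _)
    (fun y hy => ⟨hy.1, hy.2⟩)
    (fun y => k * phiB ε (-1) (C + 1) ‖y‖ + η)
  have hpt : ∀ y ∈ cAnn (1 / R) (2 * R),
      ContDiffAt ℝ 2 (fun y : E3 => phiB ε (-1) (C + 1) ‖y‖) y ∧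
      grad (fun y : E3 => phiB ε (-1) (C + 1) ‖y‖) y ≠ 0 ∧
      opN ε g h (fun y : E3 => k * phiB ε (-1) (C + 1) ‖y‖ + η) y < 0 := by
    intro y hy
    have hy0 : y ≠ 0 := by
      intro h0
      have := hy.1
      rw [h0, norm_zero] at this
      linarith
    have hb : 1 / (8 * R) ≤ ‖y‖ := by
      refine le_trans ?_ hy.1
      apply one_div_le_one_div_of_le (by positivity)
      linarith
    obtain ⟨h1, h2, -, h3⟩ := hBARR ε C g h y hε hε2 hC.le hy0 (hg.posDef y (Set.mem_univ y))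
      (hbar y hb) (-1) (Or.inr rfl)
    exact ⟨h1, h2, h3 rfl k _ hkpos⟩
  have h4 := hmain (fun y hy => (contDiffAt_const.mul (hpt y hy).1).add contDiffAt_const) ?_ ?_ x hx
  · rw [hk, div_mul_eq_mul_div, one_mul] at h4
    exact h4
  · intro y hy
    refine ⟨?_, (hpt y hy).2.2⟩
    have hd : DifferentiableAt ℝ (fun y : E3 => phiB ε (-1) (C + 1) ‖y‖) y :=
      (hpt y hy).1.differentiableAt (by norm_num)
    rw [grad_affine k η hd]
    exact smul_ne_zero hkpos.ne' (hpt y hy).2.1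
  · intro y hy
    rcases frontier_cAnn hy with h5 | h5
    · show u y ≤ k * phiB ε (-1) (C + 1) ‖y‖ + η
      rw [h5, hk, div_mul_cancel₀ _ hpos1.ne']
      have := hsol.le_one y
      linarith
    · show u y ≤ k * phiB ε (-1) (C + 1) ‖y‖ + η
      have h6 : 0 < k * phiB ε (-1) (C + 1) ‖y‖ := by
        rw [h5]; exact mul_pos hkpos hpos2
      have := hsol.outer y h5.ge
      linarith

end LOCU

open LOCU in
/-- **LOCU**: location of the level sets, uniformly in `ε`. -/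
theorem LOCU (hPHI : Stmt_PHI) (hBARR : Stmt_BARR) : Stmt_LOCU := by
  intro C hC
  have hπ := Real.pi_pos
  set Q := Real.exp ((C + 1) * Real.pi) with hQ
  have hQ0 : 0 < Q := Real.exp_pos _
  have hQ1 : 1 ≤ Q := Real.one_le_exp (by positivity)
  have he1 : 1 < Real.exp 1 := by
    have := Real.add_one_lt_exp (one_ne_zero)
    linarith
  have he3 : Real.exp 1 < 3 := Real.exp_one_lt_three
  have he0 : 0 < Real.exp 1 := Real.exp_pos _
  refine ⟨1 / (8 * Q), 8 * (Real.exp 1 * Q), by positivity, ?_, ?_, ?_⟩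
  · rw [div_lt_one (by positivity)]
    linarith
  · nlinarith
  intro ε hε hε2
  refine ⟨8, ?_⟩
  intro R hR η g h u G M hη hηR hg hbar hsol x hx
  have hR0 : 0 < R := by linarith
  set p := pe ε with hp
  have hpdef : p = 2 / ε - 1 := rfl
  have hinv : 2 ≤ 1 / ε := by
    rw [le_div_iff₀ hε]; linarith
  have hp3 : 3 ≤ p := by
    rw [hpdef, show 2 / ε = 2 * (1 / ε) by ring]; linarith
  have hp0 : 0 < p := by linarith
  have hεp : 1 / ε ≤ p := by
    rw [hpdef, show 2 / ε = 2 * (1 / ε) by ring]; linarith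
  -- the exponential
  set E := Real.exp ((C + 1) * Real.pi / (2 * ε)) with hE
  have hE0 : 0 < E := Real.exp_pos _
  have hEneg : Real.exp (-((C + 1) * Real.pi / (2 * ε))) = E⁻¹ := by
    rw [Real.exp_neg]
  have hE2 : E ^ 2 ≤ Q ^ p := by
    rw [hE, ← Real.exp_nat_mul, hQ, ← Real.exp_mul]
    apply Real.exp_le_exp.2
    have : ((2 : ℕ) : ℝ) * ((C + 1) * Real.pi / (2 * ε)) = (C + 1) * Real.pi * (1 / ε) := by
      push_cast; field_simp
    rw [this]
    exact mul_le_mul_of_nonneg_left hεp (by positivity)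
  -- bounds for powers
  have hep : Real.exp (-p) = (Real.exp 1) ^ (-p) := by
    rw [← Real.exp_mul, one_mul]
  have h8p : (8 : ℝ) ^ (-p) ≤ Real.exp (-p) := by
    rw [hep]
    exact Real.rpow_le_rpow_of_nonpos he0 (by linarith) (by linarith)
  have hη8 : η ≤ Real.exp (-p) / 8 := by
    refine hηR.trans ?_
    have h1 : R ^ (-p - 1) ≤ (8 : ℝ) ^ (-p - 1) :=
      Real.rpow_le_rpow_of_nonpos (by norm_num) hR (by linarith)
    have h2 : (8 : ℝ) ^ (-p - 1) = 8 ^ (-p) / 8 := by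
      rw [Real.rpow_sub (by norm_num), Real.rpow_one]
    rw [h2] at h1
    refine h1.trans ?_
    gcongr
  have hexpp : Real.exp (-p) ≤ 1 := Real.exp_le_one_iff.2 (by linarith)
  have hη1 : η ≤ 1 / 8 := by linarith
  have h4p : (4 : ℝ) ^ (-p) ≤ 1 / 64 := by
    have h1 : (4 : ℝ) ^ (-p) ≤ (4 : ℝ) ^ (-(3 : ℝ)) :=
      Real.rpow_le_rpow_of_exponent_le (by norm_num) (by linarith)
    refine h1.trans ?_
    rw [Real.rpow_neg (by norm_num), show (3 : ℝ) = ((3 : ℕ) : ℝ) by norm_num,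
      Real.rpow_natCast]
    norm_num
  have hC1 : 0 ≤ C + 1 := by linarith
  -- the barrier integrals
  obtain ⟨-, -, -, hPp1, hPp2⟩ := hPHI ε (C + 1) 1 hε hε2 hC1 (Or.inl rfl)
  obtain ⟨-, -, -, hPm1, hPm2⟩ := hPHI ε (C + 1) (-1) hε hε2 hC1 (Or.inr rfl)
  have hantip := strictAnti hPHI hε hε2 hC1 (Or.inl rfl)
  have hantim := strictAnti hPHI hε hε2 hC1 (Or.inr rfl)
  rw [hEneg] at hPp1 hPp2 hPm1 hPm2
  have hposm : ∀ r, 1 ≤ r → 0 < phiB ε (-1) (C + 1) r := by
    intro r hr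
    refine lt_of_lt_of_le ?_ (hPm1 r hr).1
    have : 0 < r := by linarith
    positivity
  have hposp : ∀ r, 1 ≤ r → 0 < phiB ε 1 (C + 1) r := by
    intro r hr
    refine lt_of_lt_of_le ?_ (hPp1 r hr).1
    have : 0 < r := by linarith
    positivity
  have h2p : (0 : ℝ) < 2 ^ (-p) := by positivity
  have hhalf : ∀ a : ℝ, 0 ≤ a → a ≤ 1 / 8 → a ^ p ≤ 1 / 2 := by
    intro a ha ha2
    have h1 : a ^ p ≤ (1 / 8 : ℝ) ^ p := Real.rpow_le_rpow ha ha2 hp0.le
    have h2 : (1 / 8 : ℝ) ^ p ≤ (1 / 8 : ℝ) ^ (1 : ℝ) :=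
      Real.rpow_le_rpow_of_exponent_ge (by norm_num) (by norm_num) (by linarith)
    rw [Real.rpow_one] at h2
    linarith
  have hxpos : 0 < ‖x‖ := lt_trans (by positivity) hx.1
  have hupos : 0 < u x ∧ (‖x‖ ≤ 1 / (8 * Q) → 1 / 2 < u x) := by
    have ha0 : 0 < 1 / (2 * R) := by positivity
    have haR : 1 / (2 * R) ≤ 1 / 8 := by
      apply one_div_le_one_div_of_le (by norm_num); linarith
    have hxa : 1 / (2 * R) ≤ ‖x‖ := by
      refine le_trans ?_ hx.1.le
      apply one_div_le_one_div_of_le hR0; linarith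
    have hlow := lower hPHI hBARR hC hε hε2 (by linarith) (by linarith : η < 1) hg hbar hsol
      (x := x) ⟨hxa, hx.2.le⟩
    set A := phiB ε 1 (C + 1) (1 / (2 * R)) with hA
    set B := phiB ε 1 (C + 1) R with hB
    set X := phiB ε 1 (C + 1) ‖x‖ with hX
    have hXB : B < X := hantip (Set.mem_Ioi.2 hxpos) (Set.mem_Ioi.2 hR0) hx.2
    have hAB : B < A := hantip (Set.mem_Ioi.2 ha0) (Set.mem_Ioi.2 hR0) (by linarith)
    have hup : 0 < u x := by
      by_contra hcon
      have h1 : u x * (A - B) ≤ 0 := mul_nonpos_of_nonpos_of_nonneg (not_lt.1 hcon) (by linarith)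
      have h2 : 0 < (1 - η) * (X - B) := mul_pos (by linarith) (by linarith)
      linarith
    refine ⟨hup, ?_⟩
    intro hxρ
    have hx1 : ‖x‖ ≤ 1 := by
      refine hxρ.trans ?_
      rw [div_le_one (by positivity)]; linarith
    -- numerator
    have hnum : A - X ≤ E * ‖x‖ ^ p / p := by
      refine (hPp2 _ _ ha0.le hxa hx1).2.trans ?_
      have : 0 ≤ (1 / (2 * R)) ^ p := by positivity
      gcongr
      linarith
    -- denominator
    have hden : 2 ^ (-p) * E⁻¹ * (1 / 2) / p ≤ A - B := by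
      have h1 := (hPp2 _ _ ha0.le (by linarith : 1 / (2 * R) ≤ 1) le_rfl).1
      have h2 : phiB ε 1 (C + 1) R ≤ phiB ε 1 (C + 1) 1 :=
        hantip.antitoneOn (Set.mem_Ioi.2 one_pos) (Set.mem_Ioi.2 hR0) (by linarith)
      have h3 := hhalf _ ha0.le haR
      have h4 : 2 ^ (-p) * E⁻¹ * (1 / 2) / p
          ≤ 2 ^ (-p) * E⁻¹ * (1 ^ p - (1 / (2 * R)) ^ p) / p := by
        gcongr
        rw [Real.one_rpow]; linarith
      linarith
    -- quotient
    have hq : A - X ≤ 1 / 4 * (A - B) := by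
      have h1 : E * ‖x‖ ^ p / p ≤ 1 / 4 * (2 ^ (-p) * E⁻¹ * (1 / 2) / p) := by
        have h2 : ‖x‖ ^ p ≤ (1 / (8 * Q)) ^ p := Real.rpow_le_rpow hxpos.le hxρ hp0.le
        have h3 : (1 / (8 * Q)) ^ p = 2 ^ (-p) * 4 ^ (-p) * (Q ^ p)⁻¹ := by
          rw [show 1 / (8 * Q) = (2 : ℝ)⁻¹ * 4⁻¹ * Q⁻¹ by field_simp; norm_num,
            Real.mul_rpow (by positivity) (by positivity),
            Real.mul_rpow (by positivity) (by positivity),
            Real.inv_rpow (by positivity), Real.inv_rpow (by positivity),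
            Real.inv_rpow hQ0.le, Real.rpow_neg (by norm_num), Real.rpow_neg (by norm_num)]
        have hQp : 0 < Q ^ p := by positivity
        have h4 : (Q ^ p)⁻¹ ≤ (E ^ 2)⁻¹ := inv_anti₀ (by positivity) hE2
        have h5 : E * ‖x‖ ^ p ≤ E * (2 ^ (-p) * (1 / 64) * (E ^ 2)⁻¹) := by
          rw [h3] at h2
          gcongr
          refine h2.trans ?_
          gcongr
        have h6 : E * (2 ^ (-p) * (1 / 64) * (E ^ 2)⁻¹) = 1 / 64 * (2 ^ (-p) * E⁻¹) := by
          field_simp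
        rw [h6] at h5
        have h7 : 1 / 4 * (2 ^ (-p) * E⁻¹ * (1 / 2) / p) = 1 / 8 * (2 ^ (-p) * E⁻¹) / p := by
          ring
        rw [h7]
        have h8 : 0 < 2 ^ (-p) * E⁻¹ := by positivity
        exact div_le_div_of_nonneg_right (by linarith) hp0.le
      have h2 : 1 / 4 * (2 ^ (-p) * E⁻¹ * (1 / 2) / p) ≤ 1 / 4 * (A - B) := by
        gcongr
      linarith
    have h1 : 3 / 4 * (A - B) ≤ X - B := by linarith
    have h2 : 7 / 8 * (3 / 4 * (A - B)) ≤ (1 - η) * (X - B) := by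
      apply mul_le_mul (by linarith) h1 (by nlinarith) (by linarith)
    have h3 : 21 / 32 * (A - B) ≤ u x * (A - B) := by linarith
    have h4 : 21 / 32 ≤ u x := le_of_mul_le_mul_right h3 (by linarith)
    linarith
  constructor
  · intro hxρ
    have h1 := hupos.2 hxρ
    have h2 : -1 < Real.log (u x) := by
      rw [Real.lt_log_iff_exp_lt hupos.1]
      refine lt_of_le_of_lt ?_ h1
      rw [Real.exp_neg, inv_le_comm₀ he0 (by norm_num)]
      have := Real.exp_one_gt_d9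
      norm_num
      linarith
    show -ε * Real.log (u x) < ε
    nlinarith
  · intro hxr
    have hx1 : 1 ≤ ‖x‖ := by
      refine le_trans ?_ hxr
      nlinarith
    have hpR : 0 < phiB ε (-1) (C + 1) (1 / R) := by
      have h1 : phiB ε (-1) (C + 1) 1 ≤ phiB ε (-1) (C + 1) (1 / R) := by
        apply hantim.antitoneOn (Set.mem_Ioi.2 (by positivity)) (Set.mem_Ioi.2 one_pos)
        rw [div_le_one hR0]; linarith
      exact lt_of_lt_of_le (hposm 1 le_rfl) h1
    have hup := upper hPHI hBARR hC hε hε2 (by linarith) hη hg hbar hsol hpR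
      (hposm _ (by linarith)) (x := x) ⟨hx.1.le, by linarith [hx.2]⟩
    have hden : 2 ^ (-p) * E⁻¹ * (1 / 2) / p ≤ phiB ε (-1) (C + 1) (1 / R) := by
      have haR : 1 / R ≤ 1 / 8 := one_div_le_one_div_of_le (by norm_num) hR
      have h1 := (hPm2 (1 / R) 1 (by positivity) (by linarith) le_rfl).1
      have h2 := hposm 1 le_rfl
      have h3 := hhalf (1 / R) (by positivity) haR
      have h4 : 2 ^ (-p) * E⁻¹ * (1 / 2) / p
          ≤ 2 ^ (-p) * E⁻¹ * (1 ^ p - (1 / R) ^ p) / p := by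
        gcongr
        rw [Real.one_rpow]; linarith
      linarith
    have hnum : phiB ε (-1) (C + 1) ‖x‖ ≤ E * ‖x‖ ^ (-p) / p := (hPm1 ‖x‖ hx1).2
    have hnum2 : E * ‖x‖ ^ (-p) / p
        ≤ Real.exp (-p) / 8 * (2 ^ (-p) * E⁻¹ * (1 / 2) / p) := by
      have h2 : ‖x‖ ^ (-p) ≤ (8 * (Real.exp 1 * Q)) ^ (-p) :=
        Real.rpow_le_rpow_of_nonpos (by positivity) hxr (by linarith)
      have h3 : (8 * (Real.exp 1 * Q)) ^ (-p) = 2 ^ (-p) * 4 ^ (-p) * (Real.exp (-p) * (Q ^ p)⁻¹) := by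
        rw [show 8 * (Real.exp 1 * Q) = 2 * 4 * (Real.exp 1 * Q) by ring,
          Real.mul_rpow (by positivity) (by positivity),
          Real.mul_rpow (by positivity) (by positivity),
          Real.mul_rpow (by positivity) (by positivity), ← hep, Real.rpow_neg hQ0.le]
      have hQp : 0 < Q ^ p := by positivity
      have h4 : (Q ^ p)⁻¹ ≤ (E ^ 2)⁻¹ := inv_anti₀ (by positivity) hE2
      have hexp0 := Real.exp_pos (-p)
      have h5 : E * ‖x‖ ^ (-p) ≤ E * (2 ^ (-p) * (1 / 64) * (Real.exp (-p) * (E ^ 2)⁻¹)) := by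
        rw [h3] at h2
        gcongr
        refine h2.trans ?_
        gcongr
      have h6 : E * (2 ^ (-p) * (1 / 64) * (Real.exp (-p) * (E ^ 2)⁻¹))
          = 1 / 64 * (Real.exp (-p) * (2 ^ (-p) * E⁻¹)) := by
        field_simp
      rw [h6] at h5
      have h7 : Real.exp (-p) / 8 * (2 ^ (-p) * E⁻¹ * (1 / 2) / p)
          = 1 / 16 * (Real.exp (-p) * (2 ^ (-p) * E⁻¹)) / p := by
        ring
      rw [h7]
      have h8 : 0 < Real.exp (-p) * (2 ^ (-p) * E⁻¹) := by positivity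
      exact div_le_div_of_nonneg_right (by linarith) hp0.le
    have hratio : phiB ε (-1) (C + 1) ‖x‖ / phiB ε (-1) (C + 1) (1 / R) ≤ Real.exp (-p) / 8 := by
      rw [div_le_iff₀ hpR]
      refine hnum.trans (hnum2.trans ?_)
      have hexp0 := Real.exp_pos (-p)
      gcongr
    have hexp0 := Real.exp_pos (-p)
    have hux : u x < Real.exp (-p) := by linarith
    have h1 : Real.log (u x) < -p := by
      rw [Real.log_lt_iff_lt_exp hupos.1]
      exact hux
    have h2 : Real.log (u x) < -(1 / ε) := by linarith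
    show 1 < -ε * Real.log (u x)
    have h3 : ε * Real.log (u x) < ε * -(1 / ε) := mul_lt_mul_of_pos_left h2 hε
    have h4 : ε * -(1 / ε) = -1 := by field_simp
    linarith

end Pool.Agent.PFlow
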