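import Pool.Agent.PFlow.StmtsE1
import Pool.Agent.PenroseSph.Calc

/-!
# The coefficient of the radial equation at the special end (module BARA)
-/

open MeasureTheory Filter Topology
open scoped ContDiff

namespace Pool.Agent.PFlow

open Pool.Agent.PenroseSph

namespace EBARA

theorem s1 {f : Fin 3 → ℝ} {c : ℝ} (h : ∀ i, |f i| ≤ c) : |∑ i, f i| ≤ 3 * c := by
  refine (Finset.abs_sum_le_sum_abs _ _).trans ?_
  refine (Finset.sum_le_sum (fun i _ => h i)).trans ?_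
  simp

theorem s2 {f : Fin 3 → Fin 3 → ℝ} {c : ℝ} (h : ∀ i j, |f i j| ≤ c) :
    |∑ i, ∑ j, f i j| ≤ 9 * c := by
  have := s1 (f := fun i => ∑ j, f i j) (c := 3 * c) (fun i => s1 (h i))
  linarith

/-- Kronecker delta -/
def dl (i j : Fin 3) : ℝ := if i = j then 1 else 0

theorem dls : dl 0 0 = 1 ∧ dl 0 1 = 0 ∧ dl 0 2 = 0 ∧ dl 1 0 = 0 ∧ dl 1 1 = 1 ∧ dl 1 2 = 0 ∧
    dl 2 0 = 0 ∧ dl 2 1 = 0 ∧ dl 2 2 = 1 := by
  unfold dl
  refine ⟨if_pos rfl, if_neg (by decide), if_neg (by decide), if_neg (by decide), if_pos rfl,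
    if_neg (by decide), if_neg (by decide), if_neg (by decide), if_pos rfl⟩

/-- the constant -/
def cst (D a b : ℝ) : ℝ :=
  D * (18 * a + 9 * D * b + 18 * a + D * (108 * a ^ 2 + 81 * b * D ^ 2)
    + 9 * D * (9 * D ^ 2 + 81 * D ^ 4))

theorem abs_le_one {n : Fin 3 → ℝ} (hn : ∑ i, n i ^ 2 = 1) (i : Fin 3) : |n i| ≤ 1 := by
  have h1 : n i ^ 2 ≤ 1 := by
    rw [← hn]
    exact Finset.single_le_sum (f := fun i => n i ^ 2) (fun j _ => sq_nonneg _)
      (Finset.mem_univ i)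
  exact abs_le_one_iff_mul_self_le_one.2 (by nlinarith)

theorem core {D t ε a b : ℝ} (hD : 1 ≤ D) (ht0 : 0 < t) (ht1 : t ≤ 1) (hε0 : 0 < ε) (hε1 : ε ≤ 1)
    (ha : 0 ≤ a) (hb : 0 ≤ b) (P G hh : Fin 3 → Fin 3 → ℝ) (n : Fin 3 → ℝ)
    (hn : ∑ i, n i ^ 2 = 1) (hP : ∀ i j, |P i j| ≤ D) (hP1 : ∀ i j, |P i j - dl i j| ≤ a * t)
    (hG : ∀ i j, |G i j| ≤ b * t ^ 2) (hh' : ∀ i j, |hh i j| ≤ D * t ^ 2)
    (L : ℝ) (hL : L = ∑ i, ∑ j, P i j * n i * n j) (hL0 : 1 / D ≤ L)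
    (q : Fin 3 → ℝ) (hq : ∀ i, q i = ∑ j, P i j * n j) :
    |((∑ i, ∑ j, P i j * (t * (dl i j - n i * n j) - G i j)
        - (1 - ε) * ∑ i, ∑ j, (t * (dl i j - n i * n j) - G i j) * (q i / √L) * (q j / √L))
      - √L * (∑ i, ∑ j, P i j * hh i j
        - (1 - ε) * ∑ i, ∑ j, hh i j * (q i / √L) * (q j / √L))) / (√L) ^ 2 - 2 * t|
      ≤ cst D a b * t ^ 2 := by
  have hD0 : 0 < D := by linarith
  have hLpos : 0 < L := lt_of_lt_of_le (by positivity) hL0
  have hn1 : ∀ i, |n i| ≤ 1 := abs_le_one hn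
  have hdl : ∀ i j, |dl i j - n i * n j| ≤ 2 := by
    intro i j
    have e1 : |n i * n j| ≤ 1 := by
      rw [abs_mul]; exact mul_le_one₀ (hn1 i) (abs_nonneg _) (hn1 j)
    have e2 : |dl i j| ≤ 1 := by
      unfold dl; split_ifs <;> simp
    calc |dl i j - n i * n j| ≤ |dl i j| + |n i * n j| := abs_sub _ _
      _ ≤ 2 := by linarith
  have ht2 : 0 ≤ t ^ 2 := sq_nonneg t
  -- the trace of the Hessian
  have hT1 : |∑ i, ∑ j, P i j * (t * (dl i j - n i * n j) - G i j) - 2 * t|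
      ≤ (18 * a + 9 * D * b) * t ^ 2 := by
    have e1 : ∑ i, ∑ j, P i j * (t * (dl i j - n i * n j) - G i j) - 2 * t
        = ∑ i, ∑ j, ((P i j - dl i j) * (t * (dl i j - n i * n j)) - P i j * G i j) := by
      obtain ⟨d1, d2, d3, d4, d5, d6, d7, d8, d9⟩ := dls
      simp only [Fin.sum_univ_three, d1, d2, d3, d4, d5, d6, d7, d8, d9] at hn ⊢
      linear_combination (-t) * hn
    rw [e1]
    refine (s2 (c := 2 * a * t ^ 2 + D * (b * t ^ 2)) (fun i j => ?_)).trans (le_of_eq (by ring))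
    refine (abs_sub _ _).trans ?_
    rw [abs_mul, abs_mul, abs_mul, abs_of_pos ht0]
    have f1 : |P i j - dl i j| * (t * |dl i j - n i * n j|) ≤ (a * t) * (t * 2) := by
      gcongr
      · exact hP1 i j
      · exact hdl i j
    have f2 : |P i j| * |G i j| ≤ D * (b * t ^ 2) := by
      gcongr
      · exact hP i j
      · exact hG i j
    calc _ ≤ (a * t) * (t * 2) + D * (b * t ^ 2) := add_le_add f1 f2
      _ = _ := by ring
  -- the length
  have hL1 : |1 - L| ≤ 9 * a * t := by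
    have e1 : 1 - L = ∑ i, ∑ j, -((P i j - dl i j) * (n i * n j)) := by
      rw [hL]
      obtain ⟨d1, d2, d3, d4, d5, d6, d7, d8, d9⟩ := dls
      simp only [Fin.sum_univ_three, d1, d2, d3, d4, d5, d6, d7, d8, d9] at hn ⊢
      linear_combination (-1) * hn
    rw [e1]
    refine (s2 (c := a * t) (fun i j => ?_)).trans (le_of_eq (by ring))
    rw [abs_neg, abs_mul]
    have f1 : |n i * n j| ≤ 1 := by
      rw [abs_mul]; exact mul_le_one₀ (hn1 i) (abs_nonneg _) (hn1 j)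
    calc |P i j - dl i j| * |n i * n j| ≤ (a * t) * 1 :=
          mul_le_mul (hP1 i j) f1 (abs_nonneg _) (by positivity)
      _ = a * t := by ring
  have hLu : L ≤ 9 * D := by
    have : |L| ≤ 9 * D := by
      rw [hL]
      refine s2 (fun i j => ?_)
      rw [mul_assoc, abs_mul]
      have f1 : |n i * n j| ≤ 1 := by
        rw [abs_mul]; exact mul_le_one₀ (hn1 i) (abs_nonneg _) (hn1 j)
      calc |P i j| * |n i * n j| ≤ D * 1 :=
            mul_le_mul (hP i j) f1 (abs_nonneg _) (by positivity)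
        _ = D := by ring
    exact (le_abs_self L).trans this
  have hiL : 1 / L ≤ D := by
    rw [div_le_iff₀ hLpos]
    rw [div_le_iff₀ hD0] at hL0
    linarith
  have hsq : √L ≤ 9 * D := by
    rw [Real.sqrt_le_left (by positivity)]
    nlinarith
  -- the vector q
  have hq3 : ∀ i, |q i| ≤ 3 * D := by
    intro i
    rw [hq i]
    refine s1 (fun j => ?_)
    rw [abs_mul]
    calc |P i j| * |n j| ≤ D * 1 := mul_le_mul (hP i j) (hn1 j) (abs_nonneg _) (by positivity)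
      _ = D := by ring
  have hd : ∀ i, |q i - n i| ≤ 3 * (a * t) := by
    intro i
    have e1 : q i - n i = ∑ j, (P i j - dl i j) * n j := by
      rw [hq i]
      simp only [sub_mul, Finset.sum_sub_distrib]
      congr 1
      simp [dl]
    rw [e1]
    refine s1 (fun j => ?_)
    rw [abs_mul]
    calc |P i j - dl i j| * |n j| ≤ (a * t) * 1 :=
          mul_le_mul (hP1 i j) (hn1 j) (abs_nonneg _) (by positivity)
      _ = a * t := by ring
  have hA2a : |∑ i, ∑ j, (dl i j - n i * n j) * q i * q j| ≤ 108 * a ^ 2 * t ^ 2 := by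
    have e1 : ∑ i, ∑ j, (dl i j - n i * n j) * q i * q j
        = ∑ i, (q i - n i) ^ 2 - (∑ i, n i * (q i - n i)) ^ 2 := by
      obtain ⟨d1, d2, d3, d4, d5, d6, d7, d8, d9⟩ := dls
      simp only [Fin.sum_univ_three, d1, d2, d3, d4, d5, d6, d7, d8, d9] at hn ⊢
      linear_combination ((-1) * (2 * (n 0 * q 0 + n 1 * q 1 + n 2 * q 2)
        - (n 0 ^ 2 + n 1 ^ 2 + n 2 ^ 2))) * hn
    rw [e1]
    have f1 : |∑ i, (q i - n i) ^ 2| ≤ 3 * (3 * (a * t)) ^ 2 := by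
      refine s1 (fun i => ?_)
      rw [abs_pow]
      exact pow_le_pow_left₀ (abs_nonneg _) (hd i) 2
    have f2 : |∑ i, n i * (q i - n i)| ≤ 3 * (3 * (a * t)) := by
      refine s1 (fun i => ?_)
      rw [abs_mul]
      calc |n i| * |q i - n i| ≤ 1 * (3 * (a * t)) :=
            mul_le_mul (hn1 i) (hd i) (abs_nonneg _) (by norm_num)
        _ = _ := by ring
    have f3 : |(∑ i, n i * (q i - n i)) ^ 2| ≤ (3 * (3 * (a * t))) ^ 2 := by
      rw [abs_pow]
      exact pow_le_pow_left₀ (abs_nonneg _) f2 2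
    refine (abs_sub _ _).trans ?_
    calc _ ≤ 3 * (3 * (a * t)) ^ 2 + (3 * (3 * (a * t))) ^ 2 := add_le_add f1 f3
      _ = 108 * a ^ 2 * t ^ 2 := by ring
  have hA2b : |∑ i, ∑ j, G i j * q i * q j| ≤ 9 * (b * t ^ 2 * (3 * D) * (3 * D)) := by
    refine s2 (fun i j => ?_)
    rw [abs_mul, abs_mul]
    gcongr
    · exact hG i j
    · exact hq3 i
    · exact hq3 j
  have hA2c : |∑ i, ∑ j, hh i j * q i * q j| ≤ 9 * (D * t ^ 2 * (3 * D) * (3 * D)) := by
    refine s2 (fun i j => ?_)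
    rw [abs_mul, abs_mul]
    gcongr
    · exact hh' i j
    · exact hq3 i
    · exact hq3 j
  have hTh : |∑ i, ∑ j, P i j * hh i j| ≤ 9 * (D * (D * t ^ 2)) := by
    refine s2 (fun i j => ?_)
    rw [abs_mul]
    gcongr
    · exact hP i j
    · exact hh' i j
  -- the quadratic forms with the factor `1 / L`
  have hsL : √L ^ 2 = L := Real.sq_sqrt hLpos.le
  have hsL0 : 0 < √L := Real.sqrt_pos.2 hLpos
  have hquad : ∀ B : Fin 3 → Fin 3 → ℝ, ∑ i, ∑ j, B i j * (q i / √L) * (q j / √L)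
      = (1 / L) * ∑ i, ∑ j, B i j * q i * q j := by
    intro B
    rw [Finset.mul_sum]
    refine Finset.sum_congr rfl (fun i _ => ?_)
    rw [Finset.mul_sum]
    refine Finset.sum_congr rfl (fun j _ => ?_)
    rw [show (1 / L) = 1 / (√L) ^ 2 from by rw [hsL]]
    field_simp
  rw [hquad, hquad, hsL]
  have hsplit : ∑ i, ∑ j, (t * (dl i j - n i * n j) - G i j) * q i * q j
      = t * (∑ i, ∑ j, (dl i j - n i * n j) * q i * q j) - ∑ i, ∑ j, G i j * q i * q j := by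
    rw [Finset.mul_sum, ← Finset.sum_sub_distrib]
    refine Finset.sum_congr rfl (fun i _ => ?_)
    rw [Finset.mul_sum, ← Finset.sum_sub_distrib]
    refine Finset.sum_congr rfl (fun j _ => ?_)
    ring
  rw [hsplit]
  generalize (∑ i, ∑ j, P i j * (t * (dl i j - n i * n j) - G i j)) = T1 at hT1 ⊢
  generalize (∑ i, ∑ j, (dl i j - n i * n j) * q i * q j) = A2 at hA2a ⊢
  generalize (∑ i, ∑ j, G i j * q i * q j) = A3 at hA2b ⊢
  generalize (∑ i, ∑ j, hh i j * q i * q j) = A4 at hA2c ⊢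
  generalize (∑ i, ∑ j, P i j * hh i j) = A5 at hTh ⊢
  have hmain : (T1 - (1 - ε) * ((1 / L) * (t * A2 - A3))
      - √L * (A5 - (1 - ε) * ((1 / L) * A4))) / L - 2 * t
      = (1 / L) * ((T1 - 2 * t) + 2 * t * (1 - L) - (1 - ε) * ((1 / L) * (t * A2 - A3))
        - √L * (A5 - (1 - ε) * ((1 / L) * A4))) := by
    field_simp
    ring
  rw [hmain, abs_mul]
  have hiL0 : 0 ≤ 1 / L := by positivity
  rw [abs_of_nonneg hiL0]
  have h1ε : |1 - ε| ≤ 1 := by rw [abs_le]; constructor <;> linarith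
  have g1 : |2 * t * (1 - L)| ≤ 18 * a * t ^ 2 := by
    rw [abs_mul, abs_of_pos (by positivity : (0:ℝ) < 2 * t)]
    calc 2 * t * |1 - L| ≤ 2 * t * (9 * a * t) := by gcongr
      _ = _ := by ring
  have g2 : |(1 - ε) * ((1 / L) * (t * A2 - A3))|
      ≤ D * (108 * a ^ 2 + 81 * b * D ^ 2) * t ^ 2 := by
    rw [abs_mul, abs_mul, abs_of_nonneg hiL0]
    have e1 : |t * A2 - A3| ≤ (108 * a ^ 2 + 81 * b * D ^ 2) * t ^ 2 := by
      refine (abs_sub _ _).trans ?_
      rw [abs_mul, abs_of_pos ht0]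
      have e2 : t * |A2| ≤ 1 * (108 * a ^ 2 * t ^ 2) :=
        mul_le_mul ht1 hA2a (abs_nonneg _) (by norm_num)
      calc _ ≤ 1 * (108 * a ^ 2 * t ^ 2) + 9 * (b * t ^ 2 * (3 * D) * (3 * D)) :=
            add_le_add e2 hA2b
        _ = _ := by ring
    calc |1 - ε| * (1 / L * |t * A2 - A3|)
        ≤ 1 * (D * ((108 * a ^ 2 + 81 * b * D ^ 2) * t ^ 2)) := by gcongr
      _ = _ := by ring
  have g3 : |√L * (A5 - (1 - ε) * ((1 / L) * A4))| ≤ 9 * D * (9 * D ^ 2 + 81 * D ^ 4) * t ^ 2 := by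
    rw [abs_mul, abs_of_pos hsL0]
    have e1 : |A5 - (1 - ε) * ((1 / L) * A4)| ≤ (9 * D ^ 2 + 81 * D ^ 4) * t ^ 2 := by
      refine (abs_sub _ _).trans ?_
      rw [abs_mul, abs_mul, abs_of_nonneg hiL0]
      calc |A5| + |1 - ε| * (1 / L * |A4|)
          ≤ 9 * (D * (D * t ^ 2)) + 1 * (D * (9 * (D * t ^ 2 * (3 * D) * (3 * D)))) := by gcongr
        _ = _ := by ring
    calc √L * |A5 - (1 - ε) * ((1 / L) * A4)|
        ≤ (9 * D) * ((9 * D ^ 2 + 81 * D ^ 4) * t ^ 2) := by gcongr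
      _ = _ := by ring
  have g4 : |(T1 - 2 * t) + 2 * t * (1 - L) - (1 - ε) * ((1 / L) * (t * A2 - A3))
        - √L * (A5 - (1 - ε) * ((1 / L) * A4))|
      ≤ (18 * a + 9 * D * b) * t ^ 2 + 18 * a * t ^ 2
        + D * (108 * a ^ 2 + 81 * b * D ^ 2) * t ^ 2
        + 9 * D * (9 * D ^ 2 + 81 * D ^ 4) * t ^ 2 := by
    refine (abs_sub _ _).trans (add_le_add ?_ g3)
    refine (abs_sub _ _).trans (add_le_add ?_ g2)
    exact (abs_add_le _ _).trans (add_le_add hT1 g1)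
  calc 1 / L * |_| ≤ D * ((18 * a + 9 * D * b) * t ^ 2 + 18 * a * t ^ 2
        + D * (108 * a ^ 2 + 81 * b * D ^ 2) * t ^ 2
        + 9 * D * (9 * D ^ 2 + 81 * D ^ 4) * t ^ 2) := by gcongr
    _ = cst D a b * t ^ 2 := by unfold cst; ring

/-! ### The inverse of the metric -/

section Inv

variable {g : Matrix (Fin 3) (Fin 3) ℝ} {D : ℝ}

theorem ev_eq (B : Bil) (v w : Cov) : ev B v w = ∑ i, (∑ j, B i j * w j) * v i := by
  unfold ev
  refine Finset.sum_congr rfl (fun i _ => ?_)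
  rw [Finset.sum_mul]
  refine Finset.sum_congr rfl (fun j _ => ?_)
  ring

theorem inv_app (hg : g.PosDef) (v : Cov) (i : Fin 3) :
    ∑ j, g i j * (∑ k, g⁻¹ j k * v k) = v i := by
  have hu : IsUnit g.det := hg.isUnit.map Matrix.detMonoidHom
  have h1 : (g * g⁻¹).mulVec v = v := by rw [Matrix.mul_nonsing_inv g hu, Matrix.one_mulVec]
  rw [← Matrix.mulVec_mulVec] at h1
  have h2 := congrFun h1 i
  simpa [Matrix.mulVec, dotProduct] using h2

theorem ev_inv (hg : g.PosDef) (v : Cov) :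
    ev g⁻¹ v v = ev g (fun j => ∑ k, g⁻¹ j k * v k) (fun j => ∑ k, g⁻¹ j k * v k) := by
  rw [ev_eq, ev_eq]
  refine Finset.sum_congr rfl (fun i _ => ?_)
  rw [inv_app hg v i, mul_comm]

/-- the length of `g⁻¹ v` -/
theorem norm_inv_le (hg : g.PosDef) (hD : 0 < D)
    (hell : ∀ v : Cov, (∑ i, v i ^ 2) ≤ D * ev g v v ∧ ev g v v ≤ D * ∑ i, v i ^ 2) (v : Cov) :
    ∑ i, (∑ k, g⁻¹ i k * v k) ^ 2 ≤ D ^ 2 * ∑ i, v i ^ 2 := by
  set w : Cov := fun j => ∑ k, g⁻¹ j k * v k with hw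
  have h1 := (hell w).1
  have h2 : ev g w w = ∑ i, w i * v i := by
    rw [← ev_inv hg v, ev_eq]
  have h3 : (∑ i, w i * v i) ^ 2 ≤ (∑ i, w i ^ 2) * ∑ i, v i ^ 2 :=
    Finset.sum_mul_sq_le_sq_mul_sq _ _ _
  rw [h2] at h1
  have hw0 : 0 ≤ ∑ i, w i ^ 2 := Finset.sum_nonneg (fun i _ => sq_nonneg _)
  have hv0 : 0 ≤ ∑ i, v i ^ 2 := Finset.sum_nonneg (fun i _ => sq_nonneg _)
  set A := ∑ i, w i ^ 2 with hA
  set V := ∑ i, v i ^ 2 with hV
  set X := ∑ i, w i * v i with hX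
  rcases hw0.eq_or_lt with h0 | h0
  · change A ≤ _
    rw [← h0]; positivity
  · have h4 : A ^ 2 ≤ D ^ 2 * X ^ 2 := by
      rw [← mul_pow]
      exact pow_le_pow_left₀ hw0 h1 2
    have h5 : A * A ≤ A * (D ^ 2 * V) := by nlinarith [sq_nonneg D]
    exact le_of_mul_le_mul_left h5 h0

theorem inv_entry_le (hg : g.PosDef) (hD : 0 < D)
    (hell : ∀ v : Cov, (∑ i, v i ^ 2) ≤ D * ev g v v ∧ ev g v v ≤ D * ∑ i, v i ^ 2)
    (i j : Fin 3) : |g⁻¹ i j| ≤ D := by
  have h1 := norm_inv_le hg hD hell (fun k => if k = j then 1 else 0)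
  have h2 : ∀ i, ∑ k, g⁻¹ i k * (if k = j then (1 : ℝ) else 0) = g⁻¹ i j := by
    intro i; simp
  have h3 : ∑ i : Fin 3, (if i = j then (1 : ℝ) else 0) ^ 2 = 1 := by
    simp
  simp only [h2] at h1
  rw [h3, mul_one] at h1
  have h4 : g⁻¹ i j ^ 2 ≤ ∑ i, g⁻¹ i j ^ 2 :=
    Finset.single_le_sum (f := fun i => g⁻¹ i j ^ 2) (fun k _ => sq_nonneg _) (Finset.mem_univ i)
  exact abs_le_of_sq_le_sq (h4.trans h1) hD.le

theorem inv_lower (hg : g.PosDef) (hD : 0 < D)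
    (hell : ∀ v : Cov, (∑ i, v i ^ 2) ≤ D * ev g v v ∧ ev g v v ≤ D * ∑ i, v i ^ 2) (v : Cov)
    (hv : ∑ i, v i ^ 2 = 1) : 1 / D ≤ ev g⁻¹ v v := by
  set w : Cov := fun j => ∑ k, g⁻¹ j k * v k with hw
  have h1 := (hell (fun i => w i - v i / D)).1
  have h0 : 0 ≤ ∑ i, (w i - v i / D) ^ 2 := Finset.sum_nonneg (fun i _ => sq_nonneg _)
  have h2 : 0 ≤ ev g (fun i => w i - v i / D) (fun i => w i - v i / D) := by
    by_contra hc
    push Not at hc
    nlinarith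
  have hsym : ∀ i j, g i j = g j i := fun i j => by
    have := hg.1.apply i j
    simpa using this.symm
  have e1 : ev g (fun i => w i - v i / D) (fun i => w i - v i / D)
      = ev g w w - (2 / D) * (∑ i, (∑ j, g i j * w j) * v i) + (1 / D ^ 2) * ev g v v := by
    unfold ev
    simp only [Fin.sum_univ_three]
    rw [hsym 1 0, hsym 2 0, hsym 2 1]
    field_simp
    ring
  have e2 : ∑ i, (∑ j, g i j * w j) * v i = 1 := by
    rw [← hv]
    refine Finset.sum_congr rfl (fun i _ => ?_)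
    rw [hw]
    simp only
    rw [inv_app hg v i]
    ring
  have e3 := (hell v).2
  rw [hv, mul_one] at e3
  rw [e1, e2, ← ev_inv hg v] at h2
  have e4 : (1 / D ^ 2) * ev g v v ≤ (1 / D ^ 2) * D :=
    mul_le_mul_of_nonneg_left e3 (by positivity)
  have e5 : (1 / D ^ 2) * D = 1 / D := by field_simp
  have e6 : 2 / D * 1 = 1 / D + 1 / D := by ring
  rw [e5] at e4
  rw [e6] at h2
  linarith

theorem inv_sub_le (hg : g.PosDef) (hD : 0 < D)
    (hell : ∀ v : Cov, (∑ i, v i ^ 2) ≤ D * ev g v v ∧ ev g v v ≤ D * ∑ i, v i ^ 2) {c : ℝ}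
    (hc : ∀ i j, |g i j - dl i j| ≤ c) (i j : Fin 3) : |g⁻¹ i j - dl i j| ≤ 3 * (D * c) := by
  have hu : IsUnit g.det := hg.isUnit.map Matrix.detMonoidHom
  have h1 : g⁻¹ * g = 1 := Matrix.nonsing_inv_mul g hu
  have h2 : ∑ k, g⁻¹ i k * g k j = dl i j := by
    have := congrFun (congrFun h1 i) j
    rw [Matrix.mul_apply] at this
    rw [this, Matrix.one_apply]
    rfl
  have h3 : g⁻¹ i j - dl i j = ∑ k, -(g⁻¹ i k * (g k j - dl k j)) := by
    rw [← h2]
    simp only [mul_sub, neg_sub, Finset.sum_sub_distrib]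
    congr 1
    simp [dl]
  rw [h3]
  refine s1 (fun k => ?_)
  rw [abs_neg, abs_mul]
  exact mul_le_mul (inv_entry_le hg hD hell i k) (hc k j) (abs_nonneg _) hD.le

end Inv

/-! ### The radial function -/

theorem pd_rad {x : E3} (hx : x ≠ 0) (i : Fin 3) : pd i rad x = x i / ‖x‖ := by
  have h := pd_radial (i := i) (F := fun s => s) (F' := 1) hx (hasDerivAt_id _)
  rw [one_mul] at h
  exact h

theorem pd_pd_rad {x : E3} (hx : x ≠ 0) (i j : Fin 3) :
    pd i (pd j rad) x = ‖x‖⁻¹ * (dl i j - (x i / ‖x‖) * (x j / ‖x‖)) := by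
  have hne : ∀ᶠ y in 𝓝 x, y ≠ 0 := isOpen_ne.mem_nhds hx
  have h1 : pd j rad =ᶠ[𝓝 x] fun y => y j * ‖y‖⁻¹ := by
    filter_upwards [hne] with y hy
    rw [pd_rad hy j, div_eq_mul_inv]
  rw [pd_congr h1]
  have hn0 : ‖x‖ ≠ 0 := norm_ne_zero_iff.2 hx
  have hder : HasDerivAt (fun s : ℝ => s⁻¹) (-(‖x‖ ^ 2)⁻¹) ‖x‖ := hasDerivAt_inv hn0
  rw [pd_mul (f := fun y => y j) (f' := fun y => ‖y‖⁻¹) (differentiableAt_coord j)
    (differentiableAt_radial hx hder), pd_coord, pd_radial hx hder]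
  unfold dl
  field_simp
  split_ifs <;> ring

end EBARA

open EBARA

theorem BARA : Stmt_BARA := by
  intro C
  set D : ℝ := max C 1 with hDdef
  have hD1 : 1 ≤ D := le_max_right _ _
  have hCD : C ≤ D := le_max_left _ _
  have hD0 : 0 < D := by linarith
  refine ⟨cst D (3 * D ^ 2) (27 / 2 * D ^ 2), by unfold cst; positivity, ?_⟩
  intro g h x hx _ hg _ hell hdec ε hε0 hε1
  have hr0 : 0 < ‖x‖ := by linarith
  have hx0 : x ≠ 0 := norm_pos_iff.1 hr0
  set t : ℝ := ‖x‖⁻¹ with ht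
  have ht0 : 0 < t := inv_pos.2 hr0
  have ht1 : t ≤ 1 := inv_le_one_of_one_le₀ hx
  set n : Fin 3 → ℝ := fun i => x i / ‖x‖ with hn
  have hnn : ∑ i, n i ^ 2 = 1 := by
    simp only [hn, div_pow, ← Finset.sum_div]
    rw [Fin.sum_univ_three, ← norm_sq_eq x]
    exact div_self (by positivity)
  have hgrad : grad rad x = n := by
    funext i
    exact pd_rad hx0 i
  have hell' : ∀ v : Cov, (∑ i, v i ^ 2) ≤ D * ev (g x) v v ∧
      ev (g x) v v ≤ D * ∑ i, v i ^ 2 := by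
    intro v
    obtain ⟨h1, h2⟩ := hell v
    have hv0 : 0 ≤ ∑ i, v i ^ 2 := Finset.sum_nonneg (fun i _ => sq_nonneg _)
    have hpos : 0 ≤ ev (g x) v v := by
      have h3 := hg.posSemidef.dotProduct_mulVec_nonneg v
      have h4 : star v ⬝ᵥ (g x).mulVec v = ev (g x) v v := by
        unfold ev
        simp only [dotProduct, Matrix.mulVec, Pi.star_apply, star_trivial, Finset.mul_sum]
        refine Finset.sum_congr rfl (fun i _ => Finset.sum_congr rfl (fun j _ => ?_))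
        ring
      rw [h4] at h3
      exact h3
    constructor
    · exact h1.trans (mul_le_mul_of_nonneg_right hCD hpos)
    · exact h2.trans (mul_le_mul_of_nonneg_right hCD hv0)
  have hg1 : ∀ i j, |g x i j - dl i j| ≤ D * t := by
    intro i j
    have h1 := (hdec i j).1
    have h2 : (1 : Bil) i j = dl i j := by rw [Matrix.one_apply]; rfl
    rw [h2] at h1
    refine h1.trans ?_
    rw [div_eq_mul_inv]
    exact mul_le_mul_of_nonneg_right hCD ht0.le
  have hgk : ∀ k i j, |pd k (fun y => g y i j) x| ≤ D * t ^ 2 := by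
    intro k i j
    refine ((hdec i j).2.1 k).trans ?_
    rw [div_eq_mul_inv, ← inv_pow]
    exact mul_le_mul_of_nonneg_right hCD (by positivity)
  have hhx : ∀ i j, |h x i j| ≤ D * t ^ 2 := by
    intro i j
    refine ((hdec i j).2.2).trans ?_
    rw [div_eq_mul_inv, ← inv_pow]
    exact mul_le_mul_of_nonneg_right hCD (by positivity)
  have hP := inv_entry_le hg hD0 hell'
  have hP1 : ∀ i j, |(g x)⁻¹ i j - dl i j| ≤ (3 * D ^ 2) * t := by
    intro i j
    refine (inv_sub_le hg hD0 hell' hg1 i j).trans (le_of_eq (by ring))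
  have hchr : ∀ k i j, |christoffel g k i j x| ≤ 9 / 2 * D ^ 2 * t ^ 2 := by
    intro k i j
    unfold christoffel
    rw [abs_mul, abs_of_pos (by norm_num : (0:ℝ) < 1 / 2)]
    have h1 : |∑ l, (g x)⁻¹ k l * (pd i (fun y => g y j l) x + pd j (fun y => g y i l) x
        - pd l (fun y => g y i j) x)| ≤ 3 * (D * (3 * (D * t ^ 2))) := by
      refine s1 (fun l => ?_)
      rw [abs_mul]
      refine mul_le_mul (hP k l) ?_ (abs_nonneg _) hD0.le
      refine (abs_sub _ _).trans ?_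
      have e1 := abs_add_le (pd i (fun y => g y j l) x) (pd j (fun y => g y i l) x)
      have e2 := hgk i j l
      have e3 := hgk j i l
      have e4 := hgk l i j
      linarith
    calc 1 / 2 * |_| ≤ 1 / 2 * (3 * (D * (3 * (D * t ^ 2)))) := by gcongr
      _ = _ := by ring
  have hG : ∀ i j, |∑ k, christoffel g k i j x * n k| ≤ (27 / 2 * D ^ 2) * t ^ 2 := by
    intro i j
    refine (s1 (c := 9 / 2 * D ^ 2 * t ^ 2) (fun k => ?_)).trans (le_of_eq (by ring))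
    rw [abs_mul]
    calc |christoffel g k i j x| * |n k| ≤ (9 / 2 * D ^ 2 * t ^ 2) * 1 :=
          mul_le_mul (hchr k i j) (abs_le_one hnn k) (abs_nonneg _) (by positivity)
      _ = _ := by ring
  have hL0 : 1 / D ≤ ev (g x)⁻¹ n n := inv_lower hg hD0 hell' n hnn
  have key := core hD1 ht0 ht1 hε0 hε1 (by positivity : (0:ℝ) ≤ 3 * D ^ 2)
    (by positivity : (0:ℝ) ≤ 27 / 2 * D ^ 2) (fun i j => (g x)⁻¹ i j)
    (fun i j => ∑ k, christoffel g k i j x * n k) (fun i j => h x i j) n hnn hP hP1 hG hhx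
    (ev (g x)⁻¹ n n) rfl hL0 (fun i => ∑ j, (g x)⁻¹ i j * n j) (fun i => rfl)
  have hcH : ∀ i j, cHess g x n (hess2 rad x) i j
      = t * (dl i j - n i * n j) - ∑ k, christoffel g k i j x * n k := by
    intro i j
    unfold cHess hess2
    simp only [Matrix.of_apply]
    rw [pd_pd_rad hx0 i j]
  have e1 : barB ε g h x = ((∑ i, ∑ j, (g x)⁻¹ i j * (t * (dl i j - n i * n j)
          - ∑ k, christoffel g k i j x * n k)
        - (1 - ε) * ∑ i, ∑ j, (t * (dl i j - n i * n j)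
          - ∑ k, christoffel g k i j x * n k) * ((∑ j, (g x)⁻¹ i j * n j) / √(ev (g x)⁻¹ n n))
            * ((∑ i, (g x)⁻¹ j i * n i) / √(ev (g x)⁻¹ n n)))
      - √(ev (g x)⁻¹ n n) * (∑ i, ∑ j, (g x)⁻¹ i j * h x i j
        - (1 - ε) * ∑ i, ∑ j, h x i j * ((∑ j, (g x)⁻¹ i j * n j) / √(ev (g x)⁻¹ n n))
          * ((∑ i, (g x)⁻¹ j i * n i) / √(ev (g x)⁻¹ n n)))) / (√(ev (g x)⁻¹ n n)) ^ 2 := by
    unfold barB
    rw [hgrad]
    unfold beps bnn trg nrm raise len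
    simp only [hcH]
    unfold ev
    simp only [hcH]
  have e2 : 2 / ‖x‖ = 2 * t := by rw [ht, div_eq_mul_inv]
  have e3 : cst D (3 * D ^ 2) (27 / 2 * D ^ 2) / ‖x‖ ^ 2
      = cst D (3 * D ^ 2) (27 / 2 * D ^ 2) * t ^ 2 := by
    rw [ht, div_eq_mul_inv, inv_pow]
  rw [e1, e2, e3]
  exact key

end Pool.Agent.PFlow
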