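import Pool.Agent.PFlow.StmtsE1
import Pool.Agent.PenroseSph.Calc

/-!
# Uniform decay and ellipticity of the modified metric
-/

open MeasureTheory Filter Topology
open scoped ContDiff ENNReal

namespace Pool.Agent.PFlow

open Pool.Agent.PenroseSph

namespace CUTD

theorem diff_pd {f : E3 → ℝ} {U : Set E3} (hU : IsOpen U) (hf : ContDiffOn ℝ ∞ f U) {x : E3}
    (hx : x ∈ U) (k : Fin 3) : DifferentiableAt ℝ (pd k f) x := by
  have h1 : ContDiffAt ℝ ∞ f x := hf.contDiffAt (hU.mem_nhds hx)
  have h2 : ContDiffAt ℝ 1 (fderiv ℝ f) x := h1.fderiv_right (by norm_cast)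
  exact (h2.differentiableAt (by simp)).clm_apply (differentiableAt_const _)

theorem diff_at {f : E3 → ℝ} {U : Set E3} (hU : IsOpen U) (hf : ContDiffOn ℝ ∞ f U) {x : E3}
    (hx : x ∈ U) : DifferentiableAt ℝ f x :=
  (hf.contDiffAt (hU.mem_nhds hx)).differentiableAt (by simp)

/-- The bounds for the cut-off function. -/
theorem cut (hKAP : Stmt_KAP) : ∃ D : ℝ, 0 < D ∧ ∀ l : ℝ, 0 < l → ∀ x : E3, 0 < ‖x‖ →
    (∀ k, |pd k (fun y => kap (‖y‖ / l)) x| ≤ 2 * D / ‖x‖) ∧
    (∀ k m, |pd k (pd m (fun y => kap (‖y‖ / l))) x| ≤ 4 * D / ‖x‖ ^ 2) := by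
  obtain ⟨_, _, _, h0, ⟨D, hD, hb⟩, _, _⟩ := hKAP
  refine ⟨D, hD, fun l hl x hx => ?_⟩
  rcases le_or_gt ‖x‖ (2 * l) with hxl | hxl
  · have h1 : 1 / l ≤ 2 / ‖x‖ := by
      rw [div_le_div_iff₀ hl hx]
      linarith
    have h1' : 0 < 1 / l := by positivity
    constructor
    · intro k
      refine ((hb l hl x).1 k).trans ?_
      calc D / l = D * (1 / l) := by ring
        _ ≤ D * (2 / ‖x‖) := by gcongr
        _ = 2 * D / ‖x‖ := by ring
    · intro k m
      refine ((hb l hl x).2 k m).trans ?_
      calc D / l ^ 2 = D * (1 / l) ^ 2 := by ring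
        _ ≤ D * (2 / ‖x‖) ^ 2 := by gcongr
        _ = 4 * D / ‖x‖ ^ 2 := by ring
  · have hO : IsOpen {y : E3 | 2 * l < ‖y‖} := isOpen_lt continuous_const continuous_norm
    have h1 : ∀ y ∈ {y : E3 | 2 * l < ‖y‖}, kap (‖y‖ / l) = 0 := by
      intro y hy
      apply h0
      rw [le_div_iff₀ hl]
      exact le_of_lt hy
    have h2 : ∀ k, ∀ y ∈ {y : E3 | 2 * l < ‖y‖}, pd k (fun y => kap (‖y‖ / l)) y = 0 := by
      intro k y hy
      have h3 : (fun y : E3 => kap (‖y‖ / l)) =ᶠ[𝓝 y] fun _ => (0 : ℝ) := by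
        filter_upwards [hO.mem_nhds hy] with z hz using h1 z hz
      rw [pd_congr h3, pd_const]
    constructor
    · intro k
      rw [h2 k x hxl, abs_zero]
      positivity
    · intro k m
      have h3 : pd m (fun y : E3 => kap (‖y‖ / l)) =ᶠ[𝓝 x] fun _ => (0 : ℝ) := by
        filter_upwards [hO.mem_nhds hxl] with z hz using h2 m z hz
      rw [pd_congr h3, pd_const, abs_zero]
      positivity

/-- The region where the inner cut-off is one. -/
def V : Set E3 := {y : E3 | 1 / 2 < ‖y‖}

theorem isOpen_V : IsOpen V := isOpen_lt continuous_const continuous_norm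

theorem modG_eq (hKAP : Stmt_KAP) {l R : ℝ} (hl : 1 ≤ l) (hR : 4 * l ≤ R) (g : TensorField)
    {y : E3} (hy : y ∈ V) (i j : Fin 3) :
    modG l R g y i j = (1 : Bil) i j + kap (‖y‖ / l) * (g y i j - (1 : Bil) i j) := by
  obtain ⟨_, _, _, h0, _⟩ := hKAP
  have h1 : kin R y = 1 := by
    have hy' : 1 / 2 < ‖y‖ := hy
    rw [kin, h0 (32 * R * ‖y‖) (by nlinarith), sub_zero]
  simp only [modG, h1, mul_one, Matrix.add_apply, Matrix.smul_apply, Matrix.sub_apply,
    smul_eq_mul]

end CUTD

open CUTD in
theorem CUTD (hKAP : Stmt_KAP) : Stmt_CUTD := by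
  intro g h C hg hdec hell
  obtain ⟨D, hD, hcut⟩ := cut hKAP
  have hK := hKAP
  obtain ⟨_, h01, _, _, _, hsm, _⟩ := hKAP
  have hC : 0 ≤ C := by
    have h1 : (1 : ℝ) ≤ ‖(EuclideanSpace.single 0 1 : E3)‖ := by simp
    have h2 := (hdec _ h1 0 0).1
    have h3 : ‖(EuclideanSpace.single 0 1 : E3)‖ = 1 := by simp
    rw [h3, div_one] at h2
    exact (abs_nonneg _).trans h2
  have hU : IsOpen ({0}ᶜ : Set E3) := isOpen_compl_singleton
  refine ⟨1 + C + 8 * D * C, by positivity, fun l R hl hR => ⟨?_, ?_⟩⟩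
  · have hl0 : 0 < l := by linarith
    intro x hx i j
    have hx0 : 0 < ‖x‖ := by linarith
    have hxV : ∀ y : E3, y ∈ V → y ∈ ({0}ᶜ : Set E3) := by
      intro y hy h1
      have h2 : 1 / 2 < ‖y‖ := hy
      rw [Set.mem_singleton_iff.mp h1, norm_zero] at h2
      linarith
    have hxm : x ∈ V := by
      show 1 / 2 < ‖x‖
      linarith
    set K : E3 → ℝ := fun y => kap (‖y‖ / l) with hKdef
    have hKs : ContDiff ℝ ∞ K := hsm l hl0
    have hKd : ∀ y, DifferentiableAt ℝ K y := fun y => hKs.differentiable (by simp) y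
    have hKpd : ∀ k y, DifferentiableAt ℝ (pd k K) y := fun k y =>
      diff_pd isOpen_univ hKs.contDiffOn (Set.mem_univ y) k
    set G : E3 → ℝ := fun y => g y i j with hGdef
    have hGs : ContDiffOn ℝ ∞ G {0}ᶜ := hg.smooth i j
    have hGd : ∀ y ∈ V, DifferentiableAt ℝ G y := fun y hy => diff_at hU hGs (hxV y hy)
    have hGpd : ∀ k, ∀ y ∈ V, DifferentiableAt ℝ (pd k G) y := fun k y hy =>
      diff_pd hU hGs (hxV y hy) k
    set c : ℝ := (1 : Bil) i j with hc
    -- first derivatives
    have hp1 : ∀ k, ∀ y ∈ V, pd k (fun z => modG l R g z i j) y =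
        K y * pd k G y + (G y - c) * pd k K y := by
      intro k y hy
      have h1 : (fun z => modG l R g z i j) =ᶠ[𝓝 y] fun z => c + K z * (G z - c) := by
        filter_upwards [isOpen_V.mem_nhds hy] with z hz using modG_eq hK hl hR g hz i j
      have hGc : DifferentiableAt ℝ (fun z => G z - c) y := (hGd y hy).sub_const c
      rw [pd_congr h1, pd_add (f := fun _ => c) (f' := fun z => K z * (G z - c))
        (differentiableAt_const _) ((hKd y).mul hGc), pd_const, zero_add,
        pd_mul (f' := fun z => G z - c) (hKd y) hGc,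
        pd_sub (f' := fun _ => c) (hGd y hy) (differentiableAt_const _), pd_const, sub_zero]
    have hp2 : ∀ k m, pd k (pd m (fun z => modG l R g z i j)) x =
        K x * pd k (pd m G) x + pd m G x * pd k K x +
          ((G x - c) * pd k (pd m K) x + pd m K x * pd k G x) := by
      intro k m
      have h1 : pd m (fun z => modG l R g z i j) =ᶠ[𝓝 x] fun y =>
          K y * pd m G y + (G y - c) * pd m K y := by
        filter_upwards [isOpen_V.mem_nhds hxm] with z hz using hp1 m z hz
      have hGc : DifferentiableAt ℝ (fun z => G z - c) x := (hGd x hxm).sub_const c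
      rw [pd_congr h1, pd_add (f := fun y => K y * pd m G y)
        (f' := fun y => (G y - c) * pd m K y) ((hKd x).mul (hGpd m x hxm))
        (hGc.mul (hKpd m x)), pd_mul (hKd x) (hGpd m x hxm),
        pd_mul (f := fun z => G z - c) hGc (hKpd m x),
        pd_sub (f' := fun _ => c) (hGd x hxm) (differentiableAt_const _), pd_const, sub_zero]
    obtain ⟨d1, d2, d3, _, _⟩ := hdec x hx i j
    obtain ⟨c1, c2⟩ := hcut l hl0 x hx0
    have hK1 : |K x| ≤ 1 := by
      rw [abs_of_nonneg (h01 _).1]
      exact (h01 _).2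
    refine ⟨?_, ?_, ?_, ?_, ?_⟩
    · rw [modG_eq hK hl hR g hxm i j, add_sub_cancel_left, abs_mul]
      calc |kap (‖x‖ / l)| * |g x i j - (1 : Bil) i j| ≤ 1 * (C / ‖x‖) := by gcongr
        _ ≤ (1 + C + 8 * D * C) / ‖x‖ := by
          rw [one_mul]
          gcongr
          have : 0 ≤ 8 * D * C := by positivity
          linarith
    · intro k
      rw [hp1 k x hxm]
      calc |K x * pd k G x + (G x - c) * pd k K x|
          ≤ |K x| * |pd k G x| + |G x - c| * |pd k K x| := by
            rw [← abs_mul, ← abs_mul]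
            exact abs_add_le _ _
        _ ≤ 1 * (C / ‖x‖ ^ 2) + (C / ‖x‖) * (2 * D / ‖x‖) := by
            gcongr
            · exact d2 k
            · exact c1 k
        _ = (C + 2 * D * C) / ‖x‖ ^ 2 := by
            field_simp
        _ ≤ (1 + C + 8 * D * C) / ‖x‖ ^ 2 := by
            refine div_le_div_of_nonneg_right ?_ (by positivity)
            have : 0 ≤ D * C := by positivity
            linarith
    · intro k m
      rw [hp2 k m]
      calc |K x * pd k (pd m G) x + pd m G x * pd k K x +
          ((G x - c) * pd k (pd m K) x + pd m K x * pd k G x)|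
          ≤ (|K x| * |pd k (pd m G) x| + |pd m G x| * |pd k K x|) +
            (|G x - c| * |pd k (pd m K) x| + |pd m K x| * |pd k G x|) := by
            rw [← abs_mul, ← abs_mul, ← abs_mul, ← abs_mul]
            exact (abs_add_le _ _).trans (add_le_add (abs_add_le _ _) (abs_add_le _ _))
        _ ≤ (1 * (C / ‖x‖ ^ 3) + (C / ‖x‖ ^ 2) * (2 * D / ‖x‖)) +
            ((C / ‖x‖) * (4 * D / ‖x‖ ^ 2) + (2 * D / ‖x‖) * (C / ‖x‖ ^ 2)) := by
            gcongr
            · exact d3 k m
            · exact d2 m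
            · exact c1 k
            · exact c2 k m
            · exact c1 m
            · exact d2 k
        _ = (C + 8 * D * C) / ‖x‖ ^ 3 := by
            field_simp
            ring
        _ ≤ (1 + C + 8 * D * C) / ‖x‖ ^ 3 := by
            gcongr
            linarith
    · simp only [Pi.zero_apply, Matrix.zero_apply, abs_zero]
      positivity
    · intro k
      have h1 : (fun y : E3 => (0 : TensorField) y i j) = fun _ => (0 : ℝ) := rfl
      rw [h1, pd_const, abs_zero]
      positivity
  · intro x hx v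
    have hxm : x ∈ V := by
      show 1 / 2 < ‖x‖
      linarith
    have hx0 : x ∈ ({0}ᶜ : Set E3) := by
      intro h1
      rw [Set.mem_singleton_iff.mp h1, norm_zero] at hx
      linarith
    obtain ⟨e1, e2⟩ := hell x hx v
    set t : ℝ := kap (‖x‖ / l) with ht
    have ht0 : 0 ≤ t := (h01 _).1
    have ht1 : t ≤ 1 := (h01 _).2
    set s : ℝ := ∑ i, v i ^ 2 with hs
    have hs0 : 0 ≤ s := Finset.sum_nonneg fun i _ => sq_nonneg _
    have hg0 : 0 ≤ ev (g x) v v := by
      have h2 := (hg.posDef x hx0).posSemidef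
      have h3 := h2.dotProduct_mulVec_nonneg v
      have h4 : ev (g x) v v = star v ⬝ᵥ (g x).mulVec v := by
        simp only [ev, Matrix.mulVec, dotProduct, Finset.mul_sum, Pi.star_apply, star_trivial]
        refine Finset.sum_congr rfl fun i _ => Finset.sum_congr rfl fun j _ => by ring
      rw [h4]
      exact h3
    have hev : ev (modG l R g x) v v = (1 - t) * s + t * ev (g x) v v := by
      have h1 : ∀ i j, modG l R g x i j * v i * v j =
          (1 - t) * ((1 : Bil) i j * v i * v j) + t * (g x i j * v i * v j) := by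
        intro i j
        rw [modG_eq hK hl hR g hxm i j]
        ring
      have h2 : ∑ i, ∑ j, (1 : Bil) i j * v i * v j = s := by
        rw [hs]
        refine Finset.sum_congr rfl fun i _ => ?_
        rw [Finset.sum_eq_single i]
        · rw [Matrix.one_apply_eq]
          ring
        · intro j _ hj
          rw [Matrix.one_apply_ne (Ne.symm hj)]
          ring
        · intro h3
          exact absurd (Finset.mem_univ i) h3
      unfold ev
      simp only [h1, Finset.sum_add_distrib, ← Finset.mul_sum]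
      rw [h2]
    have hC1 : C ≤ 1 + C + 8 * D * C := by
      have : 0 ≤ D * C := by positivity
      linarith
    have hC2 : 1 ≤ 1 + C + 8 * D * C := by
      have : 0 ≤ D * C := by positivity
      linarith
    set C' : ℝ := 1 + C + 8 * D * C with hC'
    have e1' : s ≤ C' * ev (g x) v v := e1.trans (by gcongr)
    have e2' : ev (g x) v v ≤ C' * s := e2.trans (by gcongr)
    have e3' : s ≤ C' * s := by nlinarith
    rw [hev]
    have ht2 : 0 ≤ 1 - t := by linarith
    constructor
    · nlinarith [mul_le_mul_of_nonneg_left e1' ht0, mul_le_mul_of_nonneg_left e3' ht2]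
    · nlinarith [mul_le_mul_of_nonneg_left e2' ht0, mul_le_mul_of_nonneg_left e3' ht2]

end Pool.Agent.PFlow
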