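import Pool.Agent.PFlow.StmtsE1

/-!
# The divergence theorem for the mass integrand (module DIVA)
-/

open MeasureTheory Filter Topology
open scoped ContDiff

namespace Pool.Agent.PFlow

open Pool.Agent.PenroseSph

namespace MDIVA

theorem contDiffAt_pd {n : ℕ} {f : E3 → ℝ} {x : E3} (hf : ContDiffAt ℝ ∞ f x) (i : Fin 3) :
    ContDiffAt ℝ n (fun y => pd i f y) x := by
  unfold pd
  have h1 : ContDiffAt ℝ n (fderiv ℝ f) x := by
    apply hf.fderiv_right
    exact_mod_cast le_top
  exact h1.clm_apply contDiffAt_const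

theorem pd_comm {f : E3 → ℝ} {x : E3} (hf : ContDiffAt ℝ ∞ f x) (i j : Fin 3) :
    pd i (pd j f) x = pd j (pd i f) x := by
  have hd : DifferentiableAt ℝ (fderiv ℝ f) x := by
    have h1 : ∀ n : ℕ, ContDiffAt ℝ n (fderiv ℝ f) x := by
      intro n
      apply hf.fderiv_right
      exact_mod_cast le_top
    exact (h1 1).differentiableAt (by simp)
  have key : ∀ i j : Fin 3, pd i (pd j f) x =
      fderiv ℝ (fderiv ℝ f) x (EuclideanSpace.single i 1) (EuclideanSpace.single j 1) := by
    intro i j
    have h2 : HasFDerivAt (fun y => fderiv ℝ f y (EuclideanSpace.single j (1 : ℝ)))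
        (((ContinuousLinearMap.apply ℝ ℝ (EuclideanSpace.single j (1 : ℝ) : E3))).comp
          (fderiv ℝ (fderiv ℝ f) x)) x :=
      ((ContinuousLinearMap.apply ℝ ℝ (EuclideanSpace.single j (1 : ℝ) : E3)).hasFDerivAt).comp x
        hd.hasFDerivAt
    unfold pd
    rw [h2.fderiv]
    rfl
  rw [key, key]
  have hs : IsSymmSndFDerivAt ℝ f x := by
    apply hf.isSymmSndFDerivAt
    rw [minSmoothness_of_isRCLikeNormedField]
    have h2 : ∀ n : ℕ, (n : WithTop ℕ∞) ≤ ∞ := by
      intro n
      exact_mod_cast le_top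
    exact h2 2
  exact hs.eq _ _

theorem fderiv_zero {f : E3 → ℝ} {x : E3} {r c : ℝ} (hd : DifferentiableAt ℝ f x) (hx : ‖x‖ = r)
    (hc : ∀ y : E3, r ≤ ‖y‖ → f y = c) (v : E3) : fderiv ℝ f x v = 0 := by
  have key : ∀ v : E3, 0 ≤ inner ℝ x v → fderiv ℝ f x v = 0 := by
    intro v hv
    have h1 : HasDerivAt (fun t : ℝ => f (x + t • v)) (fderiv ℝ f x v) 0 := by
      have h2 : HasDerivAt (fun t : ℝ => x + t • v) v 0 := by
        simpa using ((hasDerivAt_id (0 : ℝ)).smul_const v).const_add x
      have h3 : HasFDerivAt f (fderiv ℝ f x) (x + (0 : ℝ) • v) := by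
        simpa using hd.hasFDerivAt
      exact h3.comp_hasDerivAt 0 h2
    have h4 : HasDerivWithinAt (fun _ : ℝ => c) (fderiv ℝ f x v) (Set.Ici 0) 0 := by
      apply (h1.hasDerivWithinAt (s := Set.Ici 0)).congr
      · intro t ht
        symm
        apply hc
        have ht0 : 0 ≤ t := ht
        have h5 : ‖x‖ ^ 2 ≤ ‖x + t • v‖ ^ 2 := by
          rw [norm_add_sq_real, inner_smul_right]
          have h6 : 0 ≤ t * inner ℝ x v := mul_nonneg ht0 hv
          nlinarith [sq_nonneg ‖t • v‖]
        rw [← hx]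
        exact le_of_sq_le_sq h5 (norm_nonneg _)
      · symm
        apply hc
        simp [hx]
    have h5 : HasDerivWithinAt (fun _ : ℝ => c) 0 (Set.Ici 0) 0 := hasDerivWithinAt_const _ _ _
    exact (uniqueDiffWithinAt_Ici (0 : ℝ)).eq_deriv _ h4 h5
  rcases le_total 0 (inner ℝ x v) with h | h
  · exact key v h
  · have h1 := key (-v) (by rw [inner_neg_right]; linarith)
    rw [map_neg] at h1
    linarith

/-- the vector field -/
noncomputable def VV (g : TensorField) (x : E3) (j : Fin 3) : ℝ :=
  ∑ i, (pd i (fun y => g y i j) x - pd j (fun y => g y i i) x)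

theorem contDiffAt_VV {g : TensorField} {x : E3}
    (h : ∀ i j, ContDiffAt ℝ ∞ (fun y => g y i j) x) (j : Fin 3) :
    ContDiffAt ℝ 1 (fun y => VV g y j) x := by
  unfold VV
  apply ContDiffAt.sum
  intro i _
  exact (contDiffAt_pd (n := 1) (h i j) i).sub (contDiffAt_pd (n := 1) (h i i) j)

theorem div_VV {g : TensorField} {x : E3}
    (h : ∀ i j, ContDiffAt ℝ ∞ (fun y => g y i j) x) :
    ∑ j, pd j (fun y => VV g y j) x = linR g x := by
  have h1 : ∀ j, pd j (fun y => VV g y j) x =
      ∑ i, (pd j (pd i (fun y => g y i j)) x - pd j (pd j (fun y => g y i i)) x) := by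
    intro j
    have hd : ∀ a b c, DifferentiableAt ℝ (fun y => pd a (fun y => g y b c) y) x := fun a b c =>
      (contDiffAt_pd (n := 1) (h b c) a).differentiableAt one_ne_zero
    have h2 : HasFDerivAt (fun y => VV g y j)
        (∑ i, (fderiv ℝ (fun y => pd i (fun y => g y i j) y) x
          - fderiv ℝ (fun y => pd j (fun y => g y i i) y) x)) x := by
      unfold VV
      apply HasFDerivAt.fun_sum
      intro i _
      exact (hd i i j).hasFDerivAt.sub (hd j i i).hasFDerivAt
    unfold pd at h2 ⊢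
    rw [h2.fderiv]
    simp only [sum_apply, sub_apply]
  unfold linR
  rw [Finset.sum_comm]
  apply Finset.sum_congr rfl
  intro j _
  rw [h1]
  apply Finset.sum_congr rfl
  intro i _
  rw [pd_comm (h i j) j i]

end MDIVA

open MDIVA in
theorem DIVA (hDIVG : Stmt_DIVG) : Stmt_DIVA := by
  intro g l hl hg hflat
  have hm : MeasurableSet (cAnn l (2 * l)) := by
    have h1 : IsClosed (cAnn l (2 * l)) := by
      unfold cAnn
      exact (isClosed_le continuous_const continuous_norm).inter
        (isClosed_le continuous_norm continuous_const)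
    exact h1.measurableSet
  have hin : ∀ x ∈ cAnn l (2 * l), l / 2 < ‖x‖ := by
    intro x hx
    have := hx.1
    linarith
  have h1 : ∫ x in cAnn l (2 * l), linR g x =
      ∫ x in cAnn l (2 * l), ∑ i, pd i (fun y => VV g y i) x := by
    apply setIntegral_congr_fun hm
    intro x hx
    exact (div_VV (hg x (hin x hx))).symm
  have h2 := hDIVG (VV g) l (2 * l) hl (by linarith)
    (fun x hx i => contDiffAt_VV (hg x (hin x hx)) i)
  rw [h1, h2]
  have h3 : ∀ θ : Metric.sphere (0 : E3) 1,
      (∑ i, VV g ((2 * l) • (θ : E3)) i * (θ : E3) i) * (2 * l) ^ 2 = 0 := by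
    intro θ
    have hn : ‖(2 * l) • (θ : E3)‖ = 2 * l := by
      rw [norm_smul, norm_eq_of_mem_sphere, mul_one, Real.norm_eq_abs, abs_of_pos (by linarith)]
    have h4 : ∀ j, VV g ((2 * l) • (θ : E3)) j = 0 := by
      intro j
      unfold VV
      apply Finset.sum_eq_zero
      intro i _
      have h5 : ∀ a b c, pd a (fun y => g y b c) ((2 * l) • (θ : E3)) = 0 := by
        intro a b c
        unfold pd
        refine fderiv_zero (r := 2 * l) (c := (1 : Matrix (Fin 3) (Fin 3) ℝ) b c)
          ((hg _ (by rw [hn]; linarith) b c).differentiableAt (by simp)) hn ?_ _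
        intro y hy
        rw [hflat y hy]
      rw [h5, h5, sub_zero]
    simp only [h4, zero_mul, Finset.sum_const_zero]
  simp only [h3, integral_zero, zero_sub]
  unfold massIntegral
  rw [neg_inj]
  have hpi : (16 * Real.pi) ≠ 0 := by positivity
  have h6 : ∀ a : ℝ, 16 * Real.pi * (1 / (16 * Real.pi) * a) = a := by
    intro a
    field_simp
  rw [h6]
  apply integral_congr_ae
  filter_upwards with θ
  have h7 : ∑ i, VV g (l • (θ : E3)) i * (θ : E3) i =
      ∑ i, ∑ j, (pd i (fun y => g y i j) (l • (θ : E3)) - pd j (fun y => g y i i) (l • (θ : E3)))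
        * (θ : E3) j := by
    unfold VV
    rw [Finset.sum_comm]
    apply Finset.sum_congr rfl
    intro j _
    rw [Finset.sum_mul]
  rw [h7]

end Pool.Agent.PFlow
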