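import Pool.Agent.PFlow.StmtsE1
import Pool.Agent.PenroseSph.SphereDiv

/-!
# The divergence theorem on an annulus
-/

open MeasureTheory Filter Topology Set
open scoped ContDiff

namespace Pool.Agent.PFlow

open Pool.Agent.PenroseSph

namespace DIVG

/-- The one dimensional argument: from the weak formulation to the fundamental theorem. -/
theorem one_dim {F G : ℝ → ℝ} (hF : Continuous F) (hG : Continuous G) {d : ℝ} (hd : 0 < d)
    (hFd : ∀ r, d ≤ r → F r = 0) (hGd : ∀ r, d ≤ r → G r = 0)
    (hw : ∀ h : ℝ → ℝ, ContDiff ℝ 1 h →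
      ∫ r in Ioi (0 : ℝ), h r * G r = -∫ r in Ioi (0 : ℝ), deriv h r * F r) :
    ∀ a b : ℝ, 0 ≤ a → a ≤ d → 0 ≤ b → b ≤ d → ∫ r in a..b, G r = F b - F a := by
  set P : ℝ → ℝ := fun r => ∫ t in (0 : ℝ)..r, G t with hP
  have hPd : ∀ r, HasDerivAt P (G r) r := fun r => hG.integral_hasStrictDerivAt 0 r |>.hasDerivAt
  have hPc : Continuous P := continuous_iff_continuousAt.mpr fun r => (hPd r).continuousAt
  set H : ℝ → ℝ := fun r => F r - P r with hH
  have hHc : Continuous H := hF.sub hPc
  set h : ℝ → ℝ := fun r => ∫ t in (0 : ℝ)..r, H t with hh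
  have hhd : ∀ r, HasDerivAt h (H r) r := fun r => hHc.integral_hasStrictDerivAt 0 r |>.hasDerivAt
  have hderiv : deriv h = H := funext fun r => (hhd r).deriv
  have hh1 : ContDiff ℝ 1 h := by
    rw [contDiff_one_iff_deriv]
    exact ⟨fun r => (hhd r).differentiableAt, hderiv ▸ hHc⟩
  have hcut : ∀ g : ℝ → ℝ, (∀ r, d ≤ r → g r = 0) →
      ∫ r in Ioi (0 : ℝ), g r = ∫ r in (0 : ℝ)..d, g r := by
    intro g hg
    rw [intervalIntegral.integral_of_le hd.le]
    refine setIntegral_eq_of_subset_of_forall_sdiff_eq_zero measurableSet_Ioi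
      (fun x hx => hx.1) ?_
    intro x hx
    refine hg x ?_
    by_contra hlt
    exact hx.2 ⟨hx.1, (not_le.mp hlt).le⟩
  have hPdz : P d = 0 := by
    have h1 := hw (fun _ => 1) contDiff_const
    simp only [one_mul, deriv_const, zero_mul, integral_zero, neg_zero] at h1
    rw [hcut G hGd] at h1
    exact h1
  have h2 := hw h hh1
  rw [hderiv, hcut (fun r => h r * G r) (fun r hr => by rw [hGd r hr, mul_zero]),
    hcut (fun r => H r * F r) (fun r hr => by rw [hFd r hr, mul_zero])] at h2
  have h3 : ∫ r in (0 : ℝ)..d, h r * G r = h d * P d - h 0 * P 0 - ∫ r in (0 : ℝ)..d, H r * P r :=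
    intervalIntegral.integral_mul_deriv_eq_deriv_mul (fun r _ => hhd r) (fun r _ => hPd r)
      (hHc.intervalIntegrable _ _) (hG.intervalIntegrable _ _)
  have hh0 : h 0 = 0 := by rw [hh]; simp
  rw [hPdz, hh0, mul_zero, zero_mul, sub_zero, zero_sub, h2] at h3
  have h4 : ∫ r in (0 : ℝ)..d, H r * H r = 0 := by
    have e : ∀ r, H r * H r = H r * F r - H r * P r := fun r => by
      simp only [hH]; ring
    simp only [e]
    have i1 : IntervalIntegrable (fun r => H r * F r) volume 0 d :=
      (hHc.mul hF).intervalIntegrable _ _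
    have i2 : IntervalIntegrable (fun r => H r * P r) volume 0 d :=
      (hHc.mul hPc).intervalIntegrable _ _
    rw [intervalIntegral.integral_sub i1 i2]
    linarith
  have h5 : ∀ r ∈ Icc (0 : ℝ) d, H r = 0 := by
    by_contra hcon
    push Not at hcon
    obtain ⟨r, hr, hne⟩ := hcon
    have hpos : 0 < ∫ r in (0 : ℝ)..d, H r * H r := by
      refine intervalIntegral.integral_pos hd (hHc.mul hHc).continuousOn
        (fun x _ => mul_self_nonneg _) ⟨r, hr, ?_⟩
      exact mul_self_pos.mpr hne
    exact hpos.ne' h4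
  intro a b ha ha' hb hb'
  have h6 := h5 a ⟨ha, ha'⟩
  have h7 := h5 b ⟨hb, hb'⟩
  simp only [hH] at h6 h7
  have h8 : ∫ r in a..b, G r = P b - P a := by
    simp only [hP]
    rw [intervalIntegral.integral_interval_sub_left (hG.intervalIntegrable _ _)
      (hG.intervalIntegrable _ _)]
  rw [h8]
  linarith

/-- Continuity of spherical integrals. -/
theorem continuous_sphere {G : E3 → ℝ} (hG : Continuous G) :
    Continuous (fun r : ℝ => ∫ θ, G (r • (θ : E3)) ∂sph) := by
  have h1 : Continuous (Function.uncurry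
      fun (r : ℝ) (θ : Metric.sphere (0 : E3) 1) => G (r • (θ : E3))) :=
    hG.comp (by fun_prop : Continuous fun p : ℝ × Metric.sphere (0 : E3) 1 => p.1 • (p.2 : E3))
  have h2 := continuous_parametric_integral_of_continuous (μ := sph) h1
    (isCompact_univ (X := Metric.sphere (0 : E3) 1))
  simpa only [Measure.restrict_univ] using h2

/-- Continuity of weighted spherical integrals. -/
theorem continuous_sphere' {G : Fin 3 → E3 → ℝ} (hG : ∀ i, Continuous (G i)) :
    Continuous (fun r : ℝ => ∫ θ, (∑ i, (θ : E3) i * G i (r • (θ : E3))) ∂sph) := by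
  have h1 : Continuous (Function.uncurry
      fun (r : ℝ) (θ : Metric.sphere (0 : E3) 1) => ∑ i, (θ : E3) i * G i (r • (θ : E3))) := by
    refine continuous_finsetSum _ fun i _ => ?_
    refine Continuous.mul (by fun_prop) ?_
    exact (hG i).comp (by fun_prop : Continuous fun p : ℝ × Metric.sphere (0 : E3) 1 =>
      p.1 • (p.2 : E3))
  have h2 := continuous_parametric_integral_of_continuous (μ := sph) h1
    (isCompact_univ (X := Metric.sphere (0 : E3) 1))
  simpa only [Measure.restrict_univ] using h2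

/-- The weak formula for a field supported in a shell. -/
theorem weak {W : Fin 3 → E3 → ℝ} (hW : ∀ i, ContDiff ℝ 1 (W i)) {χ : ℝ → ℝ}
    (hc : HasCompactSupport χ) (hs : tsupport χ ⊆ Ioi 0)
    (hWs : ∀ i, ∀ x : E3, ‖x‖ ∉ tsupport χ → W i x = 0) {h : ℝ → ℝ} (hh : ContDiff ℝ 1 h) :
    ∫ x : E3, h ‖x‖ * ∑ i, pd i (W i) x = -∫ x : E3, deriv h ‖x‖ * ∑ i, (x i / ‖x‖) * W i x := by
  have hts : ∀ i, ∀ x : E3, x ∈ tsupport (W i) → ‖x‖ ∈ tsupport χ := by
    intro i x hx
    have h1 : tsupport (W i) ⊆ {x : E3 | ‖x‖ ∈ tsupport χ} := by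
      refine closure_minimal ?_ ((isClosed_tsupport χ).preimage continuous_norm)
      intro y hy
      by_contra hcon
      exact hy (hWs i y hcon)
    exact h1 hx
  have hpd0 : ∀ i, ∀ x : E3, ‖x‖ ∉ tsupport χ → pd i (W i) x = 0 := by
    intro i x hx
    have h1 : x ∉ tsupport (W i) := fun h => hx (hts i x h)
    have h2 : W i =ᶠ[𝓝 x] 0 := notMem_tsupport_iff_eventuallyEq.1 h1
    unfold pd
    rw [h2.fderiv_eq]
    simp
  have hpf : ∀ i (x : E3), 0 < ‖x‖ →
      fderiv ℝ (fun y : E3 => h ‖y‖) x (EuclideanSpace.single i 1)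
        = deriv h ‖x‖ * (x i / ‖x‖) := by
    intro i x hx
    rw [(hasFDerivAt_comp_norm hh (norm_pos_iff.mp hx)).fderiv]
    simp [EuclideanSpace.inner_single_right]
    left
    ring
  have hcb : ∀ i, Continuous (fun x => pd i (W i) x) := fun i =>
    ((hW i).continuous_fderiv one_ne_zero).clm_apply continuous_const
  have hhn : Continuous fun x : E3 => h ‖x‖ := hh.continuous.comp continuous_norm
  have hcf : ∀ i, ContinuousOn (fun x : E3 => deriv h ‖x‖ * (x i / ‖x‖)) {x : E3 | 0 < ‖x‖} := by
    intro i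
    have h2 : Continuous fun x : E3 => deriv h ‖x‖ :=
      (hh.continuous_deriv le_rfl).comp continuous_norm
    refine h2.continuousOn.mul (ContinuousOn.div (by fun_prop) continuous_norm.continuousOn ?_)
    intro x hx
    exact (show 0 < ‖x‖ from hx).ne'
  have hi1 : ∀ i, Integrable (fun x : E3 => deriv h ‖x‖ * (x i / ‖x‖) * W i x) := by
    intro i
    have := integrable_shell hc hs (hW i).continuous.continuousOn (hWs i) (hcf i)
    refine this.congr (Eventually.of_forall fun x => ?_)
    simp only []; ring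
  have hi1' : ∀ i, ∀ x : E3, fderiv ℝ (fun y : E3 => h ‖y‖) x (EuclideanSpace.single i 1) * W i x
      = deriv h ‖x‖ * (x i / ‖x‖) * W i x := by
    intro i x
    by_cases hx : ‖x‖ ∈ tsupport χ
    · rw [hpf i x (hs hx)]
    · rw [hWs i x hx, mul_zero, mul_zero]
  have hi2 : ∀ i, Integrable (fun x : E3 => h ‖x‖ * pd i (W i) x) := by
    intro i
    have := integrable_shell hc hs (hcb i).continuousOn (hpd0 i) hhn.continuousOn
    refine this.congr (Eventually.of_forall fun x => ?_)
    simp only []; ring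
  have hi3 : ∀ i, Integrable (fun x : E3 => h ‖x‖ * W i x) := by
    intro i
    have := integrable_shell hc hs (hW i).continuous.continuousOn (hWs i) hhn.continuousOn
    refine this.congr (Eventually.of_forall fun x => ?_)
    simp only []; ring
  have key : ∀ i, ∫ x : E3, h ‖x‖ * pd i (W i) x
      = - ∫ x : E3, deriv h ‖x‖ * (x i / ‖x‖) * W i x := by
    intro i
    have h1 : ∫ x : E3, h ‖x‖ * pd i (W i) x
      = - ∫ x : E3, fderiv ℝ (fun y : E3 => h ‖y‖) x (EuclideanSpace.single i 1) * W i x := by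
      refine integral_mul_fderiv_eq_neg_fderiv_mul_of_integrable
        (f := fun y : E3 => h ‖y‖) (g := W i) (v := EuclideanSpace.single i 1) ?_ (hi2 i) (hi3 i)
        ?_ ?_
      · simp only [hi1' i]
        exact hi1 i
      · intro x hx
        exact (hasFDerivAt_comp_norm hh (norm_pos_iff.mp (hs (hts i x hx)))).differentiableAt
      · exact fun x _ => ((hW i).differentiable one_ne_zero).differentiableAt
    rw [h1]
    simp only [hi1' i]
  have e1 : ∫ x : E3, h ‖x‖ * ∑ i, pd i (W i) x = ∑ i, ∫ x : E3, h ‖x‖ * pd i (W i) x := by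
    rw [← integral_finsetSum _ fun i _ => hi2 i]
    simp only [Finset.mul_sum]
  rw [e1, Finset.sum_congr rfl fun i _ => key i, Finset.sum_neg_distrib,
    ← integral_finsetSum _ fun i _ => hi1 i]
  congr 1
  refine integral_congr_ae (Eventually.of_forall fun x => ?_)
  simp only [Finset.mul_sum]
  exact Finset.sum_congr rfl fun i _ => by ring

/-- The divergence theorem for a field supported in a shell. -/
theorem shell {W : Fin 3 → E3 → ℝ} (hW : ∀ i, ContDiff ℝ 1 (W i)) {χ : ℝ → ℝ}
    (hc : HasCompactSupport χ) (hs : tsupport χ ⊆ Ioi 0)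
    (hWs : ∀ i, ∀ x : E3, ‖x‖ ∉ tsupport χ → W i x = 0) {a b : ℝ} (ha : 0 < a) (hab : a ≤ b) :
    ∫ x in cAnn a b, ∑ i, pd i (W i) x =
      b ^ 2 * ∫ θ, (∑ i, (θ : E3) i * W i (b • (θ : E3))) ∂sph -
      a ^ 2 * ∫ θ, (∑ i, (θ : E3) i * W i (a • (θ : E3))) ∂sph := by
  have hcb : ∀ i, Continuous (fun x => pd i (W i) x) := fun i =>
    ((hW i).continuous_fderiv one_ne_zero).clm_apply continuous_const
  have hcd : Continuous (fun x => ∑ i, pd i (W i) x) := continuous_finsetSum _ fun i _ => hcb i
  have hts : ∀ i, ∀ x : E3, x ∈ tsupport (W i) → ‖x‖ ∈ tsupport χ := by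
    intro i x hx
    have h1 : tsupport (W i) ⊆ {x : E3 | ‖x‖ ∈ tsupport χ} := by
      refine closure_minimal ?_ ((isClosed_tsupport χ).preimage continuous_norm)
      intro y hy
      by_contra hcon
      exact hy (hWs i y hcon)
    exact h1 hx
  have hpd0 : ∀ i, ∀ x : E3, ‖x‖ ∉ tsupport χ → pd i (W i) x = 0 := by
    intro i x hx
    have h1 : x ∉ tsupport (W i) := fun h => hx (hts i x h)
    have h2 : W i =ᶠ[𝓝 x] 0 := notMem_tsupport_iff_eventuallyEq.1 h1
    unfold pd
    rw [h2.fderiv_eq]
    simp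
  obtain ⟨d, hbd, hd⟩ : ∃ d : ℝ, b ≤ d ∧ ∀ r ∈ tsupport χ, r < d := by
    obtain ⟨R, hR⟩ := hc.isBounded.subset_closedBall (0 : ℝ)
    refine ⟨max b (R + 1), le_max_left _ _, fun r hr => ?_⟩
    have h1 := hR hr
    rw [Metric.mem_closedBall, dist_zero_right, Real.norm_eq_abs] at h1
    exact lt_of_lt_of_le (lt_of_le_of_lt ((le_abs_self r).trans h1) (by linarith)) (le_max_right _ _)
  have hd0 : 0 < d := ha.trans_le (hab.trans hbd)
  set G : ℝ → ℝ := fun r => r ^ 2 * ∫ θ, (∑ i, pd i (W i) (r • (θ : E3))) ∂sph with hG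
  set F : ℝ → ℝ := fun r => r ^ 2 * ∫ θ, (∑ i, (θ : E3) i * W i (r • (θ : E3))) ∂sph with hF
  have hGc : Continuous G := (by fun_prop : Continuous fun r : ℝ => r ^ 2).mul (continuous_sphere hcd)
  have hFc : Continuous F := (by fun_prop : Continuous fun r : ℝ => r ^ 2).mul
    (continuous_sphere' fun i => (hW i).continuous)
  have hnorm : ∀ r : ℝ, 0 < r → ∀ θ : Metric.sphere (0 : E3) 1, ‖r • (θ : E3)‖ = r := by
    intro r hr θ
    rw [norm_smul, norm_eq_of_mem_sphere, mul_one, Real.norm_eq_abs, abs_of_pos hr]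
  have hFd : ∀ r, d ≤ r → F r = 0 := by
    intro r hr
    have hr0 : 0 < r := hd0.trans_le hr
    have h1 : ∀ θ : Metric.sphere (0 : E3) 1, (∑ i, (θ : E3) i * W i (r • (θ : E3))) = 0 := by
      intro θ
      refine Finset.sum_eq_zero fun i _ => ?_
      rw [hWs i _ (by rw [hnorm r hr0 θ]; exact fun h => (hd r h).not_ge hr), mul_zero]
    simp only [hF, h1, integral_zero, mul_zero]
  have hGd : ∀ r, d ≤ r → G r = 0 := by
    intro r hr
    have hr0 : 0 < r := hd0.trans_le hr
    have h1 : ∀ θ : Metric.sphere (0 : E3) 1, (∑ i, pd i (W i) (r • (θ : E3))) = 0 := by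
      intro θ
      refine Finset.sum_eq_zero fun i _ => ?_
      rw [hpd0 i _ (by rw [hnorm r hr0 θ]; exact fun h => (hd r h).not_ge hr)]
    simp only [hG, h1, integral_zero, mul_zero]
  have hone := one_dim hFc hGc hd0 hFd hGd ?_ a b ha.le (hab.trans hbd) (ha.le.trans hab) hbd
  · rw [← hone, ← integral_indicator (by
      unfold cAnn
      exact (isClosed_le continuous_const continuous_norm).measurableSet.inter
        (isClosed_le continuous_norm continuous_const).measurableSet), integral_polar]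
    · rw [intervalIntegral.integral_of_le hab, ← integral_Icc_eq_integral_Ioc,
        ← integral_indicator measurableSet_Ioi, ← integral_indicator measurableSet_Icc]
      refine integral_congr_ae (Eventually.of_forall fun r => ?_)
      by_cases hr : 0 < r
      · rw [indicator_of_mem (show r ∈ Ioi (0 : ℝ) from hr)]
        by_cases hr2 : r ∈ Icc a b
        · rw [indicator_of_mem hr2]
          simp only [hG]
          congr 1
          refine integral_congr_ae (Eventually.of_forall fun θ => ?_)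
          simp only []
          rw [indicator_of_mem]
          show a ≤ ‖r • (θ : E3)‖ ∧ ‖r • (θ : E3)‖ ≤ b
          rw [hnorm r hr θ]
          exact hr2
        · rw [indicator_of_notMem hr2]
          have h1 : ∀ θ : Metric.sphere (0 : E3) 1,
              (cAnn a b).indicator (fun x => ∑ i, pd i (W i) x) (r • (θ : E3)) = 0 := by
            intro θ
            rw [indicator_of_notMem]
            intro hmem
            have hmem : a ≤ ‖r • (θ : E3)‖ ∧ ‖r • (θ : E3)‖ ≤ b := hmem
            rw [hnorm r hr θ] at hmem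
            exact hr2 hmem
          simp only [h1, integral_zero, mul_zero]
      · rw [indicator_of_notMem (show r ∉ Ioi (0 : ℝ) from hr), indicator_of_notMem]
        exact fun h => hr (ha.trans_le h.1)
    · have hcomp : IsCompact (cAnn a b) := by
        refine Metric.isCompact_of_isClosed_isBounded ?_ ?_
        · exact (isClosed_le continuous_const continuous_norm).inter
            (isClosed_le continuous_norm continuous_const)
        · refine (Metric.isBounded_closedBall (x := (0 : E3)) (r := b)).subset ?_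
          intro x hx
          rw [mem_closedBall_zero_iff]
          exact hx.2
      rw [integrable_indicator_iff hcomp.measurableSet]
      exact hcd.continuousOn.integrableOn_compact hcomp
  · intro h hh
    have hw := weak hW hc hs hWs hh
    have hhn : Continuous fun x : E3 => h ‖x‖ := hh.continuous.comp continuous_norm
    have hpdz : ∀ x : E3, ‖x‖ ∉ tsupport χ → ∑ i, pd i (W i) x = 0 := fun x hx =>
      Finset.sum_eq_zero fun i _ => hpd0 i x hx
    have hI1 : Integrable (fun x : E3 => h ‖x‖ * ∑ i, pd i (W i) x) := by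
      have := integrable_shell hc hs hcd.continuousOn hpdz hhn.continuousOn
      refine this.congr (Eventually.of_forall fun x => ?_)
      simp only []; ring
    have hI2 : Integrable (fun x : E3 => deriv h ‖x‖ * ∑ i, (x i / ‖x‖) * W i x) := by
      have h2 : Continuous fun x : E3 => deriv h ‖x‖ :=
        (hh.continuous_deriv le_rfl).comp continuous_norm
      have h3 : ContinuousOn (fun x : E3 => ∑ i, (x i / ‖x‖) * W i x) {x : E3 | 0 < ‖x‖} := by
        refine continuousOn_finsetSum _ fun i _ => ?_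
        refine ContinuousOn.mul (ContinuousOn.div (by fun_prop) continuous_norm.continuousOn ?_)
          (hW i).continuous.continuousOn
        intro x hx
        exact (show 0 < ‖x‖ from hx).ne'
      have := integrable_shell hc hs h3 (fun x hx => Finset.sum_eq_zero fun i _ => by
        rw [hWs i x hx, mul_zero]) h2.continuousOn
      refine this.congr (Eventually.of_forall fun x => ?_)
      simp only []; ring
    rw [integral_polar hI1, integral_polar hI2] at hw
    have e1 : ∫ r in Ioi (0 : ℝ), h r * G r = ∫ r in Ioi (0 : ℝ), r ^ 2 *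
        ∫ θ, (h ‖r • (θ : E3)‖ * ∑ i, pd i (W i) (r • (θ : E3))) ∂sph := by
      refine setIntegral_congr_fun measurableSet_Ioi fun r hr => ?_
      have hr0 : 0 < r := hr
      simp only [hnorm r hr0]
      rw [integral_const_mul, hG]
      ring
    have e2 : ∫ r in Ioi (0 : ℝ), deriv h r * F r = ∫ r in Ioi (0 : ℝ), r ^ 2 *
        ∫ θ, (deriv h ‖r • (θ : E3)‖ * ∑ i, ((r • (θ : E3)) i / ‖r • (θ : E3)‖) *
          W i (r • (θ : E3))) ∂sph := by
      refine setIntegral_congr_fun measurableSet_Ioi fun r hr => ?_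
      have hr0 : 0 < r := hr
      have h4 : ∀ (θ : Metric.sphere (0 : E3) 1) (i : Fin 3), (r • (θ : E3)) i / r = (θ : E3) i := by
        intro θ i
        rw [PiLp.smul_apply, smul_eq_mul, mul_div_cancel_left₀ _ hr0.ne']
      simp only [hnorm r hr0, h4]
      rw [integral_const_mul, hF]
      ring
    rw [e1, e2]
    exact hw

/-- A neighbourhood of the annulus. -/
theorem nbhd {S : Set E3} (hS : IsOpen S) {a b : ℝ} (ha : 0 < a) (hab : a ≤ b)
    (h : cAnn a b ⊆ S) : ∃ ε : ℝ, 0 < ε ∧ ε < a ∧ ∀ x : E3, a - ε < ‖x‖ → ‖x‖ < b + ε → x ∈ S := by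
  have hcomp : IsCompact (cAnn a b) := by
    refine Metric.isCompact_of_isClosed_isBounded ?_ ?_
    · exact (isClosed_le continuous_const continuous_norm).inter
        (isClosed_le continuous_norm continuous_const)
    · refine (Metric.isBounded_closedBall (x := (0 : E3)) (r := b)).subset ?_
      intro x hx
      rw [mem_closedBall_zero_iff]
      exact hx.2
  obtain ⟨δ, hδ, hsub⟩ := hcomp.exists_thickening_subset_open hS h
  refine ⟨min δ (a / 2), by positivity, lt_of_le_of_lt (min_le_right _ _) (by linarith), ?_⟩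
  intro x hx1 hx2
  have hm1 : min δ (a / 2) ≤ δ := min_le_left _ _
  have hm2 : min δ (a / 2) ≤ a / 2 := min_le_right _ _
  have hx0 : 0 < ‖x‖ := by linarith
  apply hsub
  rw [Metric.mem_thickening_iff]
  set t : ℝ := max a (min ‖x‖ b) with ht
  have hta : a ≤ t := le_max_left _ _
  have htb : t ≤ b := max_le hab (min_le_right _ _)
  have ht0 : 0 < t := ha.trans_le hta
  have hdist : |‖x‖ - t| < δ := by
    rw [abs_lt]
    constructor
    · have : t ≤ max a ‖x‖ := max_le_max le_rfl (min_le_left _ _)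
      rcases le_total a ‖x‖ with h' | h'
      · rw [max_eq_right h'] at this; linarith
      · rw [max_eq_left h'] at this; linarith
    · have : min ‖x‖ b ≤ t := le_max_right _ _
      rcases le_total ‖x‖ b with h' | h'
      · rw [min_eq_left h'] at this; linarith
      · rw [min_eq_right h'] at this; linarith
  refine ⟨(t / ‖x‖) • x, ?_, ?_⟩
  · show a ≤ ‖(t / ‖x‖) • x‖ ∧ ‖(t / ‖x‖) • x‖ ≤ b
    rw [norm_smul, Real.norm_of_nonneg (by positivity), div_mul_cancel₀ _ hx0.ne']
    exact ⟨hta, htb⟩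
  · rw [dist_eq_norm]
    have : x - (t / ‖x‖) • x = ((‖x‖ - t) / ‖x‖) • x := by
      rw [sub_div, div_self hx0.ne', sub_smul, one_smul]
    rw [this, norm_smul, Real.norm_eq_abs, abs_div, abs_of_pos hx0, div_mul_cancel₀ _ hx0.ne']
    exact hdist

end DIVG

open DIVG in
/-- Module DIVG. -/
theorem DIVG : Stmt_DIVG := by
  intro V a b ha hab hV
  set S : Set E3 := {x | ∀ i, ContDiffAt ℝ 1 (fun y => V y i) x} with hS
  have hSo : IsOpen S := by
    rw [isOpen_iff_mem_nhds]
    intro x hx
    have : ∀ i, ∀ᶠ y in 𝓝 x, ContDiffAt ℝ 1 (fun y => V y i) y := fun i =>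
      (hx i).eventually (by simp)
    exact eventually_all.mpr this
  obtain ⟨ε, hε, hεa, hn⟩ := nbhd hSo ha hab (fun x hx => hV x hx)
  let χ : ContDiffBump ((a + b) / 2 : ℝ) :=
    ⟨(b - a) / 2 + ε / 3, (b - a) / 2 + 2 * ε / 3, by linarith, by linarith⟩
  have hχ1 : ∀ r : ℝ, a - ε / 3 ≤ r → r ≤ b + ε / 3 → χ r = 1 := by
    intro r h1 h2
    refine χ.one_of_mem_closedBall ?_
    rw [Metric.mem_closedBall, Real.dist_eq, abs_le]
    show -((b - a) / 2 + ε / 3) ≤ r - (a + b) / 2 ∧ r - (a + b) / 2 ≤ (b - a) / 2 + ε / 3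
    constructor <;> linarith
  have hχt : ∀ r ∈ tsupport (χ : ℝ → ℝ), a - ε < r ∧ r < b + ε := by
    intro r hr
    rw [χ.tsupport_eq, Metric.mem_closedBall, Real.dist_eq, abs_le] at hr
    have hr' : -((b - a) / 2 + 2 * ε / 3) ≤ r - (a + b) / 2 ∧
      r - (a + b) / 2 ≤ (b - a) / 2 + 2 * ε / 3 := hr
    constructor <;> linarith [hr'.1, hr'.2]
  have hχs : tsupport (χ : ℝ → ℝ) ⊆ Ioi 0 := by
    intro r hr
    have := (hχt r hr).1
    show 0 < r
    linarith
  have hχc : HasCompactSupport (χ : ℝ → ℝ) := χ.hasCompactSupport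
  have hχd : ContDiff ℝ 1 (χ : ℝ → ℝ) := χ.contDiff
  set W : Fin 3 → E3 → ℝ := fun i x => χ ‖x‖ * V x i with hWdef
  have hWs : ∀ i, ∀ x : E3, ‖x‖ ∉ tsupport (χ : ℝ → ℝ) → W i x = 0 := by
    intro i x hx
    simp only [hWdef]
    rw [image_eq_zero_of_notMem_tsupport hx, zero_mul]
  have hW : ∀ i, ContDiff ℝ 1 (W i) := by
    intro i
    rw [contDiff_iff_contDiffAt]
    intro x
    by_cases hx : ‖x‖ ∈ tsupport (χ : ℝ → ℝ)
    · have hx0 : x ≠ 0 := norm_pos_iff.mp (hχs hx)
      have h1 : x ∈ S := hn x (hχt _ hx).1 (hχt _ hx).2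
      exact (hχd.contDiffAt.comp x (contDiffAt_norm ℝ hx0)).mul (h1 i)
    · have h1 : ∀ᶠ y : E3 in 𝓝 x, W i y = 0 := by
        have : ∀ᶠ y : E3 in 𝓝 x, ‖y‖ ∈ (tsupport (χ : ℝ → ℝ))ᶜ :=
          continuous_norm.continuousAt.eventually
            ((isClosed_tsupport (χ : ℝ → ℝ)).isOpen_compl.mem_nhds hx)
        filter_upwards [this] with y hy
        exact hWs i y hy
      exact contDiffAt_const.congr_of_eventuallyEq (f := fun _ => (0 : ℝ)) h1
  have hmain := shell hW hχc hχs hWs ha hab
  have hma : MeasurableSet (cAnn a b) := by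
    unfold cAnn
    exact (isClosed_le continuous_const continuous_norm).measurableSet.inter
      (isClosed_le continuous_norm continuous_const).measurableSet
  have e1 : ∫ x in cAnn a b, ∑ i, pd i (fun y => V y i) x = ∫ x in cAnn a b, ∑ i, pd i (W i) x := by
    refine setIntegral_congr_fun hma fun x hx => ?_
    refine Finset.sum_congr rfl fun i _ => ?_
    have h1 : (fun y => V y i) =ᶠ[𝓝 x] W i := by
      have h2 : ∀ᶠ y : E3 in 𝓝 x, ‖y‖ ∈ Ioo (a - ε / 3) (b + ε / 3) := by
        refine continuous_norm.continuousAt.eventually (isOpen_Ioo.mem_nhds ?_)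
        have hx' : a ≤ ‖x‖ ∧ ‖x‖ ≤ b := hx
        constructor <;> linarith [hx'.1, hx'.2]
      filter_upwards [h2] with y hy
      simp only [hWdef]
      rw [hχ1 _ hy.1.le hy.2.le, one_mul]
    unfold pd
    rw [h1.fderiv_eq]
  have e2 : ∀ r : ℝ, 0 < r → a ≤ r → r ≤ b →
      ∫ θ : Metric.sphere (0 : E3) 1, (∑ i, V (r • (θ : E3)) i * (θ : E3) i) * r ^ 2
          ∂((volume : Measure E3).toSphere) =
      r ^ 2 * ∫ θ, (∑ i, (θ : E3) i * W i (r • (θ : E3))) ∂sph := by
    intro r hr h1 h2
    rw [← integral_const_mul]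
    refine integral_congr_ae (Eventually.of_forall fun θ => ?_)
    have h3 : ‖r • (θ : E3)‖ = r := by
      rw [norm_smul, norm_eq_of_mem_sphere, mul_one, Real.norm_eq_abs, abs_of_pos hr]
    simp only [hWdef, h3, hχ1 r (by linarith) (by linarith), one_mul]
    rw [mul_comm]
    congr 1
    exact Finset.sum_congr rfl fun i _ => mul_comm _ _
  rw [e1, hmain, e2 b (ha.trans_le hab) hab le_rfl, e2 a ha le_rfl hab]

end Pool.Agent.PFlow
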