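import Pool.Agent.PFlow.StmtsE1

set_option autoImplicit false

/-!
# HATB: smoothness, 2-nonnegativity and size of the modified tensor
-/

open MeasureTheory Filter Topology
open scoped ContDiff

namespace Pool.Agent.PFlow

open Pool.Agent.PenroseSph

namespace HATBaux

lemma contDiffOn_det {U : Set E3} {M : E3 → Bil}
    (h : ∀ i j, ContDiffOn ℝ ∞ (fun x => M x i j) U) :
    ContDiffOn ℝ ∞ (fun x => (M x).det) U := by
  simp only [Matrix.det_fin_three]
  exact ((((((((h 0 0).mul (h 1 1)).mul (h 2 2)).sub (((h 0 0).mul (h 1 2)).mul (h 2 1))).sub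
    (((h 0 1).mul (h 1 0)).mul (h 2 2))).add (((h 0 1).mul (h 1 2)).mul (h 2 0))).add
    (((h 0 2).mul (h 1 0)).mul (h 2 1))).sub (((h 0 2).mul (h 1 1)).mul (h 2 0)))

lemma contDiffOn_adj {U : Set E3} {M : E3 → Bil}
    (h : ∀ i j, ContDiffOn ℝ ∞ (fun x => M x i j) U) (i j : Fin 3) :
    ContDiffOn ℝ ∞ (fun x => (M x).adjugate i j) U := by
  simp only [Matrix.adjugate_apply]
  apply contDiffOn_det
  intro a b
  by_cases haj : a = j
  · subst haj
    simp only [Matrix.updateRow_self]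
    exact contDiffOn_const
  · simp only [Matrix.updateRow_ne haj]
    exact h a b

lemma contDiffOn_inv {U : Set E3} {g : TensorField} (hg : MetricOn U g) (i j : Fin 3) :
    ContDiffOn ℝ ∞ (fun x => (g x)⁻¹ i j) U := by
  have hd := contDiffOn_det hg.smooth
  have ha := contDiffOn_adj hg.smooth i j
  have hne : ∀ x ∈ U, (g x).det ≠ 0 := fun x hx => (hg.posDef x hx).det_pos.ne'
  have h := (hd.inv hne).mul ha
  refine h.congr ?_
  intro x hx
  rw [Matrix.inv_def, Ring.inverse_eq_inv']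
  rfl

lemma contDiffOn_trg {U : Set E3} {g h : TensorField} (hg : MetricOn U g) (hh : TensorOn U h) :
    ContDiffOn ℝ ∞ (fun x => trg g x (h x)) U := by
  unfold trg
  exact ContDiffOn.sum fun i _ => ContDiffOn.sum fun j _ => (contDiffOn_inv hg i j).mul (hh.smooth i j)

lemma contDiff_hatF {η : ℝ} (hη : 0 < η) : ContDiff ℝ ∞ (hatF η) := by
  unfold hatF
  have h1 : ContDiff ℝ ∞ (fun t : ℝ => t ^ 2 + η ^ 2) := by fun_prop
  have h2 : ContDiff ℝ ∞ (fun t : ℝ => Real.sqrt (t ^ 2 + η ^ 2)) :=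
    h1.sqrt (fun t => by positivity)
  exact contDiff_id.div h2 (fun t => by positivity)

lemma hatF_nonneg {η t : ℝ} (ht : 0 ≤ t) : 0 ≤ hatF η t :=
  div_nonneg ht (Real.sqrt_nonneg _)

lemma hatF_nonpos {η t : ℝ} (ht : t ≤ 0) : hatF η t ≤ 0 :=
  div_nonpos_of_nonpos_of_nonneg ht (Real.sqrt_nonneg _)

lemma abs_hatF_le (η t : ℝ) : |hatF η t| ≤ 1 := by
  unfold hatF
  rw [abs_div, abs_of_nonneg (Real.sqrt_nonneg _)]
  apply div_le_one_of_le₀ _ (Real.sqrt_nonneg _)
  apply Real.abs_le_sqrt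
  nlinarith [sq_nonneg η]

lemma hatF_sq_le (η t : ℝ) : hatF η t ^ 2 ≤ 1 := by
  have h := abs_hatF_le η t
  rw [← sq_abs]
  nlinarith [abs_nonneg (hatF η t)]

lemma ev_smul (f : ℝ) (B : Bil) (v w : Cov) : ev (f • B) v w = f * ev B v w := by
  unfold ev
  simp only [Matrix.smul_apply, smul_eq_mul, Finset.mul_sum]
  exact Finset.sum_congr rfl fun i _ => Finset.sum_congr rfl fun j _ => by ring

lemma trg_smul (g : TensorField) (x : E3) (f : ℝ) (B : Bil) :
    trg g x (f • B) = f * trg g x B := by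
  unfold trg
  simp only [Matrix.smul_apply, smul_eq_mul, Finset.mul_sum]
  exact Finset.sum_congr rfl fun i _ => Finset.sum_congr rfl fun j _ => by ring

lemma nsq_smul (g : TensorField) (x : E3) (f : ℝ) (B : Bil) :
    nsq g x (f • B) = f ^ 2 * nsq g x B := by
  unfold nsq
  simp only [Matrix.smul_apply, smul_eq_mul, Finset.mul_sum]
  exact Finset.sum_congr rfl fun i _ => Finset.sum_congr rfl fun j _ =>
    Finset.sum_congr rfl fun k _ => Finset.sum_congr rfl fun l _ => by ring

lemma ev_nonneg {P : Bil} (hP : P.PosSemidef) (v : Cov) : 0 ≤ ev P v v := by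
  have h := hP.dotProduct_mulVec_nonneg v
  have e : star v ⬝ᵥ P.mulVec v = ev P v v := by
    simp only [dotProduct, Matrix.mulVec, ev, Finset.mul_sum, Pi.star_apply, star_trivial]
    exact Finset.sum_congr rfl fun i _ => Finset.sum_congr rfl fun j _ => by ring
  rwa [e] at h

open scoped Kronecker in
lemma nsq_nonneg {g : TensorField} {x : E3} (hg : (g x).PosDef) (B : Bil) : 0 ≤ nsq g x B := by
  have hP : ((g x)⁻¹).PosSemidef := hg.inv.posSemidef
  have hK := (hP.kronecker hP).dotProduct_mulVec_nonneg (fun p : Fin 3 × Fin 3 => B p.1 p.2)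
  have e : star (fun p : Fin 3 × Fin 3 => B p.1 p.2) ⬝ᵥ
      ((g x)⁻¹ ⊗ₖ (g x)⁻¹).mulVec (fun p : Fin 3 × Fin 3 => B p.1 p.2) = nsq g x B := by
    simp only [dotProduct, Matrix.mulVec, nsq, Finset.mul_sum, Pi.star_apply, star_trivial,
      Matrix.kroneckerMap_apply, Fintype.sum_prod_type]
    exact Finset.sum_congr rfl fun i _ => Finset.sum_congr rfl fun j _ =>
      Finset.sum_congr rfl fun k _ => Finset.sum_congr rfl fun l _ => by ring
  rwa [e] at hK

end HATBaux

open HATBaux

theorem HATB (hHATA : Stmt_HATA) : Stmt_HATB := by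
  intro g h η hη hg hh hps
  refine ⟨⟨?_, ?_⟩, ?_, ?_, ?_⟩
  · intro i j
    have h1 := ((contDiff_hatF hη).comp_contDiffOn (contDiffOn_trg hg hh)).mul (hh.smooth i j)
    exact h1
  · intro x hx
    exact (hh.symm x hx).smul _
  · intro x hx v hv
    have hx0 : x ≠ 0 := hx
    unfold hat
    rw [ev_smul, trg_smul]
    rcases hps x hx0 with h1 | h1
    · have h2 := (hHATA g x (h x) (hg.posDef x hx) (hh.symm x hx) h1).1
      exact mul_le_mul_of_nonneg_left (h1 v hv) (hatF_nonneg h2)
    · have h3 := (hHATA g x ((-1 : ℝ) • h x) (hg.posDef x hx) ((hh.symm x hx).smul _) (by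
        intro w hw
        rw [ev_smul, trg_smul]
        have := h1 w hw
        linarith)).1
      rw [trg_smul] at h3
      exact mul_le_mul_of_nonpos_left (h1 v hv) (hatF_nonpos (by linarith))
  · intro x hx
    unfold hat
    rw [nsq_smul]
    have h1 := nsq_nonneg (hg.posDef x hx) (h x)
    have h2 := hatF_sq_le η (trg g x (h x))
    nlinarith
  · intro x i j
    unfold hat
    rw [Matrix.smul_apply, smul_eq_mul, abs_mul]
    have h1 := abs_hatF_le η (trg g x (h x))
    nlinarith [abs_nonneg (h x i j)]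

end Pool.Agent.PFlow
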