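import Pool.Agent.PFlow.StmtsE1
import Pool.Agent.PFlow.K.KTN

/-!
# HATC: the surplus of the tensor with changed sign
-/

open scoped ContDiff

namespace Pool.Agent.PFlow

open Pool.Agent.PenroseSph

namespace HATC

lemma det_smooth {U : Set E3} {g : TensorField} (hg : ∀ i j, ContDiffOn ℝ ∞ (fun x => g x i j) U) :
    ContDiffOn ℝ ∞ (fun x => (g x).det) U := by
  simp only [Matrix.det_fin_three]
  fun_prop

lemma adj_smooth {U : Set E3} {g : TensorField} (hg : ∀ i j, ContDiffOn ℝ ∞ (fun x => g x i j) U)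
    (i j : Fin 3) : ContDiffOn ℝ ∞ (fun x => (g x).adjugate i j) U := by
  simp only [Matrix.adjugate_fin_three]
  fin_cases i <;> fin_cases j <;> simp <;> fun_prop

lemma inv_smooth {U : Set E3} {g : TensorField} (hg : MetricOn U g) (i j : Fin 3) :
    ContDiffOn ℝ ∞ (fun x => (g x)⁻¹ i j) U := by
  have h1 : (fun x => (g x)⁻¹ i j) = fun x => ((g x).det)⁻¹ * (g x).adjugate i j := by
    funext x
    rw [Matrix.inv_def, Matrix.smul_apply, Ring.inverse_eq_inv', smul_eq_mul]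
  rw [h1]
  exact ((det_smooth hg.smooth).inv fun x hx => (hg.posDef x hx).det_pos.ne').mul
    (adj_smooth hg.smooth i j)

lemma trg_smooth {U : Set E3} {g h : TensorField} (hg : MetricOn U g) (hh : TensorOn U h) :
    ContDiffOn ℝ ∞ (fun x => trg g x (h x)) U := by
  unfold trg
  exact ContDiffOn.sum fun i _ => ContDiffOn.sum fun j _ => (inv_smooth hg i j).mul (hh.smooth i j)

variable {η : ℝ}

lemma den_pos (hη : 0 < η) (t : ℝ) : 0 < t ^ 2 + η ^ 2 := by positivity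

lemma sq_pos (hη : 0 < η) (t : ℝ) : 0 < Real.sqrt (t ^ 2 + η ^ 2) :=
  Real.sqrt_pos.mpr (den_pos hη t)

lemma sq_sq (hη : 0 < η) (t : ℝ) : Real.sqrt (t ^ 2 + η ^ 2) ^ 2 = t ^ 2 + η ^ 2 :=
  Real.sq_sqrt (den_pos hη t).le

lemma hatF_smooth (hη : 0 < η) : ContDiff ℝ ∞ (hatF η) := by
  unfold hatF
  refine contDiff_id.div ?_ fun t => (sq_pos hη t).ne'
  exact ((contDiff_id.pow 2).add contDiff_const).sqrt fun t => (den_pos hη t).ne'

lemma hatF_deriv (hη : 0 < η) (t : ℝ) :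
    HasDerivAt (hatF η) (η ^ 2 / Real.sqrt (t ^ 2 + η ^ 2) ^ 3) t := by
  have h1 : HasDerivAt (fun s : ℝ => s ^ 2 + η ^ 2) (2 * t) t := by
    have := ((hasDerivAt_id t).pow 2).add_const (η ^ 2)
    simpa using this
  have h2 := h1.sqrt (den_pos hη t).ne'
  have h3 := (hasDerivAt_id t).div h2 (sq_pos hη t).ne'
  have hs := sq_pos hη t
  have hss := sq_sq hη t
  have h4 : η ^ 2 / Real.sqrt (t ^ 2 + η ^ 2) ^ 3
      = (1 * Real.sqrt (t ^ 2 + η ^ 2) - id t * (2 * t / (2 * Real.sqrt (t ^ 2 + η ^ 2))))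
        / Real.sqrt (t ^ 2 + η ^ 2) ^ 2 := by
    set S := Real.sqrt (t ^ 2 + η ^ 2) with hS
    simp only [id]
    have e : η ^ 2 = S ^ 2 - t ^ 2 := by rw [hss]; ring
    rw [e]
    field_simp
  rw [h4]
  exact h3

lemma hatF_sq (hη : 0 < η) (t : ℝ) : (1 - hatF η t ^ 2) * t ^ 2 ≤ η ^ 2 := by
  unfold hatF
  rw [div_pow, sq_sq hη]
  have h := den_pos hη t
  have e : (1 - t ^ 2 / (t ^ 2 + η ^ 2)) * t ^ 2 = η ^ 2 * (t ^ 2 / (t ^ 2 + η ^ 2)) := by
    field_simp
    ring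
  rw [e]
  have h2 : t ^ 2 / (t ^ 2 + η ^ 2) ≤ 1 := by
    rw [div_le_one h]
    nlinarith [sq_nonneg η]
  nlinarith [sq_nonneg η]

lemma hatF_sq_le (hη : 0 < η) (t : ℝ) : hatF η t ^ 2 ≤ 1 := by
  unfold hatF
  rw [div_pow, sq_sq hη, div_le_one (den_pos hη t)]
  nlinarith [sq_nonneg η]

lemma abs_hatF_le (hη : 0 < η) (t : ℝ) : |hatF η t| ≤ 1 := by
  have h := hatF_sq_le hη t
  rw [← sq_abs] at h
  nlinarith [abs_nonneg (hatF η t)]

lemma grad_comp (hη : 0 < η) {f : E3 → ℝ} {x : E3} (hf : DifferentiableAt ℝ f x) :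
    grad (fun y => hatF η (f y)) x
      = fun i => η ^ 2 / Real.sqrt (f x ^ 2 + η ^ 2) ^ 3 * grad f x i := by
  funext i
  unfold grad pd
  have h1 := (hatF_deriv hη (f x)).hasFDerivAt.comp x hf.hasFDerivAt
  have h2 : fderiv ℝ (fun y => hatF η (f y)) x = _ := h1.fderiv
  rw [h2]
  simp
  ring

lemma len_smul (g : TensorField) (x : E3) (c : ℝ) (hc : 0 ≤ c) (p : Cov) :
    len g x (fun i => c * p i) = c * len g x p := by
  unfold len
  have h : ev (g x)⁻¹ (fun i => c * p i) (fun i => c * p i) = c ^ 2 * ev (g x)⁻¹ p p := by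
    unfold ev
    rw [Finset.mul_sum]
    refine Finset.sum_congr rfl fun i _ => ?_
    rw [Finset.mul_sum]
    refine Finset.sum_congr rfl fun j _ => ?_
    ring
  rw [h, Real.sqrt_mul (sq_nonneg c), Real.sqrt_sq hc]

lemma trg_smul (g : TensorField) (x : E3) (c : ℝ) (B : Bil) :
    trg g x (c • B) = c * trg g x B := by
  unfold trg
  rw [Finset.mul_sum]
  refine Finset.sum_congr rfl fun i _ => ?_
  rw [Finset.mul_sum]
  refine Finset.sum_congr rfl fun j _ => ?_
  rw [Matrix.smul_apply, smul_eq_mul]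
  ring

lemma nsq_smul (g : TensorField) (x : E3) (c : ℝ) (B : Bil) :
    nsq g x (c • B) = c ^ 2 * nsq g x B := by
  unfold nsq
  simp only [Finset.mul_sum, Matrix.smul_apply, smul_eq_mul]
  refine Finset.sum_congr rfl fun i _ => Finset.sum_congr rfl fun j _ =>
    Finset.sum_congr rfl fun k _ => Finset.sum_congr rfl fun l _ => ?_
  ring

lemma ev_smul (c : ℝ) (B : Bil) (v w : Cov) : ev (c • B) v w = c * ev B v w := by
  unfold ev
  simp only [Finset.mul_sum, Matrix.smul_apply, smul_eq_mul]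
  refine Finset.sum_congr rfl fun i _ => Finset.sum_congr rfl fun j _ => ?_
  ring

lemma energy_eq (g h : TensorField) (x : E3) :
    energyDensity g h x = (1 / 2) * (scalarCurvature g x - nsq g x (h x) + trg g x (h x) ^ 2) := rfl

lemma nsq_le (hHATA : Stmt_HATA) {g h : TensorField} (hg : MetricOn {0}ᶜ g)
    (hh : TensorOn {0}ᶜ h) (hp : PlaneSign g h) {x : E3} (hx : x ≠ 0) :
    nsq g x (h x) ≤ 3 * trg g x (h x) ^ 2 := by
  rcases hp x hx with h1 | h1
  · exact (hHATA g x (h x) (hg.posDef x hx) (hh.symm x hx) h1).2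
  · have h2 := (hHATA g x ((-1 : ℝ) • h x) (hg.posDef x hx) ?_ ?_).2
    · rw [nsq_smul, trg_smul] at h2
      nlinarith
    · have := hh.symm x hx
      unfold Matrix.IsSymm at this ⊢
      rw [Matrix.transpose_smul, this]
    · intro v hv
      rw [ev_smul, trg_smul]
      have := h1 v hv
      linarith

end HATC

open HATC in
/-- HATC: the surplus of `ĥ`. -/
theorem HATC (hHATA : Stmt_HATA) (_hHATB : Stmt_HATB) (hJPROD : Stmt_JPROD) : Stmt_HATC := by
  intro g h η hη hg hh hp x hx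
  have hxU : x ∈ ({0}ᶜ : Set E3) := hx
  have hUo : IsOpen ({0}ᶜ : Set E3) := isOpen_compl_singleton
  have htr := trg_smooth hg hh
  have hf : ContDiffOn ℝ ∞ (fun y => hatF η (trg g y (h y))) {0}ᶜ :=
    (hatF_smooth hη).comp_contDiffOn htr
  have hJ := (hJPROD {0}ᶜ g h (fun y => hatF η (trg g y (h y))) hUo hg hh hf x hxU).2
  have hdt : DifferentiableAt ℝ (fun y => trg g y (h y)) x :=
    (htr.contDiffAt (hUo.mem_nhds hxU)).differentiableAt (by simp)
  rw [grad_comp hη hdt, len_smul g x _ (by positivity)] at hJ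
  have hn := nsq_le hHATA hg hh hp hx
  have hn0 : 0 ≤ nsq g x (h x) := (KTN_thm g x (hg.posDef x hx) 0).2.2.2.2.2.2.1 (h x)
  set t := trg g x (h x) with ht
  set S := Real.sqrt (t ^ 2 + η ^ 2) with hS
  have hS0 : 0 < S := sq_pos hη t
  set L := len g x (grad (fun y => trg g y (h y)) x) with hL
  have hL0 : 0 ≤ L := Real.sqrt_nonneg _
  have hjl : 0 ≤ jlen g h x := Real.sqrt_nonneg _
  have hsq : Real.sqrt (nsq g x (h x) + t ^ 2) ≤ 2 * |t| := by
    have e : 2 * |t| = Real.sqrt ((2 * |t|) ^ 2) := by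
      rw [Real.sqrt_sq (by positivity)]
    rw [e]
    apply Real.sqrt_le_sqrt
    rw [mul_pow, sq_abs]
    linarith
  have hJ2 : jlen g (hat η g h) x ≤ jlen g h x + 2 * η ^ 2 * |t| * L / S ^ 3 := by
    have e1 : jlen g (hat η g h) x ≤ |hatF η t| * jlen g h x
        + Real.sqrt (nsq g x (h x) + t ^ 2) * (η ^ 2 / S ^ 3 * L) := hJ
    have e2 : |hatF η t| * jlen g h x ≤ 1 * jlen g h x :=
      mul_le_mul_of_nonneg_right (abs_hatF_le hη t) hjl
    have e3 : Real.sqrt (nsq g x (h x) + t ^ 2) * (η ^ 2 / S ^ 3 * L)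
        ≤ 2 * |t| * (η ^ 2 / S ^ 3 * L) :=
      mul_le_mul_of_nonneg_right hsq (by positivity)
    have e4 : 2 * |t| * (η ^ 2 / S ^ 3 * L) = 2 * η ^ 2 * |t| * L / S ^ 3 := by ring
    linarith
  have hE : eEta η g h x = η ^ 2 / 2 + 2 * η ^ 2 * |t| * L / S ^ 3 := rfl
  constructor
  · unfold surplus
    rw [hE, energy_eq, energy_eq]
    have e5 : nsq g x (hat η g h x) = hatF η t ^ 2 * nsq g x (h x) := nsq_smul g x _ _
    have e6 : trg g x (hat η g h x) = hatF η t * t := trg_smul g x _ _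
    rw [e5, e6, ← ht]
    have e7 := hatF_sq hη t
    have e8 := hatF_sq_le hη t
    have e9 : 0 ≤ (1 - hatF η t ^ 2) * nsq g x (h x) := mul_nonneg (by linarith) hn0
    nlinarith
  · rw [hE]
    nlinarith [sq_nonneg η]

end Pool.Agent.PFlow
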