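import Pool.Agent.PFlow.StmtsE1
import Pool.Agent.PFlow.M_FR

/-!
# JPROD: the momentum density of `f h`
-/

open MeasureTheory Filter Topology
open scoped ContDiff

namespace Pool.Agent.PFlow

open Pool.Agent.PenroseSph

namespace JPRODm

theorem diffAt {U : Set E3} (hU : IsOpen U) {f : E3 → ℝ} (hf : ContDiffOn ℝ ∞ f U) {x : E3}
    (hx : x ∈ U) : DifferentiableAt ℝ f x :=
  ((hf x hx).contDiffAt (hU.mem_nhds hx)).differentiableAt (by simp)

theorem pd_mul {f k : E3 → ℝ} {x : E3} (hf : DifferentiableAt ℝ f x)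
    (hk : DifferentiableAt ℝ k x) (i : Fin 3) :
    pd i (fun y => f y * k y) x = f x * pd i k x + pd i f x * k x := by
  unfold pd
  rw [fderiv_fun_mul hf hk]
  simp
  ring

theorem det_diff {x : E3} {g : TensorField} (h : ∀ i j, DifferentiableAt ℝ (fun y => g y i j) x) :
    DifferentiableAt ℝ (fun y => (g y).det) x := by
  obtain ⟨a, ha⟩ : ∃ a : Fin 3 → Fin 3 → E3 → ℝ, a = fun i j y => g y i j := ⟨_, rfl⟩
  have h' : ∀ i j, DifferentiableAt ℝ (a i j) x := fun i j => by rw [ha]; exact h i j
  have h1 : (fun y => (g y).det) = fun y =>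
      a 0 0 y * a 1 1 y * a 2 2 y - a 0 0 y * a 1 2 y * a 2 1 y - a 0 1 y * a 1 0 y * a 2 2 y +
        a 0 1 y * a 1 2 y * a 2 0 y + a 0 2 y * a 1 0 y * a 2 1 y -
        a 0 2 y * a 1 1 y * a 2 0 y := by
    funext y
    rw [Matrix.det_fin_three, ha]
  rw [h1]
  have h00 := h' 0 0
  have h01 := h' 0 1
  have h02 := h' 0 2
  have h10 := h' 1 0
  have h11 := h' 1 1
  have h12 := h' 1 2
  have h20 := h' 2 0
  have h21 := h' 2 1
  have h22 := h' 2 2
  fun_prop

theorem inv_diff {x : E3} {g : TensorField} (h : ∀ i j, DifferentiableAt ℝ (fun y => g y i j) x)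
    (h0 : (g x).det ≠ 0) (i j : Fin 3) : DifferentiableAt ℝ (fun y => (g y)⁻¹ i j) x := by
  have h1 : (fun y => (g y)⁻¹ i j) = fun y => ((g y).det)⁻¹ * (g y).adjugate i j := by
    funext y
    rw [Matrix.inv_def, Ring.inverse_eq_inv']
    rfl
  rw [h1]
  refine ((det_diff h).inv h0).mul ?_
  have h2 : (fun y => (g y).adjugate i j) =
      fun y => ((g y).updateRow j (Pi.single i 1)).det := by
    funext y
    rw [Matrix.adjugate_apply]
  rw [h2]
  refine det_diff (g := fun y => (g y).updateRow j (Pi.single i 1)) fun k l => ?_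
  by_cases hk : k = j
  · subst hk
    simp only [Matrix.updateRow_self]
    exact differentiableAt_const _
  · simp only [Matrix.updateRow_ne hk]
    exact h k l

/-- The triangle inequality. -/
theorem sqrt_add (a b : Fin 3 → ℝ) (c : ℝ) :
    Real.sqrt (∑ i, (c * a i + b i) * (c * a i + b i)) ≤
      |c| * Real.sqrt (∑ i, a i * a i) + Real.sqrt (∑ i, b i * b i) := by
  have h := norm_add_le (c • (WithLp.toLp 2 a : EuclideanSpace ℝ (Fin 3)))
    (WithLp.toLp 2 b : EuclideanSpace ℝ (Fin 3))
  rw [norm_smul, EuclideanSpace.norm_eq, EuclideanSpace.norm_eq, EuclideanSpace.norm_eq,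
    Real.norm_eq_abs] at h
  simpa [sq_abs, pow_two] using h

theorem trace_diff {x : E3} {g h : TensorField}
    (hg : ∀ i j, DifferentiableAt ℝ (fun y => g y i j) x)
    (hh : ∀ i j, DifferentiableAt ℝ (fun y => h y i j) x) (h0 : (g x).det ≠ 0) :
    DifferentiableAt ℝ (fun y => traceWith g h y) x := by
  unfold traceWith
  refine DifferentiableAt.fun_sum fun i _ => DifferentiableAt.fun_sum fun j _ => ?_
  exact (inv_diff hg h0 i j).mul (hh i j)

/-- The product rule for the divergence. -/
theorem div_mul (g T : TensorField) (f : E3 → ℝ) (x : E3) (j : Fin 3)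
    (hf : DifferentiableAt ℝ f x) (hT : ∀ i j, DifferentiableAt ℝ (fun y => T y i j) x) :
    divergence g (fun y => f y • T y) j x = f x * divergence g T j x +
      ∑ i, ∑ k, (g x)⁻¹ i k * pd k f x * T x i j := by
  have h1 : ∀ i k, covDeriv g (fun y => f y • T y) k i j x =
      f x * covDeriv g T k i j x + pd k f x * T x i j := by
    intro i k
    unfold covDeriv
    have h2 : pd k (fun y => (f y • T y) i j) x = f x * pd k (fun y => T y i j) x +
        pd k f x * T x i j := pd_mul hf (hT i j) k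
    rw [h2]
    have h3 : ∀ l, christoffel g l k i x * (f x • T x) l j + christoffel g l k j x *
        (f x • T x) i l = f x * (christoffel g l k i x * T x l j + christoffel g l k j x *
        T x i l) := by
      intro l
      show christoffel g l k i x * (f x * T x l j) + christoffel g l k j x * (f x * T x i l) = _
      ring
    rw [Finset.sum_congr rfl fun l _ => h3 l, ← Finset.mul_sum]
    ring
  unfold divergence
  rw [Finset.mul_sum, ← Finset.sum_add_distrib]
  refine Finset.sum_congr rfl fun i _ => ?_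
  rw [Finset.mul_sum, ← Finset.sum_add_distrib]
  refine Finset.sum_congr rfl fun k _ => ?_
  rw [h1]
  ring

theorem mom_mul {U : Set E3} {g h : TensorField} {f : E3 → ℝ} (hU : IsOpen U)
    (hg : MetricOn U g) (hh : TensorOn U h) (hf : ContDiffOn ℝ ∞ f U) {x : E3} (hx : x ∈ U)
    (j : Fin 3) :
    momentumDensity g (fun y => f y • h y) j x = f x * momentumDensity g h j x
      + ∑ i, ∑ k, (g x)⁻¹ i k * pd k f x * (h x i j - trg g x (h x) * g x i j) := by
  have h0 : (g x).det ≠ 0 := (hg.posDef x hx).det_pos.ne'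
  have hgd : ∀ i j, DifferentiableAt ℝ (fun y => g y i j) x := fun i j => diffAt hU (hg.smooth i j) hx
  have hhd : ∀ i j, DifferentiableAt ℝ (fun y => h y i j) x := fun i j => diffAt hU (hh.smooth i j) hx
  have h1 : (fun y => f y • h y - traceWith g (fun y => f y • h y) y • g y) =
      fun y => f y • (h y - traceWith g h y • g y) := by
    funext y
    have h2 : traceWith g (fun y => f y • h y) y = f y * traceWith g h y := by
      unfold traceWith
      rw [Finset.mul_sum]
      refine Finset.sum_congr rfl fun i _ => ?_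
      rw [Finset.mul_sum]
      refine Finset.sum_congr rfl fun k _ => ?_
      show (g y)⁻¹ i k * (f y * h y i k) = _
      ring
    rw [h2, smul_sub, smul_smul]
  unfold momentumDensity
  rw [h1, div_mul g (fun y => h y - traceWith g h y • g y) f x j (diffAt hU hf hx)]
  · rfl
  · intro i j
    show DifferentiableAt ℝ (fun y => h y i j - traceWith g h y * g y i j) x
    exact (hhd i j).sub ((trace_diff hgd hhd h0).mul (hgd i j))

/-- The norm of `π = h - (tr h) g`. -/
theorem nsq_pi {P A B h : Bil} (hP : P = A * A.transpose) (hB : P * B = 1)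
    (hA : A.det ≠ 0) (t : ℝ)
    (ht : t = ∑ i, plm A h i i) :
    ∑ i, ∑ j, plm A (h - t • B) i j * plm A (h - t • B) i j =
      (∑ i, ∑ j, plm A h i j * plm A h i j) + t ^ 2 := by
  have hdet : IsUnit A.det := isUnit_iff_ne_zero.2 hA
  have h1 : plm A B = 1 := by
    unfold plm
    have h2 : A * (A.transpose * B) = 1 := by rw [← Matrix.mul_assoc, ← hP, hB]
    have h3 : A.transpose * B = A⁻¹ := by
      rw [← Matrix.mul_one A⁻¹, ← h2, ← Matrix.mul_assoc, Matrix.nonsing_inv_mul A hdet,
        Matrix.one_mul]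
    rw [h3, Matrix.nonsing_inv_mul A hdet]
  have h2 : plm A (h - t • B) = plm A h - t • (1 : Bil) := by
    rw [← h1]
    unfold plm
    rw [Matrix.mul_sub, Matrix.sub_mul, Matrix.mul_smul, Matrix.smul_mul]
  rw [h2, ht]
  simp only [Fin.sum_univ_three, Matrix.sub_apply, Matrix.smul_apply, smul_eq_mul,
    Matrix.one_apply]
  simp
  ring

end JPRODm

theorem JPROD : Stmt_JPROD := by
  intro U g h f hU hg hh hf x hx
  have hm := fun j => JPRODm.mom_mul hU hg hh hf hx j
  refine ⟨hm, ?_⟩
  have hPD := (hg.posDef x hx).inv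
  obtain ⟨A, hA, hP, hev, htr, hdd, _, happ, hsymm, _⟩ := FR _ hPD
  obtain ⟨H, hH⟩ : ∃ H : Bil, H = h x - trg g x (h x) • g x := ⟨_, rfl⟩
  have hgs : (g x).IsSymm := by
    have h := (hg.posDef x hx).isHermitian
    rwa [Matrix.IsHermitian, Matrix.conjTranspose_eq_transpose_of_trivial] at h
  have hHs : H.IsSymm := by
    rw [hH]
    exact (hh.symm x hx).sub (hgs.smul _)
  have hb : ∀ j, momentumDensity g (fun y => f y • h y) j x = f x * momentumDensity g h j x
      + app (g x)⁻¹ H (grad f x) j := by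
    intro j
    rw [hm j]
    congr 1
    show _ = ∑ i, H j i * ∑ k, (g x)⁻¹ i k * pd k f x
    refine Finset.sum_congr rfl fun i _ => ?_
    rw [Finset.mul_sum]
    refine Finset.sum_congr rfl fun k _ => ?_
    rw [show H j i = H i j from hHs.apply i j, hH]
    show _ = (h x i j - trg g x (h x) * g x i j) * ((g x)⁻¹ i k * pd k f x)
    ring
  obtain ⟨a, ha⟩ : ∃ a : Cov, a = fun i => momentumDensity g h i x := ⟨_, rfl⟩
  obtain ⟨b, hbb⟩ : ∃ b : Cov, b = app (g x)⁻¹ H (grad f x) := ⟨_, rfl⟩
  have hc : (fun i => momentumDensity g (fun y => f y • h y) i x) = fun i => f x * a i + b i := by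
    funext i
    rw [hb i, ha, hbb]
  have hplv : ∀ i, plv A (fun i => f x * a i + b i) i = f x * plv A a i + plv A b i := by
    intro i
    show ∑ j, A j i * (f x * a j + b j) = f x * ∑ j, A j i * a j + ∑ j, A j i * b j
    rw [Finset.mul_sum, ← Finset.sum_add_distrib]
    exact Finset.sum_congr rfl fun j _ => by ring
  have hB : ∑ i, plv A b i * plv A b i ≤
      (∑ i, ∑ j, plm A H i j * plm A H i j) * ∑ j, plv A (grad f x) j * plv A (grad f x) j := by
    rw [hbb, happ, Finset.sum_mul]
    refine Finset.sum_le_sum fun i _ => ?_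
    have h1 := Finset.sum_mul_sq_le_sq_mul_sq Finset.univ (fun j => plm A H i j)
      (fun j => plv A (grad f x) j)
    simpa [pow_two] using h1
  have hN : (∑ i, ∑ j, plm A H i j * plm A H i j) = nsq g x (h x) + trg g x (h x) ^ 2 := by
    have hdet : IsUnit (g x).det := isUnit_iff_ne_zero.2 (hg.posDef x hx).det_pos.ne'
    rw [hH, JPRODm.nsq_pi hP (Matrix.nonsing_inv_mul (g x) hdet) hA (trg g x (h x)) (htr (h x)),
      ← hdd]
    rfl
  unfold jlen len
  rw [hc, hev, hev, hev]
  simp only [hplv]
  refine (JPRODm.sqrt_add _ _ _).trans ?_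
  rw [← ha]
  refine add_le_add le_rfl ?_
  rw [← Real.sqrt_mul (by
    rw [← hN]
    exact Finset.sum_nonneg fun i _ => Finset.sum_nonneg fun j _ => mul_self_nonneg _), ← hN]
  exact Real.sqrt_le_sqrt hB

end Pool.Agent.PFlow
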