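import Pool.Agent.PFlow.StmtsE1
import Pool.Agent.PFlow.K.KTN

/-!
# MOD: existence of the modified data
-/

open MeasureTheory Filter Topology
open scoped ContDiff ENNReal

namespace Pool.Agent.PFlow

open Pool.Agent.PenroseSph

namespace MODL

/-! ### Germs -/

lemma pd_ev {f f' : E3 → ℝ} {x : E3} (h : f =ᶠ[𝓝 x] f') (i : Fin 3) : pd i f x = pd i f' x := by
  unfold pd
  rw [h.fderiv_eq]

lemma pd_ev' {f f' : E3 → ℝ} {x : E3} (h : f =ᶠ[𝓝 x] f') (i : Fin 3) :
    pd i f =ᶠ[𝓝 x] pd i f' := h.eventuallyEq_nhds.mono fun _ hy => pd_ev hy i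

lemma comp_ev {g g' : TensorField} {x : E3} (h : g =ᶠ[𝓝 x] g') (i j : Fin 3) :
    (fun y => g y i j) =ᶠ[𝓝 x] fun y => g' y i j := h.mono fun y hy => by
  change g y i j = g' y i j
  rw [hy]

lemma chr_at {g g' : TensorField} {x : E3} (h : g =ᶠ[𝓝 x] g') (k i j : Fin 3) :
    christoffel g k i j x = christoffel g' k i j x := by
  unfold christoffel
  rw [h.self_of_nhds]
  congr 1
  refine Finset.sum_congr rfl fun l _ => ?_
  rw [pd_ev (comp_ev h j l) i, pd_ev (comp_ev h i l) j, pd_ev (comp_ev h i j) l]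

lemma chr_ev {g g' : TensorField} {x : E3} (h : g =ᶠ[𝓝 x] g') (k i j : Fin 3) :
    christoffel g k i j =ᶠ[𝓝 x] christoffel g' k i j :=
  h.eventuallyEq_nhds.mono fun _ hy => chr_at hy k i j

lemma ricci_at {g g' : TensorField} {x : E3} (h : g =ᶠ[𝓝 x] g') (i j : Fin 3) :
    ricci g i j x = ricci g' i j x := by
  unfold ricci
  refine Finset.sum_congr rfl fun k _ => ?_
  rw [pd_ev (chr_ev h k i j) k, pd_ev (chr_ev h k i k) j]
  congr 1
  refine Finset.sum_congr rfl fun l _ => ?_
  rw [chr_at h k k l, chr_at h l i j, chr_at h k j l, chr_at h l i k]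

lemma scal_at {g g' : TensorField} {x : E3} (h : g =ᶠ[𝓝 x] g') :
    scalarCurvature g x = scalarCurvature g' x := by
  unfold scalarCurvature
  rw [h.self_of_nhds]
  refine Finset.sum_congr rfl fun i _ => Finset.sum_congr rfl fun j _ => ?_
  rw [ricci_at h i j]

lemma cov_at {g g' T T' : TensorField} {x : E3} (h : g =ᶠ[𝓝 x] g') (hT : T =ᶠ[𝓝 x] T')
    (k i j : Fin 3) : covDeriv g T k i j x = covDeriv g' T' k i j x := by
  unfold covDeriv
  rw [pd_ev (comp_ev hT i j) k, hT.self_of_nhds]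
  congr 1
  refine Finset.sum_congr rfl fun l _ => ?_
  rw [chr_at h l k i, chr_at h l k j]

lemma tr_at {g g' h h' : TensorField} {x : E3} (hg : g x = g' x) (hh : h x = h' x) :
    traceWith g h x = traceWith g' h' x := by
  unfold traceWith
  rw [hg, hh]

lemma mom_at {g g' h h' : TensorField} {x : E3} (hg : g =ᶠ[𝓝 x] g') (hh : h =ᶠ[𝓝 x] h')
    (j : Fin 3) : momentumDensity g h j x = momentumDensity g' h' j x := by
  have hT : (fun y => h y - traceWith g h y • g y) =ᶠ[𝓝 x]
      fun y => h' y - traceWith g' h' y • g' y := by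
    filter_upwards [hg, hh] with y hy1 hy2
    rw [tr_at hy1 hy2, hy1, hy2]
  unfold momentumDensity divergence
  refine Finset.sum_congr rfl fun i _ => Finset.sum_congr rfl fun k _ => ?_
  rw [cov_at hg hT k i j, hg.self_of_nhds]

lemma en_at {g g' h h' : TensorField} {x : E3} (hg : g =ᶠ[𝓝 x] g') (hh : h x = h' x) :
    energyDensity g h x = energyDensity g' h' x := by
  unfold energyDensity
  rw [scal_at hg, tr_at hg.self_of_nhds hh]
  unfold normSqWith
  rw [hg.self_of_nhds, hh]

lemma surplus_at {g g' h h' : TensorField} {x : E3} (hg : g =ᶠ[𝓝 x] g') (hh : h =ᶠ[𝓝 x] h') :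
    surplus g h x = surplus g' h' x := by
  unfold surplus jlen
  rw [en_at hg hh.self_of_nhds, hg.self_of_nhds]
  simp only [mom_at hg hh]

lemma barB_at {g g' h : TensorField} {x : E3} (hg : g =ᶠ[𝓝 x] g') (ε : ℝ) :
    barB ε g h x = barB ε g' h x := by
  have hx := hg.self_of_nhds
  have hc := chr_at hg
  have hn : ∀ p : Cov, nrm g x p = nrm g' x p := by
    intro p
    funext i
    unfold nrm raise len
    rw [hx]
  simp only [barB, beps, trg, bnn, hn, len, cHess, hx, hc]

/-! ### Flat data -/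

lemma pd_zero {f : E3 → ℝ} {x : E3} {c : ℝ} (h : f =ᶠ[𝓝 x] fun _ => c) (i : Fin 3) :
    pd i f x = 0 := by
  rw [pd_ev h]
  unfold pd
  simp

lemma mom_zero {g h : TensorField} {x : E3} (hh : h =ᶠ[𝓝 x] 0) (j : Fin 3) :
    momentumDensity g h j x = 0 := by
  have hT : (fun y => h y - traceWith g h y • g y) =ᶠ[𝓝 x] 0 := by
    filter_upwards [hh] with y hy
    have h1 : traceWith g h y = 0 := by
      unfold traceWith
      rw [hy]
      simp
    rw [h1, hy]
    simp
  unfold momentumDensity divergence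
  refine Finset.sum_eq_zero fun i _ => Finset.sum_eq_zero fun k _ => ?_
  have h2 : covDeriv g (fun y => h y - traceWith g h y • g y) k i j x = 0 := by
    rw [cov_at (EventuallyEq.refl _ g) hT k i j]
    unfold covDeriv
    have h3 : pd k (fun y => (0 : TensorField) y i j) x = 0 :=
      pd_zero (c := 0) (EventuallyEq.refl _ _) k
    rw [h3]
    simp
  rw [h2, mul_zero]

lemma surplus_zero {g h : TensorField} {x : E3} (hh : h =ᶠ[𝓝 x] 0) :
    surplus g h x = scalarCurvature g x / 2 := by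
  have hx : h x = 0 := hh.self_of_nhds
  have h1 : jlen g h x = 0 := by
    unfold jlen
    simp only [mom_zero hh]
    unfold ev
    simp
  unfold surplus energyDensity normSqWith traceWith
  rw [h1, hx]
  simp
  ring

lemma chr_one (k i j : Fin 3) : christoffel (fun _ => (1 : Bil)) k i j = fun _ => 0 := by
  funext x
  unfold christoffel
  have h1 : ∀ a b c : Fin 3, pd a (fun _ => (1 : Bil) b c) x = 0 := fun a b c =>
    pd_zero (c := (1 : Bil) b c) (EventuallyEq.refl _ _) a
  simp only [h1]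
  simp

lemma scal_one {g : TensorField} {x : E3} (hg : g =ᶠ[𝓝 x] fun _ => (1 : Bil)) :
    scalarCurvature g x = 0 := by
  rw [scal_at hg]
  unfold scalarCurvature ricci
  simp only [chr_one]
  have h1 : ∀ a : Fin 3, pd a (fun _ => (0 : ℝ)) x = 0 := fun a =>
    pd_zero (c := 0) (EventuallyEq.refl _ _) a
  simp only [h1]
  simp

/-! ### The mass integral -/

lemma fderiv_eq_of_closure {f f' : E3 → ℝ} {x : E3} {A : Set E3} (hA : IsOpen A)
    (hx : x ∈ closure A) (hf : ContDiffAt ℝ 1 f x) (hf' : ContDiffAt ℝ 1 f' x)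
    (h : ∀ y ∈ A, f y = f' y) : fderiv ℝ f x = fderiv ℝ f' x := by
  have hc : ContinuousAt (fderiv ℝ f) x :=
    (hf.fderiv_right (m := 0) (by norm_num)).continuousAt
  have hc' : ContinuousAt (fderiv ℝ f') x :=
    (hf'.fderiv_right (m := 0) (by norm_num)).continuousAt
  have : (𝓝[A] x).NeBot := mem_closure_iff_nhdsWithin_neBot.mp hx
  have h1 : Tendsto (fderiv ℝ f) (𝓝[A] x) (𝓝 (fderiv ℝ f x)) := hc.tendsto.mono_left inf_le_left
  have h2 : Tendsto (fderiv ℝ f') (𝓝[A] x) (𝓝 (fderiv ℝ f' x)) :=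
    hc'.tendsto.mono_left inf_le_left
  refine tendsto_nhds_unique h1 (h2.congr' ?_)
  filter_upwards [self_mem_nhdsWithin] with y hy
  exact (Filter.EventuallyEq.fderiv_eq
    (Filter.mem_of_superset (hA.mem_nhds hy) fun z hz => h z hz)).symm

lemma mem_closure_ann {a b : ℝ} (ha : 0 ≤ a) (hab : a < b) {x : E3} (hx : ‖x‖ = 1) :
    b • x ∈ closure {y : E3 | a < ‖y‖ ∧ ‖y‖ < b} := by
  have h1 : b ∈ closure (Set.Ioo a b) := by
    rw [closure_Ioo hab.ne]
    exact ⟨hab.le, le_rfl⟩
  have h2 : Continuous (fun t : ℝ => t • x) := continuous_id.smul continuous_const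
  have h3 := image_closure_subset_closure_image h2 (Set.mem_image_of_mem _ h1)
  refine closure_mono ?_ h3
  rintro _ ⟨t, ht, rfl⟩
  have h4 : ‖t • x‖ = t := by
    rw [norm_smul, hx, mul_one, Real.norm_eq_abs, abs_of_pos (lt_of_le_of_lt ha ht.1)]
  change a < ‖t • x‖ ∧ ‖t • x‖ < b
  rw [h4]
  exact ht

lemma mass_eq {g g' : TensorField} {a l : ℝ} (ha : 0 ≤ a) (hal : a < l)
    (hg : ∀ x : E3, x ≠ 0 → ∀ i j, ContDiffAt ℝ 1 (fun y => g y i j) x)
    (hg' : ∀ x : E3, ∀ i j, ContDiffAt ℝ 1 (fun y => g' y i j) x)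
    (h : ∀ x : E3, a < ‖x‖ → ‖x‖ < l → g' x = g x) :
    massIntegral g' l = massIntegral g l := by
  unfold massIntegral
  congr 1
  refine integral_congr_ae (Eventually.of_forall fun θ => ?_)
  have hθ : ‖(θ : E3)‖ = 1 := by simpa using θ.2
  have hl : 0 < l := lt_of_le_of_lt ha hal
  have hne : l • (θ : E3) ≠ 0 := by
    rw [← norm_ne_zero_iff, norm_smul, hθ, mul_one]
    exact (norm_ne_zero_iff.mpr hl.ne')
  have hopen : IsOpen {y : E3 | a < ‖y‖ ∧ ‖y‖ < l} :=
    (isOpen_lt continuous_const continuous_norm).inter (isOpen_lt continuous_norm continuous_const)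
  have key : ∀ k i j : Fin 3, pd k (fun y => g' y i j) (l • (θ : E3)) =
      pd k (fun y => g y i j) (l • (θ : E3)) := by
    intro k i j
    unfold pd
    rw [fderiv_eq_of_closure hopen (mem_closure_ann ha hal hθ) (hg' _ i j) (hg _ hne i j)]
    rintro y ⟨hy1, hy2⟩
    rw [h y hy1 hy2]
  simp only [key]

/-! ### Constants -/

lemma decay_mono {C C' R : ℝ} {g h : TensorField} (H : DecayFrom C R g h) (hC : C ≤ C') :
    DecayFrom C' R g h := by
  intro x hx i j
  obtain ⟨h1, h2, h3, h4, h5⟩ := H x hx i j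
  refine ⟨h1.trans ?_, fun k => (h2 k).trans ?_, fun k l => (h3 k l).trans ?_, h4.trans ?_,
    fun k => (h5 k).trans ?_⟩ <;> gcongr

lemma decay_zero {C R : ℝ} {g h : TensorField} (H : DecayFrom C R g h) (hC : 0 ≤ C) :
    DecayFrom C R g 0 := by
  intro x hx i j
  obtain ⟨h1, h2, h3, h4, h5⟩ := H x hx i j
  refine ⟨h1, h2, h3, ?_, fun k => ?_⟩
  · have : (0 : TensorField) x i j = 0 := rfl
    rw [this, abs_zero]
    positivity
  · have : pd k (fun y => (0 : TensorField) y i j) x = 0 :=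
      pd_zero (c := 0) (EventuallyEq.refl _ _) k
    rw [this, abs_zero]
    positivity

lemma ell_mono {C C' : ℝ} {B : Bil} (hC0 : 0 < C) (hC : C ≤ C')
    (H : ∀ v : Cov, (∑ i, v i ^ 2) ≤ C * ev B v v ∧ ev B v v ≤ C * ∑ i, v i ^ 2) :
    ∀ v : Cov, (∑ i, v i ^ 2) ≤ C' * ev B v v ∧ ev B v v ≤ C' * ∑ i, v i ^ 2 := by
  intro v
  obtain ⟨h1, h2⟩ := H v
  have h3 : (0 : ℝ) ≤ ∑ i, v i ^ 2 := Finset.sum_nonneg fun i _ => sq_nonneg _
  have h4 : 0 ≤ ev B v v := by
    by_contra h5
    push Not at h5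
    have : C * ev B v v < 0 := mul_neg_of_pos_of_neg hC0 h5
    linarith
  exact ⟨h1.trans (mul_le_mul_of_nonneg_right hC h4),
    h2.trans (mul_le_mul_of_nonneg_right hC h3)⟩

lemma symm_of_posDef {A : Bil} (h : A.PosDef) : A.IsSymm := by
  have h1 := h.isHermitian
  rwa [Matrix.IsHermitian, Matrix.conjTranspose_eq_transpose_of_trivial] at h1

lemma nsq_smul (g : TensorField) (x : E3) (c : ℝ) (B : Bil) :
    nsq g x (c • B) = c ^ 2 * nsq g x B := by
  unfold nsq
  simp only [Finset.mul_sum, Matrix.smul_apply, smul_eq_mul]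
  refine Finset.sum_congr rfl fun i _ => Finset.sum_congr rfl fun j _ =>
    Finset.sum_congr rfl fun k _ => Finset.sum_congr rfl fun l _ => ?_
  ring

/-! ### The model of the coefficient -/

lemma model_out {ε r : ℝ} (hε : 0 < ε) (hε1 : ε ≤ 1) (hr : 1 ≤ r) :
    |2 / r - bE ε r| ≤ 4 / (1 + r ^ 2) := by
  have hr0 : 0 < r := by linarith
  have h1 : 2 / r - bE ε r = 2 * (2 - ε) / (r * (r ^ 2 + 1)) := by
    unfold bE
    field_simp
    ring
  rw [h1, abs_of_nonneg (by
    apply div_nonneg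
    · linarith
    · positivity)]
  rw [div_le_div_iff₀ (by positivity) (by positivity)]
  have h2 : (r ^ 2 + 1) ≤ r * (r ^ 2 + 1) := by
    have : 0 < r ^ 2 + 1 := by positivity
    nlinarith
  nlinarith [sq_nonneg r]

lemma model_in {ε r : ℝ} (hε : 0 < ε) (hε1 : ε ≤ 1) (hr0 : 0 < r) (hr : r ≤ 1) :
    |bE ε r + 2 * (1 - ε) / r| ≤ 4 := by
  have h1 : bE ε r + 2 * (1 - ε) / r = 2 * (2 - ε) * r / (r ^ 2 + 1) := by
    unfold bE
    field_simp
    ring
  rw [h1, abs_of_nonneg (by
    apply div_nonneg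
    · apply mul_nonneg
      · linarith
      · exact hr0.le
    · positivity)]
  rw [div_le_iff₀ (by positivity)]
  nlinarith [sq_nonneg r]

/-! ### The cut-offs -/

lemma kin_far {R : ℝ} {x : E3} (hkap : ∀ s, 2 ≤ s → kap s = 0) (h : 2 ≤ 16 * R * ‖x‖) :
    kin (R / 2) x = 1 := by
  unfold kin
  rw [hkap _ (by linarith), sub_zero]

lemma kin_near {R : ℝ} {x : E3} (hkap : ∀ s, s ≤ 1 → kap s = 1) (h : 16 * R * ‖x‖ ≤ 1) :
    kin (R / 2) x = 0 := by
  unfold kin
  rw [hkap _ (by linarith), sub_self]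

lemma cAnn_compact (a b : ℝ) : IsCompact (cAnn a b) := by
  have h1 : cAnn a b = Metric.closedBall (0 : E3) b ∩ {x : E3 | a ≤ ‖x‖} := by
    ext x
    simp only [cAnn, Set.mem_setOf_eq, Set.mem_inter_iff, Metric.mem_closedBall, dist_zero_right]
    exact and_comm
  rw [h1]
  exact (isCompact_closedBall 0 b).inter_right (isClosed_le continuous_const continuous_norm)

end MODL

open MODL in
theorem MOD (hAFD : Stmt_AFD) (hHATA : Stmt_HATA) (hHATB : Stmt_HATB) (hHATC : Stmt_HATC)
    (hEETA : Stmt_EETA) (hKAP : Stmt_KAP) (hCUTM : Stmt_CUTM) (hCUTD : Stmt_CUTD)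
    (hSHELL : Stmt_SHELL) (hSCAL : Stmt_SCAL) (hDIVA : Stmt_DIVA) (hBARA : Stmt_BARA)
    (hBARB : Stmt_BARB) (hHSM2 : Stmt_HSM2) : Stmt_MOD := by
  intro g h hTE hDEC hPS
  have hgM := hTE.metric
  have hhT := hTE.tensor
  obtain ⟨C₁, hC₁, hd1, hd2, hel1, hel2⟩ := hAFD g h hTE
  obtain ⟨C₂, hC₂, hcut⟩ := hCUTD g h C₁ hgM hd1 hel1
  obtain ⟨C₃, hC₃, hsh⟩ := hSHELL g h C₁ hgM hhT hPS hDEC hd1 hel1
  obtain ⟨C₄, ρ₀, hC₄, hρ₀, hsc⟩ := hSCAL C₂
  obtain ⟨C₅, hC₅, hba⟩ := hBARA (C₁ + C₂)
  obtain ⟨C₆, hC₆, hhs⟩ := hHSM2 g h C₁ hgM hhT hd2 hel2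
  obtain ⟨C₇, hC₇, hbb⟩ := hBARB (C₁ + C₆)
  obtain ⟨kC, kb, k1, k2, -, kS, kinS⟩ := hKAP
  have hinv0 : DecayFrom C₁ 1 (inverted g) 0 := decay_zero hd2 hC₁.le
  obtain ⟨C, hCdef⟩ : ∃ C : ℝ, C = C₁ + C₂ + C₃ + C₄ + 2 * C₅ + C₆ + 2 * C₇ + 12 := ⟨_, rfl⟩
  have hC : 0 < C := by linarith
  refine ⟨C, max 2 ρ₀, hC, le_max_left _ _, fun l R hl hR r₀ q τ hr₀ hq hτ => ?_⟩
  have hl2 : 2 ≤ l := (le_max_left _ _).trans hl
  have hlρ : ρ₀ ≤ l := (le_max_right _ _).trans hl
  have hl0 : 0 < l := by linarith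
  have hR8 : 8 ≤ R := by linarith
  have hR0 : 0 < R := by linarith
  obtain ⟨hEc, hEi⟩ := hEETA g h hgM hhT
  obtain ⟨η, hη, -, hint⟩ := hEi r₀ l q τ hr₀ hq hτ
  obtain ⟨hEcη, hE0⟩ := hEc η hη
  obtain ⟨m1, m2, m3, m4, m5, m6, m7⟩ := hCUTM g h η l R hη (by linarith) hR hgM hhT hPS
  obtain ⟨dM, elM⟩ := hcut l R (by linarith) hR
  obtain ⟨tH, -, nH, aH⟩ := hHATB g h η hη hgM hhT hPS
  -- regions
  have hinner : (1 : ℝ) / (16 * R) < 1 / (8 * R) := by
    apply one_div_lt_one_div_of_lt (by positivity)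
    linarith
  have hsmallR : (1 : ℝ) / (8 * R) < 1 := by
    rw [div_lt_one (by positivity)]
    linarith
  have evG : ∀ x : E3, 1 / (16 * R) < ‖x‖ → ‖x‖ < l → modG l R g =ᶠ[𝓝 x] g := by
    intro x hx1 hx2
    have hopen : IsOpen {y : E3 | 1 / (16 * R) < ‖y‖ ∧ ‖y‖ < l} :=
      (isOpen_lt continuous_const continuous_norm).inter
        (isOpen_lt continuous_norm continuous_const)
    filter_upwards [hopen.mem_nhds ⟨hx1, hx2⟩] with y hy
    exact m4 y hy.1 hy.2
  have evH0 : ∀ x : E3, l < ‖x‖ → modH η l R g h =ᶠ[𝓝 x] 0 := by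
    intro x hx
    have hopen : IsOpen {y : E3 | l < ‖y‖} := isOpen_lt continuous_const continuous_norm
    filter_upwards [hopen.mem_nhds hx] with y hy
    exact m6 y (le_of_lt hy)
  have evG1 : ∀ x : E3, 2 * l < ‖x‖ → modG l R g =ᶠ[𝓝 x] fun _ => (1 : Bil) := by
    intro x hx
    have hopen : IsOpen {y : E3 | 2 * l < ‖y‖} := isOpen_lt continuous_const continuous_norm
    filter_upwards [hopen.mem_nhds hx] with y hy
    exact m5 y (le_of_lt hy)
  -- the factor of the tensor
  have hfac : ∀ x : E3, 0 ≤ kap (2 * ‖x‖ / l) * kin (R / 2) x ∧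
      kap (2 * ‖x‖ / l) * kin (R / 2) x ≤ 1 := by
    intro x
    have a1 := kb (2 * ‖x‖ / l)
    have a2 : 0 ≤ kin (R / 2) x ∧ kin (R / 2) x ≤ 1 := by
      have := kb (32 * (R / 2) * ‖x‖)
      unfold kin
      constructor <;> linarith
    exact ⟨mul_nonneg a1.1 a2.1, mul_le_one₀ a1.2 a2.1 a2.2⟩
  have hkin : ∀ x : E3, 0 ≤ kin (R / 2) x ∧ kin (R / 2) x ≤ 1 := by
    intro x
    have := kb (32 * (R / 2) * ‖x‖)
    unfold kin
    constructor <;> linarith
  have hHabs : ∀ (x : E3) (i j : Fin 3), |modH η l R g h x i j| ≤ |h x i j| := by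
    intro x i j
    have e1 : modH η l R g h x i j =
        (kap (2 * ‖x‖ / l) * kin (R / 2) x) * hat η g h x i j := rfl
    rw [e1, abs_mul, abs_of_nonneg (hfac x).1]
    calc kap (2 * ‖x‖ / l) * kin (R / 2) x * |hat η g h x i j|
        ≤ 1 * |hat η g h x i j| := mul_le_mul_of_nonneg_right (hfac x).2 (abs_nonneg _)
      _ ≤ |h x i j| := by
        rw [one_mul]
        exact aH x i j
  have hHnsq : ∀ x : E3, x ≠ 0 → nsq g x (modH η l R g h x) ≤ nsq g x (h x) := by
    intro x hx
    have e1 : modH η l R g h x =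
        (kap (2 * ‖x‖ / l) * kin (R / 2) x) • hat η g h x := rfl
    have n0 : 0 ≤ nsq g x (hat η g h x) :=
      (KTN_thm g x (hgM.posDef x hx) 0).2.2.2.2.2.2.1 _
    rw [e1, nsq_smul]
    have h2 : (kap (2 * ‖x‖ / l) * kin (R / 2) x) ^ 2 ≤ 1 :=
      pow_le_one₀ (hfac x).1 (hfac x).2
    calc (kap (2 * ‖x‖ / l) * kin (R / 2) x) ^ 2 * nsq g x (hat η g h x)
        ≤ 1 * nsq g x (hat η g h x) := mul_le_mul_of_nonneg_right h2 n0
      _ ≤ nsq g x (h x) := by
        rw [one_mul]
        exact nH x hx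
  have nzero : ∀ x : E3, 0 < ‖x‖ → x ≠ 0 := fun x hx => norm_pos_iff.mp hx
  have hpos8 : (0 : ℝ) < 1 / (8 * R) := by positivity
  have hpos16 : (0 : ℝ) < 1 / (16 * R) := by positivity
  have hfar : ∀ x : E3, 1 / (8 * R) ≤ ‖x‖ → kin (R / 2) x = 1 := by
    intro x hx
    apply kin_far k2
    have : (1 / (8 * R)) * (16 * R) ≤ ‖x‖ * (16 * R) :=
      mul_le_mul_of_nonneg_right hx (by positivity)
    have e : (1 / (8 * R)) * (16 * R) = 2 := by
      field_simp
      norm_num
    rw [e] at this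
    linarith
  have hsmooth : ∀ x : E3, ∀ i j, ContDiffAt ℝ ∞ (fun y => modG l R g y i j) x := fun x i j =>
    (m1.smooth i j).contDiffAt Filter.univ_mem
  -- the first factor of the modified data
  refine ⟨modG l R g, modH η l R g h, fun x => kin (R / 2) x * eEta η g h x, ?_, ?_⟩
  · refine ⟨m1, m2, m3, m4, m5, m6, ?_, ?_, ?_, ?_, ?_, ?_, ?_, ?_, ?_, ?_, ?_, ?_, ?_, ?_⟩
    · -- barrier
      intro ε hε hε1 x hx
      have hx0 : 0 < ‖x‖ := lt_of_lt_of_le hpos8 hx
      rcases le_total 1 ‖x‖ with h1 | h1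
      · have b1 := hba (modG l R g) (modH η l R g h) x h1 (hsmooth x)
          (m1.posDef x (Set.mem_univ _)) (m2.symm x (Set.mem_univ _))
          (ell_mono hC₂ (by linarith) (elM x h1)) (by
            intro i j
            obtain ⟨d1, d2', -, -, -⟩ := dM x h1 i j
            obtain ⟨-, -, -, d4, -⟩ := hd1 x h1 i j
            refine ⟨d1.trans ?_, fun k => (d2' k).trans ?_, ((hHabs x i j).trans d4).trans ?_⟩
            · gcongr
              linarith
            · gcongr
              linarith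
            · gcongr
              linarith) ε hε hε1
        have b2 := model_out hε hε1 h1
        have b3 : C₅ / ‖x‖ ^ 2 ≤ 2 * C₅ / (1 + ‖x‖ ^ 2) := by
          rw [div_le_div_iff₀ (by positivity) (by positivity)]
          have : 1 ≤ ‖x‖ ^ 2 := one_le_pow₀ h1
          nlinarith
        calc |barB ε (modG l R g) (modH η l R g h) x - bE ε ‖x‖|
            ≤ |barB ε (modG l R g) (modH η l R g h) x - 2 / ‖x‖| + |2 / ‖x‖ - bE ε ‖x‖| := by
              refine le_trans (le_of_eq ?_) (abs_add_le _ _)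
              congr 1
              ring
          _ ≤ 2 * C₅ / (1 + ‖x‖ ^ 2) + 4 / (1 + ‖x‖ ^ 2) := add_le_add (b1.trans b3) b2
          _ = (2 * C₅ + 4) / (1 + ‖x‖ ^ 2) := by ring
          _ ≤ C / (1 + ‖x‖ ^ 2) := by
            gcongr
            linarith
      · have hne : x ≠ 0 := nzero x hx0
        have e1 : barB ε (modG l R g) (modH η l R g h) x = barB ε g (modH η l R g h) x :=
          barB_at (evG x (lt_of_lt_of_le hinner hx) (by linarith)) ε
        have b1 := hbb g (modH η l R g h) x hne h1 hgM (m2.symm x (Set.mem_univ _))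
          (decay_mono hinv0 (by linarith))
          (fun y hy => ell_mono hC₁ (by linarith) (hel2 y hy)) (by
            have a1 := (hHnsq x hne).trans (hhs x hne h1)
            have a2 : C₆ * ‖x‖ ^ 4 ≤ (C₁ + C₆) * ‖x‖ ^ 4 := by
              gcongr
              linarith
            exact a1.trans a2) ε hε hε1
        have b2 := model_in hε hε1 hx0 h1
        rw [e1]
        have b3 : |barB ε g (modH η l R g h) x - bE ε ‖x‖| ≤ C₇ + 4 := by
          calc |barB ε g (modH η l R g h) x - bE ε ‖x‖|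
              = |(barB ε g (modH η l R g h) x + 2 * (1 - ε) / ‖x‖) -
                (bE ε ‖x‖ + 2 * (1 - ε) / ‖x‖)| := by
                congr 1
                ring
            _ ≤ |barB ε g (modH η l R g h) x + 2 * (1 - ε) / ‖x‖| +
                |bE ε ‖x‖ + 2 * (1 - ε) / ‖x‖| := abs_sub _ _
            _ ≤ C₇ + 4 := add_le_add b1 b2
        have b4 : C₇ + 4 ≤ C / (1 + ‖x‖ ^ 2) := by
          rw [le_div_iff₀ (by positivity)]
          have h3 : ‖x‖ ^ 2 ≤ 1 := pow_le_one₀ (norm_nonneg _) h1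
          nlinarith
        exact b3.trans b4
    · exact decay_mono dM (by linarith)
    · -- hsmall
      intro x hx i j
      obtain ⟨-, -, -, d4, -⟩ := hd1 x hx i j
      refine ((hHabs x i j).trans d4).trans ?_
      gcongr
      linarith
    · exact decay_mono hinv0 (by linarith)
    · -- hsmall2
      intro x hx hx1
      have hx0 : 0 < ‖x‖ := lt_of_lt_of_le hpos8 hx
      have e1 : nsq (modG l R g) x (modH η l R g h x) = nsq g x (modH η l R g h x) := by
        unfold nsq
        rw [m4 x (lt_of_lt_of_le hinner hx) (by linarith)]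
      rw [e1]
      refine ((hHnsq x (nzero x hx0)).trans (hhs x (nzero x hx0) hx1)).trans ?_
      gcongr
      linarith
    · exact fun x hx => ell_mono hC₂ (by linarith) (elM x hx)
    · -- continuity
      rw [continuous_iff_continuousAt]
      intro x
      by_cases hx : x = 0
      · subst hx
        have hopen : IsOpen {y : E3 | 16 * R * ‖y‖ < 1} :=
          isOpen_lt (continuous_const.mul continuous_norm) continuous_const
        have h0 : (fun x => kin (R / 2) x * eEta η g h x) =ᶠ[𝓝 (0 : E3)] fun _ => (0 : ℝ) := by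
          filter_upwards [hopen.mem_nhds (show (0 : E3) ∈ {y : E3 | 16 * R * ‖y‖ < 1} by simp)]
            with y hy
          rw [kin_near k1 (le_of_lt hy), zero_mul]
        exact continuousAt_const.congr h0.symm
      · exact ((kinS (R / 2) (by positivity)).continuous.continuousAt).mul
          (hEcη.continuousAt (isOpen_compl_singleton.mem_nhds hx))
    · -- nonnegativity
      intro x
      by_cases hx : x = 0
      · subst hx
        rw [kin_near k1 (by simp)]
        simp
      · exact mul_nonneg (hkin x).1 (hE0 x hx)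
    · -- core
      intro x hx1 hx2
      have hx0 : 0 < ‖x‖ := hpos8.trans hx1
      have hne := nzero x hx0
      have evH : modH η l R g h =ᶠ[𝓝 x] hat η g h := by
        have hopen : IsOpen {y : E3 | 1 / (8 * R) < ‖y‖ ∧ ‖y‖ < l / 2} :=
          (isOpen_lt continuous_const continuous_norm).inter
            (isOpen_lt continuous_norm continuous_const)
        filter_upwards [hopen.mem_nhds ⟨hx1, hx2⟩] with y hy
        exact m7 y (le_of_lt hy.1) (le_of_lt hy.2)
      rw [surplus_at (evG x (hinner.trans hx1) (by linarith)) evH]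
      have h1 := (hHATC g h η hη hgM hhT hPS x hne).1
      have h2 : 0 ≤ surplus g h x := sub_nonneg.mpr (hDEC x hx0)
      rw [hfar x hx1.le, one_mul]
      linarith
    · -- shell
      intro x hx1 hx2
      have h1 := hsh η l R hη hl2 hR x hx1 hx2
      have h3 : kin (R / 2) x = 1 := hfar x (by linarith)
      have h4 : 0 ≤ msz (h x) / l + msz (h x) ^ 2 := by
        have : 0 ≤ msz (h x) := Real.sqrt_nonneg _
        positivity
      have h5 : C₃ * (msz (h x) / l + msz (h x) ^ 2) ≤ C * (msz (h x) / l + msz (h x) ^ 2) :=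
        mul_le_mul_of_nonneg_right (by linarith) h4
      rw [h3, one_mul]
      linarith
    · -- transition
      intro x hx1 hx2
      have hx0 : 0 < ‖x‖ := hl0.trans hx1
      have h1 := (hsc (modG l R g) x (hlρ.trans hx1.le)
        (Eventually.of_forall fun y => symm_of_posDef (m1.posDef y (Set.mem_univ _)))
        (hsmooth x) (fun i j => by
          obtain ⟨d1, d2', d3, -, -⟩ := dM x (by linarith) i j
          exact ⟨d1, d2', d3⟩)).1
      rw [surplus_zero (evH0 x hx1)]
      have e1 : scalarCurvature (modG l R g) x / 2 * volDen (modG l R g) x -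
          linR (modG l R g) x / 2 = (scalarCurvature (modG l R g) x * volDen (modG l R g) x -
          linR (modG l R g) x) / 2 := by ring
      rw [e1, abs_div, abs_of_pos (by norm_num : (0 : ℝ) < 2)]
      have h2 : C₄ / ‖x‖ ^ 4 ≤ C₄ / l ^ 4 := by gcongr
      have h3 : C₄ / l ^ 4 ≤ C / l ^ 4 := by
        gcongr
        linarith
      have h4 := abs_nonneg (scalarCurvature (modG l R g) x * volDen (modG l R g) x -
          linR (modG l R g) x)
      linarith
    · intro x hx1 hx2
      have hx0 : 0 < ‖x‖ := hl0.trans hx1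
      have h1 := (hsc (modG l R g) x (hlρ.trans hx1.le)
        (Eventually.of_forall fun y => symm_of_posDef (m1.posDef y (Set.mem_univ _)))
        (hsmooth x) (fun i j => by
          obtain ⟨d1, d2', d3, -, -⟩ := dM x (by linarith) i j
          exact ⟨d1, d2', d3⟩)).2
      have h2 : C₄ / ‖x‖ ^ 3 ≤ C₄ / l ^ 3 := by gcongr
      have h3 : C₄ / l ^ 3 ≤ C / l ^ 3 := by
        gcongr
        linarith
      linarith
    · -- flat
      intro x hx
      rw [surplus_zero (evH0 x (by linarith)), scal_one (evG1 x hx), zero_div]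
    · -- mass
      rw [hDIVA (modG l R g) l hl0 (fun x _ => hsmooth x) m5]
      have h1 : massIntegral (modG l R g) l = massIntegral g l := by
        refine mass_eq hpos16.le (hinner.trans (by linarith)) (fun x hx i j => ?_)
          (fun x i j => (hsmooth x i j).of_le (by exact_mod_cast le_top)) m4
        exact (((hgM.smooth i j).contDiffAt (isOpen_compl_singleton.mem_nhds hx)).of_le
          (by exact_mod_cast le_top))
      rw [h1]
  · -- the integral
    refine le_trans ?_ hint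
    have hsub : ∀ x ∈ cAnn r₀ l, x ≠ 0 := fun x hx => nzero x (lt_of_lt_of_le hr₀ hx.1)
    have hcE : ContinuousOn (eEta η g h) (cAnn r₀ l) := hEcη.mono fun x hx => hsub x hx
    have hcK : Continuous (kin (R / 2)) := (kinS (R / 2) (by positivity)).continuous
    have hq0 : 0 ≤ q := by linarith
    apply setIntegral_mono_on
    · exact ((hcK.continuousOn.mul hcE).rpow_const fun x _ => Or.inr hq0).integrableOn_compact
        (cAnn_compact _ _)
    · exact (hcE.rpow_const fun x _ => Or.inr hq0).integrableOn_compact (cAnn_compact _ _)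
    · exact (cAnn_compact _ _).measurableSet
    · intro x hx
      have h0 := hE0 x (hsub x hx)
      apply Real.rpow_le_rpow (mul_nonneg (hkin x).1 h0) _ hq0
      calc kin (R / 2) x * eEta η g h x ≤ 1 * eEta η g h x :=
            mul_le_mul_of_nonneg_right (hkin x).2 h0
        _ = eEta η g h x := one_mul _

end Pool.Agent.PFlow
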