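import Pool.Agent.PFlow.StmtsE1
import Pool.Agent.PFlow.M_JD

/-!
# SCAL: the scalar curvature in the linear approximation
-/

open MeasureTheory Filter Topology
open scoped ContDiff

namespace Pool.Agent.PFlow

open Pool.Agent.PenroseSph

namespace ESCAL

open MJD (Pt)
open Pool.Agent.PenroseConvex (CovR.contDiffAt_pd)

/-! ### Elementary bounds -/

lemma s3 {f : Fin 3 → ℝ} {B : ℝ} (h : ∀ l, |f l| ≤ B) : |∑ l, f l| ≤ 3 * B := by
  refine (Finset.abs_sum_le_sum_abs _ _).trans ?_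
  rw [Fin.sum_univ_three]
  linarith [h 0, h 1, h 2]

lemma p2 {a b A B : ℝ} (ha : |a| ≤ A) (hb : |b| ≤ B) : |a * b| ≤ A * B := by
  rw [abs_mul]
  exact mul_le_mul ha hb (abs_nonneg _) ((abs_nonneg _).trans ha)

lemma a2 {a b A B : ℝ} (ha : |a| ≤ A) (hb : |b| ≤ B) : |a + b| ≤ A + B :=
  (abs_add_le a b).trans (add_le_add ha hb)

lemma m2 {a b A B : ℝ} (ha : |a| ≤ A) (hb : |b| ≤ B) : |a - b| ≤ A + B :=
  (abs_sub a b).trans (add_le_add ha hb)

lemma half {a A : ℝ} (ha : |a| ≤ A) : |1 / 2 * a| ≤ A / 2 := by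
  rw [abs_mul, abs_of_pos (by norm_num : (0 : ℝ) < 1 / 2)]
  linarith

/-! ### The determinant and the inverse -/

lemma det_bound {G : Bil} {η : ℝ} (hη : η ≤ 1 / 100)
    (h : ∀ i j, |G i j - (1 : Bil) i j| ≤ η) : |G.det - 1| ≤ 4 * η := by
  have h0 : 0 ≤ η := (abs_nonneg _).trans (h 0 0)
  obtain ⟨H, hH⟩ : ∃ H : Bil, H = G - 1 := ⟨_, rfl⟩
  have hG : G = 1 + H := by rw [hH]; abel
  have hb : ∀ i j, |H i j| ≤ η := by
    intro i j
    rw [hH, Matrix.sub_apply]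
    exact h i j
  have e : G.det - 1 = (H 0 0 + H 1 1 + H 2 2) + ((H 0 0 * H 1 1 - H 0 1 * H 1 0) +
      (H 0 0 * H 2 2 - H 0 2 * H 2 0) + (H 1 1 * H 2 2 - H 1 2 * H 2 1)) +
      (H 0 0 * (H 1 1 * H 2 2 - H 1 2 * H 2 1) - H 0 1 * (H 1 0 * H 2 2 - H 1 2 * H 2 0) +
        H 0 2 * (H 1 0 * H 2 1 - H 1 1 * H 2 0)) := by
    rw [hG, Matrix.det_fin_three]
    simp only [Matrix.add_apply, Matrix.one_apply_eq, Matrix.one_apply_ne (show (0 : Fin 3) ≠ 1 by decide),
      Matrix.one_apply_ne (show (0 : Fin 3) ≠ 2 by decide),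
      Matrix.one_apply_ne (show (1 : Fin 3) ≠ 0 by decide),
      Matrix.one_apply_ne (show (1 : Fin 3) ≠ 2 by decide),
      Matrix.one_apply_ne (show (2 : Fin 3) ≠ 0 by decide),
      Matrix.one_apply_ne (show (2 : Fin 3) ≠ 1 by decide)]
    ring
  have q : ∀ a b c d : Fin 3, ∀ a' b' c' d' : Fin 3,
      |H a b * H c d - H a' b' * H c' d'| ≤ η * η + η * η := fun a b c d a' b' c' d' =>
    m2 (p2 (hb _ _) (hb _ _)) (p2 (hb _ _) (hb _ _))
  have b1 : |H 0 0 + H 1 1 + H 2 2| ≤ η + η + η := a2 (a2 (hb _ _) (hb _ _)) (hb _ _)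
  have b2 : |(H 0 0 * H 1 1 - H 0 1 * H 1 0) + (H 0 0 * H 2 2 - H 0 2 * H 2 0) +
      (H 1 1 * H 2 2 - H 1 2 * H 2 1)| ≤ (η * η + η * η) + (η * η + η * η) + (η * η + η * η) :=
    a2 (a2 (q _ _ _ _ _ _ _ _) (q _ _ _ _ _ _ _ _)) (q _ _ _ _ _ _ _ _)
  have b3 : |H 0 0 * (H 1 1 * H 2 2 - H 1 2 * H 2 1) - H 0 1 * (H 1 0 * H 2 2 - H 1 2 * H 2 0) +
      H 0 2 * (H 1 0 * H 2 1 - H 1 1 * H 2 0)| ≤
      η * (η * η + η * η) + η * (η * η + η * η) + η * (η * η + η * η) :=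
    a2 (m2 (p2 (hb _ _) (q _ _ _ _ _ _ _ _)) (p2 (hb _ _) (q _ _ _ _ _ _ _ _)))
      (p2 (hb _ _) (q _ _ _ _ _ _ _ _))
  rw [e]
  refine (a2 (a2 b1 b2) b3).trans ?_
  have h1 : η * η ≤ 1 / 100 * η := mul_le_mul_of_nonneg_right hη h0
  have h2 : η * (η * η) ≤ 1 / 100 * η := by
    have : η * (η * η) ≤ η * (1 / 100 * η) := mul_le_mul_of_nonneg_left h1 h0
    nlinarith
  nlinarith

lemma inv_bound {G : Bil} {η : ℝ} (hη : η ≤ 1 / 100) (h : ∀ i j, |G i j - (1 : Bil) i j| ≤ η) :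
    (∀ i j, |G⁻¹ i j| ≤ 2) ∧ ∀ i j, |G⁻¹ i j - (1 : Bil) i j| ≤ 6 * η := by
  have h0 : 0 ≤ η := (abs_nonneg _).trans (h 0 0)
  have hd : G.det ≠ 0 := by
    intro h1
    have := det_bound hη h
    rw [h1, zero_sub, abs_neg, abs_one] at this
    linarith
  have hA : G * G⁻¹ = 1 := Matrix.mul_nonsing_inv G (Ne.isUnit hd)
  have hE : ∀ i j, G⁻¹ i j - (1 : Bil) i j = -∑ k, (G i k - (1 : Bil) i k) * G⁻¹ k j := by
    intro i j
    have h1 := congrFun (congrFun hA i) j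
    rw [Matrix.mul_apply] at h1
    have h2 : ∑ k, (G i k - (1 : Bil) i k) * G⁻¹ k j = ∑ k, G i k * G⁻¹ k j - G⁻¹ i j := by
      simp only [sub_mul, Finset.sum_sub_distrib]
      congr 1
      have := congrFun (congrFun (one_mul G⁻¹) i) j
      rwa [Matrix.mul_apply] at this
    rw [h2, h1]
    ring
  obtain ⟨⟨i0, j0⟩, hmax⟩ := Finite.exists_max fun x : Fin 3 × Fin 3 => |G⁻¹ x.1 x.2|
  set M := |G⁻¹ i0 j0| with hM
  have hle : ∀ i j, |G⁻¹ i j| ≤ M := fun i j => hmax (i, j)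
  have hM0 : 0 ≤ M := abs_nonneg _
  have hdiff : ∀ i j, |G⁻¹ i j - (1 : Bil) i j| ≤ 3 * (η * M) := by
    intro i j
    rw [hE, abs_neg]
    exact s3 fun k => p2 (h _ _) (hle _ _)
  have h1le : |(1 : Bil) i0 j0| ≤ 1 := by
    rw [Matrix.one_apply]
    split_ifs <;> simp
  have hM2 : M ≤ 2 := by
    have h3 : M ≤ 3 * (η * M) + 1 := by
      have : |(G⁻¹ i0 j0 - (1 : Bil) i0 j0) + (1 : Bil) i0 j0| ≤ 3 * (η * M) + 1 :=
        a2 (hdiff _ _) h1le
      rwa [sub_add_cancel] at this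
    have h4 : η * M ≤ 1 / 100 * M := mul_le_mul_of_nonneg_right hη hM0
    linarith
  refine ⟨fun i j => (hle i j).trans hM2, fun i j => (hdiff i j).trans ?_⟩
  have h5 : η * M ≤ η * 2 := mul_le_mul_of_nonneg_left hM2 h0
  linarith

lemma sqrt_bound {d δ : ℝ} (h : |d - 1| ≤ δ) (hd : 0 ≤ d) : |Real.sqrt d - 1| ≤ δ := by
  have h1 : (Real.sqrt d - 1) * (Real.sqrt d + 1) = d - 1 := by
    have := Real.mul_self_sqrt hd
    linear_combination this
  have h2 : 1 ≤ Real.sqrt d + 1 := by linarith [Real.sqrt_nonneg d]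
  have h3 : |Real.sqrt d - 1| * (Real.sqrt d + 1) = |d - 1| := by
    rw [← h1, abs_mul, abs_of_pos (by linarith : (0 : ℝ) < Real.sqrt d + 1)]
  have h4 : |Real.sqrt d - 1| ≤ |Real.sqrt d - 1| * (Real.sqrt d + 1) :=
    le_mul_of_one_le_right (abs_nonneg _) h2
  linarith

/-! ### The expansion at a point -/

section

variable {g : TensorField} {x : E3} {η ρ : ℝ}

/-- the second derivatives -/
noncomputable def D2 (g : TensorField) (x : E3) (k l i j : Fin 3) : ℝ :=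
  pd k (pd l (fun y => g y i j)) x

/-- `∂_i g_jl + ∂_j g_il - ∂_l g_ij` -/
noncomputable def T (g : TensorField) (i j l : Fin 3) (y : E3) : ℝ :=
  pd i (fun y => g y j l) y + pd j (fun y => g y i l) y - pd l (fun y => g y i j) y

/-- its derivative -/
noncomputable def T' (g : TensorField) (x : E3) (m i j l : Fin 3) : ℝ :=
  D2 g x m i j l + D2 g x m j i l - D2 g x m l i j

/-- The hypotheses at a point. -/
structure Hyp (g : TensorField) (x : E3) (η ρ : ℝ) : Prop where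
  pt : Pt g x
  smooth : ∀ i j, ContDiffAt ℝ ∞ (fun y => g y i j) x
  small : η ≤ 1 / 100
  ρ0 : 0 ≤ ρ
  b0 : ∀ i j, |g x i j - (1 : Bil) i j| ≤ η
  b1 : ∀ k i j, |pd k (fun y => g y i j) x| ≤ η * ρ
  b2 : ∀ k l i j, |D2 g x k l i j| ≤ η * ρ ^ 2

variable (h : Hyp g x η ρ)

include h

lemma Hyp.η0 : 0 ≤ η := (abs_nonneg _).trans (h.b0 0 0)

lemma Hyp.diffPd (k i j : Fin 3) : DifferentiableAt ℝ (pd k fun y => g y i j) x :=
  (CovR.contDiffAt_pd (n := 1) (h.smooth i j) (by norm_cast)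
    k).differentiableAt (by norm_num)

lemma Hyp.diffT (i j l : Fin 3) : DifferentiableAt ℝ (T g i j l) x :=
  ((h.diffPd i j l).add (h.diffPd j i l)).sub (h.diffPd l i j)

lemma Hyp.pdT (m i j l : Fin 3) : pd m (T g i j l) x = T' g x m i j l := by
  have e : T g i j l = fun y => (pd i (fun y => g y j l) y + pd j (fun y => g y i l) y) -
      pd l (fun y => g y i j) y := rfl
  have h1 : DifferentiableAt ℝ
      (fun y => pd i (fun y => g y j l) y + pd j (fun y => g y i l) y) x :=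
    (h.diffPd i j l).add (h.diffPd j i l)
  rw [e, pd_sub h1 (h.diffPd l i j), pd_add (h.diffPd i j l) (h.diffPd j i l)]
  rfl

lemma Hyp.bT (i j l : Fin 3) : |T g i j l x| ≤ 3 * (η * ρ) := by
  have := m2 (a2 (h.b1 i j l) (h.b1 j i l)) (h.b1 l i j)
  unfold T
  linarith

lemma Hyp.bT' (m i j l : Fin 3) : |T' g x m i j l| ≤ 3 * (η * ρ ^ 2) := by
  have := m2 (a2 (h.b2 m i j l) (h.b2 m j i l)) (h.b2 m l i j)
  unfold T'
  linarith

lemma Hyp.bA (i j : Fin 3) : |(g x)⁻¹ i j| ≤ 2 := (inv_bound h.small h.b0).1 i j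

lemma Hyp.bA1 (i j : Fin 3) : |(g x)⁻¹ i j - (1 : Bil) i j| ≤ 6 * η :=
  (inv_bound h.small h.b0).2 i j

omit h in
lemma chr_eq (k i j : Fin 3) (y : E3) :
    christoffel g k i j y = 1 / 2 * ∑ l, (g y)⁻¹ k l * T g i j l y := rfl

lemma Hyp.bG (k i j : Fin 3) : |christoffel g k i j x| ≤ 9 * (η * ρ) := by
  rw [chr_eq]
  have h1 : ∀ l, |(g x)⁻¹ k l * T g i j l x| ≤ 2 * (3 * (η * ρ)) := fun l =>
    p2 (h.bA k l) (h.bT i j l)
  have := half (s3 h1)
  linarith

lemma Hyp.bA' (m k l : Fin 3) : |pd m (fun y => (g y)⁻¹ k l) x| ≤ 108 * (η * ρ) := by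
  rw [h.pt.pd_inv, abs_neg]
  have h1 : ∀ a, |christoffel g k m a x * (g x)⁻¹ a l + christoffel g l m a x * (g x)⁻¹ k a| ≤
      9 * (η * ρ) * 2 + 9 * (η * ρ) * 2 := fun a =>
    a2 (p2 (h.bG _ _ _) (h.bA _ _)) (p2 (h.bG _ _ _) (h.bA _ _))
  have := s3 h1
  linarith

lemma Hyp.pdG (m k i j : Fin 3) : pd m (christoffel g k i j) x =
    1 / 2 * ∑ l, ((g x)⁻¹ k l * T' g x m i j l + T g i j l x * pd m (fun y => (g y)⁻¹ k l) x) := by
  have e : christoffel g k i j = fun y => 1 / 2 * ∑ l, (g y)⁻¹ k l * T g i j l y := by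
    funext y
    exact chr_eq k i j y
  have hd : ∀ l, DifferentiableAt ℝ (fun y => (g y)⁻¹ k l * T g i j l y) x := fun l =>
    (h.pt.diffInv k l).mul (h.diffT i j l)
  rw [e, pd_const_mul _ (DifferentiableAt.fun_sum fun l _ => hd l), pd_sum _ _ fun l _ => hd l]
  congr 1
  refine Finset.sum_congr rfl fun l _ => ?_
  rw [pd_mul (h.pt.diffInv k l) (h.diffT i j l), h.pdT]

/-- the derivative of the Christoffel symbol up to quadratic terms -/
lemma Hyp.bG' (m k i j : Fin 3) : |pd m (christoffel g k i j) x - 1 / 2 * T' g x m i j k| ≤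
    513 * (η * ρ) ^ 2 := by
  have e : pd m (christoffel g k i j) x - 1 / 2 * T' g x m i j k =
      1 / 2 * ∑ l, (((g x)⁻¹ k l - (1 : Bil) k l) * T' g x m i j l +
        T g i j l x * pd m (fun y => (g y)⁻¹ k l) x) := by
    rw [h.pdG]
    have h1 : T' g x m i j k = ∑ l, (1 : Bil) k l * T' g x m i j l := by
      simp [Matrix.one_apply]
    rw [h1, ← mul_sub, ← Finset.sum_sub_distrib]
    congr 1
    refine Finset.sum_congr rfl fun l _ => ?_
    ring
  rw [e]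
  have h1 : ∀ l, |((g x)⁻¹ k l - (1 : Bil) k l) * T' g x m i j l +
      T g i j l x * pd m (fun y => (g y)⁻¹ k l) x| ≤
      6 * η * (3 * (η * ρ ^ 2)) + 3 * (η * ρ) * (108 * (η * ρ)) := fun l =>
    a2 (p2 (h.bA1 _ _) (h.bT' _ _ _ _)) (p2 (h.bT _ _ _) (h.bA' _ _ _))
  have h2 := half (s3 h1)
  refine h2.trans (le_of_eq ?_)
  ring

/-- the leading part of the Ricci curvature -/
noncomputable def R0 (g : TensorField) (x : E3) (i j : Fin 3) : ℝ :=
  ∑ k, (1 / 2 * T' g x k i j k - 1 / 2 * T' g x j i k k)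

omit h in
lemma ricci_eq (i j : Fin 3) : ricci g i j x =
    ∑ k, (pd k (christoffel g k i j) x - pd j (christoffel g k i k) x
    + ∑ l, (christoffel g k k l x * christoffel g l i j x
      - christoffel g k j l x * christoffel g l i k x)) := rfl

lemma Hyp.bRic (i j : Fin 3) : |ricci g i j x - R0 g x i j| ≤ 4536 * (η * ρ) ^ 2 := by
  have e : ricci g i j x - R0 g x i j =
      ∑ k, (((pd k (christoffel g k i j) x - 1 / 2 * T' g x k i j k) -
        (pd j (christoffel g k i k) x - 1 / 2 * T' g x j i k k)) +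
      ∑ l, (christoffel g k k l x * christoffel g l i j x
      - christoffel g k j l x * christoffel g l i k x)) := by
    rw [ricci_eq, R0, ← Finset.sum_sub_distrib]
    refine Finset.sum_congr rfl fun k _ => ?_
    ring
  rw [e]
  have h1 : ∀ k : Fin 3, |((pd k (christoffel g k i j) x - 1 / 2 * T' g x k i j k) -
        (pd j (christoffel g k i k) x - 1 / 2 * T' g x j i k k)) +
      ∑ l, (christoffel g k k l x * christoffel g l i j x
      - christoffel g k j l x * christoffel g l i k x)| ≤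
      (513 * (η * ρ) ^ 2 + 513 * (η * ρ) ^ 2) +
        3 * (9 * (η * ρ) * (9 * (η * ρ)) + 9 * (η * ρ) * (9 * (η * ρ))) := fun k =>
    a2 (m2 (h.bG' _ _ _ _) (h.bG' _ _ _ _)) (s3 fun l =>
      m2 (p2 (h.bG _ _ _) (h.bG _ _ _)) (p2 (h.bG _ _ _) (h.bG _ _ _)))
  refine (s3 h1).trans (le_of_eq ?_)
  ring

lemma Hyp.bR0 (i j : Fin 3) : |R0 g x i j| ≤ 9 * (η * ρ ^ 2) := by
  have h1 : ∀ k : Fin 3, |1 / 2 * T' g x k i j k - 1 / 2 * T' g x j i k k| ≤
      3 * (η * ρ ^ 2) / 2 + 3 * (η * ρ ^ 2) / 2 := fun k =>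
    m2 (half (h.bT' _ _ _ _)) (half (h.bT' _ _ _ _))
  refine (s3 h1).trans (le_of_eq ?_)
  ring

lemma Hyp.linR_eq : linR g x = ∑ i, R0 g x i i := by
  have hs : ∀ k l i j, D2 g x k l i j = D2 g x k l j i := by
    intro k l i j
    unfold D2
    have h1 : (pd l fun y => g y i j) =ᶠ[𝓝 x] pd l fun y => g y j i := by
      have h2 : ∀ᶠ y in 𝓝 x, ∀ᶠ z in 𝓝 y, (g z).IsSymm := h.pt.symm.eventually_nhds
      filter_upwards [h2] with y hy
      refine pd_congr ?_
      filter_upwards [hy] with z hz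
      exact (hz.apply i j).symm ▸ rfl
    exact pd_congr h1
  have e : linR g x = ∑ i, ∑ j, (D2 g x i j i j - D2 g x j j i i) := rfl
  rw [e]
  simp only [R0, T', Fin.sum_univ_three]
  rw [hs 1 0 1 0, hs 2 0 2 0, hs 0 1 0 1, hs 2 1 2 1, hs 0 2 0 2, hs 1 2 1 2]
  ring

lemma Hyp.b_linR : |linR g x| ≤ 27 * (η * ρ ^ 2) := by
  rw [h.linR_eq]
  refine (s3 fun i => h.bR0 i i).trans (le_of_eq ?_)
  ring

omit h in
lemma scal_eq : scalarCurvature g x = ∑ i, ∑ j, (g x)⁻¹ i j * ricci g i j x := rfl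

lemma Hyp.bRic1 (i j : Fin 3) : |ricci g i j x| ≤ 4536 * (η * ρ) ^ 2 + 9 * (η * ρ ^ 2) := by
  have := a2 (h.bRic i j) (h.bR0 i j)
  rwa [sub_add_cancel] at this

lemma Hyp.bScal : |scalarCurvature g x - linR g x| ≤ 17000 * (η * ρ) ^ 2 := by
  have e : scalarCurvature g x - linR g x =
      ∑ i, ((∑ j, ((g x)⁻¹ i j - (1 : Bil) i j) * ricci g i j x) +
        (ricci g i i x - R0 g x i i)) := by
    rw [scal_eq, h.linR_eq, ← Finset.sum_sub_distrib]
    refine Finset.sum_congr rfl fun i _ => ?_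
    have h1 : ricci g i i x = ∑ j, (1 : Bil) i j * ricci g i j x := by
      simp [Matrix.one_apply]
    have h2 : ∑ j, ((g x)⁻¹ i j - (1 : Bil) i j) * ricci g i j x =
        ∑ j, (g x)⁻¹ i j * ricci g i j x - ricci g i i x := by
      rw [h1, ← Finset.sum_sub_distrib]
      refine Finset.sum_congr rfl fun j _ => ?_
      ring
    rw [h2]
    ring
  rw [e]
  have h1 : ∀ i, |(∑ j, ((g x)⁻¹ i j - (1 : Bil) i j) * ricci g i j x) +
        (ricci g i i x - R0 g x i i)| ≤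
      3 * (6 * η * (4536 * (η * ρ) ^ 2 + 9 * (η * ρ ^ 2))) + 4536 * (η * ρ) ^ 2 := fun i =>
    a2 (s3 fun j => p2 (h.bA1 _ _) (h.bRic1 _ _)) (h.bRic _ _)
  refine (s3 h1).trans ?_
  have h0 := h.η0
  have h2 : η * (η * ρ) ^ 2 ≤ 1 / 100 * (η * ρ) ^ 2 :=
    mul_le_mul_of_nonneg_right h.small (sq_nonneg _)
  have h3 : 0 ≤ (η * ρ) ^ 2 := sq_nonneg _
  nlinarith

lemma Hyp.bVol : |volDen g x - 1| ≤ 4 * η := by
  have h1 := det_bound h.small h.b0
  exact sqrt_bound h1 (h.pt.pos.self_of_nhds.le)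

lemma Hyp.main : |scalarCurvature g x * volDen g x - linR g x| ≤ 20000 * (η * ρ) ^ 2 := by
  have e : scalarCurvature g x * volDen g x - linR g x =
      (scalarCurvature g x - linR g x) * volDen g x + linR g x * (volDen g x - 1) := by ring
  have hv : |volDen g x| ≤ 2 := by
    have h1 := a2 h.bVol (le_of_eq abs_one : |(1 : ℝ)| ≤ 1)
    rw [sub_add_cancel] at h1
    linarith [h.small]
  have hv' : |volDen g x| ≤ 104 / 100 := by
    have h1 := a2 h.bVol (le_of_eq abs_one : |(1 : ℝ)| ≤ 1)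
    rw [sub_add_cancel] at h1
    linarith [h.small]
  rw [e]
  refine (a2 (p2 h.bScal hv') (p2 h.b_linR h.bVol)).trans ?_
  have h3 : 0 ≤ (η * ρ) ^ 2 := sq_nonneg _
  nlinarith

end

end ESCAL

theorem SCAL : Stmt_SCAL := by
  intro C
  set K : ℝ := |C| + 1 with hK
  have hK1 : 1 ≤ K := by
    rw [hK]
    linarith [abs_nonneg C]
  have hCK : C ≤ K := by
    rw [hK]
    linarith [le_abs_self C]
  refine ⟨20000 * K ^ 2, 100 * K, by positivity, by linarith, ?_⟩
  intro g x hx hsym hsm hb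
  have hr : 0 < ‖x‖ := by linarith
  set r := ‖x‖ with hr_def
  have hη : K / r ≤ 1 / 100 := by
    rw [div_le_div_iff₀ hr (by norm_num)]
    linarith
  have hC : ∀ n : ℕ, C / r ^ n ≤ K / r ^ n := fun n =>
    div_le_div_of_nonneg_right hCK (by positivity)
  have b0 : ∀ i j, |g x i j - (1 : Bil) i j| ≤ K / r := fun i j => by
    have := hC 1
    rw [pow_one] at this
    exact (hb i j).1.trans this
  have hpos : ∀ᶠ y in 𝓝 x, 0 < (g y).det := by
    have h1 : ContinuousAt (fun y => (g y).det) x := by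
      have h2 : ∀ i j, ContinuousAt (fun y => g y i j) x := fun i j => (hsm i j).continuousAt
      simp only [Matrix.det_fin_three]
      fun_prop (disch := assumption)
    have h3 : 0 < (g x).det := by
      have := ESCAL.det_bound hη b0
      rw [abs_le] at this
      linarith
    exact h1.eventually (Ioi_mem_nhds h3)
  have H : ESCAL.Hyp g x (K / r) (1 / r) :=
    { pt := ⟨fun i j => (hsm i j).differentiableAt (by simp), hsym, hpos⟩
      smooth := hsm
      small := hη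
      ρ0 := by positivity
      b0 := b0
      b1 := fun k i j => by
        have h1 := ((hb i j).2.1 k).trans (hC 2)
        refine h1.trans (le_of_eq ?_)
        field_simp
      b2 := fun k l i j => by
        have h1 := ((hb i j).2.2 k l).trans (hC 3)
        refine h1.trans (le_of_eq ?_)
        field_simp }
  constructor
  · refine H.main.trans (le_of_eq ?_)
    field_simp
  · refine H.b_linR.trans ?_
    have e : 27 * (K / r * (1 / r) ^ 2) = 27 * K / r ^ 3 := by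
      field_simp
    rw [e]
    refine div_le_div_of_nonneg_right ?_ (by positivity)
    nlinarith

end Pool.Agent.PFlow
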