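import Pool.Agent.PFlow.StmtsE3
import Pool.Agent.PFlow.StmtsM

/-!
# The level set inequality for a setup
-/

set_option autoImplicit false

open MeasureTheory Filter Topology
open scoped ContDiff ENNReal

namespace Pool.Agent.PFlow

open Pool.Agent.PenroseSph

namespace ABSMaux

theorem ev_add_smul (P : Bil) (a b : Cov) (t : ℝ) :
    ev P (fun i => a i + t * b i) (fun i => a i + t * b i)
      = ev P b b * (t * t) + (ev P a b + ev P b a) * t + ev P a a := by
  simp only [ev, Fin.sum_univ_three]
  ring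

theorem ev_symm {P : Bil} (hP : P.IsSymm) (a b : Cov) : ev P a b = ev P b a := by
  have h : ∀ i j, P i j = P j i := fun i j => hP.apply j i
  simp only [ev, Fin.sum_univ_three, h 1 0, h 2 0, h 2 1]
  ring

theorem ev_nonneg {P : Bil} (hP : P.PosDef) (p : Cov) : 0 ≤ ev P p p := by
  have h1 := hP.posSemidef.dotProduct_mulVec_nonneg p
  have h2 : ev P p p = star p ⬝ᵥ P.mulVec p := by
    simp only [ev, dotProduct, Matrix.mulVec, Finset.mul_sum, star_trivial]
    refine Finset.sum_congr rfl fun i _ => Finset.sum_congr rfl fun j _ => ?_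
    ring
  rw [h2]
  exact h1

/-- The inequality of Cauchy and Schwarz. -/
theorem ev_cs {P : Bil} (hP : P.PosDef) (a b : Cov) : ev P a b ^ 2 ≤ ev P a a * ev P b b := by
  have hs : P.IsSymm := by
    have h1 := hP.isHermitian
    unfold Matrix.IsHermitian at h1
    rwa [Matrix.conjTranspose_eq_transpose_of_trivial] at h1
  have h := discrim_le_zero (a := ev P b b) (b := ev P a b + ev P b a) (c := ev P a a)
    (fun t => by
      rw [← ev_add_smul]
      exact ev_nonneg hP _)
  rw [discrim, ev_symm hs b a] at h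
  nlinarith

/-- The matter term dominates the surplus. -/
theorem surplus_le (g h : TensorField) (x : E3) (hg : (g x).PosDef) (p : Cov) :
    surplus g h x ≤ matter g h x p := by
  have hP : ((g x)⁻¹ : Bil).PosDef := hg.inv
  have e1 : ∑ j, momentumDensity g h j x * nrm g x p j
      = ev (g x)⁻¹ (fun i => momentumDensity g h i x) p / len g x p := by
    simp only [ev, nrm, raise, Finset.sum_div, Finset.mul_sum]
    refine Finset.sum_congr rfl fun i _ => Finset.sum_congr rfl fun j _ => ?_
    ring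
  have h2 : ev (g x)⁻¹ (fun i => momentumDensity g h i x) p / len g x p ≤ jlen g h x := by
    by_cases hl : len g x p = 0
    · rw [hl, div_zero]
      exact Real.sqrt_nonneg _
    · have hl' : 0 < len g x p := lt_of_le_of_ne (Real.sqrt_nonneg _) (Ne.symm hl)
      rw [div_le_iff₀ hl']
      unfold jlen len
      rw [← Real.sqrt_mul (ev_nonneg hP _)]
      exact Real.le_sqrt_of_sq_le (ev_cs hP _ _)
  unfold surplus matter
  rw [e1]
  linarith

/-- A bounded measurable function of `w` times a function integrable over the level regions. -/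
theorem int_mul {P : Par} {D : Dat} {f : E3 → ℝ} (hf : LvlInt P D f) (hw : Measurable (D.w P))
    (hm : MeasurableSet D.Om) (hlt : D.sb P / 4 < D.sM P) {ψ : ℝ → ℝ} (hc : Continuous ψ)
    (hcs : HasCompactSupport ψ) (hsupp : tsupport ψ ⊆ Set.Ioo (D.sb P / 4) (D.sM P)) :
    IntegrableOn (fun x => ψ (D.w P x) * f x) D.Om := by
  obtain ⟨s, s', h1, h2, h3, h4⟩ : ∃ s s', D.sb P / 4 < s ∧ s < s' ∧ s' < D.sM P ∧
      tsupport ψ ⊆ Set.Icc s s' := by
    by_cases hne : (tsupport ψ).Nonempty
    · have hK : IsCompact (tsupport ψ) := hcs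
      obtain ⟨a, ha, hamin⟩ := hK.exists_isLeast hne
      obtain ⟨b, hb, hbmax⟩ := hK.exists_isGreatest hne
      have ha' := hsupp ha
      have hb' := hsupp hb
      have hab : a ≤ b := hamin hb
      refine ⟨(D.sb P / 4 + a) / 2, (b + D.sM P) / 2, by linarith [ha'.1], ?_, by linarith [hb'.2],
        ?_⟩
      · linarith [ha'.1, hb'.2]
      · intro x hx
        have e1 := hamin hx
        have e2 := hbmax hx
        exact ⟨by linarith [ha'.1], by linarith [hb'.2]⟩
    · rw [Set.not_nonempty_iff_eq_empty] at hne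
      refine ⟨(2 * (D.sb P / 4) + D.sM P) / 3, (D.sb P / 4 + 2 * D.sM P) / 3, by linarith,
        by linarith, by linarith, ?_⟩
      rw [hne]
      exact Set.empty_subset _
  set S : Set E3 := D.Om ∩ {x | s ≤ D.w P x ∧ D.w P x ≤ s'} with hS
  have hSm : MeasurableSet S :=
    hm.inter ((measurableSet_le measurable_const hw).inter (measurableSet_le hw measurable_const))
  obtain ⟨C, hC⟩ := hc.bounded_above_of_compact_support hcs
  have hi : IntegrableOn (fun x => ψ (D.w P x) * f x) S := by
    refine Integrable.bdd_mul (c := C) (hf s s' h1 h2 h3)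
      (hc.measurable.comp hw).aestronglyMeasurable ?_
    exact Eventually.of_forall fun x => hC _
  have hz : ∀ x ∈ D.Om \ S, ψ (D.w P x) * f x = 0 := by
    intro x hx
    have hnot : D.w P x ∉ tsupport ψ := fun hmem => hx.2 ⟨hx.1, h4 hmem⟩
    rw [image_eq_zero_of_notMem_tsupport hnot, zero_mul]
  exact hi.of_forall_sdiff_eq_zero hm hz

end ABSMaux

open ABSMaux in
theorem ABSM (hSETW : Stmt_SETW) (hABSI : Stmt_ABSI) (hMI : Stmt_MI) : Stmt_ABSM := by
  intro P D hS ψ hψ hψ0 hcs hsupp
  obtain ⟨hg, hh, -, hH2, hEq, hNI, hw, hSep, -, -, -, -, -, -, -, hsb, hsb1, -, hs2, hsM, hKR,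
    hlK⟩ := hSETW P D hS
  obtain ⟨-, -, -, hDi, hSu, hMat, -, -⟩ := hABSI P D hS
  have hl := hS.l_ge
  have hgam := hS.gam_pos
  have hR : 0 < D.R := by linarith
  have hR1 : 1 < D.R := by linarith
  have hRR : 1 / D.R < D.R := by
    rw [div_lt_iff₀ hR]
    nlinarith
  have hlt : D.sb P / 4 < D.sM P := by linarith
  have hOm : MeasurableSet D.Om := by
    unfold Dat.Om Ann
    exact (measurableSet_lt measurable_const measurable_norm).inter
      (measurableSet_lt measurable_norm measurable_const)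
  have hm := hMI P.eps (1 / D.R) D.R (D.sb P / 4) (D.sM P) D.g' D.h' (D.w P) (D.Gw P) (D.Mw P)
    hS.eps_pos (by linarith [hS.eps_le]) (by positivity) hRR hlt hg hh hH2 hEq hNI hSep ψ hψ hcs
    hsupp hψ0
  have hiDi := int_mul hDi hw hOm hlt hψ.continuous hcs hsupp
  have hiSu := int_mul hSu hw hOm hlt hψ.continuous hcs hsupp
  have hiMat := int_mul hMat hw hOm hlt hψ.continuous hcs hsupp
  have hle : ∫ x in D.Om, ψ (D.w P x) * (D.Su P x + D.Di P x) * D.vol x
      ≤ ∫ x in D.Om, ψ (D.w P x) * (len D.g' x (D.Gw P x)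
          * (matter D.g' D.h' x (D.Gw P x) + diss P.eps D.g' D.h' x (D.Gw P x) (D.Mw P x)))
          * volDen D.g' x := by
    refine setIntegral_mono_on ?_ ?_ hOm ?_
    · refine (hiSu.add hiDi).congr (Eventually.of_forall fun x => ?_)
      simp only [Pi.add_apply]
      ring
    · refine (hiMat.add hiDi).congr (Eventually.of_forall fun x => ?_)
      simp only [Pi.add_apply, Dat.Di, Dat.X, Dat.vol]
      ring
    · intro x hx
      have h1 := surplus_le D.g' D.h' x (hg.posDef x hx) (D.Gw P x)
      have h2 : 0 ≤ len D.g' x (D.Gw P x) := Real.sqrt_nonneg _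
      have h3 : 0 ≤ volDen D.g' x := Real.sqrt_nonneg _
      have h4 : D.Su P x + D.Di P x ≤ len D.g' x (D.Gw P x)
          * (matter D.g' D.h' x (D.Gw P x) + diss P.eps D.g' D.h' x (D.Gw P x) (D.Mw P x)) := by
        simp only [Dat.Su, Dat.Di, Dat.X]
        nlinarith [mul_le_mul_of_nonneg_left h1 h2]
      exact mul_le_mul_of_nonneg_right (mul_le_mul_of_nonneg_left h4 (hψ0 _)) h3
  change -(∫ x in Ann (1 / D.R) D.R, deriv ψ (D.w P x) * D.Phi P x * D.vol x) ≤ _
  change _ ≤ 4 * Real.pi * (∫ s, ψ s)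
    - 1 / (2 - P.eps) * (∫ x in Ann (1 / D.R) D.R, ψ (D.w P x) * D.Phi P x * D.vol x)
    - ∫ x in Ann (1 / D.R) D.R, ψ (D.w P x) * (D.Su P x + D.Di P x) * D.vol x
  refine hm.trans ?_
  exact sub_le_sub_left hle _

end Pool.Agent.PFlow
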