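import Pool.Agent.PFlow.StmtsE3

/-!
# DEFE: the total defect is small
-/

open MeasureTheory Filter Topology
open scoped ContDiff ENNReal

namespace Pool.Agent.PFlow

open Pool.Agent.PenroseSph

namespace EDEFE

lemma rpow_add_one {a p : ℝ} (ha : 0 ≤ a) (hp : 1 ≤ p) : a ≤ a ^ p + 1 := by
  rcases le_total a 1 with h | h
  · have := Real.rpow_nonneg ha p
    linarith
  · have h2 : a ^ (1 : ℝ) ≤ a ^ p := Real.rpow_le_rpow_of_exponent_le h hp
    rw [Real.rpow_one] at h2
    linarith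

lemma rpow_le_cube {a p : ℝ} (ha : 0 ≤ a) (hp : 0 ≤ p) (hp3 : p ≤ 3) : a ^ p ≤ a ^ 3 + 1 := by
  rcases le_total a 1 with h | h
  · have h1 : a ^ p ≤ 1 := Real.rpow_le_one ha h hp
    have : 0 ≤ a ^ 3 := by positivity
    linarith
  · have h2 : a ^ p ≤ a ^ (3 : ℝ) := Real.rpow_le_rpow_of_exponent_le h hp3
    rw [show (3 : ℝ) = ((3 : ℕ) : ℝ) by norm_num, Real.rpow_natCast] at h2
    linarith

/-- Hoelder's inequality. -/
lemma core (ε : ℝ) (T : Set E3) (ph e vol : E3 → ℝ) (I E : ℝ) (hε : 0 < ε)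
    (hT : MeasurableSet T)
    (hvol : ∀ x, 0 ≤ vol x) (hph : ∀ x, 0 ≤ ph x) (he0 : ∀ x, 0 ≤ e x)
    (hem : ∀ x ∈ T, e x ≤ E) (hIv : IntegrableOn vol T)
    (hIP : IntegrableOn (fun x => ph x ^ (1 + ε) * vol x) T)
    (hPm : AEStronglyMeasurable ph (volume.restrict T))
    (hEm : AEStronglyMeasurable e (volume.restrict T))
    (hI : (∫ x in T, ph x ^ (1 + ε) * vol x) ≤ I) :
    IntegrableOn (fun x => ph x * e x * vol x) T ∧
    IntegrableOn (fun x => e x ^ ((1 + ε) / ε) * vol x) T ∧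
    ∫ x in T, ph x * e x * vol x ≤ I ^ (1 / (1 + ε)) *
      (∫ x in T, e x ^ ((1 + ε) / ε) * vol x) ^ (ε / (1 + ε)) := by
  have hp0 : (0 : ℝ) < 1 + ε := by linarith
  have hq0 : 0 < (1 + ε) / ε := by positivity
  have hvm : AEStronglyMeasurable vol (volume.restrict T) := hIv.aestronglyMeasurable
  have hEqm : AEStronglyMeasurable (fun x => e x ^ ((1 + ε) / ε)) (volume.restrict T) :=
    (hEm.aemeasurable.pow_const _).aestronglyMeasurable
  have hIE : IntegrableOn (fun x => e x ^ ((1 + ε) / ε) * vol x) T := by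
    refine Integrable.mono' (hIv.const_mul (E ^ ((1 + ε) / ε))) (hEqm.mul hvm) ?_
    rw [ae_restrict_iff' hT]
    refine Eventually.of_forall fun x hx => ?_
    rw [Real.norm_eq_abs, abs_of_nonneg (mul_nonneg (Real.rpow_nonneg (he0 x) _) (hvol x))]
    exact mul_le_mul_of_nonneg_right (Real.rpow_le_rpow (he0 x) (hem x hx) hq0.le) (hvol x)
  have hint : IntegrableOn (fun x => ph x * e x * vol x) T := by
    refine Integrable.mono' ((hIP.add hIv).const_mul E) ((hPm.mul hEm).mul hvm) ?_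
    rw [ae_restrict_iff' hT]
    refine Eventually.of_forall fun x hx => ?_
    rw [Real.norm_eq_abs, abs_of_nonneg (mul_nonneg (mul_nonneg (hph x) (he0 x)) (hvol x))]
    show ph x * e x * vol x ≤ E * (ph x ^ (1 + ε) * vol x + vol x)
    have h1 := rpow_add_one (p := 1 + ε) (hph x) (by linarith)
    have h2 : ph x * vol x ≤ ph x ^ (1 + ε) * vol x + vol x := by
      have := mul_le_mul_of_nonneg_right h1 (hvol x)
      linarith
    have h3 : 0 ≤ ph x * vol x := mul_nonneg (hph x) (hvol x)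
    have h4 : 0 ≤ E := (he0 x).trans (hem x hx)
    calc ph x * e x * vol x = e x * (ph x * vol x) := by ring
      _ ≤ E * (ph x * vol x) := mul_le_mul_of_nonneg_right (hem x hx) h3
      _ ≤ E * (ph x ^ (1 + ε) * vol x + vol x) := mul_le_mul_of_nonneg_left h2 h4
  refine ⟨hint, hIE, ?_⟩
  set F : E3 → ℝ := fun x => ph x * vol x ^ (1 / (1 + ε)) with hF
  set G : E3 → ℝ := fun x => e x * vol x ^ (ε / (1 + ε)) with hG
  have hF0 : ∀ x, 0 ≤ F x := fun x => mul_nonneg (hph x) (Real.rpow_nonneg (hvol x) _)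
  have hG0 : ∀ x, 0 ≤ G x := fun x => mul_nonneg (he0 x) (Real.rpow_nonneg (hvol x) _)
  have hFp : ∀ x, F x ^ (1 + ε) = ph x ^ (1 + ε) * vol x := by
    intro x
    show (ph x * vol x ^ (1 / (1 + ε))) ^ (1 + ε) = ph x ^ (1 + ε) * vol x
    rw [Real.mul_rpow (hph x) (Real.rpow_nonneg (hvol x) _), ← Real.rpow_mul (hvol x),
      one_div, inv_mul_cancel₀ hp0.ne', Real.rpow_one]
  have hGq : ∀ x, G x ^ ((1 + ε) / ε) = e x ^ ((1 + ε) / ε) * vol x := by
    intro x
    show (e x * vol x ^ (ε / (1 + ε))) ^ ((1 + ε) / ε) = e x ^ ((1 + ε) / ε) * vol x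
    rw [Real.mul_rpow (he0 x) (Real.rpow_nonneg (hvol x) _), ← Real.rpow_mul (hvol x)]
    have : ε / (1 + ε) * ((1 + ε) / ε) = 1 := by field_simp
    rw [this, Real.rpow_one]
  have hFG : ∀ x, F x * G x = ph x * e x * vol x := by
    intro x
    show ph x * vol x ^ (1 / (1 + ε)) * (e x * vol x ^ (ε / (1 + ε))) = ph x * e x * vol x
    have h1 : vol x ^ (1 / (1 + ε)) * vol x ^ (ε / (1 + ε)) = vol x := by
      rcases (hvol x).eq_or_lt with h | h
      · rw [← h, Real.zero_rpow (by positivity), zero_mul]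
      · rw [← Real.rpow_add h]
        have : 1 / (1 + ε) + ε / (1 + ε) = 1 := by field_simp
        rw [this, Real.rpow_one]
    calc ph x * vol x ^ (1 / (1 + ε)) * (e x * vol x ^ (ε / (1 + ε))) =
        ph x * e x * (vol x ^ (1 / (1 + ε)) * vol x ^ (ε / (1 + ε))) := by ring
      _ = ph x * e x * vol x := by rw [h1]
  have hFm : AEStronglyMeasurable F (volume.restrict T) := by
    have h1 : AEMeasurable (fun x => vol x ^ (1 / (1 + ε))) (volume.restrict T) :=
      hvm.aemeasurable.pow_const _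
    exact hPm.mul h1.aestronglyMeasurable
  have hGm : AEStronglyMeasurable G (volume.restrict T) := by
    have h1 : AEMeasurable (fun x => vol x ^ (ε / (1 + ε))) (volume.restrict T) :=
      hvm.aemeasurable.pow_const _
    exact hEm.mul h1.aestronglyMeasurable
  have hpq : (1 + ε).HolderConjugate ((1 + ε) / ε) := by
    rw [Real.holderConjugate_iff]
    refine ⟨by linarith, ?_⟩
    field_simp
  have hFL : MemLp F (ENNReal.ofReal (1 + ε)) (volume.restrict T) := by
    rw [← integrable_norm_rpow_iff hFm (by simpa using hp0) ENNReal.ofReal_ne_top]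
    refine hIP.congr (Eventually.of_forall fun x => ?_)
    show ph x ^ (1 + ε) * vol x = ‖F x‖ ^ (ENNReal.ofReal (1 + ε)).toReal
    rw [ENNReal.toReal_ofReal hp0.le, Real.norm_eq_abs, abs_of_nonneg (hF0 x), hFp]
  have hGL : MemLp G (ENNReal.ofReal ((1 + ε) / ε)) (volume.restrict T) := by
    rw [← integrable_norm_rpow_iff hGm (by simpa using hq0) ENNReal.ofReal_ne_top]
    refine hIE.congr (Eventually.of_forall fun x => ?_)
    show e x ^ ((1 + ε) / ε) * vol x = ‖G x‖ ^ (ENNReal.ofReal ((1 + ε) / ε)).toReal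
    rw [ENNReal.toReal_ofReal hq0.le, Real.norm_eq_abs, abs_of_nonneg (hG0 x), hGq]
  have hH := integral_mul_le_Lp_mul_Lq_of_nonneg hpq (Eventually.of_forall hF0)
    (Eventually.of_forall hG0) hFL hGL
  simp only [hFG, hFp, hGq] at hH
  have e1 : 1 / ((1 + ε) / ε) = ε / (1 + ε) := by field_simp
  rw [e1] at hH
  refine hH.trans (mul_le_mul_of_nonneg_right ?_ ?_)
  · refine Real.rpow_le_rpow ?_ hI (by positivity)
    exact integral_nonneg fun x => mul_nonneg (Real.rpow_nonneg (hph x) _) (hvol x)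
  · refine Real.rpow_nonneg ?_ _
    exact integral_nonneg fun x => mul_nonneg (Real.rpow_nonneg (he0 x) _) (hvol x)

lemma isCompact_cAnn (a b : ℝ) : IsCompact (cAnn a b) := by
  refine Metric.isCompact_of_isClosed_isBounded ?_ ?_
  · exact (isClosed_le continuous_const continuous_norm).inter
      (isClosed_le continuous_norm continuous_const)
  · refine (Metric.isBounded_closedBall (x := (0 : E3)) (r := b)).subset fun x hx => ?_
    rw [mem_closedBall_zero_iff]
    exact hx.2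

end EDEFE

theorem DEFE (hSETW : Stmt_SETW) (hBETA : Stmt_BETA) (hUPH : Stmt_UPH) (hFLXA : Stmt_FLXA) :
    Stmt_DEFE := by
  intro P B g l
  by_cases hex : ∃ D : Dat, Setup P D ∧ D.g = g ∧ D.l = l
  swap
  · refine ⟨1, one_pos, fun D hD _ h1 h2 => ?_⟩
    exact absurd ⟨D, hD, h1, h2⟩ hex
  obtain ⟨D₀, hD₀, hg₀, hl₀⟩ := hex
  obtain ⟨β, hβ⟩ := hBETA
  obtain ⟨BU, hBU, hU⟩ := hUPH P B β hβ
  have hε := hD₀.eps_pos
  have hε2 := hD₀.eps_le
  have hκ := hD₀.kap_pos
  have hκ8 := hD₀.kap_le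
  have hl4 : 4 ≤ l := hl₀ ▸ hD₀.l_ge
  have hl : 0 < l := by linarith
  have hK := EDEFE.isCompact_cAnn (P.kap / l) l
  have hKne : ∀ x ∈ cAnn (P.kap / l) l, x ≠ 0 := by
    rintro x ⟨hx, _⟩ rfl
    rw [norm_zero] at hx
    have : 0 < P.kap / l := by positivity
    linarith
  -- the volume density of `g` is bounded
  obtain ⟨V, hV⟩ : ∃ V : ℝ, ∀ x ∈ cAnn (P.kap / l) l, volDen g x ≤ V := by
    have hc : ContinuousOn (volDen g) (cAnn (P.kap / l) l) := by
      have h1 : ContinuousOn (fun x => (g x).det) (cAnn (P.kap / l) l) := by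
        have h2 : ∀ i j, ContinuousOn (fun x => g x i j) (cAnn (P.kap / l) l) := by
          intro i j
          have := (hg₀ ▸ hD₀.metric0.smooth i j : ContDiffOn ℝ ∞ (fun x => g x i j) {0}ᶜ)
          exact this.continuousOn.mono fun x hx => hKne x hx
        simp only [Matrix.det_fin_three]
        fun_prop
      exact Real.continuous_sqrt.comp_continuousOn h1
    obtain ⟨V, hV⟩ := hK.bddAbove_image hc
    exact ⟨V, fun x hx => hV ⟨x, hx, rfl⟩⟩
  have hV0 : 0 ≤ V := by
    have hx : (EuclideanSpace.single (0 : Fin 3) (l : ℝ)) ∈ cAnn (P.kap / l) l := by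
      constructor
      · rw [EuclideanSpace.norm_single, Real.norm_eq_abs, abs_of_pos hl, div_le_iff₀ hl]
        nlinarith
      · rw [EuclideanSpace.norm_single, Real.norm_eq_abs, abs_of_pos hl]
    exact (Real.sqrt_nonneg _).trans (hV _ hx)
  set q := (1 + P.eps) / P.eps with hq
  have hq0 : 0 < q := by
    rw [hq]
    have : 0 < 1 + P.eps := by linarith
    positivity
  set s₂ := s2E P.eps P.gam l with hs₂
  set A : ℝ := Real.exp ((1 + P.eps) * s₂ / (2 - P.eps)) * (BU * Real.exp s₂) with hA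
  have hA0 : 0 ≤ A := by positivity
  refine ⟨A ^ (1 / (1 + P.eps)) * V ^ (P.eps / (1 + P.eps)) + 1, ?_, ?_⟩
  · have h1 := Real.rpow_nonneg hA0 (1 / (1 + P.eps))
    have h2 := Real.rpow_nonneg hV0 (P.eps / (1 + P.eps))
    have := mul_nonneg h1 h2
    linarith
  intro D hD hAbs hDg hDl
  obtain ⟨w1, w2, w3, w4, w5, w6, wmeas, w8, w9, w10, w11, w12, w13, w14, w15, sb0, sb1, sbe,
    s21, s2M, w21, w22⟩ := hSETW P D hD
  obtain ⟨hJ, _, _⟩ := hU D hD hAbs
  have hs2D : D.s2 P = s₂ := by rw [hs₂, ← hDl]; rfl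
  have hsb2 : D.sb P < D.s2 P := by linarith
  have hγ := hD.gam_pos
  obtain ⟨hJ0, hflx⟩ := hFLXA P.eps β hε hε2 hβ _ _ _ _ _ _ _ _ _ _ _ _ hAbs sb0 hsb2 (by linarith)
  -- the region
  set T := cAnn (P.kap / D.l) D.l ∩ {x | D.sb P / 2 ≤ D.w P x} with hT
  have hTm : MeasurableSet T := by
    refine MeasurableSet.inter ?_ (measurableSet_le measurable_const wmeas)
    exact (EDEFE.isCompact_cAnn _ _).measurableSet
  have hRl : 2 * l / P.kap ≤ D.R := hDl ▸ hD.R_ge'
  have hR0 : 0 < D.R := lt_of_lt_of_le (by positivity) hRl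
  have hlR : l < D.R := by
    refine lt_of_lt_of_le ?_ hRl
    rw [lt_div_iff₀ hκ]
    nlinarith
  have hinv : 1 / D.R < P.kap / l := by
    rw [div_lt_div_iff₀ hR0 hl]
    have h1 : 2 * l ≤ D.R * P.kap := by
      rwa [div_le_iff₀ hκ] at hRl
    nlinarith
  have hcOm : cAnn (P.kap / D.l) D.l ⊆ D.Om := by
    rintro x ⟨h1, h2⟩
    rw [hDl] at h1 h2
    exact ⟨lt_of_lt_of_le hinv h1, lt_of_le_of_lt h2 hlR⟩
  have hTs : T ⊆ D.Om ∩ {x | D.sb P / 2 ≤ D.w P x ∧ D.w P x ≤ D.s2 P} := by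
    rintro x ⟨h1, h2⟩
    refine ⟨hcOm h1, h2, ?_⟩
    refine (hD.located.mid x (hcOm h1) ?_).le
    have := h1.2
    rw [hDl] at this ⊢
    linarith
  have hint3 := hAbs.int_X (D.sb P / 2) (D.s2 P) (by linarith) (by linarith) (by linarith)
  have hintv := hAbs.int_vol (D.sb P / 2) (D.s2 P) (by linarith) (by linarith) (by linarith)
  have hOmm := hAbs.measOmega
  set L := D.Om ∩ {x | D.sb P / 2 ≤ D.w P x ∧ D.w P x ≤ D.s2 P} with hL
  have hLm : MeasurableSet L := by
    refine hOmm.inter ?_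
    exact (measurableSet_le measurable_const wmeas).inter
      (measurableSet_le wmeas measurable_const)
  have hXm : AEStronglyMeasurable (D.X P) (volume.restrict L) :=
    hAbs.meas_X.mono_measure (Measure.restrict_mono Set.inter_subset_left le_rfl)
  have hIX : IntegrableOn (fun x => D.X P x ^ (1 + P.eps) * D.vol x) L := by
    refine Integrable.mono' (hint3.add hintv)
      ((hXm.aemeasurable.pow_const _).aestronglyMeasurable.mul hintv.aestronglyMeasurable)
      (Eventually.of_forall fun x => ?_)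
    have hx0 := hAbs.X_nonneg x
    have hv0 := hAbs.vol_nonneg x
    rw [Real.norm_eq_abs, abs_of_nonneg (mul_nonneg (Real.rpow_nonneg hx0 _) hv0)]
    show D.X P x ^ (1 + P.eps) * D.vol x ≤ D.X P x ^ 3 * D.vol x + D.vol x
    have := mul_le_mul_of_nonneg_right
      (EDEFE.rpow_le_cube (p := 1 + P.eps) hx0 (by linarith) (by linarith)) hv0
    linarith
  -- the weight
  have hph0 : ∀ x, 0 ≤ D.ph P x := fun x => mul_nonneg (Real.exp_pos _).le (hAbs.X_nonneg x)
  have hphp : ∀ x, D.ph P x ^ (1 + P.eps) =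
      Real.exp ((1 + P.eps) * D.w P x / (2 - P.eps)) * D.X P x ^ (1 + P.eps) := by
    intro x
    show (Real.exp (D.w P x / (2 - P.eps)) * D.X P x) ^ (1 + P.eps) = _
    rw [Real.mul_rpow (Real.exp_pos _).le (hAbs.X_nonneg x), ← Real.exp_mul]
    congr 2
    ring
  have hphm : AEStronglyMeasurable (D.ph P) (volume.restrict L) := by
    have h1 : Measurable fun x => Real.exp (D.w P x / (2 - P.eps)) :=
      Real.measurable_exp.comp (wmeas.div_const _)
    exact h1.aestronglyMeasurable.mul hXm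
  have hexp : ∀ x ∈ L, Real.exp ((1 + P.eps) * D.w P x / (2 - P.eps)) ≤
      Real.exp ((1 + P.eps) * s₂ / (2 - P.eps)) := by
    rintro x ⟨_, _, hx⟩
    apply Real.exp_le_exp.mpr
    have h2 : 0 < 2 - P.eps := by linarith
    rw [← hs2D]
    refine div_le_div_of_nonneg_right ?_ h2.le
    exact mul_le_mul_of_nonneg_left hx (by linarith)
  have hIP : IntegrableOn (fun x => D.ph P x ^ (1 + P.eps) * D.vol x) L := by
    refine Integrable.mono' (hIX.const_mul (Real.exp ((1 + P.eps) * s₂ / (2 - P.eps))))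
      ((hphm.aemeasurable.pow_const _).aestronglyMeasurable.mul hintv.aestronglyMeasurable) ?_
    rw [ae_restrict_iff' hLm]
    refine Eventually.of_forall fun x hx => ?_
    have hx0 := Real.rpow_nonneg (hAbs.X_nonneg x) (1 + P.eps)
    have hv0 := hAbs.vol_nonneg x
    rw [Real.norm_eq_abs, abs_of_nonneg (mul_nonneg (Real.rpow_nonneg (hph0 x) _) hv0), hphp,
      mul_assoc]
    exact mul_le_mul_of_nonneg_right (hexp x hx) (mul_nonneg hx0 hv0)
  have hIPle : (∫ x in T, D.ph P x ^ (1 + P.eps) * D.vol x) ≤ A := by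
    have h1 : (∫ x in T, D.ph P x ^ (1 + P.eps) * D.vol x) ≤
        ∫ x in L, D.ph P x ^ (1 + P.eps) * D.vol x :=
      setIntegral_mono_set hIP (Eventually.of_forall fun x =>
        mul_nonneg (Real.rpow_nonneg (hph0 x) _) (hAbs.vol_nonneg x)) (HasSubset.Subset.eventuallyLE hTs)
    have h2 : (∫ x in L, D.ph P x ^ (1 + P.eps) * D.vol x) ≤
        ∫ x in L, Real.exp ((1 + P.eps) * s₂ / (2 - P.eps)) *
          (D.X P x ^ (1 + P.eps) * D.vol x) := by
      refine setIntegral_mono_on hIP (hIX.const_mul _) hLm fun x hx => ?_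
      rw [hphp, mul_assoc]
      exact mul_le_mul_of_nonneg_right (hexp x hx)
        (mul_nonneg (Real.rpow_nonneg (hAbs.X_nonneg x) _) (hAbs.vol_nonneg x))
    rw [integral_const_mul] at h2
    have h3 := hflx (D.sb P / 2) (D.s2 P) (by linarith) (by linarith) le_rfl
    have h4 : jInf P.eps β D.Om D.vol (D.w P) (D.X P) (D.s2 P) *
        (Real.exp (D.s2 P) - Real.exp (D.sb P / 2)) ≤ BU * Real.exp s₂ := by
      rw [hs2D] at hJ0 hJ ⊢
      have h5 : Real.exp s₂ - Real.exp (D.sb P / 2) ≤ Real.exp s₂ := by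
        linarith [Real.exp_pos (D.sb P / 2)]
      exact (mul_le_mul_of_nonneg_left h5 hJ0).trans
        (mul_le_mul_of_nonneg_right hJ (Real.exp_pos _).le)
    refine h1.trans (h2.trans ?_)
    exact mul_le_mul_of_nonneg_left (h3.trans h4) (Real.exp_pos _).le
  -- the defect
  have he := hD.modified.defect_cont
  have he0 := hD.modified.defect_nonneg
  obtain ⟨E, hE⟩ := (EDEFE.isCompact_cAnn (P.kap / D.l) D.l).bddAbove_image he.continuousOn
  have hLv : IntegrableOn D.vol T := hintv.mono_set hTs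
  obtain ⟨c1, c2, c3⟩ := EDEFE.core P.eps T (D.ph P) D.e D.vol A E hε hTm hAbs.vol_nonneg hph0
    he0 (fun x hx => hE ⟨x, hx.1, rfl⟩) hLv (hIP.mono_set hTs)
    (hphm.mono_measure (Measure.restrict_mono hTs le_rfl)) he.aestronglyMeasurable hIPle
  refine ⟨c1, ?_, ?_⟩
  · exact integral_nonneg fun x => mul_nonneg (mul_nonneg (hph0 x) (he0 x)) (hAbs.vol_nonneg x)
  -- the integral of the defect
  have hIe : IntegrableOn (fun x => D.e x ^ q) (cAnn (P.kap / D.l) D.l) := by
    refine ContinuousOn.integrableOn_compact (EDEFE.isCompact_cAnn _ _) ?_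
    exact (he.rpow_const fun x => Or.inr hq0.le).continuousOn
  have hvolV : ∀ᵐ x ∂(volume.restrict T), D.vol x ≤ V := by
    have hsph : volume (Metric.sphere (0 : E3) l) = 0 := Measure.addHaar_sphere _ _ _
    have h1 : ∀ᵐ x ∂(volume : Measure E3), x ∉ Metric.sphere (0 : E3) l :=
      measure_eq_zero_iff_ae_notMem.mp hsph
    rw [ae_restrict_iff' hTm]
    filter_upwards [h1] with x hx hxT
    have hx1 := hxT.1.1
    have hx2 := hxT.1.2
    rw [hDl] at hx1 hx2
    have hx3 : ‖x‖ < l := lt_of_le_of_ne hx2 (by simpa using hx)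
    have h4 : 1 / (16 * D.R) < ‖x‖ := by
      refine lt_of_lt_of_le ?_ hx1
      refine lt_trans ?_ hinv
      exact one_div_lt_one_div_of_lt hR0 (by linarith)
    have h5 := hD.modified.same x h4 (hDl.symm ▸ hx3)
    have h6 : D.vol x = volDen g x := by
      show Real.sqrt (D.g' x).det = Real.sqrt (g x).det
      rw [h5, hDg]
    rw [h6]
    exact hV x ⟨hx1, hx2⟩
  have hI2 : (∫ x in T, D.e x ^ q * D.vol x) ≤ V * ∫ x in cAnn (P.kap / D.l) D.l, D.e x ^ q := by
    have h1 : (∫ x in T, D.e x ^ q * D.vol x) ≤ ∫ x in T, V * D.e x ^ q := by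
      refine integral_mono_ae c2 ((hIe.mono_set Set.inter_subset_left).const_mul V) ?_
      filter_upwards [hvolV] with x hx
      rw [mul_comm V]
      exact mul_le_mul_of_nonneg_left hx (Real.rpow_nonneg (he0 x) _)
    rw [integral_const_mul] at h1
    refine h1.trans (mul_le_mul_of_nonneg_left ?_ hV0)
    exact setIntegral_mono_set hIe (Eventually.of_forall fun x => Real.rpow_nonneg (he0 x) _)
      (HasSubset.Subset.eventuallyLE Set.inter_subset_left)
  have hIe0 : 0 ≤ ∫ x in cAnn (P.kap / D.l) D.l, D.e x ^ q :=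
    integral_nonneg fun x => Real.rpow_nonneg (he0 x) _
  have hex0 : 0 ≤ P.eps / (1 + P.eps) := by
    have : 0 < 1 + P.eps := by linarith
    positivity
  have h9 : (∫ x in T, D.e x ^ q * D.vol x) ^ (P.eps / (1 + P.eps)) ≤
      V ^ (P.eps / (1 + P.eps)) *
        (∫ x in cAnn (P.kap / D.l) D.l, D.e x ^ q) ^ (P.eps / (1 + P.eps)) := by
    rw [← Real.mul_rpow hV0 hIe0]
    refine Real.rpow_le_rpow ?_ hI2 hex0
    exact integral_nonneg fun x => mul_nonneg (Real.rpow_nonneg (he0 x) _) (hAbs.vol_nonneg x)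
  have h10 := Real.rpow_nonneg hA0 (1 / (1 + P.eps))
  have h11 := Real.rpow_nonneg hIe0 (P.eps / (1 + P.eps))
  show (∫ x in T, D.ph P x * D.e x * D.vol x) ≤ _
  refine c3.trans ?_
  refine (mul_le_mul_of_nonneg_left h9 h10).trans ?_
  rw [← mul_assoc]
  exact mul_le_mul_of_nonneg_right (by linarith) h11

end Pool.Agent.PFlow
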