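import Pool.Agent.PFlow.StmtsE2

set_option autoImplicit false

/-!
# PERA: perimeter of the sublevel sets of a smooth function
-/

open MeasureTheory Filter Topology
open scoped ContDiff ENNReal

namespace Pool.Agent.PFlow

open Pool.Agent.PenroseSph

namespace PERAaux

/-! ### Algebra at a point -/

theorem ev_nonneg {P : Bil} (hP : P.PosSemidef) (v : Cov) : 0 ≤ ev P v v := by
  have h := hP.dotProduct_mulVec_nonneg v
  have e : star v ⬝ᵥ P.mulVec v = ev P v v := by
    simp only [dotProduct, Matrix.mulVec, ev, Finset.mul_sum, Pi.star_apply, star_trivial]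
    exact Finset.sum_congr rfl fun i _ => Finset.sum_congr rfl fun j _ => by ring
  rwa [e] at h

theorem symm_of {P : Bil} (hP : P.PosDef) (i j : Fin 3) : P i j = P j i := by
  have h := hP.isHermitian
  have h1 := congrFun (congrFun h j) i
  simpa [Matrix.conjTranspose] using h1

theorem inv_app {g : Bil} (hg : g.PosDef) (v : Cov) (i : Fin 3) :
    ∑ j, g i j * (∑ k, g⁻¹ j k * v k) = v i := by
  have hu : IsUnit g.det := hg.isUnit.map Matrix.detMonoidHom
  have h1 : (g * g⁻¹).mulVec v = v := by rw [Matrix.mul_nonsing_inv g hu, Matrix.one_mulVec]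
  rw [← Matrix.mulVec_mulVec] at h1
  have h2 := congrFun h1 i
  simpa [Matrix.mulVec, dotProduct] using h2

theorem ev_eq (B : Bil) (v w : Cov) : ev B v w = ∑ i, (∑ j, B i j * w j) * v i := by
  unfold ev
  refine Finset.sum_congr rfl (fun i _ => ?_)
  rw [Finset.sum_mul]
  refine Finset.sum_congr rfl (fun j _ => ?_)
  ring

theorem cs {g : Bil} (hg : g.PosDef) (p v : Cov) :
    (∑ i, p i * v i) ^ 2 ≤ ev g⁻¹ p p * ev g v v := by
  set u : Cov := fun j => ∑ k, g⁻¹ j k * p k with hu
  have e1 : ∑ i, p i * v i = ev g v u := by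
    rw [ev_eq]
    refine Finset.sum_congr rfl fun i _ => ?_
    rw [hu, inv_app hg p i]
  have e2 : ev g⁻¹ p p = ev g u u := by
    rw [ev_eq, ev_eq]
    refine Finset.sum_congr rfl fun i _ => ?_
    rw [hu, inv_app hg p i, mul_comm]
  have e3 : ∀ t : ℝ, ev g (fun i => v i + t * u i) (fun i => v i + t * u i)
      = ev g u u * (t * t) + (2 * ev g v u) * t + ev g v v := by
    intro t
    have s01 := symm_of hg 0 1
    have s02 := symm_of hg 0 2
    have s12 := symm_of hg 1 2
    simp only [ev, Fin.sum_univ_three]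
    rw [s01, s02, s12]
    ring
  have h := discrim_le_zero (a := ev g u u) (b := 2 * ev g v u) (c := ev g v v) (by
    intro t
    rw [← e3 t]
    exact ev_nonneg hg.posSemidef _)
  rw [e1, e2]
  unfold discrim at h
  nlinarith

theorem abs_le_len {g : TensorField} {x : E3} (hg : (g x).PosDef) (p v : Cov)
    (hv : ev (g x) v v ≤ 1) : |∑ i, p i * v i| ≤ len g x p := by
  unfold len
  rw [← Real.sqrt_sq_eq_abs]
  refine Real.sqrt_le_sqrt ?_
  have h1 := cs hg p v
  have h2 : 0 ≤ ev (g x)⁻¹ p p := ev_nonneg hg.inv.posSemidef p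
  nlinarith

/-! ### Smoothness -/

theorem cd_det {g : TensorField} {x : E3}
    (h : ∀ i j, ContDiffAt ℝ ∞ (fun y => g y i j) x) :
    ContDiffAt ℝ ∞ (fun y => (g y).det) x := by
  simp only [Matrix.det_fin_three]
  fun_prop

theorem cd_vol {g : TensorField} (hg : MetricOn {0}ᶜ g) {x : E3} (hx : x ≠ 0) :
    ContDiffAt ℝ ∞ (volDen g) x := by
  have h1 : ∀ i j, ContDiffAt ℝ ∞ (fun y => g y i j) x := fun i j =>
    (hg.smooth i j).contDiffAt (isOpen_compl_singleton.mem_nhds hx)
  exact (cd_det h1).sqrt (hg.posDef x hx).det_pos.ne'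

theorem cd_inv {g : TensorField} (hg : MetricOn {0}ᶜ g) {x : E3} (hx : x ≠ 0) (k l : Fin 3) :
    ContDiffAt ℝ ∞ (fun y => (g y)⁻¹ k l) x := by
  have h1 : ∀ i j, ContDiffAt ℝ ∞ (fun y => g y i j) x := fun i j =>
    (hg.smooth i j).contDiffAt (isOpen_compl_singleton.mem_nhds hx)
  have hd := cd_det h1
  have ha : ContDiffAt ℝ ∞ (fun y => (g y).adjugate k l) x := by
    simp only [Matrix.adjugate_fin_three]
    fin_cases k <;> fin_cases l <;>
      simp <;> fun_prop
  have h2 : (fun y => (g y)⁻¹ k l) = fun y => ((g y).det)⁻¹ * (g y).adjugate k l := by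
    funext y
    rw [Matrix.inv_def, Ring.inverse_eq_inv', Matrix.smul_apply, smul_eq_mul]
  rw [h2]
  exact (hd.inv (hg.posDef x hx).det_pos.ne').mul ha

theorem cont_pd {W : E3 → ℝ} (hW : ContDiff ℝ ∞ W) (i : Fin 3) : Continuous (pd i W) := by
  unfold pd
  exact (hW.continuous_fderiv (by simp)).clm_apply continuous_const

theorem cont_len {g : TensorField} (hg : MetricOn {0}ᶜ g) {W : E3 → ℝ} (hW : ContDiff ℝ ∞ W)
    {x : E3} (hx : x ≠ 0) : ContinuousAt (fun y => len g y (grad W y) * volDen g y) x := by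
  refine ContinuousAt.mul ?_ (cd_vol hg hx).continuousAt
  unfold len
  refine ContinuousAt.sqrt ?_
  unfold ev
  refine tendsto_finsetSum _ fun i _ => tendsto_finsetSum _ fun j _ => ?_
  exact (((cd_inv hg hx i j).continuousAt).mul (cont_pd hW i).continuousAt).mul
    (cont_pd hW j).continuousAt

/-! ### The field -/

section Field

variable {g : TensorField} {X : E3 → Cov}

theorem Y_smooth (hg : MetricOn {0}ᶜ g) (hX : TestField g X) (i : Fin 3) :
    ContDiff ℝ ∞ (fun y => volDen g y * X y i) := by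
  rw [contDiff_iff_contDiffAt]
  intro x
  by_cases hx : x ∈ tsupport X
  · have hx0 : x ≠ 0 := by
      rintro rfl
      exact hX.avoids hx
    exact (cd_vol hg hx0).mul (hX.smooth i).contDiffAt
  · have h1 : X =ᶠ[𝓝 x] 0 := by
      rwa [← notMem_tsupport_iff_eventuallyEq]
    have h2 : (fun y => volDen g y * X y i) =ᶠ[𝓝 x] fun _ => 0 := by
      filter_upwards [h1] with y hy
      rw [hy]
      simp
    exact contDiffAt_const.congr_of_eventuallyEq h2

theorem Y_supp (hX : TestField g X) (i : Fin 3) :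
    HasCompactSupport (fun y => volDen g y * X y i) := by
  refine hX.compact.mono ?_
  intro x hx
  rw [Function.mem_support] at hx ⊢
  intro h
  apply hx
  rw [h]
  simp

theorem D_cont (hg : MetricOn {0}ᶜ g) (hX : TestField g X) :
    Continuous (fun x => ∑ i, pd i (fun y => volDen g y * X y i) x) :=
  continuous_finsetSum _ fun i _ => cont_pd (Y_smooth hg hX i) i

theorem pdY_int (hg : MetricOn {0}ᶜ g) (hX : TestField g X) (i : Fin 3) :
    Integrable (pd i (fun y => volDen g y * X y i)) := by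
  refine (cont_pd (Y_smooth hg hX i) i).integrable_of_hasCompactSupport ?_
  have h := (Y_supp hX i).fderiv (𝕜 := ℝ)
  refine h.mono ?_
  intro x hx
  rw [Function.mem_support] at hx ⊢
  intro h0
  apply hx
  unfold pd
  rw [h0]
  simp

theorem D_int (hg : MetricOn {0}ᶜ g) (hX : TestField g X) :
    Integrable (fun x => ∑ i, pd i (fun y => volDen g y * X y i) x) :=
  integrable_finsetSum _ fun i _ => pdY_int hg hX i

end Field

/-! ### The sublevel sets -/

/-- The sublevel set. -/
def Us (W : E3 → ℝ) (ρ r s : ℝ) : Set E3 := {x | x ≠ 0 ∧ (‖x‖ < ρ ∨ (‖x‖ < r ∧ W x < s))}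

section Sub

variable {W : E3 → ℝ} {ρ r s₀ s₁ : ℝ}

theorem isOpen_Us (hW : Continuous W) (s : ℝ) : IsOpen (Us W ρ r s) := by
  have h1 : Us W ρ r s = {x | x ≠ 0} ∩ ({x | ‖x‖ < ρ} ∪ ({x | ‖x‖ < r} ∩ {x | W x < s})) := rfl
  rw [h1]
  exact isOpen_ne.inter ((isOpen_lt continuous_norm continuous_const).union
    ((isOpen_lt continuous_norm continuous_const).inter (isOpen_lt hW continuous_const)))

theorem Us_mono {s t : ℝ} (h : s ≤ t) : Us W ρ r s ⊆ Us W ρ r t := fun _ hx =>
  ⟨hx.1, hx.2.imp id fun h' => ⟨h'.1, h'.2.trans_le h⟩⟩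

theorem separates_Us (hW : ContDiff ℝ ∞ W) (hρ : 0 < ρ) (hρr : ρ < r)
    (h0 : ∀ x ∈ cAnn ρ r, ‖x‖ = ρ → W x < s₀) (h1 : ∀ x ∈ cAnn ρ r, ‖x‖ = r → s₁ < W x)
    {s : ℝ} (hs0 : s₀ ≤ s) (hs1 : s ≤ s₁)
    (hreg : ∀ x ∈ cAnn ρ r, W x = s → fderiv ℝ W x ≠ 0) : Separates (Us W ρ r s) where
  isOpen := isOpen_Us hW.continuous s
  zero_notMem := fun h => h.1 rfl
  contains := ⟨ρ, hρ, fun x hx hx' => ⟨norm_pos_iff.1 hx, Or.inl hx'⟩⟩
  bounded := ⟨r, fun x hx => hx.2.elim (fun h => h.trans hρr) fun h => h.1⟩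
  smooth := by
    intro x hx hx0
    have hcl : x ∈ closure (Us W ρ r s) := frontier_subset_closure hx
    have hnU : x ∉ Us W ρ r s := by
      intro h
      rw [frontier, (isOpen_Us hW.continuous s).interior_eq] at hx
      exact hx.2 h
    have hle : x ∈ {x : E3 | ‖x‖ ≤ ρ} ∪ ({x : E3 | ‖x‖ ≤ r} ∩ {x | W x ≤ s}) := by
      have hclosed : IsClosed ({x : E3 | ‖x‖ ≤ ρ} ∪ ({x : E3 | ‖x‖ ≤ r} ∩ {x | W x ≤ s})) :=
        (isClosed_le continuous_norm continuous_const).union
          ((isClosed_le continuous_norm continuous_const).inter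
            (isClosed_le hW.continuous continuous_const))
      refine closure_minimal ?_ hclosed hcl
      intro y hy
      rcases hy.2 with h | h
      · exact Or.inl h.le
      · exact Or.inr ⟨h.1.le, h.2.le⟩
    have hnρ : ¬ ‖x‖ < ρ := fun h => hnU ⟨hx0, Or.inl h⟩
    have hnρ' : ‖x‖ ≠ ρ := by
      intro h
      have h2 := h0 x ⟨h.ge, by rw [h]; exact hρr.le⟩ h
      exact hnU ⟨hx0, Or.inr ⟨by rw [h]; exact hρr, h2.trans_le hs0⟩⟩
    have hρx : ρ < ‖x‖ := lt_of_le_of_ne (not_lt.1 hnρ) (Ne.symm hnρ')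
    rcases hle with hle | hle
    · exact absurd hle (not_le.2 hρx)
    have hxr : ‖x‖ < r := by
      refine lt_of_le_of_ne hle.1 ?_
      intro h
      have h2 := h1 x ⟨hρx.le, h.le⟩ h
      exact absurd hle.2 (not_le.2 (hs1.trans_lt h2))
    have hWs : W x = s := by
      refine le_antisymm hle.2 ?_
      by_contra h
      exact hnU ⟨hx0, Or.inr ⟨hxr, not_le.1 h⟩⟩
    refine ⟨fun y => W y - s, (hW.sub contDiff_const).contDiffAt, ?_, ?_⟩
    · rw [fderiv_sub_const]
      exact hreg x ⟨hρx.le, hxr.le⟩ hWs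
    · have e1 : ∀ᶠ y : E3 in 𝓝 x, ρ < ‖y‖ :=
        (isOpen_lt continuous_const continuous_norm).mem_nhds hρx
      have e2 : ∀ᶠ y : E3 in 𝓝 x, ‖y‖ < r :=
        (isOpen_lt continuous_norm continuous_const).mem_nhds hxr
      filter_upwards [e1, e2] with y hy1 hy2
      constructor
      · intro hy
        rcases hy.2 with h | h
        · exact absurd h (not_lt.2 hy1.le)
        · linarith [h.2]
      · intro hy
        refine ⟨norm_pos_iff.1 (hρ.trans hy1), Or.inr ⟨hy2, ?_⟩⟩
        linarith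

end Sub

/-! ### The cut-off -/

/-- The primitive `∫_t^b φ`. -/
noncomputable def prim (φ : ℝ → ℝ) (b t : ℝ) : ℝ := ∫ u in t..b, φ u

section Cut

variable {φ : ℝ → ℝ} {a b : ℝ}

theorem prim_deriv (hφ : Continuous φ) (t : ℝ) : HasDerivAt (prim φ b) (-φ t) t := by
  have h1 : prim φ b = fun t => -∫ u in b..t, φ u := by
    funext t
    exact intervalIntegral.integral_symm _ _
  rw [h1]
  exact (hφ.integral_hasStrictDerivAt b t).hasDerivAt.neg

theorem prim_ge (hz : ∀ t, b ≤ t → φ t = 0) {t : ℝ} (ht : b ≤ t) : prim φ b t = 0 := by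
  unfold prim
  rw [intervalIntegral.integral_symm, neg_eq_zero]
  refine intervalIntegral.integral_zero_ae ?_
  refine Eventually.of_forall fun x hx => ?_
  rw [Set.uIoc_of_le ht] at hx
  exact hz x hx.1.le

theorem prim_le (hφ : Continuous φ) (hz : ∀ t, t ≤ a → φ t = 0) {t : ℝ} (ht : t ≤ a) :
    prim φ b t = prim φ b a := by
  unfold prim
  rw [← intervalIntegral.integral_add_adjacent_intervals (hφ.intervalIntegrable t a)
    (hφ.intervalIntegrable a b)]
  have h1 : ∫ u in t..a, φ u = 0 := by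
    refine intervalIntegral.integral_zero_ae ?_
    refine Eventually.of_forall fun x hx => ?_
    rw [Set.uIoc_of_le ht] at hx
    exact hz x hx.2
  rw [h1, zero_add]

theorem prim_nonneg (hφ0 : ∀ t, 0 ≤ φ t) (hz : ∀ t, b ≤ t → φ t = 0) (t : ℝ) :
    0 ≤ prim φ b t := by
  rcases le_total t b with h | h
  · exact intervalIntegral.integral_nonneg h fun u _ => hφ0 u
  · rw [prim_ge hz h]

theorem prim_anti (hφ : Continuous φ) (hφ0 : ∀ t, 0 ≤ φ t) : Antitone (prim φ b) := by
  refine antitone_of_deriv_nonpos (fun t => (prim_deriv hφ t).differentiableAt) fun t => ?_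
  rw [(prim_deriv hφ t).deriv]
  linarith [hφ0 t]

/-- The cut-off function on `E3`. -/
noncomputable def zt (W : E3 → ℝ) (φ : ℝ → ℝ) (ρ r a b : ℝ) (x : E3) : ℝ :=
  if ‖x‖ < ρ then prim φ b a else if ‖x‖ < r then prim φ b (W x) else 0

variable {W : E3 → ℝ} {ρ r : ℝ}

open Classical in
theorem zt_deriv (hW : ContDiff ℝ ∞ W) (hφ : Continuous φ) (hza : ∀ t, t ≤ a → φ t = 0)
    (hzb : ∀ t, b ≤ t → φ t = 0) (hρr : ρ < r)
    (h0 : ∀ x : E3, ‖x‖ = ρ → W x < a) (h1 : ∀ x : E3, ‖x‖ = r → b < W x) (x : E3) :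
    HasFDerivAt (zt W φ ρ r a b)
      (if x ∈ cAnn ρ r then (-φ (W x)) • fderiv ℝ W x else 0) x := by
  have hWd : HasFDerivAt W (fderiv ℝ W x) x :=
    (hW.differentiable (by simp)).differentiableAt.hasFDerivAt
  have hcomp : HasFDerivAt (fun y => prim φ b (W y)) ((-φ (W x)) • fderiv ℝ W x) x :=
    (prim_deriv hφ (W x)).comp_hasFDerivAt x hWd
  rcases lt_trichotomy ‖x‖ ρ with hx | hx | hx
  · -- inside
    rw [if_neg (fun h : x ∈ cAnn ρ r => absurd h.1 (not_le.2 hx))]
    refine (hasFDerivAt_const (prim φ b a) x).congr_of_eventuallyEq ?_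
    filter_upwards [(isOpen_lt continuous_norm continuous_const).mem_nhds hx] with y hy
    have hy' : ‖y‖ < ρ := hy
    unfold zt
    rw [if_pos hy']
  · -- the inner sphere
    have hWa := h0 x hx
    rw [if_pos (show x ∈ cAnn ρ r from ⟨hx.ge, by rw [hx]; exact hρr.le⟩), hza _ hWa.le]
    have e : (-(0:ℝ)) • fderiv ℝ W x = 0 := by simp
    rw [e]
    refine (hasFDerivAt_const (prim φ b a) x).congr_of_eventuallyEq ?_
    have hxr : ‖x‖ < r := by rw [hx]; exact hρr
    filter_upwards [(isOpen_lt hW.continuous continuous_const).mem_nhds hWa,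
      (isOpen_lt continuous_norm continuous_const).mem_nhds hxr] with y hy1 hy2
    have hy1' : W y < a := hy1
    have hy2' : ‖y‖ < r := hy2
    unfold zt
    split_ifs
    · rfl
    · exact prim_le hφ hza hy1'.le
  rcases lt_trichotomy ‖x‖ r with hxr | hxr | hxr
  · -- the annulus
    rw [if_pos (show x ∈ cAnn ρ r from ⟨hx.le, hxr.le⟩)]
    refine hcomp.congr_of_eventuallyEq ?_
    filter_upwards [(isOpen_lt continuous_const continuous_norm).mem_nhds hx,
      (isOpen_lt continuous_norm continuous_const).mem_nhds hxr] with y hy1 hy2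
    have hy1' : ρ < ‖y‖ := hy1
    have hy2' : ‖y‖ < r := hy2
    unfold zt
    rw [if_neg (not_lt.2 hy1'.le), if_pos hy2']
  · -- the outer sphere
    have hWb := h1 x hxr
    rw [if_pos (show x ∈ cAnn ρ r from ⟨hx.le, hxr.le⟩), hzb _ hWb.le]
    have e : (-(0:ℝ)) • fderiv ℝ W x = 0 := by simp
    rw [e]
    refine (hasFDerivAt_const (0:ℝ) x).congr_of_eventuallyEq ?_
    filter_upwards [(isOpen_lt continuous_const hW.continuous).mem_nhds hWb,
      (isOpen_lt continuous_const continuous_norm).mem_nhds hx] with y hy1 hy2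
    have hy1' : b < W y := hy1
    have hy2' : ρ < ‖y‖ := hy2
    unfold zt
    rw [if_neg (not_lt.2 hy2'.le)]
    split_ifs
    · exact prim_ge hzb hy1'.le
    · rfl
  · -- outside
    rw [if_neg (fun h : x ∈ cAnn ρ r => absurd h.2 (not_le.2 hxr))]
    refine (hasFDerivAt_const (0:ℝ) x).congr_of_eventuallyEq ?_
    filter_upwards [(isOpen_lt continuous_const continuous_norm).mem_nhds hxr] with y hy
    have hy' : r < ‖y‖ := hy
    unfold zt
    rw [if_neg (not_lt.2 (hρr.le.trans hy'.le)), if_neg (not_lt.2 hy'.le)]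

end Cut

/-- The integrand of the area. -/
noncomputable def ar (g : TensorField) (W : E3 → ℝ) (x : E3) : ℝ :=
  len g x (grad W x) * volDen g x

theorem ar_nonneg (g : TensorField) (W : E3 → ℝ) (x : E3) : 0 ≤ ar g W x :=
  mul_nonneg (Real.sqrt_nonneg _) (Real.sqrt_nonneg _)

theorem isCompact_cAnn (a b : ℝ) : IsCompact (cAnn a b) := by
  have h1 : cAnn a b = Metric.closedBall (0 : E3) b ∩ {x : E3 | a ≤ ‖x‖} := by
    ext x
    simp only [cAnn, Set.mem_ofPred_eq, Set.mem_inter_iff, mem_closedBall_zero_iff]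
    tauto
  rw [h1]
  exact (isCompact_closedBall _ _).inter_right (isClosed_le continuous_const continuous_norm)

theorem ar_int {g : TensorField} (hg : MetricOn {0}ᶜ g) {W : E3 → ℝ} (hW : ContDiff ℝ ∞ W)
    {ρ r : ℝ} (hρ : 0 < ρ) : IntegrableOn (ar g W) (cAnn ρ r) := by
  refine ContinuousOn.integrableOn_compact (isCompact_cAnn ρ r) (fun x hx => ?_)
  exact (cont_len hg hW (norm_pos_iff.1 (hρ.trans_le hx.1))).continuousWithinAt

/-- The main estimate: the flux of the test field. -/
theorem flux_le {g : TensorField} (hg : MetricOn {0}ᶜ g) {W : E3 → ℝ} (hW : ContDiff ℝ ∞ W)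
    {X : E3 → Cov} (hX : TestField g X) {φ : ℝ → ℝ} {ρ r a b : ℝ} (hρ : 0 < ρ) (hρr : ρ < r)
    (hφ : Continuous φ) (hφ0 : ∀ t, 0 ≤ φ t) (hφ1 : ∀ t, φ t ≤ 1)
    (hza : ∀ t, t ≤ a → φ t = 0) (hzb : ∀ t, b ≤ t → φ t = 0)
    (h0 : ∀ x : E3, ‖x‖ = ρ → W x < a) (h1 : ∀ x : E3, ‖x‖ = r → b < W x) :
    ∫ x, zt W φ ρ r a b x * ∑ i, pd i (fun y => volDen g y * X y i) x
      ≤ ∫ x in cAnn ρ r ∩ {x | a ≤ W x ∧ W x < b}, ar g W x := by
  classical
  have hA := isCompact_cAnn ρ r
  have hAm : MeasurableSet (cAnn ρ r) := hA.measurableSet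
  have hzd := fun x => zt_deriv hW hφ hza hzb hρr h0 h1 x
  have hzdiff : ∀ x, DifferentiableAt ℝ (zt W φ ρ r a b) x := fun x => (hzd x).differentiableAt
  have hzc : Continuous (zt W φ ρ r a b) := by
    rw [continuous_iff_continuousAt]
    exact fun x => (hzdiff x).continuousAt
  have hpd : ∀ i x, fderiv ℝ (zt W φ ρ r a b) x (EuclideanSpace.single i 1)
      = (cAnn ρ r).indicator (fun x => -(φ (W x) * pd i W x)) x := by
    intro i x
    rw [(hzd x).fderiv]
    by_cases hx : x ∈ cAnn ρ r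
    · rw [if_pos hx, Set.indicator_of_mem hx]
      simp [pd]
    · rw [if_neg hx, Set.indicator_of_notMem hx]
      simp
  have hYc : ∀ i, Continuous (fun y => volDen g y * X y i) := fun i => (Y_smooth hg hX i).continuous
  -- integration by parts
  have hibp : ∀ i, ∫ x, zt W φ ρ r a b x * pd i (fun y => volDen g y * X y i) x
      = ∫ x in cAnn ρ r, φ (W x) * pd i W x * (volDen g x * X x i) := by
    intro i
    have i1 : Integrable (fun x => fderiv ℝ (zt W φ ρ r a b) x (EuclideanSpace.single i 1)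
        * (volDen g x * X x i)) := by
      have h2 : (fun x => fderiv ℝ (zt W φ ρ r a b) x (EuclideanSpace.single i 1)
          * (volDen g x * X x i)) = (cAnn ρ r).indicator
            (fun x => -(φ (W x) * pd i W x) * (volDen g x * X x i)) := by
        funext x
        rw [hpd i x]
        by_cases hx : x ∈ cAnn ρ r
        · rw [Set.indicator_of_mem hx, Set.indicator_of_mem hx]
        · rw [Set.indicator_of_notMem hx, Set.indicator_of_notMem hx, zero_mul]
      rw [h2]
      refine Integrable.indicator ?_ hAm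
      refine Continuous.integrable_of_hasCompactSupport ?_ (Y_supp hX i).mul_left
      exact (((hφ.comp hW.continuous).mul (cont_pd hW i)).neg).mul (hYc i)
    have i2 : Integrable (fun x => zt W φ ρ r a b x
        * fderiv ℝ (fun y => volDen g y * X y i) x (EuclideanSpace.single i 1)) := by
      refine Continuous.integrable_of_hasCompactSupport ?_ ?_
      · exact hzc.mul (cont_pd (Y_smooth hg hX i) i)
      · refine HasCompactSupport.mul_left ?_
        have h := (Y_supp hX i).fderiv (𝕜 := ℝ)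
        refine h.mono ?_
        intro x hx
        rw [Function.mem_support] at hx ⊢
        intro h0
        apply hx
        rw [h0]
        simp
    have i3 : Integrable (fun x => zt W φ ρ r a b x * (volDen g x * X x i)) :=
      Continuous.integrable_of_hasCompactSupport (hzc.mul (hYc i)) (Y_supp hX i).mul_left
    have h3 := integral_mul_fderiv_eq_neg_fderiv_mul_of_integrable i1 i2 i3
      (fun x _ => hzdiff x)
      (fun x _ => ((Y_smooth hg hX i).differentiable (by simp)).differentiableAt)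
    have h4 : ∫ x, zt W φ ρ r a b x * pd i (fun y => volDen g y * X y i) x
        = -∫ x, fderiv ℝ (zt W φ ρ r a b) x (EuclideanSpace.single i 1)
        * (volDen g x * X x i) := h3
    rw [h4, ← integral_neg, ← integral_indicator hAm]
    refine integral_congr_ae (Eventually.of_forall fun x => ?_)
    simp only
    rw [hpd i x]
    by_cases hx : x ∈ cAnn ρ r
    · rw [Set.indicator_of_mem hx, Set.indicator_of_mem hx]
      ring
    · rw [Set.indicator_of_notMem hx, Set.indicator_of_notMem hx]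
      ring
  have hint : ∀ i, Integrable (fun x => zt W φ ρ r a b x
      * pd i (fun y => volDen g y * X y i) x) := by
    intro i
    refine Continuous.integrable_of_hasCompactSupport (hzc.mul (cont_pd (Y_smooth hg hX i) i)) ?_
    refine HasCompactSupport.mul_left ?_
    have h := (Y_supp hX i).fderiv (𝕜 := ℝ)
    refine h.mono ?_
    intro x hx
    rw [Function.mem_support] at hx ⊢
    intro h0
    apply hx
    unfold pd
    rw [h0]
    simp
  have hint2 : ∀ i, IntegrableOn (fun x => φ (W x) * pd i W x * (volDen g x * X x i))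
      (cAnn ρ r) := by
    intro i
    exact (((hφ.comp hW.continuous).mul (cont_pd hW i)).mul (hYc i)).continuousOn.integrableOn_compact
      hA
  have hsum : ∫ x, zt W φ ρ r a b x * ∑ i, pd i (fun y => volDen g y * X y i) x
      = ∫ x in cAnn ρ r, ∑ i, φ (W x) * pd i W x * (volDen g x * X x i) := by
    rw [integral_finsetSum _ (fun i _ => hint2 i)]
    rw [← Finset.sum_congr rfl (fun i _ => hibp i), ← integral_finsetSum _ (fun i _ => hint i)]
    refine integral_congr_ae (Eventually.of_forall fun x => ?_)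
    simp only
    rw [Finset.mul_sum]
  rw [hsum]
  have hBm : MeasurableSet {x | a ≤ W x ∧ W x < b} :=
    (measurableSet_le measurable_const hW.continuous.measurable).inter
      (measurableSet_lt hW.continuous.measurable measurable_const)
  have e2 : ∫ x in cAnn ρ r ∩ {x | a ≤ W x ∧ W x < b}, ar g W x
      = ∫ x in cAnn ρ r, {x | a ≤ W x ∧ W x < b}.indicator (ar g W) x := by
    rw [setIntegral_indicator hBm]
  rw [e2]
  refine setIntegral_mono_on (integrable_finsetSum _ fun i _ => hint2 i)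
    ((ar_int hg hW hρ).indicator hBm) hAm fun x hx => ?_
  have hx0 : x ≠ 0 := norm_pos_iff.1 (hρ.trans_le hx.1)
  have e3 : ∑ i, φ (W x) * pd i W x * (volDen g x * X x i)
      = φ (W x) * volDen g x * ∑ i, grad W x i * X x i := by
    rw [Finset.mul_sum]
    refine Finset.sum_congr rfl fun i _ => ?_
    unfold grad
    ring
  rw [e3]
  have hv : 0 ≤ volDen g x := Real.sqrt_nonneg _
  by_cases hab : a ≤ W x ∧ W x < b
  · rw [Set.indicator_of_mem (show x ∈ {x | a ≤ W x ∧ W x < b} from hab)]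
    have h5 : ∑ i, grad W x i * X x i ≤ len g x (grad W x) :=
      (le_abs_self _).trans (abs_le_len (hg.posDef x hx0) _ _ (hX.short x hx0))
    have h6 : 0 ≤ len g x (grad W x) := Real.sqrt_nonneg _
    calc φ (W x) * volDen g x * ∑ i, grad W x i * X x i
        ≤ φ (W x) * volDen g x * len g x (grad W x) :=
          mul_le_mul_of_nonneg_left h5 (mul_nonneg (hφ0 _) hv)
      _ ≤ 1 * volDen g x * len g x (grad W x) := by
          refine mul_le_mul_of_nonneg_right (mul_le_mul_of_nonneg_right (hφ1 _) hv) h6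
      _ = ar g W x := by unfold ar; ring
  · rw [Set.indicator_of_notMem (show x ∉ {x | a ≤ W x ∧ W x < b} from hab)]
    have h7 : φ (W x) = 0 := by
      rcases lt_or_ge (W x) a with h | h
      · exact hza _ h.le
      · exact hzb _ (not_lt.1 fun h' => hab ⟨h, h'⟩)
    rw [h7]
    simp

/-- The area of the part `a ≤ W < b`. -/
noncomputable def jj (g : TensorField) (W : E3 → ℝ) (ρ r a b : ℝ) : ℝ :=
  ∫ x in cAnn ρ r ∩ {x | a ≤ W x ∧ W x < b}, ar g W x

/-- The trapezoid function. -/
noncomputable def trap (a b κ t : ℝ) : ℝ := max 0 (min 1 (min ((t - a) / κ) ((b - t) / κ)))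

theorem trap_cont (a b κ : ℝ) : Continuous (trap a b κ) := by
  unfold trap
  fun_prop

theorem trap_prim {a b κ : ℝ} (hκ : 0 < κ) (hab : 2 * κ ≤ b - a) :
    b - a - 2 * κ ≤ prim (trap a b κ) b a := by
  have hc := trap_cont a b κ
  have h0 : ∀ t, 0 ≤ trap a b κ t := fun t => le_max_left _ _
  unfold prim
  rw [← intervalIntegral.integral_add_adjacent_intervals (hc.intervalIntegrable a (a + κ))
    (hc.intervalIntegrable (a + κ) b), ← intervalIntegral.integral_add_adjacent_intervals
    (hc.intervalIntegrable (a + κ) (b - κ)) (hc.intervalIntegrable (b - κ) b)]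
  have e1 : 0 ≤ ∫ u in a..(a + κ), trap a b κ u :=
    intervalIntegral.integral_nonneg (by linarith) fun u _ => h0 u
  have e2 : 0 ≤ ∫ u in (b - κ)..b, trap a b κ u :=
    intervalIntegral.integral_nonneg (by linarith) fun u _ => h0 u
  have e3 : b - a - 2 * κ ≤ ∫ u in (a + κ)..(b - κ), trap a b κ u := by
    have h1 : ∫ _u in (a + κ)..(b - κ), (1 : ℝ) = b - a - 2 * κ := by
      rw [intervalIntegral.integral_const]
      simp
      ring
    rw [← h1]
    refine intervalIntegral.integral_mono_on (by linarith) intervalIntegrable_const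
      (hc.intervalIntegrable _ _) fun u hu => ?_
    unfold trap
    refine le_max_of_le_right (le_min le_rfl (le_min ?_ ?_))
    · rw [le_div_iff₀ hκ]
      linarith [hu.1]
    · rw [le_div_iff₀ hκ]
      linarith [hu.2]
  linarith

theorem jj_nonneg (g : TensorField) (W : E3 → ℝ) (ρ r a b : ℝ) : 0 ≤ jj g W ρ r a b :=
  integral_nonneg fun x => ar_nonneg g W x

/-- The local estimate. -/
theorem local_left {g : TensorField} (hg : MetricOn {0}ᶜ g) {W : E3 → ℝ} (hW : ContDiff ℝ ∞ W)
    {X : E3 → Cov} (hX : TestField g X) {ρ r s₀ s₁ s A' : ℝ} (hρ : 0 < ρ) (hρr : ρ < r)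
    (h0 : ∀ x : E3, ‖x‖ = ρ → W x < s₀) (h1 : ∀ x : E3, ‖x‖ = r → s₁ < W x) (hs0 : s₀ < s)
    (hs1 : s ≤ s₁) (hA0 : 0 ≤ A')
    (hA : A' < ∫ x in Us W ρ r s, ∑ i, pd i (fun y => volDen g y * X y i) x) :
    ∃ t, s₀ ≤ t ∧ t < s ∧ ∀ a, t ≤ a → a < s → A' * (s - a) ≤ jj g W ρ r a s := by
  have hDc := D_cont hg hX
  have hDi := D_int hg hX
  set D : E3 → ℝ := fun x => ∑ i, pd i (fun y => volDen g y * X y i) x with hD
  have hUm : ∀ t, MeasurableSet (Us W ρ r t) := fun t => (isOpen_Us hW.continuous t).measurableSet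
  -- the sets shrink to the empty set
  set T : ℕ → Set E3 := fun n => Us W ρ r s \ Us W ρ r (s - 1 / ((n : ℝ) + 1)) with hT
  have hTm : ∀ n, MeasurableSet (T n) := fun n => (hUm _).diff (hUm _)
  have hTa : Antitone T := by
    intro m n hmn
    refine Set.sdiff_subset_sdiff_right (Us_mono ?_)
    have h2 : 1 / ((n : ℝ) + 1) ≤ 1 / ((m : ℝ) + 1) :=
      one_div_le_one_div_of_le (by positivity) (by exact_mod_cast Nat.succ_le_succ hmn)
    linarith
  have hTi : ⋂ n, T n = ∅ := by
    rw [Set.eq_empty_iff_forall_notMem]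
    intro x hx
    rw [Set.mem_iInter] at hx
    have hx0 := hx 0
    rcases hx0.1.2 with h | h
    · exact hx0.2 ⟨hx0.1.1, Or.inl h⟩
    · obtain ⟨n, hn⟩ := exists_nat_one_div_lt (sub_pos.2 h.2)
      refine (hx n).2 ⟨hx0.1.1, Or.inr ⟨h.1, ?_⟩⟩
      linarith
  have hlim := tendsto_setIntegral_of_antitone (μ := volume) hTm hTa
    ⟨0, (hDi.norm.integrableOn (s := T 0))⟩
  rw [hTi, Measure.restrict_empty, integral_zero_measure] at hlim
  have hgap : 0 < (∫ x in Us W ρ r s, D x) - A' := sub_pos.2 hA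
  obtain ⟨n, hn⟩ := (hlim.eventually (gt_mem_nhds hgap)).exists
  have hnp : (0 : ℝ) < 1 / ((n : ℝ) + 1) := by positivity
  refine ⟨max s₀ (s - 1 / ((n : ℝ) + 1)), le_max_left _ _, max_lt hs0 (by linarith), ?_⟩
  intro a ha has
  have ha0 : s₀ ≤ a := (le_max_left _ _).trans ha
  have han : s - 1 / ((n : ℝ) + 1) ≤ a := (le_max_right _ _).trans ha
  refine le_of_forall_pos_le_add fun ε hε => ?_
  set κ : ℝ := min ((s - a) / 4) (ε / (2 * (A' + 1))) with hκ
  have hκ0 : 0 < κ := lt_min (by linarith) (by positivity)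
  have hκ1 : κ ≤ (s - a) / 4 := min_le_left _ _
  have hκ2 : κ ≤ ε / (2 * (A' + 1)) := min_le_right _ _
  have hφ0 : ∀ t, 0 ≤ trap a s κ t := fun t => le_max_left _ _
  have hφ1 : ∀ t, trap a s κ t ≤ 1 := fun t => max_le zero_le_one (min_le_left _ _)
  have hza : ∀ t, t ≤ a → trap a s κ t = 0 := by
    intro t ht
    unfold trap
    refine max_eq_left ((min_le_right _ _).trans ((min_le_left _ _).trans ?_))
    exact div_nonpos_of_nonpos_of_nonneg (by linarith) hκ0.le
  have hzb : ∀ t, s ≤ t → trap a s κ t = 0 := by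
    intro t ht
    unfold trap
    refine max_eq_left ((min_le_right _ _).trans ((min_le_right _ _).trans ?_))
    exact div_nonpos_of_nonpos_of_nonneg (by linarith) hκ0.le
  have hc := trap_cont a s κ
  have hfl := flux_le hg hW hX hρ hρr hc hφ0 hφ1 hza hzb
    (fun x hx => (h0 x hx).trans_le ha0) (fun x hx => hs1.trans_lt (h1 x hx))
  set I : ℝ := prim (trap a s κ) s a with hI
  have hI0 : 0 ≤ I := prim_nonneg hφ0 hzb a
  have hI1 : s - a - 2 * κ ≤ I := trap_prim hκ0 (by linarith)
  -- lower bound of the integral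
  have hlow : I * A' ≤ ∫ x, zt W (trap a s κ) ρ r a s x * D x := by
    have b1 : I * A' ≤ I * ((∫ x in Us W ρ r s, D x) - ∫ x in T n, ‖D x‖) := by
      refine mul_le_mul_of_nonneg_left ?_ hI0
      linarith
    have b2 : I * ((∫ x in Us W ρ r s, D x) - ∫ x in T n, ‖D x‖)
        = ∫ x, (I * (Us W ρ r s).indicator D x - I * (T n).indicator (fun x => ‖D x‖) x) := by
      rw [integral_sub ((hDi.indicator (hUm s)).const_mul I)
        ((hDi.norm.indicator (hTm n)).const_mul I), integral_const_mul, integral_const_mul,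
        integral_indicator (hUm s), integral_indicator (hTm n)]
      ring
    rw [b2] at b1
    refine b1.trans ?_
    have hzd := fun x => zt_deriv hW hc hza hzb hρr
      (fun x hx => (h0 x hx).trans_le ha0) (fun x hx => hs1.trans_lt (h1 x hx)) x
    have hzc : Continuous (zt W (trap a s κ) ρ r a s) := by
      classical
      rw [continuous_iff_continuousAt]
      exact fun x => (hzd x).differentiableAt.continuousAt
    have hDcs : HasCompactSupport D := by
      have h2 : ∀ i, HasCompactSupport (fun x => pd i (fun y => volDen g y * X y i) x) := by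
        intro i
        have h := (Y_supp hX i).fderiv (𝕜 := ℝ)
        refine h.mono ?_
        intro x hx
        rw [Function.mem_support] at hx ⊢
        intro h0
        apply hx
        unfold pd
        rw [h0]
        simp
      have h3 : D = fun x => pd 0 (fun y => volDen g y * X y 0) x
          + pd 1 (fun y => volDen g y * X y 1) x + pd 2 (fun y => volDen g y * X y 2) x := by
        funext x
        rw [hD]
        simp only [Fin.sum_univ_three]
      rw [h3]
      exact ((h2 0).add (h2 1)).add (h2 2)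
    refine integral_mono_ae (((hDi.indicator (hUm s)).const_mul I).sub
      ((hDi.norm.indicator (hTm n)).const_mul I))
      ((hzc.mul hDc).integrable_of_hasCompactSupport hDcs.mul_left) ?_
    have hne : ∀ᵐ x : E3 ∂volume, x ≠ 0 := by
      rw [ae_iff]
      simp
    filter_upwards [hne] with x hx
    have hzz : 0 ≤ zt W (trap a s κ) ρ r a s x ∧ zt W (trap a s κ) ρ r a s x ≤ I := by
      unfold zt
      split_ifs with c1 c2
      · exact ⟨hI0, le_rfl⟩
      · refine ⟨prim_nonneg hφ0 hzb _, ?_⟩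
        rcases le_total (W x) a with h | h
        · rw [prim_le hc hza h]
        · exact prim_anti hc hφ0 h
      · exact ⟨le_rfl, hI0⟩
    by_cases hxs : x ∈ Us W ρ r s
    · rw [Set.indicator_of_mem hxs]
      by_cases hxa : x ∈ Us W ρ r a
      · have e : zt W (trap a s κ) ρ r a s x = I := by
          unfold zt
          rcases hxa.2 with h | h
          · rw [if_pos h]
          · split_ifs with c1 c2
            · rfl
            · exact prim_le hc hza h.2.le
            · exact absurd h.1 c2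
        rw [e]
        have h2 : 0 ≤ I * (T n).indicator (fun x => ‖D x‖) x :=
          mul_nonneg hI0 (Set.indicator_nonneg (fun _ _ => norm_nonneg _) _)
        linarith
      · have hxT : x ∈ T n := ⟨hxs, fun h => hxa (Us_mono han h)⟩
        rw [Set.indicator_of_mem hxT]
        have h2 : -|D x| ≤ D x := neg_abs_le _
        have h3 : D x ≤ |D x| := le_abs_self _
        have h4 : I * D x - I * ‖D x‖ ≤ zt W (trap a s κ) ρ r a s x * D x := by
          rw [Real.norm_eq_abs]
          rcases le_total 0 (D x) with h | h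
          · rw [abs_of_nonneg h]
            have := mul_nonneg hzz.1 h
            linarith
          · rw [abs_of_nonpos h]
            nlinarith [mul_le_mul_of_nonpos_right hzz.2 h, mul_nonneg hI0 (neg_nonneg.2 h)]
        exact h4
    · rw [Set.indicator_of_notMem hxs]
      have hxT : x ∉ T n := fun h => hxs h.1
      rw [Set.indicator_of_notMem hxT]
      have e : zt W (trap a s κ) ρ r a s x = 0 := by
        unfold zt
        split_ifs with c1 c2
        · exact absurd ⟨hx, Or.inl c1⟩ hxs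
        · refine prim_ge hzb ?_
          by_contra h
          exact hxs ⟨hx, Or.inr ⟨c2, not_le.1 h⟩⟩
        · rfl
      rw [e]
      simp
  have hJ : I * A' ≤ jj g W ρ r a s := hlow.trans hfl
  have hA1 : (s - a - 2 * κ) * A' ≤ I * A' := mul_le_mul_of_nonneg_right hI1 hA0
  have hA2 : 2 * κ * A' ≤ ε := by
    have h2 : 2 * κ * A' ≤ 2 * (ε / (2 * (A' + 1))) * A' := by
      refine mul_le_mul_of_nonneg_right ?_ hA0
      linarith
    have h3 : 2 * (ε / (2 * (A' + 1))) * A' = ε * (A' / (A' + 1)) := by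
      field_simp
    have h4 : A' / (A' + 1) ≤ 1 := by
      rw [div_le_one (by linarith)]
      linarith
    have h5 : ε * (A' / (A' + 1)) ≤ ε * 1 := mul_le_mul_of_nonneg_left h4 hε.le
    linarith
  nlinarith

theorem jj_add {g : TensorField} (hg : MetricOn {0}ᶜ g) {W : E3 → ℝ} (hW : ContDiff ℝ ∞ W)
    {ρ r a b c : ℝ} (hρ : 0 < ρ) (hab : a ≤ b) (hbc : b ≤ c) :
    jj g W ρ r a c = jj g W ρ r a b + jj g W ρ r b c := by
  have hAm : MeasurableSet (cAnn ρ r) := (isCompact_cAnn ρ r).measurableSet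
  have hBm : ∀ a b : ℝ, MeasurableSet {x | a ≤ W x ∧ W x < b} := fun a b =>
    (measurableSet_le measurable_const hW.continuous.measurable).inter
      (measurableSet_lt hW.continuous.measurable measurable_const)
  unfold jj
  have h1 : cAnn ρ r ∩ {x | a ≤ W x ∧ W x < c}
      = (cAnn ρ r ∩ {x | a ≤ W x ∧ W x < b}) ∪ (cAnn ρ r ∩ {x | b ≤ W x ∧ W x < c}) := by
    ext x
    constructor
    · rintro ⟨h2, h3, h4⟩
      rcases lt_or_ge (W x) b with h | h
      · exact Or.inl ⟨h2, h3, h⟩
      · exact Or.inr ⟨h2, h, h4⟩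
    · rintro (⟨h2, h3, h4⟩ | ⟨h2, h3, h4⟩)
      · exact ⟨h2, h3, h4.trans_le hbc⟩
      · exact ⟨h2, hab.trans h3, h4⟩
  rw [h1]
  refine setIntegral_union ?_ (hAm.inter (hBm b c)) ((ar_int hg hW hρ).mono_set
    Set.inter_subset_left) ((ar_int hg hW hρ).mono_set Set.inter_subset_left)
  rw [Set.disjoint_left]
  intro x hx hx'
  exact absurd hx'.2.1 (not_le.2 hx.2.2)

/-- The chain argument. -/
theorem chain {J : ℝ → ℝ → ℝ} {s₀ s₁ A' : ℝ} (hs : s₀ ≤ s₁) (hA0 : 0 ≤ A')
    (hJ0 : ∀ a b, 0 ≤ J a b) (hJ : ∀ a b c, a ≤ b → b ≤ c → J a c = J a b + J b c)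
    {C : Set ℝ} (hC : C.Finite)
    (hloc : ∀ s, s₀ < s → s ≤ s₁ → s ∉ C → ∃ t, s₀ ≤ t ∧ t < s ∧ A' * (s - t) ≤ J t s) :
    A' * (s₁ - s₀) ≤ J s₀ s₁ := by
  classical
  set F : Finset ℝ := hC.toFinset with hF
  set N : ℝ → ℝ := fun t => ((F.filter fun c => t < c).card : ℝ) with hN
  have hNanti : ∀ t t', t ≤ t' → N t' ≤ N t := by
    intro t t' htt
    rw [hN]
    simp only
    exact_mod_cast Finset.card_le_card
      (Finset.monotone_filter_right F fun c _ hc => htt.trans_lt hc)
  have hNstep : ∀ t T, t < T → T ∈ C → N T + 1 ≤ N t := by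
    intro t T htT hTC
    rw [hN]
    simp only
    have h1 : (F.filter fun c => T < c) ⊂ (F.filter fun c => t < c) := by
      rw [Finset.ssubset_iff_of_subset
        (Finset.monotone_filter_right F fun c _ hc => htT.trans hc)]
      refine ⟨T, Finset.mem_filter.2 ⟨hC.mem_toFinset.2 hTC, htT⟩, ?_⟩
      rw [Finset.mem_filter]
      exact fun h => lt_irrefl _ h.2
    have h2 := Finset.card_lt_card h1
    exact_mod_cast h2
  have hN0 : ∀ t, 0 ≤ N t := fun t => Nat.cast_nonneg _
  have key : ∀ ε : ℝ, 0 < ε → A' * (s₁ - s₀) ≤ J s₀ s₁ + ε * N s₀ := by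
    intro ε hε
    set S : Set ℝ := {t | s₀ ≤ t ∧ t ≤ s₁ ∧ A' * (s₁ - t) ≤ J t s₁ + ε * N t} with hS
    have hS1 : s₁ ∈ S := by
      refine ⟨hs, le_rfl, ?_⟩
      have := hJ0 s₁ s₁
      have := mul_nonneg hε.le (hN0 s₁)
      simp only [sub_self, mul_zero]
      linarith
    have hbdd : BddBelow S := ⟨s₀, fun t ht => ht.1⟩
    set T : ℝ := sInf S with hT
    have hT0 : s₀ ≤ T := le_csInf ⟨s₁, hS1⟩ fun t ht => ht.1
    have hT1 : T ≤ s₁ := csInf_le hbdd hS1
    have hTS : A' * (s₁ - T) ≤ J T s₁ + ε * N T := by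
      refine le_of_forall_pos_le_add fun δ hδ => ?_
      obtain ⟨t, ht, htT⟩ := exists_lt_of_csInf_lt ⟨s₁, hS1⟩
        (show sInf S < T + δ / (A' + 1) by
          have : 0 < δ / (A' + 1) := by positivity
          linarith)
      have hTt : T ≤ t := csInf_le hbdd ht
      have h1 := ht.2.2
      have h2 := hJ T t s₁ hTt ht.2.1
      have h3 := hJ0 T t
      have h4 : ε * N t ≤ ε * N T := mul_le_mul_of_nonneg_left (hNanti T t hTt) hε.le
      have h5 : A' * (t - T) ≤ δ := by
        have h6 : A' * (t - T) ≤ A' * (δ / (A' + 1)) :=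
          mul_le_mul_of_nonneg_left (by linarith) hA0
        have h7 : A' * (δ / (A' + 1)) = δ * (A' / (A' + 1)) := by ring
        have h8 : A' / (A' + 1) ≤ 1 := by
          rw [div_le_one (by linarith)]
          linarith
        have h9 : δ * (A' / (A' + 1)) ≤ δ * 1 := mul_le_mul_of_nonneg_left h8 hδ.le
        linarith
      nlinarith
    rcases eq_or_lt_of_le hT0 with h | h
    · rw [h]
      exact hTS
    · exfalso
      by_cases hTC : T ∈ C
      · set t : ℝ := max s₀ (T - ε / (A' + 1)) with ht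
        have hp : 0 < ε / (A' + 1) := by positivity
        have ht0 : s₀ ≤ t := le_max_left _ _
        have htT : t < T := max_lt h (by linarith)
        have ht2 : T - t ≤ ε / (A' + 1) := by
          have := le_max_right s₀ (T - ε / (A' + 1))
          linarith
        have h5 : A' * (T - t) ≤ ε := by
          have h6 : A' * (T - t) ≤ A' * (ε / (A' + 1)) := mul_le_mul_of_nonneg_left ht2 hA0
          have h7 : A' * (ε / (A' + 1)) = ε * (A' / (A' + 1)) := by ring
          have h8 : A' / (A' + 1) ≤ 1 := by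
            rw [div_le_one (by linarith)]
            linarith
          have h9 : ε * (A' / (A' + 1)) ≤ ε * 1 := mul_le_mul_of_nonneg_left h8 hε.le
          linarith
        have h10 : t ∈ S := by
          refine ⟨ht0, htT.le.trans hT1, ?_⟩
          have h1 := hJ t T s₁ htT.le hT1
          have h2 := hJ0 t T
          have h3 := mul_le_mul_of_nonneg_left (hNstep t T htT hTC) hε.le
          nlinarith
        exact absurd (csInf_le hbdd h10) (not_le.2 htT)
      · obtain ⟨t, ht0, htT, ht2⟩ := hloc T h hT1 hTC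
        have h10 : t ∈ S := by
          refine ⟨ht0, htT.le.trans hT1, ?_⟩
          have h1 := hJ t T s₁ htT.le hT1
          have h3 := mul_le_mul_of_nonneg_left (hNanti t T htT.le) hε.le
          nlinarith
        exact absurd (csInf_le hbdd h10) (not_le.2 htT)
  refine le_of_forall_pos_le_add fun δ hδ => ?_
  have h1 := key (δ / (N s₀ + 1)) (div_pos hδ (by linarith [hN0 s₀]))
  have h2 : δ / (N s₀ + 1) * N s₀ ≤ δ := by
    have h3 : δ / (N s₀ + 1) * N s₀ = δ * (N s₀ / (N s₀ + 1)) := by ring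
    have h4 : N s₀ / (N s₀ + 1) ≤ 1 := by
      rw [div_le_one (by linarith [hN0 s₀])]
      linarith
    have h5 : δ * (N s₀ / (N s₀ + 1)) ≤ δ * 1 := mul_le_mul_of_nonneg_left h4 hδ.le
    linarith
  linarith

end PERAaux

open PERAaux

/-- PERA: perimeter of the sublevel sets of a smooth function. -/
theorem PERA : Stmt_PERA := by
  intro g W ρ r s₀ s₁ hg hρ hρr hs hW h0 h1 hfin A hA
  have h0' : ∀ x : E3, ‖x‖ = ρ → W x < s₀ := fun x hx =>
    h0 x ⟨hx.ge, by rw [hx]; exact hρr.le⟩ hx
  have h1' : ∀ x : E3, ‖x‖ = r → s₁ < W x := fun x hx =>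
    h1 x ⟨by rw [hx]; exact hρr.le, hx.le⟩ hx
  have hRHS : 0 ≤ ∫ x in cAnn ρ r ∩ {x | s₀ ≤ W x ∧ W x ≤ s₁}, len g x (grad W x) * volDen g x :=
    integral_nonneg fun x => ar_nonneg g W x
  have hAm : MeasurableSet (cAnn ρ r) := (isCompact_cAnn ρ r).measurableSet
  have hJR : jj g W ρ r s₀ s₁
      ≤ ∫ x in cAnn ρ r ∩ {x | s₀ ≤ W x ∧ W x ≤ s₁}, len g x (grad W x) * volDen g x := by
    unfold jj
    refine setIntegral_mono_set ((ar_int hg hW hρ).mono_set Set.inter_subset_left)
      (Eventually.of_forall fun x => ar_nonneg g W x) ?_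
    refine (HasSubset.Subset.eventuallyLE ?_)
    exact Set.inter_subset_inter_right _ fun x hx => ⟨hx.1, hx.2.le⟩
  rcases le_or_gt A 0 with hA0 | hA0
  · have : A * (s₁ - s₀) ≤ 0 := mul_nonpos_of_nonpos_of_nonneg hA0 (by linarith)
    linarith
  by_contra hcon
  rw [not_le] at hcon
  set R : ℝ := ∫ x in cAnn ρ r ∩ {x | s₀ ≤ W x ∧ W x ≤ s₁}, len g x (grad W x) * volDen g x
    with hR
  have hd : 0 < s₁ - s₀ := sub_pos.2 hs
  set A' : ℝ := (A + R / (s₁ - s₀)) / 2 with hA'
  have hq : R / (s₁ - s₀) < A := by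
    rw [div_lt_iff₀ hd]
    exact hcon
  have hq0 : 0 ≤ R / (s₁ - s₀) := div_nonneg hRHS hd.le
  have hA'0 : 0 ≤ A' := by
    rw [hA']
    linarith
  have hA'A : A' < A := by
    rw [hA']
    linarith
  have hch : A' * (s₁ - s₀) ≤ jj g W ρ r s₀ s₁ := by
    refine chain hs.le hA'0 (fun a b => jj_nonneg g W ρ r a b)
      (fun a b c hab hbc => jj_add hg hW hρ hab hbc) hfin ?_
    intro s hs0 hs1 hsC
    have hreg : ∀ x ∈ cAnn ρ r, W x = s → fderiv ℝ W x ≠ 0 := fun x hx hxs hd0 =>
      hsC ⟨hs0.le, hs1, x, hx, hxs, hd0⟩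
    have hsep := separates_Us hW hρ hρr h0 h1 hs0.le hs1 hreg
    have hlt : ENNReal.ofReal A' < perimeter g (Us W ρ r s) :=
      lt_of_lt_of_le ((ENNReal.ofReal_lt_ofReal_iff_of_nonneg hA'0).2 hA'A) (hA _ hsep)
    unfold perimeter at hlt
    rw [lt_iSup_iff] at hlt
    obtain ⟨X, hlt⟩ := hlt
    rw [lt_iSup_iff] at hlt
    obtain ⟨hX, hlt⟩ := hlt
    rw [ENNReal.ofReal_lt_ofReal_iff_of_nonneg hA'0] at hlt
    obtain ⟨t, ht0, hts, ht⟩ := local_left hg hW hX hρ hρr h0' h1' hs0 hs1 hA'0 hlt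
    exact ⟨t, ht0, hts, ht t le_rfl hts⟩
  have h5 : A' * (s₁ - s₀) = (A * (s₁ - s₀) + R) / 2 := by
    rw [hA']
    field_simp
  linarith

end Pool.Agent.PFlow
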