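import Pool.Agent.PFlow.StmtsE4
import Pool.Agent.PFlow.E.SCAL
import Pool.Agent.PFlow.E.DIVA
import Pool.Agent.PFlow.M_Coef

/-!
# The momentum density is integrable (module JINT)
-/

open MeasureTheory Filter Topology
open scoped ContDiff

namespace Pool.Agent.PFlow

open Pool.Agent.PenroseSph

namespace MJINT

theorem isClosed_cAnn (a b : ℝ) : IsClosed (cAnn a b) :=
  (isClosed_le continuous_const continuous_norm).inter
    (isClosed_le continuous_norm continuous_const)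

theorem isCompact_cAnn (a b : ℝ) : IsCompact (cAnn a b) := by
  refine Metric.isCompact_of_isClosed_isBounded (isClosed_cAnn a b) ?_
  refine (Metric.isBounded_closedBall (x := (0 : E3)) (r := b)).subset fun x hx => ?_
  rw [mem_closedBall_zero_iff]
  exact hx.2

theorem cAnn_ne {a b : ℝ} (ha : 0 < a) {x : E3} (hx : x ∈ cAnn a b) : x ∈ ({0}ᶜ : Set E3) := by
  intro h0
  have h1 : x = 0 := h0
  have h2 := hx.1
  rw [h1, norm_zero] at h2
  linarith

theorem jlen_nonneg (g h : TensorField) (x : E3) : 0 ≤ jlen g h x := Real.sqrt_nonneg _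

theorem jlen_cont {g h : TensorField} (hg : MetricOn {0}ᶜ g) (hh : TensorOn {0}ᶜ h) :
    ContinuousOn (jlen g h) {0}ᶜ := by
  intro x hx
  have hU : IsOpen ({0}ᶜ : Set E3) := isOpen_compl_singleton
  have h1 : ContinuousAt (fun x => ev (g x)⁻¹ (fun i => momentumDensity g h i x)
      (fun i => momentumDensity g h i x)) x := by
    unfold ev
    refine tendsto_finsetSum _ fun i _ => tendsto_finsetSum _ fun j _ => ?_
    exact (((MCF.inv_smooth hU hg hx i j).continuousAt).mul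
      (MCF.mom_smooth hU hg hh hx i).continuousAt).mul (MCF.mom_smooth hU hg hh hx j).continuousAt
  exact (Real.continuous_sqrt.continuousAt.comp h1).continuousWithinAt

theorem linR_cont {g : TensorField} (hg : MetricOn {0}ᶜ g) : ContinuousOn (linR g) {0}ᶜ := by
  intro x hx
  have hU : IsOpen ({0}ᶜ : Set E3) := isOpen_compl_singleton
  have h1 : ContinuousAt (fun x => linR g x) x := by
    unfold linR
    refine tendsto_finsetSum _ fun i _ => tendsto_finsetSum _ fun j _ => ?_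
    exact ((MCF.pd_smooth (MCF.pd_smooth (MCF.g_smooth hU hg hx i j) j) i).continuousAt).sub
      (MCF.pd_smooth (MCF.pd_smooth (MCF.g_smooth hU hg hx i i) j) j).continuousAt
  exact h1.continuousWithinAt

theorem int_inv4 : IntegrableOn (fun x : E3 => 1 / ‖x‖ ^ 4) {x : E3 | 1 ≤ ‖x‖} := by
  have h1 : Integrable (fun x : E3 => (1 + ‖x‖) ^ (-(4 : ℝ))) := by
    refine integrable_one_add_norm ?_
    rw [finrank_euclideanSpace, Fintype.card_fin]
    norm_num
  have hm : MeasurableSet {x : E3 | 1 ≤ ‖x‖} :=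
    (isClosed_le continuous_const continuous_norm).measurableSet
  refine Integrable.mono' (h1.integrableOn.const_mul 16) ?_ ?_
  · exact (Measurable.div measurable_const (measurable_norm.pow_const 4)).aestronglyMeasurable
  · refine (ae_restrict_iff' hm).2 (Eventually.of_forall fun x hx => ?_)
    have hx1 : 1 ≤ ‖x‖ := hx
    have e : (1 + ‖x‖) ^ (-(4 : ℝ)) = 1 / (1 + ‖x‖) ^ 4 := by
      rw [Real.rpow_neg (by positivity), one_div]
      congr 1
      exact_mod_cast Real.rpow_natCast (1 + ‖x‖) 4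
    rw [Real.norm_of_nonneg (by positivity), e, mul_one_div, div_le_div_iff₀ (by positivity)
      (by positivity), one_mul]
    calc (1 + ‖x‖) ^ 4 ≤ (2 * ‖x‖) ^ 4 := pow_le_pow_left₀ (by positivity) (by linarith) 4
      _ = 16 * ‖x‖ ^ 4 := by ring

/-- Boundary terms. -/
theorem bdry {g : TensorField} {C : ℝ}
    (hb : ∀ x : E3, 1 ≤ ‖x‖ → ∀ i j k, |pd k (fun y => g y i j) x| ≤ C / ‖x‖ ^ 2) {b : ℝ}
    (hb1 : 1 ≤ b) :
    |∫ θ : Metric.sphere (0 : E3) 1, (∑ i, MDIVA.VV g (b • (θ : E3)) i * (θ : E3) i) * b ^ 2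
      ∂((volume : Measure E3).toSphere)| ≤
      18 * C * ((volume : Measure E3).toSphere).real Set.univ := by
  have hb0 : 0 < b := by linarith
  rw [← Real.norm_eq_abs]
  refine norm_integral_le_of_norm_le_const (Eventually.of_forall fun θ => ?_)
  have hn : ‖b • (θ : E3)‖ = b := by
    rw [norm_smul, norm_eq_of_mem_sphere, mul_one, Real.norm_eq_abs, abs_of_pos hb0]
  have hθ : ∀ i, |(θ : E3) i| ≤ 1 := by
    intro i
    have h1 := EuclideanSpace.norm_eq (θ : E3)
    rw [norm_eq_of_mem_sphere] at h1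
    have h2 : (θ : E3) i ^ 2 ≤ ∑ j, ‖(θ : E3) j‖ ^ 2 := by
      have h3 := Finset.single_le_sum (f := fun j => ‖(θ : E3) j‖ ^ 2)
        (fun j _ => sq_nonneg _) (Finset.mem_univ i)
      simpa [Real.norm_eq_abs, sq_abs] using h3
    have h4 : ∑ j, ‖(θ : E3) j‖ ^ 2 = 1 := by
      have h5 : 0 ≤ ∑ j, ‖(θ : E3) j‖ ^ 2 := Finset.sum_nonneg fun _ _ => sq_nonneg _
      rw [← Real.sq_sqrt h5, ← h1]
      norm_num
    rw [h4] at h2
    exact (sq_le_one_iff_abs_le_one _).1 h2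
  have hV : ∀ j, |MDIVA.VV g (b • (θ : E3)) j| ≤ 3 * (C / b ^ 2 + C / b ^ 2) := by
    intro j
    unfold MDIVA.VV
    refine ESCAL.s3 fun i => ESCAL.m2 ?_ ?_
    · have := hb (b • (θ : E3)) (by rw [hn]; exact hb1) i j i
      rwa [hn] at this
    · have := hb (b • (θ : E3)) (by rw [hn]; exact hb1) i i j
      rwa [hn] at this
  have h6 : |∑ i, MDIVA.VV g (b • (θ : E3)) i * (θ : E3) i| ≤
      3 * (3 * (C / b ^ 2 + C / b ^ 2) * 1) :=
    ESCAL.s3 fun i => ESCAL.p2 (hV i) (hθ i)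
  rw [Real.norm_eq_abs, abs_mul, abs_of_nonneg (sq_nonneg b)]
  calc |∑ i, MDIVA.VV g (b • (θ : E3)) i * (θ : E3) i| * b ^ 2
      ≤ 3 * (3 * (C / b ^ 2 + C / b ^ 2) * 1) * b ^ 2 :=
        mul_le_mul_of_nonneg_right h6 (sq_nonneg b)
    _ = 18 * C := by
        field_simp
        ring

/-- The pointwise inequality far out. -/
theorem point {g h : TensorField} {C C' : ℝ} {x : E3} (hC : 0 < C)
    (hdec : DominantEnergy 0 g h) (hx0 : 0 < ‖x‖) (hx : 100 * C ≤ ‖x‖)
    (hS : |scalarCurvature g x * volDen g x - linR g x| ≤ C' / ‖x‖ ^ 4)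
    (hd : 0 < (g x).det)
    (hb : ∀ i j, |g x i j - (1 : Bil) i j| ≤ C / ‖x‖ ∧ |h x i j| ≤ C / ‖x‖ ^ 2) :
    jlen g h x ≤ linR g x + (C' + 700 * C ^ 2) * (1 / ‖x‖ ^ 4) := by
  have hη : C / ‖x‖ ≤ 1 / 100 := by
    rw [div_le_div_iff₀ hx0 (by norm_num)]
    linarith
  have h1 := (ESCAL.inv_bound hη fun i j => (hb i j).1).1
  have h2 : |volDen g x - 1| ≤ 4 * (C / ‖x‖) :=
    ESCAL.sqrt_bound (ESCAL.det_bound hη fun i j => (hb i j).1) hd.le
  have hv := abs_le.1 h2
  have hv1 : 96 / 100 ≤ volDen g x := by linarith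
  have hv2 : volDen g x ≤ 104 / 100 := by linarith
  set T := C / ‖x‖ ^ 2 with hT
  have hT0 : 0 ≤ T := by positivity
  have h3 : |traceWith g h x| ≤ 3 * (3 * (2 * T)) :=
    ESCAL.s3 fun i => ESCAL.s3 fun j => ESCAL.p2 (h1 i j) (hb i j).2
  have h4 : |normSqWith g h x| ≤ 3 * (3 * (3 * (3 * (2 * 2 * T * T)))) :=
    ESCAL.s3 fun i => ESCAL.s3 fun j => ESCAL.s3 fun k => ESCAL.s3 fun l =>
      ESCAL.p2 (ESCAL.p2 (ESCAL.p2 (h1 i k) (h1 j l)) (hb i j).2) (hb k l).2
  have h5 : traceWith g h x ^ 2 ≤ 324 * T ^ 2 := by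
    have := pow_le_pow_left₀ (abs_nonneg _) h3 2
    rw [sq_abs] at this
    nlinarith
  have h6 : -(324 * T ^ 2) ≤ normSqWith g h x := by
    have := (abs_le.1 h4).1
    nlinarith
  have h7 : jlen g h x ≤ energyDensity g h x := hdec x hx0
  have h8 : scalarCurvature g x * volDen g x ≤ linR g x + C' / ‖x‖ ^ 4 := by
    linarith [(abs_le.1 hS).2]
  have h9 : T ^ 2 = C ^ 2 * (1 / ‖x‖ ^ 4) := by
    rw [hT]
    field_simp
  have hj := jlen_nonneg g h x
  have h10 : jlen g h x ≤ 2 * volDen g x * jlen g h x := by nlinarith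
  have h11 : 2 * volDen g x * jlen g h x ≤ 2 * volDen g x * energyDensity g h x :=
    mul_le_mul_of_nonneg_left h7 (by linarith)
  have h12 : 2 * volDen g x * energyDensity g h x =
      scalarCurvature g x * volDen g x + volDen g x * (traceWith g h x ^ 2 - normSqWith g h x) := by
    unfold energyDensity
    ring
  have h13 : volDen g x * (traceWith g h x ^ 2 - normSqWith g h x) ≤ 104 / 100 * (648 * T ^ 2) := by
    have h14 : traceWith g h x ^ 2 - normSqWith g h x ≤ 648 * T ^ 2 := by linarith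
    calc volDen g x * (traceWith g h x ^ 2 - normSqWith g h x)
        ≤ volDen g x * (648 * T ^ 2) := mul_le_mul_of_nonneg_left h14 (by linarith)
      _ ≤ 104 / 100 * (648 * T ^ 2) := mul_le_mul_of_nonneg_right hv2 (by positivity)
  have h15 : 104 / 100 * (648 * T ^ 2) ≤ 700 * T ^ 2 := by nlinarith [sq_nonneg T]
  have h16 : C' / ‖x‖ ^ 4 = C' * (1 / ‖x‖ ^ 4) := by ring
  rw [h16] at h8
  rw [h9] at h15 h13
  nlinarith

end MJINT

open MJINT in
/-- JINT: the momentum density is integrable. -/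
theorem JINT (hAFD : Stmt_AFD) (hSCAL : Stmt_SCAL) (hDIVG : Stmt_DIVG) : Stmt_JINT := by
  intro g h htwo hdec
  obtain ⟨C, hC, hd1, -, -, -⟩ := hAFD g h htwo
  obtain ⟨C', r₀, hC', hr₀, hS⟩ := hSCAL C
  have hg := htwo.metric
  have hh := htwo.tensor
  have hU : IsOpen ({0}ᶜ : Set E3) := isOpen_compl_singleton
  set r₁ := max r₀ (100 * C) with hr₁
  have hr₁1 : 1 ≤ r₁ := le_trans hr₀ (le_max_left _ _)
  have hjint : ∀ a b : ℝ, 0 < a → IntegrableOn (jlen g h) (cAnn a b) := fun a b ha =>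
    ((jlen_cont hg hh).mono fun x hx => cAnn_ne ha hx).integrableOn_compact (isCompact_cAnn a b)
  have hlint : ∀ a b : ℝ, 0 < a → IntegrableOn (linR g) (cAnn a b) := fun a b ha =>
    ((linR_cont hg).mono fun x hx => cAnn_ne ha hx).integrableOn_compact (isCompact_cAnn a b)
  have hpt : ∀ x : E3, r₁ ≤ ‖x‖ →
      jlen g h x ≤ linR g x + (C' + 700 * C ^ 2) * (1 / ‖x‖ ^ 4) := by
    intro x hx
    have hx1 : 1 ≤ ‖x‖ := le_trans hr₁1 hx
    have hx0 : x ∈ ({0}ᶜ : Set E3) := by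
      intro h0
      have h1 : x = 0 := h0
      rw [h1, norm_zero] at hx1
      linarith
    have hs := hS g x (le_trans (le_max_left _ _) hx)
      (by
        filter_upwards [hU.mem_nhds hx0] with y hy
        have h1 := (hg.posDef y hy).1
        exact Matrix.isHermitian_iff_isSymm.1 h1)
      (fun i j => MCF.g_smooth hU hg hx0 i j)
      (fun i j => ⟨(hd1 x hx1 i j).1, (hd1 x hx1 i j).2.1, (hd1 x hx1 i j).2.2.1⟩)
    exact point hC hdec (by linarith) (le_trans (le_max_right _ _) hx) hs.1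
      (hg.posDef x hx0).det_pos (fun i j => ⟨(hd1 x hx1 i j).1, (hd1 x hx1 i j).2.2.2.1⟩)
  have hpd : ∀ x : E3, 1 ≤ ‖x‖ → ∀ i j k, |pd k (fun y => g y i j) x| ≤ C / ‖x‖ ^ 2 :=
    fun x hx i j k => (hd1 x hx i j).2.1 k
  set σ := ((volume : Measure E3).toSphere).real Set.univ with hσ
  set J := ∫ x in {x : E3 | 1 ≤ ‖x‖}, 1 / ‖x‖ ^ 4 with hJ
  refine ⟨(∫ x in cAnn 1 r₁, jlen g h x) + (36 * C * σ + (C' + 700 * C ^ 2) * J), ?_⟩
  intro R hR
  -- the outer part
  have hout : ∀ b : ℝ, r₁ ≤ b → ∫ x in cAnn r₁ b, jlen g h x ≤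
      36 * C * σ + (C' + 700 * C ^ 2) * J := by
    intro b hb
    have hr₁0 : 0 < r₁ := by linarith
    have hsub : cAnn r₁ b ⊆ {x : E3 | 1 ≤ ‖x‖} := fun x hx => le_trans hr₁1 hx.1
    have h4 : IntegrableOn (fun x : E3 => 1 / ‖x‖ ^ 4) (cAnn r₁ b) := int_inv4.mono_set hsub
    have h1 : ∫ x in cAnn r₁ b, jlen g h x ≤
        ∫ x in cAnn r₁ b, (linR g x + (C' + 700 * C ^ 2) * (1 / ‖x‖ ^ 4)) :=
      setIntegral_mono_on (hjint r₁ b hr₁0) ((hlint r₁ b hr₁0).add (h4.const_mul _))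
        (isClosed_cAnn r₁ b).measurableSet fun x hx => hpt x hx.1
    have h2 : ∫ x in cAnn r₁ b, (linR g x + (C' + 700 * C ^ 2) * (1 / ‖x‖ ^ 4)) =
        (∫ x in cAnn r₁ b, linR g x) + (C' + 700 * C ^ 2) * ∫ x in cAnn r₁ b, 1 / ‖x‖ ^ 4 := by
      rw [integral_add (hlint r₁ b hr₁0) (h4.const_mul _), integral_const_mul]
    have h3 : ∫ x in cAnn r₁ b, 1 / ‖x‖ ^ 4 ≤ J :=
      setIntegral_mono_set int_inv4 (Eventually.of_forall fun x => by positivity)
        (LE.le.eventuallyLE hsub)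
    have h5 : ∫ x in cAnn r₁ b, linR g x =
        ∫ x in cAnn r₁ b, ∑ i, pd i (fun y => MDIVA.VV g y i) x := by
      refine setIntegral_congr_fun (isClosed_cAnn r₁ b).measurableSet fun x hx => ?_
      exact (MDIVA.div_VV fun i j => MCF.g_smooth hU hg (cAnn_ne hr₁0 hx) i j).symm
    have h6 := hDIVG (MDIVA.VV g) r₁ b hr₁0 hb
      (fun x hx i => MDIVA.contDiffAt_VV
        (fun i j => MCF.g_smooth hU hg (cAnn_ne hr₁0 hx) i j) i)
    have h7 := abs_le.1 (bdry hpd (le_trans hr₁1 hb))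
    have h8 := abs_le.1 (bdry hpd hr₁1)
    have h9 : ∫ x in cAnn r₁ b, linR g x ≤ 36 * C * σ := by
      rw [h5, h6]
      linarith [h7.2, h8.1]
    have h10 : (C' + 700 * C ^ 2) * (∫ x in cAnn r₁ b, 1 / ‖x‖ ^ 4) ≤ (C' + 700 * C ^ 2) * J :=
      mul_le_mul_of_nonneg_left h3 (by positivity)
    rw [h2] at h1
    linarith
  have hout0 : 0 ≤ 36 * C * σ + (C' + 700 * C ^ 2) * J :=
    le_trans (integral_nonneg fun x => jlen_nonneg g h x) (hout r₁ le_rfl)
  have hsplit := integral_inter_add_sdiff (μ := volume) (f := jlen g h) (s := cAnn 1 R)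
    (isClosed_cAnn 1 r₁).measurableSet (hjint 1 R one_pos)
  rw [← hsplit]
  refine add_le_add ?_ ?_
  · exact setIntegral_mono_set (hjint 1 r₁ one_pos)
      (Eventually.of_forall fun x => jlen_nonneg g h x)
      (LE.le.eventuallyLE Set.inter_subset_right)
  · by_cases hRr : r₁ ≤ R
    · refine le_trans ?_ (hout R hRr)
      refine setIntegral_mono_set (hjint r₁ R (by linarith))
        (Eventually.of_forall fun x => jlen_nonneg g h x)
        (LE.le.eventuallyLE fun x hx => ?_)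
      refine ⟨?_, hx.1.2⟩
      by_contra hc
      exact hx.2 ⟨hx.1.1, (not_le.1 hc).le⟩
    · have hempty : cAnn 1 R \ cAnn 1 r₁ = ∅ := by
        ext x
        constructor
        · rintro ⟨h1, h2⟩
          exact h2 ⟨h1.1, le_trans h1.2 (not_le.1 hRr).le⟩
        · intro hx
          exact absurd hx (Set.notMem_empty x)
      rw [hempty, setIntegral_empty]
      exact hout0

end Pool.Agent.PFlow
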