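import Pool.Agent.PFlow.StmtsE5
import Pool.Agent.PFlow.E.JPROD
import Pool.Agent.PFlow.E.LIMK
import Pool.Agent.PFlow.M_FR

/-!
# TFD: data with divergence-free trace-free part are trace-dominated
-/

open MeasureTheory Filter Topology
open scoped ContDiff ENNReal

namespace Pool.Agent.PFlow

open Pool.Agent.PenroseSph

namespace TFDm

/-- The divergence of a sum. -/
theorem div_add {g S T : TensorField} {x : E3} (j : Fin 3)
    (hS : ∀ i j, DifferentiableAt ℝ (fun y => S y i j) x)
    (hT : ∀ i j, DifferentiableAt ℝ (fun y => T y i j) x) :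
    divergence g (fun y => S y + T y) j x = divergence g S j x + divergence g T j x := by
  have h1 : ∀ i k, covDeriv g (fun y => S y + T y) k i j x =
      covDeriv g S k i j x + covDeriv g T k i j x := by
    intro i k
    unfold covDeriv
    have h2 : pd k (fun y => (S y + T y) i j) x = pd k (fun y => S y i j) x +
        pd k (fun y => T y i j) x := by
      show pd k (fun y => S y i j + T y i j) x = _
      unfold pd
      rw [fderiv_fun_add (hS i j) (hT i j)]
      rfl
    have h3 : ∀ l, christoffel g l k i x * (S x + T x) l j + christoffel g l k j x *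
        (S x + T x) i l = (christoffel g l k i x * S x l j + christoffel g l k j x *
        S x i l) + (christoffel g l k i x * T x l j + christoffel g l k j x * T x i l) := by
      intro l
      simp only [Matrix.add_apply]
      ring
    rw [h2, Finset.sum_congr rfl fun l _ => h3 l, Finset.sum_add_distrib]
    ring
  unfold divergence
  rw [← Finset.sum_add_distrib]
  refine Finset.sum_congr rfl fun i _ => ?_
  rw [← Finset.sum_add_distrib]
  refine Finset.sum_congr rfl fun k _ => ?_
  rw [h1]
  ring

/-- The Cauchy-Schwarz inequality for the trace. -/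
theorem trg_sq_le {P : Bil} (hP : P.PosDef) (H : Bil) : tr2 P H ^ 2 ≤ 3 * dd P H H := by
  obtain ⟨A, -, -, -, h2, h3, -⟩ := FR P hP
  rw [h2, h3]
  generalize plm A H = B
  simp only [Fin.sum_univ_three]
  nlinarith [sq_nonneg (B 0 0 - B 1 1), sq_nonneg (B 0 0 - B 2 2), sq_nonneg (B 1 1 - B 2 2),
    sq_nonneg (B 0 1), sq_nonneg (B 0 2), sq_nonneg (B 1 0), sq_nonneg (B 1 2),
    sq_nonneg (B 2 0), sq_nonneg (B 2 1)]

end TFDm

theorem TFD : Stmt_TFD := by
  intro g h hg hh hdiv x hx
  have hU : IsOpen ({0}ᶜ : Set E3) := isOpen_compl_singleton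
  have hxU : x ∈ ({0}ᶜ : Set E3) := by simpa using hx
  have hpos := hg.posDef x hxU
  have h0 : (g x).det ≠ 0 := hpos.det_pos.ne'
  have hgd : ∀ i j, DifferentiableAt ℝ (fun y => g y i j) x :=
    fun i j => JPRODm.diffAt hU (hg.smooth i j) hxU
  have hhd : ∀ i j, DifferentiableAt ℝ (fun y => h y i j) x :=
    fun i j => JPRODm.diffAt hU (hh.smooth i j) hxU
  have htd : DifferentiableAt ℝ (fun y => traceWith g h y) x := JPRODm.trace_diff hgd hhd h0
  have hs : ∀ᶠ y in 𝓝 x, (g y).IsSymm := by
    filter_upwards [hU.mem_nhds hxU] with y hy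
    ext i j
    exact LIMK.symm_of_pos (hg.posDef y hy) j i
  -- the momentum density
  have hJ : ∀ j, momentumDensity g h j x
      = -(2 / 3) * grad (fun y => trg g y (h y)) x j := by
    intro j
    have e1 : (fun y => h y - traceWith g h y • g y) = fun y =>
        (h y - traceTensor g h y) + (-(2 / 3) * traceWith g h y) • g y := by
      funext y
      have e2 : traceTensor g h y = (traceWith g h y / 3) • g y := rfl
      rw [e2]
      ext i k
      simp only [Matrix.sub_apply, Matrix.add_apply, Matrix.smul_apply, smul_eq_mul]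
      ring
    have d1 : ∀ i j, DifferentiableAt ℝ (fun y => (h y - traceTensor g h y) i j) x := by
      intro i k
      show DifferentiableAt ℝ (fun y => h y i k - traceWith g h y / 3 * g y i k) x
      have htd3 : DifferentiableAt ℝ (fun y => traceWith g h y / 3) x := by
        simp only [div_eq_mul_inv]
        exact htd.mul_const _
      exact (hhd i k).sub (htd3.mul (hgd i k))
    have d2 : DifferentiableAt ℝ (fun y => -(2 / 3) * traceWith g h y) x := htd.const_mul _
    have d3 : ∀ i j, DifferentiableAt ℝ
        (fun y => ((-(2 / 3) * traceWith g h y) • g y) i j) x := by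
      intro i k
      show DifferentiableAt ℝ (fun y => (-(2 / 3) * traceWith g h y) * g y i k) x
      exact d2.mul (hgd i k)
    unfold momentumDensity
    rw [e1, TFDm.div_add j d1 d3, hdiv x hx j, zero_add,
      LIMK.div_mul hpos hs hgd d2 j]
    have e3 : pd j (fun y => -(2 / 3) * traceWith g h y) x
        = -(2 / 3) * pd j (fun y => traceWith g h y) x := by
      unfold pd
      rw [fderiv_const_mul htd]
      rfl
    rw [e3]
    rfl
  have hlen : jlen g h x = 2 / 3 * len g x (grad (fun y => trg g y (h y)) x) := by
    unfold jlen len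
    have e4 : ev (g x)⁻¹ (fun i => momentumDensity g h i x) (fun i => momentumDensity g h i x)
        = (2 / 3) ^ 2 * ev (g x)⁻¹ (grad (fun y => trg g y (h y)) x)
          (grad (fun y => trg g y (h y)) x) := by
      unfold ev
      rw [Finset.mul_sum]
      refine Finset.sum_congr rfl fun i _ => ?_
      rw [Finset.mul_sum]
      refine Finset.sum_congr rfl fun k _ => ?_
      have e5 := hJ i
      have e6 := hJ k
      show (g x)⁻¹ i k * momentumDensity g h i x * momentumDensity g h k x = _
      rw [e5, e6]
      ring
    rw [e4, Real.sqrt_mul (by norm_num), Real.sqrt_sq (by norm_num)]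
  have hcs := TFDm.trg_sq_le hpos.inv (h x)
  have hcs2 : trg g x (h x) ^ 2 ≤ 3 * nsq g x (h x) := hcs
  rw [hlen]
  linarith

end Pool.Agent.PFlow
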