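import Pool.Agent.PFlow.StmtsE4
import Pool.Agent.PFlow.M_CT
import Pool.Agent.PFlow.M_JD
import Pool.Agent.PFlow.M_Coef
import Pool.Agent.PFlow.E.BARB
import Pool.Agent.PFlow.E.SHELL
import Pool.Agent.PFlow.E.HATC
import Pool.Agent.PFlow.E.EETA

/-!
# TINT: the trace divided by the radius is integrable
-/

open MeasureTheory Filter Topology
open scoped ContDiff

namespace Pool.Agent.PFlow

open Pool.Agent.PenroseSph

namespace TINTm

open BARBm (sum1_le sum2_le mul_le add_le sub_le nu nu_sq n_le diff_inv_norm hess_rad grad_rad dl)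

/-! ### Pointwise bounds -/

/-- The bounds at a point. -/
structure Hy (C ρ : ℝ) (g h : TensorField) (x : E3) : Prop where
  C1 : 1 ≤ C
  ρ0 : 0 < ρ
  ρ1 : ρ ≤ 1
  pt : MJD.Pt g x
  dh : ∀ i j, DifferentiableAt ℝ (fun y => h y i j) x
  b0 : ∀ i j, |g x i j - (1 : Bil) i j| ≤ C * ρ
  b1 : ∀ k i j, |pd k (fun y => g y i j) x| ≤ C * ρ ^ 2
  c0 : ∀ i j, |h x i j| ≤ C * ρ ^ 2
  c1 : ∀ k i j, |pd k (fun y => h y i j) x| ≤ C * ρ ^ 3
  inv : ∀ i j, |(g x)⁻¹ i j| ≤ C

section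

variable {C ρ : ℝ} {g h : TensorField} {x : E3}

theorem one_le (i j : Fin 3) : |(1 : Bil) i j| ≤ 1 := by
  rw [Matrix.one_apply]; split_ifs <;> norm_num

theorem Hy.gle (H : Hy C ρ g h x) (i j : Fin 3) : |g x i j| ≤ 2 * C := by
  have h1 := H.b0 i j
  have h2 := one_le i j
  have h3 : g x i j = (g x i j - (1 : Bil) i j) + (1 : Bil) i j := by ring
  have h4 : |g x i j| ≤ |g x i j - (1 : Bil) i j| + |(1 : Bil) i j| := by
    conv_lhs => rw [h3]
    exact abs_add_le _ _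
  have h5 : C * ρ ≤ C := by nlinarith [H.C1, H.ρ0, H.ρ1]
  linarith [H.C1]

theorem Hy.inv1 (H : Hy C ρ g h x) (i j : Fin 3) :
    |(g x)⁻¹ i j - (1 : Bil) i j| ≤ 3 * C ^ 2 * ρ := by
  have h1 : (g x)⁻¹ i j - (1 : Bil) i j =
      ∑ d, -((g x)⁻¹ i d * (g x d j - (1 : Bil) d j)) := by
    have h2 := H.pt.inv_mul i j
    have h3 : ∑ d, (g x)⁻¹ i d * (1 : Bil) d j = (g x)⁻¹ i j := by
      simp [Matrix.one_apply]
    rw [Finset.sum_neg_distrib]
    simp only [mul_sub, Finset.sum_sub_distrib]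
    rw [h2, h3, Matrix.one_apply]; ring
  rw [h1]
  refine (sum1_le (c := C * (C * ρ)) fun d => ?_).trans (le_of_eq (by ring))
  rw [abs_neg]
  exact mul_le (H.inv i d) (H.b0 d j)

theorem Hy.chr (H : Hy C ρ g h x) (k i j : Fin 3) :
    |christoffel g k i j x| ≤ 5 * C ^ 2 * ρ ^ 2 := by
  unfold christoffel
  have h1 : |∑ l, (g x)⁻¹ k l * (pd i (fun y => g y j l) x + pd j (fun y => g y i l) x
      - pd l (fun y => g y i j) x)| ≤ 3 * (C * (C * ρ ^ 2 + C * ρ ^ 2 + C * ρ ^ 2)) :=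
    sum1_le fun l => mul_le (H.inv k l)
      (sub_le (add_le (H.b1 _ _ _) (H.b1 _ _ _)) (H.b1 _ _ _))
  have h2 : 0 ≤ C ^ 2 * ρ ^ 2 := by positivity
  rw [abs_mul, abs_of_pos (by norm_num : (0:ℝ) < 1/2)]
  nlinarith

theorem Hy.dP (H : Hy C ρ g h x) (k i j : Fin 3) :
    |pd k (fun y => (g y)⁻¹ i j) x| ≤ 30 * C ^ 3 * ρ ^ 2 := by
  rw [H.pt.pd_inv, abs_neg]
  exact (sum1_le (c := 5 * C ^ 2 * ρ ^ 2 * C + 5 * C ^ 2 * ρ ^ 2 * C) fun l =>
    add_le (mul_le (H.chr _ _ _) (H.inv _ _)) (mul_le (H.chr _ _ _) (H.inv _ _))).trans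
    (le_of_eq (by ring))

theorem Hy.t (H : Hy C ρ g h x) : |trg g x (h x)| ≤ 9 * C ^ 2 * ρ ^ 2 := by
  unfold trg
  exact (sum2_le (c := C * (C * ρ ^ 2)) fun i j => mul_le (H.inv i j) (H.c0 i j)).trans
    (le_of_eq (by ring))

theorem Hy.difft (H : Hy C ρ g h x) : DifferentiableAt ℝ (fun y => trg g y (h y)) x :=
  MJD.diffTr H.pt h H.dh

theorem Hy.dt (H : Hy C ρ g h x) (k : Fin 3) :
    |pd k (fun y => trg g y (h y)) x| ≤ 279 * C ^ 4 * ρ ^ 3 := by
  have h1 : pd k (fun y => trg g y (h y)) x = ∑ i, ∑ j,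
      ((g x)⁻¹ i j * pd k (fun y => h y i j) x + h x i j * pd k (fun y => (g y)⁻¹ i j) x) := by
    unfold trg
    rw [pd_sum Finset.univ (fun i y => ∑ j, (g y)⁻¹ i j * h y i j) fun i _ =>
      DifferentiableAt.fun_sum fun j _ => (H.pt.diffInv i j).fun_mul (H.dh i j)]
    refine Finset.sum_congr rfl fun i _ => ?_
    rw [pd_sum Finset.univ (fun j y => (g y)⁻¹ i j * h y i j) fun j _ =>
      (H.pt.diffInv i j).fun_mul (H.dh i j)]
    refine Finset.sum_congr rfl fun j _ => ?_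
    rw [pd_mul (H.pt.diffInv i j) (H.dh i j)]
  rw [h1]
  refine (sum2_le (c := C * (C * ρ ^ 3) + C * ρ ^ 2 * (30 * C ^ 3 * ρ ^ 2)) fun i j =>
    add_le (mul_le (H.inv i j) (H.c1 k i j)) (mul_le (H.c0 i j) (H.dP k i j))).trans ?_
  have hC := H.C1
  have h0 := H.ρ0
  have h2 : C ^ 2 ≤ C ^ 4 := pow_le_pow_right₀ hC (by norm_num)
  have h3 : ρ ^ 4 ≤ ρ ^ 3 := pow_le_pow_of_le_one h0.le H.ρ1 (by norm_num)
  have h4 : C ^ 2 * ρ ^ 3 ≤ C ^ 4 * ρ ^ 3 := by gcongr
  have h5 : C ^ 4 * ρ ^ 4 ≤ C ^ 4 * ρ ^ 3 := by gcongr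
  nlinarith

/-- the tensor `π = h - (tr h) g` -/
noncomputable def pit (g h : TensorField) (x : E3) (i j : Fin 3) : ℝ :=
  h x i j - trg g x (h x) * g x i j

theorem Hy.diffpi (H : Hy C ρ g h x) (i j : Fin 3) :
    DifferentiableAt ℝ (fun y => pit g h y i j) x :=
  (H.dh i j).fun_sub (H.difft.fun_mul (H.pt.diff i j))

theorem Hy.pd_pi (H : Hy C ρ g h x) (k i j : Fin 3) :
    pd k (fun y => pit g h y i j) x = pd k (fun y => h y i j) x -
      (trg g x (h x) * pd k (fun y => g y i j) x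
        + g x i j * pd k (fun y => trg g y (h y)) x) := by
  unfold pit
  rw [pd_sub (H.dh i j) (H.difft.fun_mul (H.pt.diff i j)), pd_mul H.difft (H.pt.diff i j)]

theorem Hy.pi_le (H : Hy C ρ g h x) (i j : Fin 3) : |pit g h x i j| ≤ 19 * C ^ 3 * ρ ^ 2 := by
  unfold pit
  refine (sub_le (H.c0 i j) (mul_le H.t (H.gle i j))).trans ?_
  have h2 : C ≤ C ^ 3 := by
    calc C = C ^ 1 := (pow_one C).symm
      _ ≤ C ^ 3 := pow_le_pow_right₀ H.C1 (by norm_num)
  have h3 : C * ρ ^ 2 ≤ C ^ 3 * ρ ^ 2 := by gcongr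
  nlinarith

theorem alg_J (P G : Bil) (Dh Dg S : Fin 3 → Fin 3 → ℝ) (dt : Fin 3 → ℝ) (t : ℝ) (j : Fin 3) :
    (∑ i, ∑ k, P i k * (Dh k i - S k i) - dt j)
      - ∑ i, (Dh i i - (t * Dg i j + G i j * dt i)) =
    ∑ i, ∑ k, ((P i k - (1 : Bil) i k) * Dh k i - P i k * S k i)
      + ∑ i, (dt i * (G i j - (1 : Bil) i j) + t * Dg i j) := by
  fin_cases j <;> simp [Fin.sum_univ_three, Matrix.one_apply] <;> ring

theorem Hy.J (H : Hy C ρ g h x) (j : Fin 3) :
    |momentumDensity g h j x - ∑ i, pd i (fun y => pit g h y i j) x| ≤ 1161 * C ^ 5 * ρ ^ 4 := by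
  have h1 : momentumDensity g h j x - ∑ i, pd i (fun y => pit g h y i j) x =
      ∑ i, ∑ k, (((g x)⁻¹ i k - (1 : Bil) i k) * pd k (fun y => h y i j) x - (g x)⁻¹ i k *
        ∑ l, (christoffel g l k i x * h x l j + christoffel g l k j x * h x i l))
      + ∑ i, (pd i (fun y => trg g y (h y)) x * (g x i j - (1 : Bil) i j)
        + trg g x (h x) * pd i (fun y => g y i j) x) := by
    rw [H.pt.mom h H.dh j]
    simp only [H.pd_pi]
    unfold covDeriv
    exact alg_J (g x)⁻¹ (g x) (fun k i => pd k (fun y => h y i j) x)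
      (fun i j => pd i (fun y => g y i j) x)
      (fun k i => ∑ l, (christoffel g l k i x * h x l j + christoffel g l k j x * h x i l))
      (fun i => pd i (fun y => trg g y (h y)) x) (trg g x (h x)) j
  rw [h1]
  refine (add_le (sum2_le (c := 3 * C ^ 2 * ρ * (C * ρ ^ 3) + C * (3 *
      (5 * C ^ 2 * ρ ^ 2 * (C * ρ ^ 2) + 5 * C ^ 2 * ρ ^ 2 * (C * ρ ^ 2)))) fun i k =>
      sub_le (mul_le (H.inv1 i k) (H.c1 k i j)) (mul_le (H.inv i k) (sum1_le fun l =>
        add_le (mul_le (H.chr l k i) (H.c0 l j)) (mul_le (H.chr l k j) (H.c0 i l)))))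
    (sum1_le (c := 279 * C ^ 4 * ρ ^ 3 * (C * ρ) + 9 * C ^ 2 * ρ ^ 2 * (C * ρ ^ 2)) fun i =>
      add_le (mul_le (H.dt i) (H.b0 i j)) (mul_le H.t (H.b1 i i j)))).trans ?_
  have hC := H.C1
  have h0 := H.ρ0
  have h2 : C ^ 3 ≤ C ^ 5 := pow_le_pow_right₀ hC (by norm_num)
  have h3 : C ^ 4 ≤ C ^ 5 := pow_le_pow_right₀ hC (by norm_num)
  have h4 : C ^ 3 * ρ ^ 4 ≤ C ^ 5 * ρ ^ 4 := by gcongr
  have h5 : C ^ 4 * ρ ^ 4 ≤ C ^ 5 * ρ ^ 4 := by gcongr
  nlinarith

theorem sq_le_vsq (p : Cov) (i : Fin 3) : p i ^ 2 ≤ vsq p := by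
  unfold vsq
  exact Finset.single_le_sum (f := fun i => p i ^ 2) (fun i _ => sq_nonneg _) (Finset.mem_univ i)

theorem Hy.len_ge (H : Hy C ρ g h x) (hp : (g x).PosDef) (p : Cov) (i : Fin 3) :
    |p i| ≤ 6 * C * Real.sqrt (ev (g x)⁻¹ p p) := by
  have hC := H.C1
  have h1 : vsq p ≤ 3 * (2 * C) * ev (g x)⁻¹ p p := MCT.ev_lower hp (by linarith) H.gle p
  have h2 : 0 ≤ vsq p := MCT.vsq_nonneg p
  have h3 : 0 ≤ ev (g x)⁻¹ p p := by
    by_contra h
    rw [not_le] at h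
    nlinarith
  have h4 := sq_le_vsq p i
  apply abs_le_of_sq_le_sq
  · rw [mul_pow, Real.sq_sqrt h3]
    nlinarith [mul_nonneg (by linarith : (0 : ℝ) ≤ C) h3,
      mul_nonneg (mul_nonneg (by linarith : (0 : ℝ) ≤ C) (by linarith : (0 : ℝ) ≤ C - 1)) h3]
  · positivity

theorem Hy.h_le (H : Hy C ρ g h x) (hp : (g x).PosDef)
    (hn : nsq g x (h x) ≤ 3 * trg g x (h x) ^ 2) (i j : Fin 3) :
    |h x i j| ≤ 11 * C * |trg g x (h x)| := by
  have hC := H.C1
  obtain ⟨Q, hQ⟩ := MCT.factor hp.inv.posSemidef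
  have h1 := MCT.nsq_factor hQ (h x)
  have h2 := MCT.rows_factor hQ (h x)
  have h3 : ∀ p : Cov, vsq p ≤ 6 * C * ev (g x)⁻¹ p p := fun p => by
    have := MCT.ev_lower hp (by linarith) H.gle p
    linarith
  have h4 : ∑ i, vsq (h x i) ≤ 6 * C * ∑ i, ev (g x)⁻¹ (h x i) (h x i) := by
    rw [Finset.mul_sum]
    exact Finset.sum_le_sum fun i _ => h3 _
  have h5 : ∑ m, vsq (fun i => ∑ j, h x i j * Q m j) ≤ 6 * C * nsq g x (h x) := by
    rw [h1, Finset.mul_sum]
    exact Finset.sum_le_sum fun i _ => h3 _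
  have h6 : (h x i j) ^ 2 ≤ ∑ i, vsq (h x i) :=
    (sq_le_vsq (h x i) j).trans (Finset.single_le_sum (f := fun i => vsq (h x i))
      (fun i _ => MCT.vsq_nonneg _) (Finset.mem_univ i))
  have h7 : ∑ i, vsq (h x i) ≤ 6 * C * (6 * C * nsq g x (h x)) := by
    refine h4.trans (mul_le_mul_of_nonneg_left ?_ (by linarith))
    rw [← h2]
    exact h5
  have h8 : (h x i j) ^ 2 ≤ 6 * C * (6 * C * (3 * trg g x (h x) ^ 2)) :=
    h6.trans (h7.trans (mul_le_mul_of_nonneg_left (mul_le_mul_of_nonneg_left hn (by linarith))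
      (by linarith)))
  apply abs_le_of_sq_le_sq
  · rw [mul_pow, sq_abs]
    nlinarith [mul_nonneg (sq_nonneg C) (sq_nonneg (trg g x (h x)))]
  · positivity

theorem Hy.pi_le' (H : Hy C ρ g h x) (hp : (g x).PosDef)
    (hn : nsq g x (h x) ≤ 3 * trg g x (h x) ^ 2) (i j : Fin 3) :
    |pit g h x i j| ≤ 13 * C * |trg g x (h x)| := by
  unfold pit
  refine (sub_le (H.h_le hp hn i j) (mul_le (le_refl |trg g x (h x)|) (H.gle i j))).trans
    (le_of_eq (by ring))

/-- the first term: the derivative of `f` -/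
theorem Hy.termA (H : Hy C ρ g h x) (hp : (g x).PosDef) (hx : x ≠ 0)
    (hn : nsq g x (h x) ≤ 3 * trg g x (h x) ^ 2) {η : ℝ} (hη : 0 < η) :
    |∑ i, ∑ j, pd i (fun y => hatF η (trg g y (h y))) x * pit g h x i j * nu x j|
      ≤ 351 * C ^ 2 * eEta η g h x := by
  have hC := H.C1
  set t := trg g x (h x) with ht
  set L := len g x (grad (fun y => trg g y (h y)) x) with hL
  have hL0 : 0 ≤ L := Real.sqrt_nonneg _
  set s := Real.sqrt (t ^ 2 + η ^ 2) with hs
  have hs0 : 0 < s := Real.sqrt_pos.2 (by positivity)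
  have h1 : ∀ i, |pd i (fun y => hatF η (trg g y (h y))) x| ≤ η ^ 2 / s ^ 3 * (6 * C * L) := by
    intro i
    have h2 := congrFun (HATC.grad_comp hη H.difft) i
    have h3 : pd i (fun y => hatF η (trg g y (h y))) x =
        η ^ 2 / s ^ 3 * grad (fun y => trg g y (h y)) x i := h2
    rw [h3, abs_mul, abs_of_nonneg (by positivity : 0 ≤ η ^ 2 / s ^ 3)]
    exact mul_le_mul_of_nonneg_left (H.len_ge hp _ i) (by positivity)
  have h2 := sum2_le (f := fun i j => pd i (fun y => hatF η (trg g y (h y))) x *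
    pit g h x i j * nu x j) fun i j => mul_le (mul_le (h1 i) (H.pi_le' hp hn i j))
      (n_le (nu_sq hx) j)
  refine h2.trans ?_
  have h3 : eEta η g h x = η ^ 2 / 2 + 2 * η ^ 2 * |t| * L / s ^ 3 := rfl
  rw [h3]
  have h4 : 9 * (η ^ 2 / s ^ 3 * (6 * C * L) * (13 * C * |t|) * 1)
      = 351 * C ^ 2 * (2 * η ^ 2 * |t| * L / s ^ 3) := by ring
  rw [h4]
  have h5 : 0 ≤ 351 * C ^ 2 * (η ^ 2 / 2) := by positivity
  nlinarith

/-- the second term: the divergence of `π` -/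
theorem Hy.termB (H : Hy C ρ g h x) (hp : (g x).PosDef) (hx : x ≠ 0) {f : ℝ} (hf : |f| ≤ 1) :
    |∑ j, f * (∑ i, pd i (fun y => pit g h y i j) x) * nu x j|
      ≤ 18 * C * jlen g h x + 3483 * C ^ 5 * ρ ^ 4 := by
  have h1 : ∀ j, |∑ i, pd i (fun y => pit g h y i j) x| ≤
      6 * C * jlen g h x + 1161 * C ^ 5 * ρ ^ 4 := by
    intro j
    have h2 := H.J j
    have h3 := H.len_ge hp (fun i => momentumDensity g h i x) j
    have h4 : |momentumDensity g h j x| ≤ 6 * C * jlen g h x := h3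
    have h5 : ∑ i, pd i (fun y => pit g h y i j) x = momentumDensity g h j x -
        (momentumDensity g h j x - ∑ i, pd i (fun y => pit g h y i j) x) := by ring
    rw [h5]
    exact sub_le h4 h2
  refine (sum1_le fun j => mul_le (mul_le hf (h1 j)) (n_le (nu_sq hx) j)).trans
    (le_of_eq (by ring))

/-- the third term -/
theorem Hy.termC (H : Hy C ρ g h x) (hx : x ≠ 0) {f δ : ℝ} (hf : |f| ≤ 1) (hδ : 0 ≤ δ)
    (hδ1 : δ ≤ 1) (hft : 0 ≤ f * trg g x (h x))
    (hfar : -(f * ∑ i, ∑ j, h x i j * nu x i * nu x j) ≤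
      (1 - δ) * (f * trg g x (h x)) * ∑ i, ∑ j, g x i j * nu x i * nu x j) :
    f * ∑ i, ∑ j, pit g h x i j * (dl i j - nu x i * nu x j) ≤
      -(δ * (f * trg g x (h x))) + 216 * C ^ 3 * ρ ^ 3 := by
  have hC := H.C1
  have hρ := H.ρ0
  set t := trg g x (h x) with ht
  set n := nu x with hn
  have hn2 : n 0 ^ 2 + n 1 ^ 2 + n 2 ^ 2 = 1 := nu_sq hx
  set K := ∑ i, ∑ j, h x i j * n i * n j with hK
  set M := ∑ i, ∑ j, g x i j * n i * n j with hM
  -- the trace
  have h1 : ∑ i, pit g h x i i = -(2 * t) - ∑ i, ∑ j, ((g x)⁻¹ i j - (1 : Bil) i j) * h x i j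
      - ∑ i, t * (g x i i - (1 : Bil) i i) := by
    have h2 : t = ∑ i, ∑ j, (g x)⁻¹ i j * h x i j := rfl
    have h3 : ∑ i, ∑ j, ((g x)⁻¹ i j - (1 : Bil) i j) * h x i j = t - ∑ i, h x i i := by
      simp only [sub_mul, Finset.sum_sub_distrib]
      rw [← h2]
      simp [Matrix.one_apply]
    have h4 : ∑ i, pit g h x i i = ∑ i, h x i i - ∑ i, t * g x i i := by
      unfold pit
      rw [Finset.sum_sub_distrib]
    have h5 : ∑ i, t * (g x i i - (1 : Bil) i i) = ∑ i, t * g x i i - 3 * t := by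
      simp [Fin.sum_univ_three, Matrix.one_apply]
      ring
    rw [h3, h4, h5]
    ring
  have h2 : |∑ i, ∑ j, ((g x)⁻¹ i j - (1 : Bil) i j) * h x i j| ≤ 27 * C ^ 3 * ρ ^ 3 :=
    (sum2_le fun i j => mul_le (H.inv1 i j) (H.c0 i j)).trans (le_of_eq (by ring))
  have h3 : |∑ i, t * (g x i i - (1 : Bil) i i)| ≤ 27 * C ^ 3 * ρ ^ 3 :=
    (sum1_le fun i => mul_le H.t (H.b0 i i)).trans (le_of_eq (by ring))
  -- the radial part of the metric
  have h4 : |M - 1| ≤ 9 * (C * ρ) := by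
    have h5 : M - 1 = ∑ i, ∑ j, (g x i j - (1 : Bil) i j) * n i * n j := by
      rw [hM]
      simp [Fin.sum_univ_three]
      linear_combination hn2
    rw [h5]
    exact (sum2_le fun i j => mul_le (mul_le (H.b0 i j) (n_le hn2 i)) (n_le hn2 j)).trans
      (le_of_eq (by ring))
  have h5 : ∑ i, ∑ j, pit g h x i j * (dl i j - n i * n j) = ∑ i, pit g h x i i - K + t * M := by
    rw [hK, hM]
    unfold pit dl
    simp [Fin.sum_univ_three]
    ring
  have hft' : f * t ≤ 9 * C ^ 2 * ρ ^ 2 := by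
    have := mul_le hf H.t
    rw [one_mul] at this
    exact (le_abs_self _).trans this
  rw [h5, h1]
  have h6 : f * (-(2 * t) - ∑ i, ∑ j, ((g x)⁻¹ i j - (1 : Bil) i j) * h x i j
      - ∑ i, t * (g x i i - (1 : Bil) i i) - K + t * M) = -(2 * (f * t))
      - f * (∑ i, ∑ j, ((g x)⁻¹ i j - (1 : Bil) i j) * h x i j)
      - f * (∑ i, t * (g x i i - (1 : Bil) i i)) + -(f * K) + f * t * M := by ring
  rw [h6]
  have h7 := abs_le.1 (mul_le hf h2)
  have h8 := abs_le.1 (mul_le hf h3)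
  have h9 : (2 - δ) * (f * t) * (M - 1) ≤ 162 * C ^ 3 * ρ ^ 3 := by
    have h10 : (2 - δ) * (f * t) ≤ 2 * (9 * C ^ 2 * ρ ^ 2) := by nlinarith
    have h11 : 0 ≤ (2 - δ) * (f * t) := mul_nonneg (by linarith) hft
    calc (2 - δ) * (f * t) * (M - 1) ≤ (2 - δ) * (f * t) * |M - 1| :=
          mul_le_mul_of_nonneg_left (le_abs_self _) h11
      _ ≤ 2 * (9 * C ^ 2 * ρ ^ 2) * (9 * (C * ρ)) :=
          mul_le_mul h10 h4 (abs_nonneg _) (by positivity)
      _ = 162 * C ^ 3 * ρ ^ 3 := by ring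
  nlinarith [h7.1, h7.2, h8.1, h8.2]

theorem nu_smooth (hx : x ≠ 0) (j : Fin 3) : ContDiffAt ℝ ∞ (fun y => nu y j) x := by
  unfold nu
  have h1 : ContDiffAt ℝ ∞ (fun y : E3 => ‖y‖) x := contDiffAt_norm ℝ hx
  have h2 : ContDiffAt ℝ ∞ (fun y : E3 => y j) x :=
    (EuclideanSpace.proj j : E3 →L[ℝ] ℝ).contDiff.contDiffAt
  exact h2.div h1 (norm_ne_zero_iff.2 hx)

theorem pd_nu (hx : x ≠ 0) (i j : Fin 3) :
    pd i (fun y => nu y j) x = 1 / ‖x‖ * (dl i j - nu x i * nu x j) := by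
  rw [← hess_rad hx i j]
  unfold hess2
  rw [Matrix.of_apply]
  apply pd_congr
  filter_upwards [isOpen_compl_singleton.mem_nhds hx] with y hy
  exact (congrFun (grad_rad (x := y) hy) j).symm

/-- the vector field -/
noncomputable def VV (η : ℝ) (g h : TensorField) (y : E3) (i : Fin 3) : ℝ :=
  hatF η (trg g y (h y)) * ∑ j, pit g h y i j * nu y j

theorem alg_div (A f : ℝ) (F : Fin 3 → ℝ) (Q E : Fin 3 → Fin 3 → ℝ) (D : Fin 3 → Fin 3 → ℝ)
    (n : Fin 3 → ℝ) :
    ∑ i, (f * ∑ j, (Q i j * (A * E i j) + n j * D i j) + (∑ j, Q i j * n j) * F i) =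
      ∑ i, ∑ j, F i * Q i j * n j + ∑ j, f * (∑ i, D i j) * n j
        + A * (f * ∑ i, ∑ j, Q i j * E i j) := by
  simp only [Fin.sum_univ_three]
  ring

theorem Hy.divV (H : Hy C ρ g h x) (hx : x ≠ 0) {η : ℝ} (hη : 0 < η) :
    ∑ i, pd i (fun y => VV η g h y i) x =
      ∑ i, ∑ j, pd i (fun y => hatF η (trg g y (h y))) x * pit g h x i j * nu x j
      + ∑ j, hatF η (trg g x (h x)) * (∑ i, pd i (fun y => pit g h y i j) x) * nu x j
      + 1 / ‖x‖ * (hatF η (trg g x (h x)) * ∑ i, ∑ j, pit g h x i j *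
          (dl i j - nu x i * nu x j)) := by
  have hnd : ∀ j, DifferentiableAt ℝ (fun y => nu y j) x := fun j =>
    (nu_smooth hx j).differentiableAt (by norm_num)
  have hf : DifferentiableAt ℝ (fun y => hatF η (trg g y (h y))) x :=
    ((HATC.hatF_smooth hη).differentiable (by norm_num)).differentiableAt.comp x H.difft
  rw [← alg_div]
  refine Finset.sum_congr rfl fun i _ => ?_
  have h1 : DifferentiableAt ℝ (fun y => ∑ j, pit g h y i j * nu y j) x :=
    DifferentiableAt.fun_sum fun j _ => (H.diffpi i j).fun_mul (hnd j)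
  unfold VV
  rw [pd_mul hf h1, pd_sum Finset.univ (fun j y => pit g h y i j * nu y j) fun j _ =>
    (H.diffpi i j).fun_mul (hnd j)]
  congr 2
  refine Finset.sum_congr rfl fun j _ => ?_
  rw [pd_mul (H.diffpi i j) (hnd j), pd_nu hx]

theorem hat_mul_nonneg (η t : ℝ) : 0 ≤ hatF η t * t := by
  unfold hatF
  have : t / Real.sqrt (t ^ 2 + η ^ 2) * t = t ^ 2 / Real.sqrt (t ^ 2 + η ^ 2) := by ring
  rw [this]
  positivity

theorem abs_le_hat {η : ℝ} (hη : 0 < η) (t : ℝ) : |t| ≤ hatF η t * t + η := by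
  unfold hatF
  set s := Real.sqrt (t ^ 2 + η ^ 2) with hs
  have hs0 : 0 < s := Real.sqrt_pos.2 (by positivity)
  have hss : s ^ 2 = t ^ 2 + η ^ 2 := Real.sq_sqrt (by positivity)
  have h1 : |t| ≤ s := Real.abs_le_sqrt (by nlinarith [sq_nonneg η])
  have h2 : s ≤ |t| + η := by
    refine Real.sqrt_le_iff.2 ⟨by positivity, ?_⟩
    nlinarith [sq_abs t, abs_nonneg t, mul_nonneg (abs_nonneg t) hη.le]
  have h3 : t / s * t = |t| ^ 2 / s := by rw [sq_abs]; ring
  rw [h3]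
  have h4 : |t| ^ 2 / s = |t| - |t| * (s - |t|) / s := by
    field_simp
    ring
  have h5 : |t| * (s - |t|) / s ≤ η := by
    rw [div_le_iff₀ hs0]
    have : 0 ≤ s - |t| := by linarith
    nlinarith [abs_nonneg t]
  linarith

/-- The pointwise inequality. -/
theorem Hy.point (H : Hy C ρ g h x) (hp : (g x).PosDef) (hx : x ≠ 0)
    (hn : nsq g x (h x) ≤ 3 * trg g x (h x) ^ 2) {η δ : ℝ} (hη : 0 < η) (hδ : 0 ≤ δ)
    (hδ1 : δ ≤ 1) (hρ : ρ = 1 / ‖x‖)
    (hfar : -(hatF η (trg g x (h x)) * ∑ i, ∑ j, h x i j * nu x i * nu x j) ≤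
      (1 - δ) * (hatF η (trg g x (h x)) * trg g x (h x)) *
        ∑ i, ∑ j, g x i j * nu x i * nu x j) :
    ∑ i, pd i (fun y => VV η g h y i) x ≤ 18 * C * jlen g h x + 351 * C ^ 2 * eEta η g h x
      + 3699 * C ^ 5 * ρ ^ 4 - δ * (hatF η (trg g x (h x)) * trg g x (h x) * ρ) := by
  have hC := H.C1
  have hρ0 := H.ρ0
  have hf : |hatF η (trg g x (h x))| ≤ 1 := HATC.abs_hatF_le hη _
  rw [H.divV hx hη, ← hρ]
  have h1 := (le_abs_self _).trans (H.termA hp hx hn hη)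
  have h2 := (le_abs_self _).trans (H.termB hp hx hf)
  have h3 := mul_le_mul_of_nonneg_left (H.termC hx hf hδ hδ1 (hat_mul_nonneg η _) hfar) hρ0.le
  have h4 : C ^ 3 ≤ C ^ 5 := pow_le_pow_right₀ hC (by norm_num)
  have h5 : C ^ 3 * ρ ^ 4 ≤ C ^ 5 * ρ ^ 4 := by gcongr
  have h6 : ρ * (-(δ * (hatF η (trg g x (h x)) * trg g x (h x))) + 216 * C ^ 3 * ρ ^ 3) =
      -(δ * (hatF η (trg g x (h x)) * trg g x (h x) * ρ)) + 216 * (C ^ 3 * ρ ^ 4) := by ring
  rw [h6] at h3
  linarith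

theorem Hy.VV_le (H : Hy C ρ g h x) (hx : x ≠ 0) {η : ℝ} (hη : 0 < η) (i : Fin 3) :
    |VV η g h x i| ≤ 57 * C ^ 3 * ρ ^ 2 := by
  unfold VV
  exact (mul_le (HATC.abs_hatF_le hη _) (sum1_le fun j => mul_le (H.pi_le i j)
    (n_le (nu_sq hx) j))).trans (le_of_eq (by ring))

/-- `FarStrict` in terms of the unit vector. -/
theorem far {δ δ' η : ℝ} (hx : x ≠ 0) (hη : 0 < η) (hδ : δ' ≤ δ)
    (hg : 0 ≤ ev (g x) (fun i => x i) (fun i => x i))
    (h1 : 0 ≤ trg g x (h x) →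
      -(1 - δ) * trg g x (h x) * ev (g x) (fun i => x i) (fun i => x i)
        ≤ ev (h x) (fun i => x i) (fun i => x i))
    (h2 : trg g x (h x) ≤ 0 →
      ev (h x) (fun i => x i) (fun i => x i)
        ≤ -(1 - δ) * trg g x (h x) * ev (g x) (fun i => x i) (fun i => x i)) :
    -(hatF η (trg g x (h x)) * ∑ i, ∑ j, h x i j * nu x i * nu x j) ≤
      (1 - δ') * (hatF η (trg g x (h x)) * trg g x (h x)) *
        ∑ i, ∑ j, g x i j * nu x i * nu x j := by
  have hn : 0 < ‖x‖ := norm_pos_iff.2 hx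
  have key : ∀ B : Bil, ∑ i, ∑ j, B i j * nu x i * nu x j =
      ev B (fun i => x i) (fun i => x i) / ‖x‖ ^ 2 := by
    intro B
    unfold ev nu
    simp only [Fin.sum_univ_three]
    field_simp
  rw [key, key]
  set t := trg g x (h x)
  set f := hatF η t with hf
  set K := ev (h x) (fun i => x i) (fun i => x i)
  set M := ev (g x) (fun i => x i) (fun i => x i)
  have hft := hat_mul_nonneg η t
  rw [← hf] at hft
  have h3 : -(f * K) ≤ (1 - δ) * (f * t) * M := by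
    rcases le_total 0 t with h | h
    · have hf0 : 0 ≤ f := by rw [hf]; unfold hatF; positivity
      nlinarith [mul_le_mul_of_nonneg_left (h1 h) hf0]
    · have hf0 : f ≤ 0 := by
        rw [hf]; unfold hatF
        exact div_nonpos_of_nonpos_of_nonneg h (Real.sqrt_nonneg _)
      nlinarith [mul_le_mul_of_nonpos_left (h2 h) hf0]
  have h4 : (1 - δ) * (f * t) * M ≤ (1 - δ') * (f * t) * M :=
    mul_le_mul_of_nonneg_right (mul_le_mul_of_nonneg_right (by linarith) hft) hg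
  have h5 : -(f * (K / ‖x‖ ^ 2)) = -(f * K) / ‖x‖ ^ 2 := by ring
  have h6 : (1 - δ') * (f * t) * (M / ‖x‖ ^ 2) = (1 - δ') * (f * t) * M / ‖x‖ ^ 2 := by ring
  rw [h5, h6]
  exact div_le_div_of_nonneg_right (h3.trans h4) (by positivity)

end

/-! ### Smoothness -/

section Smooth

variable {g h : TensorField} {x : E3}

theorem pit_smooth (hg : MetricOn {0}ᶜ g) (hh : TensorOn {0}ᶜ h) (hx : x ≠ 0) (i j : Fin 3) :
    ContDiffAt ℝ ∞ (fun y => pit g h y i j) x := by
  have ho : IsOpen ({0}ᶜ : Set E3) := isOpen_compl_singleton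
  have hx' : x ∈ ({0}ᶜ : Set E3) := hx
  exact ((hh.smooth i j).contDiffAt (ho.mem_nhds hx')).sub
    ((EEtaAux.cd_tr hg hh hx).mul ((hg.smooth i j).contDiffAt (ho.mem_nhds hx')))

theorem VV_smooth (hg : MetricOn {0}ᶜ g) (hh : TensorOn {0}ᶜ h) (hx : x ≠ 0) {η : ℝ}
    (hη : 0 < η) (i : Fin 3) : ContDiffAt ℝ ∞ (fun y => VV η g h y i) x := by
  have h1 : ContDiffAt ℝ ∞ (fun y => hatF η (trg g y (h y))) x :=
    (HATC.hatF_smooth hη).contDiffAt.comp x (EEtaAux.cd_tr hg hh hx)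
  exact h1.mul (ContDiffAt.sum fun j _ => (pit_smooth hg hh hx i j).mul (nu_smooth hx j))

theorem cont_jlen (hg : MetricOn {0}ᶜ g) (hh : TensorOn {0}ᶜ h) (hx : x ≠ 0) :
    ContinuousAt (jlen g h) x := by
  have ho : IsOpen ({0}ᶜ : Set E3) := isOpen_compl_singleton
  have hx' : x ∈ ({0}ᶜ : Set E3) := hx
  unfold jlen ev
  refine ContinuousAt.sqrt ?_
  refine tendsto_finsetSum _ fun i _ => tendsto_finsetSum _ fun j _ => ?_
  exact ((EEtaAux.cd_inv hg hx i j).continuousAt.mul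
    (MCF.mom_smooth ho hg hh hx' i).continuousAt).mul
    (MCF.mom_smooth ho hg hh hx' j).continuousAt

theorem ne_zero_of_mem {a b : ℝ} (ha : 0 < a) (hx : x ∈ cAnn a b) : x ≠ 0 := by
  rintro rfl
  have := hx.1
  rw [norm_zero] at this
  linarith

theorem integrable_cAnn {a b : ℝ} (ha : 0 < a) {F : E3 → ℝ}
    (hF : ∀ x : E3, x ≠ 0 → ContinuousAt F x) : IntegrableOn F (cAnn a b) :=
  ContinuousOn.integrableOn_compact (EEtaAux.isCompact_cAnn a b)
    fun _ hx => (hF _ (ne_zero_of_mem ha hx)).continuousWithinAt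

end Smooth

/-- the integral of `|x|⁻⁴` -/
theorem four : ∃ K : ℝ, 0 ≤ K ∧ ∀ b : ℝ, ∀ a : ℝ, 1 ≤ a →
    ∫ x in cAnn a b, (1 / ‖x‖) ^ 4 ≤ K := by
  have h1 : Integrable (fun x : E3 => (1 + ‖x‖) ^ (-(4 : ℝ))) := by
    apply integrable_one_add_norm
    rw [finrank_euclideanSpace]
    norm_num
  have h0 : ∀ x : E3, 0 ≤ (1 + ‖x‖) ^ (-(4 : ℝ)) := fun x => by positivity
  refine ⟨16 * ∫ x : E3, (1 + ‖x‖) ^ (-(4 : ℝ)),
    mul_nonneg (by norm_num) (integral_nonneg h0), fun b a ha => ?_⟩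
  have h2 : IntegrableOn (fun x : E3 => (1 / ‖x‖) ^ 4) (cAnn a b) :=
    integrable_cAnn (by linarith) fun x hx =>
      ((continuousAt_const.div continuousAt_id.norm (norm_ne_zero_iff.2 hx)).pow 4)
  have h3 : ∫ x in cAnn a b, (1 / ‖x‖) ^ 4 ≤ ∫ x in cAnn a b, 16 * (1 + ‖x‖) ^ (-(4 : ℝ)) := by
    refine setIntegral_mono_on h2 ((h1.const_mul 16).integrableOn)
      (EEtaAux.isCompact_cAnn a b).measurableSet fun x hx => ?_
    have hx1 : 1 ≤ ‖x‖ := ha.trans hx.1
    have h4 : (1 + ‖x‖) ^ (-(4 : ℝ)) = ((1 + ‖x‖) ^ 4)⁻¹ := by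
      rw [Real.rpow_neg (by positivity)]
      norm_cast
    rw [h4, div_pow, one_pow, ← div_eq_mul_inv, div_le_div_iff₀ (by positivity) (by positivity)]
    have h5 : (1 + ‖x‖) ^ 4 ≤ (2 * ‖x‖) ^ 4 := pow_le_pow_left₀ (by positivity) (by linarith) 4
    calc 1 * (1 + ‖x‖) ^ 4 = (1 + ‖x‖) ^ 4 := one_mul _
      _ ≤ (2 * ‖x‖) ^ 4 := h5
      _ = 16 * ‖x‖ ^ 4 := by ring
  refine h3.trans ?_
  rw [integral_const_mul]
  exact mul_le_mul_of_nonneg_left (setIntegral_le_integral h1 (Eventually.of_forall h0))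
    (by norm_num)

theorem int5 {μ : Measure E3} {f₁ f₂ f₃ f₄ : E3 → ℝ} (c₁ c₂ c₃ η : ℝ) (h1 : Integrable f₁ μ)
    (h2 : Integrable f₂ μ) (h3 : Integrable f₃ μ) (h4 : Integrable f₄ μ)
    (h6 : Integrable (fun _ => η) μ) :
    ∫ x, (c₁ * f₁ x + c₂ * f₂ x + c₃ * f₃ x - f₄ x + η) ∂μ =
      c₁ * (∫ x, f₁ x ∂μ) + c₂ * (∫ x, f₂ x ∂μ) + c₃ * (∫ x, f₃ x ∂μ) - (∫ x, f₄ x ∂μ)
        + ∫ _, η ∂μ := by
  have k1 := h1.const_mul c₁
  have k2 := h2.const_mul c₂
  have k3 := h3.const_mul c₃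
  have e1 := integral_add (f := fun x => c₁ * f₁ x + c₂ * f₂ x + c₃ * f₃ x - f₄ x)
    (g := fun _ => η) (((k1.add k2).add k3).sub h4) h6
  have e2 := integral_sub (f := fun x => c₁ * f₁ x + c₂ * f₂ x + c₃ * f₃ x) (g := f₄)
    ((k1.add k2).add k3) h4
  have e3 := integral_add (f := fun x => c₁ * f₁ x + c₂ * f₂ x) (g := fun x => c₃ * f₃ x)
    (k1.add k2) k3
  have e4 := integral_add (f := fun x => c₁ * f₁ x) (g := fun x => c₂ * f₂ x) k1 k2
  rw [e1, e2, e3, e4, integral_const_mul, integral_const_mul, integral_const_mul]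

end TINTm

open TINTm in
/-- TINT: the trace divided by the radius is integrable. -/
theorem TINT (hAFD : Stmt_AFD) (hHATA : Stmt_HATA) (hDIVG : Stmt_DIVG) (hJINT : Stmt_JINT) :
    Stmt_TINT := by
  intro g h hTE hDE hPS hFS
  have hg := hTE.metric
  have hh := hTE.tensor
  obtain ⟨C₀, hC₀, hdec, -, hell, -⟩ := hAFD g h hTE
  obtain ⟨CJ, hCJ⟩ := hJINT g h hTE hDE
  obtain ⟨K₄, hK₄0, hK₄⟩ := four
  obtain ⟨δ₀, R, hδ₀, hfar⟩ := hFS
  set C := max C₀ 1 with hC
  have hC1 : 1 ≤ C := le_max_right _ _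
  have hCC : C₀ ≤ C := le_max_left _ _
  set δ := min δ₀ 1 with hδ
  have hδ0 : 0 < δ := lt_min hδ₀ one_pos
  have hδ1 : δ ≤ 1 := min_le_right _ _
  have hδδ : δ ≤ δ₀ := min_le_left _ _
  set a := max R 1 with ha
  have ha1 : 1 ≤ a := le_max_right _ _
  have haR : R ≤ a := le_max_left _ _
  have ha0 : 0 < a := by linarith
  have ho : IsOpen ({0}ᶜ : Set E3) := isOpen_compl_singleton
  -- the bounds at a point
  have hHy : ∀ x : E3, 1 ≤ ‖x‖ → Hy C (1 / ‖x‖) g h x := by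
    intro x hx
    have hx0 : x ≠ 0 := by
      rintro rfl
      rw [norm_zero] at hx
      linarith
    have hn : 0 < ‖x‖ := by linarith
    have hx' : x ∈ ({0}ᶜ : Set E3) := hx0
    have hd := hdec x hx
    refine ⟨hC1, by positivity, ?_, MJD.pt_of ho hg hx', fun i j =>
      ((hh.smooth i j).contDiffAt (ho.mem_nhds hx')).differentiableAt (by norm_num), ?_, ?_, ?_,
      ?_, ?_⟩
    · rw [div_le_one hn]; exact hx
    · intro i j
      refine (hd i j).1.trans ?_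
      rw [mul_one_div]
      exact div_le_div_of_nonneg_right hCC hn.le
    · intro k i j
      refine ((hd i j).2.1 k).trans ?_
      rw [div_pow, one_pow, mul_one_div]
      exact div_le_div_of_nonneg_right hCC (by positivity)
    · intro i j
      refine ((hd i j).2.2.2.1).trans ?_
      rw [div_pow, one_pow, mul_one_div]
      exact div_le_div_of_nonneg_right hCC (by positivity)
    · intro k i j
      refine ((hd i j).2.2.2.2 k).trans ?_
      rw [div_pow, one_pow, mul_one_div]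
      exact div_le_div_of_nonneg_right hCC (by positivity)
    · intro i j
      exact (EShell.inv_entry (hg.posDef x hx') (fun v => (hell x hx v).1) i j).trans hCC
  -- the pointwise inequality
  have hpt : ∀ η : ℝ, 0 < η → ∀ x : E3, a ≤ ‖x‖ →
      δ * (hatF η (trg g x (h x)) * trg g x (h x) * (1 / ‖x‖)) ≤
        18 * C * jlen g h x + 351 * C ^ 2 * eEta η g h x + 3699 * C ^ 5 * (1 / ‖x‖) ^ 4
          - ∑ i, pd i (fun y => VV η g h y i) x := by
    intro η hη x hx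
    have hx1 : 1 ≤ ‖x‖ := ha1.trans hx
    have hx0 : x ≠ 0 := by
      rintro rfl
      rw [norm_zero] at hx1
      linarith
    have hx' : x ∈ ({0}ᶜ : Set E3) := hx0
    have hH := hHy x hx1
    obtain ⟨hf1, hf2⟩ := hfar x (haR.trans hx)
    have hev : 0 ≤ ev (g x) (fun i => x i) (fun i => x i) := by
      have h1 := (hell x hx1 (fun i => x i)).1
      have h2 : 0 ≤ ∑ i, (x i) ^ 2 := Finset.sum_nonneg fun i _ => sq_nonneg _
      by_contra hc
      rw [not_le] at hc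
      nlinarith
    have := hH.point (hg.posDef x hx') hx0 (HATC.nsq_le hHATA hg hh hPS hx0) hη hδ0.le hδ1 rfl
      (far hx0 hη hδδ hev hf1 hf2)
    linarith
  -- the area of the unit sphere
  set A := ((volume : Measure E3).toSphere).real Set.univ with hA
  have hA0 : 0 ≤ A := measureReal_nonneg
  -- boundary terms
  have hbd : ∀ η : ℝ, 0 < η → ∀ b : ℝ, 1 ≤ b →
      |∫ θ : Metric.sphere (0 : E3) 1, (∑ i, VV η g h (b • (θ : E3)) i * (θ : E3) i) * b ^ 2
        ∂((volume : Measure E3).toSphere)| ≤ 171 * C ^ 3 * A := by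
    intro η hη b hb
    rw [← Real.norm_eq_abs]
    refine norm_integral_le_of_norm_le_const (Eventually.of_forall fun θ => ?_)
    have hb0 : 0 < b := by linarith
    have hθ : ‖(θ : E3)‖ = 1 := mem_sphere_zero_iff_norm.1 θ.2
    have hθ0 : (θ : E3) ≠ 0 := by
      intro hc
      rw [hc, norm_zero] at hθ
      linarith
    have hnb : ‖b • (θ : E3)‖ = b := by
      rw [norm_smul, hθ, mul_one, Real.norm_of_nonneg hb0.le]
    have hne : b • (θ : E3) ≠ 0 := smul_ne_zero hb0.ne' hθ0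
    have hH := hHy (b • (θ : E3)) (by rw [hnb]; exact hb)
    rw [hnb] at hH
    have hθi : ∀ i, |(θ : E3) i| ≤ 1 := by
      intro i
      have := BARBm.n_le (BARBm.nu_sq hθ0) i
      unfold BARBm.nu at this
      rwa [hθ, div_one] at this
    rw [Real.norm_eq_abs]
    refine (BARBm.mul_le (BARBm.sum1_le fun i => BARBm.mul_le (hH.VV_le hne hη i) (hθi i))
      (le_refl |b ^ 2|)).trans (le_of_eq ?_)
    rw [abs_of_nonneg (by positivity : 0 ≤ b ^ 2)]
    field_simp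
    norm_num
  -- the constant
  set K := 18 * C * |CJ| + 3699 * C ^ 5 * K₄ + 342 * C ^ 3 * A with hK
  -- the integral inequality for fixed `η`
  have hint : ∀ b : ℝ, a ≤ b → ∀ η : ℝ, 0 < η →
      δ * ∫ x in cAnn a b, |trg g x (h x)| / ‖x‖ ≤
        K + 351 * C ^ 2 * (∫ x in cAnn a b, eEta η g h x) + η * (volume (cAnn a b)).toReal := by
    intro b hab η hη
    have hKc := EEtaAux.isCompact_cAnn a b
    have hms := hKc.measurableSet
    have hVc : ∀ i, ∀ x : E3, x ≠ 0 → ContinuousAt (pd i (fun y => VV η g h y i)) x :=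
      fun i x hx => EEtaAux.cont_pd (VV_smooth hg hh hx hη i) i
    have i1 : IntegrableOn (fun x => jlen g h x) (cAnn a b) :=
      integrable_cAnn ha0 fun x hx => cont_jlen hg hh hx
    have i2 : IntegrableOn (fun x => eEta η g h x) (cAnn a b) :=
      integrable_cAnn ha0 fun x hx => EEtaAux.cont_eEta hg hh hη hx
    have i3 : IntegrableOn (fun x : E3 => (1 / ‖x‖) ^ 4) (cAnn a b) :=
      integrable_cAnn ha0 fun x hx =>
        ((continuousAt_const.div continuousAt_id.norm (norm_ne_zero_iff.2 hx)).pow 4)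
    have i4 : IntegrableOn (fun x => ∑ i, pd i (fun y => VV η g h y i) x) (cAnn a b) :=
      integrable_cAnn ha0 fun x hx => tendsto_finsetSum _ fun i _ => hVc i x hx
    have i5 : IntegrableOn (fun x => |trg g x (h x)| / ‖x‖) (cAnn a b) :=
      integrable_cAnn ha0 fun x hx => (EEtaAux.cd_tr hg hh hx).continuousAt.abs.div
        continuousAt_id.norm (norm_ne_zero_iff.2 hx)
    have i6 : IntegrableOn (fun _ : E3 => η) (cAnn a b) := by
      exact integrableOn_const hKc.measure_lt_top.ne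
    have h1 : ∫ x in cAnn a b, δ * (|trg g x (h x)| / ‖x‖) ≤
        ∫ x in cAnn a b, (18 * C * jlen g h x + 351 * C ^ 2 * eEta η g h x
          + 3699 * C ^ 5 * (1 / ‖x‖) ^ 4 - ∑ i, pd i (fun y => VV η g h y i) x + η) := by
      refine setIntegral_mono_on (i5.const_mul δ) (((((i1.const_mul _).add (i2.const_mul _)).add
        (i3.const_mul _)).sub i4).add i6) hms fun x hx => ?_
      have h2 := hpt η hη x hx.1
      have h3 := abs_le_hat hη (trg g x (h x))
      have hx1 : 1 ≤ ‖x‖ := ha1.trans hx.1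
      have h4 : |trg g x (h x)| / ‖x‖ ≤
          hatF η (trg g x (h x)) * trg g x (h x) * (1 / ‖x‖) + η := by
        have h5 : |trg g x (h x)| / ‖x‖ ≤ (hatF η (trg g x (h x)) * trg g x (h x) + η) / ‖x‖ :=
          div_le_div_of_nonneg_right h3 (by positivity)
        have h6 : η / ‖x‖ ≤ η := div_le_self hη.le hx1
        have h7 : (hatF η (trg g x (h x)) * trg g x (h x) + η) / ‖x‖ =
          hatF η (trg g x (h x)) * trg g x (h x) * (1 / ‖x‖) + η / ‖x‖ := by ring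
        linarith
      have h8 := mul_le_mul_of_nonneg_left h4 hδ0.le
      have h9 : δ * η ≤ η := by nlinarith
      have h10 : δ * (hatF η (trg g x (h x)) * trg g x (h x) * (1 / ‖x‖) + η) =
        δ * (hatF η (trg g x (h x)) * trg g x (h x) * (1 / ‖x‖)) + δ * η := by ring
      linarith
    have e1 : ∫ x in cAnn a b, (18 * C * jlen g h x + 351 * C ^ 2 * eEta η g h x
          + 3699 * C ^ 5 * (1 / ‖x‖) ^ 4 - ∑ i, pd i (fun y => VV η g h y i) x + η) =
        18 * C * (∫ x in cAnn a b, jlen g h x) + 351 * C ^ 2 * (∫ x in cAnn a b, eEta η g h x)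
          + 3699 * C ^ 5 * (∫ x in cAnn a b, (1 / ‖x‖) ^ 4)
          - (∫ x in cAnn a b, ∑ i, pd i (fun y => VV η g h y i) x)
          + η * (volume (cAnn a b)).toReal := by
      rw [int5 _ _ _ η i1 i2 i3 i4 i6, setIntegral_const, smul_eq_mul, mul_comm _ η]
      rfl
    rw [integral_const_mul, e1] at h1
    -- the divergence
    have h2 := hDIVG (VV η g h) a b ha0 hab fun x hx i =>
      (VV_smooth hg hh (ne_zero_of_mem ha0 hx) hη i).of_le (by norm_num)
    have h3 := abs_le.1 (hbd η hη b (ha1.trans hab))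
    have h4 := abs_le.1 (hbd η hη a ha1)
    have h5 : -(∫ x in cAnn a b, ∑ i, pd i (fun y => VV η g h y i) x) ≤ 342 * C ^ 3 * A := by
      rw [h2]
      linarith [h3.1, h4.2]
    -- the momentum density
    have h6 : ∫ x in cAnn a b, jlen g h x ≤ |CJ| := by
      refine le_trans ?_ ((hCJ b (ha1.trans hab)).trans (le_abs_self _))
      refine setIntegral_mono_set ?_ ?_ ?_
      · exact integrable_cAnn one_pos fun x hx => cont_jlen hg hh hx
      · exact Eventually.of_forall fun x => Real.sqrt_nonneg _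
      · exact LE.le.eventuallyLE fun x hx => ⟨ha1.trans hx.1, hx.2⟩
    have h7 := hK₄ b a ha1
    have h8 := mul_le_mul_of_nonneg_left h6 (by positivity : 0 ≤ 18 * C)
    have h9 := mul_le_mul_of_nonneg_left h7 (by positivity : 0 ≤ 3699 * C ^ 5)
    rw [hK]
    linarith
  -- the limit `η → 0`
  have hbnd : ∀ b : ℝ, a ≤ b → ∫ x in cAnn a b, |trg g x (h x)| / ‖x‖ ≤ K / δ := by
    intro b hab
    have hKc := EEtaAux.isCompact_cAnn a b
    have hcont : ContinuousOn (fun y => len g y (grad (fun z => trg g z (h z)) y)) (cAnn a b) :=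
      fun x hx => (EEtaAux.cont_len hg hh (ne_zero_of_mem ha0 hx)).continuousWithinAt
    obtain ⟨B, hB⟩ := hKc.exists_bound_of_continuousOn hcont
    have hlim : Tendsto (fun n : ℕ => ∫ x in cAnn a b, eEta (1 / ((n : ℝ) + 1)) g h x)
        atTop (𝓝 (∫ x in cAnn a b, (0 : ℝ))) := by
      refine tendsto_integral_of_dominated_convergence (fun _ => (1 / 2 + 2 * |B|)) ?_ ?_ ?_ ?_
      · intro n
        have h1 : (0 : ℝ) < 1 / ((n : ℝ) + 1) := by positivity
        exact (integrable_cAnn ha0 fun x hx =>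
          EEtaAux.cont_eEta hg hh h1 hx).aestronglyMeasurable
      · have : IntegrableOn (fun _ : E3 => (1 / 2 + 2 * |B|)) (cAnn a b) volume :=
          integrableOn_const hKc.measure_lt_top.ne
        exact this
      · intro n
        rw [ae_restrict_iff' hKc.measurableSet]
        refine Eventually.of_forall fun x hx => ?_
        have h1 : (0 : ℝ) < 1 / ((n : ℝ) + 1) := by positivity
        have h2 : 1 / ((n : ℝ) + 1) ≤ 1 := by
          rw [div_le_one (by positivity)]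
          have : (0 : ℝ) ≤ n := Nat.cast_nonneg n
          linarith
        have h3 := EEtaAux.eEta_le (g := g) (h := h) h1 h2 x
        have h4 := hB x hx
        rw [Real.norm_eq_abs] at h4
        rw [Real.norm_eq_abs, abs_of_nonneg (EEtaAux.eEta_nonneg _ x)]
        have h5 := (le_abs_self _).trans (h4.trans (le_abs_self B))
        linarith
      · exact Eventually.of_forall fun x => EEtaAux.tendsto_eEta x
    rw [integral_zero] at hlim
    have h0 : Tendsto (fun n : ℕ => 1 / ((n : ℝ) + 1)) atTop (𝓝 0) :=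
      tendsto_one_div_add_atTop_nhds_zero_nat
    have hlim2 : Tendsto (fun n : ℕ => K
        + 351 * C ^ 2 * (∫ x in cAnn a b, eEta (1 / ((n : ℝ) + 1)) g h x)
        + 1 / ((n : ℝ) + 1) * (volume (cAnn a b)).toReal) atTop
        (𝓝 (K + 351 * C ^ 2 * 0 + 0 * (volume (cAnn a b)).toReal)) :=
      (tendsto_const_nhds.add (hlim.const_mul _)).add (h0.mul_const _)
    have h1 := ge_of_tendsto' hlim2 fun n => hint b hab _ (by positivity)
    rw [le_div_iff₀ hδ0]
    linarith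
  -- integrability
  have hcont : ∀ x : E3, x ≠ 0 → ContinuousAt (fun x => |trg g x (h x)| / ‖x‖) x :=
    fun x hx => (EEtaAux.cd_tr hg hh hx).continuousAt.abs.div
        continuousAt_id.norm (norm_ne_zero_iff.2 hx)
  have hI : IntegrableOn (fun x => |trg g x (h x)| / ‖x‖) {x : E3 | a ≤ ‖x‖} := by
    have hcov : AECover (volume.restrict {x : E3 | a ≤ ‖x‖}) atTop
        (fun n : ℕ => Metric.closedBall (0 : E3) (n : ℝ)) :=
      aecover_closedBall tendsto_natCast_atTop_atTop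
    have hset : ∀ n : ℕ, Metric.closedBall (0 : E3) (n : ℝ) ∩ {x : E3 | a ≤ ‖x‖} =
        cAnn a n := by
      intro n
      ext x
      simp only [cAnn, Set.mem_inter_iff, Metric.mem_closedBall, dist_zero_right]
      exact and_comm
    have hres : ∀ n : ℕ, (volume.restrict {x : E3 | a ≤ ‖x‖}).restrict
        (Metric.closedBall (0 : E3) (n : ℝ)) = volume.restrict (cAnn a n) := by
      intro n
      rw [Measure.restrict_restrict Metric.isClosed_closedBall.measurableSet, hset]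
    refine hcov.integrable_of_integral_bounded_of_nonneg_ae (K / δ) ?_ ?_ ?_
    · intro n
      unfold IntegrableOn
      rw [hres]
      exact integrable_cAnn ha0 hcont
    · exact Eventually.of_forall fun x => by positivity
    · filter_upwards [eventually_ge_atTop ⌈a⌉₊] with n hn
      rw [hres]
      exact hbnd n ((Nat.le_ceil a).trans (by exact_mod_cast hn))
  have hI2 : IntegrableOn (fun x => |trg g x (h x)| / ‖x‖) (cAnn 1 a) :=
    integrable_cAnn one_pos hcont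
  refine (hI2.union hI).mono_set fun x hx => ?_
  rcases le_total ‖x‖ a with h1 | h1
  · exact Or.inl ⟨hx, h1⟩
  · exact Or.inr h1

end Pool.Agent.PFlow
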