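import Pool.Agent.PFlow.StmtsE5
import Pool.Agent.PFlow.M_JD
import Pool.Agent.PFlow.E.AFD
import Pool.Agent.PFlow.E.EETA
import Pool.Agent.PFlow.E.SHELL
import Pool.Agent.PFlow.E.BARB
import Pool.Agent.PFlow.E.HSM2

/-!
# Module TRD: competitors in the trace-dominated case
-/

open MeasureTheory Filter Topology
open scoped ContDiff ENNReal

namespace Pool.Agent.PFlow

open Pool.Agent.PenroseSph

namespace TRDm

/-! ### The tensor `(tr h / 3) g` at a point -/

theorem tt_apply (g h : TensorField) (x : E3) (i j : Fin 3) :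
    traceTensor g h x i j = trg g x (h x) / 3 * g x i j := by
  unfold traceTensor
  rw [Matrix.smul_apply, smul_eq_mul]

theorem trg_g {g : TensorField} {x : E3} (h : MJD.Pt g x) : trg g x (g x) = 3 := by
  unfold trg
  have h1 : ∀ i, ∑ j, (g x)⁻¹ i j * g x i j = 1 := by
    intro i
    have h2 := h.inv_mul i i
    rw [if_pos rfl] at h2
    rw [← h2]
    refine Finset.sum_congr rfl fun j _ => ?_
    rw [h.g_symm i j]
  rw [Finset.sum_congr rfl fun i _ => h1 i]
  simp

theorem nsq_g {g : TensorField} {x : E3} (h : MJD.Pt g x) : nsq g x (g x) = 3 := by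
  have h1 : nsq g x (g x) = ∑ i, ∑ j, (g x)⁻¹ i j * g x i j := by
    unfold nsq
    refine Finset.sum_congr rfl fun i _ => ?_
    have h2 : ∀ j, ∑ k, ∑ l, (g x)⁻¹ i k * (g x)⁻¹ j l * g x i j * g x k l =
        ∑ l, (∑ k, (g x)⁻¹ i k * g x k l) * ((g x)⁻¹ j l * g x i j) := by
      intro j
      rw [Finset.sum_comm]
      refine Finset.sum_congr rfl fun l _ => ?_
      rw [Finset.sum_mul]
      refine Finset.sum_congr rfl fun k _ => ?_
      ring
    rw [Finset.sum_congr rfl fun j _ => h2 j]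
    simp only [h.inv_mul]
    refine Finset.sum_congr rfl fun j _ => ?_
    rw [Finset.sum_eq_single i]
    · rw [if_pos rfl, one_mul, h.inv_symm j i]
    · intro l _ hl
      rw [if_neg (Ne.symm hl), zero_mul]
    · simp
  rw [h1]
  exact trg_g h

theorem trg_tt {g : TensorField} (h : TensorField) {x : E3} (hp : MJD.Pt g x) :
    trg g x (traceTensor g h x) = trg g x (h x) := by
  unfold traceTensor
  rw [EShell.trg_smul, trg_g hp]
  ring

theorem nsq_tt {g : TensorField} (h : TensorField) {x : E3} (hp : MJD.Pt g x) :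
    nsq g x (traceTensor g h x) = trg g x (h x) ^ 2 / 3 := by
  unfold traceTensor
  rw [EShell.nsq_smul, nsq_g hp]
  ring

theorem ev_tt (g h : TensorField) (x : E3) (v w : Cov) :
    ev (traceTensor g h x) v w = trg g x (h x) / 3 * ev (g x) v w := by
  unfold ev
  rw [Finset.mul_sum]
  refine Finset.sum_congr rfl fun i _ => ?_
  rw [Finset.mul_sum]
  refine Finset.sum_congr rfl fun j _ => ?_
  rw [tt_apply]
  ring

theorem pd_mul' {f k : E3 → ℝ} {x : E3} (hf : DifferentiableAt ℝ f x)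
    (hk : DifferentiableAt ℝ k x) (i : Fin 3) :
    pd i (fun y => f y * k y) x = f x * pd i k x + pd i f x * k x := by
  unfold pd
  rw [fderiv_fun_mul hf hk]
  simp
  ring

theorem diff_div3 {f : E3 → ℝ} {x : E3} (hf : DifferentiableAt ℝ f x) :
    DifferentiableAt ℝ (fun y => f y / 3) x := by
  simp only [div_eq_mul_inv]
  exact hf.mul_const _

theorem pd_div3 {f : E3 → ℝ} {x : E3} (hf : DifferentiableAt ℝ f x) (i : Fin 3) :
    pd i (fun y => f y / 3) x = pd i f x / 3 := by
  have h1 : (fun y => f y / 3) = fun y => f y * 3⁻¹ := by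
    funext y
    rw [div_eq_mul_inv]
  rw [h1, pd_mul' hf (differentiableAt_const _)]
  unfold pd
  simp
  ring

theorem pd_tt {g h : TensorField} {x : E3} (hg : ∀ i j, DifferentiableAt ℝ (fun y => g y i j) x)
    (ht : DifferentiableAt ℝ (fun y => trg g y (h y)) x) (k i j : Fin 3) :
    pd k (fun y => traceTensor g h y i j) x =
      trg g x (h x) / 3 * pd k (fun y => g y i j) x
        + pd k (fun y => trg g y (h y)) x / 3 * g x i j := by
  have h1 : (fun y => traceTensor g h y i j) = fun y => trg g y (h y) / 3 * g y i j := by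
    funext y
    exact tt_apply g h y i j
  rw [h1, pd_mul' (diff_div3 ht) (hg i j), pd_div3 ht]

/-- The covariant derivative. -/
theorem cov_tt {g h : TensorField} {x : E3} (hp : MJD.Pt g x)
    (ht : DifferentiableAt ℝ (fun y => trg g y (h y)) x) (k i j : Fin 3) :
    covDeriv g (traceTensor g h) k i j x = pd k (fun y => trg g y (h y)) x / 3 * g x i j := by
  unfold covDeriv
  rw [pd_tt hp.diff ht, hp.pd_g]
  simp only [tt_apply, Fin.sum_univ_three]
  rw [hp.g_symm j 0, hp.g_symm j 1, hp.g_symm j 2]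
  ring

/-- The momentum density. -/
theorem mom_tt {g h : TensorField} {x : E3} (hp : MJD.Pt g x)
    (htr : ∀ᶠ y in 𝓝 x, MJD.Pt g y)
    (ht : DifferentiableAt ℝ (fun y => trg g y (h y)) x) (j : Fin 3) :
    momentumDensity g (traceTensor g h) j x = -(2 / 3) * pd j (fun y => trg g y (h y)) x := by
  have hB : ∀ i j, DifferentiableAt ℝ (fun y => traceTensor g h y i j) x := by
    intro i j
    have h1 : (fun y => traceTensor g h y i j) = fun y => trg g y (h y) / 3 * g y i j := by
      funext y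
      exact tt_apply g h y i j
    rw [h1]
    exact (diff_div3 ht).mul (hp.diff i j)
  rw [hp.mom _ hB]
  have h2 : pd j (fun y => trg g y (traceTensor g h y)) x = pd j (fun y => trg g y (h y)) x := by
    unfold pd
    have h3 : (fun y => trg g y (traceTensor g h y)) =ᶠ[𝓝 x] fun y => trg g y (h y) := by
      filter_upwards [htr] with y hy
      exact trg_tt h hy
    rw [h3.fderiv_eq]
  rw [h2]
  have h4 : ∑ i, ∑ k, (g x)⁻¹ i k * covDeriv g (traceTensor g h) k i j x =
      ∑ k, pd k (fun y => trg g y (h y)) x / 3 * ∑ i, (g x)⁻¹ k i * g x i j := by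
    rw [Finset.sum_comm]
    refine Finset.sum_congr rfl fun k _ => ?_
    rw [Finset.mul_sum]
    refine Finset.sum_congr rfl fun i _ => ?_
    rw [cov_tt hp ht, hp.inv_symm i k]
    ring
  rw [h4]
  simp only [hp.inv_mul]
  rw [Finset.sum_eq_single j]
  · rw [if_pos rfl]
    ring
  · intro k _ hk
    rw [if_neg hk, mul_zero]
  · simp

theorem jlen_tt {g h : TensorField} {x : E3} (hp : MJD.Pt g x)
    (htr : ∀ᶠ y in 𝓝 x, MJD.Pt g y)
    (ht : DifferentiableAt ℝ (fun y => trg g y (h y)) x) :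
    jlen g (traceTensor g h) x = 2 / 3 * len g x (grad (fun y => trg g y (h y)) x) := by
  unfold jlen len
  have h1 : (fun i => momentumDensity g (traceTensor g h) i x) =
      fun i => -(2 / 3) * grad (fun y => trg g y (h y)) x i := by
    funext i
    exact mom_tt hp htr ht i
  rw [h1]
  have h2 : ev (g x)⁻¹ (fun i => -(2 / 3) * grad (fun y => trg g y (h y)) x i)
      (fun i => -(2 / 3) * grad (fun y => trg g y (h y)) x i) =
      (2 / 3) ^ 2 * ev (g x)⁻¹ (grad (fun y => trg g y (h y)) x)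
        (grad (fun y => trg g y (h y)) x) := by
    unfold ev
    rw [Finset.mul_sum]
    refine Finset.sum_congr rfl fun i _ => ?_
    rw [Finset.mul_sum]
    refine Finset.sum_congr rfl fun j _ => ?_
    ring
  rw [h2, Real.sqrt_mul (by norm_num), Real.sqrt_sq (by norm_num)]

/-! ### Bounds -/

open BARBm in
theorem chr_le {g : TensorField} {x : E3} {C a : ℝ} (hinv : ∀ i j, |(g x)⁻¹ i j| ≤ C)
    (hd : ∀ k i j, |pd k (fun y => g y i j) x| ≤ a) (k i j : Fin 3) :
    |christoffel g k i j x| ≤ 9 / 2 * (C * a) := by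
  unfold christoffel
  have h1 : ∀ l, |(g x)⁻¹ k l * (pd i (fun y => g y j l) x + pd j (fun y => g y i l) x
      - pd l (fun y => g y i j) x)| ≤ C * (a + a + a) := fun l =>
    mul_le (hinv k l) (sub_le (add_le (hd i j l) (hd j i l)) (hd l i j))
  have h2 := sum1_le h1
  have h3 : |(1 / 2 : ℝ)| ≤ 1 / 2 := by rw [abs_of_pos (by norm_num)]
  refine (mul_le h3 h2).trans (le_of_eq ?_)
  ring

open BARBm in
theorem cov_le {g h : TensorField} {x : E3} {C a b c : ℝ} (hinv : ∀ i j, |(g x)⁻¹ i j| ≤ C)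
    (hd : ∀ k i j, |pd k (fun y => g y i j) x| ≤ a)
    (hh : ∀ i j, |h x i j| ≤ c) (hdh : ∀ k i j, |pd k (fun y => h y i j) x| ≤ b)
    (k i j : Fin 3) : |covDeriv g h k i j x| ≤ b + 27 * (C * a * c) := by
  unfold covDeriv
  have h1 : ∀ l, |christoffel g l k i x * h x l j + christoffel g l k j x * h x i l| ≤
      9 / 2 * (C * a) * c + 9 / 2 * (C * a) * c := fun l =>
    add_le (mul_le (chr_le hinv hd l k i) (hh l j)) (mul_le (chr_le hinv hd l k j) (hh i l))
  refine (sub_le (hdh k i j) (sum1_le h1)).trans (le_of_eq ?_)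
  ring

open BARBm in
theorem pd_tr_le {g h : TensorField} {x : E3} {C a b c : ℝ} (hp : MJD.Pt g x)
    (hhd : ∀ i j, DifferentiableAt ℝ (fun y => h y i j) x)
    (hinv : ∀ i j, |(g x)⁻¹ i j| ≤ C)
    (hd : ∀ k i j, |pd k (fun y => g y i j) x| ≤ a)
    (hh : ∀ i j, |h x i j| ≤ c) (hdh : ∀ k i j, |pd k (fun y => h y i j) x| ≤ b)
    (k : Fin 3) : |pd k (fun y => trg g y (h y)) x| ≤ 9 * (C * (b + 27 * (C * a * c))) := by
  rw [hp.pd_tr h hhd]
  exact sum2_le fun i j => mul_le (hinv i j) (cov_le hinv hd hh hdh k i j)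

open BARBm in
/-- The decay of `(tr h / 3) g`. -/
theorem decay_tt {g h : TensorField} {C : ℝ} (hg : MetricOn {0}ᶜ g) (hh : TensorOn {0}ᶜ h)
    (hC : 0 < C) (hd : DecayFrom C 1 g h)
    (he : ∀ x : E3, 1 ≤ ‖x‖ → ∀ v : Cov, (∑ i, v i ^ 2) ≤ C * ev (g x) v v) :
    ∃ C' : ℝ, DecayFrom C' 1 g (traceTensor g h) := by
  refine ⟨C + 3 * C ^ 2 * (1 + C) + 3 * C * (C + 27 * C ^ 3) * (1 + C) + 3 * C ^ 3, ?_⟩
  set K : ℝ := C + 3 * C ^ 2 * (1 + C) + 3 * C * (C + 27 * C ^ 3) * (1 + C) + 3 * C ^ 3 with hK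
  have hKC : C ≤ K := by
    have : 0 ≤ 3 * C ^ 2 * (1 + C) + 3 * C * (C + 27 * C ^ 3) * (1 + C) + 3 * C ^ 3 := by
      positivity
    linarith
  intro x hx i j
  have hx0 : x ≠ 0 := by
    rintro rfl
    rw [norm_zero] at hx
    linarith
  have hU : ({0}ᶜ : Set E3) ∈ 𝓝 x := isOpen_compl_singleton.mem_nhds hx0
  have hp : MJD.Pt g x := MJD.pt_of isOpen_compl_singleton hg hx0
  have hr : 0 < ‖x‖ := by linarith
  obtain ⟨a, ha⟩ : ∃ a : ℝ, a = ‖x‖⁻¹ := ⟨_, rfl⟩
  have ha0 : 0 < a := by rw [ha]; positivity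
  have ha1 : a ≤ 1 := by rw [ha]; exact inv_le_one_of_one_le₀ hx
  have hd' := fun i j => hd x hx i j
  have e1 : ∀ M : ℝ, M / ‖x‖ = M * a := fun M => by rw [ha, div_eq_mul_inv]
  have e2 : ∀ M : ℝ, M / ‖x‖ ^ 2 = M * a ^ 2 := fun M => by rw [ha, div_eq_mul_inv, inv_pow]
  have e3 : ∀ M : ℝ, M / ‖x‖ ^ 3 = M * a ^ 3 := fun M => by rw [ha, div_eq_mul_inv, inv_pow]
  simp only [e1, e2, e3] at hd' ⊢
  have hinv : ∀ i j, |(g x)⁻¹ i j| ≤ C := fun i j =>
    EShell.inv_entry (hg.posDef x hx0) (he x hx) i j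
  have hgb : ∀ i j, |g x i j| ≤ 1 + C := by
    intro i j
    have h1 := (hd' i j).1
    have h2 : |(1 : Bil) i j| ≤ 1 := by
      rw [Matrix.one_apply]
      split_ifs <;> simp
    have h3 : g x i j = (1 : Bil) i j + (g x i j - (1 : Bil) i j) := by ring
    rw [h3]
    refine (add_le h2 h1).trans ?_
    have : C * a ≤ C * 1 := mul_le_mul_of_nonneg_left ha1 hC.le
    linarith
  have hdg : ∀ k i j, |pd k (fun y => g y i j) x| ≤ C * a ^ 2 := fun k i j => (hd' i j).2.1 k
  have hhb : ∀ i j, |h x i j| ≤ C * a ^ 2 := fun i j => (hd' i j).2.2.2.1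
  have hdh : ∀ k i j, |pd k (fun y => h y i j) x| ≤ C * a ^ 3 := fun k i j => (hd' i j).2.2.2.2 k
  have hhd : ∀ i j, DifferentiableAt ℝ (fun y => h y i j) x := fun i j =>
    ((hh.smooth i j).contDiffAt hU).differentiableAt (by simp)
  have htd : DifferentiableAt ℝ (fun y => trg g y (h y)) x := MJD.diffTr hp h hhd
  have ht : |trg g x (h x)| ≤ 9 * (C * (C * a ^ 2)) :=
    sum2_le fun i j => mul_le (hinv i j) (hhb i j)
  have ha4 : a ^ 4 ≤ a ^ 3 := by
    calc a ^ 4 = a ^ 3 * a := by ring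
      _ ≤ a ^ 3 * 1 := mul_le_mul_of_nonneg_left ha1 (by positivity)
      _ = a ^ 3 := by ring
  have hdt : ∀ k, |pd k (fun y => trg g y (h y)) x| ≤ 9 * C * (C + 27 * C ^ 3) * a ^ 3 := by
    intro k
    refine (pd_tr_le hp hhd hinv hdg hhb hdh k).trans ?_
    have h1 : 27 * C ^ 3 * a ^ 4 ≤ 27 * C ^ 3 * a ^ 3 :=
      mul_le_mul_of_nonneg_left ha4 (by positivity)
    calc 9 * (C * (C * a ^ 3 + 27 * (C * (C * a ^ 2) * (C * a ^ 2))))
        = 9 * C * (C * a ^ 3 + 27 * C ^ 3 * a ^ 4) := by ring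
      _ ≤ 9 * C * (C * a ^ 3 + 27 * C ^ 3 * a ^ 3) := by gcongr
      _ = 9 * C * (C + 27 * C ^ 3) * a ^ 3 := by ring
  refine ⟨(hd' i j).1.trans (by gcongr), fun k => ((hd' i j).2.1 k).trans (by gcongr),
    fun k l => ((hd' i j).2.2.1 k l).trans (by gcongr), ?_, fun k => ?_⟩
  · rw [tt_apply]
    have h1 : |trg g x (h x) / 3| ≤ 3 * C ^ 2 * a ^ 2 := by
      rw [abs_div, abs_of_pos (by norm_num : (0 : ℝ) < 3), div_le_iff₀ (by norm_num)]
      refine ht.trans (le_of_eq ?_)
      ring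
    refine (mul_le h1 (hgb i j)).trans ?_
    have h2 : 3 * C ^ 2 * (1 + C) ≤ K := by
      have : 0 ≤ C + 3 * C * (C + 27 * C ^ 3) * (1 + C) + 3 * C ^ 3 := by positivity
      linarith
    calc 3 * C ^ 2 * a ^ 2 * (1 + C) = 3 * C ^ 2 * (1 + C) * a ^ 2 := by ring
      _ ≤ K * a ^ 2 := by gcongr
  · rw [pd_tt hp.diff htd]
    have h1 : |trg g x (h x) / 3| ≤ 3 * C ^ 2 * a ^ 2 := by
      rw [abs_div, abs_of_pos (by norm_num : (0 : ℝ) < 3), div_le_iff₀ (by norm_num)]
      refine ht.trans (le_of_eq ?_)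
      ring
    have h2 : |pd k (fun y => trg g y (h y)) x / 3| ≤ 3 * C * (C + 27 * C ^ 3) * a ^ 3 := by
      rw [abs_div, abs_of_pos (by norm_num : (0 : ℝ) < 3), div_le_iff₀ (by norm_num)]
      refine (hdt k).trans (le_of_eq ?_)
      ring
    refine (add_le (mul_le h1 (hdg k i j)) (mul_le h2 (hgb i j))).trans ?_
    have h3 : 3 * C ^ 3 * a ^ 4 ≤ 3 * C ^ 3 * a ^ 3 :=
      mul_le_mul_of_nonneg_left ha4 (by positivity)
    have h4 : 3 * C ^ 3 + 3 * C * (C + 27 * C ^ 3) * (1 + C) ≤ K := by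
      have : 0 ≤ C + 3 * C ^ 2 * (1 + C) := by positivity
      linarith
    calc 3 * C ^ 2 * a ^ 2 * (C * a ^ 2) + 3 * C * (C + 27 * C ^ 3) * a ^ 3 * (1 + C)
        = 3 * C ^ 3 * a ^ 4 + 3 * C * (C + 27 * C ^ 3) * (1 + C) * a ^ 3 := by ring
      _ ≤ 3 * C ^ 3 * a ^ 3 + 3 * C * (C + 27 * C ^ 3) * (1 + C) * a ^ 3 := by linarith
      _ = (3 * C ^ 3 + 3 * C * (C + 27 * C ^ 3) * (1 + C)) * a ^ 3 := by ring
      _ ≤ K * a ^ 3 := by gcongr

/-! ### The inversion -/

theorem trg_trace (g : TensorField) (x : E3) (B : Bil) :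
    trg g x B = ((g x)⁻¹ * B.transpose).trace := by
  unfold trg Matrix.trace
  refine Finset.sum_congr rfl fun i _ => ?_
  rw [Matrix.diag_apply, Matrix.mul_apply]
  rfl

theorem trg_inverted (g h : TensorField) {y : E3} (hy : y ≠ 0) :
    trg (inverted g) y (inverted h y) = trg g (inversion y) (h (inversion y)) := by
  rw [trg_trace, trg_trace]
  have hJ := HSM2.jac_unit y hy
  have hJt : IsUnit (inversionJac y).transpose.det := by rwa [Matrix.det_transpose]
  unfold inverted
  rw [Matrix.mul_inv_rev, Matrix.mul_inv_rev, Matrix.transpose_mul, Matrix.transpose_mul,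
    Matrix.transpose_transpose]
  calc ((inversionJac y)⁻¹ * ((g (inversion y))⁻¹ * (inversionJac y).transpose⁻¹) *
        ((inversionJac y).transpose * ((h (inversion y)).transpose * inversionJac y))).trace
      = ((inversionJac y)⁻¹ * ((g (inversion y))⁻¹ * (((inversionJac y).transpose⁻¹ *
        (inversionJac y).transpose) * (h (inversion y)).transpose) * inversionJac y)).trace := by
        simp only [Matrix.mul_assoc]
    _ = ((inversionJac y)⁻¹ * ((g (inversion y))⁻¹ * (h (inversion y)).transpose *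
        inversionJac y)).trace := by
        rw [Matrix.nonsing_inv_mul _ hJt, Matrix.one_mul]
    _ = ((g (inversion y))⁻¹ * (h (inversion y)).transpose * inversionJac y *
        (inversionJac y)⁻¹).trace := by
        rw [Matrix.trace_mul_comm]
    _ = ((g (inversion y))⁻¹ * (h (inversion y)).transpose).trace := by
        rw [Matrix.mul_assoc _ (inversionJac y) _, Matrix.mul_nonsing_inv _ hJ, Matrix.mul_one]

theorem inverted_tt (g h : TensorField) {y : E3} (hy : y ≠ 0) :
    inverted (traceTensor g h) y = traceTensor (inverted g) (inverted h) y := by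
  have h1 : traceTensor (inverted g) (inverted h) y =
      (trg (inverted g) y (inverted h y) / 3) • inverted g y := rfl
  rw [h1, trg_inverted g h hy]
  unfold inverted traceTensor
  rw [Matrix.mul_smul, Matrix.smul_mul]

theorem decay_congr {g h h' : TensorField} {C : ℝ} (hd : DecayFrom C 1 g h)
    (he : ∀ x : E3, x ≠ 0 → h' x = h x) : DecayFrom C 1 g h' := by
  intro x hx i j
  have hx0 : x ≠ 0 := by
    rintro rfl
    rw [norm_zero] at hx
    linarith
  obtain ⟨h1, h2, h3, h4, h5⟩ := hd x hx i j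
  refine ⟨h1, h2, h3, ?_, ?_⟩
  · rw [he x hx0]
    exact h4
  · intro k
    have h6 : (fun y => h' y i j) =ᶠ[𝓝 x] fun y => h y i j := by
      filter_upwards [isOpen_compl_singleton.mem_nhds hx0] with y hy
      rw [he y hy]
    unfold pd
    rw [h6.fderiv_eq]
    exact h5 k

end TRDm

open TRDm in
theorem TRD (hAFD : Stmt_AFD) : Stmt_TRD := by
  intro g h hT hdom
  obtain ⟨C, hC, hd1, hd2, he1, he2⟩ := hAFD g h hT
  have hg := hT.metric
  have hh := hT.tensor
  have hpt : ∀ x : E3, x ≠ 0 → MJD.Pt g x := fun x hx =>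
    MJD.pt_of isOpen_compl_singleton hg hx
  have hev : ∀ x : E3, x ≠ 0 → ∀ v : Cov, 0 ≤ ev (g x) v v := by
    intro x hx v
    by_cases hv : v = 0
    · subst hv
      simp [ev]
    · exact (AFDaux.ev_posDef (hg.posDef x hx) hv).le
  constructor
  · constructor
    · intro i j
      have h1 : (fun x => traceTensor g h x i j) = fun x => trg g x (h x) / 3 * g x i j := by
        funext x
        exact tt_apply g h x i j
      rw [h1]
      intro x hx
      have h2 : ContDiffAt ℝ ∞ (fun y => trg g y (h y)) x := EEtaAux.cd_tr hg hh hx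
      exact ((h2.div_const (3 : ℝ)).contDiffWithinAt).mul (hg.smooth i j x hx)
    · intro x hx
      have h1 : (g x).IsSymm := (hpt x hx).symm.self_of_nhds
      unfold traceTensor
      exact h1.smul _
  · obtain ⟨C', hC'⟩ := decay_tt hg hh hC hd1 fun x hx v => (he1 x hx v).1
    exact ⟨C', 1, hC'⟩
  · obtain ⟨C', hC'⟩ := decay_tt (AFDaux.inverted_metric hg) (AFDaux.inverted_tensor hh) hC hd2
      fun x hx v => (he2 x hx v).1
    exact ⟨C', 1, decay_congr hC' fun x hx => inverted_tt g h hx⟩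
  · intro x hx
    rw [trg_tt h (hpt x hx)]
    rcases le_total 0 (trg g x (h x)) with h0 | h0
    · left
      intro v hv
      rw [ev_tt, hv]
      linarith
    · right
      intro v hv
      rw [ev_tt, hv]
      linarith
  · left
    refine ⟨2 / 3, 1, by norm_num, ?_⟩
    intro x hx
    have hx0 : x ≠ 0 := by
      rintro rfl
      rw [norm_zero] at hx
      linarith
    rw [trg_tt h (hpt x hx0), ev_tt]
    have hE := hev x hx0 (fun i => x i)
    constructor
    · intro h0
      have := mul_nonneg h0 hE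
      nlinarith
    · intro h0
      have := mul_nonneg (neg_nonneg.2 h0) hE
      nlinarith
  · intro x hx
    have hp := hpt x hx
    have htd : DifferentiableAt ℝ (fun y => trg g y (h y)) x :=
      (EEtaAux.cd_tr hg hh hx).differentiableAt (by simp)
    have hev' : ∀ᶠ y in 𝓝 x, MJD.Pt g y := by
      filter_upwards [isOpen_compl_singleton.mem_nhds hx] with y hy
      exact hpt y hy
    unfold required
    rw [nsq_tt h hp, trg_tt h hp, jlen_tt hp hev' htd]
    have h1 := hdom x hx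
    linarith

end Pool.Agent.PFlow
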