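import Pool.Agent.PFlow.StmtsE3

/-!
# Module XWO: the cubic integral over the outer windows
-/

open MeasureTheory Filter Topology
open scoped ContDiff ENNReal

namespace Pool.Agent.PFlow

open Pool.Agent.PenroseSph

namespace XWOm

/-! ## The flat metric -/

lemma isOpen_Ann (a b : ℝ) : IsOpen (Ann a b) :=
  (isOpen_lt continuous_const continuous_norm).inter (isOpen_lt continuous_norm continuous_const)

lemma christoffel_flat {g : TensorField} {x : E3} (h : ∀ᶠ y in 𝓝 x, g y = 1) (k i j : Fin 3) :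
    christoffel g k i j x = 0 := by
  have h1 : ∀ a b c : Fin 3, pd c (fun y => g y a b) x = 0 := by
    intro a b c
    have h2 : (fun y => g y a b) =ᶠ[𝓝 x] fun _ => (1 : Bil) a b := by
      filter_upwards [h] with y hy
      rw [hy]
    unfold pd
    rw [h2.fderiv_eq]
    simp
  simp [christoffel, h1]

lemma cHess_flat {g : TensorField} {x : E3} (h : ∀ᶠ y in 𝓝 x, g y = 1) (p : Cov) (M : Bil) :
    cHess g x p M = M := by
  ext i j
  simp [cHess, christoffel_flat h]

lemma len_flat {g : TensorField} {x : E3} (h : g x = 1) (p : Cov) : len g x p = vsz p := by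
  simp only [len, vsz, h, inv_one, ev]
  congr 1
  refine Finset.sum_congr rfl fun i _ => ?_
  rw [Finset.sum_eq_single i]
  · rw [Matrix.one_apply_eq]
    ring
  · intro j _ hj
    rw [Matrix.one_apply_ne (Ne.symm hj)]
    ring
  · intro h
    exact absurd (Finset.mem_univ i) h

lemma volDen_flat {g : TensorField} {x : E3} (h : g x = 1) : volDen g x = 1 := by
  simp [volDen, h]

lemma trg_flat {g : TensorField} {x : E3} (h : g x = 1) (B : Bil) : trg g x B = ∑ i, B i i := by
  simp only [trg, h, inv_one]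
  refine Finset.sum_congr rfl fun i _ => ?_
  rw [Finset.sum_eq_single i]
  · rw [Matrix.one_apply_eq, one_mul]
  · intro j _ hj
    rw [Matrix.one_apply_ne (Ne.symm hj), zero_mul]
  · intro h
    exact absurd (Finset.mem_univ i) h

lemma raise_flat {g : TensorField} {x : E3} (h : g x = 1) (p : Cov) : raise g x p = p := by
  funext i
  simp only [raise, h, inv_one]
  rw [Finset.sum_eq_single i]
  · rw [Matrix.one_apply_eq, one_mul]
  · intro j _ hj
    rw [Matrix.one_apply_ne (Ne.symm hj), zero_mul]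
  · intro h
    exact absurd (Finset.mem_univ i) h

lemma vsz_sq (p : Cov) : vsz p ^ 2 = ∑ i, p i ^ 2 :=
  Real.sq_sqrt (Finset.sum_nonneg fun i _ => sq_nonneg _)

lemma msz_sq (B : Bil) : msz B ^ 2 = ∑ i, ∑ j, B i j ^ 2 :=
  Real.sq_sqrt (Finset.sum_nonneg fun i _ => Finset.sum_nonneg fun j _ => sq_nonneg _)

lemma vsz_nonneg (p : Cov) : 0 ≤ vsz p := Real.sqrt_nonneg _

lemma msz_nonneg (B : Bil) : 0 ≤ msz B := Real.sqrt_nonneg _

lemma vsz_pos {p : Cov} (h : p ≠ 0) : 0 < vsz p := by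
  apply Real.sqrt_pos.mpr
  by_contra h1
  apply h
  have h2 : ∑ i, p i ^ 2 = 0 :=
    le_antisymm (not_lt.mp h1) (Finset.sum_nonneg fun i _ => sq_nonneg _)
  rw [Finset.sum_eq_zero_iff_of_nonneg (fun i _ => sq_nonneg _)] at h2
  funext i
  have h3 := h2 i (Finset.mem_univ i)
  exact pow_eq_zero_iff (two_ne_zero) |>.mp h3

lemma vsz_smul (c : ℝ) (p : Cov) : vsz (fun i => c * p i) = |c| * vsz p := by
  have h1 : ∑ i, (c * p i) ^ 2 = c ^ 2 * ∑ i, p i ^ 2 := by
    rw [Finset.mul_sum]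
    exact Finset.sum_congr rfl fun i _ => by ring
  simp only [vsz]
  rw [h1, Real.sqrt_mul (sq_nonneg c), Real.sqrt_sq_eq_abs]

/-- Cauchy-Schwarz. -/
lemma abs_ev_le (B : Bil) (n : Cov) (hn : ∑ i, n i ^ 2 = 1) : |ev B n n| ≤ msz B := by
  have h1 : ev B n n = ∑ i, n i * ∑ j, B i j * n j := by
    simp only [ev]
    refine Finset.sum_congr rfl fun i _ => ?_
    rw [Finset.mul_sum]
    exact Finset.sum_congr rfl fun j _ => by ring
  have h2 : ev B n n ^ 2 ≤ msz B ^ 2 := by
    rw [h1, msz_sq]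
    refine (Finset.sum_mul_sq_le_sq_mul_sq _ _ _).trans ?_
    rw [hn, one_mul]
    refine Finset.sum_le_sum fun i _ => ?_
    refine (Finset.sum_mul_sq_le_sq_mul_sq _ _ _).trans ?_
    rw [hn, mul_one]
  exact abs_le_of_sq_le_sq h2 (msz_nonneg B)

lemma bnn_flat {g : TensorField} {x : E3} (h : g x = 1) {p : Cov} (hp : p ≠ 0) (B : Bil) :
    |bnn g x p B| ≤ msz B := by
  refine abs_ev_le B _ ?_
  have h1 : ∀ i, nrm g x p i ^ 2 = p i ^ 2 / vsz p ^ 2 := by
    intro i
    simp only [nrm, raise_flat h, len_flat h]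
    rw [div_pow]
  rw [Finset.sum_congr rfl (fun i _ => h1 i), ← Finset.sum_div, ← vsz_sq]
  exact div_self (pow_ne_zero 2 (vsz_pos hp).ne')

lemma H2On_mono {U V : Set E3} {w : E3 → ℝ} {G : E3 → Cov} {M : E3 → Bil} (h : H2On U w G M)
    (hV : V ⊆ U) : H2On V w G M :=
  ⟨h.cont.mono hV, fun K hK hKV => h.memG K hK (hKV.trans hV),
    fun K hK hKV => h.memM K hK (hKV.trans hV), fun K hK hKV => h.approx K hK (hKV.trans hV)⟩

end XWOm

open XWOm in
/-- **(XWO)** The cubic integral over the outer windows. -/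
theorem XWO (hSETW : Stmt_SETW) (hLE : Stmt_LE) : Stmt_XWO := by
  intro P
  by_cases hP : 0 < P.eps ∧ P.eps ≤ 1 / 2 ∧ 0 < P.gam
  swap
  · exact ⟨1, one_pos, fun D S => absurd ⟨S.eps_pos, S.eps_le, S.gam_pos⟩ hP⟩
  obtain ⟨hε, hε2, hγ⟩ := hP
  have h2ε : 0 < 2 - P.eps := by linarith
  set a := Real.exp (-P.gam / (2 - P.eps)) with ha
  set b := Real.exp ((1 + P.gam) / (2 - P.eps)) with hb
  have ha0 : 0 < a := Real.exp_pos _
  have hb0 : 0 < b := Real.exp_pos _
  have hab : a < b := by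
    apply Real.exp_lt_exp.mpr
    exact (div_lt_div_iff_of_pos_right h2ε).mpr (by linarith)
  obtain ⟨C, hC, hLE'⟩ := hLE P.eps 0 (a / 2) a b (2 * b) hε (by linarith) le_rfl
    (by linarith) (by linarith) hab (by linarith)
  refine ⟨P.eps ^ 3 * C * Real.exp ((1 + 2 * P.gam + (2 - P.eps) * Real.log 2) / P.eps) ^ 3,
    by positivity, ?_⟩
  intro D S s hs hs1
  obtain ⟨-, -, -, -, -, -, hmeas, -, -, hR2, h4l, -⟩ := hSETW P D S
  have hl : 4 ≤ D.l := S.l_ge
  have hR : 16 * D.l ≤ D.R := by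
    have h1 := S.R_ge'
    have h2 : 16 * D.l ≤ 2 * D.l / P.kap := by
      rw [le_div_iff₀ S.kap_pos]
      nlinarith [S.kap_le]
    linarith
  have hR0 : 0 < D.R := by linarith
  have hRi : 1 / D.R ≤ 1 := by
    rw [div_le_one hR0]
    linarith
  set ρ := Real.exp (s / (2 - P.eps)) with hρ
  have hρ0 : 0 < ρ := Real.exp_pos _
  have haρ : a * ρ = Real.exp ((s - P.gam) / (2 - P.eps)) := by
    rw [ha, hρ, ← Real.exp_add]
    congr 1
    ring
  have hbρ : b * ρ = Real.exp ((s + 1 + P.gam) / (2 - P.eps)) := by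
    rw [hb, hρ, ← Real.exp_add]
    congr 1
    ring
  have h4 : 4 * D.l ≤ a * ρ := by
    rw [haρ, ← Real.log_le_iff_le_exp (by linarith), le_div_iff₀ h2ε]
    have h1 : D.s2 P = (2 - P.eps) * Real.log (4 * D.l) + P.gam := rfl
    rw [h1] at hs
    linarith
  have hbR : b * ρ ≤ D.R / 2 := by
    rw [hbρ, ← Real.le_log_iff_exp_le (by linarith), div_le_iff₀ h2ε]
    have h1 : D.sM P = (2 - P.eps) * Real.log (D.R / 2) - P.gam := rfl
    rw [h1] at hs1
    linarith
  -- the big annulus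
  have hbig : ∀ x ∈ Ann (a / 2 * ρ) (2 * b * ρ), 2 * D.l < ‖x‖ ∧ ‖x‖ < D.R := by
    intro x hx
    constructor
    · have h1 := hx.1
      nlinarith
    · have h1 := hx.2
      nlinarith
  have hsub : Ann (a / 2 * ρ) (2 * b * ρ) ⊆ Ann (1 / D.R) D.R := by
    intro x hx
    obtain ⟨h1, h2⟩ := hbig x hx
    exact ⟨by linarith, h2⟩
  have hflat : ∀ x : E3, 2 * D.l < ‖x‖ → ∀ᶠ y in 𝓝 x, D.g' y = 1 := by
    intro x hx
    filter_upwards [(isOpen_lt continuous_const continuous_norm).mem_nhds hx] with y hy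
    exact S.modified.flat y (le_of_lt hy)
  have hh0 : ∀ x : E3, 2 * D.l < ‖x‖ → D.h' x = 0 := by
    intro x hx
    exact S.modified.supp x (by linarith)
  have hsol := S.sol
  have hloc := S.located
  -- the bound for `u`
  set T := Real.exp ((2 * P.gam + (2 - P.eps) * Real.log 2 - s) / P.eps) with hT
  have hT0 : 0 < T := Real.exp_pos _
  have hub : ∀ x ∈ Ann (a / 2 * ρ) (2 * b * ρ), |D.u x| ≤ T := by
    intro x hx
    obtain ⟨h1, h2⟩ := hbig x hx
    have hu : 0 < D.u x := hloc.pos x (hsub hx)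
    rw [abs_of_pos hu, hT, ← Real.log_le_iff_le_exp hu, le_div_iff₀ hε]
    have h3 := hloc.outer_low x (by linarith) h2
    have h5 : wOf P.eps D.u x = -P.eps * Real.log (D.u x) := rfl
    rw [h5] at h3
    have hx0 : 0 < ‖x‖ := by linarith
    have h6 : (s - P.gam) / (2 - P.eps) - Real.log 2 ≤ Real.log ‖x‖ := by
      rw [Real.le_log_iff_exp_le hx0, Real.exp_sub, Real.exp_log two_pos, ← haρ]
      have h7 := hx.1
      linarith
    have h7 : (2 - P.eps) * ((s - P.gam) / (2 - P.eps) - Real.log 2)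
        = s - P.gam - (2 - P.eps) * Real.log 2 := by
      field_simp
    have h8 := mul_le_mul_of_nonneg_left h6 h2ε.le
    rw [h7] at h8
    linarith
  -- the equation in the flat region
  have heq : ∀ᵐ x ∂(volume.restrict (Ann (a / 2 * ρ) (2 * b * ρ))),
      |∑ i, D.M x i i| ≤ (1 - P.eps) * msz (D.M x) + 0 / ρ * vsz (D.G x) := by
    have h1 : ∀ᵐ x ∂(volume.restrict (Ann (a / 2 * ρ) (2 * b * ρ))), _ :=
      ae_restrict_of_ae_restrict_of_subset hsub hsol.eq
    filter_upwards [h1, ae_restrict_mem (isOpen_Ann _ _).measurableSet] with x hx hxA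
    obtain ⟨h2, -⟩ := hbig x hxA
    have hg := hflat x h2
    have hg1 : D.g' x = 1 := hg.self_of_nhds
    rw [zero_div, zero_mul, add_zero]
    by_cases hG : D.G x = 0
    · rw [hx.2 hG]
      simp only [Matrix.zero_apply, Finset.sum_const_zero, abs_zero]
      exact mul_nonneg (by linarith) (msz_nonneg _)
    · have h3 := hx.1 hG
      rw [cHess_flat hg, hh0 x h2] at h3
      have h5 : beps P.eps D.g' x (D.G x) (0 : Bil) = 0 := by
        simp [beps, trg, bnn, ev]
      rw [h5, mul_zero, add_zero, beps, trg_flat hg1] at h3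
      have h6 : ∑ i, D.M x i i = (1 - P.eps) * bnn D.g' x (D.G x) (D.M x) := by linarith
      rw [h6, abs_mul, abs_of_nonneg (by linarith : (0 : ℝ) ≤ 1 - P.eps)]
      exact mul_le_mul_of_nonneg_left (bnn_flat hg1 hG _) (by linarith)
  obtain ⟨hint, hle⟩ := hLE' ρ T D.u D.G D.M hρ0 hT0.le (H2On_mono hsol.h2 hsub) hub heq
  -- the window
  set Wn : Set E3 := D.Om ∩ {x | s < D.w P x ∧ D.w P x < s + 1} with hWn
  have hWm : MeasurableSet Wn := by
    refine (isOpen_Ann _ _).measurableSet.inter ?_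
    exact (measurableSet_lt measurable_const hmeas).inter (measurableSet_lt hmeas measurable_const)
  have hWsub : Wn ⊆ cAnn (a * ρ) (b * ρ) := by
    rintro x ⟨hxO, hx1, hx2⟩
    have h1 := hR2 x hxO (by linarith)
    have h2 := h4l x hxO (by linarith)
    have h3 := abs_le.mp (hloc.outer x (by linarith) h1.le)
    have h5 : D.w P x = wOf P.eps D.u x := rfl
    rw [← h5] at h3
    have hx0 : 0 < ‖x‖ := by linarith
    constructor
    · rw [haρ, ← Real.le_log_iff_exp_le hx0, div_le_iff₀ h2ε]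
      linarith [h3.2]
    · rw [hbρ, ← Real.log_le_iff_le_exp hx0, le_div_iff₀ h2ε]
      linarith [h3.1]
  set k := P.eps * Real.exp ((s + 1) / P.eps) with hk
  have hk0 : 0 < k := by positivity
  have hpt : ∀ x ∈ Wn, D.X P x ^ 3 * D.vol x ≤ k ^ 3 * vsz (D.G x) ^ 3 := by
    intro x hxW
    obtain ⟨hxO, hx1, hx2⟩ := id hxW
    have h2 := h4l x hxO (by linarith)
    have hg1 : D.g' x = 1 := (hflat x (by linarith)).self_of_nhds
    have hu : 0 < D.u x := hloc.pos x hxO
    have h3 : D.vol x = 1 := volDen_flat hg1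
    have h5 : D.X P x = P.eps / D.u x * vsz (D.G x) := by
      have h6 : D.X P x = vsz (D.Gw P x) := len_flat hg1 _
      have h7 : D.Gw P x = fun i => -(P.eps / D.u x) * D.G x i := by
        funext i
        change -P.eps * (D.G x i / D.u x) = _
        ring
      rw [h6, h7, vsz_smul, abs_neg, abs_of_pos (by positivity)]
    have h6 : P.eps / D.u x ≤ k := by
      rw [hk, div_eq_mul_inv]
      refine mul_le_mul_of_nonneg_left ?_ hε.le
      have h7 : Real.exp (-((s + 1) / P.eps)) ≤ D.u x := by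
        rw [← Real.le_log_iff_exp_le hu]
        have h8 : D.w P x = -P.eps * Real.log (D.u x) := rfl
        rw [h8] at hx2
        have h9 : -((s + 1) / P.eps) * P.eps = -(s + 1) := by
          field_simp
        have h10 : -((s + 1) / P.eps) * P.eps ≤ Real.log (D.u x) * P.eps := by
          rw [h9]
          linarith
        exact le_of_mul_le_mul_right h10 hε
      have h8 := inv_anti₀ (Real.exp_pos _) h7
      rwa [Real.exp_neg, inv_inv] at h8
    rw [h3, mul_one, ← mul_pow, h5]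
    refine pow_le_pow_left₀ (mul_nonneg (by positivity) (vsz_nonneg _)) ?_ 3
    exact mul_le_mul_of_nonneg_right h6 (vsz_nonneg _)
  have hnn : ∀ x ∈ Wn, 0 ≤ D.X P x ^ 3 * D.vol x := by
    intro x _
    have h1 : 0 ≤ D.X P x := Real.sqrt_nonneg _
    have h2 : 0 ≤ D.vol x := Real.sqrt_nonneg _
    positivity
  have hI : IntegrableOn (fun x => k ^ 3 * vsz (D.G x) ^ 3) (cAnn (a * ρ) (b * ρ)) :=
    hint.const_mul _
  have h1 : ∫ x in Wn, D.X P x ^ 3 * D.vol x ≤ ∫ x in Wn, k ^ 3 * vsz (D.G x) ^ 3 := by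
    refine integral_mono_of_nonneg ?_ (hI.mono_set hWsub) ?_
    · exact ae_restrict_of_forall_mem hWm hnn
    · exact ae_restrict_of_forall_mem hWm hpt
  have h2 : ∫ x in Wn, k ^ 3 * vsz (D.G x) ^ 3
      ≤ ∫ x in cAnn (a * ρ) (b * ρ), k ^ 3 * vsz (D.G x) ^ 3 := by
    refine setIntegral_mono_set hI ?_ (HasSubset.Subset.eventuallyLE hWsub)
    refine Filter.Eventually.of_forall fun x => ?_
    have h3 := vsz_nonneg (D.G x)
    change 0 ≤ k ^ 3 * vsz (D.G x) ^ 3
    positivity
  refine h1.trans (h2.trans ?_)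
  rw [integral_const_mul]
  refine (mul_le_mul_of_nonneg_left hle (by positivity)).trans (le_of_eq ?_)
  have h3 : Real.exp ((1 + 2 * P.gam + (2 - P.eps) * Real.log 2) / P.eps)
      = Real.exp ((s + 1) / P.eps) * T := by
    rw [hT, ← Real.exp_add]
    congr 1
    ring
  rw [h3, hk]
  ring

end Pool.Agent.PFlow
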