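import Pool.Agent.PFlow.StmtsE4
import Pool.Agent.PFlow.StmtsE1

/-!
# The mean of `|h|` over large shells (LIMK2)
-/

open MeasureTheory Filter Topology
open scoped ContDiff ENNReal

namespace Pool.Agent.PFlow

open Pool.Agent.PenroseSph

namespace LK

/-! ### Algebra -/

open scoped MatrixOrder ComplexOrder Matrix.Norms.L2Operator in
theorem factor {P : Bil} (hP : P.PosSemidef) : ∃ Q : Bil, P = Q.transpose * Q := by
  obtain ⟨Q, hQ⟩ := CStarAlgebra.nonneg_iff_eq_star_mul_self.mp hP.nonneg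
  refine ⟨Q, ?_⟩
  rw [hQ, Matrix.star_eq_conjTranspose, Matrix.conjTranspose_eq_transpose_of_trivial]

theorem ev_eq (B : Bil) (p q : Cov) : ev B p q = dotProduct p (B.mulVec q) := by
  unfold ev dotProduct Matrix.mulVec dotProduct
  refine Finset.sum_congr rfl fun i _ => ?_
  rw [Finset.mul_sum]
  refine Finset.sum_congr rfl fun j _ => ?_
  ring

theorem ev_factor {P Q : Bil} (hQ : P = Q.transpose * Q) (p q : Cov) :
    ev P p q = ∑ m, (∑ i, Q m i * p i) * ∑ j, Q m j * q j := by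
  rw [hQ]
  unfold ev
  simp only [Matrix.mul_apply, Matrix.transpose_apply, Fin.sum_univ_three]
  ring

theorem ev_lower {C : ℝ} {g : Bil} (hg : g.PosDef)
    (hb : ∀ v : Cov, ev g v v ≤ C * ∑ i, v i ^ 2) (p : Cov) :
    ∑ i, p i ^ 2 ≤ C * ev g⁻¹ p p := by
  have hP : (g⁻¹).PosDef := hg.inv
  obtain ⟨Q, hQ⟩ := factor hP.posSemidef
  have hdet : IsUnit g.det := hg.det_pos.ne'.isUnit
  have hsum : ∀ v : Cov, 0 ≤ ∑ i, v i ^ 2 := fun v => Finset.sum_nonneg fun i _ => sq_nonneg _
  set r : Cov := g.mulVec p with hr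
  have h1 : ev g⁻¹ p r = ∑ i, p i ^ 2 := by
    rw [ev_eq, hr, Matrix.mulVec_mulVec, Matrix.nonsing_inv_mul g hdet, Matrix.one_mulVec]
    unfold dotProduct
    exact Finset.sum_congr rfl fun i _ => by ring
  have h2 : ev g⁻¹ r r = ev g p p := by
    rw [ev_eq, ev_eq, hr, Matrix.mulVec_mulVec, Matrix.nonsing_inv_mul g hdet, Matrix.one_mulVec]
    exact dotProduct_comm _ _
  have h3 : (ev g⁻¹ p r) ^ 2 ≤ ev g⁻¹ p p * ev g⁻¹ r r := by
    rw [ev_factor hQ, ev_factor hQ, ev_factor hQ]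
    have := Finset.sum_mul_sq_le_sq_mul_sq Finset.univ (fun m => ∑ i, Q m i * p i)
      (fun m => ∑ i, Q m i * r i)
    simpa only [pow_two] using this
  have h4 := hb p
  have h5 : 0 ≤ ev g⁻¹ p p := by
    rw [ev_factor hQ]
    exact Finset.sum_nonneg fun m _ => mul_self_nonneg _
  rw [h1, h2] at h3
  by_cases hv : ∑ i, p i ^ 2 = 0
  · rw [hv]
    have hp : p = 0 := by
      funext i
      have := (Finset.sum_eq_zero_iff_of_nonneg (fun i _ => sq_nonneg (p i))).mp hv i
        (Finset.mem_univ i)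
      simpa using this
    rw [hp]
    simp [ev]
  · have hv' : 0 < ∑ i, p i ^ 2 := lt_of_le_of_ne (hsum p) (Ne.symm hv)
    have h6 : (∑ i, p i ^ 2) ^ 2 ≤ ev g⁻¹ p p * (C * ∑ i, p i ^ 2) :=
      h3.trans (mul_le_mul_of_nonneg_left h4 h5)
    have h7 : (∑ i, p i ^ 2) * (∑ i, p i ^ 2) ≤ (C * ev g⁻¹ p p) * ∑ i, p i ^ 2 := by
      calc (∑ i, p i ^ 2) * (∑ i, p i ^ 2) = (∑ i, p i ^ 2) ^ 2 := by ring
        _ ≤ _ := h6
        _ = _ := by ring
    exact le_of_mul_le_mul_right h7 hv'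

theorem nsq_factor {g : TensorField} {x : E3} {Q : Bil} (hQ : (g x)⁻¹ = Q.transpose * Q) (H : Bil) :
    nsq g x H = ∑ m, ev (g x)⁻¹ (fun i => ∑ j, H i j * Q m j) (fun i => ∑ j, H i j * Q m j) := by
  have h1 : nsq g x H = ∑ i, ∑ k, (g x)⁻¹ i k * ∑ j, ∑ l, (g x)⁻¹ j l * (H i j * H k l) := by
    unfold nsq
    refine Finset.sum_congr rfl fun i _ => ?_
    rw [Finset.sum_comm]
    refine Finset.sum_congr rfl fun k _ => ?_
    rw [Finset.mul_sum]
    refine Finset.sum_congr rfl fun j _ => ?_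
    rw [Finset.mul_sum]
    refine Finset.sum_congr rfl fun l _ => ?_
    ring
  have h2 : ∀ i k, ∑ j, ∑ l, (g x)⁻¹ j l * (H i j * H k l) =
      ∑ m, (∑ j, H i j * Q m j) * ∑ j, H k j * Q m j := by
    intro i k
    rw [hQ]
    simp only [Matrix.mul_apply, Matrix.transpose_apply, Fin.sum_univ_three]
    ring
  rw [h1]
  simp only [h2]
  unfold ev
  simp only [Fin.sum_univ_three]
  ring

theorem rows_factor {g : TensorField} {x : E3} {Q : Bil} (hQ : (g x)⁻¹ = Q.transpose * Q)
    (H : Bil) :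
    ∑ m, ∑ i, (∑ j, H i j * Q m j) ^ 2 = ∑ i, ev (g x)⁻¹ (H i) (H i) := by
  unfold ev
  rw [hQ]
  simp only [Matrix.mul_apply, Matrix.transpose_apply, Fin.sum_univ_three]
  ring

theorem msq_le {C : ℝ} (hC : 0 < C) {g : TensorField} {x : E3} (hg : (g x).PosDef)
    (hb : ∀ v : Cov, ev (g x) v v ≤ C * ∑ i, v i ^ 2) (H : Bil) :
    ∑ i, ∑ j, H i j ^ 2 ≤ C ^ 2 * nsq g x H := by
  have hP : ((g x)⁻¹).PosDef := hg.inv
  obtain ⟨Q, hQ⟩ := factor hP.posSemidef
  have lo := ev_lower hg hb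
  have e1 := nsq_factor hQ H
  have e2 := rows_factor hQ H
  have f2 : ∑ i, ev (g x)⁻¹ (H i) (H i) ≤ C * nsq g x H := by
    rw [e1, ← e2, Finset.mul_sum]
    exact Finset.sum_le_sum fun m _ => lo _
  have f4 : ∑ i, ∑ j, H i j ^ 2 ≤ C * ∑ i, ev (g x)⁻¹ (H i) (H i) := by
    rw [Finset.mul_sum]
    exact Finset.sum_le_sum fun m _ => lo _
  calc ∑ i, ∑ j, H i j ^ 2 ≤ C * ∑ i, ev (g x)⁻¹ (H i) (H i) := f4
    _ ≤ C * (C * nsq g x H) := mul_le_mul_of_nonneg_left f2 hC.le
    _ = _ := by ring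

theorem trg_neg (g : TensorField) (x : E3) (B : Bil) : trg g x (-B) = -trg g x B := by
  unfold trg
  simp only [Matrix.neg_apply, Fin.sum_univ_three]
  ring

theorem nsq_neg (g : TensorField) (x : E3) (B : Bil) : nsq g x (-B) = nsq g x B := by
  unfold nsq
  refine Finset.sum_congr rfl fun i _ => Finset.sum_congr rfl fun j _ =>
    Finset.sum_congr rfl fun k _ => Finset.sum_congr rfl fun l _ => ?_
  rw [Matrix.neg_apply, Matrix.neg_apply]
  ring

theorem ev_neg (B : Bil) (v w : Cov) : ev (-B) v w = -ev B v w := by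
  unfold ev
  simp only [Matrix.neg_apply, Fin.sum_univ_three]
  ring

theorem nsq_h (hH : Stmt_HATA) {g h : TensorField} (hT : TwoEnded g h) (hS : PlaneSign g h)
    {x : E3} (hx : x ≠ 0) : nsq g x (h x) ≤ 3 * trg g x (h x) ^ 2 := by
  have hg := hT.metric.posDef x hx
  have hs := hT.tensor.symm x hx
  rcases hS x hx with h1 | h1
  · exact (hH g x (h x) hg hs h1).2
  · have h2 := (hH g x (-h x) hg hs.neg fun v hv => by
      rw [ev_neg, trg_neg]
      exact neg_le_neg (h1 v hv)).2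
    rw [nsq_neg, trg_neg, neg_sq] at h2
    exact h2

/-- the tail of an integrable function over shells -/
theorem shell_tendsto {F : E3 → ℝ} (hF : IntegrableOn F {x : E3 | 1 ≤ ‖x‖}) :
    Tendsto (fun l : ℝ => ∫ x in cAnn (l / 2) l, F x) atTop (𝓝 0) := by
  have hS : MeasurableSet {x : E3 | 1 ≤ ‖x‖} := measurableSet_le measurable_const measurable_norm
  have hA : ∀ l : ℝ, MeasurableSet (cAnn (l / 2) l) := fun l =>
    (measurableSet_le measurable_const measurable_norm).inter
      (measurableSet_le measurable_norm measurable_const)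
  have hFi : Integrable (Set.indicator {x : E3 | 1 ≤ ‖x‖} F) := (integrable_indicator_iff hS).mpr hF
  have e : ∀ᶠ l : ℝ in atTop, ∫ x, Set.indicator (cAnn (l / 2) l)
      (Set.indicator {x : E3 | 1 ≤ ‖x‖} F) x = ∫ x in cAnn (l / 2) l, F x := by
    filter_upwards [eventually_ge_atTop (2 : ℝ)] with l hl
    rw [integral_indicator (hA l)]
    refine setIntegral_congr_fun (hA l) fun x hx => ?_
    have : x ∈ {x : E3 | 1 ≤ ‖x‖} := by
      have h1 : l / 2 ≤ ‖x‖ := hx.1
      show 1 ≤ ‖x‖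
      linarith
    simp only [Set.indicator_of_mem this]
  refine Tendsto.congr' e ?_
  have h0 : (0 : ℝ) = ∫ _ : E3, (0 : ℝ) := by simp
  rw [h0]
  refine tendsto_integral_filter_of_dominated_convergence
    (fun x => ‖Set.indicator {x : E3 | 1 ≤ ‖x‖} F x‖) ?_ ?_ hFi.norm ?_
  · exact Eventually.of_forall fun l => hFi.aestronglyMeasurable.indicator (hA l)
  · exact Eventually.of_forall fun l => Eventually.of_forall fun x =>
      norm_indicator_le_norm_self _ x
  · refine Eventually.of_forall fun x => ?_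
    refine tendsto_const_nhds.congr' ?_
    filter_upwards [eventually_gt_atTop (2 * ‖x‖)] with l hl
    rw [Set.indicator_of_notMem]
    intro hx
    have h1 : l / 2 ≤ ‖x‖ := hx.1
    linarith

end LK

/-- LIMK2: the mean of `|h|` over large shells. -/
theorem LIMK2 (hAFD : Stmt_AFD) (hHATA : Stmt_HATA) (hTINT : Stmt_TINT) : Stmt_LIMK2 := by
  intro g h hT hD hS hF
  obtain ⟨C, hC, -, -, hell, -⟩ := hAFD g h hT
  have hI := hTINT g h hT hD hS hF
  have hpt : ∀ x : E3, 1 ≤ ‖x‖ → msz (h x) ≤ 2 * C * |trg g x (h x)| := by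
    intro x hx
    have hx0 : x ≠ 0 := by
      intro h0
      rw [h0, norm_zero] at hx
      linarith
    have h1 := LK.msq_le hC (hT.metric.posDef x hx0) (fun v => (hell x hx v).2) (h x)
    have h2 := LK.nsq_h hHATA hT hS hx0
    unfold msz
    rw [Real.sqrt_le_left (by positivity)]
    have h3 := sq_abs (trg g x (h x))
    have h4 := mul_le_mul_of_nonneg_left h2 (sq_nonneg C)
    have h5 : 0 ≤ C ^ 2 * trg g x (h x) ^ 2 := by positivity
    calc ∑ i, ∑ j, h x i j ^ 2 ≤ C ^ 2 * nsq g x (h x) := h1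
      _ ≤ C ^ 2 * (3 * trg g x (h x) ^ 2) := h4
      _ ≤ 4 * (C ^ 2 * trg g x (h x) ^ 2) := by linarith
      _ = (2 * C * |trg g x (h x)|) ^ 2 := by rw [mul_pow, mul_pow, h3]; ring
  have hlim := (LK.shell_tendsto hI).const_mul (2 * C)
  rw [mul_zero] at hlim
  refine squeeze_zero' ?_ ?_ hlim
  · filter_upwards [eventually_gt_atTop (0 : ℝ)] with l hl
    refine integral_nonneg fun x => ?_
    unfold msz
    positivity
  · filter_upwards [eventually_ge_atTop (2 : ℝ)] with l hl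
    have hA : MeasurableSet (cAnn (l / 2) l) :=
      (measurableSet_le measurable_const measurable_norm).inter
        (measurableSet_le measurable_norm measurable_const)
    rw [← integral_const_mul]
    refine integral_mono_of_nonneg ?_ ?_ ?_
    · refine Eventually.of_forall fun x => ?_
      simp only [Pi.zero_apply]
      unfold msz
      positivity
    · refine Integrable.const_mul ?_ _
      refine hI.mono_set fun x hx => ?_
      have h1 : l / 2 ≤ ‖x‖ := hx.1
      show 1 ≤ ‖x‖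
      linarith
    · refine (ae_restrict_mem hA).mono fun x hx => ?_
      have h1 : l / 2 ≤ ‖x‖ := hx.1
      have h2 : ‖x‖ ≤ l := hx.2
      have h3 : 0 < ‖x‖ := by linarith
      simp only
      calc msz (h x) / l ≤ (2 * C * |trg g x (h x)|) / l := by
            gcongr
            exact hpt x (by linarith)
        _ ≤ (2 * C * |trg g x (h x)|) / ‖x‖ := by gcongr
        _ = _ := by ring

end Pool.Agent.PFlow
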