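import Pool.Agent.PFlow.StmtsE3

/-!
# ABSF: the flux inequality
-/

open MeasureTheory Filter Topology
open scoped ContDiff ENNReal Matrix MatrixOrder

namespace Pool.Agent.PFlow

open Pool.Agent.PenroseSph

namespace ABSFm

lemma ev_eq (B : Bil) (v w : Cov) : ev B v w = v ⬝ᵥ (B *ᵥ w) := by
  simp only [ev, dotProduct, Matrix.mulVec, Finset.mul_sum]
  refine Finset.sum_congr rfl fun i _ => Finset.sum_congr rfl fun j _ => ?_
  ring

lemma ev_smul (B : Bil) (c : ℝ) (v : Cov) : ev B (c • v) (c • v) = c ^ 2 * ev B v v := by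
  simp only [ev, Finset.mul_sum, Pi.smul_apply, smul_eq_mul]
  refine Finset.sum_congr rfl fun i _ => Finset.sum_congr rfl fun j _ => ?_
  ring

lemma len_smul (g : TensorField) (x : E3) (c : ℝ) (p : Cov) :
    len g x (c • p) = |c| * len g x p := by
  unfold len
  rw [ev_smul, Real.sqrt_mul (sq_nonneg c), Real.sqrt_sq_eq_abs]

lemma ev_nonneg {B : Bil} (hB : B.PosSemidef) (v : Cov) : 0 ≤ ev B v v := by
  rw [ev_eq]
  have := hB.dotProduct_mulVec_nonneg v
  simpa using this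

lemma ev_pos {B : Bil} (hB : B.PosDef) {v : Cov} (hv : v ≠ 0) : 0 < ev B v v := by
  rw [ev_eq]
  have := hB.dotProduct_mulVec_pos hv
  simpa using this

lemma ev_sub {B : Bil} (hB : B.IsSymm) (s p : Cov) (t : ℝ) :
    ev B (s - t • p) (s - t • p) = ev B s s - 2 * t * ev B s p + t ^ 2 * ev B p p := by
  have h10 : B 1 0 = B 0 1 := hB.apply 0 1
  have h20 : B 2 0 = B 0 2 := hB.apply 0 2
  have h21 : B 2 1 = B 1 2 := hB.apply 1 2
  simp only [ev, Fin.sum_univ_three, Pi.sub_apply, Pi.smul_apply, smul_eq_mul, h10, h20, h21]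
  ring

lemma cauchy {B : Bil} (hB : B.PosDef) (hs : B.IsSymm) (s p : Cov) (hp : p ≠ 0) :
    ev B s p ^ 2 / ev B p p ≤ ev B s s := by
  have hpp : 0 < ev B p p := ev_pos hB hp
  have h := ev_nonneg hB.posSemidef (s - (ev B s p / ev B p p) • p)
  rw [ev_sub hs] at h
  have e : ev B s s - 2 * (ev B s p / ev B p p) * ev B s p + (ev B s p / ev B p p) ^ 2 * ev B p p
      = ev B s s - ev B s p ^ 2 / ev B p p := by
    field_simp
    ring
  rw [e] at h
  linarith

/-- The length of the normal. -/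
lemma ev_nrm {g : TensorField} {x : E3} (hg : (g x).PosDef) {p : Cov} (hp : p ≠ 0) :
    ev (g x) (nrm g x p) (nrm g x p) = 1 := by
  have hl : 0 < ev (g x)⁻¹ p p := ev_pos hg.inv hp
  have hlen : len g x p ^ 2 = ev (g x)⁻¹ p p := Real.sq_sqrt hl.le
  have hlen0 : len g x p ≠ 0 := by
    intro h0
    rw [h0] at hlen
    simp at hlen
    linarith
  have hdet : IsUnit (g x).det := (Matrix.isUnit_iff_isUnit_det _).mp hg.isUnit
  have e1 : nrm g x p = (len g x p)⁻¹ • ((g x)⁻¹ *ᵥ p) := by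
    funext i
    simp only [nrm, raise, Pi.smul_apply, smul_eq_mul, Matrix.mulVec, dotProduct]
    rw [div_eq_inv_mul]
  rw [e1, ev_smul, ev_eq, Matrix.mulVec_mulVec, Matrix.mul_nonsing_inv _ hdet, Matrix.one_mulVec]
  have e2 : ((g x)⁻¹ *ᵥ p) ⬝ᵥ p = ev (g x)⁻¹ p p := by
    rw [ev_eq, dotProduct_comm]
  rw [e2, ← hlen, inv_pow]
  exact inv_mul_cancel₀ (pow_ne_zero 2 hlen0)

lemma trg_eq (g : TensorField) (x : E3) (hs : (g x)⁻¹.IsSymm) (B : Bil) :
    trg g x B = (B * (g x)⁻¹).trace := by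
  simp only [trg, Matrix.trace, Matrix.diag, Matrix.mul_apply]
  refine Finset.sum_congr rfl fun i _ => Finset.sum_congr rfl fun j _ => ?_
  rw [hs.apply i j]
  ring

/-- The plane conditions give `tr h + h(ν, ν) ≥ 0`. -/
lemma tr_add_bnn {g h : TensorField} {x : E3} (hg : (g x).PosDef) (hh : (h x).IsSymm)
    (h2 : ∀ v : Cov, ev (g x) v v = 1 → ev (h x) v v ≤ trg g x (h x)) {p : Cov} (hp : p ≠ 0) :
    0 ≤ trg g x (h x) + bnn g x p (h x) := by
  set τ := trg g x (h x) with hτ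
  have hgs : (g x).IsSymm := by
    have := hg.isHermitian
    rwa [Matrix.IsHermitian, Matrix.conjTranspose_eq_transpose_of_trivial] at this
  have hgi : (g x)⁻¹.PosDef := hg.inv
  have hgis : (g x)⁻¹.IsSymm := by
    have := hgi.isHermitian
    rwa [Matrix.IsHermitian, Matrix.conjTranspose_eq_transpose_of_trivial] at this
  have hdet : IsUnit (g x).det := (Matrix.isUnit_iff_isUnit_det _).mp hg.isUnit
  -- the matrix `T = τ g - h` is positive semidefinite
  have hT : (τ • g x - h x).PosSemidef := by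
    refine Matrix.PosSemidef.of_dotProduct_mulVec_nonneg ?_ ?_
    · rw [Matrix.IsHermitian, Matrix.conjTranspose_eq_transpose_of_trivial,
        Matrix.transpose_sub, Matrix.transpose_smul, hgs, hh]
    · intro v
      have e : star v ⬝ᵥ ((τ • g x - h x) *ᵥ v) = τ * ev (g x) v v - ev (h x) v v := by
        rw [star_trivial, Matrix.sub_mulVec, Matrix.smul_mulVec, dotProduct_sub, dotProduct_smul,
          ev_eq, ev_eq, smul_eq_mul]
      rw [e]
      rcases eq_or_ne v 0 with rfl | hv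
      · simp [ev]
      · have hpos := ev_pos hg hv
        set r := Real.sqrt (ev (g x) v v) with hr
        have hr2 : r ^ 2 = ev (g x) v v := Real.sq_sqrt hpos.le
        have hr0 : r ≠ 0 := (Real.sqrt_pos.2 hpos).ne'
        have h1 := h2 (r⁻¹ • v) (by
          rw [ev_smul, ← hr2, inv_pow]; exact inv_mul_cancel₀ (pow_ne_zero 2 hr0))
        rw [ev_smul] at h1
        have h3 : ev (h x) v v ≤ τ * r ^ 2 := by
          have h4 := mul_le_mul_of_nonneg_right h1 (sq_nonneg r)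
          have e5 : r⁻¹ ^ 2 * ev (h x) v v * r ^ 2 = ev (h x) v v := by
            field_simp
          rwa [e5] at h4
        rw [hr2] at h3
        linarith
  obtain ⟨S, hS⟩ := CStarAlgebra.nonneg_iff_eq_star_mul_self.mp hT.nonneg
  rw [Matrix.star_eq_conjTranspose, Matrix.conjTranspose_eq_transpose_of_trivial] at hS
  -- `Q(s, s) ≥ 0`
  have hl : 0 < ev (g x)⁻¹ p p := ev_pos hgi hp
  have hlen : len g x p ^ 2 = ev (g x)⁻¹ p p := Real.sq_sqrt hl.le
  have hlen0 : len g x p ≠ 0 := by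
    intro h0
    rw [h0] at hlen
    simp at hlen
    linarith
  have hsum : 0 ≤ ∑ a, (ev (g x)⁻¹ (S a) (S a) - (∑ i, S a i * nrm g x p i) ^ 2) := by
    refine Finset.sum_nonneg fun a _ => ?_
    have hc := cauchy hgi hgis (S a) p hp
    have e : (∑ i, S a i * nrm g x p i) ^ 2 = ev (g x)⁻¹ (S a) p ^ 2 / ev (g x)⁻¹ p p := by
      have e1 : ∑ i, S a i * nrm g x p i = ev (g x)⁻¹ (S a) p / len g x p := by
        simp only [nrm, raise, ev, Finset.sum_div, Finset.mul_sum]
        refine Finset.sum_congr rfl fun i _ => Finset.sum_congr rfl fun j _ => ?_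
        ring
      rw [e1, div_pow, hlen]
    rw [e]
    linarith
  -- evaluation
  have e1 : ∑ a, ev (g x)⁻¹ (S a) (S a) = 3 * τ - τ := by
    have e2 : ∑ a, ev (g x)⁻¹ (S a) (S a) = ((Sᵀ * S) * (g x)⁻¹).trace := by
      simp only [Matrix.trace, Matrix.diag, Matrix.mul_apply, ev, Matrix.transpose_apply,
        Finset.sum_mul]
      rw [Finset.sum_comm]
      refine Finset.sum_congr rfl fun i _ => ?_
      rw [Finset.sum_comm]
      refine Finset.sum_congr rfl fun j _ => Finset.sum_congr rfl fun a _ => ?_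
      rw [hgis.apply i j]
      ring
    rw [e2, ← hS, Matrix.sub_mul, Matrix.smul_mul, Matrix.mul_nonsing_inv _ hdet,
      Matrix.trace_sub, Matrix.trace_smul, Matrix.trace_one, ← trg_eq g x hgis, ← hτ]
    simp
    ring
  have e3 : ∑ a, (∑ i, S a i * nrm g x p i) ^ 2 = τ - bnn g x p (h x) := by
    have e4 : ∑ a, (∑ i, S a i * nrm g x p i) ^ 2 = ev (Sᵀ * S) (nrm g x p) (nrm g x p) := by
      rw [ev_eq, ← Matrix.mulVec_mulVec, Matrix.dotProduct_mulVec, Matrix.vecMul_transpose]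
      simp only [dotProduct, Matrix.mulVec, sq]
    rw [e4, ← hS]
    have e5 : ev (τ • g x - h x) (nrm g x p) (nrm g x p)
        = τ * ev (g x) (nrm g x p) (nrm g x p) - ev (h x) (nrm g x p) (nrm g x p) := by
      rw [ev_eq, Matrix.sub_mulVec, Matrix.smul_mulVec, dotProduct_sub, dotProduct_smul,
          ev_eq, ev_eq, smul_eq_mul]
    rw [e5, ev_nrm hg hp, mul_one]
    rfl
  rw [Finset.sum_sub_distrib, e1, e3] at hsum
  linarith

lemma beps_nonneg {ε : ℝ} (h0 : 0 < ε) (h1 : ε < 1) {g h : TensorField} {x : E3}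
    (hg : (g x).PosDef) (hh : (h x).IsSymm)
    (h2 : ∀ v : Cov, ev (g x) v v = 1 → ev (h x) v v ≤ trg g x (h x)) {p : Cov} (hp : p ≠ 0) :
    0 ≤ beps ε g x p (h x) := by
  have ha := tr_add_bnn hg hh h2 hp
  have hb : bnn g x p (h x) ≤ trg g x (h x) := h2 _ (ev_nrm hg hp)
  unfold beps
  nlinarith

/-- The function `ψ(-ε log t)`, extended by zero. -/
noncomputable def psi1 (ε : ℝ) (ψ : ℝ → ℝ) (t : ℝ) : ℝ :=
  if 0 < t then ψ (-ε * Real.log t) else 0

lemma psi1_zero {ε : ℝ} (h0 : 0 < ε) {ψ : ℝ → ℝ} {S : ℝ} (hS : ∀ s, S < s → ψ s = 0) {t : ℝ}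
    (ht : t < Real.exp (-S / ε)) : psi1 ε ψ t = 0 := by
  unfold psi1
  split_ifs with h
  · apply hS
    have h1 : Real.log t < -S / ε := by
      rw [← Real.log_exp (-S / ε)]
      exact Real.log_lt_log h ht
    rw [lt_div_iff₀ h0] at h1
    linarith
  · rfl

lemma psi1_contDiff {ε : ℝ} (h0 : 0 < ε) {ψ : ℝ → ℝ} (hψ : ContDiff ℝ 1 ψ) {S : ℝ}
    (hS : ∀ s, S < s → ψ s = 0) : ContDiff ℝ 1 (psi1 ε ψ) := by
  rw [contDiff_iff_contDiffAt]
  intro t
  by_cases ht : 0 < t
  · have h1 : ContDiffAt ℝ 1 (fun t => ψ (-ε * Real.log t)) t := by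
      refine hψ.contDiffAt.comp t ?_
      exact contDiffAt_const.mul (Real.contDiffAt_log.2 ht.ne')
    refine h1.congr_of_eventuallyEq ?_
    filter_upwards [lt_mem_nhds ht] with s hs
    simp only [psi1, hs, if_true]
  · have h1 : t < Real.exp (-S / ε) := lt_of_le_of_lt (not_lt.1 ht) (Real.exp_pos _)
    refine (contDiffAt_const (c := (0 : ℝ))).congr_of_eventuallyEq ?_
    filter_upwards [gt_mem_nhds h1] with s hs
    exact psi1_zero h0 hS hs

lemma psi1_deriv {ε : ℝ} {ψ : ℝ → ℝ} (hψ : ContDiff ℝ 1 ψ) {t : ℝ} (ht : 0 < t) :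
    deriv (psi1 ε ψ) t = deriv ψ (-ε * Real.log t) * (-ε / t) := by
  have h1 : psi1 ε ψ =ᶠ[𝓝 t] fun t => ψ (-ε * Real.log t) := by
    filter_upwards [lt_mem_nhds ht] with s hs
    simp only [psi1, hs, if_true]
  rw [h1.deriv_eq]
  have h2 : HasDerivAt ψ (deriv ψ (-ε * Real.log t)) (-ε * Real.log t) :=
    (hψ.differentiable (by norm_num)).differentiableAt.hasDerivAt
  have h3 : HasDerivAt (fun t => -ε * Real.log t) (-ε * t⁻¹) t :=
    (Real.hasDerivAt_log ht.ne').const_mul _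
  have h4 := h2.comp t h3
  rw [show -ε / t = -ε * t⁻¹ by ring]
  exact h4.deriv

lemma psi1_tsupport {ε : ℝ} {ψ : ℝ → ℝ} {t : ℝ} (ht : 0 < t) (h : t ∈ tsupport (psi1 ε ψ)) :
    -ε * Real.log t ∈ tsupport ψ := by
  by_contra hn
  rw [notMem_tsupport_iff_eventuallyEq] at hn
  apply (notMem_tsupport_iff_eventuallyEq (f := psi1 ε ψ) (x := t)).2 ?_ h
  have hc : ContinuousAt (fun t => -ε * Real.log t) t :=
    continuousAt_const.mul (Real.continuousAt_log ht.ne')
  filter_upwards [hc.eventually hn, lt_mem_nhds ht] with s hs hs0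
  simp only [psi1, hs0, if_true]
  exact hs

lemma exists_bounds {ψ : ℝ → ℝ} {a b : ℝ} (hc : HasCompactSupport ψ)
    (hs : tsupport ψ ⊆ Set.Ioo a b) :
    ∃ s s', a < s ∧ s' < b ∧ ∀ t ∈ tsupport ψ, s ≤ t ∧ t ≤ s' := by
  rcases (tsupport ψ).eq_empty_or_nonempty with he | hne
  · exact ⟨a + 1, b - 1, by linarith, by linarith, by simp [he]⟩
  · obtain ⟨s, hs1, hs2⟩ := hc.isCompact.exists_isLeast hne
    obtain ⟨s', hs1', hs2'⟩ := hc.isCompact.exists_isGreatest hne
    exact ⟨s, s', (hs hs1).1, (hs hs1').2, fun t ht => ⟨hs2 ht, hs2' ht⟩⟩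

end ABSFm

open ABSFm in
theorem ABSF (hSETW : Stmt_SETW) (hFLX : Stmt_FLX) : Stmt_ABSF := by
  intro P D hD ψ hψ hψ0 hψc hψs
  obtain ⟨-, -, -, -, -, -, -, -, -, -, -, -, -, -, hK, -⟩ := hSETW P D hD
  have hε := hD.eps_pos
  have hε2 := hD.eps_le
  have hε1 : P.eps < 1 := by linarith
  obtain ⟨s, s', hs1, hs2, hs3⟩ := exists_bounds hψc hψs
  obtain ⟨K, hKc, hKs, hK1⟩ := hK s s' hs1 hs2
  -- `R > 1`
  have hR : 1 < D.R := by
    have h1 : (4 : ℝ) ≤ kE P.eps P.gam := by
      unfold kE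
      have : (1 : ℝ) ≤ Real.exp ((1 + 2 * P.gam) / (2 - P.eps)) := by
        apply Real.one_le_exp
        have := hD.gam_pos
        have h2 : 0 < 2 - P.eps := by linarith
        positivity
      linarith
    have h2 : (1 : ℝ) ≤ kE P.eps P.gam ^ 4 := one_le_pow₀ (by linarith)
    have h3 := hD.R_ge
    have h4 := hD.l_ge
    nlinarith
  have hRp : 0 < D.R := by linarith
  have hlt : 1 / D.R < D.R := by
    rw [div_lt_iff₀ hRp]
    nlinarith
  have hpos : ∀ x ∈ D.Om, 0 < D.u x := fun x hx => hD.located.pos x hx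
  -- the support
  have hS : ∀ t, s' < t → ψ t = 0 := by
    intro t ht
    by_contra hne
    have := (hs3 t (subset_tsupport _ hne)).2
    linarith
  have key := hFLX P.eps (1 / D.R) D.R D.g' D.h' D.u D.G D.M hε hε1 (by positivity) hlt
    hD.modified.metric hD.modified.tensor hD.sol.h2 hD.sol.flux (psi1 P.eps ψ) K
    (psi1_contDiff hε hψ hS) hKc hKs (by
      intro x hx hux
      have h1 := psi1_tsupport (hpos x hx) hux
      exact hK1 ⟨hx, hs3 _ h1⟩)
  -- the right side is nonnegative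
  have hr : 0 ≤ ∫ x in Ann (1 / D.R) D.R,
      len D.g' x (D.G x) ^ P.eps * beps P.eps D.g' x (D.G x) (D.h' x) * psi1 P.eps ψ (D.u x)
        * volDen D.g' x := by
    apply integral_nonneg
    intro x
    have h1 : 0 ≤ psi1 P.eps ψ (D.u x) := by
      unfold psi1
      split_ifs
      · exact hψ0 _
      · exact le_refl _
    have h2 : 0 ≤ volDen D.g' x := Real.sqrt_nonneg _
    have h3 : 0 ≤ len D.g' x (D.G x) ^ P.eps * beps P.eps D.g' x (D.G x) (D.h' x) := by
      rcases eq_or_ne (D.G x) 0 with h0 | h0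
      · have : len D.g' x (D.G x) = 0 := by
          rw [h0]
          simp [len, ev]
        rw [this, Real.zero_rpow hε.ne', zero_mul]
      · refine mul_nonneg (Real.rpow_nonneg (Real.sqrt_nonneg _) _) ?_
        exact beps_nonneg hε hε1 (hD.modified.metric.posDef x trivial)
          (hD.modified.tensor.symm x trivial) (hD.modified.twoNonneg x trivial) h0
    exact mul_nonneg (mul_nonneg h3 h1) h2
  -- the left side
  have hmeas : MeasurableSet (Ann (1 / D.R) D.R) := by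
    have : Ann (1 / D.R) D.R = (fun x : E3 => ‖x‖) ⁻¹' Set.Ioo (1 / D.R) D.R := rfl
    rw [this]
    exact measurableSet_Ioo.preimage continuous_norm.measurable
  have hl : ∫ x in Ann (1 / D.R) D.R,
      deriv (psi1 P.eps ψ) (D.u x) * len D.g' x (D.G x) ^ (1 + P.eps) * volDen D.g' x
      = -(P.eps ^ (-P.eps)) * ∫ x in D.Om,
        deriv ψ (D.w P x) * (Real.exp (-D.w P x) * D.X P x ^ (1 + P.eps)) * D.vol x := by
    rw [← integral_const_mul]
    refine setIntegral_congr_fun hmeas fun x hx => ?_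
    have hu := hpos x hx
    have hX : D.X P x = P.eps / D.u x * len D.g' x (D.G x) := by
      have e : D.Gw P x = (-(P.eps / D.u x)) • D.G x := by
        funext i
        simp only [Dat.Gw, gOf, Pi.smul_apply, smul_eq_mul]
        ring
      rw [Dat.X, e, len_smul, abs_neg, abs_of_pos (div_pos hε hu)]
    have hw : Real.exp (-D.w P x) = D.u x ^ P.eps := by
      rw [Dat.w, wOf, Real.rpow_def_of_pos hu]
      congr 1
      ring
    have hw' : -P.eps * Real.log (D.u x) = D.w P x := rfl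
    change deriv (psi1 P.eps ψ) (D.u x) * len D.g' x (D.G x) ^ (1 + P.eps) * volDen D.g' x
      = -(P.eps ^ (-P.eps)) * (deriv ψ (D.w P x)
        * (Real.exp (-D.w P x) * D.X P x ^ (1 + P.eps)) * D.vol x)
    have hlen0 : 0 ≤ len D.g' x (D.G x) := Real.sqrt_nonneg _
    rw [psi1_deriv hψ hu, hX, hw, hw', Real.mul_rpow (div_pos hε hu).le hlen0,
      Real.div_rpow hε.le hu.le, Real.rpow_add hε, Real.rpow_one, Real.rpow_add hu, Real.rpow_one,
      Real.rpow_neg hε.le]
    have e1 : P.eps ^ P.eps ≠ 0 := (Real.rpow_pos_of_pos hε _).ne'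
    have e2 : D.u x ^ P.eps ≠ 0 := (Real.rpow_pos_of_pos hu _).ne'
    have e3 : D.u x ≠ 0 := hu.ne'
    change _ = -(P.eps ^ P.eps)⁻¹ * (_ * _ * volDen D.g' x)
    field_simp
  rw [hl] at key
  have hc : 0 < P.eps ^ (-P.eps) := Real.rpow_pos_of_pos hε _
  have h5 : 0 ≤ -(P.eps ^ (-P.eps)) * ∫ x in D.Om,
        deriv ψ (D.w P x) * (Real.exp (-D.w P x) * D.X P x ^ (1 + P.eps)) * D.vol x := by
    rw [key]
    exact hr
  nlinarith

end Pool.Agent.PFlow
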