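import Pool.Agent.PFlow.StmtsE3
import Pool.Agent.PFlow.StmtsM

/-!
# ABSW: Willmore's inequality in the flat region
-/

open MeasureTheory Filter Topology
open scoped ContDiff ENNReal

namespace Pool.Agent.PFlow

open Pool.Agent.PenroseSph

namespace EABSW

lemma isOpen_Ann (a b : ℝ) : IsOpen (Ann a b) := by
  have h1 : IsOpen {x : E3 | a < ‖x‖} := isOpen_lt continuous_const continuous_norm
  have h2 : IsOpen {x : E3 | ‖x‖ < b} := isOpen_lt continuous_norm continuous_const
  exact h1.inter h2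

lemma h2On_mono {U V : Set E3} {w : E3 → ℝ} {G : E3 → Cov} {M : E3 → Bil} (hUV : V ⊆ U)
    (h : H2On U w G M) : H2On V w G M where
  cont := h.cont.mono hUV
  memG := fun K hK hKV => h.memG K hK (hKV.trans hUV)
  memM := fun K hK hKV => h.memM K hK (hKV.trans hUV)
  approx := fun K hK hKV => h.approx K hK (hKV.trans hUV)

/-! ### The flat metric -/

lemma ev_one (p q : Cov) : ev 1 p q = ∑ i, p i * q i := by
  unfold ev
  refine Finset.sum_congr rfl fun i _ => ?_
  rw [Finset.sum_eq_single i]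
  · rw [Matrix.one_apply_eq, one_mul]
  · intro j _ hj
    rw [Matrix.one_apply_ne (Ne.symm hj), zero_mul, zero_mul]
  · intro h
    exact absurd (Finset.mem_univ i) h

lemma len_flat {g : TensorField} {x : E3} (hg : g x = 1) (p : Cov) : len g x p = vn p := by
  rw [len, hg, inv_one, ev_one, vn, vsq]
  congr 1
  refine Finset.sum_congr rfl fun i _ => ?_
  ring

lemma raise_flat {g : TensorField} {x : E3} (hg : g x = 1) (p : Cov) : raise g x p = p := by
  funext i
  rw [raise, hg, inv_one, Finset.sum_eq_single i]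
  · rw [Matrix.one_apply_eq, one_mul]
  · intro j _ hj
    rw [Matrix.one_apply_ne (Ne.symm hj), zero_mul]
  · intro h
    exact absurd (Finset.mem_univ i) h

lemma trg_flat {g : TensorField} {x : E3} (hg : g x = 1) (B : Bil) :
    trg g x B = ∑ i, B i i := by
  rw [trg, hg, inv_one]
  refine Finset.sum_congr rfl fun i _ => ?_
  rw [Finset.sum_eq_single i]
  · rw [Matrix.one_apply_eq, one_mul]
  · intro j _ hj
    rw [Matrix.one_apply_ne (Ne.symm hj), zero_mul]
  · intro h
    exact absurd (Finset.mem_univ i) h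

lemma ev_smul (B : Bil) (c : ℝ) (p : Cov) :
    ev B (fun i => p i / c) (fun i => p i / c) = ev B p p / c ^ 2 := by
  unfold ev
  rw [Finset.sum_div]
  refine Finset.sum_congr rfl fun i _ => ?_
  rw [Finset.sum_div]
  refine Finset.sum_congr rfl fun j _ => ?_
  show B i j * (p i / c) * (p j / c) = B i j * p i * p j / c ^ 2
  rw [div_eq_mul_inv, div_eq_mul_inv, div_eq_mul_inv, ← inv_pow]
  ring

lemma vsq_nonneg (p : Cov) : 0 ≤ vsq p := Finset.sum_nonneg fun i _ => sq_nonneg _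

lemma vn_sq (p : Cov) : vn p ^ 2 = vsq p := Real.sq_sqrt (vsq_nonneg p)

lemma btan_flat {g : TensorField} {x : E3} (hg : g x = 1) (p : Cov) (B : Bil) :
    btan g x p B = (∑ i, B i i) - ev B p p / vsq p := by
  rw [btan, trg_flat hg, bnn]
  have h : nrm g x p = fun i => p i / vn p := by
    funext i
    rw [nrm, raise_flat hg, len_flat hg]
  rw [h, ev_smul, vn_sq]

lemma volDen_flat {g : TensorField} {x : E3} (hg : g x = 1) : volDen g x = 1 := by
  rw [volDen, hg, Matrix.det_one, Real.sqrt_one]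

lemma chr_flat {g : TensorField} {x : E3} (hg : ∀ᶠ y in 𝓝 x, g y = 1) (k i j : Fin 3) :
    christoffel g k i j x = 0 := by
  have h : ∀ l a b : Fin 3, pd l (fun y => g y a b) x = 0 := by
    intro l a b
    have h1 : (fun y => g y a b) =ᶠ[𝓝 x] fun _ => (1 : Bil) a b := by
      filter_upwards [hg] with y hy
      rw [hy]
    rw [pd, h1.fderiv_eq, fderiv_fun_const]
    rfl
  rw [christoffel]
  simp only [h]
  simp

lemma cHess_flat {g : TensorField} {x : E3} (hg : ∀ᶠ y in 𝓝 x, g y = 1) (p : Cov) (M : Bil) :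
    cHess g x p M = M := by
  ext i j
  rw [cHess, Matrix.of_apply]
  simp only [chr_flat hg]
  simp

/-! ### The test function -/

lemma support_bounds {ψ : ℝ → ℝ} {s₀ s₁ : ℝ} (hs : s₀ < s₁) (hc : HasCompactSupport ψ)
    (ht : tsupport ψ ⊆ Set.Ioo s₀ s₁) :
    ∃ s s', s₀ < s ∧ s < s' ∧ s' < s₁ ∧ ∀ t, ψ t ≠ 0 → s ≤ t ∧ t ≤ s' := by
  rcases (tsupport ψ).eq_empty_or_nonempty with h | h
  · refine ⟨s₀ + (s₁ - s₀) / 3, s₀ + 2 * (s₁ - s₀) / 3, by linarith, by linarith, by linarith, ?_⟩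
    intro t h1
    have h2 : t ∈ tsupport ψ := subset_tsupport _ h1
    rw [h] at h2
    exact absurd h2 (Set.notMem_empty t)
  · obtain ⟨u, hu, hu'⟩ := hc.isCompact.exists_isLeast h
    obtain ⟨v, hv, hv'⟩ := hc.isCompact.exists_isGreatest h
    have h1 := ht hu
    have h2 := ht hv
    have huv : u ≤ v := hu' hv
    refine ⟨(s₀ + u) / 2, (v + s₁) / 2, by linarith [h1.1], by linarith [h1.1, h2.2],
      by linarith [h2.2], ?_⟩
    intro t h3
    have h4 : t ∈ tsupport ψ := subset_tsupport _ h3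
    exact ⟨by linarith [hu' h4, h1.1], by linarith [hv' h4, h2.2]⟩

lemma integrable_test {P : Par} {D : Dat} {f : E3 → ℝ} (hf : LvlInt P D f)
    (hw : Measurable (D.w P)) {ψ : ℝ → ℝ} (hψ : Continuous ψ) (hc : HasCompactSupport ψ)
    {s s' : ℝ} (h1 : D.sb P / 4 < s) (h2 : s < s') (h3 : s' < D.sM P)
    (h4 : ∀ t, ψ t ≠ 0 → s ≤ t ∧ t ≤ s') :
    IntegrableOn (fun x => ψ (D.w P x) * f x) D.Om := by
  obtain ⟨C, hC⟩ := hc.exists_bound_of_continuous hψ
  have hOm : MeasurableSet D.Om := (isOpen_Ann _ _).measurableSet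
  have h5 : IntegrableOn (fun x => ψ (D.w P x) * f x)
      (D.Om ∩ {x | s ≤ D.w P x ∧ D.w P x ≤ s'}) := by
    refine Integrable.bdd_mul (c := C) (hf s s' h1 h2 h3) ?_ ?_
    · exact (hψ.measurable.comp hw).aestronglyMeasurable
    · exact Eventually.of_forall fun x => hC _
  refine h5.of_forall_sdiff_eq_zero hOm fun x hx => ?_
  have : ψ (D.w P x) = 0 := by
    by_contra h
    exact hx.2 ⟨hx.1, h4 _ h⟩
  rw [this, zero_mul]

end EABSW

open EABSW in
/-- ABSW: Willmore's inequality in the flat region. -/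
theorem ABSW (hSETW : Stmt_SETW) (hABSI : Stmt_ABSI) (hW : Stmt_W) (hPTD : Stmt_PTD)
    (hHSYM : Stmt_HSYM) (hINT : Stmt_INT) : Stmt_ABSW := by
  intro P D hS ψ hψ hψ0 hψc hψt
  obtain ⟨hmet, hten, htwo, hH2, hEq, -, hwm, -, hSep, -, h4l, -, -, -, -, hsb0, hsb1, -, hs2,
    hs2M, hKlR, h4Kl⟩ := hSETW P D hS
  obtain ⟨-, -, iPhi, iDi, -, -, -, -⟩ := hABSI P D hS
  have hl := hS.l_ge
  have hR : 8 * D.l ≤ D.R := by linarith
  have hRpos : 0 < D.R := by linarith
  have hε0 := hS.eps_pos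
  have hε1 := hS.eps_le
  have hlt : D.s2 P < D.sM P := by linarith [hS.gam_pos]
  set U : Set E3 := Ann (2 * D.l) D.R with hU
  have hUo : IsOpen U := isOpen_Ann _ _
  have hOo : IsOpen D.Om := isOpen_Ann _ _
  have hUO : U ⊆ D.Om := by
    intro x hx
    refine ⟨?_, hx.2⟩
    have h1 : 1 / D.R ≤ 1 := by
      rw [div_le_one hRpos]
      linarith
    have h2 : 2 * D.l < ‖x‖ := hx.1
    linarith
  have hflat : ∀ x ∈ U, D.g' x = 1 := fun x hx => hS.modified.flat x hx.1.le
  have hflat' : ∀ x ∈ U, ∀ᶠ y in 𝓝 x, D.g' y = 1 := fun x hx => by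
    filter_upwards [hUo.mem_nhds hx] with y hy
    exact hflat y hy
  have hh0 : ∀ x ∈ U, D.h' x = 0 := fun x hx => hS.modified.supp x (by
    have : 2 * D.l < ‖x‖ := hx.1
    linarith)
  -- Willmore's inequality
  have hEqU : ∀ᵐ x ∂(volume.restrict U),
      (D.Gw P x ≠ 0 → beps P.eps D.g' x (D.Gw P x) (cHess D.g' x (D.Gw P x) (D.Mw P x))
        = len D.g' x (D.Gw P x) ^ 2
          + len D.g' x (D.Gw P x) * beps P.eps D.g' x (D.Gw P x) (D.h' x)) ∧
      (D.Gw P x = 0 → D.Mw P x = 0) := ae_restrict_of_ae_restrict_of_subset hUO hEq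
  have hmsq : ∀ K : Set E3, IsCompact K → K ⊆ U →
      IntegrableOn (fun x => msq (D.Mw P x) / vn (D.Gw P x)) K := by
    intro K hK hKU
    exact (hINT P.eps D.Om D.g' D.h' (D.w P) (D.Gw P) (D.Mw P) hε0 (by linarith) hOo hmet hten
      hH2 hEq K hK (hKU.trans hUO)).2.2.2.1
  have hWil := hW (2 * D.l) D.R (D.s2 P) (D.sM P) (D.w P) (D.Gw P) (D.Mw P) (by linarith)
    (by linarith) hlt (h2On_mono hUO hH2) (hEqU.mono fun x hx => hx.2) hmsq hSep ψ hψ hψc hψt hψ0
  -- the pointwise inequality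
  obtain ⟨C, hC0, hC⟩ := hPTD P.eps hε0 hε1
  have hsym := ae_restrict_of_ae_restrict_of_subset hUO (hHSYM D.Om (D.w P) (D.Gw P) (D.Mw P)
    hOo hH2)
  have hlam : 0 < lam P.eps := by
    unfold lam
    have : 0 < 2 - P.eps := by linarith
    have : 0 < 4 - P.eps := by linarith
    positivity
  have hpt : ∀ᵐ x ∂(volume.restrict U), (2 - P.eps) / 4 * Wd (D.Gw P x) (D.Mw P x) ≤
      D.Phi P x * D.vol x + 1 / lam P.eps * (D.Di P x * D.vol x) := by
    rw [ae_restrict_iff' hUo.measurableSet] at hEqU hsym ⊢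
    filter_upwards [hEqU, hsym] with x hx hsx hxU
    have hx := hx hxU
    have hsx := hsx hxU
    have hv : D.vol x = 1 := volDen_flat (hflat x hxU)
    rw [hv, mul_one, mul_one]
    by_cases hp : D.Gw P x = 0
    · have hM := hx.2 hp
      have h1 : Wd (D.Gw P x) (D.Mw P x) = 0 := by
        rw [hp, hM, Wd]
        have h2 : vn (0 : Cov) = 0 := by simp [vn, vsq]
        rw [h2, div_zero]
      have h2 : len D.g' x (D.Gw P x) = 0 := by
        rw [hp, len_flat (hflat x hxU)]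
        simp [vn, vsq]
      have h3 : D.Phi P x = 0 := by
        show flux P.eps D.g' D.h' x (D.Gw P x) (D.Mw P x) = 0
        rw [flux, h2, hh0 x hxU]
        simp [ev, trg]
      have h4 : D.Di P x = 0 := by
        show len D.g' x (D.Gw P x) * _ = 0
        rw [h2, zero_mul]
      rw [h1, h3, h4]
      simp
    · have h1 := hC D.g' D.h' x (D.Gw P x) (D.Mw P x) (hmet.posDef x (hUO hxU))
        (hten.symm x (hUO hxU)) hsx
        (fun k i j => by rw [chr_flat (hflat' x hxU), chr_flat (hflat' x hxU)]) hp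
        (htwo x (hUO hxU)) (hx.1 hp)
      obtain ⟨-, -, h2⟩ := h1
      obtain ⟨h3, h4⟩ := h2 (hh0 x hxU)
      have h5 : btan D.g' x (D.Gw P x) (cHess D.g' x (D.Gw P x) (D.Mw P x)) ^ 2
          / len D.g' x (D.Gw P x) = Wd (D.Gw P x) (D.Mw P x) := by
        rw [cHess_flat (hflat' x hxU), btan_flat (hflat x hxU), len_flat (hflat x hxU), Wd]
      have h6 : D.Phi P x = flux P.eps D.g' D.h' x (D.Gw P x) (D.Mw P x) := rfl
      have h7 : D.Di P x = len D.g' x (D.Gw P x) *
        diss P.eps D.g' D.h' x (D.Gw P x) (D.Mw P x) := rfl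
      rw [h6, h3, h5, h7]
      linarith
  -- integrability
  obtain ⟨s, s', hs, hss', hs', hsup⟩ := support_bounds hlt hψc hψt
  have hsb : D.sb P / 4 < s := by linarith
  have j1 := integrable_test iPhi hwm hψ hψc hsb hss' hs' hsup
  have j2 := integrable_test iDi hwm hψ hψc hsb hss' hs' hsup
  have hzero : ∀ f : E3 → ℝ, ∫ x in D.Om, ψ (D.w P x) * f x = ∫ x in U, ψ (D.w P x) * f x := by
    intro f
    refine (setIntegral_eq_of_subset_of_forall_sdiff_eq_zero hOo.measurableSet hUO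
      fun x hx => ?_)
    have h0 : ψ (D.w P x) = 0 := by
      by_contra h
      have h1 := (hsup _ h).1
      have h2 := h4l x hx.1 (by linarith)
      refine hx.2 ⟨?_, hx.1.2⟩
      have : 4 * D.l ≤ ‖x‖ := h2
      linarith
    rw [h0, zero_mul]
  have k1 : IntegrableOn (fun x => ψ (D.w P x) * (D.Phi P x * D.vol x)) U := j1.mono_set hUO
  have k2 : IntegrableOn (fun x => ψ (D.w P x) * (D.Di P x * D.vol x)) U := j2.mono_set hUO
  -- comparison of the integrals
  have hmono : ∫ x in U, (2 - P.eps) / 4 * (ψ (D.w P x) * Wd (D.Gw P x) (D.Mw P x)) ≤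
      ∫ x in U, (ψ (D.w P x) * (D.Phi P x * D.vol x) +
        1 / lam P.eps * (ψ (D.w P x) * (D.Di P x * D.vol x))) := by
    refine integral_mono_of_nonneg ?_ (k1.add (k2.const_mul _)) ?_
    · refine Eventually.of_forall fun x => ?_
      have h1 : 0 ≤ Wd (D.Gw P x) (D.Mw P x) := div_nonneg (sq_nonneg _) (Real.sqrt_nonneg _)
      have h2 : 0 ≤ (2 - P.eps) / 4 := by linarith
      exact mul_nonneg h2 (mul_nonneg (hψ0 _) h1)
    · filter_upwards [hpt] with x hx
      calc (2 - P.eps) / 4 * (ψ (D.w P x) * Wd (D.Gw P x) (D.Mw P x))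
          = ψ (D.w P x) * ((2 - P.eps) / 4 * Wd (D.Gw P x) (D.Mw P x)) := by ring
        _ ≤ ψ (D.w P x) * (D.Phi P x * D.vol x + 1 / lam P.eps * (D.Di P x * D.vol x)) :=
            mul_le_mul_of_nonneg_left hx (hψ0 _)
        _ = _ := by ring
  have hR1 : ∫ x in U, (ψ (D.w P x) * (D.Phi P x * D.vol x) +
        1 / lam P.eps * (ψ (D.w P x) * (D.Di P x * D.vol x))) =
      (∫ x in U, ψ (D.w P x) * (D.Phi P x * D.vol x)) +
        1 / lam P.eps * ∫ x in U, ψ (D.w P x) * (D.Di P x * D.vol x) := by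
    rw [← integral_const_mul]
    exact integral_add k1 (k2.const_mul _)
  rw [integral_const_mul, hR1] at hmono
  have e1 : ∫ x in D.Om, ψ (D.w P x) * D.Phi P x * D.vol x =
      ∫ x in U, ψ (D.w P x) * (D.Phi P x * D.vol x) := by
    rw [← hzero]
    simp only [mul_assoc]
  have e2 : ∫ x in D.Om, ψ (D.w P x) * D.Di P x * D.vol x =
      ∫ x in U, ψ (D.w P x) * (D.Di P x * D.vol x) := by
    rw [← hzero]
    simp only [mul_assoc]
  rw [e1, e2]
  have h2 : 0 ≤ (2 - P.eps) / 4 := by linarith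
  have h3 := mul_le_mul_of_nonneg_left hWil h2
  have h4 : (2 - P.eps) / 4 * (16 * Real.pi * ∫ s, ψ s) =
      4 * Real.pi * (2 - P.eps) * ∫ s, ψ s := by ring
  rw [h4] at h3
  linarith

end Pool.Agent.PFlow
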