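import Pool.Agent.PFlow.StmtsE3
import Pool.Agent.PFlow.StmtsM

set_option autoImplicit false

/-!
# ABSX: the identity of the flux density in the flat region
-/

open MeasureTheory Filter Topology
open scoped ContDiff ENNReal

namespace Pool.Agent.PFlow

open Pool.Agent.PenroseSph

namespace ABSXaux

lemma integrableOn_vsz4 {G : E3 → Cov} {K : Set E3}
    (h : ∀ i, MemLp (fun x => G x i) 4 (volume.restrict K)) :
    IntegrableOn (fun x => vsz (G x) ^ 4) K := by
  have hm : ∀ i, AEStronglyMeasurable (fun x => G x i) (volume.restrict K) := fun i => (h i).1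
  have h4 : ∀ i, Integrable (fun x => ‖G x i‖ ^ 4) (volume.restrict K) := fun i =>
    (h i).integrable_norm_pow (p := 4) (by norm_num)
  have hsum : Integrable (fun x => 3 * ∑ i, ‖G x i‖ ^ 4) (volume.restrict K) :=
    (integrable_finsetSum _ fun i _ => h4 i).const_mul 3
  have e : ∀ x, vsz (G x) ^ 4 = (∑ i, G x i ^ 2) ^ 2 := by
    intro x
    unfold vsz
    have h0 : 0 ≤ ∑ i, G x i ^ 2 := Finset.sum_nonneg fun i _ => sq_nonneg _
    calc Real.sqrt (∑ i, G x i ^ 2) ^ 4 = (Real.sqrt (∑ i, G x i ^ 2) ^ 2) ^ 2 := by ring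
      _ = _ := by rw [Real.sq_sqrt h0]
  unfold IntegrableOn
  simp only [e]
  refine hsum.mono' ?_ (ae_of_all _ fun x => ?_)
  · have : AEStronglyMeasurable (fun x => ∑ i, G x i ^ 2) (volume.restrict K) :=
      Finset.aestronglyMeasurable_fun_sum _ fun i _ => (hm i).pow 2
    exact this.pow 2
  · rw [Real.norm_eq_abs, abs_of_nonneg (sq_nonneg _)]
    simp only [Fin.sum_univ_three, Real.norm_eq_abs]
    have h0 : |G x 0| ^ 4 = (G x 0 ^ 2) ^ 2 := by rw [← sq_abs (G x 0)]; ring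
    have h1 : |G x 1| ^ 4 = (G x 1 ^ 2) ^ 2 := by rw [← sq_abs (G x 1)]; ring
    have h2 : |G x 2| ^ 4 = (G x 2 ^ 2) ^ 2 := by rw [← sq_abs (G x 2)]; ring
    rw [h0, h1, h2]
    nlinarith [sq_nonneg (G x 0 ^ 2 - G x 1 ^ 2), sq_nonneg (G x 0 ^ 2 - G x 2 ^ 2),
      sq_nonneg (G x 1 ^ 2 - G x 2 ^ 2)]

lemma exists_Icc {ψ : ℝ → ℝ} {c d : ℝ} (hcd : c < d) (hK : IsCompact (tsupport ψ))
    (h : tsupport ψ ⊆ Set.Ioo c d) :
    ∃ c' d' : ℝ, c < c' ∧ d' < d ∧ ∀ s ∈ tsupport ψ, c' ≤ s ∧ s ≤ d' := by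
  rcases (tsupport ψ).eq_empty_or_nonempty with he | hne
  · refine ⟨c + (d - c) / 3, d - (d - c) / 3, by linarith, by linarith, ?_⟩
    intro s hs
    rw [he] at hs
    exact absurd hs (Set.notMem_empty s)
  · obtain ⟨m, hm, hm'⟩ := hK.exists_isLeast hne
    obtain ⟨M, hM, hM'⟩ := hK.exists_isGreatest hne
    exact ⟨m, M, (h hm).1, (h hM).2, fun s hs => ⟨hm' hs, hM' hs⟩⟩

lemma trg_zero (g : TensorField) (x : E3) : trg g x (0 : Bil) = 0 := by
  simp [trg]

lemma bnn_zero (g : TensorField) (x : E3) (p : Cov) : bnn g x p (0 : Bil) = 0 := by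
  simp [bnn, ev]

lemma beps_zero (ε : ℝ) (g : TensorField) (x : E3) (p : Cov) : beps ε g x p (0 : Bil) = 0 := by
  simp [beps, trg_zero, bnn_zero]

lemma btan_zero (g : TensorField) (x : E3) (p : Cov) : btan g x p (0 : Bil) = 0 := by
  simp [btan, trg_zero, bnn_zero]

lemma one_lt_R {P : Par} {D : Dat} (hS : Setup P D) : 1 < D.R := by
  have h1 : (1 : ℝ) ≤ kE P.eps P.gam := by
    unfold kE
    have h2 : 0 ≤ (1 + 2 * P.gam) / (2 - P.eps) := by
      have := hS.gam_pos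
      have := hS.eps_le
      apply div_nonneg <;> linarith
    have h3 := Real.one_le_exp h2
    linarith
  have h2 : (1 : ℝ) ≤ kE P.eps P.gam ^ 4 := one_le_pow₀ h1
  have h3 := hS.l_ge
  have h4 := hS.R_ge
  nlinarith

end ABSXaux

open ABSXaux

theorem ABSX (hSETW : Stmt_SETW) (hXID : Stmt_XID) (hL4 : Stmt_L4) : Stmt_ABSX := by
  intro P D hS ψ hψ hψc hψs
  obtain ⟨hg, hh, -, hH2, hEq, -, -, -, -, -, hfar, -, -, -, hcomp, hsb0, hsb1, -, hs2, hsM, -, -⟩ :=
    hSETW P D hS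
  have hR := one_lt_R hS
  have hR0 : 0 < D.R := by linarith
  have hgam := hS.gam_pos
  have hOmo : IsOpen D.Om := by
    unfold Dat.Om Ann
    exact (isOpen_lt continuous_const continuous_norm).inter
      (isOpen_lt continuous_norm continuous_const)
  have hOm : MeasurableSet D.Om := hOmo.measurableSet
  have hlt : D.s2 P < D.sM P := by linarith
  obtain ⟨s, s', hs, hs', hss⟩ := exists_Icc hlt hψc hψs
  obtain ⟨K, hK, hKO, hKs⟩ := hcomp s s' (by linarith) hs'
  have hL := (hL4 D.Om (D.w P) (D.Gw P) (D.Mw P) hOmo hH2).memG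
  have key := hXID P.eps (1 / D.R) D.R D.g' D.h' (D.w P) (D.Gw P) (D.Mw P) hS.eps_pos
    (by linarith [hS.eps_le]) (by positivity)
    (lt_of_le_of_lt (by rw [div_le_one hR0]; exact hR.le) hR) hg hh hH2 hEq
    (fun K hK hKO => integrableOn_vsz4 (hL K hK hKO)) ψ K hψ hK hKO
    (fun x hx hw => hKs ⟨hx, hss _ hw⟩)
  have hzero : ∫ x in Ann (1 / D.R) D.R, ψ (D.w P x) * len D.g' x (D.Gw P x) ^ 2
      * (2 / (2 - P.eps) * beps P.eps D.g' x (D.Gw P x) (D.h' x)
        - btan D.g' x (D.Gw P x) (D.h' x)) * volDen D.g' x = 0 := by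
    apply setIntegral_eq_zero_of_forall_eq_zero
    intro x hx
    by_cases h0 : ψ (D.w P x) = 0
    · rw [h0]; ring
    · have h1 : D.w P x ∈ tsupport ψ := subset_tsupport ψ h0
      have h2 := hfar x hx (hψs h1).1.le
      have h3 : D.h' x = 0 := hS.modified.supp x (by linarith [hS.l_ge])
      rw [h3, beps_zero, btan_zero]
      ring
  rw [hzero, add_zero] at key
  exact key

end Pool.Agent.PFlow
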