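import Pool.Agent.PFlow.StmtsE3

set_option autoImplicit false

/-!
# ENER: the energy bound
-/

open MeasureTheory Filter Topology
open scoped ContDiff ENNReal

namespace Pool.Agent.PFlow

open Pool.Agent.PenroseSph

namespace ENERaux

lemma measurableSet_cAnn (a b : ℝ) : MeasurableSet (cAnn a b) := by
  have h1 : IsClosed {x : E3 | a ≤ ‖x‖} := isClosed_le continuous_const continuous_norm
  have h2 : IsClosed {x : E3 | ‖x‖ ≤ b} := isClosed_le continuous_norm continuous_const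
  exact (h1.inter h2).measurableSet

lemma cAnn_mono {a b a' b' : ℝ} (ha : a' ≤ a) (hb : b ≤ b') : cAnn a b ⊆ cAnn a' b' :=
  fun _ hx => ⟨ha.trans hx.1, hx.2.trans hb⟩

lemma ae_ne_norm {r : ℝ} (hr : 0 < r) : ∀ᵐ x : E3, ‖x‖ ≠ r := by
  have h : (volume : Measure E3) (Metric.sphere (0 : E3) r) = 0 :=
    Measure.addHaar_sphere_of_ne_zero volume 0 hr.ne'
  have h2 := measure_eq_zero_iff_ae_notMem.1 h
  filter_upwards [h2] with x hx hx'
  exact hx (by simpa using hx')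

lemma msz_le {B : Bil} {c : ℝ} (hc : 0 ≤ c) (h : ∀ i j, |B i j| ≤ c) : msz B ≤ 3 * c := by
  unfold msz
  apply Real.sqrt_le_iff.2
  refine ⟨by positivity, ?_⟩
  have h1 : ∀ i j, B i j ^ 2 ≤ c ^ 2 := fun i j => by
    rw [← sq_abs]; exact pow_le_pow_left₀ (abs_nonneg _) (h i j) 2
  simp only [Fin.sum_univ_three]
  nlinarith [h1 0 0, h1 0 1, h1 0 2, h1 1 0, h1 1 1, h1 1 2, h1 2 0, h1 2 1, h1 2 2]

lemma msz_nonneg (B : Bil) : 0 ≤ msz B := Real.sqrt_nonneg _

/-- The constant of the lower bound of the cut-off function. -/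
noncomputable def c0 (P : Par) : ℝ := Real.exp (-(lam P.eps / 2 * (1 + 2 * P.gam)))

/-- The constant `B₂ / s_b² ≤ B Kb`. -/
noncomputable def Kb (P : Par) : ℝ := ((P.eps * P.c * (4 : ℝ) ^ (-pe P.eps)) ^ 2)⁻¹

lemma lam_nonneg {ε : ℝ} (h0 : 0 < ε) (h1 : ε ≤ 1 / 2) : 0 ≤ lam ε := by
  unfold lam
  apply div_nonneg
  · linarith
  · exact mul_nonneg h0.le (by linarith)

lemma B2_le {P : Par} {D : Dat} (hS : Setup P D) {B : ℝ} (hB : 0 ≤ B) :
    B * D.l ^ (-(2 * pe P.eps + 1)) / D.sb P ^ 2 ≤ B * Kb P := by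
  have hl : 0 < D.l := by linarith [hS.l_ge]
  have hl1 : 1 ≤ D.l := by linarith [hS.l_ge]
  have he := hS.eps_pos
  have hc := hS.c_pos
  unfold Dat.sb sbE Kb
  rw [Real.mul_rpow (by norm_num) hl.le]
  have e1 : D.l ^ (-(2 * pe P.eps + 1)) = D.l ^ (-pe P.eps) * D.l ^ (-pe P.eps) * D.l⁻¹ := by
    rw [← Real.rpow_add hl, ← Real.rpow_neg_one, ← Real.rpow_add hl]
    congr 1
    ring
  rw [e1]
  have h4 : (0 : ℝ) < (4 : ℝ) ^ (-pe P.eps) := Real.rpow_pos_of_pos (by norm_num) _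
  have hlp : 0 < D.l ^ (-pe P.eps) := Real.rpow_pos_of_pos hl _
  have e2 : B * (D.l ^ (-pe P.eps) * D.l ^ (-pe P.eps) * D.l⁻¹) /
      (P.eps * P.c * ((4 : ℝ) ^ (-pe P.eps) * D.l ^ (-pe P.eps))) ^ 2 =
      B * ((P.eps * P.c * (4 : ℝ) ^ (-pe P.eps)) ^ 2)⁻¹ * D.l⁻¹ := by
    field_simp
  rw [e2]
  have h5 : D.l⁻¹ ≤ 1 := inv_le_one_of_one_le₀ hl1
  have h6 : 0 ≤ B * ((P.eps * P.c * (4 : ℝ) ^ (-pe P.eps)) ^ 2)⁻¹ := by positivity
  nlinarith

lemma ph_nonneg (P : Par) (D : Dat) (x : E3) : 0 ≤ D.ph P x :=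
  mul_nonneg (Real.exp_pos _).le (Real.sqrt_nonneg _)

/-- Integrals of the weight over subsets of the shell. -/
lemma ph_sub {P : Par} {D : Dat} {Bu : ℝ} {A : Set E3}
    (hint : IntegrableOn (D.ph P) (cAnn (D.l / 4) (D.Kl P)))
    (hle : (∫ x in cAnn (D.l / 4) (D.Kl P), D.ph P x) ≤ Bu * D.l ^ 3)
    (hA : A ⊆ cAnn (D.l / 4) (D.Kl P)) :
    IntegrableOn (D.ph P) A ∧ (∫ x in A, D.ph P x) ≤ Bu * D.l ^ 3 := by
  refine ⟨hint.mono_set hA, ?_⟩
  refine le_trans (setIntegral_mono_set hint ?_ hA.eventuallyLE) hle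
  exact ae_of_all _ fun x => ph_nonneg P D x

lemma weighted {P : Par} {D : Dat} {Bu k : ℝ} {A : Set E3} {F : E3 → ℝ} (hl : 0 < D.l)
    (hk : 0 ≤ k) (hmA : MeasurableSet A)
    (hint : IntegrableOn (D.ph P) (cAnn (D.l / 4) (D.Kl P)))
    (hle : (∫ x in cAnn (D.l / 4) (D.Kl P), D.ph P x) ≤ Bu * D.l ^ 3)
    (hA : A ⊆ cAnn (D.l / 4) (D.Kl P)) (hF : ∀ᵐ x : E3, x ∈ A → |F x| ≤ k / D.l ^ 3) :
    |∫ x in A, D.ph P x * F x| ≤ k * Bu := by
  obtain ⟨h1, h2⟩ := ph_sub hint hle hA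
  have h3 : |∫ x in A, D.ph P x * F x| ≤ ∫ x in A, D.ph P x * (k / D.l ^ 3) := by
    rw [← Real.norm_eq_abs]
    refine norm_integral_le_of_norm_le (h1.mul_const _) ?_
    refine (ae_restrict_iff' hmA).2 ?_
    filter_upwards [hF] with x hx hxA
    rw [norm_mul, Real.norm_eq_abs, Real.norm_eq_abs, abs_of_nonneg (ph_nonneg P D x)]
    exact mul_le_mul_of_nonneg_left (hx hxA) (ph_nonneg P D x)
  rw [integral_mul_const] at h3
  refine h3.trans ?_
  have hl3 : 0 < D.l ^ 3 := by positivity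
  calc (∫ x in A, D.ph P x) * (k / D.l ^ 3) ≤ (Bu * D.l ^ 3) * (k / D.l ^ 3) :=
        mul_le_mul_of_nonneg_right h2 (by positivity)
    _ = k * Bu := by field_simp

end ENERaux

open ENERaux

theorem ENER (hSETW : Stmt_SETW) (hBETA : Stmt_BETA) (hTSTA : Stmt_TSTA) (hUPH : Stmt_UPH)
    (hMATL : Stmt_MATL) : Stmt_ENER := by
  intro P B
  obtain ⟨β, hβ⟩ := hBETA
  obtain ⟨Bu, hBu, hUPH⟩ := hUPH P B β hβ
  obtain ⟨Bm, hBm, hMATL⟩ := hMATL P B
  by_cases hP : 0 < P.eps ∧ P.eps ≤ 1 / 2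
  swap
  · exact ⟨1, one_pos, fun D hS => absurd ⟨hS.eps_pos, hS.eps_le⟩ hP⟩
  obtain ⟨Ct, hCt, hTSTA⟩ := hTSTA P.eps hP.1 hP.2
  set K2 : ℝ := Ct * (B * Kb P + (1 + B)) + 1 + Bm * ((12 * P.C + 144 * P.C ^ 2) * Bu)
    + 1 / 2 * (P.C * Bu) + Bm * Bu with hK2
  refine ⟨|2 / c0 P * K2| + 1, by positivity, ?_⟩
  intro D hS hA se hcut
  obtain ⟨-, -, -, -, -, -, -, -, -, -, -, hlow, hup, -, -, hsb0, hsb1, -, hs2, hsM, hKR, hKl⟩ :=
    hSETW P D hS
  obtain ⟨-, hphi, hphle⟩ := hUPH D hS hA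
  obtain ⟨hM1, -⟩ := hMATL D hS hA
  have hgam := hS.gam_pos
  have hl4 := hS.l_ge
  have hl : 0 < D.l := by linarith
  have hl1 : 1 ≤ D.l := by linarith
  have hCpos := hS.C_pos
  have hse1 : D.s2 P + 1 ≤ se := by linarith [hcut.lower]
  have hse2 : se + 1 < D.sM P := hcut.upper
  have hB : 0 ≤ B := by
    have h1 := hA.window (D.s2 P) le_rfl (by linarith)
    refine le_trans ?_ h1
    apply setIntegral_nonneg
    · exact hA.measOmega.inter ((measurableSet_lt measurable_const hA.meas_w).inter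
        (measurableSet_lt hA.meas_w measurable_const))
    · intro x _
      exact mul_nonneg (pow_nonneg (hA.X_nonneg x) 3) (hA.vol_nonneg x)
  have hB2 : 0 ≤ B * D.l ^ (-(2 * pe P.eps + 1)) :=
    mul_nonneg hB (Real.rpow_nonneg hl.le _)
  obtain ⟨χ, hχc, hχ01, hχ0, hχ1, hχlow, hχend, hT⟩ :=
    hTSTA D.Om D.vol (D.w P) (D.X P) (D.Phi P) (D.Di P) (D.Su P) (D.sb P) (D.s2 P) (D.sM P)
      B (B * D.l ^ (-(2 * pe P.eps + 1))) hA hsb0 hsb1 (by linarith) hB hB2 se hse1 hse2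
  -- upper bound of the right side
  have her : Real.exp (D.s2 P / (2 - P.eps)) *
      Real.exp (-((lam P.eps / 2 - 1 / (2 - P.eps)) * (se - D.s2 P))) ≤ 1 := hcut.err
  have hrhs : Ct * (B * D.l ^ (-(2 * pe P.eps + 1)) / D.sb P ^ 2
      + (1 + B) * Real.exp (D.s2 P / (2 - P.eps))
        * Real.exp (-((lam P.eps / 2 - 1 / (2 - P.eps)) * (se - D.s2 P))))
      ≤ Ct * (B * Kb P + (1 + B)) := by
    apply mul_le_mul_of_nonneg_left _ hCt.le
    have h1 := B2_le hS hB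
    have h2 : (1 + B) * Real.exp (D.s2 P / (2 - P.eps))
        * Real.exp (-((lam P.eps / 2 - 1 / (2 - P.eps)) * (se - D.s2 P))) ≤ (1 + B) * 1 := by
      rw [mul_assoc]
      exact mul_le_mul_of_nonneg_left her (by linarith)
    linarith
  -- lower bound of the matter term
  have hm := hM1 χ se hχc hχ01 hχ0 hχ1 hse2 hχend
  have hsub1 : cAnn (D.l / 2) D.l ⊆ cAnn (D.l / 4) (D.Kl P) :=
    cAnn_mono (by linarith) (by linarith)
  have hsub2 : cAnn D.l (2 * D.l) ⊆ cAnn (D.l / 4) (D.Kl P) :=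
    cAnn_mono (by linarith) (by linarith)
  have hshell : |∫ x in cAnn (D.l / 2) D.l, D.ph P x * (msz (D.h x) / D.l + msz (D.h x) ^ 2)|
      ≤ (12 * P.C + 144 * P.C ^ 2) * Bu := by
    apply weighted hl (by positivity) (measurableSet_cAnn _ _) hphi hphle hsub1
    refine ae_of_all _ fun x hx => ?_
    have hx1 : 1 ≤ ‖x‖ := by linarith [hx.1]
    have hx2 : (D.l / 2) ^ 2 ≤ ‖x‖ ^ 2 := pow_le_pow_left₀ (by linarith) hx.1 2
    have h1 : ∀ i j, |D.h x i j| ≤ 4 * P.C / D.l ^ 2 := by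
      intro i j
      refine (hS.hdecay x hx1 i j).trans ?_
      rw [div_le_div_iff₀ (by positivity) (by positivity)]
      nlinarith
    have h2 : msz (D.h x) ≤ 12 * P.C / D.l ^ 2 := by
      refine (msz_le (by positivity) h1).trans (le_of_eq ?_)
      ring
    have h3 := msz_nonneg (D.h x)
    have h4 : msz (D.h x) / D.l ≤ 12 * P.C / D.l ^ 3 := by
      calc msz (D.h x) / D.l ≤ (12 * P.C / D.l ^ 2) / D.l := by gcongr
        _ = _ := by field_simp
    have h5 : msz (D.h x) ^ 2 ≤ 144 * P.C ^ 2 / D.l ^ 3 := by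
      calc msz (D.h x) ^ 2 ≤ (12 * P.C / D.l ^ 2) ^ 2 := pow_le_pow_left₀ h3 h2 2
        _ = 144 * P.C ^ 2 / (D.l ^ 3 * D.l) := by field_simp; ring
        _ ≤ 144 * P.C ^ 2 / D.l ^ 3 := by
          apply div_le_div_of_nonneg_left (by positivity) (by positivity)
          have : 0 < D.l ^ 3 := by positivity
          nlinarith
    rw [abs_of_nonneg (by positivity)]
    calc msz (D.h x) / D.l + msz (D.h x) ^ 2 ≤ 12 * P.C / D.l ^ 3 + 144 * P.C ^ 2 / D.l ^ 3 :=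
          add_le_add h4 h5
      _ = _ := by ring
  have htrans : |∫ x in cAnn D.l (2 * D.l), D.ph P x * linR D.g' x| ≤ P.C * Bu := by
    apply weighted hl hCpos.le (measurableSet_cAnn _ _) hphi hphle hsub2
    filter_upwards [ae_ne_norm hl, ae_ne_norm (by linarith : 0 < 2 * D.l)] with x hx1 hx2 hx
    exact hS.modified.trans_sup x (lt_of_le_of_ne hx.1 (Ne.symm hx1)) (lt_of_le_of_ne hx.2 hx2)
  obtain ⟨hphi2, hph2⟩ := ph_sub hphi hphle hsub2
  have hlast : Bm / D.l ^ 4 * (∫ x in cAnn D.l (2 * D.l), D.ph P x) ≤ Bm * Bu := by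
    calc Bm / D.l ^ 4 * (∫ x in cAnn D.l (2 * D.l), D.ph P x)
        ≤ Bm / D.l ^ 4 * (Bu * D.l ^ 3) := mul_le_mul_of_nonneg_left hph2 (by positivity)
      _ = Bm * Bu * D.l⁻¹ := by field_simp
      _ ≤ Bm * Bu * 1 := by
        apply mul_le_mul_of_nonneg_left (inv_le_one_of_one_le₀ hl1) (by positivity)
      _ = Bm * Bu := mul_one _
  have hmat : -(1 + Bm * ((12 * P.C + 144 * P.C ^ 2) * Bu) + 1 / 2 * (P.C * Bu) + Bm * Bu) ≤
      ∫ x in D.Om, χ (D.w P x) * Real.exp (D.w P x / (2 - P.eps)) * D.Su P x * D.vol x := by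
    refine le_trans ?_ hm
    have h1 := hcut.def_le
    have h2 : Bm * (∫ x in cAnn (D.l / 2) D.l,
        D.ph P x * (msz (D.h x) / D.l + msz (D.h x) ^ 2)) ≤
        Bm * ((12 * P.C + 144 * P.C ^ 2) * Bu) :=
      mul_le_mul_of_nonneg_left ((le_abs_self _).trans hshell) hBm.le
    have h3 := neg_abs_le (∫ x in cAnn D.l (2 * D.l), D.ph P x * linR D.g' x)
    linarith
  -- integrability
  have heps2 : 0 < 2 - P.eps := by linarith [hP.2]
  set s : ℝ := D.sb P * (3 / 8) with hs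
  set s' : ℝ := (se + 1 + D.sM P) / 2 with hs'
  set A : Set E3 := D.Om ∩ {x | s ≤ D.w P x ∧ D.w P x ≤ s'} with hAdef
  have hwm := hA.meas_w
  have hAm : MeasurableSet A := hA.measOmega.inter
    ((measurableSet_le measurable_const hwm).inter (measurableSet_le hwm measurable_const))
  have hiS := hA.int_S s s' (by linarith) (by linarith) (by linarith)
  have hiD := hA.int_D s s' (by linarith) (by linarith) (by linarith)
  set Ψ : E3 → ℝ := fun x => χ (D.w P x) * Real.exp (D.w P x / (2 - P.eps)) with hΨ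
  have hexpm : Measurable (fun x => Real.exp (D.w P x / (2 - P.eps))) :=
    Real.measurable_exp.comp (hwm.div_const _)
  have hΨm : Measurable Ψ := (hχc.measurable.comp hwm).mul hexpm
  have hexpA : ∀ x ∈ A, Real.exp (D.w P x / (2 - P.eps)) ≤ Real.exp (s' / (2 - P.eps)) := by
    intro x hx
    apply Real.exp_le_exp.2
    exact div_le_div_of_nonneg_right hx.2.2 heps2.le
  have hΨ0 : ∀ x, 0 ≤ Ψ x := fun x => mul_nonneg (hχ01 _).1 (Real.exp_pos _).le
  have hΨb : ∀ x ∈ A, ‖Ψ x‖ ≤ Real.exp (s' / (2 - P.eps)) := by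
    intro x hx
    rw [Real.norm_eq_abs, abs_of_nonneg (hΨ0 x)]
    calc Ψ x ≤ 1 * Real.exp (D.w P x / (2 - P.eps)) :=
          mul_le_mul_of_nonneg_right (hχ01 _).2 (Real.exp_pos _).le
      _ = Real.exp (D.w P x / (2 - P.eps)) := one_mul _
      _ ≤ _ := hexpA x hx
  have hΨout : ∀ x ∈ D.Om \ A, Ψ x = 0 := by
    intro x hx
    have h1 : ¬ (s ≤ D.w P x ∧ D.w P x ≤ s') := fun h => hx.2 ⟨hx.1, h⟩
    have h2 : χ (D.w P x) = 0 := by
      by_cases h3 : s ≤ D.w P x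
      · have h4 : s' < D.w P x := by
          by_contra h5
          exact h1 ⟨h3, not_lt.1 h5⟩
        exact hχend _ (by linarith)
      · exact hχ0 _ (by push Not at h3; linarith)
    simp only [hΨ, h2, zero_mul]
  have hint : ∀ f : E3 → ℝ, IntegrableOn f A → IntegrableOn (fun x => Ψ x * f x) D.Om := by
    intro f hf
    have h1 : IntegrableOn (fun x => Ψ x * f x) A :=
      Integrable.bdd_mul (c := Real.exp (s' / (2 - P.eps))) hf hΨm.aestronglyMeasurable
        ((ae_restrict_iff' hAm).2 (ae_of_all _ hΨb))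
    exact h1.of_forall_sdiff_eq_zero hA.measOmega fun x hx => by rw [hΨout x hx, zero_mul]
  have hIS := hint _ hiS
  have hID := hint _ hiD
  have hsplit : ∫ x in D.Om, χ (D.w P x) * Real.exp (D.w P x / (2 - P.eps))
      * (D.Su P x + D.Di P x / 2) * D.vol x =
      (∫ x in D.Om, χ (D.w P x) * Real.exp (D.w P x / (2 - P.eps)) * D.Su P x * D.vol x)
        + 1 / 2 * ∫ x in D.Om, Ψ x * (D.Di P x * D.vol x) := by
    rw [← integral_const_mul]
    have e1 : ∫ x in D.Om, χ (D.w P x) * Real.exp (D.w P x / (2 - P.eps)) * D.Su P x * D.vol x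
        = ∫ x in D.Om, Ψ x * (D.Su P x * D.vol x) := by
      refine integral_congr_ae (ae_of_all _ fun x => ?_)
      simp only [hΨ]
      ring
    rw [e1, ← integral_add hIS (hID.const_mul _)]
    refine integral_congr_ae (ae_of_all _ fun x => ?_)
    simp only [hΨ]
    ring
  have hDle : ∫ x in D.Om, Ψ x * (D.Di P x * D.vol x) ≤ 2 * K2 := by
    rw [hsplit] at hT
    have h4pi : 0 ≤ 4 * Real.pi * (2 - P.eps) := by positivity
    have := hT.trans hrhs
    rw [hK2]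
    linarith
  -- the annulus
  have hR : D.Kl P < D.R := by
    have : 0 < D.Kl P := by linarith
    linarith
  have hsubOm : cAnn (D.l / 4) (D.Kl P) ⊆ D.Om := by
    intro x hx
    have hRpos : 1 < D.R := by linarith
    refine ⟨?_, lt_of_le_of_lt hx.2 hR⟩
    have h1 : 1 / D.R < 1 := by rw [div_lt_one (by linarith)]; exact hRpos
    linarith [hx.1]
  have hwlow : ∀ x ∈ cAnn (D.l / 4) (D.Kl P), D.sb P < D.w P x := by
    intro x hx
    apply hlow x (hsubOm hx)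
    have h1 : 1 / (4 * D.l) < 1 := by rw [div_lt_one (by linarith)]; linarith
    linarith [hx.1]
  have hwup : ∀ x ∈ cAnn (D.l / 4) (D.Kl P), D.w P x ≤ D.s2 P + 1 + 2 * P.gam :=
    fun x hx => hup x hx.1 hx.2
  have hsubA : cAnn (D.l / 4) (D.Kl P) ⊆ A := by
    intro x hx
    have h1 := hwlow x hx
    have h2 := hwup x hx
    have h3 := hcut.lower
    exact ⟨hsubOm hx, by linarith, by linarith⟩
  have hc0 : 0 < c0 P := Real.exp_pos _
  have hlam := lam_nonneg hP.1 hP.2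
  have hc01 : c0 P ≤ 1 := by
    unfold c0
    apply Real.exp_le_one_iff.2
    have : 0 ≤ lam P.eps / 2 * (1 + 2 * P.gam) := by positivity
    linarith
  have hχc0 : ∀ x ∈ cAnn (D.l / 4) (D.Kl P), c0 P ≤ χ (D.w P x) := by
    intro x hx
    have h1 := hwlow x hx
    have h2 := hwup x hx
    have h3 := hcut.lower
    rcases le_total (D.w P x) (D.s2 P) with h4 | h4
    · rw [hχ1 _ h1.le h4]; exact hc01
    · refine le_trans ?_ (hχlow _ h4 (by linarith))
      unfold c0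
      apply Real.exp_le_exp.2
      have : lam P.eps / 2 * (D.w P x - D.s2 P) ≤ lam P.eps / 2 * (1 + 2 * P.gam) :=
        mul_le_mul_of_nonneg_left (by linarith) (by positivity)
      linarith
  have hmS := measurableSet_cAnn (D.l / 4) (D.Kl P)
  have hfin : IntegrableOn (fun x => Real.exp (D.w P x / (2 - P.eps)) * D.Di P x * D.vol x)
      (cAnn (D.l / 4) (D.Kl P)) := by
    have h1 : IntegrableOn (fun x => D.Di P x * D.vol x) (cAnn (D.l / 4) (D.Kl P)) :=
      hiD.mono_set hsubA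
    have h2 : IntegrableOn (fun x => Real.exp (D.w P x / (2 - P.eps)) * (D.Di P x * D.vol x))
        (cAnn (D.l / 4) (D.Kl P)) :=
      Integrable.bdd_mul (c := Real.exp (s' / (2 - P.eps))) h1 hexpm.aestronglyMeasurable
        ((ae_restrict_iff' hmS).2 (ae_of_all _ fun x hx => by
          rw [Real.norm_eq_abs, abs_of_pos (Real.exp_pos _)]
          exact hexpA x (hsubA hx)))
    refine h2.congr (ae_of_all _ fun x => ?_)
    simp only
    ring
  refine ⟨hfin, ?_⟩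
  have hDnn : ∀ᵐ x ∂(volume.restrict D.Om), 0 ≤ Ψ x * (D.Di P x * D.vol x) := by
    filter_upwards [hA.D_nonneg] with x hx
    exact mul_nonneg (hΨ0 x) (mul_nonneg hx (hA.vol_nonneg x))
  have hDnnS : ∀ᵐ x ∂(volume.restrict (cAnn (D.l / 4) (D.Kl P))), 0 ≤ D.Di P x :=
    ae_mono (Measure.restrict_mono hsubOm le_rfl) hA.D_nonneg
  have h1 : ∫ x in cAnn (D.l / 4) (D.Kl P), Ψ x * (D.Di P x * D.vol x) ≤ 2 * K2 :=
    (setIntegral_mono_set hID hDnn hsubOm.eventuallyLE).trans hDle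
  have h2 : c0 P * ∫ x in cAnn (D.l / 4) (D.Kl P),
      Real.exp (D.w P x / (2 - P.eps)) * D.Di P x * D.vol x ≤
      ∫ x in cAnn (D.l / 4) (D.Kl P), Ψ x * (D.Di P x * D.vol x) := by
    rw [← integral_const_mul]
    apply integral_mono_ae (hfin.const_mul _) (hID.mono_set hsubOm)
    filter_upwards [hDnnS, ae_restrict_mem hmS] with x hx hxS
    have h3 := hχc0 x hxS
    have h4 : 0 ≤ Real.exp (D.w P x / (2 - P.eps)) * (D.Di P x * D.vol x) :=
      mul_nonneg (Real.exp_pos _).le (mul_nonneg hx (hA.vol_nonneg x))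
    calc c0 P * (Real.exp (D.w P x / (2 - P.eps)) * D.Di P x * D.vol x)
        = c0 P * (Real.exp (D.w P x / (2 - P.eps)) * (D.Di P x * D.vol x)) := by ring
      _ ≤ χ (D.w P x) * (Real.exp (D.w P x / (2 - P.eps)) * (D.Di P x * D.vol x)) :=
        mul_le_mul_of_nonneg_right h3 h4
      _ = Ψ x * (D.Di P x * D.vol x) := by simp only [hΨ]; ring
  have h3 : ∫ x in cAnn (D.l / 4) (D.Kl P),
      Real.exp (D.w P x / (2 - P.eps)) * D.Di P x * D.vol x ≤ 2 / c0 P * K2 := by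
    rw [div_mul_eq_mul_div, le_div_iff₀ hc0, mul_comm]
    exact h2.trans h1
  exact h3.trans ((le_abs_self _).trans (by linarith))

end Pool.Agent.PFlow
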