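import Pool.Agent.PFlow.StmtsE2
import Pool.Agent.PFlow.M_AP
import Pool.Agent.PFlow.M_IB
import Pool.Agent.PFlow.M_CT

/-!
# FLX: the flux identity tested with a function of `u`
-/

open MeasureTheory Filter Topology
open scoped ContDiff ENNReal

namespace Pool.Agent.PFlow

open Pool.Agent.PenroseSph

namespace MFLX

/-! ### Limits of integrals -/

theorem amgm {x y η : ℝ} (hη : 0 < η) : |x| * |y| ≤ η * x ^ 2 + y ^ 2 / η := by
  have h1 : 0 ≤ (η * |x| - |y|) ^ 2 := sq_nonneg _
  have h2 : |x| ^ 2 = x ^ 2 := sq_abs x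
  have h3 : |y| ^ 2 = y ^ 2 := sq_abs y
  have h4 : 0 ≤ |x| * |y| := mul_nonneg (abs_nonneg _) (abs_nonneg _)
  have h5 : η * (|x| * |y|) ≤ η * (η * x ^ 2 + y ^ 2 / η) := by
    rw [mul_add, mul_div_cancel₀ _ hη.ne']
    have h6 : 0 ≤ η * (|x| * |y|) := mul_nonneg hη.le h4
    have h7 : (η * |x| - |y|) ^ 2 = η * (η * x ^ 2) + y ^ 2 - 2 * (η * (|x| * |y|)) := by
      rw [← h2, ← h3]
      ring
    rw [h7] at h1
    linarith
  exact le_of_mul_le_mul_left h5 hη

variable {μ : Measure E3}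

/-- Multiplication by uniformly convergent functions, integrable weight. -/
theorem lim_bdd {R : E3 → ℝ} (hR : Integrable R μ) {c : E3 → ℝ} {cn : ℕ → E3 → ℝ}
    (hc : AEStronglyMeasurable c μ) (hcn : ∀ n, AEStronglyMeasurable (cn n) μ)
    (B : ℝ) (hB : ∀ᵐ x ∂μ, |c x| ≤ B)
    (hu : ∀ η > 0, ∀ᶠ n in atTop, ∀ᵐ x ∂μ, |cn n x - c x| ≤ η) :
    Tendsto (fun n => ∫ x, R x * cn n x ∂μ) atTop (𝓝 (∫ x, R x * c x ∂μ)) := by
  rw [Metric.tendsto_atTop']
  intro e he
  obtain ⟨I, hI⟩ : ∃ I : ℝ, I = ∫ x, |R x| ∂μ := ⟨_, rfl⟩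
  have hI0 : 0 ≤ I := by
    rw [hI]
    exact integral_nonneg fun _ => abs_nonneg _
  have hη : 0 < e / (2 * (I + 1)) := by positivity
  obtain ⟨N, hN⟩ := eventually_atTop.mp (hu _ hη)
  refine ⟨N, fun n hn => ?_⟩
  have h1 := hN n hn.le
  have hi1 : Integrable (fun x => R x * c x) μ := by
    refine hR.mul_bdd (c := B) hc ?_
    filter_upwards [hB] with x hx
    rwa [Real.norm_eq_abs]
  have hi2 : Integrable (fun x => R x * cn n x) μ := by
    refine hR.mul_bdd (c := B + e / (2 * (I + 1))) (hcn n) ?_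
    filter_upwards [hB, h1] with x hx hx1
    rw [Real.norm_eq_abs]
    have h2 : |cn n x| ≤ |c x| + |cn n x - c x| := by
      have := abs_add_le (c x) (cn n x - c x)
      rwa [add_sub_cancel] at this
    linarith
  rw [Real.dist_eq, ← integral_sub hi2 hi1]
  have h2 : ‖∫ x, (R x * cn n x - R x * c x) ∂μ‖ ≤ ∫ x, |R x| * (e / (2 * (I + 1))) ∂μ := by
    refine norm_integral_le_of_norm_le (hR.abs.mul_const _) ?_
    filter_upwards [h1] with x hx
    rw [← mul_sub, norm_mul, Real.norm_eq_abs, Real.norm_eq_abs]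
    exact mul_le_mul_of_nonneg_left hx (abs_nonneg _)
  rw [Real.norm_eq_abs, integral_mul_const, ← hI] at h2
  refine h2.trans_lt ?_
  have h3 : I * (e / (2 * (I + 1))) = e * (I / (2 * (I + 1))) := by ring
  have h4 : I / (2 * (I + 1)) < 1 := by
    rw [div_lt_one (by positivity)]
    linarith
  rw [h3]
  nlinarith

/-- Products of an `L²` function, a uniformly convergent sequence and an `L²` convergent
sequence. -/
theorem lim_mul {Z D : E3 → ℝ} (hZ : MemLp Z 2 μ) (hD : MemLp D 2 μ) {Dn : ℕ → E3 → ℝ}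
    (hDn : ∀ n, MemLp (Dn n) 2 μ)
    (hlim : Tendsto (fun n => ∫ x, (Dn n x - D x) ^ 2 ∂μ) atTop (𝓝 0)) {c : E3 → ℝ}
    {cn : ℕ → E3 → ℝ} (hc : AEStronglyMeasurable c μ) (hcn : ∀ n, AEStronglyMeasurable (cn n) μ)
    (B : ℝ) (hB : ∀ᵐ x ∂μ, |c x| ≤ B)
    (hu : ∀ η > 0, ∀ᶠ n in atTop, ∀ᵐ x ∂μ, |cn n x - c x| ≤ η) :
    Tendsto (fun n => ∫ x, Z x * (cn n x * Dn n x) ∂μ) atTop
      (𝓝 (∫ x, Z x * (c x * D x) ∂μ)) := by
  have hZD : Integrable (fun x => Z x * D x) μ := hZ.integrable_mul hD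
  have hmain : Tendsto (fun n => (∫ x, Z x * (cn n x * Dn n x) ∂μ)
      - ∫ x, (Z x * D x) * cn n x ∂μ) atTop (𝓝 0) := by
    rw [Metric.tendsto_atTop']
    intro e he
    obtain ⟨I, hI⟩ : ∃ I : ℝ, I = ∫ x, Z x ^ 2 ∂μ := ⟨_, rfl⟩
    have hI0 : 0 ≤ I := by
      rw [hI]
      exact integral_nonneg fun _ => sq_nonneg _
    obtain ⟨B', hB'⟩ : ∃ B' : ℝ, B' = |B| + 1 := ⟨_, rfl⟩
    have hB'0 : 0 < B' := by
      rw [hB']
      positivity
    obtain ⟨η, hη⟩ : ∃ η : ℝ, η = e / (4 * B' * (I + 1)) := ⟨_, rfl⟩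
    have hη0 : 0 < η := by
      rw [hη]
      positivity
    have hev : ∀ᶠ n in atTop, |∫ x, (Dn n x - D x) ^ 2 ∂μ| < e * η / (4 * B') := by
      have h1 := (Metric.tendsto_nhds.mp hlim) (e * η / (4 * B')) (by positivity)
      filter_upwards [h1] with n hn
      rwa [Real.dist_eq, sub_zero] at hn
    obtain ⟨N, hN⟩ := eventually_atTop.mp ((hu 1 one_pos).and hev)
    refine ⟨N, fun n hn => ?_⟩
    obtain ⟨h1, h2⟩ := hN n hn.le
    have hbc : ∀ᵐ x ∂μ, |cn n x| ≤ B' := by
      filter_upwards [hB, h1] with x hx hx1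
      have h2 : |cn n x| ≤ |c x| + |cn n x - c x| := by
        have := abs_add_le (c x) (cn n x - c x)
        rwa [add_sub_cancel] at this
      rw [hB']
      linarith [le_abs_self B]
    have hbc' : ∀ᵐ x ∂μ, ‖cn n x‖ ≤ B' := hbc
    have hi1 : Integrable (fun x => Z x * D x * cn n x) μ := hZD.mul_bdd (hcn n) hbc'
    have hi2 : Integrable (fun x => Z x * (cn n x * Dn n x)) μ := by
      have h3 : Integrable (fun x => Z x * Dn n x * cn n x) μ :=
        (hZ.integrable_mul (hDn n)).mul_bdd (hcn n) hbc'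
      refine h3.congr (ae_of_all _ fun x => ?_)
      change Z x * Dn n x * cn n x = Z x * (cn n x * Dn n x)
      ring
    rw [Real.dist_eq, sub_zero, ← integral_sub hi2 hi1]
    have hs1 : Integrable (fun x => Z x ^ 2) μ := hZ.integrable_sq
    have hs2 : Integrable (fun x => (Dn n x - D x) ^ 2) μ := ((hDn n).sub hD).integrable_sq
    have h3 : ‖∫ x, (Z x * (cn n x * Dn n x) - Z x * D x * cn n x) ∂μ‖ ≤
        ∫ x, B' * (η * Z x ^ 2 + (Dn n x - D x) ^ 2 / η) ∂μ := by
      refine norm_integral_le_of_norm_le (((hs1.const_mul η).add (hs2.div_const η)).const_mul B') ?_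
      filter_upwards [hbc] with x hx
      have h4 : Z x * (cn n x * Dn n x) - Z x * D x * cn n x =
          cn n x * (Z x * (Dn n x - D x)) := by ring
      rw [h4, norm_mul, norm_mul, Real.norm_eq_abs, Real.norm_eq_abs, Real.norm_eq_abs]
      have h5 := amgm (x := Z x) (y := Dn n x - D x) hη0
      exact mul_le_mul hx h5 (mul_nonneg (abs_nonneg _) (abs_nonneg _)) hB'0.le
    rw [Real.norm_eq_abs, integral_const_mul, integral_add (hs1.const_mul η) (hs2.div_const η),
      integral_const_mul, integral_div, ← hI] at h3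
    refine h3.trans_lt ?_
    have h6 : ∫ x, (Dn n x - D x) ^ 2 ∂μ < e * η / (4 * B') := (le_abs_self _).trans_lt h2
    have h7 : B' * ((∫ x, (Dn n x - D x) ^ 2 ∂μ) / η) ≤ e / 4 := by
      rw [← mul_div_assoc, div_le_iff₀ hη0]
      have h8 : B' * (e * η / (4 * B')) = e / 4 * η := by
        field_simp
      rw [← h8]
      exact mul_le_mul_of_nonneg_left h6.le hB'0.le
    have h8 : B' * (η * I) ≤ e / 4 := by
      rw [hη]
      have h9 : B' * (e / (4 * B' * (I + 1)) * I) = e / 4 * (I / (I + 1)) := by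
        field_simp
      rw [h9]
      have h10 : I / (I + 1) ≤ 1 := by
        rw [div_le_one (by positivity)]
        linarith
      nlinarith
    rw [mul_add]
    linarith
  have h1 := hmain.add (lim_bdd hZD hc hcn B hB hu)
  simp only [sub_add_cancel, zero_add] at h1
  have h2 : (∫ x, Z x * D x * c x ∂μ) = ∫ x, Z x * (c x * D x) ∂μ := by
    refine integral_congr_ae (ae_of_all _ fun x => ?_)
    change Z x * D x * c x = Z x * (c x * D x)
    ring
  rwa [h2] at h1

/-- Composition with a continuous function. -/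
theorem unif {K : Set E3} (hK : IsCompact K) {u : E3 → ℝ} (hu : ContinuousOn u K)
    {v : ℕ → E3 → ℝ} (hv : TendstoUniformlyOn v u atTop K) {f : ℝ → ℝ} (hf : Continuous f)
    {ζ : E3 → ℝ} (hζ : Continuous ζ) (η : ℝ) (hη : 0 < η) :
    ∀ᶠ n in atTop, ∀ x ∈ K, |f (v n x) * ζ x - f (u x) * ζ x| ≤ η := by
  obtain ⟨T, hT⟩ := hK.exists_bound_of_continuousOn hu
  obtain ⟨B, hB⟩ := hK.exists_bound_of_continuousOn hζ.continuousOn
  have hB' : ∀ x ∈ K, |ζ x| ≤ |B| + 1 := fun x hx => by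
    have := hB x hx
    rw [Real.norm_eq_abs] at this
    linarith [le_abs_self B]
  have hB0 : 0 < |B| + 1 := by positivity
  have hun : UniformContinuousOn f (Set.Icc (-(T + 1)) (T + 1)) :=
    isCompact_Icc.uniformContinuousOn_of_continuous hf.continuousOn
  have h1 : TendstoUniformlyOn (fun n x => f (v n x)) (fun x => f (u x)) atTop K := by
    refine UniformContinuousOn.comp_tendstoUniformlyOn_eventually ?_ ?_ hun hv
    · filter_upwards [(Metric.tendstoUniformlyOn_iff.mp hv) 1 one_pos] with n hn x hx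
      have h2 := hn x hx
      have h3 := hT x hx
      rw [Real.dist_eq, abs_lt] at h2
      rw [Real.norm_eq_abs, abs_le] at h3
      constructor <;> linarith [h2.1, h2.2, h3.1, h3.2]
    · intro x hx
      have h3 := hT x hx
      rw [Real.norm_eq_abs, abs_le] at h3
      constructor <;> linarith [h3.1, h3.2]
  filter_upwards [(Metric.tendstoUniformlyOn_iff.mp h1) (η / (|B| + 1)) (by positivity)]
    with n hn x hx
  have h2 := hn x hx
  rw [Real.dist_eq, abs_sub_comm] at h2
  rw [← sub_mul, abs_mul]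
  calc |f (v n x) - f (u x)| * |ζ x| ≤ η / (|B| + 1) * (|B| + 1) :=
        mul_le_mul h2.le (hB' x hx) (abs_nonneg _) (by positivity)
    _ = η := div_mul_cancel₀ _ hB0.ne'

/-! ### Pointwise bounds -/

/-- The components of the vector with respect to the second index. -/
noncomputable def ra (g : TensorField) (x : E3) (p : Cov) (j : Fin 3) : ℝ :=
  ∑ i, (g x)⁻¹ i j * p i

theorem ev_eq (g : TensorField) (x : E3) (p q : Cov) :
    ev (g x)⁻¹ p q = ∑ j, ra g x p j * q j := by
  unfold ev ra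
  rw [Finset.sum_comm]
  refine Finset.sum_congr rfl fun j _ => ?_
  rw [Finset.sum_mul]

theorem sum3 {a : Fin 3 → ℝ} {B : ℝ} (h : ∀ i, |a i| ≤ B) : |∑ i, a i| ≤ 3 * B := by
  refine (Finset.abs_sum_le_sum_abs _ _).trans ?_
  calc ∑ i, |a i| ≤ ∑ _i : Fin 3, B := Finset.sum_le_sum fun i _ => h i
    _ = 3 * B := by simp

theorem abs_le_vn (p : Cov) (i : Fin 3) : |p i| ≤ vn p := by
  unfold vn vsq
  apply Real.abs_le_sqrt
  exact Finset.single_le_sum (f := fun j => p j ^ 2) (fun j _ => sq_nonneg (p j))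
    (Finset.mem_univ i)

theorem vn_le_sum (p : Cov) : vn p ≤ ∑ i, |p i| := by
  unfold vn vsq
  apply Real.sqrt_le_iff.mpr
  constructor
  · exact Finset.sum_nonneg fun i _ => abs_nonneg _
  · simp only [Fin.sum_univ_three]
    have h0 := abs_nonneg (p 0)
    have h1 := abs_nonneg (p 1)
    have h2 := abs_nonneg (p 2)
    rw [← sq_abs (p 0), ← sq_abs (p 1), ← sq_abs (p 2)]
    nlinarith [mul_nonneg h0 h1, mul_nonneg h0 h2, mul_nonneg h1 h2]

theorem vsq_nonneg (p : Cov) : 0 ≤ vsq p := Finset.sum_nonneg fun i _ => sq_nonneg (p i)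

section

variable {g h : TensorField} {x : E3} {C : ℝ} (hC : 1 ≤ C)
  (hev : ∀ p, vsq p / C ≤ ev (g x)⁻¹ p p ∧ ev (g x)⁻¹ p p ≤ C * vsq p)
  (hP : ∀ i j, |(g x)⁻¹ i j| ≤ C)

include hC hev

theorem vn_le_len (p : Cov) : vn p ≤ C * len g x p := by
  have hC0 : 0 < C := by linarith
  have h1 : vsq p ≤ C ^ 2 * ev (g x)⁻¹ p p := by
    have h2 := (hev p).1
    rw [div_le_iff₀ hC0] at h2
    have h3 : 0 ≤ ev (g x)⁻¹ p p := le_trans (div_nonneg (vsq_nonneg p) hC0.le) (hev p).1
    nlinarith [mul_nonneg (mul_nonneg hC0.le (sub_nonneg.2 hC)) h3]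
  unfold vn len
  calc √(vsq p) ≤ √(C ^ 2 * ev (g x)⁻¹ p p) := Real.sqrt_le_sqrt h1
    _ = C * √(ev (g x)⁻¹ p p) := by
      rw [Real.sqrt_mul (sq_nonneg C), Real.sqrt_sq hC0.le]

theorem len_le_vn (p : Cov) : len g x p ≤ C * vn p := by
  have hC0 : 0 < C := by linarith
  have h1 : ev (g x)⁻¹ p p ≤ C ^ 2 * vsq p := by
    have h2 := (hev p).2
    have h3 := vsq_nonneg p
    nlinarith [mul_nonneg (mul_nonneg hC0.le (sub_nonneg.2 hC)) h3]
  unfold vn len
  calc √(ev (g x)⁻¹ p p) ≤ √(C ^ 2 * vsq p) := Real.sqrt_le_sqrt h1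
    _ = C * √(vsq p) := by
      rw [Real.sqrt_mul (sq_nonneg C), Real.sqrt_sq hC0.le]

include hP

theorem ra_le (p : Cov) (j : Fin 3) : |ra g x p j| ≤ 3 * (C * (C * len g x p)) := by
  have hC0 : 0 < C := by linarith
  refine sum3 fun i => ?_
  rw [abs_mul]
  exact mul_le_mul (hP i j) ((abs_le_vn p i).trans (vn_le_len hC hev p)) (abs_nonneg _) hC0.le

theorem raise_le (p : Cov) (i : Fin 3) : |raise g x p i| ≤ 3 * (C * (C * len g x p)) := by
  have hC0 : 0 < C := by linarith
  refine sum3 fun j => ?_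
  rw [abs_mul]
  exact mul_le_mul (hP i j) ((abs_le_vn p j).trans (vn_le_len hC hev p)) (abs_nonneg _) hC0.le

theorem nrm_le (p : Cov) (i : Fin 3) : |nrm g x p i| ≤ 3 * (C * C) := by
  have hC0 : 0 < C := by linarith
  unfold nrm
  rcases (Real.sqrt_nonneg (ev (g x)⁻¹ p p)).eq_or_lt with h0 | h0
  · have : len g x p = 0 := h0.symm
    rw [this, div_zero, abs_zero]
    positivity
  · have h1 : 0 < len g x p := h0
    rw [abs_div, abs_of_pos h1, div_le_iff₀ h1]
    have := raise_le hC hev hP p i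
    linarith

theorem beps_le {ε : ℝ} (hε0 : 0 < ε) (hε1 : ε < 1) (hh : ∀ i j, |h x i j| ≤ C) (p : Cov) :
    |beps ε g x p (h x)| ≤ 3 * (3 * (C * C)) + 3 * (3 * (C * (3 * (C * C)) * (3 * (C * C)))) := by
  have hC0 : 0 < C := by linarith
  have h1 : |trg g x (h x)| ≤ 3 * (3 * (C * C)) := by
    refine sum3 fun i => sum3 fun j => ?_
    rw [abs_mul]
    exact mul_le_mul (hP i j) (hh i j) (abs_nonneg _) hC0.le
  have h2 : |bnn g x p (h x)| ≤ 3 * (3 * (C * (3 * (C * C)) * (3 * (C * C)))) := by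
    unfold bnn ev
    refine sum3 fun i => sum3 fun j => ?_
    rw [abs_mul, abs_mul]
    refine mul_le_mul (mul_le_mul (hh i j) (nrm_le hC hev hP p i) (abs_nonneg _) hC0.le)
      (nrm_le hC hev hP p j) (abs_nonneg _) (by positivity)
  unfold beps
  refine (abs_sub _ _).trans (add_le_add h1 ?_)
  rw [abs_mul, abs_of_nonneg (by linarith : (0 : ℝ) ≤ 1 - ε)]
  have h3 : (1 - ε) * |bnn g x p (h x)| ≤ 1 * |bnn g x p (h x)| :=
    mul_le_mul_of_nonneg_right (by linarith) (abs_nonneg _)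
  linarith

end

theorem rpow_le_one_add {l ε : ℝ} (hl : 0 ≤ l) (hε0 : 0 < ε) (hε1 : ε < 1) : l ^ ε ≤ 1 + l := by
  rcases le_total l 1 with h | h
  · have := Real.rpow_le_one hl h hε0.le
    linarith
  · have := Real.rpow_le_rpow_of_exponent_le h hε1.le
    rw [Real.rpow_one] at this
    linarith

theorem rpow_sub_mul {l ε : ℝ} (hl : 0 ≤ l) (hε0 : 0 < ε) : l ^ (ε - 1) * l = l ^ ε := by
  rcases hl.eq_or_lt with h | h
  · rw [← h, mul_zero, Real.zero_rpow hε0.ne']
  · rw [← Real.rpow_add_one h.ne', sub_add_cancel]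

theorem pd_chi {ψ : ℝ → ℝ} (hψ : ContDiff ℝ 1 ψ) {v ζ : E3 → ℝ} (hv : ContDiff ℝ ∞ v)
    (hζ : ContDiff ℝ ∞ ζ) (j : Fin 3) (x : E3) :
    pd j (fun y => ψ (v y) * ζ y) x = deriv ψ (v x) * ζ x * pd j v x + ψ (v x) * pd j ζ x := by
  have h1 : HasFDerivAt v (fderiv ℝ v x) x := ((hv.differentiable (by simp)) x).hasFDerivAt
  have h2 : HasFDerivAt ζ (fderiv ℝ ζ x) x := ((hζ.differentiable (by simp)) x).hasFDerivAt
  have h3 : HasDerivAt ψ (deriv ψ (v x)) (v x) :=
    ((hψ.differentiable (by simp)) (v x)).hasDerivAt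
  have h4 : HasFDerivAt (fun y => ψ (v y)) (deriv ψ (v x) • fderiv ℝ v x) x :=
    h3.comp_hasFDerivAt x h1
  have h5 : HasFDerivAt (fun y => ψ (v y) * ζ y)
      (ψ (v x) • fderiv ℝ ζ x + ζ x • deriv ψ (v x) • fderiv ℝ v x) x := h4.mul h2
  unfold pd
  rw [h5.fderiv]
  change ψ (v x) * fderiv ℝ ζ x _ + ζ x * (deriv ψ (v x) * fderiv ℝ v x _) = _
  ring

end MFLX

theorem FLX : Stmt_FLX := by
  intro ε a b g h u G M hε0 hε1 ha hab hg hh hH2 hweak ψ K hψ hK hKA hsupp
  have hAo : IsOpen (Ann a b) := by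
    have h1 : Ann a b = (fun x : E3 => ‖x‖) ⁻¹' Set.Ioo a b := rfl
    rw [h1]
    exact isOpen_Ioo.preimage continuous_norm
  obtain ⟨ζ, hζ, hζc, hζs, hζ1⟩ := MIB.exists_cutoff hK hAo hKA
  obtain ⟨K1, hK1def⟩ : ∃ K1 : Set E3, K1 = tsupport ζ := ⟨_, rfl⟩
  have hK1 : IsCompact K1 := hK1def ▸ hζc
  have hK1A : K1 ⊆ Ann a b := hK1def ▸ hζs
  have hK1m : MeasurableSet K1 := hK1.measurableSet
  have hζK : ∀ x ∈ K, ζ x = 1 := fun x hx =>
    (hζ1.filter_mono (nhds_le_nhdsSet hx)).self_of_nhds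
  have hζpd : ∀ x ∈ K, ∀ j, pd j ζ x = 0 := by
    intro x hx j
    have h1 : ζ =ᶠ[𝓝 x] fun _ => (1 : ℝ) := hζ1.filter_mono (nhds_le_nhdsSet hx)
    unfold pd
    rw [h1.fderiv_eq, fderiv_fun_const]
    rfl
  have hKK1 : K ⊆ K1 := by
    intro x hx
    rw [hK1def]
    apply subset_tsupport
    rw [Function.mem_support, hζK x hx]
    exact one_ne_zero
  have hζoff : ∀ x, x ∉ K1 → ζ x = 0 := fun x hx =>
    image_eq_zero_of_notMem_tsupport (by rw [← hK1def]; exact hx)
  have hζoff' : ∀ x, x ∉ K1 → ∀ j, pd j ζ x = 0 := by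
    intro x hx j
    have h1 : x ∉ tsupport ζ := by
      rw [← hK1def]
      exact hx
    unfold pd
    rw [fderiv_of_notMem_tsupport ℝ h1]
    rfl
  -- the bounds
  obtain ⟨C, hC, hCx⟩ := CT Set.univ g h isOpen_univ hg hh K1 hK1 (Set.subset_univ _)
  have hC0 : 0 < C := by linarith
  have hfin : IsFiniteMeasure (volume.restrict K1) :=
    ⟨by rw [Measure.restrict_apply_univ]; exact hK1.measure_lt_top⟩
  have hGm : ∀ i, AEMeasurable (fun x => G x i) (volume.restrict K1) := fun i =>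
    (hH2.memG K1 hK1 hK1A i).1.aemeasurable
  have tr : ∀ {f : E3 → ℝ}, ContinuousOn f Set.univ → AEMeasurable f (volume.restrict K1) :=
    fun {f} hf => (hf.mono (Set.subset_univ _)).aemeasurable hK1m
  have hPm : ∀ i j, AEMeasurable (fun x => (g x)⁻¹ i j) (volume.restrict K1) :=
    fun i j => tr (MAP.contOn_inv hg i j)
  have hHm : ∀ i j, AEMeasurable (fun x => h x i j) (volume.restrict K1) :=
    fun i j => tr (hh.smooth i j).continuousOn
  have hVm : AEMeasurable (fun x => volDen g x) (volume.restrict K1) := by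
    have h1 : ContinuousOn (fun x => volDen g x) Set.univ := by
      unfold volDen
      exact ((Continuous.matrix_det continuous_id).comp_continuousOn
        (MAP.contOn_entry hg.smooth)).sqrt
    exact tr h1
  have hLm : AEMeasurable (fun x => len g x (G x)) (volume.restrict K1) := by
    unfold len
    exact (MAP.am_ev hPm hGm hGm).sqrt
  have hRm : ∀ i, AEMeasurable (fun x => raise g x (G x) i) (volume.restrict K1) := by
    intro i
    unfold raise
    exact MAP.am_sum fun j => (hPm i j).mul (hGm j)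
  have hNm : ∀ i, AEMeasurable (fun x => nrm g x (G x) i) (volume.restrict K1) := by
    intro i
    unfold nrm
    exact (hRm i).div hLm
  have hBm : AEMeasurable (fun x => beps ε g x (G x) (h x)) (volume.restrict K1) := by
    unfold beps bnn trg
    exact (MAP.am_sum fun i => MAP.am_sum fun j => (hPm i j).mul (hHm i j)).sub
      ((MAP.am_ev hHm hNm hNm).const_mul _)
  have hram : ∀ j, AEMeasurable (fun x => MFLX.ra g x (G x) j) (volume.restrict K1) := by
    intro j
    unfold MFLX.ra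
    exact MAP.am_sum fun i => (hPm i j).mul (hGm i)
  have hlen0 : ∀ x, 0 ≤ len g x (G x) := fun x => Real.sqrt_nonneg _
  have hvol0 : ∀ x, 0 ≤ volDen g x := fun x => Real.sqrt_nonneg _
  -- the length is square integrable
  have hLL : MemLp (fun x => 1 + len g x (G x)) 2 (volume.restrict K1) := by
    have h0 : ∀ i, MemLp (fun x => |G x i|) 2 (volume.restrict K1) := fun i =>
      (hH2.memG K1 hK1 hK1A i).abs
    have h00 : MemLp (fun x => ∑ i, |G x i|) 2 (volume.restrict K1) :=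
      memLp_finsetSum Finset.univ fun i _ => h0 i
    have h01 : MemLp (fun x => C * ∑ i, |G x i|) 2 (volume.restrict K1) := h00.const_mul C
    have h02 : MemLp (fun _ : E3 => (1 : ℝ)) 2 (volume.restrict K1) := memLp_const 1
    have h1 : MemLp (fun x => 1 + C * ∑ i, |G x i|) 2 (volume.restrict K1) := h02.add h01
    have hm : AEStronglyMeasurable (fun x => 1 + len g x (G x)) (volume.restrict K1) :=
      (hLm.const_add 1).aestronglyMeasurable
    refine h1.mono' hm ?_
    rw [ae_restrict_iff' hK1m]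
    refine ae_of_all _ fun x hx => ?_
    rw [Real.norm_eq_abs, abs_of_nonneg (by linarith [hlen0 x])]
    have h2 := MFLX.len_le_vn hC (hCx x hx).1 (G x)
    have h3 := MFLX.vn_le_sum (G x)
    have h4 : C * vn (G x) ≤ C * ∑ i, |G x i| := mul_le_mul_of_nonneg_left h3 hC0.le
    linarith
  -- the weights
  obtain ⟨Z, hZdef⟩ : ∃ Z : Fin 3 → E3 → ℝ, Z = fun j x =>
      len g x (G x) ^ (ε - 1) * MFLX.ra g x (G x) j * volDen g x := ⟨_, rfl⟩
  obtain ⟨R, hRdef⟩ : ∃ R : E3 → ℝ, R = fun x =>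
      len g x (G x) ^ ε * beps ε g x (G x) (h x) * volDen g x := ⟨_, rfl⟩
  have hZm : ∀ j, AEMeasurable (Z j) (volume.restrict K1) := by
    intro j
    rw [hZdef]
    exact ((hLm.pow_const _).mul (hram j)).mul hVm
  have hZ : ∀ j, MemLp (Z j) 2 (volume.restrict K1) := by
    intro j
    refine (hLL.const_mul (3 * (C * C) * C)).mono' (hZm j).aestronglyMeasurable ?_
    rw [ae_restrict_iff' hK1m]
    refine ae_of_all _ fun x hx => ?_
    obtain ⟨h1, -, -, -, -, -, -, -, h2, -, h3⟩ := hCx x hx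
    rw [hZdef, Real.norm_eq_abs, abs_mul, abs_mul, abs_of_nonneg (hvol0 x),
      abs_of_nonneg (Real.rpow_nonneg (hlen0 x) _)]
    have h4 := MFLX.ra_le hC h1 h2 (G x) j
    have h5 := MFLX.rpow_sub_mul (hlen0 x) hε0
    have h6 := MFLX.rpow_le_one_add (hlen0 x) hε0 hε1
    have h7 : len g x (G x) ^ (ε - 1) * |MFLX.ra g x (G x) j| ≤
        3 * (C * C) * (1 + len g x (G x)) := by
      calc len g x (G x) ^ (ε - 1) * |MFLX.ra g x (G x) j|
          ≤ len g x (G x) ^ (ε - 1) * (3 * (C * (C * len g x (G x)))) :=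
            mul_le_mul_of_nonneg_left h4 (Real.rpow_nonneg (hlen0 x) _)
        _ = 3 * (C * C) * (len g x (G x) ^ (ε - 1) * len g x (G x)) := by ring
        _ ≤ 3 * (C * C) * (1 + len g x (G x)) := by
            rw [h5]
            exact mul_le_mul_of_nonneg_left h6 (by positivity)
    calc len g x (G x) ^ (ε - 1) * |MFLX.ra g x (G x) j| * volDen g x
        ≤ 3 * (C * C) * (1 + len g x (G x)) * C :=
          mul_le_mul h7 h3 (hvol0 x) (by have := hlen0 x; positivity)
      _ = 3 * (C * C) * C * (1 + len g x (G x)) := by ring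
  have hR : Integrable R (volume.restrict K1) := by
    obtain ⟨C', hC'⟩ : ∃ C' : ℝ, C' = 3 * (3 * (C * C)) +
      3 * (3 * (C * (3 * (C * C)) * (3 * (C * C)))) := ⟨_, rfl⟩
    have hC'0 : 0 ≤ C' := by
      rw [hC']
      positivity
    refine ((hLL.integrable (by norm_num)).const_mul (C' * C)).mono' ?_ ?_
    · rw [hRdef]
      exact (((hLm.pow_const _).mul hBm).mul hVm).aestronglyMeasurable
    · rw [ae_restrict_iff' hK1m]
      refine ae_of_all _ fun x hx => ?_
      obtain ⟨h1, -, -, -, h1h, -, -, -, h2, -, h3⟩ := hCx x hx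
      rw [hRdef, Real.norm_eq_abs, abs_mul, abs_mul, abs_of_nonneg (hvol0 x),
        abs_of_nonneg (Real.rpow_nonneg (hlen0 x) _)]
      have h4 := MFLX.beps_le (h := h) hC h1 h2 hε0 hε1 h1h (G x)
      rw [← hC'] at h4
      have h6 := MFLX.rpow_le_one_add (hlen0 x) hε0 hε1
      calc len g x (G x) ^ ε * |beps ε g x (G x) (h x)| * volDen g x
          ≤ (1 + len g x (G x)) * C' * C :=
            mul_le_mul (mul_le_mul h6 h4 (abs_nonneg _) (by have := hlen0 x; positivity)) h3
              (hvol0 x) (by have := hlen0 x; positivity)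
        _ = C' * C * (1 + len g x (G x)) := by ring
  -- the approximation
  obtain ⟨v, hv, hvu, hvG, -⟩ := hH2.approx K1 hK1 hK1A
  have huc : ContinuousOn u K1 := hH2.cont.mono hK1A
  have hψc : Continuous ψ := hψ.continuous
  have hψ'c : Continuous (deriv ψ) := hψ.continuous_deriv (by simp)
  have hid : ∀ n, ∫ x in K1, ∑ j, (Z j x * (deriv ψ (v n x) * ζ x * pd j (v n) x)
      + Z j x * (ψ (v n x) * pd j ζ x)) = ∫ x in K1, R x * (ψ (v n x) * ζ x) := by
    intro n
    have h1 := hweak (fun x => ψ (v n x) * ζ x) ?_ ?_ ?_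
    · have h2 : ∫ x, len g x (G x) ^ (ε - 1) *
          ev (g x)⁻¹ (G x) (grad (fun x => ψ (v n x) * ζ x) x) * volDen g x =
          ∫ x in K1, ∑ j, (Z j x * (deriv ψ (v n x) * ζ x * pd j (v n) x)
            + Z j x * (ψ (v n x) * pd j ζ x)) := by
        rw [← setIntegral_eq_integral_of_forall_compl_eq_zero (s := K1)]
        · refine integral_congr_ae (ae_of_all _ fun x => ?_)
          change len g x (G x) ^ (ε - 1) *
            ev (g x)⁻¹ (G x) (grad (fun x => ψ (v n x) * ζ x) x) * volDen g x = _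
          rw [MFLX.ev_eq, Finset.mul_sum, Finset.sum_mul]
          refine Finset.sum_congr rfl fun j _ => ?_
          have h3 : grad (fun x => ψ (v n x) * ζ x) x j =
              deriv ψ (v n x) * ζ x * pd j (v n) x + ψ (v n x) * pd j ζ x :=
            MFLX.pd_chi hψ (hv n) hζ j x
          rw [h3, hZdef]
          ring
        · intro x hx
          rw [MFLX.ev_eq, Finset.sum_eq_zero, mul_zero, zero_mul]
          intro j _
          have h3 : grad (fun x => ψ (v n x) * ζ x) x j =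
              deriv ψ (v n x) * ζ x * pd j (v n) x + ψ (v n x) * pd j ζ x :=
            MFLX.pd_chi hψ (hv n) hζ j x
          rw [h3, hζoff x hx, hζoff' x hx j]
          ring
      have h3 : ∫ x, len g x (G x) ^ ε * beps ε g x (G x) (h x) * (ψ (v n x) * ζ x)
          * volDen g x = ∫ x in K1, R x * (ψ (v n x) * ζ x) := by
        rw [← setIntegral_eq_integral_of_forall_compl_eq_zero (s := K1)]
        · refine integral_congr_ae (ae_of_all _ fun x => ?_)
          change len g x (G x) ^ ε * beps ε g x (G x) (h x) * (ψ (v n x) * ζ x)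
            * volDen g x = R x * (ψ (v n x) * ζ x)
          rw [hRdef]
          ring
        · intro x hx
          rw [hζoff x hx]
          ring
      rw [← h2, ← h3]
      exact h1
    · exact (hψ.comp ((hv n).of_le (by exact_mod_cast le_top))).mul
        (hζ.of_le (by exact_mod_cast le_top))
    · exact hζc.mul_left
    · exact (tsupport_mul_subset_right).trans hζs
  -- bounded continuous coefficients
  have hcb : ∀ {c : E3 → ℝ}, ContinuousOn c K1 →
      AEStronglyMeasurable c (volume.restrict K1) ∧ ∃ B : ℝ,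
        ∀ᵐ x ∂(volume.restrict K1), |c x| ≤ B := by
    intro c hc
    obtain ⟨B, hB⟩ := hK1.exists_bound_of_continuousOn hc
    refine ⟨hc.aestronglyMeasurable hK1m, B, ?_⟩
    rw [ae_restrict_iff' hK1m]
    exact ae_of_all _ hB
  have hun : ∀ {f : ℝ → ℝ} {z : E3 → ℝ}, Continuous f → Continuous z → ∀ η > 0,
      ∀ᶠ n in atTop, ∀ᵐ x ∂(volume.restrict K1), |f (v n x) * z x - f (u x) * z x| ≤ η := by
    intro f z hf hz η hη
    filter_upwards [MFLX.unif hK1 huc hvu hf hz η hη] with n hn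
    rw [ae_restrict_iff' hK1m]
    exact ae_of_all _ hn
  have hcu : ∀ {f : ℝ → ℝ} {z : E3 → ℝ}, Continuous f → Continuous z →
      ContinuousOn (fun x => f (u x) * z x) K1 := fun hf hz =>
    (hf.comp_continuousOn huc).mul hz.continuousOn
  have hcv : ∀ {f : ℝ → ℝ} {z : E3 → ℝ} (n : ℕ), Continuous f → Continuous z →
      ContinuousOn (fun x => f (v n x) * z x) K1 := fun n hf hz =>
    ((hf.comp (hv n).continuous).mul hz).continuousOn
  have hζcont : Continuous ζ := hζ.continuous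
  have hζj : ∀ j, Continuous (pd j ζ) := fun j => MAP.cont_pd hζ j
  have hvL : ∀ n j, MemLp (pd j (v n)) 2 (volume.restrict K1) := by
    intro n j
    have hc : Continuous (pd j (v n)) := MAP.cont_pd (hv n) j
    obtain ⟨B, hB⟩ := hK1.exists_bound_of_continuousOn hc.continuousOn
    refine MemLp.of_bound hc.aestronglyMeasurable B ?_
    rw [ae_restrict_iff' hK1m]
    exact ae_of_all _ hB
  have hGL : ∀ j, MemLp (fun x => G x j) 2 (volume.restrict K1) := hH2.memG K1 hK1 hK1A
  -- the limits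
  have L1 : ∀ j, Tendsto (fun n => ∫ x in K1, Z j x * (deriv ψ (v n x) * ζ x * pd j (v n) x))
      atTop (𝓝 (∫ x in K1, Z j x * (deriv ψ (u x) * ζ x * G x j))) := by
    intro j
    obtain ⟨hm, B, hB⟩ := hcb (hcu hψ'c hζcont)
    exact MFLX.lim_mul (hZ j) (hGL j) (fun n => hvL n j) (hvG j) hm
      (fun n => (hcb (hcv n hψ'c hζcont)).1) B hB (hun hψ'c hζcont)
  have L2 : ∀ j, Tendsto (fun n => ∫ x in K1, Z j x * (ψ (v n x) * pd j ζ x))
      atTop (𝓝 (∫ x in K1, Z j x * (ψ (u x) * pd j ζ x))) := by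
    intro j
    obtain ⟨hm, B, hB⟩ := hcb (hcu hψc (hζj j))
    exact MFLX.lim_bdd ((hZ j).integrable (by norm_num)) hm
      (fun n => (hcb (hcv n hψc (hζj j))).1) B hB (hun hψc (hζj j))
  have L3 : Tendsto (fun n => ∫ x in K1, R x * (ψ (v n x) * ζ x)) atTop
      (𝓝 (∫ x in K1, R x * (ψ (u x) * ζ x))) := by
    obtain ⟨hm, B, hB⟩ := hcb (hcu hψc hζcont)
    exact MFLX.lim_bdd hR hm (fun n => (hcb (hcv n hψc hζcont)).1) B hB (hun hψc hζcont)
  have i1 : ∀ n j, Integrable (fun x => Z j x * (deriv ψ (v n x) * ζ x * pd j (v n) x))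
      (volume.restrict K1) := by
    intro n j
    obtain ⟨hm, B, hB⟩ := hcb (hcv n hψ'c hζcont)
    have h1 : Integrable (fun x => Z j x * pd j (v n) x * (deriv ψ (v n x) * ζ x))
        (volume.restrict K1) := ((hZ j).integrable_mul (hvL n j)).mul_bdd (c := B) hm hB
    refine h1.congr (ae_of_all _ fun x => ?_)
    change Z j x * pd j (v n) x * (deriv ψ (v n x) * ζ x) =
      Z j x * (deriv ψ (v n x) * ζ x * pd j (v n) x)
    ring
  have i2 : ∀ n j, Integrable (fun x => Z j x * (ψ (v n x) * pd j ζ x))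
      (volume.restrict K1) := by
    intro n j
    obtain ⟨hm, B, hB⟩ := hcb (hcv n hψc (hζj j))
    exact ((hZ j).integrable (by norm_num)).mul_bdd (c := B) hm hB
  have i3 : ∀ j, Integrable (fun x => Z j x * (deriv ψ (u x) * ζ x * G x j))
      (volume.restrict K1) := by
    intro j
    obtain ⟨hm, B, hB⟩ := hcb (hcu hψ'c hζcont)
    have h1 : Integrable (fun x => Z j x * G x j * (deriv ψ (u x) * ζ x))
        (volume.restrict K1) := ((hZ j).integrable_mul (hGL j)).mul_bdd (c := B) hm hB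
    refine h1.congr (ae_of_all _ fun x => ?_)
    change Z j x * G x j * (deriv ψ (u x) * ζ x) = Z j x * (deriv ψ (u x) * ζ x * G x j)
    ring
  have i4 : ∀ j, Integrable (fun x => Z j x * (ψ (u x) * pd j ζ x))
      (volume.restrict K1) := by
    intro j
    obtain ⟨hm, B, hB⟩ := hcb (hcu hψc (hζj j))
    exact ((hZ j).integrable (by norm_num)).mul_bdd (c := B) hm hB
  have L4 : Tendsto (fun n => ∫ x in K1, ∑ j, (Z j x * (deriv ψ (v n x) * ζ x * pd j (v n) x)
      + Z j x * (ψ (v n x) * pd j ζ x))) atTop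
      (𝓝 (∫ x in K1, ∑ j, (Z j x * (deriv ψ (u x) * ζ x * G x j)
        + Z j x * (ψ (u x) * pd j ζ x)))) := by
    have i12 : ∀ n j, Integrable (fun x => Z j x * (deriv ψ (v n x) * ζ x * pd j (v n) x)
        + Z j x * (ψ (v n x) * pd j ζ x)) (volume.restrict K1) := fun n j =>
      (i1 n j).add (i2 n j)
    have i34 : ∀ j, Integrable (fun x => Z j x * (deriv ψ (u x) * ζ x * G x j)
        + Z j x * (ψ (u x) * pd j ζ x)) (volume.restrict K1) := fun j => (i3 j).add (i4 j)
    rw [integral_finsetSum _ fun j _ => i34 j]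
    have h1 : ∀ n, ∫ x in K1, ∑ j, (Z j x * (deriv ψ (v n x) * ζ x * pd j (v n) x)
        + Z j x * (ψ (v n x) * pd j ζ x)) =
        ∑ j, ((∫ x in K1, Z j x * (deriv ψ (v n x) * ζ x * pd j (v n) x))
          + ∫ x in K1, Z j x * (ψ (v n x) * pd j ζ x)) := by
      intro n
      rw [integral_finsetSum _ fun j _ => i12 n j]
      exact Finset.sum_congr rfl fun j _ => integral_add (i1 n j) (i2 n j)
    simp_rw [h1]
    refine tendsto_finsetSum _ fun j _ => ?_
    rw [integral_add (i3 j) (i4 j)]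
    exact (L1 j).add (L2 j)
  have hfinal := tendsto_nhds_unique L4 (by simpa only [hid] using L3)
  -- rewriting both sides
  have hψ0 : ∀ x ∈ Ann a b, x ∉ K → ψ (u x) = 0 := by
    intro x hx hxK
    by_contra h1
    exact hxK (hsupp x hx (subset_tsupport ψ h1))
  have hψ'0 : ∀ x ∈ Ann a b, x ∉ K → deriv ψ (u x) = 0 := by
    intro x hx hxK
    by_contra h1
    exact hxK (hsupp x hx (support_deriv_subset h1))
  have e1 : ∫ x in Ann a b, deriv ψ (u x) * len g x (G x) ^ (1 + ε) * volDen g x =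
      ∫ x in K1, ∑ j, (Z j x * (deriv ψ (u x) * ζ x * G x j) + Z j x * (ψ (u x) * pd j ζ x)) := by
    rw [setIntegral_eq_of_subset_of_forall_sdiff_eq_zero hAo.measurableSet hK1A]
    · refine setIntegral_congr_fun hK1m fun x hx => ?_
      change deriv ψ (u x) * len g x (G x) ^ (1 + ε) * volDen g x = _
      have h1 : ∀ j, ψ (u x) * pd j ζ x = 0 := by
        intro j
        by_cases hxK : x ∈ K
        · rw [hζpd x hxK j, mul_zero]
        · rw [hψ0 x (hK1A hx) hxK, zero_mul]
      have h2 : deriv ψ (u x) * ζ x = deriv ψ (u x) := by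
        by_cases hxK : x ∈ K
        · rw [hζK x hxK, mul_one]
        · rw [hψ'0 x (hK1A hx) hxK, zero_mul]
      have h3 : ∑ j, (Z j x * (deriv ψ (u x) * ζ x * G x j) + Z j x * (ψ (u x) * pd j ζ x)) =
          deriv ψ (u x) * (len g x (G x) ^ (ε - 1) * ev (g x)⁻¹ (G x) (G x)) * volDen g x := by
        rw [MFLX.ev_eq, Finset.mul_sum, Finset.mul_sum, Finset.sum_mul]
        refine Finset.sum_congr rfl fun j _ => ?_
        rw [h1 j, h2, hZdef]
        ring
      rw [h3]
      have h4 : ev (g x)⁻¹ (G x) (G x) = len g x (G x) * len g x (G x) := by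
        have h5 : 0 ≤ ev (g x)⁻¹ (G x) (G x) :=
          le_trans (div_nonneg (MFLX.vsq_nonneg _) hC0.le) ((hCx x hx).1 (G x)).1
        unfold len
        rw [Real.mul_self_sqrt h5]
      have h5 : len g x (G x) ^ (1 + ε) = len g x (G x) ^ (ε - 1) *
          (len g x (G x) * len g x (G x)) := by
        rw [← mul_assoc, MFLX.rpow_sub_mul (hlen0 x) hε0]
        have h6 := MFLX.rpow_sub_mul (ε := 1 + ε) (hlen0 x) (by linarith)
        rw [add_sub_cancel_left] at h6
        exact h6.symm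
      rw [h4, h5]
    · intro x hx
      rw [hψ'0 x hx.1 fun hxK => hx.2 (hKK1 hxK), zero_mul, zero_mul]
  have e2 : ∫ x in Ann a b, len g x (G x) ^ ε * beps ε g x (G x) (h x) * ψ (u x) * volDen g x =
      ∫ x in K1, R x * (ψ (u x) * ζ x) := by
    rw [setIntegral_eq_of_subset_of_forall_sdiff_eq_zero hAo.measurableSet hK1A]
    · refine setIntegral_congr_fun hK1m fun x hx => ?_
      change len g x (G x) ^ ε * beps ε g x (G x) (h x) * ψ (u x) * volDen g x =
        R x * (ψ (u x) * ζ x)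
      have h2 : ψ (u x) * ζ x = ψ (u x) := by
        by_cases hxK : x ∈ K
        · rw [hζK x hxK, mul_one]
        · rw [hψ0 x (hK1A hx) hxK, zero_mul]
      rw [h2, hRdef]
      ring
    · intro x hx
      rw [hψ0 x hx.1 fun hxK => hx.2 (hKK1 hxK), mul_zero, zero_mul]
  rw [e1, e2, hfinal]

end Pool.Agent.PFlow
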