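import Pool.Agent.PFlow.StmtsE2

/-!
# FLXA: monotonicity of the flux
-/

open MeasureTheory Filter Topology
open scoped ContDiff ENNReal

namespace Pool.Agent.PFlow

open Pool.Agent.PenroseSph

namespace FLXAaux

variable {ε : ℝ} {Ω : Set E3} {vol w X Φ D S : E3 → ℝ} {sb s₂ sM B₁ B₂ : ℝ}

lemma rpow_le_one_add {ε x : ℝ} (h0 : 0 < ε) (h1 : ε ≤ 1 / 2) (hx : 0 ≤ x) :
    x ^ (1 + ε) ≤ 1 + x ^ 3 := by
  rcases le_total x 1 with h | h
  · have : x ^ (1 + ε) ≤ 1 := Real.rpow_le_one hx h (by linarith)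
    have h3 : 0 ≤ x ^ 3 := by positivity
    linarith
  · have : x ^ (1 + ε) ≤ x ^ (3 : ℝ) := Real.rpow_le_rpow_of_exponent_le h (by linarith)
    have h4 : x ^ (3 : ℝ) = x ^ 3 := by
      rw [← Real.rpow_natCast]
      norm_num
    rw [h4] at this
    linarith

lemma int_theta (hA : Abs ε Ω vol w X Φ D S sb s₂ sM B₁ B₂) (h0 : 0 < ε) (h1 : ε ≤ 1 / 2)
    {ϑ : ℝ → ℝ} (hϑ : Continuous ϑ) {s s' : ℝ} (hs : sb / 4 < s) (hss : s < s') (hs' : s' < sM)
    (hsupp : ∀ t, t < s ∨ s' < t → ϑ t = 0) :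
    IntegrableOn (fun x => ϑ (w x) * (Real.exp (-w x) * X x ^ (1 + ε)) * vol x) Ω := by
  have hT : MeasurableSet {x : E3 | s ≤ w x ∧ w x ≤ s'} :=
    hA.meas_w measurableSet_Icc
  have hz : ∀ x ∈ Ω \ (Ω ∩ {x : E3 | s ≤ w x ∧ w x ≤ s'}),
      ϑ (w x) * (Real.exp (-w x) * X x ^ (1 + ε)) * vol x = 0 := by
    rintro x ⟨hx, hx'⟩
    have h2 : w x < s ∨ s' < w x := by
      by_contra hcon
      push Not at hcon
      exact hx' ⟨hx, hcon⟩
    rw [hsupp _ h2, zero_mul, zero_mul]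
  refine IntegrableOn.of_forall_sdiff_eq_zero ?_ hA.measOmega hz
  obtain ⟨K, hK⟩ := (isCompact_Icc (a := s) (b := s')).exists_bound_of_continuousOn
    (f := fun t => ϑ t * Real.exp (-t)) (by fun_prop)
  have hv := hA.int_vol s s' hs hss hs'
  have hX := hA.int_X s s' hs hss hs'
  have hg : IntegrableOn (fun x => K * (vol x + X x ^ 3 * vol x))
      (Ω ∩ {x : E3 | s ≤ w x ∧ w x ≤ s'}) := (hv.add hX).const_mul K
  have hXm : AEStronglyMeasurable X (volume.restrict (Ω ∩ {x : E3 | s ≤ w x ∧ w x ≤ s'})) :=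
    hA.meas_X.mono_measure (Measure.restrict_mono Set.inter_subset_left le_rfl)
  have hXr : AEStronglyMeasurable (fun x => X x ^ (1 + ε))
      (volume.restrict (Ω ∩ {x : E3 | s ≤ w x ∧ w x ≤ s'})) :=
    (hXm.aemeasurable.pow_const _).aestronglyMeasurable
  refine Integrable.mono' hg ?_ ?_
  · refine AEStronglyMeasurable.mul (AEStronglyMeasurable.mul ?_ (AEStronglyMeasurable.mul ?_ hXr))
      hv.aestronglyMeasurable
    · exact (hϑ.measurable.comp hA.meas_w).aestronglyMeasurable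
    · exact (Real.measurable_exp.comp hA.meas_w.neg).aestronglyMeasurable
  · refine (ae_restrict_iff' (hA.measOmega.inter hT)).mpr (Eventually.of_forall ?_)
    rintro x ⟨_, hx⟩
    have k1 := hK (w x) hx
    have k2 := rpow_le_one_add h0 h1 (hA.X_nonneg x)
    have k3 : 0 ≤ X x ^ (1 + ε) := Real.rpow_nonneg (hA.X_nonneg x) _
    have k4 := hA.vol_nonneg x
    have k5 : 0 ≤ K := (norm_nonneg _).trans k1
    calc ‖ϑ (w x) * (Real.exp (-w x) * X x ^ (1 + ε)) * vol x‖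
        = ‖ϑ (w x) * Real.exp (-w x)‖ * (X x ^ (1 + ε) * vol x) := by
          rw [← mul_assoc, mul_assoc (ϑ (w x) * Real.exp (-w x)), norm_mul,
            Real.norm_of_nonneg (mul_nonneg k3 k4)]
      _ ≤ K * ((1 + X x ^ 3) * vol x) :=
          mul_le_mul k1 (mul_le_mul_of_nonneg_right k2 k4) (mul_nonneg k3 k4) k5
      _ = K * (vol x + X x ^ 3 * vol x) := by ring

lemma bump_int {β : ℝ → ℝ} (hβ : IsBump β) (s₂ : ℝ) : ∫ t, β (t - s₂) = 1 := by
  rw [integral_sub_right_eq_self (fun t => β t) s₂]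
  exact hβ.integral_eq

lemma bump_cont {β : ℝ → ℝ} (hβ : IsBump β) (s₂ : ℝ) : Continuous fun t => β (t - s₂) :=
  hβ.smooth.continuous.comp (by fun_prop)

lemma bump_zero {β : ℝ → ℝ} (hβ : IsBump β) {p s s₂ : ℝ} (hp : p ≤ s₂ + 1 / 4)
    (hs : s ≤ s₂ + 1 / 4) : ∫ t in p..s, β (t - s₂) = 0 := by
  have : Set.EqOn (fun t => β (t - s₂)) (fun _ => (0 : ℝ)) (Set.uIcc p s) := by
    intro t ht
    have h1 : t ≤ max p s := ht.2
    have h2 : t ≤ s₂ + 1 / 4 := h1.trans (max_le hp hs)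
    exact hβ.supp _ (Or.inl (by linarith))
  rw [intervalIntegral.integral_congr this, intervalIntegral.integral_zero]

lemma bump_one {β : ℝ → ℝ} (hβ : IsBump β) {p s s₂ : ℝ} (hp : p ≤ s₂ + 1 / 4)
    (hs : s₂ + 3 / 4 ≤ s) : ∫ t in p..s, β (t - s₂) = 1 := by
  rw [intervalIntegral.integral_eq_integral_of_support_subset, bump_int hβ]
  intro t ht
  have h1 : ¬ (t - s₂ ≤ 1 / 4 ∨ 3 / 4 ≤ t - s₂) := fun h => ht (hβ.supp _ h)
  push Not at h1
  exact ⟨by linarith [h1.1], by linarith [h1.2]⟩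

lemma bump_le {β : ℝ → ℝ} (hβ : IsBump β) {p s s₂ : ℝ} (hp : p ≤ s₂ + 1 / 4) :
    ∫ t in p..s, β (t - s₂) ≤ 1 := by
  rcases le_total (s₂ + 3 / 4) s with h | h
  · exact (bump_one hβ hp h).le
  · have hc := bump_cont hβ s₂
    have h1 := intervalIntegral.integral_add_adjacent_intervals
      (hc.intervalIntegrable p s) (hc.intervalIntegrable (μ := volume) s (s₂ + 3 / 4))
    rw [bump_one hβ hp le_rfl] at h1
    have h2 : 0 ≤ ∫ t in s..(s₂ + 3 / 4), β (t - s₂) :=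
      intervalIntegral.integral_nonneg h fun t _ => hβ.nonneg _
    linarith

lemma flux_theta (hA : Abs ε Ω vol w X Φ D S sb s₂ sM B₁ B₂) (h0 : 0 < ε) (h1 : ε ≤ 1 / 2)
    {β : ℝ → ℝ} (hβ : IsBump β) (hM : s₂ + 1 < sM) {θ : ℝ → ℝ} (hθ : Continuous θ)
    (hθ0 : ∀ s, 0 ≤ θ s) {p q : ℝ} (hp : sb / 4 < p) (hpq : p < q) (hq : q ≤ s₂ + 1 / 4)
    (hsupp : ∀ s, s ≤ p ∨ q ≤ s → θ s = 0) :
    ∫ x in Ω, θ (w x) * (Real.exp (-w x) * X x ^ (1 + ε)) * vol x ≤
      (∫ s in p..q, θ s) * jInf ε β Ω vol w X s₂ := by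
  set c : ℝ := ∫ s in p..q, θ s with hc
  have hc0 : 0 ≤ c := intervalIntegral.integral_nonneg hpq.le fun s _ => hθ0 s
  have hβc := bump_cont hβ s₂
  have hp4 : p ≤ s₂ + 1 / 4 := hpq.le.trans hq
  set Ψ : ℝ → ℝ := fun s => (∫ t in p..s, θ t) - c * ∫ t in p..s, β (t - s₂) with hΨ
  have hd : ∀ s, HasDerivAt Ψ (θ s - c * β (s - s₂)) s := by
    intro s
    refine HasDerivAt.sub ?_ (HasDerivAt.const_mul c ?_)
    · exact (hθ.integral_hasStrictDerivAt p s).hasDerivAt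
    · exact (hβc.integral_hasStrictDerivAt p s).hasDerivAt
  have hder : deriv Ψ = fun s => θ s - c * β (s - s₂) := funext fun s => (hd s).deriv
  have hC1 : ContDiff ℝ 1 Ψ := by
    rw [contDiff_one_iff_deriv]
    refine ⟨fun s => (hd s).differentiableAt, ?_⟩
    rw [hder]
    exact hθ.sub (continuous_const.mul hβc)
  have hθlow : ∀ s, s ≤ p → ∫ t in p..s, θ t = 0 := by
    intro s hs
    have : Set.EqOn θ (fun _ => (0 : ℝ)) (Set.uIcc p s) := by
      intro t ht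
      have h2 : t ≤ max p s := ht.2
      rw [max_eq_left hs] at h2
      exact hsupp t (Or.inl h2)
    rw [intervalIntegral.integral_congr this, intervalIntegral.integral_zero]
  have hθup : ∀ s, q ≤ s → ∫ t in p..s, θ t = c := by
    intro s hs
    have h2 := intervalIntegral.integral_add_adjacent_intervals
      (hθ.intervalIntegrable p q) (hθ.intervalIntegrable (μ := volume) q s)
    have : Set.EqOn θ (fun _ => (0 : ℝ)) (Set.uIcc q s) := by
      intro t ht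
      have h3 : min q s ≤ t := ht.1
      rw [min_eq_left hs] at h3
      exact hsupp t (Or.inr h3)
    rw [intervalIntegral.integral_congr this, intervalIntegral.integral_zero, add_zero] at h2
    exact h2.symm
  have hΨlow : ∀ s, s ≤ p → Ψ s = 0 := by
    intro s hs
    simp only [hΨ]
    rw [hθlow s hs, bump_zero hβ hp4 (hs.trans hp4)]
    ring
  have hΨup : ∀ s, s₂ + 3 / 4 ≤ s → Ψ s = 0 := by
    intro s hs
    simp only [hΨ]
    rw [hθup s (by linarith), bump_one hβ hp4 hs]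
    ring
  have hΨ0 : ∀ s, 0 ≤ Ψ s := by
    intro s
    rcases le_total s (s₂ + 1 / 4) with h | h
    · rcases le_total s p with h2 | h2
      · exact (hΨlow s h2).ge
      · simp only [hΨ]
        rw [bump_zero hβ hp4 h, mul_zero, sub_zero]
        exact intervalIntegral.integral_nonneg h2 fun t _ => hθ0 t
    · simp only [hΨ]
      rw [hθup s (hq.trans h)]
      have := mul_le_mul_of_nonneg_left (bump_le hβ hp4 (s := s)) hc0
      linarith
  have hsub : Function.support Ψ ⊆ Set.Icc p (s₂ + 3 / 4) := by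
    intro s hs
    constructor
    · by_contra hcon
      exact hs (hΨlow s (le_of_not_ge hcon))
    · by_contra hcon
      exact hs (hΨup s (le_of_not_ge hcon))
  have htsub : tsupport Ψ ⊆ Set.Icc p (s₂ + 3 / 4) := closure_minimal hsub isClosed_Icc
  have hcpt : HasCompactSupport Ψ :=
    isCompact_Icc.of_isClosed_subset (isClosed_tsupport Ψ) htsub
  have hts : tsupport Ψ ⊆ Set.Ioo (sb / 4) sM := htsub.trans fun s hs =>
    ⟨hp.trans_le hs.1, hs.2.trans_lt (by linarith)⟩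
  have hflux := hA.flux Ψ hC1 hΨ0 hcpt hts
  have i1 := int_theta hA h0 h1 hθ hp hpq (by linarith) (fun t ht => hsupp t (ht.imp le_of_lt le_of_lt))
  have i2 := int_theta hA h0 h1 hβc (s := (s₂ + 1 / 4)) (s' := s₂ + 3 / 4) (by linarith)
    (by linarith) (by linarith) (fun t ht => hβ.supp _ (ht.imp (fun h => by linarith)
      (fun h => by linarith)))
  have e1 : ∫ x in Ω, deriv Ψ (w x) * (Real.exp (-w x) * X x ^ (1 + ε)) * vol x =
      (∫ x in Ω, θ (w x) * (Real.exp (-w x) * X x ^ (1 + ε)) * vol x) -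
        c * jInf ε β Ω vol w X s₂ := by
    unfold jInf
    rw [← integral_const_mul, ← integral_sub i1 (i2.const_mul c)]
    refine integral_congr_ae (Eventually.of_forall fun x => ?_)
    simp only [hder]
    ring
  rw [e1] at hflux
  linarith

/-- the trapezoidal function times the exponential -/
noncomputable def trap (σ₁ σ₂ τ s : ℝ) : ℝ :=
  Real.exp s * max 0 (1 - max 0 (max (σ₁ - s) (s - σ₂)) / τ)

lemma trap_cont (σ₁ σ₂ τ : ℝ) : Continuous (trap σ₁ σ₂ τ) := by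
  unfold trap
  fun_prop

lemma trap_nonneg (σ₁ σ₂ τ s : ℝ) : 0 ≤ trap σ₁ σ₂ τ s :=
  mul_nonneg (Real.exp_pos s).le (le_max_left _ _)

lemma trap_le {σ₁ σ₂ τ : ℝ} (hτ : 0 < τ) (s : ℝ) : trap σ₁ σ₂ τ s ≤ Real.exp s := by
  have h1 : 0 ≤ max 0 (max (σ₁ - s) (s - σ₂)) / τ := div_nonneg (le_max_left _ _) hτ.le
  have h2 : max 0 (1 - max 0 (max (σ₁ - s) (s - σ₂)) / τ) ≤ 1 :=
    max_le zero_le_one (by linarith)
  calc trap σ₁ σ₂ τ s ≤ Real.exp s * 1 := mul_le_mul_of_nonneg_left h2 (Real.exp_pos s).le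
    _ = Real.exp s := mul_one _

lemma trap_eq {σ₁ σ₂ τ s : ℝ} (h1 : σ₁ ≤ s) (h2 : s ≤ σ₂) : trap σ₁ σ₂ τ s = Real.exp s := by
  have : max 0 (max (σ₁ - s) (s - σ₂)) = 0 :=
    max_eq_left (max_le (by linarith) (by linarith))
  unfold trap
  rw [this, zero_div, sub_zero, max_eq_right zero_le_one, mul_one]

lemma trap_zero {σ₁ σ₂ τ s : ℝ} (hτ : 0 < τ) (h : s ≤ σ₁ - τ ∨ σ₂ + τ ≤ s) :
    trap σ₁ σ₂ τ s = 0 := by
  have h1 : τ ≤ max 0 (max (σ₁ - s) (s - σ₂)) := by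
    rcases h with h | h
    · exact le_max_of_le_right (le_max_of_le_left (by linarith))
    · exact le_max_of_le_right (le_max_of_le_right (by linarith))
  have h2 : 1 ≤ max 0 (max (σ₁ - s) (s - σ₂)) / τ := by
    rwa [le_div_iff₀ hτ, one_mul]
  unfold trap
  rw [max_eq_left (by linarith), mul_zero]

end FLXAaux

open FLXAaux in
/-- FLXA: monotonicity of the flux. -/
theorem FLXA : Stmt_FLXA := by
  intro ε β h0 h1 hβ Ω vol w X Φ D S sb s₂ sM B₁ B₂ hA hsb hs₂ hM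
  have hJ : 0 ≤ jInf ε β Ω vol w X s₂ := by
    unfold jInf
    refine integral_nonneg fun x => ?_
    have k1 := hβ.nonneg (w x - s₂)
    have k2 : 0 ≤ X x ^ (1 + ε) := Real.rpow_nonneg (hA.X_nonneg x) _
    have k3 := hA.vol_nonneg x
    have k4 := (Real.exp_pos (-w x)).le
    positivity
  refine ⟨hJ, ?_⟩
  intro σ₁ σ₂ hσ₁ hσ hσ₂
  have hT : MeasurableSet {x : E3 | σ₁ ≤ w x ∧ w x ≤ σ₂} := hA.meas_w measurableSet_Icc
  have main : ∀ τ : ℝ, 0 < τ → τ ≤ 1 / 4 → sb / 4 < σ₁ - τ →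
      ∫ x in Ω ∩ {x | σ₁ ≤ w x ∧ w x ≤ σ₂}, X x ^ (1 + ε) * vol x
        ≤ jInf ε β Ω vol w X s₂ * (Real.exp (σ₂ + τ) - Real.exp (σ₁ - τ)) := by
    intro τ hτ hτ4 hτ1
    have hpq : σ₁ - τ < σ₂ + τ := by linarith
    have k1 := flux_theta hA h0 h1 hβ hM (trap_cont σ₁ σ₂ τ) (trap_nonneg σ₁ σ₂ τ) hτ1 hpq
      (by linarith) (fun s hs => trap_zero hτ hs)
    have k2 := int_theta hA h0 h1 (trap_cont σ₁ σ₂ τ) hτ1 hpq (by linarith)
      (fun t ht => trap_zero hτ (ht.imp le_of_lt le_of_lt))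
    have k3 : ∫ s in (σ₁ - τ)..(σ₂ + τ), trap σ₁ σ₂ τ s ≤
        Real.exp (σ₂ + τ) - Real.exp (σ₁ - τ) := by
      rw [← integral_exp]
      exact intervalIntegral.integral_mono_on hpq.le
        ((trap_cont σ₁ σ₂ τ).intervalIntegrable _ _)
        (Real.continuous_exp.intervalIntegrable _ _) (fun s _ => trap_le hτ s)
    calc ∫ x in Ω ∩ {x | σ₁ ≤ w x ∧ w x ≤ σ₂}, X x ^ (1 + ε) * vol x
        = ∫ x in Ω ∩ {x | σ₁ ≤ w x ∧ w x ≤ σ₂},
            trap σ₁ σ₂ τ (w x) * (Real.exp (-w x) * X x ^ (1 + ε)) * vol x := by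
          refine setIntegral_congr_fun (hA.measOmega.inter hT) ?_
          rintro x ⟨_, hx⟩
          simp only
          rw [trap_eq hx.1 hx.2, ← mul_assoc, ← Real.exp_add, add_neg_cancel, Real.exp_zero,
            one_mul]
      _ ≤ ∫ x in Ω, trap σ₁ σ₂ τ (w x) * (Real.exp (-w x) * X x ^ (1 + ε)) * vol x := by
          refine setIntegral_mono_set k2 (Eventually.of_forall fun x => ?_)
            (Eventually.of_forall (Set.inter_subset_left))
          have j1 := trap_nonneg σ₁ σ₂ τ (w x)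
          have j2 : 0 ≤ X x ^ (1 + ε) := Real.rpow_nonneg (hA.X_nonneg x) _
          have j3 := hA.vol_nonneg x
          have j4 := (Real.exp_pos (-w x)).le
          show (0 : ℝ) ≤ _
          positivity
      _ ≤ (∫ s in (σ₁ - τ)..(σ₂ + τ), trap σ₁ σ₂ τ s) * jInf ε β Ω vol w X s₂ := k1
      _ ≤ (Real.exp (σ₂ + τ) - Real.exp (σ₁ - τ)) * jInf ε β Ω vol w X s₂ :=
          mul_le_mul_of_nonneg_right k3 hJ
      _ = _ := mul_comm _ _
  have hlim : Tendsto (fun τ : ℝ => jInf ε β Ω vol w X s₂ *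
      (Real.exp (σ₂ + τ) - Real.exp (σ₁ - τ))) (𝓝[>] 0)
      (𝓝 (jInf ε β Ω vol w X s₂ * (Real.exp σ₂ - Real.exp σ₁))) := by
    have hc : Continuous (fun τ : ℝ => jInf ε β Ω vol w X s₂ *
      (Real.exp (σ₂ + τ) - Real.exp (σ₁ - τ))) := by fun_prop
    have := hc.tendsto 0
    rw [add_zero, sub_zero] at this
    exact this.mono_left nhdsWithin_le_nhds
  refine ge_of_tendsto hlim ?_
  have hpos : 0 < min (1 / 4) (σ₁ - sb / 4) := lt_min (by norm_num) (by linarith)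
  filter_upwards [Ioo_mem_nhdsGT hpos] with τ hτ
  exact main τ hτ.1 (hτ.2.le.trans (min_le_left _ _))
    (by linarith [hτ.2.trans_le (min_le_right (1 / 4) (σ₁ - sb / 4))])

end Pool.Agent.PFlow
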