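import Pool.Agent.PFlow.StmtsE3
import Pool.Agent.PFlow.StmtsM

/-!
# SETW: the function `w` and its levels
-/

set_option autoImplicit false

open MeasureTheory Filter Topology
open scoped ContDiff ENNReal

namespace Pool.Agent.PFlow

open Pool.Agent.PenroseSph

namespace SETWaux

theorem isOpen_Ann (a b : ℝ) : IsOpen (Ann a b) :=
  (isOpen_lt continuous_const continuous_norm).inter (isOpen_lt continuous_norm continuous_const)

theorem isCompact_cAnn (a b : ℝ) : IsCompact (cAnn a b) := by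
  have h1 : IsClosed (cAnn a b) :=
    (isClosed_le continuous_const continuous_norm).inter
      (isClosed_le continuous_norm continuous_const)
  refine (isCompact_closedBall (0 : E3) b).of_isClosed_subset h1 fun x hx => ?_
  rw [mem_closedBall_zero_iff]
  exact hx.2

theorem log_ge : (2.7 : ℝ) < Real.log 16 := by
  have h : Real.log 16 = 4 * Real.log 2 := by
    rw [show (16 : ℝ) = 2 ^ (4 : ℕ) by norm_num, Real.log_pow]
    norm_num
  rw [h]
  have := Real.log_two_gt_d9
  linarith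

/-- The numerical relations between the parameters. -/
theorem numbers {P : Par} {D : Dat} (hS : Setup P D) :
    0 < D.R ∧ 1 / D.R < P.kap / D.l ∧ 16 * D.l ≤ D.R ∧ 1 ≤ D.R / 2 ∧
    0 < D.sb P ∧ D.sb P ≤ 1 ∧ D.sb P < P.eps ∧ 1 < D.s2 P ∧ D.s2 P + 4 + 4 * P.gam < D.sM P ∧
    2 * D.Kl P ≤ D.R ∧ 4 * D.l ≤ D.Kl P ∧
    (2 - P.eps) * Real.log (D.Kl P) = (2 - P.eps) * Real.log (4 * D.l) + 1 + 2 * P.gam := by
  have he := hS.eps_pos
  have he2 := hS.eps_le
  have hg := hS.gam_pos
  have hk := hS.kap_pos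
  have hk2 := hS.kap_le
  have hl := hS.l_ge
  have hl0 : 0 < D.l := by linarith
  have h2e : 0 < 2 - P.eps := by linarith
  obtain ⟨K, hK⟩ : ∃ K, K = kE P.eps P.gam := ⟨_, rfl⟩
  have hKlog : (2 - P.eps) * Real.log K = (2 - P.eps) * Real.log 4 + 1 + 2 * P.gam := by
    rw [hK, kE, Real.log_mul (by norm_num) (Real.exp_pos _).ne', Real.log_exp]
    field_simp
    ring
  have hK4 : 4 ≤ K := by
    rw [hK, kE]
    have : 1 ≤ Real.exp ((1 + 2 * P.gam) / (2 - P.eps)) := Real.one_le_exp (by positivity)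
    linarith
  have hK0 : 0 < K := by linarith
  have hRK := hS.R_ge
  rw [← hK] at hRK
  have hR16 : 16 * D.l ≤ D.R := by
    have h1 : (16 : ℝ) ≤ K ^ 4 := by
      have : (4 : ℝ) ^ 4 ≤ K ^ 4 := by gcongr
      linarith
    nlinarith
  have hR0 : 0 < D.R := by linarith
  have hRk : 2 * D.l / P.kap ≤ D.R := hS.R_ge'
  have hfrac : 1 / D.R < P.kap / D.l := by
    rw [div_lt_div_iff₀ hR0 hl0]
    rw [div_le_iff₀ hk] at hRk
    nlinarith
  have hp : 0 < pe P.eps := by
    unfold pe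
    have : 4 ≤ 2 / P.eps := by
      rw [le_div_iff₀ he]
      linarith
    linarith
  have hpow0 : 0 < (4 * D.l) ^ (-pe P.eps) := Real.rpow_pos_of_pos (by linarith) _
  have hpow1 : (4 * D.l) ^ (-pe P.eps) < 1 :=
    Real.rpow_lt_one_of_one_lt_of_neg (by linarith) (by linarith)
  have hsb : D.sb P = P.eps * P.c * (4 * D.l) ^ (-pe P.eps) := rfl
  have hsb0 : 0 < D.sb P := by
    rw [hsb]
    have := hS.c_pos
    positivity
  have hsbe : D.sb P < P.eps := by
    rw [hsb]
    have h1 := hS.c_pos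
    have h2 := hS.c_le
    have h3 : P.eps * P.c ≤ P.eps := by nlinarith
    calc P.eps * P.c * (4 * D.l) ^ (-pe P.eps) < P.eps * P.c * 1 := by gcongr
      _ ≤ P.eps := by linarith
  have hs2 : D.s2 P = (2 - P.eps) * Real.log (4 * D.l) + P.gam := rfl
  have hsM : D.sM P = (2 - P.eps) * Real.log (D.R / 2) - P.gam := rfl
  have hlog16 : (2.7 : ℝ) < Real.log (4 * D.l) := by
    refine log_ge.trans_le (Real.log_le_log (by norm_num) (by linarith))
  have hs21 : 1 < D.s2 P := by
    rw [hs2]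
    nlinarith
  have hKl : D.Kl P = K * D.l := by rw [hK]; rfl
  have hKl0 : 0 < D.Kl P := by rw [hKl]; positivity
  have hKllog : (2 - P.eps) * Real.log (D.Kl P)
      = (2 - P.eps) * Real.log (4 * D.l) + 1 + 2 * P.gam := by
    rw [hKl, Real.log_mul hK0.ne' hl0.ne', Real.log_mul (by norm_num) hl0.ne', mul_add, hKlog]
    ring
  have h2K : 2 * D.Kl P ≤ D.R := by
    rw [hKl]
    have h1 : 2 * K ≤ K ^ 4 := by
      have h3 : (4 : ℝ) ^ 3 ≤ K ^ 3 := by gcongr
      nlinarith
    nlinarith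
  have h4l : 4 * D.l ≤ D.Kl P := by
    rw [hKl]
    nlinarith
  have hsMs2 : D.s2 P + 4 + 4 * P.gam < D.sM P := by
    rw [hs2, hsM]
    have h1 : K ^ 4 * D.l / 2 ≤ D.R / 2 := by linarith
    have h3 : Real.log (K ^ 4 * D.l / 2) ≤ Real.log (D.R / 2) :=
      Real.log_le_log (by positivity) h1
    have h4 : Real.log (K ^ 4 * D.l / 2) = 4 * Real.log K + Real.log D.l - Real.log 2 := by
      rw [Real.log_div (by positivity) (by norm_num), Real.log_mul (by positivity) hl0.ne',
        Real.log_pow]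
      norm_num
    have h5 : Real.log (4 * D.l) = 2 * Real.log 2 + Real.log D.l := by
      rw [Real.log_mul (by norm_num) hl0.ne', show (4 : ℝ) = 2 ^ (2 : ℕ) by norm_num,
        Real.log_pow]
      norm_num
    have h6 : Real.log 4 = 2 * Real.log 2 := by
      rw [show (4 : ℝ) = 2 ^ (2 : ℕ) by norm_num, Real.log_pow]
      norm_num
    have h7 := Real.log_two_gt_d9
    have h8 : (2 - P.eps) * Real.log (K ^ 4 * D.l / 2) ≤ (2 - P.eps) * Real.log (D.R / 2) := by
      gcongr
    rw [h4] at h8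
    rw [h5]
    rw [h6] at hKlog
    nlinarith
  refine ⟨hR0, hfrac, hR16, by linarith, hsb0, by linarith, hsbe, hs21, hsMs2, h2K, h4l, hKllog⟩

end SETWaux

open SETWaux in
theorem SETW (hLOGW : Stmt_LOGW) : Stmt_SETW := by
  intro P D hS
  obtain ⟨hR0, hfrac, hR16, hR2, hsb0, hsb1, hsbe, hs21, hsMs2, h2K, h4l, hKllog⟩ := numbers hS
  have he := hS.eps_pos
  have he2 := hS.eps_le
  have hg := hS.gam_pos
  have hk := hS.kap_pos
  have hk2 := hS.kap_le
  have hl := hS.l_ge
  have hl0 : 0 < D.l := by linarith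
  have h2e : 0 < 2 - P.eps := by linarith
  have hloc := hS.located
  have hOm : IsOpen D.Om := isOpen_Ann _ _
  have hMet : MetricOn D.Om D.g' :=
    ⟨fun i j => (hS.modified.metric.smooth i j).mono (Set.subset_univ _),
      fun x _ => hS.modified.metric.posDef x trivial⟩
  have hTen : TensorOn D.Om D.h' :=
    ⟨fun i j => (hS.modified.tensor.smooth i j).mono (Set.subset_univ _),
      fun x _ => hS.modified.tensor.symm x trivial⟩
  have hsM : D.sM P = (2 - P.eps) * Real.log (D.R / 2) - P.gam := rfl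
  have hs2 : D.s2 P = (2 - P.eps) * Real.log (4 * D.l) + P.gam := rfl
  obtain ⟨hw1, hw2, hw3⟩ := hLOGW P.eps D.Om D.g' D.h' D.u D.G D.M he (by linarith) hOm hMet hTen
    hS.sol.h2 hloc.pos hS.sol.eq
  have hkl1 : P.kap / D.l < 1 := by
    rw [div_lt_one hl0]
    linarith
  -- near the outer boundary
  have hout : ∀ x : E3, D.R / 2 ≤ ‖x‖ → ‖x‖ < D.R → D.sM P ≤ D.w P x := by
    intro x hx1 hx2
    have h1 := hloc.outer_low x (by linarith) hx2
    have h3 : Real.log (D.R / 2) ≤ Real.log ‖x‖ := Real.log_le_log (by linarith) hx1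
    have h4 : (2 - P.eps) * Real.log (D.R / 2) ≤ (2 - P.eps) * Real.log ‖x‖ := by gcongr
    show D.sM P ≤ wOf P.eps D.u x
    rw [hsM]
    linarith
  have hlow : ∀ x ∈ D.Om, D.sb P / 4 < D.w P x → P.kap / D.l ≤ ‖x‖ := by
    intro x hx h
    exact hloc.low' x hx (le_of_lt h)
  have hmid : ∀ x ∈ D.Om, D.s2 P ≤ D.w P x → 4 * D.l ≤ ‖x‖ := by
    intro x hx h
    by_contra hc
    have := hloc.mid x hx (not_le.1 hc)
    exact absurd h (not_le.2 this)
  have hsmall : ∀ x ∈ D.Om, D.w P x < D.sM P → ‖x‖ < D.R / 2 := by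
    intro x hx h
    by_contra hc
    exact absurd h (not_lt.2 (hout x (not_lt.1 hc) hx.2))
  refine ⟨hMet, hTen, fun x _ => hS.modified.twoNonneg x trivial, hw1, hw2, hw3 hS.sol.noIsland,
    ?_, ?_, ?_, hsmall, hmid, ?_, ?_, ?_, ?_, hsb0, hsb1, hsbe, hs21, hsMs2, h2K, h4l⟩
  · exact ((Real.measurable_log.comp hS.sol.cont.measurable).const_mul (-P.eps))
  · -- Sep on the whole annulus
    refine ⟨(1 / D.R + P.kap / D.l) / 2, D.R / 2, by linarith, by linarith, by linarith, ?_, hout⟩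
    intro x hx1 hx2
    by_contra hc
    have hx3 : ‖x‖ < P.kap / D.l := by linarith
    have hxO : x ∈ D.Om := ⟨hx1, by linarith⟩
    have := hlow x hxO (not_le.1 hc)
    linarith
  · -- Sep on the outer part
    refine ⟨3 * D.l, D.R / 2, by linarith, by linarith, by linarith, ?_, hout⟩
    intro x hx1 hx2
    have h1R : 1 / D.R < ‖x‖ := by linarith
    exact (hloc.mid x ⟨h1R, by linarith⟩ (by linarith)).le
  · intro x hx h
    by_contra hc
    have := hloc.low x hx (not_lt.1 hc)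
    linarith
  · intro x hx1 hx2
    have h1 : 1 ≤ ‖x‖ := by linarith
    have h3 := hloc.outer x h1 (by linarith)
    have h4 := (abs_le.1 h3).2
    have h5 : Real.log ‖x‖ ≤ Real.log (D.Kl P) := Real.log_le_log (by linarith) hx2
    have h6 : (2 - P.eps) * Real.log ‖x‖ ≤ (2 - P.eps) * Real.log (D.Kl P) := by gcongr
    show wOf P.eps D.u x ≤ _
    rw [hs2]
    linarith
  · intro x hx h
    by_contra hc
    have hc' := not_le.1 hc
    have h3 := hloc.outer_low x (by linarith) hx.2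
    have h5 : Real.log (D.Kl P) ≤ Real.log ‖x‖ := Real.log_le_log (by linarith) hc'.le
    have h6 : (2 - P.eps) * Real.log (D.Kl P) ≤ (2 - P.eps) * Real.log ‖x‖ := by gcongr
    have h7 : wOf P.eps D.u x < D.s2 P + 1 := h
    rw [hs2] at h7
    linarith
  · intro s s' hs hs'
    refine ⟨cAnn (P.kap / D.l) (D.R / 2), isCompact_cAnn _ _, ?_, ?_⟩
    · intro x hx
      exact ⟨lt_of_lt_of_le hfrac hx.1, lt_of_le_of_lt hx.2 (by linarith)⟩
    · rintro x ⟨hxO, hx1, hx2⟩
      exact ⟨hlow x hxO (by linarith), (hsmall x hxO (by linarith)).le⟩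

end Pool.Agent.PFlow
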