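import Pool.Agent.PFlow.E.LEYb

/-!
# Module LEY: the local bound at the other end

In the coordinates `y = x / |x|²` the metric is asymptotically flat, and the estimate LE applies.
-/

set_option autoImplicit false

open MeasureTheory Filter Topology
open scoped ContDiff ENNReal

namespace Pool.Agent.PFlow

open Pool.Agent.PenroseSph Pool.Agent.PFlow.GB.COVGm

namespace LEYaux

/-- The function `1 - u`. -/
theorem h2_one_sub {U : Set E3} {u : E3 → ℝ} {G : E3 → Cov} {M : E3 → Bil}
    (hu : H2On U u G M) :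
    H2On U (fun x => 1 - u x) (fun x => -G x) (fun x => -M x) := by
  refine ⟨continuousOn_const.sub hu.cont, ?_, ?_, ?_⟩
  · intro K hK hKU i
    exact (hu.memG K hK hKU i).neg
  · intro K hK hKU i j
    exact (hu.memM K hK hKU i j).neg
  · intro K hK hKU
    obtain ⟨v, hv, hvu, hvG, hvM⟩ := hu.approx K hK hKU
    have e1 : ∀ n i, pd i (fun x => 1 - v n x) = fun x => - pd i (v n) x := by
      intro n i
      funext x
      have := pd_sub (i := i) (f := fun _ => (1 : ℝ)) (f' := v n) (x := x)
        (differentiableAt_const _) ((hv n).contDiffAt.differentiableAt (by simp))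
      rw [this, pd_const, zero_sub]
    have e2 : ∀ n i j, pd i (pd j (fun x => 1 - v n x)) = fun x => - pd i (pd j (v n)) x := by
      intro n i j
      rw [e1]
      funext x
      unfold pd
      rw [fderiv_fun_neg]
      rfl
    refine ⟨fun n x => 1 - v n x, fun n => contDiff_const.sub (hv n), ?_, ?_, ?_⟩
    · rw [Metric.tendstoUniformlyOn_iff] at hvu ⊢
      intro δ hδ
      filter_upwards [hvu δ hδ] with n hn x hx
      have := hn x hx
      rw [Real.dist_eq] at this ⊢
      rw [show 1 - u x - (1 - v n x) = -(u x - v n x) by ring, abs_neg]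
      exact this
    · intro i
      refine (hvG i).congr fun n => ?_
      congr 1
      funext x
      rw [e1]
      simp only [Pi.neg_apply]
      ring
    · intro i j
      refine (hvM i j).congr fun n => ?_
      congr 1
      funext x
      rw [e2]
      simp only [Matrix.neg_apply]
      ring

theorem mem_image_inversion {a b : ℝ} (ha : 0 < a) (hb : 0 < b) :
    inversion '' cAnn (b⁻¹) (a⁻¹) = cAnn a b := by
  ext x
  constructor
  · rintro ⟨y, ⟨h1, h2⟩, rfl⟩
    have hy : 0 < ‖y‖ := lt_of_lt_of_le (by positivity) h1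
    have hy0 : y ≠ 0 := norm_pos_iff.1 hy
    refine ⟨?_, ?_⟩
    · rw [HSM2.norm_inversion y hy0]
      exact (le_inv_comm₀ ha hy).2 h2
    · rw [HSM2.norm_inversion y hy0]
      exact (inv_le_comm₀ hy hb).2 h1
  · rintro ⟨h1, h2⟩
    have hx : 0 < ‖x‖ := lt_of_lt_of_le ha h1
    have hx0 : x ≠ 0 := norm_pos_iff.1 hx
    refine ⟨inversion x, ⟨?_, ?_⟩, HSM2.inversion_inversion x hx0⟩
    · rw [HSM2.norm_inversion x hx0]
      exact inv_anti₀ hx h2
    · rw [HSM2.norm_inversion x hx0]
      exact inv_anti₀ ha h1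

theorem det_le {A : Bil} {α : ℝ} (hα : 0 ≤ α) (hA : ∀ i j, |A i j| ≤ α) :
    A.det ≤ 6 * α ^ 3 := by
  have h3 : ∀ i j k l m n, |A i j * A k l * A m n| ≤ α ^ 3 := by
    intro i j k l m n
    rw [abs_mul, abs_mul]
    calc |A i j| * |A k l| * |A m n| ≤ α * α * α :=
          mul_le_mul (mul_le_mul (hA i j) (hA k l) (abs_nonneg _) hα) (hA m n) (abs_nonneg _)
            (by positivity)
      _ = α ^ 3 := by ring
  rw [Matrix.det_fin_three]
  linarith [(abs_le.1 (h3 0 0 1 1 2 2)).2, (abs_le.1 (h3 0 0 1 2 2 1)).1,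
    (abs_le.1 (h3 0 1 1 0 2 2)).1, (abs_le.1 (h3 0 1 1 2 2 0)).2,
    (abs_le.1 (h3 0 2 1 0 2 1)).2, (abs_le.1 (h3 0 2 1 1 2 0)).1]

theorem len_zero (g : TensorField) (x : E3) : len g x 0 = 0 := by
  unfold len ev
  simp

theorem len_le {g : TensorField} {y : E3} {C : ℝ} (hC : 0 ≤ C) (hg : IsUnit (g y).det)
    (hell : ∀ v : Cov, (∑ i, v i ^ 2) ≤ C * ev (g y) v v) (p : Cov) :
    len g y p ≤ √(3 * C) * vsz p := by
  have e : √(3 * C) * vsz p = √(3 * C * vsz p ^ 2) := by
    rw [Real.sqrt_mul (by positivity : (0 : ℝ) ≤ 3 * C) (vsz p ^ 2),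
      Real.sqrt_sq (vsz_nonneg p)]
  rw [e]
  unfold len
  refine Real.sqrt_le_sqrt ?_
  rw [sq_vsz]
  exact (le_abs_self _).trans (ev_le hC (HSM2.inv_bound (g y) C hC hell hg) p)

/-- Measurability of the integrand. -/
theorem meas_len {K : Set E3} (hK : K ⊆ {0}ᶜ) (hKm : MeasurableSet K) {g : TensorField}
    (hg : MetricOn {0}ᶜ g) {p : E3 → Cov}
    (hp : ∀ i, AEStronglyMeasurable (fun y => p y i) (volume.restrict K)) :
    AEStronglyMeasurable (fun y => len g y (p y) ^ 3 * volDen g y) (volume.restrict K) := by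
  have hd : ∀ y ∈ K, ∀ i j, DifferentiableAt ℝ (fun z => g z i j) y := fun y hy i j =>
    (((hg.smooth i j) y (hK hy)).contDiffAt
      (AFDaux.isOpen_compl_zero.mem_nhds (hK hy))).differentiableAt (by simp)
  have hi : ∀ i j, AEStronglyMeasurable (fun y => (g y)⁻¹ i j) (volume.restrict K) := by
    intro i j
    refine ContinuousOn.aestronglyMeasurable (fun y hy => ?_) hKm
    exact (PenroseConvex.CovR.differentiableAt_inv (hd y hy) (hg.posDef y (hK hy)).det_pos.ne'
      i j).continuousAt.continuousWithinAt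
  have hdet : AEStronglyMeasurable (fun y => (g y).det) (volume.restrict K) := by
    refine ContinuousOn.aestronglyMeasurable (fun y hy => ?_) hKm
    exact (PenroseConvex.CovR.continuousAt_det (M := g) fun i j =>
      (hd y hy i j).continuousAt).continuousWithinAt
  have hl : AEStronglyMeasurable (fun y => len g y (p y)) (volume.restrict K) := by
    unfold len ev
    refine Real.continuous_sqrt.comp_aestronglyMeasurable ?_
    refine Finset.aestronglyMeasurable_fun_sum _ fun i _ =>
      Finset.aestronglyMeasurable_fun_sum _ fun j _ => ?_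
    exact ((hi i j).mul (hp i)).mul (hp j)
  exact (hl.pow 3).mul (Real.continuous_sqrt.comp_aestronglyMeasurable hdet)

end LEYaux

open LEYaux

/-- **(LEY)** -/
theorem LEY (hLE : Stmt_LE) : Stmt_LEY := by
  intro ε C κ₁ κ₂ hε hε2 hC hκ₁ hκ
  have hκ₂ : 0 < κ₂ := hκ₁.trans hκ
  obtain ⟨C₁, hC₁⟩ : ∃ C₁ : ℝ, C₁ = (√(3 * C) * (4 * √C) + 162 * C ^ 3) * (2 * κ₂) ^ 2 :=
    ⟨_, rfl⟩
  have hC₁0 : 0 ≤ C₁ := by rw [hC₁]; positivity
  obtain ⟨CL, hCL, hLE'⟩ := hLE (ε / 2) C₁ (1 / (2 * κ₂)) (1 / κ₂) (1 / κ₁) (2 / κ₁)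
    (by positivity) (by linarith) hC₁0 (by positivity)
    (by
      rw [div_lt_div_iff₀ (by positivity) hκ₂]
      linarith)
    (one_div_lt_one_div_of_lt hκ₁ hκ)
    (by
      rw [div_lt_div_iff₀ hκ₁ hκ₁]
      linarith)
  obtain ⟨D, hD⟩ : ∃ D : ℝ, D = √(3 * C) ^ 3 * √(6 * (1 + C) ^ 3) := ⟨_, rfl⟩
  have hD0 : 0 < D := by rw [hD]; positivity
  refine ⟨D * CL, 1 + 2 * κ₂ + 120 * C ^ 2 * κ₂ / ε, by positivity, ?_, ?_⟩
  · have : 0 ≤ 120 * C ^ 2 * κ₂ / ε := by positivity
    linarith
  intro l S g g' h' u G M hl hS hg hdec hell hx hu heq huS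
  have hl1 : 1 ≤ l := by
    have : 0 ≤ 120 * C ^ 2 * κ₂ / ε := by positivity
    linarith
  have hl0 : 0 < l := lt_of_lt_of_le one_pos hl1
  have hlκ : 2 * κ₂ ≤ l := by
    have : 0 ≤ 120 * C ^ 2 * κ₂ / ε := by positivity
    linarith
  have hlε : 120 * C ^ 2 * κ₂ ≤ ε * l := by
    have h1 : 120 * C ^ 2 * κ₂ / ε ≤ l := by linarith
    rw [div_le_iff₀ hε] at h1
    linarith
  -- the sets
  obtain ⟨V, hV⟩ : ∃ V : Set E3, V = Ann (1 / (2 * κ₂) * l) (2 / κ₁ * l) := ⟨_, rfl⟩
  obtain ⟨U, hU⟩ : ∃ U : Set E3, U = Ann (κ₁ / (2 * l)) (2 * κ₂ / l) := ⟨_, rfl⟩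
  have hVn : ∀ y ∈ V, 1 / (2 * κ₂) * l < ‖y‖ ∧ ‖y‖ < 2 / κ₁ * l := by
    intro y hy
    rw [hV] at hy
    exact hy
  have hVpos : ∀ y ∈ V, 0 < ‖y‖ := fun y hy => lt_trans (by positivity) (hVn y hy).1
  have hV0 : V ⊆ {0}ᶜ := fun y hy => norm_pos_iff.1 (hVpos y hy)
  have hVt : ∀ y ∈ V, 1 / ‖y‖ ≤ 2 * κ₂ / l := by
    intro y hy
    have h1 := (hVn y hy).1
    rw [div_le_div_iff₀ (hVpos y hy) hl0]
    rw [one_div, inv_mul_lt_iff₀ (by positivity)] at h1
    linarith
  have hV1 : ∀ y ∈ V, 1 ≤ ‖y‖ := by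
    intro y hy
    have h1 := hVt y hy
    have h2 : 2 * κ₂ / l ≤ 1 := (div_le_one hl0).2 hlκ
    have h3 := h1.trans h2
    rwa [div_le_one (hVpos y hy)] at h3
  have hVU : Set.MapsTo inversion V U := by
    intro y hy
    rw [hU]
    have hp := hVpos y hy
    obtain ⟨h1, h2⟩ := hVn y hy
    refine ⟨?_, ?_⟩
    · rw [HSM2.norm_inversion y (hV0 hy), lt_inv_comm₀ (by positivity) hp, inv_div]
      calc ‖y‖ < 2 / κ₁ * l := h2
        _ = 2 * l / κ₁ := by ring
    · rw [HSM2.norm_inversion y (hV0 hy), inv_lt_comm₀ hp (by positivity), inv_div]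
      calc l / (2 * κ₂) = 1 / (2 * κ₂) * l := by ring
        _ < ‖y‖ := h1
  have hUo : IsOpen U := by
    rw [hU]
    exact (isOpen_lt continuous_const continuous_norm).inter
      (isOpen_lt continuous_norm continuous_const)
  have hVo : IsOpen V := by
    rw [hV]
    exact (isOpen_lt continuous_const continuous_norm).inter
      (isOpen_lt continuous_norm continuous_const)
  rw [← hU] at hx hu heq huS
  have hgg : ∀ x ∈ U, ∀ᶠ z in 𝓝 x, g' z = g z := fun x hxU => by
    filter_upwards [hUo.mem_nhds hxU] with z hz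
    exact (hx z hz).1
  -- the transformed function
  have hu2 := h2_inv hV0 hVU (h2_one_sub hu)
  have hpos : ∀ y ∈ V, (inverted g y).PosDef := fun y hy =>
    AFDaux.inverted_posDef (hV0 hy) (hg.posDef _ (HSM2.inversion_ne y (hV0 hy)))
  have hellV : ∀ y ∈ V, ∀ v : Cov, (∑ i, v i ^ 2) ≤ C * ev (inverted g y) v v :=
    fun y hy v => (hell y (hV1 y hy) v).1
  have hrel : ∀ y ∈ V, Rel (PenroseConvex.jac inversion y) (inverted g y)⁻¹
      (g (inversion y))⁻¹ := fun y hy => rel_chg (chg_inversion hg (hV0 hy))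
  -- the inequality
  have hpde : ∀ᵐ y ∂(volume.restrict V),
      |∑ i, my (fun x => -G x) (fun x => -M x) y i i|
        ≤ (1 - ε / 2) * msz (my (fun x => -G x) (fun x => -M x) y)
          + C₁ / l * vsz (gy (fun x => -G x) y) := by
    have h1 := (qmp.restrict hVU).ae heq
    filter_upwards [h1, ae_restrict_mem hVo.measurableSet] with y hy hyV
    obtain ⟨hy1, hy2⟩ := hy
    by_cases hG0 : G (inversion y) = 0
    · have hM0 := hy2 hG0
      have e : ∑ i, my (fun x => -G x) (fun x => -M x) y i i = 0 := by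
        refine Finset.sum_eq_zero fun i _ => ?_
        simp [my, hG0, hM0]
      rw [e, abs_zero]
      have a1 := msz_nonneg (my (fun x => -G x) (fun x => -M x) y)
      have a2 := vsz_nonneg (gy (fun x => -G x) y)
      have a3 : 0 ≤ 1 - ε / 2 := by linarith
      positivity
    · have hxU := hVU hyV
      have hgx := hgg _ hxU
      have hy3 := hy1 hG0
      obtain ⟨hx1, -, hx3⟩ := hx _ hxU
      rw [cHess_congr hgx, beps_congr hx1, beps_congr hx1, len_congr hx1] at hy3
      have hgp : (g (inversion y)).PosDef := hg.posDef _ (HSM2.inversion_ne y (hV0 hyV))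
      have hlen : len (inverted g) y (gy (fun x => -G x) y)
          = len g (inversion y) (G (inversion y)) := by
        unfold gy
        rw [len_pc (hrel y hyV), len_neg]
      have hlp : 0 < len g (inversion y) (G (inversion y)) :=
        (GB.ALG g (inversion y) (G (inversion y)) hgp hG0).1
      have hp0 : gy (fun x => -G x) y ≠ 0 := by
        intro h0
        rw [h0, len_zero] at hlen
        exact hlp.ne hlen
      have hb : |beps ε (inverted g) y (gy (fun x => -G x) y)
          (cHess (inverted g) y (gy (fun x => -G x) y)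
            (my (fun x => -G x) (fun x => -M x) y))|
          ≤ len (inverted g) y (gy (fun x => -G x) y) * (4 * √C * (1 / ‖y‖) ^ 2) := by
        rw [hlen, cHess_inv hg (hV0 hyV)]
        unfold gy
        rw [beps_inv hg (hV0 hyV), cHess_neg, beps_neg, abs_neg]
        have e1 : beps ε g (inversion y) (G (inversion y))
            (cHess g (inversion y) (G (inversion y)) (M (inversion y)))
            = -(len g (inversion y) (G (inversion y))
              * beps ε g (inversion y) (G (inversion y)) (h' (inversion y))) := by linarith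
        rw [e1, abs_neg, abs_mul, abs_of_pos hlp]
        refine mul_le_mul_of_nonneg_left ?_ hlp.le
        refine (beps_le hgp _ _ hε.le (by linarith)).trans ?_
        have e2 : √(nsq g (inversion y) (h' (inversion y))) ≤ √C * (1 / ‖y‖) ^ 2 := by
          calc √(nsq g (inversion y) (h' (inversion y))) ≤ √(C * ‖inversion y‖ ^ 4) :=
              Real.sqrt_le_sqrt hx3
            _ = √C * (1 / ‖y‖) ^ 2 := by
              rw [HSM2.norm_inversion y (hV0 hyV), Real.sqrt_mul hC.le, one_div,
                show (‖y‖⁻¹) ^ 4 = ((‖y‖⁻¹) ^ 2) ^ 2 by ring, Real.sqrt_sq (by positivity)]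
        linarith
      have hpb := point_bound (g := inverted g) (y := y) (C := C) (t := 1 / ‖y‖)
        (B := 4 * √C) (ε := ε) hC (by positivity) (by positivity) hε.le (by linarith)
        (hpos y hyV)
        (fun i j => by
          have h2 := (hdec y (hV1 y hyV) i j).1
          rwa [mul_one_div])
        (fun i j k => by
          have h2 := (hdec y (hV1 y hyV) i j).2.1 k
          rwa [div_pow, one_pow, mul_one_div])
        (hellV y hyV) hp0 (M := my (fun x => -G x) (fun x => -M x) y) hb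
      refine hpb.trans ?_
      have t0 : 0 ≤ 1 / ‖y‖ := by positivity
      have t1 := hVt y hyV
      have a1 := msz_nonneg (my (fun x => -G x) (fun x => -M x) y)
      have a2 := vsz_nonneg (gy (fun x => -G x) y)
      refine add_le_add (mul_le_mul_of_nonneg_right ?_ a1) (mul_le_mul_of_nonneg_right ?_ a2)
      · have h3 : 30 * C ^ 2 * (1 / ‖y‖) ≤ 30 * C ^ 2 * (2 * κ₂ / l) :=
          mul_le_mul_of_nonneg_left t1 (by positivity)
        have h4 : 30 * C ^ 2 * (2 * κ₂ / l) ≤ ε / 2 := by
          rw [mul_div_assoc', div_le_iff₀ hl0]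
          linarith
        linarith
      · have h3 : (1 / ‖y‖) ^ 2 ≤ (2 * κ₂) ^ 2 / l := by
          calc (1 / ‖y‖) ^ 2 ≤ (2 * κ₂ / l) ^ 2 := pow_le_pow_left₀ t0 t1 2
            _ = (2 * κ₂) ^ 2 / l ^ 2 := by rw [div_pow]
            _ ≤ (2 * κ₂) ^ 2 / l := by
              refine div_le_div_of_nonneg_left (by positivity) hl0 ?_
              nlinarith
        calc (√(3 * C) * (4 * √C) + 162 * C ^ 3) * (1 / ‖y‖) ^ 2
            ≤ (√(3 * C) * (4 * √C) + 162 * C ^ 3) * ((2 * κ₂) ^ 2 / l) :=
              mul_le_mul_of_nonneg_left h3 (by positivity)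
          _ = C₁ / l := by rw [hC₁]; ring
  -- the local estimate
  obtain ⟨hint, hle⟩ := hLE' l S (fun y => 1 - u (inversion y)) (gy (fun x => -G x))
    (my (fun x => -G x) (fun x => -M x)) hl0 hS (by rw [← hV]; exact hu2)
    (by
      rw [← hV]
      intro y hy
      exact huS _ (hVU hy))
    (by rw [← hV]; exact hpde)
  -- change of variables
  obtain ⟨K, hKdef⟩ : ∃ K : Set E3, K = cAnn (1 / κ₂ * l) (1 / κ₁ * l) := ⟨_, rfl⟩
  rw [← hKdef] at hint hle
  have hKV : K ⊆ V := by
    intro y hy
    rw [hKdef] at hy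
    rw [hV]
    refine ⟨lt_of_lt_of_le ?_ hy.1, lt_of_le_of_lt hy.2 ?_⟩
    · refine mul_lt_mul_of_pos_right ?_ hl0
      rw [div_lt_div_iff₀ (by positivity) hκ₂]
      linarith
    · refine mul_lt_mul_of_pos_right ?_ hl0
      rw [div_lt_div_iff₀ hκ₁ hκ₁]
      linarith
  have hKc : IsCompact K := by rw [hKdef]; exact AFDaux.isCompact_cAnn _ _
  have hK0 : K ⊆ {0}ᶜ := hKV.trans hV0
  have himg : cAnn (κ₁ / l) (κ₂ / l) = inversion '' K := by
    rw [hKdef, ← mem_image_inversion (a := κ₁ / l) (b := κ₂ / l) (by positivity)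
      (by positivity), inv_div, inv_div]
    congr 2 <;> ring
  have hgi := AFDaux.inverted_metric hg
  -- the integrand
  have hval : ∀ y ∈ K, |(inversionJac y).det| * (len g' (inversion y) (G (inversion y)) ^ 3
      * volDen g' (inversion y))
      = len (inverted g) y (gy (fun x => -G x) y) ^ 3 * volDen (inverted g) y := by
    intro y hy
    have hyV := hKV hy
    have hx1 := (hx _ (hVU hyV)).1
    have hlen : len (inverted g) y (gy (fun x => -G x) y)
        = len g (inversion y) (G (inversion y)) := by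
      unfold gy
      rw [len_pc (hrel y hyV), len_neg]
    rw [hlen, volDen_chg (chg_inversion hg (hV0 hyV)), jac_inversion (hV0 hyV), len_congr hx1]
    unfold volDen
    rw [hx1]
    ring
  have hbd : ∀ y ∈ K, len (inverted g) y (gy (fun x => -G x) y) ^ 3 * volDen (inverted g) y
      ≤ D * vsz (gy (fun x => -G x) y) ^ 3 := by
    intro y hy
    have hyV := hKV hy
    have b1 := len_le hC.le (hpos y hyV).det_pos.ne'.isUnit (hellV y hyV)
      (gy (fun x => -G x) y)
    have b2 : volDen (inverted g) y ≤ √(6 * (1 + C) ^ 3) := by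
      refine Real.sqrt_le_sqrt (det_le (by positivity) fun i j => ?_)
      have h2 := (hdec y (hV1 y hyV) i j).1
      have h3 : C / ‖y‖ ≤ C := div_le_self hC.le (hV1 y hyV)
      have h4 : |(1 : Bil) i j| ≤ 1 := by
        rw [Matrix.one_apply]
        split_ifs <;> simp
      have h5 : inverted g y i j = (inverted g y i j - (1 : Bil) i j) + (1 : Bil) i j := by ring
      rw [h5]
      refine (abs_add_le _ _).trans ?_
      linarith
    have b3 : 0 ≤ len (inverted g) y (gy (fun x => -G x) y) := Real.sqrt_nonneg _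
    calc len (inverted g) y (gy (fun x => -G x) y) ^ 3 * volDen (inverted g) y
        ≤ (√(3 * C) * vsz (gy (fun x => -G x) y)) ^ 3 * √(6 * (1 + C) ^ 3) :=
          mul_le_mul (pow_le_pow_left₀ b3 b1 3) b2 (Real.sqrt_nonneg _)
            (by have := vsz_nonneg (gy (fun x => -G x) y); positivity)
      _ = D * vsz (gy (fun x => -G x) y) ^ 3 := by rw [hD]; ring
  have hnn : ∀ y, 0 ≤ len (inverted g) y (gy (fun x => -G x) y) ^ 3
      * volDen (inverted g) y := fun y => by
    have b3 : 0 ≤ len (inverted g) y (gy (fun x => -G x) y) := Real.sqrt_nonneg _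
    have b4 : 0 ≤ volDen (inverted g) y := Real.sqrt_nonneg _
    positivity
  have hint2 : IntegrableOn (fun y => len (inverted g) y (gy (fun x => -G x) y) ^ 3
      * volDen (inverted g) y) K := by
    refine Integrable.mono' (hint.const_mul D)
      (meas_len hK0 hKc.measurableSet hgi fun i => (hu2.memG K hKc hKV i).1) ?_
    filter_upwards [ae_restrict_mem hKc.measurableSet] with y hy
    rw [Real.norm_of_nonneg (hnn y)]
    exact hbd y hy
  rw [himg]
  constructor
  · rw [integrableOn_image hKc.measurableSet hK0]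
    exact hint2.congr_fun (fun y hy => (hval y hy).symm) hKc.measurableSet
  · rw [integral_image hKc.measurableSet hK0]
    calc ∫ y in K, |(inversionJac y).det| * (len g' (inversion y) (G (inversion y)) ^ 3
          * volDen g' (inversion y))
        = ∫ y in K, len (inverted g) y (gy (fun x => -G x) y) ^ 3 * volDen (inverted g) y :=
          setIntegral_congr_fun hKc.measurableSet fun y hy => hval y hy
      _ ≤ ∫ y in K, D * vsz (gy (fun x => -G x) y) ^ 3 :=
          setIntegral_mono_on hint2 (hint.const_mul D) hKc.measurableSet fun y hy => hbd y hy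
      _ = D * ∫ y in K, vsz (gy (fun x => -G x) y) ^ 3 := integral_const_mul _ _
      _ ≤ D * (CL * S ^ 3) := mul_le_mul_of_nonneg_left hle hD0.le
      _ = D * CL * S ^ 3 := by ring

end Pool.Agent.PFlow
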