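import Pool.Agent.PFlow.StmtsE3

/-!
# MODM: the constant of the modified data may be increased
-/

open MeasureTheory Filter Topology
open scoped ContDiff

namespace Pool.Agent.PFlow

open Pool.Agent.PenroseSph

namespace EMODM

lemma decay_mono {C C' : ℝ} {g h : TensorField} (hC : C ≤ C') (hd : DecayFrom C 1 g h) :
    DecayFrom C' 1 g h := by
  intro x hx i j
  have hr : 0 < ‖x‖ := by linarith
  obtain ⟨h1, h2, h3, h4, h5⟩ := hd x hx i j
  have hm : ∀ n : ℕ, C / ‖x‖ ^ n ≤ C' / ‖x‖ ^ n := fun n =>
    div_le_div_of_nonneg_right hC (by positivity)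
  have hm1 : C / ‖x‖ ≤ C' / ‖x‖ := div_le_div_of_nonneg_right hC hr.le
  exact ⟨h1.trans hm1, fun k => (h2 k).trans (hm 2), fun k l => (h3 k l).trans (hm 3),
    h4.trans (hm 2), fun k => (h5 k).trans (hm 3)⟩

lemma ev_nonneg {B : Bil} (hB : B.PosDef) (v : Cov) : 0 ≤ ev B v v := by
  have h := hB.posSemidef.dotProduct_mulVec_nonneg v
  have e : ev B v v = star v ⬝ᵥ (B.mulVec v) := by
    simp only [ev, dotProduct, Matrix.mulVec, Pi.star_apply, star_trivial]
    refine Finset.sum_congr rfl fun i _ => ?_
    rw [Finset.mul_sum]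
    refine Finset.sum_congr rfl fun j _ => ?_
    ring
  rw [e]
  exact h

end EMODM

theorem MODM : Stmt_MODM := by
  intro g h C C' l R g' h' e hl hR hC hM
  have hR' : 0 < 1 / (8 * R) := by positivity
  refine { hM with
    barrier := ?_
    decay1 := EMODM.decay_mono hC hM.decay1
    hsmall := ?_
    decay2 := EMODM.decay_mono hC hM.decay2
    hsmall2 := ?_
    elliptic := ?_
    shell := ?_
    trans := ?_
    trans_sup := ?_ }
  · intro ε h1 h2 x hx
    exact (hM.barrier ε h1 h2 x hx).trans (div_le_div_of_nonneg_right hC (by positivity))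
  · intro x hx i j
    exact (hM.hsmall x hx i j).trans (div_le_div_of_nonneg_right hC (by positivity))
  · intro x hx hx1
    exact (hM.hsmall2 x hx hx1).trans (mul_le_mul_of_nonneg_right hC (by positivity))
  · intro x hx v
    obtain ⟨h1, h2⟩ := hM.elliptic x hx v
    have h3 := EMODM.ev_nonneg (hM.metric.posDef x (Set.mem_univ x)) v
    have h4 : 0 ≤ ∑ i, v i ^ 2 := Finset.sum_nonneg fun i _ => sq_nonneg _
    exact ⟨h1.trans (mul_le_mul_of_nonneg_right hC h3),
      h2.trans (mul_le_mul_of_nonneg_right hC h4)⟩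
  · intro x hx hx1
    have h1 := hM.shell x hx hx1
    have h2 : 0 ≤ msz (h x) / l + msz (h x) ^ 2 := by
      have : 0 ≤ msz (h x) := Real.sqrt_nonneg _
      positivity
    have h3 := mul_le_mul_of_nonneg_right hC h2
    linarith
  · intro x hx hx1
    exact (hM.trans x hx hx1).trans (div_le_div_of_nonneg_right hC (by positivity))
  · intro x hx hx1
    exact (hM.trans_sup x hx hx1).trans (div_le_div_of_nonneg_right hC (by positivity))

end Pool.Agent.PFlow
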