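import Pool.Agent.PFlow.StmtsE2

/-!
# The main test function
-/

open MeasureTheory Filter Topology
open scoped ContDiff

namespace Pool.Agent.PFlow

open Pool.Agent.PenroseSph

namespace ETSTA

open Real (smoothTransition)

/-- Shorthand. -/
noncomputable def rho : ℝ → ℝ := smoothTransition

lemma rho_smooth : ContDiff ℝ ∞ rho := Real.smoothTransition.contDiff

lemma rho_cont : Continuous rho := Real.smoothTransition.continuous

lemma rho_zero {t : ℝ} (h : t ≤ 0) : rho t = 0 := Real.smoothTransition.zero_of_nonpos h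

lemma rho_one {t : ℝ} (h : 1 ≤ t) : rho t = 1 := Real.smoothTransition.one_of_one_le h

lemma rho_nonneg (t : ℝ) : 0 ≤ rho t := Real.smoothTransition.nonneg t

lemma rho_le (t : ℝ) : rho t ≤ 1 := Real.smoothTransition.le_one t

lemma rho_diff (t : ℝ) : HasDerivAt rho (deriv rho t) t :=
  (rho_smooth.differentiable (by simp) t).hasDerivAt

lemma drho_smooth : ContDiff ℝ ∞ (deriv rho) := by
  have h : ContDiff ℝ (∞ + 1) rho := by
    simpa using rho_smooth
  exact (contDiff_succ_iff_deriv.mp h).2.2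

lemma drho_cont : Continuous (deriv rho) := drho_smooth.continuous

lemma drho_diff (t : ℝ) : HasDerivAt (deriv rho) (deriv (deriv rho) t) t :=
  (drho_smooth.differentiable (by simp) t).hasDerivAt

lemma ddrho_cont : Continuous (deriv (deriv rho)) := by
  have h : ContDiff ℝ (∞ + 1) (deriv rho) := by
    simpa using drho_smooth
  exact (contDiff_succ_iff_deriv.mp h).2.2.continuous

lemma drho_nonneg (t : ℝ) : 0 ≤ deriv rho t := Real.smoothTransition.monotone.deriv_nonneg

lemma eq_zero_le {f : ℝ → ℝ} (hf : Continuous f) {a : ℝ} (h : ∀ t < a, f t = 0) {t : ℝ}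
    (ht : t ≤ a) : f t = 0 := by
  have h1 : IsClosed {t | f t = 0} := isClosed_eq hf continuous_const
  have h2 : closure (Set.Iio a) ⊆ {t | f t = 0} := h1.closure_subset_iff.mpr fun t ht => h t ht
  rw [closure_Iio] at h2
  exact h2 ht

lemma eq_zero_ge {f : ℝ → ℝ} (hf : Continuous f) {a : ℝ} (h : ∀ t > a, f t = 0) {t : ℝ}
    (ht : a ≤ t) : f t = 0 := by
  have h1 : IsClosed {t | f t = 0} := isClosed_eq hf continuous_const
  have h2 : closure (Set.Ioi a) ⊆ {t | f t = 0} := h1.closure_subset_iff.mpr fun t ht => h t ht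
  rw [closure_Ioi] at h2
  exact h2 ht

lemma drho_lt {t : ℝ} (h : t < 0) : deriv rho t = 0 := by
  have h1 : rho =ᶠ[𝓝 t] fun _ => 0 := by
    filter_upwards [Iio_mem_nhds h] with s hs
    exact rho_zero (le_of_lt hs)
  rw [h1.deriv_eq, deriv_const]

lemma drho_gt {t : ℝ} (h : 1 < t) : deriv rho t = 0 := by
  have h1 : rho =ᶠ[𝓝 t] fun _ => 1 := by
    filter_upwards [Ioi_mem_nhds h] with s hs
    exact rho_one (le_of_lt hs)
  rw [h1.deriv_eq, deriv_const]

lemma drho_le0 {t : ℝ} (h : t ≤ 0) : deriv rho t = 0 :=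
  eq_zero_le drho_cont (fun _ => drho_lt) h

lemma drho_ge1 {t : ℝ} (h : 1 ≤ t) : deriv rho t = 0 :=
  eq_zero_ge drho_cont (fun _ => drho_gt) h

lemma ddrho_le0 {t : ℝ} (h : t ≤ 0) : deriv (deriv rho) t = 0 := by
  refine eq_zero_le ddrho_cont (fun s hs => ?_) h
  have h1 : deriv rho =ᶠ[𝓝 s] fun _ => 0 := by
    filter_upwards [Iio_mem_nhds hs] with r hr
    exact drho_le0 (le_of_lt hr)
  rw [h1.deriv_eq, deriv_const]

lemma ddrho_ge1 {t : ℝ} (h : 1 ≤ t) : deriv (deriv rho) t = 0 := by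
  refine eq_zero_ge ddrho_cont (fun s hs => ?_) h
  have h1 : deriv rho =ᶠ[𝓝 s] fun _ => 0 := by
    filter_upwards [Ioi_mem_nhds hs] with r hr
    exact drho_ge1 (le_of_lt hr)
  rw [h1.deriv_eq, deriv_const]

/-- A bound for the derivatives of the smooth step. -/
lemma bound : ∃ K : ℝ, 1 ≤ K ∧ (∀ t, |deriv rho t| ≤ K) ∧ ∀ t, |deriv (deriv rho) t| ≤ K := by
  obtain ⟨K₁, h1⟩ := (isCompact_Icc (a := (0 : ℝ)) (b := 1)).exists_bound_of_continuousOn
    drho_cont.continuousOn
  obtain ⟨K₂, h2⟩ := (isCompact_Icc (a := (0 : ℝ)) (b := 1)).exists_bound_of_continuousOn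
    ddrho_cont.continuousOn
  refine ⟨max 1 (max K₁ K₂), le_max_left _ _, fun t => ?_, fun t => ?_⟩
  · by_cases h : t ∈ Set.Icc (0 : ℝ) 1
    · exact (h1 t h).trans ((le_max_left _ _).trans (le_max_right _ _))
    · have h3 : deriv rho t = 0 := by
        rcases not_and_or.mp h with h4 | h4
        · exact drho_le0 (not_le.mp h4).le
        · exact drho_ge1 (not_le.mp h4).le
      rw [h3, abs_zero]
      exact zero_le_one.trans (le_max_left _ _)
  · by_cases h : t ∈ Set.Icc (0 : ℝ) 1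
    · exact (h2 t h).trans ((le_max_right _ _).trans (le_max_right _ _))
    · have h3 : deriv (deriv rho) t = 0 := by
        rcases not_and_or.mp h with h4 | h4
        · exact ddrho_le0 (not_le.mp h4).le
        · exact ddrho_ge1 (not_le.mp h4).le
      rw [h3, abs_zero]
      exact zero_le_one.trans (le_max_left _ _)

/-- The exponent. -/
noncomputable def Q (t : ℝ) : ℝ := ∫ τ in (0 : ℝ)..t, rho (4 * τ - 1)

lemma contq : Continuous fun τ : ℝ => rho (4 * τ - 1) := rho_cont.comp (by fun_prop)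

lemma Q_diff (t : ℝ) : HasDerivAt Q (rho (4 * t - 1)) t :=
  intervalIntegral.integral_hasDerivAt_right (contq.intervalIntegrable _ _)
    (contq.stronglyMeasurableAtFilter _ _) contq.continuousAt

lemma Q_zero {t : ℝ} (h : t ≤ 1 / 4) : Q t = 0 := by
  unfold Q
  have h1 : ∀ τ ∈ Set.uIcc (0 : ℝ) t, rho (4 * τ - 1) = 0 := by
    intro τ hτ
    refine rho_zero ?_
    have : τ ≤ 1 / 4 := by
      rcases Set.mem_uIcc.mp hτ with h2 | h2
      · exact h2.2.trans h
      · exact h2.2.trans (by norm_num)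
    linarith
  rw [intervalIntegral.integral_congr (g := fun _ => (0 : ℝ)) h1, intervalIntegral.integral_zero]

lemma Q_nonneg {t : ℝ} : 0 ≤ Q t := by
  rcases le_total t (1 / 4) with h | h
  · rw [Q_zero h]
  · exact intervalIntegral.integral_nonneg (by linarith) fun τ _ => rho_nonneg _

lemma Q_le {t : ℝ} (h : 0 ≤ t) : Q t ≤ t := by
  have h1 : Q t ≤ ∫ _ in (0 : ℝ)..t, (1 : ℝ) :=
    intervalIntegral.integral_mono_on h (contq.intervalIntegrable _ _) (by simp)
      fun τ _ => rho_le _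
  simpa using h1

lemma Q_ge {t : ℝ} (h : 1 / 2 ≤ t) : t - 1 / 2 ≤ Q t := by
  have h1 : Q t = Q (1 / 2) + ∫ τ in (1 / 2 : ℝ)..t, rho (4 * τ - 1) := by
    unfold Q
    rw [intervalIntegral.integral_add_adjacent_intervals (contq.intervalIntegrable _ _)
      (contq.intervalIntegrable _ _)]
  have h2 : ∫ τ in (1 / 2 : ℝ)..t, rho (4 * τ - 1) = t - 1 / 2 := by
    rw [intervalIntegral.integral_congr (g := fun _ => (1 : ℝ)), intervalIntegral.integral_const]
    · simp
    · intro τ hτ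
      rw [Set.uIcc_of_le h] at hτ
      refine rho_one ?_
      linarith [hτ.1]
  rw [h1, h2]
  linarith [Q_nonneg (t := 1 / 2)]

/-- Integrability on bands of levels. -/
lemma band_int {Ω : Set E3} {vol w F : E3 → ℝ} (hΩ : MeasurableSet Ω) (hw : Measurable w)
    {a b : ℝ} (hF : IntegrableOn (fun x => F x * vol x) (Ω ∩ {x | a ≤ w x ∧ w x ≤ b}))
    {ψ : ℝ → ℝ} (hψ : Continuous ψ) (hs : ∀ s, s ∉ Set.Icc a b → ψ s = 0) :
    IntegrableOn (fun x => ψ (w x) * F x * vol x) Ω := by
  have hband : MeasurableSet {x | a ≤ w x ∧ w x ≤ b} :=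
    (measurableSet_le measurable_const hw).inter (measurableSet_le hw measurable_const)
  have h1 : IntegrableOn (fun x => ψ (w x) * F x * vol x) (Ω ∩ {x | a ≤ w x ∧ w x ≤ b}) := by
    obtain ⟨C, hC⟩ := (isCompact_Icc (a := a) (b := b)).exists_bound_of_continuousOn
      hψ.continuousOn
    have h2 := Integrable.bdd_mul (c := C) hF
      (f := fun x => ψ (w x)) (hψ.measurable.comp hw).aestronglyMeasurable (by
        filter_upwards [ae_restrict_mem (hΩ.inter hband)] with x hx
        exact hC _ hx.2)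
    refine h2.congr (Eventually.of_forall fun x => ?_)
    simp only []
    ring
  refine h1.of_forall_sdiff_eq_zero hΩ fun x hx => ?_
  have h3 : w x ∉ Set.Icc a b := fun h => hx.2 ⟨hx.1, h⟩
  rw [hs _ h3, zero_mul, zero_mul]

lemma comb4 {α : Type} [MeasurableSpace α] {μ : Measure α} {f g h k : α → ℝ} (c : ℝ)
    (hf : Integrable f μ) (hg : Integrable g μ) (hh : Integrable h μ) (hk : Integrable k μ) :
    ∫ x, (f x - g x + h x + c * k x) ∂μ
      = ∫ x, f x ∂μ - ∫ x, g x ∂μ + ∫ x, h x ∂μ + c * ∫ x, k x ∂μ := by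
  have h1 : Integrable (fun x => f x - g x) μ := hf.sub hg
  have h2 : Integrable (fun x => f x - g x + h x) μ := h1.add hh
  rw [integral_add h2 (hk.const_mul c), integral_add h1 hh, integral_sub hf hg,
    integral_const_mul]

section fns

variable (c0 la sb s₂ se : ℝ)

/-- The exponential weight. -/
noncomputable def ee (s : ℝ) : ℝ := Real.exp (s * c0)

/-- The rise. -/
noncomputable def R (s : ℝ) : ℝ := rho (4 / sb * s - 5 / 2)

/-- The derivative of the rise. -/
noncomputable def R1 (s : ℝ) : ℝ := 4 / sb * deriv rho (4 / sb * s - 5 / 2)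

/-- The second derivative of the rise. -/
noncomputable def R2 (s : ℝ) : ℝ := 4 / sb * (4 / sb * deriv (deriv rho) (4 / sb * s - 5 / 2))

/-- The decay. -/
noncomputable def E (s : ℝ) : ℝ := Real.exp (-(la * Q (s - s₂)))

/-- The derivative of the exponent. -/
noncomputable def q1 (s : ℝ) : ℝ := rho (4 * (s - s₂) - 1)

/-- The cut. -/
noncomputable def T (s : ℝ) : ℝ := 1 - rho (s - se)

/-- The test function. -/
noncomputable def chi (s : ℝ) : ℝ := R sb s * E la s₂ s * T se s

/-- Rise part of the derivative. -/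
noncomputable def p1 (s : ℝ) : ℝ := R1 sb s * ee c0 s

/-- Decay part of the derivative. -/
noncomputable def p2 (s : ℝ) : ℝ := la * q1 s₂ s * chi la sb s₂ se s * ee c0 s

/-- Cut part of the derivative. -/
noncomputable def p3 (s : ℝ) : ℝ := -(E la s₂ s * deriv rho (s - se) * ee c0 s)

/-- The derivative of the cut part. -/
noncomputable def p3' (s : ℝ) : ℝ := la * q1 s₂ s * E la s₂ s * deriv rho (s - se) * ee c0 s
  - E la s₂ s * deriv (deriv rho) (s - se) * ee c0 s
  - E la s₂ s * deriv rho (s - se) * (c0 * ee c0 s)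

lemma ee_d (s : ℝ) : HasDerivAt (ee c0) (c0 * ee c0 s) s := by
  have h : HasDerivAt (fun s : ℝ => s * c0) (1 * c0) s := (hasDerivAt_id s).mul_const c0
  have h2 : HasDerivAt (ee c0) (Real.exp (s * c0) * (1 * c0)) s := h.exp
  refine h2.congr_deriv ?_
  unfold ee
  ring

lemma ee_pos (s : ℝ) : 0 < ee c0 s := Real.exp_pos _

lemma R_d (s : ℝ) : HasDerivAt (R sb) (R1 sb s) s := by
  have h : HasDerivAt (fun s : ℝ => 4 / sb * s - 5 / 2) (4 / sb * 1) s :=
    ((hasDerivAt_id s).const_mul (4 / sb)).sub_const _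
  have h2 : HasDerivAt (R sb) (deriv rho (4 / sb * s - 5 / 2) * (4 / sb * 1)) s :=
    (rho_diff (4 / sb * s - 5 / 2)).comp s h
  refine h2.congr_deriv ?_
  unfold R1
  ring

lemma R1_d (s : ℝ) : HasDerivAt (R1 sb) (R2 sb s) s := by
  have h : HasDerivAt (fun s : ℝ => 4 / sb * s - 5 / 2) (4 / sb * 1) s :=
    ((hasDerivAt_id s).const_mul (4 / sb)).sub_const _
  have h2 : HasDerivAt (R1 sb) (4 / sb * (deriv (deriv rho) (4 / sb * s - 5 / 2)
      * (4 / sb * 1))) s := ((drho_diff (4 / sb * s - 5 / 2)).comp s h).const_mul (4 / sb)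
  refine h2.congr_deriv ?_
  unfold R2
  ring

lemma E_d (s : ℝ) : HasDerivAt (E la s₂) (-(la * q1 s₂ s * E la s₂ s)) s := by
  have h : HasDerivAt (fun s : ℝ => s - s₂) 1 s := (hasDerivAt_id s).sub_const _
  have h0 : HasDerivAt (fun s => Q (s - s₂)) (rho (4 * (s - s₂) - 1) * 1) s :=
    HasDerivAt.comp (h₂ := Q) s (Q_diff (s - s₂)) h
  have h1 : HasDerivAt (E la s₂) (Real.exp (-(la * Q (s - s₂)))
      * -(la * (rho (4 * (s - s₂) - 1) * 1))) s := (h0.const_mul la).neg.exp
  refine h1.congr_deriv ?_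
  unfold q1 E
  ring

lemma T_d (s : ℝ) : HasDerivAt (T se) (-(deriv rho (s - se))) s := by
  have h : HasDerivAt (fun s : ℝ => s - se) 1 s := (hasDerivAt_id s).sub_const _
  have h1 : HasDerivAt (T se) (-(deriv rho (s - se) * 1)) s :=
    ((rho_diff (s - se)).comp s h).const_sub 1
  refine h1.congr_deriv ?_
  ring

variable {sb s₂ se}

lemma R_zero (hb : 0 < sb) {s : ℝ} (h : s ≤ 5 / 8 * sb) : R sb s = 0 := by
  refine rho_zero ?_
  have : 4 / sb * s ≤ 4 / sb * (5 / 8 * sb) := mul_le_mul_of_nonneg_left h (by positivity)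
  have h2 : 4 / sb * (5 / 8 * sb) = 5 / 2 := by
    field_simp
    norm_num
  linarith

lemma R_one (hb : 0 < sb) {s : ℝ} (h : 7 / 8 * sb ≤ s) : R sb s = 1 := by
  refine rho_one ?_
  have : 4 / sb * (7 / 8 * sb) ≤ 4 / sb * s := mul_le_mul_of_nonneg_left h (by positivity)
  have h2 : 4 / sb * (7 / 8 * sb) = 7 / 2 := by
    field_simp
    norm_num
  linarith

lemma R1_zero (hb : 0 < sb) {s : ℝ} (h : s ∉ Set.Icc (5 / 8 * sb) (7 / 8 * sb)) :
    R1 sb s = 0 ∧ R2 sb s = 0 := by
  have h5 : 4 / sb * (5 / 8 * sb) = 5 / 2 := by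
    field_simp
    norm_num
  have h7 : 4 / sb * (7 / 8 * sb) = 7 / 2 := by
    field_simp
    norm_num
  unfold R1 R2
  rcases not_and_or.mp h with h1 | h1
  · have h2 : 4 / sb * s ≤ 4 / sb * (5 / 8 * sb) :=
      mul_le_mul_of_nonneg_left (not_le.mp h1).le (by positivity)
    rw [drho_le0 (by linarith), ddrho_le0 (by linarith)]
    simp
  · have h2 : 4 / sb * (7 / 8 * sb) ≤ 4 / sb * s :=
      mul_le_mul_of_nonneg_left (not_le.mp h1).le (by positivity)
    rw [drho_ge1 (by linarith), ddrho_ge1 (by linarith)]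
    simp

lemma E_one {s : ℝ} (h : s ≤ s₂ + 1 / 4) : E la s₂ s = 1 := by
  unfold E
  rw [Q_zero (by linarith), mul_zero, neg_zero, Real.exp_zero]

lemma q1_zero {s : ℝ} (h : s ≤ s₂ + 1 / 4) : q1 s₂ s = 0 := rho_zero (by linarith)

lemma T_one {s : ℝ} (h : s ≤ se) : T se s = 1 := by
  unfold T
  rw [rho_zero (by linarith), sub_zero]

lemma T_zero {s : ℝ} (h : se + 1 ≤ s) : T se s = 0 := by
  unfold T
  rw [rho_one (by linarith), sub_self]

lemma dT_zero {s : ℝ} (h : s ∉ Set.Icc se (se + 1)) :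
    deriv rho (s - se) = 0 ∧ deriv (deriv rho) (s - se) = 0 := by
  rcases not_and_or.mp h with h1 | h1
  · have := not_le.mp h1
    exact ⟨drho_le0 (by linarith), ddrho_le0 (by linarith)⟩
  · have := not_le.mp h1
    exact ⟨drho_ge1 (by linarith), ddrho_ge1 (by linarith)⟩

lemma R_mem (s : ℝ) : 0 ≤ R sb s ∧ R sb s ≤ 1 := ⟨rho_nonneg _, rho_le _⟩

lemma E_mem (hla : 0 ≤ la) (s : ℝ) : 0 ≤ E la s₂ s ∧ E la s₂ s ≤ 1 := by
  refine ⟨(Real.exp_pos _).le, ?_⟩
  unfold E
  rw [Real.exp_le_one_iff]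
  have := mul_nonneg hla (Q_nonneg (t := s - s₂))
  linarith

lemma T_mem (s : ℝ) : 0 ≤ T se s ∧ T se s ≤ 1 := by
  unfold T
  constructor <;> linarith [rho_nonneg (s - se), rho_le (s - se)]

lemma chi_mem (hla : 0 ≤ la) (s : ℝ) : 0 ≤ chi la sb s₂ se s ∧ chi la sb s₂ se s ≤ 1 := by
  obtain ⟨h1, h2⟩ := R_mem (sb := sb) s
  obtain ⟨h3, h4⟩ := E_mem (s₂ := s₂) la hla s
  obtain ⟨h5, h6⟩ := T_mem (se := se) s
  exact ⟨mul_nonneg (mul_nonneg h1 h3) h5, mul_le_one₀ (mul_le_one₀ h2 h3 h4) h5 h6⟩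

lemma chi_zero (hb : 0 < sb) {s : ℝ} (h : s ∉ Set.Icc (5 / 8 * sb) (se + 1)) :
    chi la sb s₂ se s = 0 := by
  unfold chi
  rcases not_and_or.mp h with h1 | h1
  · rw [R_zero hb (not_le.mp h1).le, zero_mul, zero_mul]
  · rw [T_zero (not_le.mp h1).le, mul_zero]

/-- The derivative of the test function. -/
lemma chi_d (hb : 0 < sb) (hb2 : sb < s₂) (he : s₂ + 1 ≤ se) (s : ℝ) :
    HasDerivAt (fun s => chi la sb s₂ se s * ee c0 s)
      (p1 c0 sb s - p2 c0 la sb s₂ se s + p3 c0 la s₂ se s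
        + c0 * (chi la sb s₂ se s * ee c0 s)) s := by
  have h1 := (((R_d sb s).mul (E_d la s₂ s)).mul (T_d se s)).mul (ee_d c0 s)
  have h2 : R1 sb s * E la s₂ s * T se s = R1 sb s := by
    by_cases h : s ∈ Set.Icc (5 / 8 * sb) (7 / 8 * sb)
    · rw [E_one la (by linarith [h.2]), T_one (by linarith [h.2]), mul_one, mul_one]
    · rw [(R1_zero hb h).1, zero_mul, zero_mul]
  have h3 : R sb s * E la s₂ s * deriv rho (s - se) = E la s₂ s * deriv rho (s - se) := by
    by_cases h : s ∈ Set.Icc se (se + 1)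
    · rw [R_one hb (by linarith [h.1]), one_mul]
    · rw [(dT_zero h).1, mul_zero, mul_zero]
  refine (show HasDerivAt (fun s => chi la sb s₂ se s * ee c0 s) _ s from h1).congr_deriv ?_
  simp only [Pi.mul_apply, p1, p2, p3, chi]
  linear_combination (ee c0 s) * h2 - ee c0 s * h3

lemma p1_d (s : ℝ) : HasDerivAt (p1 c0 sb) (R2 sb s * ee c0 s + R1 sb s * (c0 * ee c0 s)) s :=
  (R1_d sb s).mul (ee_d c0 s)

lemma p3_d (s : ℝ) : HasDerivAt (p3 c0 la s₂ se) (p3' c0 la s₂ se s) s := by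
  have h : HasDerivAt (fun s : ℝ => s - se) 1 s := (hasDerivAt_id s).sub_const _
  have h0 : HasDerivAt (fun s => deriv rho (s - se)) (deriv (deriv rho) (s - se)) s := by
    have h2 : HasDerivAt (fun s => deriv rho (s - se)) (deriv (deriv rho) (s - se) * 1) s :=
      HasDerivAt.comp (h₂ := deriv rho) s (drho_diff (s - se)) h
    exact h2.congr_deriv (mul_one _)
  have h1 := (((E_d la s₂ s).mul h0).mul (ee_d c0 s)).neg
  refine (show HasDerivAt (p3 c0 la s₂ se) _ s from h1).congr_deriv ?_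
  simp only [Pi.mul_apply, p3']
  ring

lemma ee_cont : Continuous (ee c0) := continuous_iff_continuousAt.mpr fun s =>
  (ee_d c0 s).continuousAt

lemma E_cont : Continuous (E la s₂) := continuous_iff_continuousAt.mpr fun s =>
  (E_d la s₂ s).continuousAt

lemma T_cont : Continuous (T se) := continuous_iff_continuousAt.mpr fun s =>
  (T_d se s).continuousAt

lemma R_cont : Continuous (R sb) := continuous_iff_continuousAt.mpr fun s =>
  (R_d sb s).continuousAt

lemma R1_cont : Continuous (R1 sb) := continuous_iff_continuousAt.mpr fun s =>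
  (R1_d sb s).continuousAt

lemma R2_cont : Continuous (R2 sb) := by
  unfold R2
  exact continuous_const.mul (continuous_const.mul (ddrho_cont.comp (by fun_prop)))

lemma q1_cont : Continuous (q1 s₂) := rho_cont.comp (by fun_prop)

lemma chi_cont : Continuous (chi la sb s₂ se) := (R_cont.mul (E_cont la)).mul T_cont

lemma p1_cont : Continuous (p1 c0 sb) := R1_cont.mul (ee_cont c0)

lemma p2_cont : Continuous (p2 c0 la sb s₂ se) :=
  ((continuous_const.mul q1_cont).mul (chi_cont la)).mul (ee_cont c0)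

lemma p3_cont : Continuous (p3 c0 la s₂ se) :=
  (((E_cont la).mul (drho_cont.comp (by fun_prop))).mul (ee_cont c0)).neg

lemma p3'_cont : Continuous (p3' c0 la s₂ se) := by
  have h1 : Continuous fun s : ℝ => deriv rho (s - se) := drho_cont.comp (by fun_prop)
  have h2 : Continuous fun s : ℝ => deriv (deriv rho) (s - se) := ddrho_cont.comp (by fun_prop)
  unfold p3'
  exact (((((continuous_const.mul q1_cont).mul (E_cont la)).mul h1).mul (ee_cont c0)).sub
    (((E_cont la).mul h2).mul (ee_cont c0))).sub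
    (((E_cont la).mul h1).mul (continuous_const.mul (ee_cont c0)))

/-- `C¹` from the derivative. -/
lemma c1_of {f f' : ℝ → ℝ} (h : ∀ s, HasDerivAt f (f' s) s) (hf' : Continuous f') :
    ContDiff ℝ 1 f := by
  rw [contDiff_one_iff_deriv]
  refine ⟨fun s => (h s).differentiableAt, ?_⟩
  have : deriv f = f' := funext fun s => (h s).deriv
  rwa [this]

lemma tsup {f : ℝ → ℝ} {a b : ℝ} (h : ∀ s, s ∉ Set.Icc a b → f s = 0) :
    tsupport f ⊆ Set.Icc a b := by
  refine closure_minimal (fun s hs => ?_) isClosed_Icc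
  by_contra h'
  exact hs (h s h')

lemma csup {f : ℝ → ℝ} {a b : ℝ} (h : ∀ s, s ∉ Set.Icc a b → f s = 0) : HasCompactSupport f :=
  HasCompactSupport.intro isCompact_Icc fun s hs => h s hs

/-- The integral of a derivative of a compactly supported function. -/
lemma int_deriv {f f' : ℝ → ℝ} (h : ∀ s, HasDerivAt f (f' s) s) (hf' : Continuous f') {a b : ℝ}
    (h0 : ∀ s, s ∉ Set.Icc a b → f s = 0) (h1 : ∀ s, s ∉ Set.Icc a b → f' s = 0) :
    ∫ s, f' s = 0 := by
  have h2 : Integrable f' := hf'.integrable_of_hasCompactSupport (csup h1)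
  have h3 : Tendsto f atTop (𝓝 0) := by
    refine tendsto_const_nhds.congr' ?_
    filter_upwards [eventually_gt_atTop b] with s hs
    exact (h0 s fun h => absurd h.2 (not_le.mpr hs)).symm
  have h4 : Tendsto f atBot (𝓝 0) := by
    refine tendsto_const_nhds.congr' ?_
    filter_upwards [eventually_lt_atBot a] with s hs
    exact (h0 s fun h => absurd h.1 (not_le.mpr hs)).symm
  have h5 := integral_of_hasDerivAt_of_tendsto h h2 h4 h3
  simpa using h5

end fns

section bounds

variable {K c0 la sb s₂ se : ℝ}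

lemma p1_bound (hK : 1 ≤ K) (hK1 : ∀ t, |deriv rho t| ≤ K) (hK2 : ∀ t, |deriv (deriv rho) t| ≤ K)
    (hc : 0 < c0) (hc1 : c0 ≤ 1) (hb : 0 < sb) (hb1 : sb ≤ 1) (s : ℝ) :
    |p1 c0 sb s| ≤ 20 * K * Real.exp 1 / sb ^ 2 ∧
      |deriv (p1 c0 sb) s| ≤ 20 * K * Real.exp 1 / sb ^ 2 := by
  have he := Real.exp_pos 1
  rw [(p1_d c0 s).deriv]
  by_cases h : s ∈ Set.Icc (5 / 8 * sb) (7 / 8 * sb)
  · have h0 : 0 ≤ s := by linarith [h.1]
    have h1 : s ≤ 1 := by linarith [h.2]
    have h2 : ee c0 s ≤ Real.exp 1 := by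
      unfold ee
      exact Real.exp_le_exp.mpr (mul_le_one₀ h1 hc.le hc1)
    have h3 := ee_pos c0 s
    have h4 : |R1 sb s| ≤ 4 / sb * K := by
      unfold R1
      rw [abs_mul, abs_of_nonneg (by positivity : (0 : ℝ) ≤ 4 / sb)]
      exact mul_le_mul_of_nonneg_left (hK1 _) (by positivity)
    have h5 : |R2 sb s| ≤ 4 / sb * (4 / sb * K) := by
      unfold R2
      rw [abs_mul, abs_mul, abs_of_nonneg (by positivity : (0 : ℝ) ≤ 4 / sb)]
      exact mul_le_mul_of_nonneg_left (mul_le_mul_of_nonneg_left (hK2 _) (by positivity))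
        (by positivity)
    have h6 : 4 / sb ≤ 4 / sb ^ 2 := by
      refine div_le_div_of_nonneg_left (by norm_num) (by positivity) ?_
      calc sb ^ 2 = sb * sb := sq sb
        _ ≤ sb * 1 := mul_le_mul_of_nonneg_left hb1 hb.le
        _ = sb := mul_one _
    have h7 : |R1 sb s| ≤ 4 / sb ^ 2 * K := h4.trans (mul_le_mul_of_nonneg_right h6 (by linarith))
    have h8 : |R2 sb s| ≤ 16 / sb ^ 2 * K := by
      refine h5.trans (le_of_eq ?_)
      field_simp
      norm_num
    have h9 : 20 * K * Real.exp 1 / sb ^ 2 = 20 / sb ^ 2 * K * Real.exp 1 := by ring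
    have hq : 0 ≤ 1 / sb ^ 2 * K := by positivity
    have h10 : |R1 sb s| * ee c0 s ≤ 4 / sb ^ 2 * K * Real.exp 1 :=
      mul_le_mul h7 h2 h3.le (by positivity)
    have h11 : |R2 sb s| * ee c0 s ≤ 16 / sb ^ 2 * K * Real.exp 1 :=
      mul_le_mul h8 h2 h3.le (by positivity)
    have hqq : 0 ≤ 1 / sb ^ 2 * K * Real.exp 1 := by positivity
    have e4 : 4 / sb ^ 2 * K * Real.exp 1 = 4 * (1 / sb ^ 2 * K * Real.exp 1) := by ring
    have e16 : 16 / sb ^ 2 * K * Real.exp 1 = 16 * (1 / sb ^ 2 * K * Real.exp 1) := by ring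
    have e20 : 20 / sb ^ 2 * K * Real.exp 1 = 20 * (1 / sb ^ 2 * K * Real.exp 1) := by ring
    constructor
    · unfold p1
      rw [abs_mul, abs_of_pos h3, h9]
      linarith
    · refine (abs_add_le _ _).trans ?_
      rw [abs_mul, abs_mul, abs_mul, abs_of_pos h3, abs_of_pos hc, h9]
      have h12 : |R1 sb s| * (c0 * ee c0 s) ≤ |R1 sb s| * ee c0 s := by
        refine mul_le_mul_of_nonneg_left ?_ (abs_nonneg _)
        calc c0 * ee c0 s ≤ 1 * ee c0 s := mul_le_mul_of_nonneg_right hc1 h3.le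
          _ = ee c0 s := one_mul _
      linarith
  · obtain ⟨h1, h2⟩ := R1_zero hb h
    unfold p1
    rw [h1, h2]
    simp only [zero_mul, add_zero, abs_zero]
    constructor <;> positivity

lemma p1_supp (hb : 0 < sb) {s : ℝ} (h : s ∉ Set.Icc (5 / 8 * sb) (7 / 8 * sb)) :
    p1 c0 sb s = 0 := by
  unfold p1
  rw [(R1_zero hb h).1, zero_mul]

lemma p1_int (hc : 0 < c0) (hb : 0 < sb) : 1 ≤ ∫ s, p1 c0 sb s := by
  have h1 : Integrable (R1 sb) := R1_cont.integrable_of_hasCompactSupport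
    (csup fun s hs => (R1_zero hb hs).1)
  have h2 : ∫ s, R1 sb s = 1 - 0 := by
    refine integral_of_hasDerivAt_of_tendsto (R_d sb) h1 ?_ ?_
    · refine tendsto_const_nhds.congr' ?_
      filter_upwards [eventually_lt_atBot 0] with s hs
      exact (R_zero hb (by linarith [mul_pos (by norm_num : (0 : ℝ) < 5 / 8) hb])).symm
    · refine tendsto_const_nhds.congr' ?_
      filter_upwards [eventually_gt_atTop (7 / 8 * sb)] with s hs
      exact (R_one hb hs.le).symm
  have h3 : Integrable (p1 c0 sb) := (p1_cont c0).integrable_of_hasCompactSupport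
    (csup fun s hs => p1_supp hb hs)
  calc (1 : ℝ) = ∫ s, R1 sb s := by rw [h2, sub_zero]
    _ ≤ ∫ s, p1 c0 sb s := by
      refine integral_mono h1 h3 fun s => ?_
      by_cases h : s ∈ Set.Icc (5 / 8 * sb) (7 / 8 * sb)
      · have h4 : 0 ≤ R1 sb s := mul_nonneg (by positivity) (drho_nonneg _)
        have h5 : 1 ≤ ee c0 s := by
          unfold ee
          exact Real.one_le_exp (mul_nonneg (le_trans (by positivity) h.1) hc.le)
        calc R1 sb s = R1 sb s * 1 := (mul_one _).symm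
          _ ≤ R1 sb s * ee c0 s := mul_le_mul_of_nonneg_left h5 h4
      · simp only [p1, (R1_zero hb h).1, zero_mul]
        exact le_refl _

lemma p3_supp {s : ℝ} (h : s ∉ Set.Icc se (se + 1)) :
    p3 c0 la s₂ se s = 0 ∧ p3' c0 la s₂ se s = 0 := by
  unfold p3 p3'
  rw [(dT_zero h).1, (dT_zero h).2]
  simp

lemma p3_bound (hK : 1 ≤ K) (hK1 : ∀ t, |deriv rho t| ≤ K)
    (hK2 : ∀ t, |deriv (deriv rho) t| ≤ K) (hc : 0 < c0) (hc1 : c0 ≤ 1) (hla : 0 ≤ la)
    (he : s₂ + 1 ≤ se) (s : ℝ) :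
    |p3 c0 la s₂ se s| ≤ K * Real.exp (la / 2 + 1) * (Real.exp (s₂ * c0)
        * Real.exp (-((la - c0) * (se - s₂)))) ∧
      |p3' c0 la s₂ se s| ≤ (la + 2) * K * Real.exp (la / 2 + 1) * (Real.exp (s₂ * c0)
        * Real.exp (-((la - c0) * (se - s₂)))) := by
  by_cases h : s ∈ Set.Icc se (se + 1)
  · have h1 : E la s₂ s * ee c0 s ≤ Real.exp (la / 2 + 1) * (Real.exp (s₂ * c0)
        * Real.exp (-((la - c0) * (se - s₂)))) := by
      unfold E ee
      rw [← Real.exp_add, ← Real.exp_add, ← Real.exp_add, Real.exp_le_exp]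
      have h2 : s - s₂ - 1 / 2 ≤ Q (s - s₂) := Q_ge (by linarith [h.1])
      have h3 : la * (se - s₂ - 1 / 2) ≤ la * Q (s - s₂) :=
        mul_le_mul_of_nonneg_left (by linarith [h.1]) hla
      have h4 : s * c0 ≤ (se + 1) * c0 := mul_le_mul_of_nonneg_right h.2 hc.le
      nlinarith
    have hE : 0 ≤ E la s₂ s := (Real.exp_pos _).le
    have he' : 0 < ee c0 s := ee_pos _ _
    have hE0 : 0 ≤ E la s₂ s * ee c0 s := mul_nonneg hE he'.le
    set Z := Real.exp (la / 2 + 1) * (Real.exp (s₂ * c0)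
        * Real.exp (-((la - c0) * (se - s₂)))) with hZ
    have hZ0 : 0 ≤ Z := hE0.trans h1
    have hq : 0 ≤ q1 s₂ s ∧ q1 s₂ s ≤ 1 := ⟨rho_nonneg _, rho_le _⟩
    have hKZ : 0 ≤ K * Z := mul_nonneg (by linarith) hZ0
    have hA : |deriv rho (s - se)| * (E la s₂ s * ee c0 s) ≤ K * Z :=
      mul_le_mul (hK1 _) h1 hE0 (by linarith)
    have hB : |deriv (deriv rho) (s - se)| * (E la s₂ s * ee c0 s) ≤ K * Z :=
      mul_le_mul (hK2 _) h1 hE0 (by linarith)
    have hA0 : 0 ≤ |deriv rho (s - se)| * (E la s₂ s * ee c0 s) := mul_nonneg (abs_nonneg _) hE0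
    constructor
    · have e1 : p3 c0 la s₂ se s = -(deriv rho (s - se) * (E la s₂ s * ee c0 s)) := by
        unfold p3
        ring
      rw [e1, abs_neg, abs_mul, abs_of_nonneg hE0]
      linarith
    · have e1 : p3' c0 la s₂ se s = la * q1 s₂ s * (deriv rho (s - se) * (E la s₂ s * ee c0 s))
          - deriv (deriv rho) (s - se) * (E la s₂ s * ee c0 s)
          - c0 * (deriv rho (s - se) * (E la s₂ s * ee c0 s)) := by
        unfold p3'
        ring
      rw [e1]
      have t1 : |la * q1 s₂ s * (deriv rho (s - se) * (E la s₂ s * ee c0 s))| ≤ la * (K * Z) := by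
        rw [abs_mul, abs_mul, abs_mul, abs_of_nonneg hla, abs_of_nonneg hq.1, abs_of_nonneg hE0]
        calc la * q1 s₂ s * (|deriv rho (s - se)| * (E la s₂ s * ee c0 s))
            ≤ la * 1 * (|deriv rho (s - se)| * (E la s₂ s * ee c0 s)) :=
              mul_le_mul_of_nonneg_right (mul_le_mul_of_nonneg_left hq.2 hla) hA0
          _ ≤ la * 1 * (K * Z) := mul_le_mul_of_nonneg_left hA (by linarith)
          _ = la * (K * Z) := by ring
      have t2 : |deriv (deriv rho) (s - se) * (E la s₂ s * ee c0 s)| ≤ K * Z := by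
        rw [abs_mul, abs_of_nonneg hE0]
        exact hB
      have t3 : |c0 * (deriv rho (s - se) * (E la s₂ s * ee c0 s))| ≤ K * Z := by
        rw [abs_mul, abs_mul, abs_of_pos hc, abs_of_nonneg hE0]
        calc c0 * (|deriv rho (s - se)| * (E la s₂ s * ee c0 s))
            ≤ 1 * (|deriv rho (s - se)| * (E la s₂ s * ee c0 s)) :=
              mul_le_mul_of_nonneg_right hc1 hA0
          _ ≤ K * Z := by linarith
      refine (abs_sub _ _).trans ?_
      have t4 := abs_sub (la * q1 s₂ s * (deriv rho (s - se) * (E la s₂ s * ee c0 s)))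
        (deriv (deriv rho) (s - se) * (E la s₂ s * ee c0 s))
      nlinarith
  · rw [(p3_supp h).1, (p3_supp h).2, abs_zero]
    constructor
    · positivity
    · have : 0 ≤ la + 2 := by linarith
      positivity

end bounds

end ETSTA

open ETSTA in
/-- TSTA. -/
theorem TSTA : Stmt_TSTA := by
  intro ε hε0 hε1
  obtain ⟨K, hK, hK1, hK2⟩ := bound
  set c0 : ℝ := 1 / (2 - ε) with hc0
  set la : ℝ := lam ε / 2 with hla
  have h2ε : 0 < 2 - ε := by linarith
  have hc : 0 < c0 := by positivity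
  have hc1 : c0 ≤ 1 := by
    rw [hc0, div_le_one h2ε]
    linarith
  have hlam : 0 < lam ε := by
    unfold lam
    exact div_pos (by linarith) (mul_pos hε0 h2ε)
  have hla0 : 0 < la := by positivity
  set C : ℝ := 20 * K * Real.exp 1 + (la + 3 + 8 * Real.pi) * K * Real.exp (la / 2 + 1) with hC
  have hpi := Real.pi_pos
  have hCpos : 0 < C := by
    have := Real.exp_pos 1
    have := Real.exp_pos (la / 2 + 1)
    positivity
  refine ⟨C, hCpos, ?_⟩
  intro Ω vol w X Φ D S sb s₂ sM B₁ B₂ hA hb hb1 hb2 hB1 hB2 se hse hsM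
  have hee : ∀ t, Real.exp (t / (2 - ε)) = ee c0 t := by
    intro t
    unfold ee
    rw [hc0, mul_one_div]
  refine ⟨chi la sb s₂ se, chi_cont la, chi_mem la hla0.le, ?_, ?_, ?_, ?_, ?_⟩
  · intro s hs
    exact chi_zero la hb fun h => by linarith [h.1, mul_pos (by norm_num : (0 : ℝ) < 1 / 8) hb]
  · intro s hs hs'
    unfold chi
    rw [R_one hb (by linarith), E_one la (by linarith), T_one (by linarith), mul_one, mul_one]
  · intro s hs hs'
    unfold chi
    rw [R_one hb (by linarith), T_one hs', mul_one, one_mul]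
    unfold E
    rw [Real.exp_le_exp]
    have h1 : Q (s - s₂) ≤ s - s₂ := Q_le (by linarith)
    have h2 := mul_le_mul_of_nonneg_left h1 hla0.le
    linarith
  · intro s hs
    unfold chi
    rw [T_zero hs, mul_zero]
  -- the integrals
  set ψ : ℝ → ℝ := fun s => chi la sb s₂ se s * ee c0 s with hψ
  have hψc : Continuous ψ := (chi_cont la).mul (ee_cont c0)
  have hψ0 : ∀ s, 0 ≤ ψ s := fun s => mul_nonneg (chi_mem la hla0.le s).1 (ee_pos c0 s).le
  have hψs : ∀ s, s ∉ Set.Icc (5 / 8 * sb) (se + 1) → ψ s = 0 := fun s hs => by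
    simp only [hψ]
    rw [chi_zero la hb hs, zero_mul]
  have hψd := chi_d c0 la hb hb2 hse
  have hdψc : Continuous fun s => p1 c0 sb s - p2 c0 la sb s₂ se s + p3 c0 la s₂ se s
      + c0 * (chi la sb s₂ se s * ee c0 s) :=
    (((p1_cont c0).sub (p2_cont c0 la)).add (p3_cont c0 la)).add (continuous_const.mul hψc)
  have hψ1 : ContDiff ℝ 1 ψ := c1_of hψd hdψc
  have hsub : Set.Icc (5 / 8 * sb) (se + 1) ⊆ Set.Ioo (sb / 4) sM := fun s hs =>
    ⟨by linarith [hs.1], by linarith [hs.2]⟩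
  have hmi := hA.mi ψ hψ1 hψ0 (csup hψs) ((tsup hψs).trans hsub)
  -- supports
  have p1s : ∀ s, s ∉ Set.Icc (5 / 8 * sb) (se + 1) → p1 c0 sb s = 0 := fun s hs =>
    p1_supp hb fun h => hs ⟨h.1, by linarith [h.2]⟩
  have p2s : ∀ s, s ∉ Set.Icc (5 / 8 * sb) (se + 1) → p2 c0 la sb s₂ se s = 0 := fun s hs => by
    unfold p2
    rw [chi_zero la hb hs, mul_zero, zero_mul]
  have p2s' : ∀ s, s ∉ Set.Icc (s₂ + 1 / 4) (se + 1) → p2 c0 la sb s₂ se s = 0 := fun s hs => by
    unfold p2
    rcases not_and_or.mp hs with h1 | h1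
    · rw [q1_zero (not_le.mp h1).le, mul_zero, zero_mul, zero_mul]
    · rw [chi_zero la hb (fun h => h1 h.2), mul_zero, zero_mul]
  have p3s : ∀ s, s ∉ Set.Icc (5 / 8 * sb) (se + 1) → p3 c0 la s₂ se s = 0 := fun s hs =>
    (p3_supp fun h => hs ⟨by linarith [h.1], h.2⟩).1
  have hΦ := hA.int_Phi (5 / 8 * sb) (se + 1) (by linarith) (by linarith) hsM
  have hDi := hA.int_D (5 / 8 * sb) (se + 1) (by linarith) (by linarith) hsM
  have hSi := hA.int_S (5 / 8 * sb) (se + 1) (by linarith) (by linarith) hsM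
  have i1 := band_int hA.measOmega hA.meas_w hΦ (p1_cont (sb := sb) c0) p1s
  have i2 := band_int hA.measOmega hA.meas_w hΦ (p2_cont (sb := sb) (s₂ := s₂) (se := se) c0 la) p2s
  have i3 := band_int hA.measOmega hA.meas_w hΦ (p3_cont (s₂ := s₂) (se := se) c0 la) p3s
  have i4 := band_int hA.measOmega hA.meas_w hΦ hψc hψs
  have iD := band_int hA.measOmega hA.meas_w hDi hψc hψs
  have iS := band_int hA.measOmega hA.meas_w hSi hψc hψs
  set I1 := ∫ x in Ω, p1 c0 sb (w x) * Φ x * vol x with hI1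
  set I2 := ∫ x in Ω, p2 c0 la sb s₂ se (w x) * Φ x * vol x with hI2
  set I3 := ∫ x in Ω, p3 c0 la s₂ se (w x) * Φ x * vol x with hI3
  set P := ∫ x in Ω, ψ (w x) * Φ x * vol x with hP
  set SS := ∫ x in Ω, ψ (w x) * S x * vol x with hSS
  set DD := ∫ x in Ω, ψ (w x) * D x * vol x with hDD
  set J1 := ∫ s, p1 c0 sb s with hJ1
  set J2 := ∫ s, p2 c0 la sb s₂ se s with hJ2
  set J3 := ∫ s, p3 c0 la s₂ se s with hJ3
  set J := ∫ s, ψ s with hJ
  have e1 : ∫ x in Ω, deriv ψ (w x) * Φ x * vol x = I1 - I2 + I3 + c0 * P := by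
    rw [hI1, hI2, hI3, hP, ← comb4 c0 i1 i2 i3 i4]
    refine integral_congr_ae (Eventually.of_forall fun x => ?_)
    show deriv ψ (w x) * Φ x * vol x = _
    rw [(hψd (w x)).deriv]
    simp only [hψ]
    ring
  have e2 : ∫ x in Ω, ψ (w x) * (S x + D x) * vol x = SS + DD := by
    rw [hSS, hDD, ← integral_add iS iD]
    refine integral_congr_ae (Eventually.of_forall fun x => ?_)
    show ψ (w x) * (S x + D x) * vol x = _
    ring
  have e3 : J1 - J2 + J3 + c0 * J = 0 := by
    have h1 := int_deriv hψd hdψc hψs (fun s hs => by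
      rw [p1s s hs, p2s s hs, p3s s hs]
      have := hψs s hs
      simp only [hψ] at this
      rw [this]
      ring)
    have j1 : Integrable (p1 c0 sb) := (p1_cont c0).integrable_of_hasCompactSupport (csup p1s)
    have j2 : Integrable (p2 c0 la sb s₂ se) :=
      (p2_cont c0 la).integrable_of_hasCompactSupport (csup p2s)
    have j3 : Integrable (p3 c0 la s₂ se) :=
      (p3_cont c0 la).integrable_of_hasCompactSupport (csup p3s)
    have j4 : Integrable ψ := hψc.integrable_of_hasCompactSupport (csup hψs)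
    rw [hJ1, hJ2, hJ3, hJ, ← comb4 c0 j1 j2 j3 j4, ← h1]
  rw [e1, e2] at hmi
  -- the rise
  have hrise : |I1| ≤ B₂ * (20 * K * Real.exp 1 / sb ^ 2) := by
    refine hA.inner (p1 c0 sb) _ (c1_of (p1_d c0) ?_) (csup fun s hs => p1_supp hb hs)
      ((tsup fun s hs => p1_supp hb hs).trans fun s hs =>
        ⟨by linarith [hs.1], by linarith [hs.2]⟩)
      (p1_bound hK hK1 hK2 hc hc1 hb hb1)
    exact (R2_cont.mul (ee_cont c0)).add (R1_cont.mul (continuous_const.mul (ee_cont c0)))
  have hJ1' : 1 ≤ J1 := p1_int hc hb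
  -- the decay
  have hp20 : ∀ s, 0 ≤ p2 c0 la sb s₂ se s := fun s =>
    mul_nonneg (mul_nonneg (mul_nonneg hla0.le (rho_nonneg _)) (chi_mem la hla0.le s).1)
      (ee_pos c0 s).le
  have hdecay : 4 * Real.pi * (2 - ε) * J2 - I2 ≤ DD / 2 := by
    have h1 := hA.willmore (p2 c0 la sb s₂ se) (p2_cont c0 la) hp20 (csup p2s')
      ((tsup p2s').trans fun s hs => ⟨by linarith [hs.1], by linarith [hs.2]⟩)
    refine h1.trans ?_
    have i5 := band_int hA.measOmega hA.meas_w hDi
      (p2_cont (sb := sb) (s₂ := s₂) (se := se) c0 la) p2s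
    have h2 : ∫ x in Ω, p2 c0 la sb s₂ se (w x) * D x * vol x ≤ la * DD := by
      rw [hDD, ← integral_const_mul]
      refine integral_mono_ae i5 (iD.const_mul la) ?_
      filter_upwards [hA.D_nonneg] with x hx
      have h3 : p2 c0 la sb s₂ se (w x) ≤ la * ψ (w x) := by
        have h4 : q1 s₂ (w x) ≤ 1 := rho_le _
        have h5 : p2 c0 la sb s₂ se (w x) = q1 s₂ (w x) * (la * ψ (w x)) := by
          simp only [hψ, p2]
          ring
        rw [h5]
        exact mul_le_of_le_one_left (mul_nonneg hla0.le (hψ0 _)) h4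
      have h6 : 0 ≤ D x * vol x := mul_nonneg hx (hA.vol_nonneg x)
      calc p2 c0 la sb s₂ se (w x) * D x * vol x = p2 c0 la sb s₂ se (w x) * (D x * vol x) := by
            ring
        _ ≤ la * ψ (w x) * (D x * vol x) := mul_le_mul_of_nonneg_right h3 h6
        _ = la * (ψ (w x) * D x * vol x) := by ring
    have h7 : 1 / lam ε * (∫ x in Ω, p2 c0 la sb s₂ se (w x) * D x * vol x)
        ≤ 1 / lam ε * (la * DD) := mul_le_mul_of_nonneg_left h2 (by positivity)
    refine h7.trans (le_of_eq ?_)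
    rw [hla]
    field_simp
  -- the cut
  set Z := Real.exp (s₂ * c0) * Real.exp (-((la - c0) * (se - s₂))) with hZ
  have hZ0 : 0 < Z := mul_pos (Real.exp_pos _) (Real.exp_pos _)
  set Y := K * Real.exp (la / 2 + 1) * Z with hY
  have hY0 : 0 < Y := mul_pos (mul_pos (by linarith) (Real.exp_pos _)) hZ0
  have hp3b : ∀ s, |p3 c0 la s₂ se s| ≤ Y := fun s =>
    (p3_bound hK hK1 hK2 hc hc1 hla0.le hse s).1
  have hp3b' : ∀ s, |p3' c0 la s₂ se s| ≤ (la + 2) * Y := fun s => by
    refine ((p3_bound hK hK1 hK2 hc hc1 hla0.le hse s).2).trans (le_of_eq ?_)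
    rw [hY]
    ring
  have hcutJ : -J3 ≤ Y := by
    have h1 : |J3| ≤ Y := by
      have h2 : J3 = ∫ s in Set.Icc se (se + 1), p3 c0 la s₂ se s := by
        rw [hJ3]
        exact (setIntegral_eq_integral_of_forall_compl_eq_zero fun s hs => (p3_supp hs).1).symm
      rw [h2, ← Real.norm_eq_abs]
      have h3 := norm_setIntegral_le_of_norm_le_const (μ := volume) (s := Set.Icc se (se + 1))
        (f := p3 c0 la s₂ se) (C := Y) measure_Icc_lt_top fun s _ => hp3b s
      refine h3.trans (le_of_eq ?_)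
      simp
    linarith [neg_abs_le J3]
  have hcutI : I3 ≤ (la + 3) * Y * B₁ := by
    have h0 : ∀ s, s ∉ Set.Icc se (se + 1) → p3 c0 la s₂ se s = 0 := fun s hs => (p3_supp hs).1
    have h1 := hA.xid (p3 c0 la s₂ se) (c1_of (p3_d c0 la) (p3'_cont c0 la)) (csup h0)
      ((tsup h0).trans fun s hs => ⟨by linarith [hs.1], by linarith [hs.2]⟩)
    have hwin := hA.window se (by linarith) (by linarith)
    have hband : MeasurableSet {x | se < w x ∧ w x < se + 1} :=
      (measurableSet_lt measurable_const hA.meas_w).inter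
        (measurableSet_lt hA.meas_w measurable_const)
    have hcont : Continuous fun s => p3 c0 la s₂ se s + ε * p3' c0 la s₂ se s :=
      (p3_cont c0 la).add (continuous_const.mul (p3'_cont c0 la))
    have hiX := hA.int_X se (se + 1) (by linarith) (by linarith) hsM
    have iX := band_int (F := fun x => X x ^ 3) hA.measOmega hA.meas_w hiX hcont (fun s hs => by
      rw [(p3_supp hs).1, (p3_supp hs).2, mul_zero, add_zero])
    have h2 : ∫ x in Ω, (p3 c0 la s₂ se (w x) + ε * deriv (p3 c0 la s₂ se) (w x)) * X x ^ 3 * vol x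
        ≤ (la + 3) * Y * B₁ := by
      have h3 : ∫ x in Ω, (p3 c0 la s₂ se (w x) + ε * deriv (p3 c0 la s₂ se) (w x)) * X x ^ 3
            * vol x
          = ∫ x in Ω ∩ {x | se < w x ∧ w x < se + 1},
            (p3 c0 la s₂ se (w x) + ε * p3' c0 la s₂ se (w x)) * X x ^ 3 * vol x := by
        rw [← setIntegral_eq_of_subset_of_forall_sdiff_eq_zero hA.measOmega
          (Set.inter_subset_left (t := {x | se < w x ∧ w x < se + 1}))]
        · refine setIntegral_congr_fun hA.measOmega fun x _ => ?_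
          show (p3 c0 la s₂ se (w x) + ε * deriv (p3 c0 la s₂ se) (w x)) * X x ^ 3 * vol x = _
          rw [(p3_d c0 la (w x)).deriv]
        · intro x hx
          have h4 : ¬ (se < w x ∧ w x < se + 1) := fun h => hx.2 ⟨hx.1, h⟩
          have h5 : p3 c0 la s₂ se (w x) = 0 ∧ p3' c0 la s₂ se (w x) = 0 := by
            have h6 : deriv rho (w x - se) = 0 ∧ deriv (deriv rho) (w x - se) = 0 := by
              rcases not_and_or.mp h4 with h7 | h7
              · exact ⟨drho_le0 (by linarith [not_lt.mp h7]), ddrho_le0 (by linarith [not_lt.mp h7])⟩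
              · exact ⟨drho_ge1 (by linarith [not_lt.mp h7]), ddrho_ge1 (by linarith [not_lt.mp h7])⟩
            unfold p3 p3'
            rw [h6.1, h6.2]
            simp
          rw [h5.1, h5.2]
          ring
      rw [h3]
      have hiX' : IntegrableOn (fun x => X x ^ 3 * vol x) (Ω ∩ {x | se < w x ∧ w x < se + 1}) :=
        hiX.mono_set fun x hx => ⟨hx.1, hx.2.1.le, hx.2.2.le⟩
      calc ∫ x in Ω ∩ {x | se < w x ∧ w x < se + 1},
            (p3 c0 la s₂ se (w x) + ε * p3' c0 la s₂ se (w x)) * X x ^ 3 * vol x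
          ≤ ∫ x in Ω ∩ {x | se < w x ∧ w x < se + 1}, (la + 3) * Y * (X x ^ 3 * vol x) := by
            refine integral_mono (iX.mono_set Set.inter_subset_left) (hiX'.const_mul _)
              fun x => ?_
            have h8 : p3 c0 la s₂ se (w x) + ε * p3' c0 la s₂ se (w x) ≤ (la + 3) * Y := by
              have h9 := (abs_le.mp (hp3b (w x))).2
              have h10 := (abs_le.mp (hp3b' (w x))).2
              have h11 : ε * p3' c0 la s₂ se (w x) ≤ 1 * ((la + 2) * Y) := by
                calc ε * p3' c0 la s₂ se (w x) ≤ ε * ((la + 2) * Y) :=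
                      mul_le_mul_of_nonneg_left h10 hε0.le
                  _ ≤ 1 * ((la + 2) * Y) :=
                      mul_le_mul_of_nonneg_right (by linarith) (by positivity)
              linarith
            have h12 : 0 ≤ X x ^ 3 * vol x :=
              mul_nonneg (pow_nonneg (hA.X_nonneg x) 3) (hA.vol_nonneg x)
            calc (p3 c0 la s₂ se (w x) + ε * p3' c0 la s₂ se (w x)) * X x ^ 3 * vol x
                = (p3 c0 la s₂ se (w x) + ε * p3' c0 la s₂ se (w x)) * (X x ^ 3 * vol x) := by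
                  ring
              _ ≤ (la + 3) * Y * (X x ^ 3 * vol x) := mul_le_mul_of_nonneg_right h8 h12
        _ = (la + 3) * Y * ∫ x in Ω ∩ {x | se < w x ∧ w x < se + 1}, X x ^ 3 * vol x :=
            integral_const_mul _ _
        _ ≤ (la + 3) * Y * B₁ := mul_le_mul_of_nonneg_left hwin (by positivity)
    rw [hI3, h1]
    have h13 : 0 ≤ (la + 3) * Y * B₁ := by positivity
    calc 1 / (2 - ε) * ∫ x in Ω, (p3 c0 la s₂ se (w x) + ε * deriv (p3 c0 la s₂ se) (w x))
          * X x ^ 3 * vol x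
        ≤ 1 / (2 - ε) * ((la + 3) * Y * B₁) := mul_le_mul_of_nonneg_left h2 hc.le
      _ ≤ 1 * ((la + 3) * Y * B₁) := mul_le_mul_of_nonneg_right hc1 h13
      _ = (la + 3) * Y * B₁ := one_mul _
  -- conclusion
  have e4 : ∫ x in Ω, chi la sb s₂ se (w x) * Real.exp (w x / (2 - ε)) * (S x + D x / 2) * vol x
      = SS + DD / 2 := by
    rw [hSS, hDD, ← integral_div, ← integral_add iS (iD.div_const 2)]
    refine integral_congr_ae (Eventually.of_forall fun x => ?_)
    show chi la sb s₂ se (w x) * Real.exp (w x / (2 - ε)) * (S x + D x / 2) * vol x = _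
    rw [hee]
    simp only [hψ]
    ring
  rw [e4, hee]
  have e5 : Real.exp (-((lam ε / 2 - 1 / (2 - ε)) * (se - s₂)))
      = Real.exp (-((la - c0) * (se - s₂))) := rfl
  have e6 : (1 + B₁) * ee c0 s₂ * Real.exp (-((la - c0) * (se - s₂))) = (1 + B₁) * Z := by
    rw [hZ]
    unfold ee
    ring
  rw [e5, e6]
  have hI1' := (abs_le.mp hrise).2
  have e7 : J = -((2 - ε) * (J1 - J2 + J3)) := by
    have h1 : c0 * J = -(J1 - J2 + J3) := by linarith
    have h2 : (2 - ε) * (c0 * J) = J := by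
      rw [hc0]
      field_simp
    rw [← h2, h1]
    ring
  rw [e7, ← hc0] at hmi
  have h14 : SS + DD ≤ I1 - I2 + I3 - 4 * Real.pi * (2 - ε) * (J1 - J2 + J3) := by
    have h15 : 4 * Real.pi * -((2 - ε) * (J1 - J2 + J3))
        = -(4 * Real.pi * (2 - ε) * (J1 - J2 + J3)) := by ring
    rw [h15] at hmi
    linarith
  have h16 : 4 * Real.pi * (2 - ε) * 1 ≤ 4 * Real.pi * (2 - ε) * J1 :=
    mul_le_mul_of_nonneg_left hJ1' (by positivity)
  have h17 : 4 * Real.pi * (2 - ε) * (-J3) ≤ 8 * Real.pi * Y := by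
    calc 4 * Real.pi * (2 - ε) * (-J3) ≤ 4 * Real.pi * (2 - ε) * Y :=
          mul_le_mul_of_nonneg_left hcutJ (by positivity)
      _ ≤ 4 * Real.pi * 2 * Y := by
          refine mul_le_mul_of_nonneg_right ?_ hY0.le
          exact mul_le_mul_of_nonneg_left (by linarith) (by positivity)
      _ = 8 * Real.pi * Y := by ring
  have h18 : 4 * Real.pi * (2 - ε) + (SS + DD / 2)
      ≤ B₂ * (20 * K * Real.exp 1 / sb ^ 2) + (la + 3) * Y * B₁ + 8 * Real.pi * Y := by
    linarith
  refine h18.trans ?_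
  have h19 : C * (B₂ / sb ^ 2 + (1 + B₁) * Z)
      = B₂ * (20 * K * Real.exp 1 / sb ^ 2) + (la + 3) * Y * B₁ + 8 * Real.pi * Y
        + ((la + 3 + 8 * Real.pi) * K * Real.exp (la / 2 + 1) * (B₂ / sb ^ 2)
          + 20 * K * Real.exp 1 * ((1 + B₁) * Z) + (la + 3) * Y + 8 * Real.pi * Y * B₁) := by
    rw [hC, hY]
    ring
  rw [h19]
  have h20 : 0 ≤ (la + 3 + 8 * Real.pi) * K * Real.exp (la / 2 + 1) * (B₂ / sb ^ 2)
          + 20 * K * Real.exp 1 * ((1 + B₁) * Z) + (la + 3) * Y + 8 * Real.pi * Y * B₁ := by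
    have hK0 : 0 < K := by linarith
    positivity
  linarith

end Pool.Agent.PFlow
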