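import Pool.Agent.PFlow.StmtsE3

/-!
# (ABS) Assembly of the structure `Abs`
-/

open MeasureTheory Filter Topology
open scoped ContDiff ENNReal

namespace Pool.Agent.PFlow

open Pool.Agent.PenroseSph

/-- ABS: the abstract facts. -/
theorem ABS (hSETW : Stmt_SETW) (hABSI : Stmt_ABSI) (hABSM : Stmt_ABSM) (hXWO : Stmt_XWO)
    (hXWI : Stmt_XWI) (hABSX : Stmt_ABSX) (hABSW : Stmt_ABSW) (hABSF : Stmt_ABSF) : Stmt_ABS := by
  intro P
  obtain ⟨B1, hB1, hO⟩ := hXWO P
  obtain ⟨B2, l1, hB2, hl1, hI⟩ := hXWI P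
  refine ⟨max B1 B2, l1, lt_max_of_lt_left hB1, hl1, fun D hD hl => ?_⟩
  obtain ⟨-, -, -, -, -, -, hmw, -⟩ := hSETW P D hD
  obtain ⟨h1, h2, h3, h4, h5, -, h7, h8⟩ := hABSI P D hD
  have hl0 : (0 : ℝ) ≤ D.l := by linarith
  exact
    { measOmega := by
        have h1 : IsOpen {x : E3 | 1 / D.R < ‖x‖} := isOpen_lt continuous_const continuous_norm
        have h2 : IsOpen {x : E3 | ‖x‖ < D.R} := isOpen_lt continuous_norm continuous_const
        exact (h1.inter h2).measurableSet
      vol_nonneg := fun x => Real.sqrt_nonneg _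
      X_nonneg := fun x => Real.sqrt_nonneg _
      D_nonneg := h7
      meas_w := hmw
      int_vol := h1
      int_X := h2
      meas_X := h8
      int_Phi := h3
      int_D := h4
      int_S := h5
      mi := hABSM P D hD
      xid := hABSX P D hD
      window := fun s hs hs' => (hO D hD s hs hs').trans (le_max_left _ _)
      inner := by
        intro ψ A hψ hc hs hA
        refine (hI D hD hl ψ A hψ hc hs hA).trans ?_
        have hA0 : 0 ≤ A := (abs_nonneg _).trans (hA 0).1
        refine mul_le_mul_of_nonneg_right ?_ hA0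
        exact mul_le_mul_of_nonneg_right (le_max_right _ _) (Real.rpow_nonneg hl0 _)
      willmore := hABSW P D hD
      flux := hABSF P D hD }

end Pool.Agent.PFlow
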