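import Pool.Agent.PFlow.StmtsE3

set_option autoImplicit false

/-!
# BETA: a bump function
-/

open MeasureTheory Filter Topology
open scoped ContDiff

namespace Pool.Agent.PFlow

open Pool.Agent.PenroseSph

theorem BETA : Stmt_BETA := by
  let b : ContDiffBump (1 / 2 : ℝ) :=
    { rIn := 1 / 8, rOut := 1 / 4, rIn_pos := by norm_num, rIn_lt_rOut := by norm_num }
  refine ⟨b.normed volume, ?_, fun s => b.nonneg_normed s, ?_, b.integral_normed⟩
  · exact b.contDiff_normed
  · intro s hs
    have hsupp : s ∉ Function.support (b.normed volume) := by
      rw [b.support_normed_eq, Metric.mem_ball, Real.dist_eq, not_lt]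
      change (1 / 4 : ℝ) ≤ |s - 1 / 2|
      rcases hs with hs | hs
      · rw [abs_sub_comm]
        exact le_trans (by linarith) (le_abs_self _)
      · exact le_trans (by linarith) (le_abs_self _)
    exact Function.notMem_support.1 hsupp

end Pool.Agent.PFlow
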