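import Pool.Agent.PFlow.StmtsE3
import Pool.Agent.PFlow.M_CT

/-!
# (EPS) The three inequalities for fixed `ε`
-/

open MeasureTheory Filter Topology
open scoped ContDiff ENNReal

namespace Pool.Agent.PFlow

open Pool.Agent.PenroseSph

namespace EPSm

lemma vol_pos {g : TensorField} (hg : MetricOn {0}ᶜ g) {ρ r : ℝ} (hρ : 0 < ρ) (hρr : ρ < r) :
    0 < ∫ x in cAnn ρ r, volDen g x := by
  have hKc : IsCompact (cAnn ρ r) := by
    apply Metric.isCompact_of_isClosed_isBounded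
    · exact (isClosed_le continuous_const continuous_norm).inter
        (isClosed_le continuous_norm continuous_const)
    · refine (Metric.isBounded_closedBall (x := (0 : E3)) (r := r)).subset ?_
      intro x hx
      simpa using hx.2
  have hKm : MeasurableSet (cAnn ρ r) := hKc.isClosed.measurableSet
  have hK0 : cAnn ρ r ⊆ {0}ᶜ := by
    intro x hx h0
    have : x = 0 := h0
    have h1 := hx.1
    rw [this, norm_zero] at h1
    linarith
  have hcv : ContinuousOn (volDen g) (cAnn ρ r) := by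
    unfold volDen
    exact ((MCT.smooth_det hg.smooth).continuousOn.mono hK0).sqrt
  have hpos : ∀ x ∈ cAnn ρ r, 0 < volDen g x := fun x hx =>
    Real.sqrt_pos.mpr (hg.posDef x (hK0 hx)).det_pos
  rw [setIntegral_pos_iff_support_of_nonneg_ae]
  · have h1 : cAnn ρ r ⊆ Function.support (volDen g) ∩ cAnn ρ r := fun x hx =>
      ⟨(hpos x hx).ne', hx⟩
    refine lt_of_lt_of_le ?_ (measure_mono h1)
    have h2 : IsOpen {x : E3 | ρ < ‖x‖ ∧ ‖x‖ < r} :=
      (isOpen_lt continuous_const continuous_norm).inter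
        (isOpen_lt continuous_norm continuous_const)
    have h3 : {x : E3 | ρ < ‖x‖ ∧ ‖x‖ < r}.Nonempty := by
      refine ⟨EuclideanSpace.single 0 ((ρ + r) / 2), ?_⟩
      have : ‖(EuclideanSpace.single (0 : Fin 3) ((ρ + r) / 2) : E3)‖ = (ρ + r) / 2 := by
        rw [PiLp.norm_single, Real.norm_of_nonneg (by linarith)]
      constructor
      · show ρ < ‖_‖
        rw [this]
        linarith
      · show ‖_‖ < r
        rw [this]
        linarith
    exact lt_of_lt_of_le (h2.measure_pos volume h3) (measure_mono fun x hx => ⟨hx.1.le, hx.2.le⟩)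
  · exact (ae_restrict_iff' hKm).mpr (ae_of_all _ fun x hx => (hpos x hx).le)
  · exact hcv.integrableOn_compact hKc

lemma exists_theta (a c τ : ℝ) (hτ : 0 < τ) : ∃ θ : ℝ, 0 < θ ∧ θ < 1 ∧
    θ ^ (-a) * c ≤ c + τ := by
  have h1 : ContinuousAt (fun θ : ℝ => θ ^ (-a) * c) 1 :=
    (Real.continuousAt_rpow_const 1 (-a) (Or.inl one_ne_zero)).mul continuousAt_const
  have h2 : ∀ᶠ θ in 𝓝 (1 : ℝ), θ ^ (-a) * c < c + τ := by
    refine h1.eventually (gt_mem_nhds ?_)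
    simp only [Real.one_rpow, one_mul]
    linarith
  have h3 : ∀ᶠ θ in 𝓝[<] (1 : ℝ), θ ^ (-a) * c < c + τ := h2.filter_mono nhdsWithin_le_nhds
  have h4 : ∀ᶠ θ in 𝓝[<] (1 : ℝ), 0 < θ :=
    (lt_mem_nhds (zero_lt_one (α := ℝ))).filter_mono nhdsWithin_le_nhds
  obtain ⟨θ, ⟨h5, h6⟩, h7⟩ := ((h3.and h4).and self_mem_nhdsWithin).exists
  exact ⟨θ, h6, h7, h5.le⟩

end EPSm

open EPSm in
theorem EPS (hEXI1 : Stmt_EXI1) (hWGTE : Stmt_WGTE) (hMSI : Stmt_MSI) (hMSII : Stmt_MSII)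
    (hMSIII : Stmt_MSIII) (hBETA : Stmt_BETA) : Stmt_EPS := by
  intro g h m hte hde hps hth hm
  obtain ⟨C, ρ, r, hC, hρ, hρ1, hr1, hex⟩ := hEXI1 g h hte hde hps
  refine ⟨∫ x in cAnn ρ r, volDen g x, vol_pos hte.metric hρ (by linarith), ?_⟩
  intro ε τ hε hε2 hτ
  obtain ⟨P, B, l0, hPε, hB, hl04, hrl, hex⟩ := hex ε hε hε2
  obtain ⟨B3, hB3, hW⟩ := hWGTE P B
  obtain ⟨B1, hB1, hI⟩ := hMSI P B B3
  obtain ⟨β, hβ⟩ := hBETA
  obtain ⟨θ, hθ0, hθ1, hθ⟩ := exists_theta (2 * (2 - ε)) (4 * Real.pi * (2 - ε) ^ 2) (τ / 2)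
    (by linarith)
  obtain ⟨B2, hB2, hII⟩ := hMSII P B B3 θ β hθ0 hθ1 hβ
  -- the length of the window
  obtain ⟨L, hL1, hL⟩ : ∃ L : ℝ, 1 ≤ L ∧ B2 * Real.exp (-(L / ε)) ≤ τ / 4 := by
    have h1 : Tendsto (fun L : ℝ => B2 * Real.exp (-(L / ε))) atTop (𝓝 (B2 * 0)) := by
      refine Tendsto.const_mul B2 (Real.tendsto_exp_neg_atTop_nhds_zero.comp ?_)
      exact tendsto_id.atTop_div_const hε
    rw [mul_zero] at h1
    obtain ⟨L, h2, h3⟩ := ((h1.eventually (gt_mem_nhds (by linarith : (0 : ℝ) < τ / 4))).and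
      (eventually_ge_atTop (1 : ℝ))).exists
    exact ⟨L, h3, h2.le⟩
  -- the radius
  obtain ⟨μ, hμ⟩ : ∃ μ, μ = min τ 1 := ⟨_, rfl⟩
  have hμ0 : 0 < μ := by rw [hμ]; exact lt_min hτ one_pos
  have hμ1 : μ ≤ 1 := by rw [hμ]; exact min_le_right _ _
  have hμτ : μ ≤ τ := by rw [hμ]; exact min_le_left _ _
  obtain ⟨l, hl0, hl1, hl2⟩ : ∃ l : ℝ, l0 ≤ l ∧ B2 * (1 / l) ≤ τ / 4 ∧
      B1 * (l ^ (-(1 / 2 : ℝ)) + ∫ x in cAnn (l / 2) l, msz (h x) / l)
        + 8 * Real.pi * B3 * |massIntegral g l - m| ≤ μ / 2 := by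
    have t1 : Tendsto (fun l : ℝ => B2 * (1 / l)) atTop (𝓝 (B2 * 0)) := by
      refine Tendsto.const_mul B2 (tendsto_inv_atTop_zero.congr fun x => ?_)
      rw [one_div]
    have t2 : Tendsto (fun l : ℝ => l ^ (-(1 / 2 : ℝ))) atTop (𝓝 0) :=
      tendsto_rpow_neg_atTop (by norm_num)
    have t3 : Tendsto (fun l : ℝ => |massIntegral g l - m|) atTop (𝓝 |m - m|) :=
      (hm.sub_const m).abs
    have t4 := ((t2.add hth).const_mul B1).add (t3.const_mul (8 * Real.pi * B3))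
    rw [mul_zero] at t1
    simp only [sub_self, abs_zero, mul_zero, add_zero] at t4
    obtain ⟨l, ⟨e1, e2⟩, e3⟩ := (((t1.eventually (gt_mem_nhds (by linarith : (0 : ℝ) < τ / 4))).and
      (t4.eventually (gt_mem_nhds (by linarith : (0 : ℝ) < μ / 2)))).and
      (eventually_ge_atTop l0)).exists
    exact ⟨l, e3, e1.le, e2.le⟩
  obtain ⟨D, se, hDg, hDh, hDl, hS, hA, hcut, hNd, her, hsM, hRρ, hlev⟩ :=
    hex l (μ / (4 * B1)) L hl0 (by positivity) hL1
  obtain ⟨lm, hlm⟩ := hW D hS hA se hcut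
  have i1 := hI D hS hA se lm hcut hlm
  have i2 := hII D hS hA se lm L hcut hlm hL1 hsM
  have hR : 0 < D.R := by
    have h1 := hS.R_ge
    have h2 : 0 < kE P.eps P.gam := by unfold kE; positivity
    have h3 := hS.l_ge
    have : 0 < kE P.eps P.gam ^ 4 * D.l := by positivity
    linarith
  have h16 : 1 / (16 * D.R) < ρ := by
    refine lt_of_le_of_lt ?_ hRρ
    apply one_div_le_one_div_of_le hR
    linarith
  have i3 := hMSIII P B β hβ D hS hA ρ r hRρ h16 hρ1 hr1 (by rw [hDl]; linarith) hlev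
  obtain ⟨J, hJ⟩ : ∃ J, J = jInf P.eps β D.Om D.vol (D.w P) (D.X P) (D.s2 P) := ⟨_, rfl⟩
  rw [← hJ] at i2 i3
  rw [hPε] at i1 i2 i3
  rw [hDg, hDl] at i1
  have hthD : D.th = ∫ x in cAnn (l / 2) l, msz (h x) / l := by
    unfold Dat.th
    rw [hDh, hDl]
  rw [hthD] at i1
  -- the first inequality
  have hlm0 := hlm.nonneg
  have e1 : B1 * (μ / (4 * B1)) = μ / 4 := by field_simp
  have e2 : B1 * D.Nd P ≤ μ / 4 := by
    rw [← e1]
    exact mul_le_mul_of_nonneg_left hNd hB1.le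
  have e3 : B1 * D.er P se ≤ μ / 4 := by
    rw [← e1]
    exact mul_le_mul_of_nonneg_left her hB1.le
  have e4 : 8 * Real.pi * massIntegral g l * lm
      ≤ 8 * Real.pi * m * lm + 8 * Real.pi * B3 * |massIntegral g l - m| := by
    have a1 : (massIntegral g l - m) * lm ≤ |massIntegral g l - m| * B3 :=
      mul_le_mul (le_abs_self _) hlm.le hlm0 (abs_nonneg _)
    have a2 := mul_le_mul_of_nonneg_left a1 (by positivity : (0 : ℝ) ≤ 8 * Real.pi)
    linarith
  have j1 : 4 * Real.pi * (2 - ε) ≤ 8 * Real.pi * m * lm + μ := by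
    have : B1 * (l ^ (-(1 / 2 : ℝ)) + (∫ x in cAnn (l / 2) l, msz (h x) / l) + D.Nd P
        + D.er P se) = B1 * (l ^ (-(1 / 2 : ℝ)) + ∫ x in cAnn (l / 2) l, msz (h x) / l)
        + B1 * D.Nd P + B1 * D.er P se := by ring
    linarith
  have hlmpos : 0 < lm := by
    rcases hlm0.lt_or_eq with h5 | h5
    · exact h5
    · exfalso
      rw [← h5, mul_zero, zero_add] at j1
      have := Real.pi_gt_three
      nlinarith
  refine ⟨lm, J, hlmpos, i3.1, by linarith, ?_, ?_⟩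
  · have e5 : B2 * (1 / D.l + Real.exp (-(L / ε)))
        = B2 * (1 / l) + B2 * Real.exp (-(L / ε)) := by
      rw [hDl]
      ring
    linarith
  · intro s0 s1 A h1 h2 h3 h4
    have := i3.2 s0 s1 A h1 h2 h3 (by rw [hDg]; exact h4)
    rw [hDg] at this
    exact this

end Pool.Agent.PFlow
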