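import Pool.Agent.PFlow.StmtsE2
import Pool.Agent.PFlow.M_LD

/-!
# GRADL: the derivative of the squared length of the gradient
-/

open MeasureTheory Filter Topology
open scoped ContDiff

namespace Pool.Agent.PFlow

open Pool.Agent.PenroseSph

namespace GRADL

variable {g : TensorField} {w : E3 → ℝ} {x : E3}

theorem symm_inv' {A : Bil} (h : A.IsSymm) (i j : Fin 3) : A⁻¹ i j = A⁻¹ j i := by
  have h1 : (A⁻¹).transpose = A⁻¹ := by
    rw [Matrix.transpose_nonsing_inv, h.eq]
  have h2 := congrFun (congrFun h1 j) i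
  rw [Matrix.transpose_apply] at h2
  exact h2

theorem pd_symm (hs : ∀ᶠ y in 𝓝 x, (g y).IsSymm) (k i j : Fin 3) :
    pd k (fun y => g y i j) x = pd k (fun y => g y j i) x := by
  apply pd_congr
  filter_upwards [hs] with y hy
  exact hy.apply j i

theorem dG_eq (hs : ∀ᶠ y in 𝓝 x, (g y).IsSymm) (hdet : (g x).det ≠ 0) (k : Fin 3) :
    MLD.dG g x k = g x * MLD.CC g x k + (MLD.CC g x k).transpose * g x := by
  have hsx : (g x).IsSymm := hs.self_of_nhds
  ext i j
  rw [Matrix.add_apply, Matrix.mul_apply, Matrix.mul_apply]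
  have h1 := MLD.lower g x hdet i k j
  have h2 := MLD.lower g x hdet j k i
  have h3 : ∑ d, (MLD.CC g x k).transpose i d * g x d j =
      ∑ d, g x j d * christoffel g d k i x := by
    refine Finset.sum_congr rfl fun d _ => ?_
    rw [Matrix.transpose_apply, MLD.CC, Matrix.of_apply, hsx.apply j d, mul_comm]
  rw [h3, h2]
  change pd k (fun y => g y i j) x = ∑ d, g x i d * christoffel g d k j x + _
  rw [h1, pd_symm hs k j i]
  ring

theorem dP_eq (hs : ∀ᶠ y in 𝓝 x, (g y).IsSymm) (hdet : (g x).det ≠ 0)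
    (hgd : ∀ i j, DifferentiableAt ℝ (fun y => g y i j) x) (k : Fin 3) :
    (Matrix.of fun i j => pd k (fun y => (g y)⁻¹ i j) x : Bil) =
      -(MLD.CC g x k * (g x)⁻¹ + (g x)⁻¹ * (MLD.CC g x k).transpose) := by
  have hPd := MLD.differentiableAt_inv hgd hdet
  have hev : ∀ᶠ y in 𝓝 x, (g y).det ≠ 0 :=
    (MLD.differentiableAt_det hgd).continuousAt.eventually_ne hdet
  have h1 : (Matrix.of fun i j => pd k (fun y => (g y)⁻¹ i j) x : Bil) * g x
      + (g x)⁻¹ * MLD.dG g x k = 0 := by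
    ext i j
    rw [Matrix.add_apply, Matrix.mul_apply, Matrix.mul_apply, ← Finset.sum_add_distrib,
      Matrix.zero_apply]
    have h2 : pd k (fun y => ∑ l, (g y)⁻¹ i l * g y l j) x = 0 := by
      have h3 : (fun y => ∑ l, (g y)⁻¹ i l * g y l j) =ᶠ[𝓝 x]
          fun _ => (1 : Bil) i j := by
        filter_upwards [hev] with y hy
        rw [← Matrix.mul_apply, Matrix.nonsing_inv_mul _ (Ne.isUnit hy)]
      rw [pd_congr h3, pd_const]
    rw [pd_sum Finset.univ (fun l y => (g y)⁻¹ i l * g y l j)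
      (fun l _ => (hPd i l).mul (hgd l j))] at h2
    rw [← h2]
    refine Finset.sum_congr rfl fun l _ => ?_
    rw [pd_mul (hPd i l) (hgd l j)]
    simp only [Matrix.of_apply, MLD.dG]
    ring
  have hGP : g x * (g x)⁻¹ = 1 := Matrix.mul_nonsing_inv _ (Ne.isUnit hdet)
  have hPG : (g x)⁻¹ * g x = 1 := Matrix.nonsing_inv_mul _ (Ne.isUnit hdet)
  have h4 := congrArg (fun T => T * (g x)⁻¹) h1
  simp only [Matrix.add_mul, Matrix.zero_mul] at h4
  rw [Matrix.mul_assoc, hGP, Matrix.mul_one, dG_eq hs hdet k, Matrix.mul_add, Matrix.add_mul,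
    ← Matrix.mul_assoc, hPG, Matrix.one_mul, ← Matrix.mul_assoc (g x)⁻¹, Matrix.mul_assoc _ (g x),
    hGP, Matrix.mul_one] at h4
  exact eq_neg_of_add_eq_zero_left h4

theorem dP_apply (hs : ∀ᶠ y in 𝓝 x, (g y).IsSymm) (hdet : (g x).det ≠ 0)
    (hgd : ∀ i j, DifferentiableAt ℝ (fun y => g y i j) x) (k i j : Fin 3) :
    pd k (fun y => (g y)⁻¹ i j) x = -(∑ l, christoffel g i k l x * (g x)⁻¹ l j
      + ∑ l, (g x)⁻¹ i l * christoffel g j k l x) := by
  have h := congrFun (congrFun (dP_eq hs hdet hgd k) i) j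
  rw [Matrix.neg_apply, Matrix.add_apply, Matrix.mul_apply, Matrix.mul_apply] at h
  exact h

end GRADL

open GRADL in
theorem GRADL : Stmt_GRADL := by
  intro g w x hs hdet hg hw i
  have hgd : ∀ i j, DifferentiableAt ℝ (fun y => g y i j) x :=
    fun i j => (hg i j).differentiableAt (by norm_num)
  have hPd := MLD.differentiableAt_inv hgd hdet
  have hwd : ∀ j, DifferentiableAt ℝ (pd j w) x := fun j =>
    (MLD.contDiffAt_pd hw (n := 1) (by norm_num) j).differentiableAt (by norm_num)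
  have h3 : ∀ a b, DifferentiableAt ℝ (fun y => (g y)⁻¹ a b * pd a w y * pd b w y) x :=
    fun a b => ((hPd a b).fun_mul (hwd a)).fun_mul (hwd b)
  have h4 : ∀ a, DifferentiableAt ℝ (fun y => ∑ b, (g y)⁻¹ a b * pd a w y * pd b w y) x :=
    fun a => DifferentiableAt.fun_sum fun b _ => h3 a b
  have h0 : (fun y => ev (g y)⁻¹ (grad w y) (grad w y)) =
      fun y => ∑ a, ∑ b, (g y)⁻¹ a b * pd a w y * pd b w y := rfl
  rw [h0]
  rw [pd_sum Finset.univ (fun a y => ∑ b, (g y)⁻¹ a b * pd a w y * pd b w y) (fun a _ => h4 a)]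
  have h5 : ∀ a, pd i (fun y => ∑ b, (g y)⁻¹ a b * pd a w y * pd b w y) x =
      ∑ b, (-(∑ l, christoffel g a i l x * (g x)⁻¹ l b
      + ∑ l, (g x)⁻¹ a l * christoffel g b i l x) * pd a w x * pd b w x
      + (g x)⁻¹ a b * pd i (pd a w) x * pd b w x
      + (g x)⁻¹ a b * pd a w x * pd i (pd b w) x) := by
    intro a
    rw [pd_sum Finset.univ (fun b y => (g y)⁻¹ a b * pd a w y * pd b w y) (fun b _ => h3 a b)]
    refine Finset.sum_congr rfl fun b _ => ?_
    rw [MLD.pd_mul3 i (hPd a b) (hwd a) (hwd b), dP_apply hs hdet hgd i a b]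
  rw [Finset.sum_congr rfl fun a _ => h5 a]
  exact MLD.algQ (fun a b => (g x)⁻¹ a b) (fun a b => symm_inv' hs.self_of_nhds a b)
    (fun a l => christoffel g a i l x) (fun a => pd i (pd a w) x) (fun a => pd a w x)

end Pool.Agent.PFlow
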