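import Pool.Agent.PFlow.StmtsE2

/-!
# (HOLA) Hoelder's inequality on level regions
-/

open MeasureTheory Filter Topology
open scoped ContDiff ENNReal

namespace Pool.Agent.PFlow

open Pool.Agent.PenroseSph

/-- HOLA: Hoelder's inequality on level regions. -/
theorem HOLA : Stmt_HOLA := by
  intro ε T vol X I V hε hε1 hT hvol hX hIv hIX hXm hI hV
  have hp0 : (0 : ℝ) < 1 + ε := by linarith
  have hvm : AEStronglyMeasurable vol (volume.restrict T) := hIv.aestronglyMeasurable
  have hint : IntegrableOn (fun x => X x * vol x) T := by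
    refine Integrable.mono' (hIX.add hIv) (hXm.mul hvm) (Eventually.of_forall fun x => ?_)
    rw [Real.norm_eq_abs, abs_of_nonneg (mul_nonneg (hX x) (hvol x))]
    show X x * vol x ≤ X x ^ (1 + ε) * vol x + vol x
    have h1 : X x ≤ X x ^ (1 + ε) + 1 := by
      rcases le_total (X x) 1 with h | h
      · have := Real.rpow_nonneg (hX x) (1 + ε)
        linarith
      · have h2 : X x ^ (1 : ℝ) ≤ X x ^ (1 + ε) :=
          Real.rpow_le_rpow_of_exponent_le h (by linarith)
        rw [Real.rpow_one] at h2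
        linarith
    nlinarith [hvol x]
  refine ⟨hint, ?_⟩
  set F : E3 → ℝ := fun x => X x * vol x ^ (1 / (1 + ε)) with hF
  set G : E3 → ℝ := fun x => vol x ^ (ε / (1 + ε)) with hG
  have hF0 : ∀ x, 0 ≤ F x := fun x => mul_nonneg (hX x) (Real.rpow_nonneg (hvol x) _)
  have hG0 : ∀ x, 0 ≤ G x := fun x => Real.rpow_nonneg (hvol x) _
  have hFp : ∀ x, F x ^ (1 + ε) = X x ^ (1 + ε) * vol x := by
    intro x
    rw [hF]
    show (X x * vol x ^ (1 / (1 + ε))) ^ (1 + ε) = X x ^ (1 + ε) * vol x
    rw [Real.mul_rpow (hX x) (Real.rpow_nonneg (hvol x) _), ← Real.rpow_mul (hvol x),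
      one_div, inv_mul_cancel₀ hp0.ne', Real.rpow_one]
  have hGq : ∀ x, G x ^ ((1 + ε) / ε) = vol x := by
    intro x
    rw [hG]
    show (vol x ^ (ε / (1 + ε))) ^ ((1 + ε) / ε) = vol x
    rw [← Real.rpow_mul (hvol x)]
    have : ε / (1 + ε) * ((1 + ε) / ε) = 1 := by field_simp
    rw [this, Real.rpow_one]
  have hFG : ∀ x, F x * G x = X x * vol x := by
    intro x
    rw [hF, hG]
    show X x * vol x ^ (1 / (1 + ε)) * vol x ^ (ε / (1 + ε)) = X x * vol x
    rw [mul_assoc]
    congr 1
    rcases (hvol x).eq_or_lt with h | h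
    · rw [← h, Real.zero_rpow (by positivity), zero_mul]
    · rw [← Real.rpow_add h]
      have : 1 / (1 + ε) + ε / (1 + ε) = 1 := by field_simp
      rw [this, Real.rpow_one]
  have hFm : AEStronglyMeasurable F (volume.restrict T) := by
    have h1 : AEMeasurable (fun x => vol x ^ (1 / (1 + ε))) (volume.restrict T) :=
      hvm.aemeasurable.pow_const _
    exact hXm.mul h1.aestronglyMeasurable
  have hGm : AEStronglyMeasurable G (volume.restrict T) :=
    (hvm.aemeasurable.pow_const _).aestronglyMeasurable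
  have hpq : (1 + ε).HolderConjugate ((1 + ε) / ε) := by
    rw [Real.holderConjugate_iff]
    refine ⟨by linarith, ?_⟩
    field_simp
  have hFL : MemLp F (ENNReal.ofReal (1 + ε)) (volume.restrict T) := by
    rw [← integrable_norm_rpow_iff hFm (by simpa using hp0) ENNReal.ofReal_ne_top]
    refine hIX.congr (Eventually.of_forall fun x => ?_)
    show X x ^ (1 + ε) * vol x = ‖F x‖ ^ (ENNReal.ofReal (1 + ε)).toReal
    rw [ENNReal.toReal_ofReal hp0.le, Real.norm_eq_abs, abs_of_nonneg (hF0 x), hFp]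
  have hq0 : 0 < (1 + ε) / ε := by positivity
  have hGL : MemLp G (ENNReal.ofReal ((1 + ε) / ε)) (volume.restrict T) := by
    rw [← integrable_norm_rpow_iff hGm (by simpa using hq0) ENNReal.ofReal_ne_top]
    refine hIv.congr (Eventually.of_forall fun x => ?_)
    show vol x = ‖G x‖ ^ (ENNReal.ofReal ((1 + ε) / ε)).toReal
    rw [ENNReal.toReal_ofReal hq0.le, Real.norm_eq_abs, abs_of_nonneg (hG0 x), hGq]
  have hH := integral_mul_le_Lp_mul_Lq_of_nonneg hpq (Eventually.of_forall hF0)
    (Eventually.of_forall hG0) hFL hGL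
  simp only [hFp, hGq, hFG] at hH
  refine hH.trans ?_
  have hI0 : 0 ≤ ∫ x in T, X x ^ (1 + ε) * vol x :=
    integral_nonneg fun x => mul_nonneg (Real.rpow_nonneg (hX x) _) (hvol x)
  have hV0 : 0 ≤ ∫ x in T, vol x := integral_nonneg hvol
  have he : 1 / ((1 + ε) / ε) = ε / (1 + ε) := by field_simp
  rw [he]
  exact mul_le_mul (Real.rpow_le_rpow hI0 hI (by positivity))
    (Real.rpow_le_rpow hV0 hV (by positivity)) (Real.rpow_nonneg hV0 _)
    (Real.rpow_nonneg (hI0.trans hI) _)

end Pool.Agent.PFlow
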