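import Pool.Agent.PFlow.StmtsE2

set_option autoImplicit false

open MeasureTheory Filter Topology
open scoped ContDiff ENNReal

namespace Pool.Agent.PFlow

open Pool.Agent.PenroseSph

private theorem hsym_comm {f : E3 → ℝ} (h : ContDiff ℝ ∞ f) (x : E3) (i j : Fin 3) :
    pd i (pd j f) x = pd j (pd i f) x := by
  have hs : IsSymmSndFDerivAt ℝ f x := h.contDiffAt.isSymmSndFDerivAt (by
    rw [minSmoothness_of_isRCLikeNormedField]
    exact WithTop.coe_le_coe.2 le_top)
  have hd : DifferentiableAt ℝ (fderiv ℝ f) x :=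
    ((h.fderiv_right (m := ∞) (by simp)).differentiable (by simp)) x
  have key : ∀ a b : Fin 3, pd a (pd b f) x
      = fderiv ℝ (fderiv ℝ f) x (EuclideanSpace.single a 1) (EuclideanSpace.single b 1) := by
    intro a b
    unfold pd
    have h1 : HasFDerivAt (fun y => fderiv ℝ f y (EuclideanSpace.single b 1))
        (((fderiv ℝ (fderiv ℝ f) x)).flip (EuclideanSpace.single b 1)) x := by
      have := hd.hasFDerivAt.clm_apply (hasFDerivAt_const (EuclideanSpace.single b (1 : ℝ)) x)
      refine this.congr_fderiv ?_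
      ext v
      simp
    rw [h1.fderiv]
    rfl
  rw [key, key]
  exact hs _ _

private theorem hsym_cont {f : E3 → ℝ} (h : ContDiff ℝ ∞ f) (i j : Fin 3) :
    Continuous (pd i (pd j f)) := by
  have h1 : ContDiff ℝ ∞ (pd j f) := by
    unfold pd
    exact (h.fderiv_right (m := ∞) (by simp)).clm_apply contDiff_const
  unfold pd
  exact (h1.continuous_fderiv (by simp)).clm_apply continuous_const

theorem HSYM : Stmt_HSYM := by
  intro U w G M hU hw
  have hloc : ∀ K : Set E3, IsCompact K → K ⊆ U → ∀ i j : Fin 3,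
      ∀ᵐ x ∂(volume.restrict K), M x i j = M x j i := by
    intro K hK hKU i j
    obtain ⟨v, hv, -, -, hM⟩ := hw.approx K hK hKU
    have hfin : IsFiniteMeasure (volume.restrict K) :=
      ⟨by rw [Measure.restrict_apply_univ]; exact hK.measure_lt_top⟩
    have hMi := hw.memM K hK hKU
    have hvi : ∀ n a b, MemLp (fun x => pd a (pd b (v n)) x) 2 (volume.restrict K) := by
      intro n a b
      obtain ⟨C, hC⟩ := hK.exists_bound_of_continuousOn (hsym_cont (hv n) a b).continuousOn
      refine MemLp.of_bound (hsym_cont (hv n) a b).aestronglyMeasurable C ?_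
      exact (ae_restrict_iff' hK.measurableSet).2 (Eventually.of_forall hC)
    have hint : ∀ n a b, Integrable (fun x => (pd a (pd b (v n)) x - M x a b) ^ 2)
        (volume.restrict K) := fun n a b => ((hvi n a b).sub (hMi a b)).integrable_sq
    have hint2 : Integrable (fun x => (M x i j - M x j i) ^ 2) (volume.restrict K) :=
      ((hMi i j).sub (hMi j i)).integrable_sq
    have hb : ∀ n, ∫ x in K, (M x i j - M x j i) ^ 2
        ≤ 2 * (∫ x in K, (pd i (pd j (v n)) x - M x i j) ^ 2)
          + 2 * (∫ x in K, (pd j (pd i (v n)) x - M x j i) ^ 2) := by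
      intro n
      rw [← integral_const_mul, ← integral_const_mul,
        ← integral_add ((hint n i j).const_mul 2) ((hint n j i).const_mul 2)]
      refine integral_mono hint2 (((hint n i j).const_mul 2).add ((hint n j i).const_mul 2)) ?_
      intro x
      show (M x i j - M x j i) ^ 2 ≤ 2 * (pd i (pd j (v n)) x - M x i j) ^ 2
        + 2 * (pd j (pd i (v n)) x - M x j i) ^ 2
      rw [hsym_comm (hv n) x i j]
      nlinarith [sq_nonneg ((pd j (pd i (v n)) x - M x i j) + (pd j (pd i (v n)) x - M x j i))]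
    have hlim : Tendsto (fun n => 2 * (∫ x in K, (pd i (pd j (v n)) x - M x i j) ^ 2)
          + 2 * (∫ x in K, (pd j (pd i (v n)) x - M x j i) ^ 2)) atTop (𝓝 (2 * 0 + 2 * 0)) :=
      ((hM i j).const_mul 2).add ((hM j i).const_mul 2)
    have hle : ∫ x in K, (M x i j - M x j i) ^ 2 ≤ 2 * 0 + 2 * 0 :=
      ge_of_tendsto hlim (Eventually.of_forall hb)
    have h0 : ∫ x in K, (M x i j - M x j i) ^ 2 = 0 :=
      le_antisymm (by simpa using hle) (integral_nonneg fun x => sq_nonneg _)
    rw [integral_eq_zero_iff_of_nonneg (fun x => sq_nonneg _) hint2] at h0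
    filter_upwards [h0] with x hx
    have h1 : (M x i j - M x j i) ^ 2 = 0 := hx
    have h2 := pow_eq_zero_iff (two_ne_zero) |>.1 h1
    linarith
  rw [ae_restrict_iff' hU.measurableSet, ae_iff]
  apply measure_null_of_locally_null
  intro x hx
  have hxU : x ∈ U := by
    by_contra hcon
    exact hx (fun h => absurd h hcon)
  obtain ⟨K, hK, hKx, hKU⟩ := exists_compact_subset hU hxU
  refine ⟨K ∩ {y | ¬ (y ∈ U → (M y).IsSymm)}, ?_, ?_⟩
  · exact inter_mem (mem_nhdsWithin_of_mem_nhds (mem_interior_iff_mem_nhds.1 hKx))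
      self_mem_nhdsWithin
  · have h1 : ∀ᵐ y ∂(volume.restrict K), ∀ q : Fin 3 × Fin 3, M y q.1 q.2 = M y q.2 q.1 :=
      ae_all_iff.2 fun q => hloc K hK hKU q.1 q.2
    rw [ae_restrict_iff' hK.measurableSet, ae_iff] at h1
    refine measure_mono_null ?_ h1
    rintro y ⟨hy1, hy2⟩ hy3
    apply hy2
    intro _
    ext a b
    rw [Matrix.transpose_apply]
    exact hy3 hy1 (b, a)

end Pool.Agent.PFlow
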