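import Pool.Agent.PFlow.StmtsE2

/-!
# JL: the flux and the constant value of the weight
-/

open MeasureTheory Filter Topology
open scoped ContDiff

namespace Pool.Agent.PFlow

open Pool.Agent.PenroseSph

namespace JLAux

/-- the pointwise inequality -/
lemma key {ε θ w s X lm : ℝ} (hε : 0 < ε) (hε2 : ε ≤ 1 / 2) (hθ : 0 < θ) (hθ1 : θ < 1)
    (hX : 0 ≤ X) (hlm : 0 ≤ lm) (hw : s ≤ w) :
    Real.exp (-w) * X ^ (1 + ε) * lm ^ (2 - ε) ≤ θ ^ (-(2 * (2 - ε))) * X ^ 3 +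
      Real.exp (-(3 * s / (2 - ε))) * lm ^ 2 *
        ((Real.sqrt (Real.exp (w / (2 - ε)) * X) - Real.sqrt lm) ^ 2 / (1 - θ) ^ 2) := by
  have h2 : 0 < 2 - ε := by linarith
  have h1 : 0 < 1 + ε := by linarith
  set φ := Real.exp (w / (2 - ε)) * X with hφ
  have hφ0 : 0 ≤ φ := by positivity
  have hsum : ∀ t : ℝ, 0 ≤ t → t ^ (1 + ε) * t ^ (2 - ε) = t ^ 3 := by
    intro t ht
    rw [← Real.rpow_add_of_nonneg ht h1.le h2.le, ← Real.rpow_natCast]
    congr 1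
    push_cast
    ring
  have hT0 : 0 ≤ Real.exp (-(3 * s / (2 - ε))) * lm ^ 2 *
      ((Real.sqrt φ - Real.sqrt lm) ^ 2 / (1 - θ) ^ 2) := by positivity
  have hT1 : 0 ≤ θ ^ (-(2 * (2 - ε))) * X ^ 3 := by positivity
  by_cases h : θ ^ 2 * lm ≤ φ
  · have e1 : lm ^ (2 - ε) ≤ θ ^ (-(2 * (2 - ε))) * (Real.exp w * X ^ (2 - ε)) := by
      have e2 : lm ≤ φ / θ ^ 2 := by
        rw [le_div_iff₀ (by positivity)]
        linarith
      have e3 : φ ^ (2 - ε) = Real.exp w * X ^ (2 - ε) := by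
        rw [hφ, Real.mul_rpow (Real.exp_pos _).le hX, ← Real.exp_mul,
          div_mul_cancel₀ _ h2.ne']
      have e4 : (θ ^ 2) ^ (2 - ε) = θ ^ (2 * (2 - ε)) := by
        rw [← Real.rpow_natCast, ← Real.rpow_mul hθ.le]
        norm_cast
      calc lm ^ (2 - ε) ≤ (φ / θ ^ 2) ^ (2 - ε) := Real.rpow_le_rpow hlm e2 h2.le
        _ = φ ^ (2 - ε) / (θ ^ 2) ^ (2 - ε) := Real.div_rpow hφ0 (by positivity) _
        _ = _ := by
          rw [e3, e4, Real.rpow_neg hθ.le]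
          field_simp
    have e5 : Real.exp (-w) * X ^ (1 + ε) * lm ^ (2 - ε) ≤ θ ^ (-(2 * (2 - ε))) * X ^ 3 := by
      calc Real.exp (-w) * X ^ (1 + ε) * lm ^ (2 - ε)
          ≤ Real.exp (-w) * X ^ (1 + ε) * (θ ^ (-(2 * (2 - ε))) * (Real.exp w * X ^ (2 - ε))) := by
            gcongr
        _ = θ ^ (-(2 * (2 - ε))) * (Real.exp (-w) * Real.exp w) *
            (X ^ (1 + ε) * X ^ (2 - ε)) := by ring
        _ = _ := by
            rw [← Real.exp_add, neg_add_cancel, Real.exp_zero, hsum X hX, mul_one]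
    linarith
  · rw [not_le] at h
    have hφl : φ ≤ lm := by
      have : θ ^ 2 ≤ 1 := pow_le_one₀ hθ.le hθ1.le
      nlinarith
    have e1 : X = Real.exp (-(w / (2 - ε))) * φ := by
      rw [hφ, ← mul_assoc, ← Real.exp_add, neg_add_cancel, Real.exp_zero, one_mul]
    have e2 : Real.exp (-w) * X ^ (1 + ε) = Real.exp (-(3 * w / (2 - ε))) * φ ^ (1 + ε) := by
      rw [e1, Real.mul_rpow (Real.exp_pos _).le hφ0, ← Real.exp_mul, ← mul_assoc,
        ← Real.exp_add]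
      congr 2
      field_simp
      ring
    have e3 : Real.exp (-(3 * w / (2 - ε))) ≤ Real.exp (-(3 * s / (2 - ε))) := by
      apply Real.exp_le_exp.2
      apply neg_le_neg
      gcongr
    have e4 : φ ^ (1 + ε) ≤ lm ^ (1 + ε) := Real.rpow_le_rpow hφ0 hφl h1.le
    have e5 : lm ≤ (Real.sqrt φ - Real.sqrt lm) ^ 2 / (1 - θ) ^ 2 := by
      have h3 : 0 < 1 - θ := by linarith
      rw [le_div_iff₀ (by positivity)]
      have e6 : Real.sqrt φ ≤ θ * Real.sqrt lm := by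
        calc Real.sqrt φ ≤ Real.sqrt (θ ^ 2 * lm) := Real.sqrt_le_sqrt h.le
          _ = θ * Real.sqrt lm := by
            rw [Real.sqrt_mul (by positivity), Real.sqrt_sq hθ.le]
      have e7 : (1 - θ) * Real.sqrt lm ≤ Real.sqrt lm - Real.sqrt φ := by linarith
      have e8 : 0 ≤ (1 - θ) * Real.sqrt lm := by positivity
      calc lm * (1 - θ) ^ 2 = ((1 - θ) * Real.sqrt lm) ^ 2 := by
            rw [mul_pow, Real.sq_sqrt hlm]; ring
        _ ≤ (Real.sqrt lm - Real.sqrt φ) ^ 2 := pow_le_pow_left₀ e8 e7 2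
        _ = _ := by ring
    have e9 : Real.exp (-w) * X ^ (1 + ε) * lm ^ (2 - ε) ≤
        Real.exp (-(3 * s / (2 - ε))) * lm ^ 2 *
          ((Real.sqrt φ - Real.sqrt lm) ^ 2 / (1 - θ) ^ 2) := by
      calc Real.exp (-w) * X ^ (1 + ε) * lm ^ (2 - ε)
          = Real.exp (-(3 * w / (2 - ε))) * φ ^ (1 + ε) * lm ^ (2 - ε) := by rw [e2]
        _ ≤ Real.exp (-(3 * s / (2 - ε))) * lm ^ (1 + ε) * lm ^ (2 - ε) := by gcongr
        _ = Real.exp (-(3 * s / (2 - ε))) * (lm ^ (1 + ε) * lm ^ (2 - ε)) := by ring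
        _ = Real.exp (-(3 * s / (2 - ε))) * lm ^ 2 * lm := by rw [hsum lm hlm]; ring
        _ ≤ _ := by gcongr
    linarith

end JLAux

/-- JL, without measurability of `vol` and `X`. -/
theorem JL_core (ε θ : ℝ) (β : ℝ → ℝ) (hε : 0 < ε) (hε2 : ε ≤ 1 / 2) (hθ : 0 < θ) (hθ1 : θ < 1)
    (hβ : IsBump β) : ∃ C : ℝ, 0 < C ∧
    ∀ (Ω 𝒜 : Set E3) (vol w X : E3 → ℝ) (s₂ lm N : ℝ), MeasurableSet Ω → MeasurableSet 𝒜 →
      (∀ x, 0 ≤ vol x) → (∀ x, 0 ≤ X x) → Measurable w → 𝒜 ⊆ Ω →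
      Ω ∩ {x | s₂ < w x ∧ w x < s₂ + 1} ⊆ 𝒜 → 0 ≤ lm →
      IntegrableOn (fun x => X x ^ 3 * vol x) 𝒜 →
      IntegrableOn (fun x => (Real.sqrt (Real.exp (w x / (2 - ε)) * X x) - Real.sqrt lm) ^ 2
        * vol x) 𝒜 →
      (∫ x in 𝒜, (Real.sqrt (Real.exp (w x / (2 - ε)) * X x) - Real.sqrt lm) ^ 2 * vol x) ≤ N →
      jInf ε β Ω vol w X s₂ * lm ^ (2 - ε)
        ≤ θ ^ (-(2 * (2 - ε))) * (∫ x in Ω, β (w x - s₂) * X x ^ 3 * vol x)
          + C * Real.exp (-(3 * s₂ / (2 - ε))) * lm ^ 2 * N := by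
  -- the bump is bounded
  have hβc : HasCompactSupport β := by
    refine HasCompactSupport.intro (isCompact_Icc (a := (1 / 4 : ℝ)) (b := 3 / 4)) ?_
    intro s hs
    apply hβ.supp
    by_contra hcon
    rw [not_or, not_le, not_le] at hcon
    exact hs ⟨hcon.1.le, hcon.2.le⟩
  obtain ⟨B, hB⟩ := hβ.smooth.continuous.bounded_above_of_compact_support hβc
  have hB0 : 0 ≤ B := (norm_nonneg _).trans (hB 0)
  have hβB : ∀ s, β s ≤ B := fun s => (le_abs_self _).trans (hB s)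
  refine ⟨B / (1 - θ) ^ 2 + 1, by positivity, ?_⟩
  intro Ω 𝒜 vol w X s₂ lm N hΩ hA hvol hX hw hAΩ hsub hlm hI3 hIP hN
  have h2 : 0 < 2 - ε := by linarith
  set Y : E3 → ℝ := fun x =>
    (Real.sqrt (Real.exp (w x / (2 - ε)) * X x) - Real.sqrt lm) ^ 2 * vol x with hY
  have hzero : ∀ x ∈ Ω \ 𝒜, β (w x - s₂) = 0 := by
    intro x hx
    apply hβ.supp
    by_contra hcon
    rw [not_or, not_le, not_le] at hcon
    exact hx.2 (hsub ⟨hx.1, by show s₂ < w x; linarith [hcon.1],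
      by show w x < s₂ + 1; linarith [hcon.2]⟩)
  have hw' : Measurable fun x => β (w x - s₂) :=
    hβ.smooth.continuous.measurable.comp (hw.sub_const s₂)
  have hK1 : IntegrableOn (fun x => β (w x - s₂) * X x ^ 3 * vol x) 𝒜 := by
    have h3 : IntegrableOn (fun x => β (w x - s₂) * (X x ^ 3 * vol x)) 𝒜 :=
      hI3.bdd_mul hw'.aestronglyMeasurable (Filter.Eventually.of_forall fun x => hB _)
    exact h3.congr (Filter.Eventually.of_forall fun x => by simp only []; ring)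
  have hS : ∫ x in Ω, β (w x - s₂) * X x ^ 3 * vol x =
      ∫ x in 𝒜, β (w x - s₂) * X x ^ 3 * vol x :=
    setIntegral_eq_of_subset_of_forall_sdiff_eq_zero hΩ hAΩ fun x hx => by
      simp only [hzero x hx, zero_mul]
  have hJ : jInf ε β Ω vol w X s₂ =
      ∫ x in 𝒜, β (w x - s₂) * (Real.exp (-w x) * X x ^ (1 + ε)) * vol x := by
    unfold jInf
    exact setIntegral_eq_of_subset_of_forall_sdiff_eq_zero hΩ hAΩ fun x hx => by
      simp only [hzero x hx, zero_mul]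
  set K : ℝ := (B / (1 - θ) ^ 2) * Real.exp (-(3 * s₂ / (2 - ε))) * lm ^ 2 with hK
  have hK0 : 0 ≤ K := by positivity
  have hpt : ∀ x, β (w x - s₂) * (Real.exp (-w x) * X x ^ (1 + ε)) * vol x * lm ^ (2 - ε) ≤
      θ ^ (-(2 * (2 - ε))) * (β (w x - s₂) * X x ^ 3 * vol x) + K * Y x := by
    intro x
    have hY0 : 0 ≤ Y x := mul_nonneg (sq_nonneg _) (hvol x)
    by_cases hb : β (w x - s₂) = 0
    · rw [hb]
      simp only [zero_mul, mul_zero, zero_add]
      positivity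
    · have hws : s₂ ≤ w x := by
        by_contra hcon
        rw [not_le] at hcon
        exact hb (hβ.supp _ (Or.inl (by linarith)))
      have h4 := JLAux.key hε hε2 hθ hθ1 (hX x) hlm hws
      have hbn := hβ.nonneg (w x - s₂)
      calc β (w x - s₂) * (Real.exp (-w x) * X x ^ (1 + ε)) * vol x * lm ^ (2 - ε)
          = (β (w x - s₂) * vol x) *
            (Real.exp (-w x) * X x ^ (1 + ε) * lm ^ (2 - ε)) := by ring
        _ ≤ (β (w x - s₂) * vol x) * (θ ^ (-(2 * (2 - ε))) * X x ^ 3 +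
              Real.exp (-(3 * s₂ / (2 - ε))) * lm ^ 2 *
              ((Real.sqrt (Real.exp (w x / (2 - ε)) * X x) - Real.sqrt lm) ^ 2
                / (1 - θ) ^ 2)) :=
            mul_le_mul_of_nonneg_left h4 (mul_nonneg hbn (hvol x))
        _ = θ ^ (-(2 * (2 - ε))) * (β (w x - s₂) * X x ^ 3 * vol x) +
            β (w x - s₂) * (1 / (1 - θ) ^ 2 * Real.exp (-(3 * s₂ / (2 - ε))) * lm ^ 2 * Y x) := by
            rw [hY]; ring
        _ ≤ θ ^ (-(2 * (2 - ε))) * (β (w x - s₂) * X x ^ 3 * vol x) +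
            B * (1 / (1 - θ) ^ 2 * Real.exp (-(3 * s₂ / (2 - ε))) * lm ^ 2 * Y x) := by
            gcongr
            exact hβB _
        _ = _ := by rw [hK]; ring
  have hmain : ∫ x in 𝒜, β (w x - s₂) * (Real.exp (-w x) * X x ^ (1 + ε)) * vol x *
      lm ^ (2 - ε) ≤ ∫ x in 𝒜, (θ ^ (-(2 * (2 - ε))) * (β (w x - s₂) * X x ^ 3 * vol x) +
        K * Y x) := by
    refine integral_mono_of_nonneg (Filter.Eventually.of_forall fun x => ?_)
      ((hK1.const_mul _).add (hIP.const_mul K)) (Filter.Eventually.of_forall hpt)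
    have := hβ.nonneg (w x - s₂)
    have := hvol x
    have := hX x
    show 0 ≤ β (w x - s₂) * (Real.exp (-w x) * X x ^ (1 + ε)) * vol x * lm ^ (2 - ε)
    positivity
  rw [hJ, hS]
  rw [integral_mul_const] at hmain
  refine hmain.trans ?_
  rw [integral_add (hK1.const_mul _) (hIP.const_mul K), integral_const_mul, integral_const_mul]
  have hN0 : 0 ≤ N := (setIntegral_nonneg hA fun x _ =>
    mul_nonneg (sq_nonneg _) (hvol x)).trans hN
  have h5 : K * ∫ x in 𝒜, Y x ≤ K * N := mul_le_mul_of_nonneg_left hN hK0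
  have h6 : K * N ≤ (B / (1 - θ) ^ 2 + 1) * Real.exp (-(3 * s₂ / (2 - ε))) * lm ^ 2 * N := by
    rw [hK]
    gcongr
    linarith
  linarith

/-- JL: the flux and the constant value of the weight. -/
theorem JL : Stmt_JL := by
  intro ε θ β hε hε2 hθ hθ1 hβ
  obtain ⟨C, hC, h⟩ := JL_core ε θ β hε hε2 hθ hθ1 hβ
  exact ⟨C, hC, fun Ω 𝒜 vol w X s₂ lm N hΩ hA hvol hX hw _ _ hAΩ hsub hlm _ hI3 hIP hN =>
    h Ω 𝒜 vol w X s₂ lm N hΩ hA hvol hX hw hAΩ hsub hlm hI3 hIP hN⟩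

end Pool.Agent.PFlow
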