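import Pool.Agent.PFlow.StmtsE2

/-!
# Module LE: local `L³` bound of the gradient
-/

open MeasureTheory Filter Topology
open scoped ContDiff ENNReal

namespace Pool.Agent.PFlow.LEaux

open Pool.Agent.PenroseSph Pool.Agent.PFlow

theorem h2On_mono {U V : Set E3} {w : E3 → ℝ} {G : E3 → Cov} {M : E3 → Bil}
    (h : H2On U w G M) (hVU : V ⊆ U) : H2On V w G M where
  cont := h.cont.mono hVU
  memG := fun K hK hKV => h.memG K hK (hKV.trans hVU)
  memM := fun K hK hKV => h.memM K hK (hKV.trans hVU)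
  approx := fun K hK hKV => h.approx K hK (hKV.trans hVU)

theorem isCompact_cAnn (a b : ℝ) : IsCompact (cAnn a b) := by
  have h1 : cAnn a b = Metric.closedBall (0 : E3) b ∩ {x : E3 | a ≤ ‖x‖} := by
    ext x
    simp only [cAnn, Set.mem_ofPred_eq, Set.mem_inter_iff, Metric.mem_closedBall, dist_zero_right]
    exact and_comm
  rw [h1]
  exact (isCompact_closedBall _ _).inter_right (isClosed_le continuous_const continuous_norm)

theorem vsz_nonneg (p : Cov) : 0 ≤ vsz p := Real.sqrt_nonneg _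

theorem vsz_sq (p : Cov) : vsz p ^ 2 = ∑ i, p i ^ 2 :=
  Real.sq_sqrt (Finset.sum_nonneg fun _ _ => sq_nonneg _)

theorem msz_sq (B : Bil) : msz B ^ 2 = ∑ i, ∑ j, B i j ^ 2 :=
  Real.sq_sqrt (Finset.sum_nonneg fun _ _ => Finset.sum_nonneg fun _ _ => sq_nonneg _)

theorem integrableOn_vsz_sq {U K : Set E3} {w : E3 → ℝ} {G : E3 → Cov} {M : E3 → Bil}
    (h : H2On U w G M) (hK : IsCompact K) (hKU : K ⊆ U) :
    IntegrableOn (fun x => vsz (G x) ^ 2) K := by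
  simp only [vsz_sq]
  exact integrable_finsetSum _ fun i _ => (h.memG K hK hKU i).integrable_sq

theorem integrableOn_msz_sq {U K : Set E3} {w : E3 → ℝ} {G : E3 → Cov} {M : E3 → Bil}
    (h : H2On U w G M) (hK : IsCompact K) (hKU : K ⊆ U) :
    IntegrableOn (fun x => msz (M x) ^ 2) K := by
  simp only [msz_sq]
  exact integrable_finsetSum _ fun i _ => integrable_finsetSum _ fun j _ =>
    (h.memM K hK hKU i j).integrable_sq

theorem aesm_vsz {U K : Set E3} {w : E3 → ℝ} {G : E3 → Cov} {M : E3 → Bil}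
    (h : H2On U w G M) (hK : IsCompact K) (hKU : K ⊆ U) :
    AEStronglyMeasurable (fun x => vsz (G x)) (volume.restrict K) := by
  unfold vsz
  refine Real.continuous_sqrt.comp_aestronglyMeasurable ?_
  exact Finset.aestronglyMeasurable_fun_sum _ fun i _ =>
    ((h.memG K hK hKU i).aestronglyMeasurable).pow 2

end Pool.Agent.PFlow.LEaux

namespace Pool.Agent.PFlow

open Pool.Agent.PenroseSph LEaux

theorem LE (hLE1 : Stmt_LE1) (hLE2 : Stmt_LE2) : Stmt_LE := by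
  intro ε' C₁ a' a b b' hε' hε'1 hC₁ ha' haa hab hbb
  set a1 : ℝ := (a' + a) / 2 with ha1
  set b1 : ℝ := (b + b') / 2 with hb1
  obtain ⟨D, hD, hLE1⟩ := hLE1 ε' C₁ a' a1 b1 b' hε' hε'1 hC₁ ha' (by linarith) (by linarith)
    (by linarith)
  obtain ⟨E, hE, hLE2⟩ := hLE2 D a1 a b b1 hD.le (by linarith) (by linarith) hab (by linarith)
  refine ⟨D + E, by positivity, ?_⟩
  intro ρ S v G M hρ hS hH2 hv hM
  obtain ⟨k1, k2⟩ := hLE1 ρ S v G M hρ hS hH2 hv hM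
  have hsub1 : Ann (a1 * ρ) (b1 * ρ) ⊆ Ann (a' * ρ) (b' * ρ) := by
    intro x hx
    have e1 : a' * ρ ≤ a1 * ρ := mul_le_mul_of_nonneg_right (by linarith) hρ.le
    have e2 : b1 * ρ ≤ b' * ρ := mul_le_mul_of_nonneg_right (by linarith) hρ.le
    exact ⟨e1.trans_lt hx.1, hx.2.trans_le e2⟩
  have hsub2 : cAnn (a1 * ρ) (b1 * ρ) ⊆ Ann (a' * ρ) (b' * ρ) := by
    intro x hx
    have e1 : a' * ρ < a1 * ρ := mul_lt_mul_of_pos_right (by linarith) hρ
    have e2 : b1 * ρ < b' * ρ := mul_lt_mul_of_pos_right (by linarith) hρ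
    exact ⟨e1.trans_le hx.1, hx.2.trans_lt e2⟩
  have hsub3 : cAnn (a * ρ) (b * ρ) ⊆ cAnn (a1 * ρ) (b1 * ρ) := by
    intro x hx
    have e1 : a1 * ρ ≤ a * ρ := mul_le_mul_of_nonneg_right (by linarith) hρ.le
    have e2 : b * ρ ≤ b1 * ρ := mul_le_mul_of_nonneg_right (by linarith) hρ.le
    exact ⟨e1.trans hx.1, hx.2.trans e2⟩
  have i1 := integrableOn_msz_sq hH2 (isCompact_cAnn _ _) hsub2
  have i2 := integrableOn_vsz_sq hH2 (isCompact_cAnn _ _) hsub2
  obtain ⟨i4, k4⟩ := hLE2 ρ S v G M hρ hS (h2On_mono hH2 hsub1) (fun x hx => hv x (hsub1 hx))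
    k1 k2 i1 i2
  have i2' : IntegrableOn (fun x => vsz (G x) ^ 2) (cAnn (a * ρ) (b * ρ)) := i2.mono_set hsub3
  have k2' : (∫ x in cAnn (a * ρ) (b * ρ), vsz (G x) ^ 2) ≤ D * S ^ 2 * ρ := by
    refine le_trans ?_ k2
    exact setIntegral_mono_set i2 (Filter.Eventually.of_forall fun x => sq_nonneg _)
      hsub3.eventuallyLE
  have hmeas := aesm_vsz hH2 (isCompact_cAnn (a * ρ) (b * ρ)) (hsub3.trans hsub2)
  -- the elementary inequality
  have hpt : ∀ l t : ℝ, 0 < l → 0 ≤ t → t ^ 3 ≤ (l * t ^ 2 + l⁻¹ * t ^ 4) / 2 := by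
    intro l t hl ht
    have h1 : 0 ≤ l⁻¹ * (t * (t - l)) ^ 2 := by positivity
    have h2 : l⁻¹ * (t * (t - l)) ^ 2 = l⁻¹ * t ^ 4 - 2 * t ^ 3 * (l⁻¹ * l) + (l⁻¹ * l) * l * t ^ 2 := by
      ring
    rw [inv_mul_cancel₀ hl.ne'] at h2
    linarith
  have i3 : IntegrableOn (fun x => vsz (G x) ^ 3) (cAnn (a * ρ) (b * ρ)) := by
    refine Integrable.mono' (g := fun x => (1 * vsz (G x) ^ 2 + 1⁻¹ * vsz (G x) ^ 4) / 2) ?_
      (hmeas.pow 3) (Filter.Eventually.of_forall fun x => ?_)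
    · exact ((i2'.const_mul 1).add (i4.const_mul 1⁻¹)).div_const 2
    · rw [Real.norm_eq_abs, abs_of_nonneg (by have := vsz_nonneg (G x); positivity)]
      exact hpt 1 _ one_pos (vsz_nonneg _)
  refine ⟨i3, ?_⟩
  have key : ∀ l : ℝ, 0 < l → (∫ x in cAnn (a * ρ) (b * ρ), vsz (G x) ^ 3)
      ≤ (l * (D * S ^ 2 * ρ) + l⁻¹ * (E * S ^ 4 / ρ)) / 2 := by
    intro l hl
    have h1 : (∫ x in cAnn (a * ρ) (b * ρ), vsz (G x) ^ 3)
        ≤ ∫ x in cAnn (a * ρ) (b * ρ), (l * vsz (G x) ^ 2 + l⁻¹ * vsz (G x) ^ 4) / 2 :=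
      integral_mono i3 (((i2'.const_mul l).add (i4.const_mul l⁻¹)).div_const 2)
        fun x => hpt l _ hl (vsz_nonneg _)
    rw [integral_div, integral_add (i2'.const_mul l) (i4.const_mul l⁻¹), integral_const_mul,
      integral_const_mul] at h1
    have h2 : l * (∫ x in cAnn (a * ρ) (b * ρ), vsz (G x) ^ 2) ≤ l * (D * S ^ 2 * ρ) :=
      mul_le_mul_of_nonneg_left k2' hl.le
    have h3 : l⁻¹ * (∫ x in cAnn (a * ρ) (b * ρ), vsz (G x) ^ 4) ≤ l⁻¹ * (E * S ^ 4 / ρ) :=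
      mul_le_mul_of_nonneg_left k4 (by positivity)
    linarith
  rcases hS.eq_or_lt with hS0 | hSp
  · have := key 1 one_pos
    rw [← hS0] at this ⊢
    simpa using this
  · have h1 := key (S / ρ) (by positivity)
    have h2 : (S / ρ * (D * S ^ 2 * ρ) + (S / ρ)⁻¹ * (E * S ^ 4 / ρ)) / 2
        = (D + E) * S ^ 3 / 2 := by
      field_simp
    rw [h2] at h1
    have h3 : 0 ≤ (D + E) * S ^ 3 := by positivity
    linarith

end Pool.Agent.PFlow
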