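import Pool.Agent.PFlow.StmtsE2
import Pool.Agent.PFlow.M_L4

/-!
# Local `L⁴` bound of the gradient (module LE2)
-/

open MeasureTheory Filter Topology
open scoped ContDiff ENNReal Pointwise

namespace Pool.Agent.PFlow

open Pool.Agent.PenroseSph

namespace LE2M

theorem isOpen_ann (a b : ℝ) : IsOpen (Ann a b) :=
  (isOpen_lt continuous_const continuous_norm).inter (isOpen_lt continuous_norm continuous_const)

theorem isCompact_cann (a b : ℝ) : IsCompact (cAnn a b) := by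
  refine (isCompact_closedBall (0 : E3) b).of_isClosed_subset ?_ ?_
  · exact (isClosed_le continuous_const continuous_norm).inter
      (isClosed_le continuous_norm continuous_const)
  · intro x hx
    rw [mem_closedBall_zero_iff]
    exact hx.2

theorem smul_cann {ρ : ℝ} (hρ : 0 < ρ) (a b : ℝ) : ρ • cAnn a b = cAnn (a * ρ) (b * ρ) := by
  ext x
  rw [Set.mem_smul_set_iff_inv_smul_mem₀ hρ.ne']
  simp only [cAnn, Set.mem_setOf_eq, norm_smul, norm_inv, Real.norm_eq_abs, abs_of_pos hρ]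
  rw [inv_mul_eq_div, le_div_iff₀ hρ, div_le_iff₀ hρ]

theorem pd_scale (v : E3 → ℝ) (hv : Differentiable ℝ v) (ρ : ℝ) (i : Fin 3) (x : E3) :
    pd i (fun y => v (ρ • y)) x = ρ * pd i v (ρ • x) := by
  unfold pd
  have h1 : HasFDerivAt (fun y : E3 => ρ • y) (ρ • ContinuousLinearMap.id ℝ E3) x :=
    (hasFDerivAt_id x).const_smul ρ
  have h2 := (hv (ρ • x)).hasFDerivAt.comp x h1
  have h3 : fderiv ℝ (fun y => v (ρ • y)) x
      = (fderiv ℝ v (ρ • x)).comp (ρ • ContinuousLinearMap.id ℝ E3) := h2.fderiv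
  rw [h3]
  simp

theorem diff_of {f : E3 → ℝ} (h : ContDiff ℝ ∞ f) : Differentiable ℝ f :=
  h.differentiable (by simp)

theorem int_scale {ρ : ℝ} (hρ : 0 < ρ) (a b : ℝ) (f : E3 → ℝ) :
    ∫ x in cAnn a b, f (ρ • x) = (ρ ^ 3)⁻¹ * ∫ x in cAnn (a * ρ) (b * ρ), f x := by
  rw [Measure.setIntegral_comp_smul_of_pos (volume : Measure E3) f (cAnn a b) hρ, smul_cann hρ]
  simp

/-- The scaled inequality for smooth functions. -/
theorem scaled {a b a₁ b₁ : ℝ} (haa : a₁ < a) (hbb : b < b₁) :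
    ∃ C : ℝ, 0 ≤ C ∧ ∀ (ρ : ℝ) (v : E3 → ℝ) (S : ℝ), 0 < ρ → ContDiff ℝ ∞ v → 0 ≤ S →
      (∀ x ∈ cAnn (a₁ * ρ) (b₁ * ρ), |v x| ≤ S) → ∀ i,
      ∫ x in cAnn (a * ρ) (b * ρ), pd i v x ^ 4
        ≤ 18 * S ^ 2 * (∫ x in cAnn (a₁ * ρ) (b₁ * ρ), pd i (pd i v) x ^ 2) + C * S ^ 4 / ρ := by
  have hsub : cAnn a b ⊆ interior (cAnn a₁ b₁) := by
    have s1 : cAnn a b ⊆ Ann a₁ b₁ := fun x hx => ⟨haa.trans_le hx.1, hx.2.trans_lt hbb⟩
    have s2 : Ann a₁ b₁ ⊆ interior (cAnn a₁ b₁) :=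
      interior_maximal (fun x hx => ⟨hx.1.le, hx.2.le⟩) (isOpen_ann _ _)
    exact s1.trans s2
  obtain ⟨C, hC0, hC⟩ := ML4.main (isCompact_cann a b) (isCompact_cann a₁ b₁) hsub
  refine ⟨C, hC0, ?_⟩
  intro ρ v S hρ hv hS0 hS i
  have hv' : ContDiff ℝ ∞ (fun y : E3 => v (ρ • y)) := hv.comp (contDiff_const_smul ρ)
  have h1 := hC (fun y => v (ρ • y)) hv' S hS0 (by
    intro x hx
    refine hS _ ?_
    rw [← smul_cann hρ]
    exact Set.smul_mem_smul_set hx) i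
  have e1 : ∀ x, pd i (fun y => v (ρ • y)) x = ρ * pd i v (ρ • x) := pd_scale v (diff_of hv) ρ i
  have e2 : ∀ x, pd i (pd i (fun y => v (ρ • y))) x = ρ ^ 2 * pd i (pd i v) (ρ • x) := by
    intro x
    have : pd i (fun y => v (ρ • y)) = fun x => ρ * pd i v (ρ • x) := funext e1
    rw [this]
    have h3 : pd i (fun x => ρ * pd i v (ρ • x)) x = ρ * pd i (fun y => pd i v (ρ • y)) x := by
      unfold pd
      rw [fderiv_const_mul]
      · simp
      · exact ((diff_of (ML4.contDiff_pd hv i)).comp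
          (differentiable_id.const_smul ρ)) x
    rw [h3, pd_scale _ (diff_of (ML4.contDiff_pd hv i))]
    ring
  simp only [e1, e2, mul_pow] at h1
  rw [integral_const_mul, integral_const_mul, int_scale hρ a b (fun x => pd i v x ^ 4),
    int_scale hρ a₁ b₁ (fun x => pd i (pd i v) x ^ 2)] at h1
  have h4 : ρ ^ 4 * ((ρ ^ 3)⁻¹ * ∫ x in cAnn (a * ρ) (b * ρ), pd i v x ^ 4)
      = ρ * ∫ x in cAnn (a * ρ) (b * ρ), pd i v x ^ 4 := by
    field_simp
  have h5 : (ρ ^ 2) ^ 2 * ((ρ ^ 3)⁻¹ * ∫ x in cAnn (a₁ * ρ) (b₁ * ρ), pd i (pd i v) x ^ 2)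
      = ρ * ∫ x in cAnn (a₁ * ρ) (b₁ * ρ), pd i (pd i v) x ^ 2 := by
    field_simp
  rw [h4, h5] at h1
  have h6 : C * S ^ 4 = ρ * (C * S ^ 4 / ρ) := by field_simp
  rw [h6] at h1
  refine le_of_mul_le_mul_left ?_ hρ
  linarith

theorem tend_toReal {p : ℝ≥0∞} [Fact (1 ≤ p)] {μ : Measure E3} {F : ℕ → E3 → ℝ} {G : E3 → ℝ}
    (hF : ∀ n, MemLp (F n) p μ) (hG : MemLp G p μ)
    (h : Tendsto (fun n => eLpNorm (fun x => F n x - G x) p μ) atTop (𝓝 0)) :
    Tendsto (fun n => (eLpNorm (F n) p μ).toReal) atTop (𝓝 (eLpNorm G p μ).toReal) := by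
  have h1 : Tendsto (fun n => (hF n).toLp (F n)) atTop (𝓝 (hG.toLp G)) := by
    rw [Lp.tendsto_Lp_iff_tendsto_eLpNorm'']
    exact h
  have h2 := h1.norm
  simpa only [Lp.norm_toLp] using h2

theorem tend4 {μ : Measure E3} {F : ℕ → E3 → ℝ} {G : E3 → ℝ}
    (hF : ∀ n, MemLp (F n) 4 μ) (hG : MemLp G 4 μ)
    (h : Tendsto (fun n => eLpNorm (fun x => F n x - G x) 4 μ) atTop (𝓝 0)) :
    Tendsto (fun n => ∫ x, F n x ^ 4 ∂μ) atTop (𝓝 (∫ x, G x ^ 4 ∂μ)) := by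
  have : Fact ((1 : ℝ≥0∞) ≤ 4) := ⟨by norm_num⟩
  have key : ∀ f : E3 → ℝ, MemLp f 4 μ → (eLpNorm f 4 μ).toReal ^ 4 = ∫ x, f x ^ 4 ∂μ := by
    intro f hf
    have h0 : 0 ≤ ∫ x, f x ^ 4 ∂μ := integral_nonneg fun x => by positivity
    rw [ML4.eLp4 hf, ENNReal.toReal_ofReal (Real.rpow_nonneg h0 _), ← Real.rpow_natCast,
      ← Real.rpow_mul h0]
    norm_num
  have h1 := (tend_toReal hF hG h).pow 4
  rw [key G hG] at h1
  exact h1.congr fun n => key _ (hF n)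

theorem tend2' {μ : Measure E3} {F : ℕ → E3 → ℝ} {G : E3 → ℝ}
    (hF : ∀ n, MemLp (F n) 2 μ) (hG : MemLp G 2 μ)
    (h : Tendsto (fun n => eLpNorm (fun x => F n x - G x) 2 μ) atTop (𝓝 0)) :
    Tendsto (fun n => ∫ x, F n x ^ 2 ∂μ) atTop (𝓝 (∫ x, G x ^ 2 ∂μ)) := by
  have key : ∀ f : E3 → ℝ, MemLp f 2 μ → (eLpNorm f 2 μ).toReal ^ 2 = ∫ x, f x ^ 2 ∂μ := by
    intro f hf
    have h0 : 0 ≤ ∫ x, f x ^ 2 ∂μ := integral_nonneg fun x => by positivity
    rw [ML4.eLp2 hf, ENNReal.toReal_ofReal (Real.sqrt_nonneg _), Real.sq_sqrt h0]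
  have h1 := (tend_toReal hF hG h).pow 2
  rw [key G hG] at h1
  exact h1.congr fun n => key _ (hF n)

theorem vsz_four (p : Cov) : vsz p ^ 4 ≤ 3 * ∑ i, p i ^ 4 := by
  have h0 : 0 ≤ ∑ i, p i ^ 2 := Finset.sum_nonneg fun i _ => sq_nonneg _
  have h1 : vsz p ^ 4 = (∑ i, p i ^ 2) ^ 2 := by
    unfold vsz
    rw [show Real.sqrt (∑ i, p i ^ 2) ^ 4 = (Real.sqrt (∑ i, p i ^ 2) ^ 2) ^ 2 by ring,
      Real.sq_sqrt h0]
  rw [h1]
  simp only [Fin.sum_univ_three]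
  nlinarith [sq_nonneg (p 0 ^ 2 - p 1 ^ 2), sq_nonneg (p 0 ^ 2 - p 2 ^ 2),
    sq_nonneg (p 1 ^ 2 - p 2 ^ 2)]

theorem diag_le (B : Bil) (i : Fin 3) : B i i ^ 2 ≤ msz B ^ 2 := by
  have h0 : 0 ≤ ∑ i, ∑ j, B i j ^ 2 :=
    Finset.sum_nonneg fun i _ => Finset.sum_nonneg fun j _ => sq_nonneg _
  unfold msz
  rw [Real.sq_sqrt h0]
  calc B i i ^ 2 ≤ ∑ j, B i j ^ 2 :=
        Finset.single_le_sum (f := fun j => B i j ^ 2) (fun j _ => sq_nonneg _) (Finset.mem_univ i)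
    _ ≤ ∑ i, ∑ j, B i j ^ 2 :=
        Finset.single_le_sum (f := fun i => ∑ j, B i j ^ 2)
          (fun j _ => Finset.sum_nonneg fun j _ => sq_nonneg _) (Finset.mem_univ i)

end LE2M

open LE2M in
/-- Module LE2. -/
theorem LE2 : Stmt_LE2 := by
  intro C₁ a' a b b' hC₁ ha' haa hab hbb
  obtain ⟨C, hC0, hC⟩ := scaled (a := a) (b := b) (a₁ := (a' + a) / 2) (b₁ := (b + b') / 2)
    (by linarith) (by linarith)
  refine ⟨9 * (18 * C₁ + C) + 1, by positivity, ?_⟩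
  intro ρ S v G M hρ hS0 hH hbd hM hG iM iG
  have hs := L4 (Ann (a' * ρ) (b' * ρ)) v G M (isOpen_ann _ _) hH
  set K := cAnn ((a' + a) / 2 * ρ) ((b + b') / 2 * ρ) with hK
  set K₀ := cAnn (a * ρ) (b * ρ) with hK₀
  have hKc : IsCompact K := isCompact_cann _ _
  have hK₀c : IsCompact K₀ := isCompact_cann _ _
  have hKU : K ⊆ Ann (a' * ρ) (b' * ρ) := by
    intro x hx
    have h1 : a' * ρ < (a' + a) / 2 * ρ := mul_lt_mul_of_pos_right (by linarith) hρ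
    have h2 : (b + b') / 2 * ρ < b' * ρ := mul_lt_mul_of_pos_right (by linarith) hρ
    exact ⟨h1.trans_le hx.1, hx.2.trans_lt h2⟩
  have hK₀K : K₀ ⊆ K := by
    intro x hx
    have h1 : (a' + a) / 2 * ρ ≤ a * ρ := mul_le_mul_of_nonneg_right (by linarith) hρ.le
    have h2 : b * ρ ≤ (b + b') / 2 * ρ := mul_le_mul_of_nonneg_right (by linarith) hρ.le
    exact ⟨h1.trans hx.1, hx.2.trans h2⟩
  have hKA : K ⊆ cAnn (a' * ρ) (b' * ρ) := fun x hx => ⟨(hKU hx).1.le, (hKU hx).2.le⟩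
  have hmG : ∀ i, MemLp (fun x => G x i) 4 (volume.restrict K₀) := fun i =>
    hs.memG K₀ hK₀c (hK₀K.trans hKU) i
  obtain ⟨w, hw1, hw2, hw3, hw4⟩ := hs.approx K hKc hKU
  -- the integral of the square of the diagonal entries
  have hd : ∀ i, ∫ x in K, M x i i ^ 2 ≤ C₁ * S ^ 2 / ρ := by
    intro i
    refine le_trans ?_ hM
    have i1 : IntegrableOn (fun x => M x i i ^ 2) K :=
      (memLp_two_iff_integrable_sq (hs.memM K hKc hKU i i).1).1 (hs.memM K hKc hKU i i)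
    calc ∫ x in K, M x i i ^ 2 ≤ ∫ x in K, msz (M x) ^ 2 :=
          setIntegral_mono_on i1 (iM.mono_set hKA) hKc.measurableSet fun x _ => diag_le (M x) i
      _ ≤ ∫ x in cAnn (a' * ρ) (b' * ρ), msz (M x) ^ 2 :=
          setIntegral_mono_set iM (Eventually.of_forall fun x => sq_nonneg _)
            (Eventually.of_forall hKA)
  have hJ0 : ∀ i, 0 ≤ ∫ x in K, M x i i ^ 2 := fun i => integral_nonneg fun x => sq_nonneg _
  -- the bound for each component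
  have hcomp : ∀ i, ∫ x in K₀, G x i ^ 4 ≤ (18 * C₁ + C) * S ^ 4 / ρ := by
    intro i
    have t1 : Tendsto (fun n => ∫ x in K₀, pd i (w n) x ^ 4) atTop (𝓝 (∫ x in K₀, G x i ^ 4)) := by
      refine tend4 (fun n => ML4.memLp_cont hK₀c (ML4.contDiff_pd (hw1 n) i).continuous 4)
        (hmG i) ?_
      refine tendsto_of_tendsto_of_tendsto_of_le_of_le tendsto_const_nhds (hw3 i)
        (fun n => bot_le) (fun n => ?_)
      exact eLpNorm_mono_measure _ (Measure.restrict_mono hK₀K le_rfl)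
    have t2 : Tendsto (fun n => ∫ x in K, pd i (pd i (w n)) x ^ 2) atTop
        (𝓝 (∫ x in K, M x i i ^ 2)) := by
      refine tend2' (fun n => ML4.memLp_cont hKc
        (ML4.contDiff_pd (ML4.contDiff_pd (hw1 n) i) i).continuous 2) (hs.memM K hKc hKU i i) ?_
      exact hw4 i i
    have h1 : ∀ e : ℝ, 0 < e → ∫ x in K₀, G x i ^ 4
        ≤ 18 * (S + e) ^ 2 * (∫ x in K, M x i i ^ 2) + C * (S + e) ^ 4 / ρ := by
      intro e he
      have t3 : Tendsto (fun n => 18 * (S + e) ^ 2 * (∫ x in K, pd i (pd i (w n)) x ^ 2)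
          + C * (S + e) ^ 4 / ρ) atTop
          (𝓝 (18 * (S + e) ^ 2 * (∫ x in K, M x i i ^ 2) + C * (S + e) ^ 4 / ρ)) :=
        (t2.const_mul _).add_const _
      refine le_of_tendsto_of_tendsto t1 t3 ?_
      have h2 := (Metric.tendstoUniformlyOn_iff.1 hw2) e he
      filter_upwards [h2] with n hn
      refine hC ρ (w n) (S + e) hρ (hw1 n) (by linarith) ?_ i
      intro x hx
      have h3 := hn x hx
      rw [Real.dist_eq] at h3
      have h4 := hbd x (hKU hx)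
      have h5 : |w n x| ≤ |v x| + |v x - w n x| := by
        have := abs_sub_abs_le_abs_sub (w n x) (v x)
        rw [abs_sub_comm] at this
        linarith
      linarith
    have t4 : Tendsto (fun e : ℝ => 18 * (S + e) ^ 2 * (∫ x in K, M x i i ^ 2)
        + C * (S + e) ^ 4 / ρ) (𝓝[>] 0)
        (𝓝 (18 * S ^ 2 * (∫ x in K, M x i i ^ 2) + C * S ^ 4 / ρ)) := by
      have hc : Continuous (fun e : ℝ => 18 * (S + e) ^ 2 * (∫ x in K, M x i i ^ 2)
        + C * (S + e) ^ 4 / ρ) := by fun_prop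
      have := (hc.tendsto 0).mono_left (nhdsWithin_le_nhds (s := Set.Ioi 0))
      simpa using this
    have h6 : ∫ x in K₀, G x i ^ 4 ≤ 18 * S ^ 2 * (∫ x in K, M x i i ^ 2) + C * S ^ 4 / ρ := by
      refine ge_of_tendsto t4 ?_
      filter_upwards [self_mem_nhdsWithin] with e he
      exact h1 e he
    have h7 : 18 * S ^ 2 * (∫ x in K, M x i i ^ 2) ≤ 18 * S ^ 2 * (C₁ * S ^ 2 / ρ) :=
      mul_le_mul_of_nonneg_left (hd i) (by positivity)
    calc ∫ x in K₀, G x i ^ 4 ≤ 18 * S ^ 2 * (C₁ * S ^ 2 / ρ) + C * S ^ 4 / ρ := by linarith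
      _ = (18 * C₁ + C) * S ^ 4 / ρ := by ring
  have i4 : ∀ i, IntegrableOn (fun x => G x i ^ 4) K₀ := by
    intro i
    have h1 := (hmG i).integrable_norm_pow (p := 4) (by norm_num)
    refine h1.congr (Eventually.of_forall fun x => ?_)
    simp only [Real.norm_eq_abs]
    rw [show |G x i| ^ 4 = (|G x i| ^ 2) ^ 2 by ring, sq_abs]; ring
  have i5 : IntegrableOn (fun x => 3 * ∑ i, G x i ^ 4) K₀ :=
    (integrable_finsetSum _ fun i _ => i4 i).const_mul 3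
  have hme : AEStronglyMeasurable (fun x => vsz (G x) ^ 4) (volume.restrict K₀) := by
    have h1 : AEStronglyMeasurable (fun x => ∑ i, G x i ^ 2) (volume.restrict K₀) := by
      refine Finset.aestronglyMeasurable_fun_sum _ fun i _ => ?_
      exact (hmG i).1.pow 2
    exact (Real.continuous_sqrt.comp_aestronglyMeasurable h1).pow 4
  have i6 : IntegrableOn (fun x => vsz (G x) ^ 4) K₀ := by
    refine Integrable.mono' i5 hme (Eventually.of_forall fun x => ?_)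
    rw [Real.norm_eq_abs, abs_of_nonneg (by positivity)]
    exact vsz_four (G x)
  refine ⟨i6, ?_⟩
  calc ∫ x in K₀, vsz (G x) ^ 4 ≤ ∫ x in K₀, 3 * ∑ i, G x i ^ 4 :=
        integral_mono i6 i5 fun x => vsz_four (G x)
    _ = 3 * ∑ i, ∫ x in K₀, G x i ^ 4 := by
        rw [integral_const_mul, integral_finsetSum _ fun i _ => i4 i]
    _ ≤ 3 * ∑ _i : Fin 3, (18 * C₁ + C) * S ^ 4 / ρ :=
        mul_le_mul_of_nonneg_left (Finset.sum_le_sum fun i _ => hcomp i) (by norm_num)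
    _ = 9 * (18 * C₁ + C) * S ^ 4 / ρ := by
        rw [Finset.sum_const, Finset.card_univ, Fintype.card_fin]
        ring
    _ ≤ (9 * (18 * C₁ + C) + 1) * S ^ 4 / ρ := by
        have h8 : 0 ≤ S ^ 4 / ρ := by positivity
        have h9 : (9 * (18 * C₁ + C) + 1) * S ^ 4 / ρ
          = 9 * (18 * C₁ + C) * S ^ 4 / ρ + S ^ 4 / ρ := by ring
        linarith

end Pool.Agent.PFlow
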