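import Pool.Agent.PFlow.StmtsE5

/-!
# Module MAIN3: the main theorem with a competitor
-/

set_option autoImplicit false

open MeasureTheory Filter Topology
open scoped ContDiff ENNReal

namespace Pool.Agent.PFlow

open Pool.Agent.PenroseSph

/-- The energy density in terms of `required`. -/
lemma surplus_eq_required (g h : TensorField) (x : E3) :
    2 * surplus g h x = scalarCurvature g x - required g h x := by
  have h1 : traceWith g h x = trg g x (h x) := rfl
  have h2 : normSqWith g h x = nsq g x (h x) := rfl
  unfold surplus energyDensity required
  rw [h1, h2]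
  ring

/-- The dominant energy condition means that the surplus is nonnegative. -/
lemma dominantEnergy_iff_surplus (g h : TensorField) :
    DominantEnergy 0 g h ↔ ∀ x : E3, x ≠ 0 → 0 ≤ surplus g h x := by
  unfold DominantEnergy
  refine forall_congr' fun x => ?_
  rw [norm_pos_iff]
  refine imp_congr_right fun _ => ?_
  have h1 : Real.sqrt (∑ i, ∑ j, (g x)⁻¹ i j * momentumDensity g h i x * momentumDensity g h j x)
      = jlen g h x := rfl
  rw [h1]
  unfold surplus
  exact sub_nonneg.symm

/-- The dominant energy condition passes to a competitor. -/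
lemma Competitor.dominantEnergy {g h k : TensorField} (hk : Competitor g h k)
    (hDE : DominantEnergy 0 g h) : DominantEnergy 0 g k := by
  rw [dominantEnergy_iff_surplus] at hDE ⊢
  intro x hx
  have h1 := hDE x hx
  have h2 := hk.energy x hx
  have h3 := surplus_eq_required g h x
  have h4 := surplus_eq_required g k x
  linarith

/-- **MAIN3**: the main theorem with a competitor. -/
theorem MAIN3 (hMAIN2 : Stmt_MAIN2) : Stmt_MAIN3 := by
  rintro g h m hTE hDE ⟨k, hk⟩ hm
  exact hMAIN2 g k m ⟨hTE.metric, hk.tensor, hk.end_one, hk.end_two⟩ (hk.dominantEnergy hDE)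
    hk.plane hk.far hm

end Pool.Agent.PFlow
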