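import Pool.Agent.PFlow.StmtsE3
import Pool.Agent.PFlow.StmtsE1
import Pool.Agent.PFlow.StmtsE2

/-!
# MSIII: the inequality (iii) for the area
-/

open MeasureTheory Filter Topology
open scoped ContDiff ENNReal

namespace Pool.Agent.PFlow

open Pool.Agent.PenroseSph

namespace MSIIIaux

/-- The volume density is continuous away from the origin. -/
theorem continuousOn_volDen {g : TensorField} {U : Set E3} (hg : MetricOn U g) :
    ContinuousOn (volDen g) U := by
  have h1 : ContinuousOn (fun x => (g x).det) U := by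
    have : ContinuousOn (fun x => g x) U := by
      refine continuousOn_pi.2 fun i => continuousOn_pi.2 fun j => (hg.smooth i j).continuousOn
    exact (Continuous.matrix_det continuous_id).comp_continuousOn this
  exact h1.sqrt

/-- A closed annulus is compact. -/
theorem isCompact_cAnn (a b : ℝ) : IsCompact (cAnn a b) := by
  have h1 : IsClosed (cAnn a b) :=
    (isClosed_le continuous_const continuous_norm).inter
      (isClosed_le continuous_norm continuous_const)
  refine (isCompact_closedBall (0 : E3) b).of_isClosed_subset h1 fun x hx => ?_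
  rw [mem_closedBall_zero_iff]
  exact hx.2

end MSIIIaux

open MSIIIaux in
theorem MSIII (hSETW : Stmt_SETW) (hFLXA : Stmt_FLXA) (hHOLA : Stmt_HOLA) (hPER : Stmt_PER)
    (_hABSI : Stmt_ABSI) : Stmt_MSIII := by
  intro P B β hβ D hS hA ρ r hρ1 hρ2 hρ3 hr1 hr2 hloc
  obtain ⟨-, -, -, hH2, -, -, hwm, -, -, -, -, -, -, -, -, hsb0, hsb1, hsbe, hs2, hsM, -, -⟩ :=
    hSETW P D hS
  have he0 := hS.eps_pos
  have he1 := hS.eps_le
  have hgam := hS.gam_pos
  have hl := hS.l_ge
  have hk1 : 1 ≤ kE P.eps P.gam := by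
    unfold kE
    have : 1 ≤ Real.exp ((1 + 2 * P.gam) / (2 - P.eps)) :=
      Real.one_le_exp (div_nonneg (by linarith) (by linarith))
    linarith
  have hlR : D.l ≤ D.R := by
    have h1 : 1 ≤ kE P.eps P.gam ^ 4 := one_le_pow₀ hk1
    have h2 := hS.R_ge
    nlinarith
  have hsbs2 : D.sb P < D.s2 P := lt_of_le_of_lt hsb1 hs2
  have hs2M : D.s2 P + 1 < D.sM P := by linarith
  have hF := hFLXA P.eps β he0 he1 hβ _ _ _ _ _ _ _ _ _ _ _ _ hA hsb0 hsbs2 hs2M
  refine ⟨hF.1, ?_⟩
  intro s₀ s₁ A hs0 hs01 hs1 hAU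
  have hρ0 : 0 < ρ := by
    have : 0 < 1 / D.R := by
      have : 0 < D.R := by linarith
      positivity
    linarith
  have hρr : ρ < r := by linarith
  -- the perimeter inequality
  have hP := hPER D.g (D.w P) (D.Gw P) (D.Mw P) (1 / D.R) ρ r D.R s₀ s₁ hS.metric0
    (by have : 0 < D.R := by linarith
        positivity) hρ1 hρr (by linarith) hs01 hH2
    (fun x hx hxρ => lt_of_lt_of_le ((hloc x hx).1 hxρ) hs0)
    (fun x hx hxr => lt_of_le_of_lt hs1 ((hloc x hx).2 hxr)) A hAU
  set T : Set E3 := cAnn ρ r ∩ {x | s₀ ≤ D.w P x ∧ D.w P x ≤ s₁} with hT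
  have hcO : cAnn ρ r ⊆ D.Om := fun x hx => ⟨lt_of_lt_of_le hρ1 hx.1, by
    have := hx.2
    show ‖x‖ < D.R
    linarith⟩
  have hTO : D.Om ∩ {x | s₀ ≤ D.w P x ∧ D.w P x ≤ s₁} = T := by
    apply Set.Subset.antisymm
    · rintro x ⟨hxO, hx1, hx2⟩
      refine ⟨⟨?_, ?_⟩, hx1, hx2⟩
      · by_contra hc
        push Not at hc
        have := (hloc x hxO).1 hc.le
        linarith
      · by_contra hc
        push Not at hc
        have := (hloc x hxO).2 hc.le
        linarith
    · rintro x ⟨hxc, hx⟩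
      exact ⟨hcO hxc, hx⟩
  have hsame : ∀ x ∈ cAnn ρ r, D.g' x = D.g x := fun x hx =>
    hS.modified.same x (lt_of_lt_of_le hρ2 hx.1) (lt_of_le_of_lt hx.2 hr2)
  have hTm : MeasurableSet T := by
    rw [hT]
    exact (isCompact_cAnn ρ r).measurableSet.inter
      ((measurableSet_le measurable_const hwm).inter (measurableSet_le hwm measurable_const))
  have heq : ∫ x in T, len D.g x (D.Gw P x) * volDen D.g x = ∫ x in T, D.X P x * D.vol x := by
    refine setIntegral_congr_fun hTm fun x hx => ?_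
    simp only [Dat.X, Dat.vol, len, volDen]
    rw [hsame x hx.1]
  rw [heq] at hP
  -- integrability
  have hs0' : D.sb P / 4 < s₀ := by linarith
  have hs1' : s₁ < D.sM P := by linarith
  have hiv : IntegrableOn D.vol T := by
    have := hA.int_vol s₀ s₁ hs0' hs01 hs1'
    rwa [hTO] at this
  have hiX : IntegrableOn (fun x => D.X P x ^ 3 * D.vol x) T := by
    have := hA.int_X s₀ s₁ hs0' hs01 hs1'
    rwa [hTO] at this
  have hTsub : T ⊆ D.Om := fun x hx => hcO hx.1
  have hmX : AEStronglyMeasurable (D.X P) (volume.restrict T) :=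
    hA.meas_X.mono_measure (Measure.restrict_mono hTsub le_rfl)
  have hmXe : AEStronglyMeasurable (fun x => D.X P x ^ (1 + P.eps)) (volume.restrict T) := by
    have : Measurable fun t : ℝ => t ^ (1 + P.eps) := by fun_prop
    exact (this.comp_aemeasurable hmX.aemeasurable).aestronglyMeasurable
  have hiXe : IntegrableOn (fun x => D.X P x ^ (1 + P.eps) * D.vol x) T := by
    refine Integrable.mono' (hiv.add hiX) (hmXe.mul hiv.aestronglyMeasurable) ?_
    refine Filter.Eventually.of_forall fun x => ?_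
    have hX0 := hA.X_nonneg x
    have hv0 := hA.vol_nonneg x
    have h1 : D.X P x ^ (1 + P.eps) ≤ 1 + D.X P x ^ 3 := by
      rcases le_total (D.X P x) 1 with h | h
      · have h2 : D.X P x ^ (1 + P.eps) ≤ 1 := Real.rpow_le_one hX0 h (by linarith)
        have h3 : 0 ≤ D.X P x ^ 3 := pow_nonneg hX0 3
        linarith
      · have h2 : D.X P x ^ (1 + P.eps) ≤ D.X P x ^ (3 : ℝ) :=
          Real.rpow_le_rpow_of_exponent_le h (by linarith)
        have h3 : D.X P x ^ (3 : ℝ) = D.X P x ^ (3 : ℕ) := by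
          rw [← Real.rpow_natCast]; norm_num
        rw [h3] at h2
        linarith
    have h0 : 0 ≤ D.X P x ^ (1 + P.eps) * D.vol x := mul_nonneg (Real.rpow_nonneg hX0 _) hv0
    rw [Real.norm_eq_abs, abs_of_nonneg h0]
    calc D.X P x ^ (1 + P.eps) * D.vol x ≤ (1 + D.X P x ^ 3) * D.vol x :=
          mul_le_mul_of_nonneg_right h1 hv0
      _ = (D.vol + fun x => D.X P x ^ 3 * D.vol x) x := by
          simp only [Pi.add_apply]; ring
  -- the flux
  have hI : (∫ x in T, D.X P x ^ (1 + P.eps) * D.vol x)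
      ≤ jInf P.eps β D.Om D.vol (D.w P) (D.X P) (D.s2 P) * (Real.exp s₁ - Real.exp s₀) := by
    have := hF.2 s₀ s₁ hs0' hs01.le (by linarith)
    rwa [hTO] at this
  -- the volume
  have hV : (∫ x in T, D.vol x) ≤ ∫ x in cAnn ρ r, volDen D.g x := by
    have h1 : ∫ x in T, D.vol x = ∫ x in T, volDen D.g x := by
      refine setIntegral_congr_fun hTm fun x hx => ?_
      simp only [Dat.vol, volDen]
      rw [hsame x hx.1]
    rw [h1]
    refine setIntegral_mono_set ?_ ?_ ?_
    · refine ContinuousOn.integrableOn_compact (isCompact_cAnn ρ r) ?_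
      refine (continuousOn_volDen hS.metric0).mono fun x hx => ?_
      have h2 : 0 < ‖x‖ := lt_of_lt_of_le hρ0 hx.1
      exact norm_pos_iff.1 h2
    · exact Filter.Eventually.of_forall fun x => Real.sqrt_nonneg _
    · exact Filter.Eventually.of_forall fun x hx => hx.1
  have hH := hHOLA P.eps T D.vol (D.X P) _ _ he0 (by linarith) hTm hA.vol_nonneg hA.X_nonneg hiv
    hiXe hmX hI hV
  exact hP.trans hH.2

end Pool.Agent.PFlow
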