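import Pool.Agent.PFlow.StmtsE2
import Pool.Agent.PFlow.M_FR

/-!
# Module PTD: pointwise properties of the dissipation
-/

open MeasureTheory Filter Topology
open scoped ContDiff

namespace Pool.Agent.PFlow

open Pool.Agent.PenroseSph

namespace EPTD

/-! ## Algebra in an orthonormal frame -/

/-- The Frobenius norm bounds the mixed part and the trace part. -/
theorem bessel (B : Bil) (hB : B.IsSymm) (n : Cov) (N T : ℝ) (hn : ∑ i, n i * n i = 1)
    (hN : ∑ i, ∑ j, B i j * n i * n j = N) (hT : ∑ i, B i i = T + N) :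
    2 * (∑ i, (∑ j, B i j * n j) ^ 2) - N ^ 2 + T ^ 2 / 2 ≤ ∑ i, ∑ j, B i j * B i j := by
  have key : 0 ≤ ∑ i : Fin 3, ∑ j : Fin 3,
      (B i j - n i * (∑ k, B j k * n k) - (∑ k, B i k * n k) * n j
        + (N + T / 2) * (n i * n j) - T / 2 * (if i = j then 1 else 0)) ^ 2 :=
    Finset.sum_nonneg fun i _ => Finset.sum_nonneg fun j _ => sq_nonneg _
  have h01 : ¬ ((0 : Fin 3) = 1) := by decide
  have h02 : ¬ ((0 : Fin 3) = 2) := by decide
  have h10 : ¬ ((1 : Fin 3) = 0) := by decide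
  have h12 : ¬ ((1 : Fin 3) = 2) := by decide
  have h20 : ¬ ((2 : Fin 3) = 0) := by decide
  have h21 : ¬ ((2 : Fin 3) = 1) := by decide
  have s10 : B 1 0 = B 0 1 := hB.apply 0 1
  have s20 : B 2 0 = B 0 2 := hB.apply 0 2
  have s21 : B 2 1 = B 1 2 := hB.apply 1 2
  simp only [Fin.sum_univ_three, if_true, if_neg h01, if_neg h02, if_neg h10, if_neg h12,
    if_neg h20, if_neg h21, s10, s20, s21] at key hn hN hT ⊢
  generalize hb0 : B 0 0 * n 0 + B 0 1 * n 1 + B 0 2 * n 2 = b0 at key ⊢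
  generalize hb1 : B 0 1 * n 0 + B 1 1 * n 1 + B 1 2 * n 2 = b1 at key ⊢
  generalize hb2 : B 0 2 * n 0 + B 1 2 * n 1 + B 2 2 * n 2 = b2 at key ⊢
  have hf : b0 * n 0 + b1 * n 1 + b2 * n 2 = N := by
    rw [← hN, ← hb0, ← hb1, ← hb2]
    ring
  have e : (B 0 0 - n 0 * b0 - b0 * n 0 + (N + T / 2) * (n 0 * n 0) - T / 2 * 1) ^ 2 +
            (B 0 1 - n 0 * b1 - b0 * n 1 + (N + T / 2) * (n 0 * n 1) - T / 2 * 0) ^ 2 +
          (B 0 2 - n 0 * b2 - b0 * n 2 + (N + T / 2) * (n 0 * n 2) - T / 2 * 0) ^ 2 +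
        ((B 0 1 - n 1 * b0 - b1 * n 0 + (N + T / 2) * (n 1 * n 0) - T / 2 * 0) ^ 2 +
            (B 1 1 - n 1 * b1 - b1 * n 1 + (N + T / 2) * (n 1 * n 1) - T / 2 * 1) ^ 2 +
          (B 1 2 - n 1 * b2 - b1 * n 2 + (N + T / 2) * (n 1 * n 2) - T / 2 * 0) ^ 2) +
      ((B 0 2 - n 2 * b0 - b2 * n 0 + (N + T / 2) * (n 2 * n 0) - T / 2 * 0) ^ 2 +
          (B 1 2 - n 2 * b1 - b2 * n 1 + (N + T / 2) * (n 2 * n 1) - T / 2 * 0) ^ 2 +
        (B 2 2 - n 2 * b2 - b2 * n 2 + (N + T / 2) * (n 2 * n 2) - T / 2 * 1) ^ 2)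
      = B 0 0 * B 0 0 + B 0 1 * B 0 1 + B 0 2 * B 0 2
        + (B 0 1 * B 0 1 + B 1 1 * B 1 1 + B 1 2 * B 1 2)
        + (B 0 2 * B 0 2 + B 1 2 * B 1 2 + B 2 2 * B 2 2)
        - 2 * (b0 ^ 2 + b1 ^ 2 + b2 ^ 2) + N ^ 2 - T ^ 2 / 2 := by
    linear_combination (2 * (b0 ^ 2 + b1 ^ 2 + b2 ^ 2)
        + (N + T / 2) ^ 2 * (1 + (n 0 * n 0 + n 1 * n 1 + n 2 * n 2))
        - 4 * (N + T / 2) * (b0 * n 0 + b1 * n 1 + b2 * n 2) - 2 * (N + T / 2) * (T / 2)) * hn
      - (4 * b0 - 2 * (N + T / 2) * n 0) * hb0 - (4 * b1 - 2 * (N + T / 2) * n 1) * hb1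
      - (4 * b2 - 2 * (N + T / 2) * n 2) * hb2
      - (2 * (N + T / 2) - 4 * N + 2 * (N - (b0 * n 0 + b1 * n 1 + b2 * n 2)) - 4 * (T / 2)) * hf
      - 2 * (T / 2) * hT
  linarith

/-- Positivity of `tr K + K(n,n)` when the traces over all planes are nonnegative. -/
theorem plane_pos (K : Bil) (n : Cov) (hn : ∑ i, n i * n i = 1)
    (hK : ∀ w : Cov, ev K w w ≤ (∑ i, K i i) * ∑ i, w i * w i) :
    0 ≤ (∑ i, K i i) + ∑ i, ∑ j, K i j * n i * n j := by
  have h0 := hK (fun i => (if i = 0 then 1 else 0) - n 0 * n i)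
  have h1 := hK (fun i => (if i = 1 then 1 else 0) - n 1 * n i)
  have h2 := hK (fun i => (if i = 2 then 1 else 0) - n 2 * n i)
  have h01 : ¬ ((0 : Fin 3) = 1) := by decide
  have h02 : ¬ ((0 : Fin 3) = 2) := by decide
  have h10 : ¬ ((1 : Fin 3) = 0) := by decide
  have h12 : ¬ ((1 : Fin 3) = 2) := by decide
  have h20 : ¬ ((2 : Fin 3) = 0) := by decide
  have h21 : ¬ ((2 : Fin 3) = 1) := by decide
  unfold ev at h0 h1 h2
  simp only [Fin.sum_univ_three, if_true, if_neg h01, if_neg h02, if_neg h10, if_neg h12,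
    if_neg h20, if_neg h21] at h0 h1 h2 hn ⊢
  generalize hS : K 0 0 + K 1 1 + K 2 2 = S at h0 h1 h2 ⊢
  generalize hQ : K 0 0 * n 0 * n 0 + K 0 1 * n 0 * n 1 + K 0 2 * n 0 * n 2 +
    (K 1 0 * n 1 * n 0 + K 1 1 * n 1 * n 1 + K 1 2 * n 1 * n 2) +
    (K 2 0 * n 2 * n 0 + K 2 1 * n 2 * n 1 + K 2 2 * n 2 * n 2) = Q
  have h3 := add_le_add (add_le_add h0 h1) h2
  have e : S + Q = (S * ((1 - n 0 * n 0) * (1 - n 0 * n 0) + (0 - n 0 * n 1) * (0 - n 0 * n 1)
      + (0 - n 0 * n 2) * (0 - n 0 * n 2))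
      + S * ((0 - n 1 * n 0) * (0 - n 1 * n 0) + (1 - n 1 * n 1) * (1 - n 1 * n 1)
      + (0 - n 1 * n 2) * (0 - n 1 * n 2))
      + S * ((0 - n 2 * n 0) * (0 - n 2 * n 0) + (0 - n 2 * n 1) * (0 - n 2 * n 1)
      + (1 - n 2 * n 2) * (1 - n 2 * n 2)))
      - (K 0 0 * (1 - n 0 * n 0) * (1 - n 0 * n 0) + K 0 1 * (1 - n 0 * n 0) * (0 - n 0 * n 1)
        + K 0 2 * (1 - n 0 * n 0) * (0 - n 0 * n 2)
        + (K 1 0 * (0 - n 0 * n 1) * (1 - n 0 * n 0) + K 1 1 * (0 - n 0 * n 1) * (0 - n 0 * n 1)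
        + K 1 2 * (0 - n 0 * n 1) * (0 - n 0 * n 2))
        + (K 2 0 * (0 - n 0 * n 2) * (1 - n 0 * n 0) + K 2 1 * (0 - n 0 * n 2) * (0 - n 0 * n 1)
        + K 2 2 * (0 - n 0 * n 2) * (0 - n 0 * n 2))
      + (K 0 0 * (0 - n 1 * n 0) * (0 - n 1 * n 0) + K 0 1 * (0 - n 1 * n 0) * (1 - n 1 * n 1)
        + K 0 2 * (0 - n 1 * n 0) * (0 - n 1 * n 2)
        + (K 1 0 * (1 - n 1 * n 1) * (0 - n 1 * n 0) + K 1 1 * (1 - n 1 * n 1) * (1 - n 1 * n 1)
        + K 1 2 * (1 - n 1 * n 1) * (0 - n 1 * n 2))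
        + (K 2 0 * (0 - n 1 * n 2) * (0 - n 1 * n 0) + K 2 1 * (0 - n 1 * n 2) * (1 - n 1 * n 1)
        + K 2 2 * (0 - n 1 * n 2) * (0 - n 1 * n 2)))
      + (K 0 0 * (0 - n 2 * n 0) * (0 - n 2 * n 0) + K 0 1 * (0 - n 2 * n 0) * (0 - n 2 * n 1)
        + K 0 2 * (0 - n 2 * n 0) * (1 - n 2 * n 2)
        + (K 1 0 * (0 - n 2 * n 1) * (0 - n 2 * n 0) + K 1 1 * (0 - n 2 * n 1) * (0 - n 2 * n 1)
        + K 1 2 * (0 - n 2 * n 1) * (1 - n 2 * n 2))
        + (K 2 0 * (1 - n 2 * n 2) * (0 - n 2 * n 0) + K 2 1 * (1 - n 2 * n 2) * (0 - n 2 * n 1)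
        + K 2 2 * (1 - n 2 * n 2) * (1 - n 2 * n 2)))) := by
    linear_combination hS - (2 - (n 0 * n 0 + n 1 * n 1 + n 2 * n 2)) * hQ
      + (Q - S * (n 0 * n 0 + n 1 * n 1 + n 2 * n 2 - 1)) * hn
  rw [e]
  linarith

theorem plm_entry (A C : Bil) (i j : Fin 3) :
    plm A C i j = ∑ k, ∑ l, A k i * C k l * A l j := by
  unfold plm
  rw [Matrix.mul_apply]
  simp only [Matrix.mul_apply, Matrix.transpose_apply, Finset.sum_mul]
  exact Finset.sum_comm

theorem ev_mulVec (A C : Bil) (w : Cov) :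
    ev C (A.mulVec w) (A.mulVec w) = ev (plm A C) w w := by
  unfold ev
  simp only [plm_entry, Matrix.mulVec, dotProduct, Fin.sum_univ_three]
  ring

theorem plv_div (A : Bil) (f : Cov) (c : ℝ) (i : Fin 3) :
    plv A (fun i => f i / c) i = plv A f i / c := by
  unfold plv
  rw [Finset.sum_div]
  exact Finset.sum_congr rfl fun j _ => by ring

theorem ev_div (B : Bil) (v : Cov) (c : ℝ) :
    ev B (fun i => v i / c) (fun i => v i / c) = ev B v v / c ^ 2 := by
  unfold ev
  rw [Finset.sum_div]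
  refine Finset.sum_congr rfl fun i _ => ?_
  rw [Finset.sum_div]
  refine Finset.sum_congr rfl fun j _ => ?_
  ring

theorem plm_sub (A C D : Bil) : plm A (C - D) = plm A C - plm A D := by
  unfold plm
  rw [Matrix.mul_sub, Matrix.sub_mul]

theorem plm_smul (A C : Bil) (c : ℝ) : plm A (c • C) = c • plm A C := by
  unfold plm
  rw [Matrix.mul_smul, Matrix.smul_mul]

/-- An orthonormal frame at a point, with the unit vector `n` in the direction of `p`. -/
theorem frame (g : TensorField) (x : E3) (hg : (g x).PosDef) (p : Cov) (hp : p ≠ 0) :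
    ∃ (A : Bil) (n : Cov), 0 < len g x p ∧ ∑ i, n i * n i = 1 ∧
      (∀ i, plv A p i = len g x p * n i) ∧
      (∀ C, bnn g x p C = ∑ i, ∑ j, plm A C i j * n i * n j) ∧
      (∀ C, trg g x C = ∑ i, plm A C i i) ∧
      (∀ C, nsq g x C = ∑ i, ∑ j, plm A C i j * plm A C i j) ∧
      (∀ C : Bil, C.IsSymm → (plm A C).IsSymm) ∧
      (∀ q, ev (g x)⁻¹ q q = ∑ i, plv A q i * plv A q i) ∧
      (∀ (C : Bil) i, plv A (fun i => ∑ j, C i j * nrm g x p j) i = ∑ j, plm A C i j * n j) ∧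
      plm A (g x) = 1 := by
  obtain ⟨A, hdet, hP, hev, htr, hdd, hqf, happ, hsymm, hne⟩ := FR (g x)⁻¹ hg.inv
  have hv := hne p hp
  have hlen : len g x p ^ 2 = ∑ i, plv A p i * plv A p i := by
    unfold len
    rw [Real.sq_sqrt]
    · exact hev p p
    · rw [hev p p]
      exact Finset.sum_nonneg fun i _ => mul_self_nonneg _
  have hpos : 0 < ∑ i, plv A p i * plv A p i := by
    obtain ⟨i, hi⟩ := Function.ne_iff.mp hv
    refine Finset.sum_pos' (fun i _ => mul_self_nonneg _) ⟨i, Finset.mem_univ i, ?_⟩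
    exact mul_self_pos.mpr hi
  have hlen0 : 0 < len g x p := by
    refine lt_of_le_of_ne (Real.sqrt_nonneg _) fun h0 => ?_
    have h0' : len g x p = 0 := h0.symm
    rw [h0'] at hlen
    rw [← hlen] at hpos
    norm_num at hpos
  refine ⟨A, fun i => plv A p i / len g x p, hlen0, ?_, ?_, ?_, htr, fun C => hdd C C, hsymm,
    fun q => hev q q, ?_, ?_⟩
  · have h3 : ∀ i, plv A p i / len g x p * (plv A p i / len g x p) =
        plv A p i * plv A p i / len g x p ^ 2 := by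
      intro i
      ring
    rw [Finset.sum_congr rfl fun i _ => h3 i, ← Finset.sum_div, hlen, div_self hpos.ne']
  · intro i
    field_simp
  · intro C
    have h1 : bnn g x p C = ev C (raise g x p) (raise g x p) / len g x p ^ 2 :=
      ev_div C (raise g x p) (len g x p)
    have h2 : ev C (raise g x p) (raise g x p) = ev (plm A C) (plv A p) (plv A p) := hqf C p
    rw [h1, h2]
    exact (ev_div (plm A C) (plv A p) (len g x p)).symm
  · intro C i
    have h1 : (fun i => ∑ j, C i j * nrm g x p j) = fun i => app (g x)⁻¹ C p i / len g x p := by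
      funext i
      unfold app
      rw [Finset.sum_div]
      refine Finset.sum_congr rfl fun j _ => ?_
      have h2 : nrm g x p j = up (g x)⁻¹ p j / len g x p := rfl
      rw [h2]
      ring
    rw [h1, plv_div, happ C p, Finset.sum_div]
    refine Finset.sum_congr rfl fun j _ => ?_
    ring
  · have h1 : (g x)⁻¹ * g x = 1 := Matrix.nonsing_inv_mul _
      ((Matrix.isUnit_iff_isUnit_det _).1 hg.isUnit)
    rw [hP, Matrix.mul_assoc] at h1
    unfold plm
    exact mul_eq_one_comm.1 h1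

/-- The frame version of the plane conditions. -/
theorem plane_frame {g h : TensorField} {x : E3} {A : Bil}
    (htr : trg g x (h x) = ∑ i, plm A (h x) i i) (hA : plm A (g x) = 1)
    (hpl : ∀ v : Cov, ev (g x) v v = 1 → ev (h x) v v ≤ trg g x (h x)) (w : Cov) :
    ev (plm A (h x)) w w ≤ (∑ i, plm A (h x) i i) * ∑ i, w i * w i := by
  have hw0 : 0 ≤ ∑ i, w i * w i := Finset.sum_nonneg fun i _ => mul_self_nonneg _
  rcases hw0.eq_or_lt with h0 | hpos
  · have hw : w = 0 := by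
      funext i
      have h1 := (Finset.sum_eq_zero_iff_of_nonneg fun i _ => mul_self_nonneg (w i)).1 h0.symm i
        (Finset.mem_univ i)
      exact mul_self_eq_zero.1 h1
    subst hw
    unfold ev
    simp
  · have hr : 0 < Real.sqrt (∑ i, w i * w i) := Real.sqrt_pos.2 hpos
    have hr2 : Real.sqrt (∑ i, w i * w i) ^ 2 = ∑ i, w i * w i := Real.sq_sqrt hw0
    have h1 := hpl (A.mulVec fun i => w i / Real.sqrt (∑ i, w i * w i)) (by
      rw [ev_mulVec, hA, ev_div, hr2]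
      have h2 : ev (1 : Bil) w w = ∑ i, w i * w i := by
        unfold ev
        refine Finset.sum_congr rfl fun i _ => ?_
        rw [Finset.sum_eq_single i]
        · rw [Matrix.one_apply_eq, one_mul]
        · intro j _ hj
          rw [Matrix.one_apply_ne hj.symm]
          ring
        · intro hi
          exact absurd (Finset.mem_univ i) hi
      rw [h2, div_self hpos.ne'])
    rw [ev_mulVec, ev_div, hr2, htr, div_le_iff₀ hpos] at h1
    exact h1

theorem sq_split (c X t n b k : ℝ) :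
    (c * X * n + t * (b + k)) ^ 2
      ≤ 2 * (1 - t) ^ 2 * c ^ 2 * X ^ 2 * (n * n)
        + 4 * t ^ 2 * (c ^ 2 * X ^ 2 * (n * n) + 2 * c * X * (b * n) + b ^ 2) + 4 * t ^ 2 * k ^ 2 := by
  nlinarith [sq_nonneg ((1 - t) * c * X * n - t * (c * X * n + b + k)),
    mul_nonneg (sq_nonneg t) (sq_nonneg (c * X * n + b - k))]

theorem cHess_symm {g : TensorField} {x : E3} {p : Cov} {M : Bil} (hM : M.IsSymm)
    (hch : ∀ k i j, christoffel g k i j x = christoffel g k j i x) :
    (cHess g x p M).IsSymm := by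
  refine Matrix.IsSymm.ext fun i j => ?_
  unfold cHess
  simp only [Matrix.of_apply]
  rw [hM.apply i j]
  congr 1
  exact Finset.sum_congr rfl fun k _ => by rw [hch k j i]

end EPTD

open EPTD in
/-- **(PTD)** Pointwise properties of the dissipation. -/
theorem PTD : Stmt_PTD := by
  intro ε hε hε2
  refine ⟨8 / ε, by positivity, ?_⟩
  intro g h x p M hg hh hM hch hp hpl heq
  obtain ⟨A, n, hX, hn, hpA, hbnn, htrg, hnsq, hsymm, hev, hplv, hA⟩ := frame g x hg p hp
  have hH : (cHess g x p M).IsSymm := cHess_symm hM hch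
  have hB : (tenB g h x p M).IsSymm := by
    unfold tenB
    exact (hH.smul _).sub hh
  have hBf : plm A (tenB g h x p M)
      = (len g x p)⁻¹ • plm A (cHess g x p M) - plm A (h x) := by
    unfold tenB
    rw [plm_sub, plm_smul]
  have hbt : ∀ C, btan g x p C = trg g x C - bnn g x p C := fun C => rfl
  set X := len g x p with hXdef
  -- linearity
  have hbnnB : bnn g x p (tenB g h x p M)
      = X⁻¹ * bnn g x p (cHess g x p M) - bnn g x p (h x) := by
    rw [hbnn, hbnn, hbnn, hBf]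
    simp only [Matrix.sub_apply, Matrix.smul_apply, smul_eq_mul, Fin.sum_univ_three]
    ring
  have htrB : trg g x (tenB g h x p M) = X⁻¹ * trg g x (cHess g x p M) - trg g x (h x) := by
    rw [htrg, htrg, htrg, hBf]
    simp only [Matrix.sub_apply, Matrix.smul_apply, smul_eq_mul, Fin.sum_univ_three]
    ring
  -- the equation
  have hE : btan g x p (tenB g h x p M) + ε * bnn g x p (tenB g h x p M) = X := by
    have e1 : beps ε g x p (cHess g x p M)
        = trg g x (cHess g x p M) - (1 - ε) * bnn g x p (cHess g x p M) := rfl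
    have e2 : beps ε g x p (h x) = trg g x (h x) - (1 - ε) * bnn g x p (h x) := rfl
    rw [e1, e2] at heq
    rw [hbt, htrB, hbnnB]
    have e3 : trg g x (cHess g x p M) = (1 - ε) * bnn g x p (cHess g x p M) + (X ^ 2
        + X * (trg g x (h x) - (1 - ε) * bnn g x p (h x))) := by linarith
    rw [e3]
    field_simp
    ring
  generalize hz : zed ε g h x p M = z
  generalize hN : bnn g x p (tenB g h x p M) = N at hE
  generalize hT : btan g x p (tenB g h x p M) = T at hE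
  have h2e : 0 < 2 - ε := by linarith
  have hzT : z = T - 2 * X / (2 - ε) := by
    rw [← hz, ← hT]
    rfl
  have hNz : N + 1 / (2 - ε) * X = -z / ε := by
    rw [hzT]
    have : N = (X - T) / ε := by
      field_simp
      linarith
    rw [this]
    field_simp
    ring
  -- the algebraic inequality
  have hNs : ∑ i, ∑ j, plm A (tenB g h x p M) i j * n i * n j = N := by rw [← hN, hbnn]
  have hbes := bessel (plm A (tenB g h x p M)) (hsymm _ hB) n N T hn hNs (by
    rw [← htrg, ← hT, hbt, hN]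
    ring)
  rw [← hnsq] at hbes
  have hbn : ∑ i, (∑ j, plm A (tenB g h x p M) i j * n j) * n i = N := by
    rw [← hNs]
    refine Finset.sum_congr rfl fun i _ => ?_
    rw [Finset.sum_mul]
    exact Finset.sum_congr rfl fun j _ => by ring
  have hcs : N ^ 2 ≤ ∑ i, (∑ j, plm A (tenB g h x p M) i j * n j) ^ 2 := by
    rw [← hbn]
    have h1 := Finset.sum_mul_sq_le_sq_mul_sq Finset.univ
      (fun i => ∑ j, plm A (tenB g h x p M) i j * n j) n
    have h2 : ∑ i, n i ^ 2 = 1 := by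
      rw [← hn]
      exact Finset.sum_congr rfl fun i _ => by ring
    rw [h2, mul_one] at h1
    exact h1
  -- the plane condition
  have hplane : 0 ≤ bnn g x p (h x) + btan g x p (h x) / 2 := by
    have h1 := plane_pos (plm A (h x)) n hn (plane_frame (htrg _) hA hpl)
    rw [← htrg, ← hbnn] at h1
    rw [hbt]
    linarith
  generalize hb2 : ∑ i, (∑ j, plm A (tenB g h x p M) i j * n j) ^ 2 = b2 at hbes hcs
  have hdiss : diss ε g h x p M = nsq g x (tenB g h x p M) / 2 - N ^ 2 / 2 - T ^ 2 / 4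
      + (1 / ε - 1 / 4) * z ^ 2
      + 2 * (bnn g x p (h x) + btan g x p (h x) / 2) * X / (2 - ε) := by
    rw [← hN, ← hT, ← hz]
    rfl
  have hlow : (b2 - N ^ 2) + (1 / ε - 1 / 4) * z ^ 2 ≤ diss ε g h x p M := by
    rw [hdiss]
    have h1 : 0 ≤ 2 * (bnn g x p (h x) + btan g x p (h x) / 2) * X / (2 - ε) := by positivity
    linarith
  have hc1 : 3 / (4 * ε) ≤ 1 / ε - 1 / 4 := by
    have e1 : 1 / ε - 1 / 4 - 3 / (4 * ε) = (1 - ε) / (4 * ε) := by
      field_simp
      ring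
    have e2 : 0 ≤ (1 - ε) / (4 * ε) := div_nonneg (by linarith) (by positivity)
    linarith
  have hc0 : 0 < 1 / ε - 1 / 4 := lt_of_lt_of_le (by positivity) hc1
  have hzpos : 0 ≤ (1 / ε - 1 / 4) * z ^ 2 := mul_nonneg hc0.le (sq_nonneg _)
  refine ⟨by linarith, ?_, ?_⟩
  · intro t ht0 ht1
    -- the covector in the frame
    have hq : ∀ i, plv A (fun i => 1 / (2 - ε) * p i + t * (∑ j, cHess g x p M i j * nrm g x p j)
        / X) i = 1 / (2 - ε) * X * n i + t * ((∑ j, plm A (tenB g h x p M) i j * n j)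
          + ∑ j, plm A (h x) i j * n j) := by
      intro i
      have e1 : plv A (fun i => 1 / (2 - ε) * p i
          + t * (∑ j, cHess g x p M i j * nrm g x p j) / X) i
          = 1 / (2 - ε) * plv A p i
            + t / X * plv A (fun i => ∑ j, cHess g x p M i j * nrm g x p j) i := by
        unfold plv
        simp only [Fin.sum_univ_three]
        ring
      rw [e1, hpA, hplv, hBf]
      simp only [Matrix.sub_apply, Matrix.smul_apply, smul_eq_mul, Fin.sum_univ_three]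
      ring
    rw [hev]
    have hk : ∑ i, (∑ j, plm A (h x) i j * n j) ^ 2 ≤ nsq g x (h x) := by
      rw [hnsq]
      refine Finset.sum_le_sum fun i _ => ?_
      have h1 := Finset.sum_mul_sq_le_sq_mul_sq Finset.univ (fun j => plm A (h x) i j) n
      have h2 : ∑ i, n i ^ 2 = 1 := by
        rw [← hn]
        exact Finset.sum_congr rfl fun i _ => by ring
      rw [h2, mul_one] at h1
      refine h1.trans (le_of_eq ?_)
      exact Finset.sum_congr rfl fun j _ => by ring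
    have hsum : ∑ i, plv A (fun i => 1 / (2 - ε) * p i
          + t * (∑ j, cHess g x p M i j * nrm g x p j) / X) i
        * plv A (fun i => 1 / (2 - ε) * p i
          + t * (∑ j, cHess g x p M i j * nrm g x p j) / X) i
        ≤ 2 * (1 - t) ^ 2 * (1 / (2 - ε)) ^ 2 * X ^ 2
          + 4 * t ^ 2 * ((1 / (2 - ε)) ^ 2 * X ^ 2 + 2 * (1 / (2 - ε)) * X * N + b2)
          + 4 * t ^ 2 * ∑ i, (∑ j, plm A (h x) i j * n j) ^ 2 := by
      have h1 : ∀ i, plv A (fun i => 1 / (2 - ε) * p i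
          + t * (∑ j, cHess g x p M i j * nrm g x p j) / X) i
        * plv A (fun i => 1 / (2 - ε) * p i
          + t * (∑ j, cHess g x p M i j * nrm g x p j) / X) i
          ≤ 2 * (1 - t) ^ 2 * (1 / (2 - ε)) ^ 2 * X ^ 2 * (n i * n i)
            + 4 * t ^ 2 * ((1 / (2 - ε)) ^ 2 * X ^ 2 * (n i * n i)
              + 2 * (1 / (2 - ε)) * X * ((∑ j, plm A (tenB g h x p M) i j * n j) * n i)
              + (∑ j, plm A (tenB g h x p M) i j * n j) ^ 2)
            + 4 * t ^ 2 * (∑ j, plm A (h x) i j * n j) ^ 2 := by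
        intro i
        rw [hq i, ← _root_.pow_two]
        exact sq_split _ _ _ _ _ _
      refine (Finset.sum_le_sum fun i _ => h1 i).trans (le_of_eq ?_)
      rw [← hb2, ← hbn]
      simp only [Finset.sum_add_distrib, ← Finset.mul_sum]
      rw [hn]
      ring
    refine hsum.trans ?_
    have hsq : (1 / (2 - ε)) ^ 2 * X ^ 2 + 2 * (1 / (2 - ε)) * X * N + b2
        = (b2 - N ^ 2) + z ^ 2 / ε ^ 2 := by
      have e1 : (N + 1 / (2 - ε) * X) ^ 2 = z ^ 2 / ε ^ 2 := by
        rw [hNz]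
        ring
      rw [← e1]
      ring
    rw [hsq]
    have hz2 : z ^ 2 / ε ^ 2 ≤ 2 / ε * ((1 / ε - 1 / 4) * z ^ 2) := by
      have e1 : z ^ 2 / ε ^ 2 = 1 / ε * (1 / ε) * z ^ 2 := by
        field_simp
      have e2 : 1 / ε ≤ 2 * (1 / ε - 1 / 4) := by
        have : (2 : ℝ) ≤ 1 / ε := by
          rw [le_div_iff₀ hε]
          linarith
        linarith
      rw [e1]
      calc 1 / ε * (1 / ε) * z ^ 2 ≤ 1 / ε * (2 * (1 / ε - 1 / 4)) * z ^ 2 := by gcongr
        _ = 2 / ε * ((1 / ε - 1 / 4) * z ^ 2) := by ring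
    have h2le : (1 : ℝ) ≤ 2 / ε := by
      rw [le_div_iff₀ hε]
      linarith
    have h3 : (b2 - N ^ 2) + z ^ 2 / ε ^ 2 ≤ 2 / ε * diss ε g h x p M := by
      have e1 : b2 - N ^ 2 ≤ 2 / ε * (b2 - N ^ 2) := le_mul_of_one_le_left (by linarith) h2le
      calc (b2 - N ^ 2) + z ^ 2 / ε ^ 2
          ≤ 2 / ε * (b2 - N ^ 2) + 2 / ε * ((1 / ε - 1 / 4) * z ^ 2) := add_le_add e1 hz2
        _ = 2 / ε * ((b2 - N ^ 2) + (1 / ε - 1 / 4) * z ^ 2) := by ring
        _ ≤ 2 / ε * diss ε g h x p M := mul_le_mul_of_nonneg_left hlow (by positivity)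
    have hns0 : 0 ≤ nsq g x (h x) := by
      rw [hnsq]
      exact Finset.sum_nonneg fun i _ => Finset.sum_nonneg fun j _ => mul_self_nonneg _
    have h4 : ∑ i, (∑ j, plm A (h x) i j * n j) ^ 2 ≤ 2 / ε * nsq g x (h x) :=
      hk.trans (le_mul_of_one_le_left hns0 h2le)
    have h5 : (1 / (2 - ε)) ^ 2 ≤ 1 := by
      have e1 : 1 / (2 - ε) ≤ 1 := by
        rw [div_le_one h2e]
        linarith
      have e2 : 0 ≤ 1 / (2 - ε) := by positivity
      exact pow_le_one₀ e2 e1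
    have h6 : 2 * (1 - t) ^ 2 * (1 / (2 - ε)) ^ 2 * X ^ 2 ≤ 2 * (1 - t) ^ 2 * X ^ 2 := by
      have e1 : 0 ≤ 2 * (1 - t) ^ 2 * X ^ 2 := by positivity
      calc 2 * (1 - t) ^ 2 * (1 / (2 - ε)) ^ 2 * X ^ 2
          = (2 * (1 - t) ^ 2 * X ^ 2) * (1 / (2 - ε)) ^ 2 := by ring
        _ ≤ (2 * (1 - t) ^ 2 * X ^ 2) * 1 := mul_le_mul_of_nonneg_left h5 e1
        _ = _ := mul_one _
    have ht2 : 0 ≤ 4 * t ^ 2 := by positivity
    calc _ ≤ 2 * (1 - t) ^ 2 * X ^ 2 + 4 * t ^ 2 * (2 / ε * diss ε g h x p M)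
          + 4 * t ^ 2 * (2 / ε * nsq g x (h x)) :=
          add_le_add (add_le_add h6 (mul_le_mul_of_nonneg_left h3 ht2))
            (mul_le_mul_of_nonneg_left h4 ht2)
      _ = 8 / ε * t ^ 2 * (diss ε g h x p M + nsq g x (h x)) + 2 * (1 - t) ^ 2 * X ^ 2 := by ring
  · intro hh0
    have hT' : T = X⁻¹ * btan g x p (cHess g x p M) := by
      rw [← hT, hbt, hbt, hbnnB, htrB, hh0]
      have e1 : trg g x (0 : Bil) = 0 := by
        unfold trg
        simp
      have e2 : bnn g x p (0 : Bil) = 0 := by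
        unfold bnn ev
        simp
      rw [e1, e2]
      ring
    have hfl : flux ε g h x p M = X * btan g x p (cHess g x p M) - X ^ 3 / (2 - ε) := by
      have e0 : flux ε g h x p M = X * btan g x p (cHess g x p M) - X ^ 3 / (2 - ε)
        - (X ^ 2 * trg g x (h x) - ev (h x) (raise g x p) (raise g x p)) := rfl
      rw [e0, hh0]
      have e1 : trg g x (0 : Bil) = 0 := by
        unfold trg
        simp
      have e2 : ev (0 : Bil) (raise g x p) (raise g x p) = 0 := by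
        unfold ev
        simp
      rw [e1, e2]
      ring
    constructor
    · rw [hfl, hzT, hT']
      field_simp
      ring
    · have h1 : (1 / ε - 1 / 4) * z ^ 2 ≤ diss ε g h x p M := by linarith
      have h4e : 0 < 4 - ε := by linarith
      have h2 : 1 / lam ε * (1 / ε - 1 / 4) = (2 - ε) / 4 := by
        unfold lam
        field_simp
      have h3 : 0 < 1 / lam ε := by
        unfold lam
        positivity
      calc (2 - ε) / 4 * (X * z ^ 2) = 1 / lam ε * (X * ((1 / ε - 1 / 4) * z ^ 2)) := by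
            rw [← h2]
            ring
        _ ≤ 1 / lam ε * (X * diss ε g h x p M) :=
            mul_le_mul_of_nonneg_left (mul_le_mul_of_nonneg_left h1 hX.le) h3.le

end Pool.Agent.PFlow
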