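import Pool.Agent.PFlow.E.WGTA

/-!
# Module WGT: the weight is almost constant
-/

set_option autoImplicit false

open MeasureTheory Filter Topology
open scoped ContDiff ENNReal

namespace Pool.Agent.PFlow

open Pool.Agent.PenroseSph

namespace EWGT

lemma isCompact_cAnn (a b : ℝ) : IsCompact (cAnn a b) := by
  have h1 : cAnn a b = Metric.closedBall (0 : E3) b ∩ {x : E3 | a ≤ ‖x‖} := by
    ext x
    simp only [cAnn, Set.mem_ofPred_eq, Set.mem_inter_iff, Metric.mem_closedBall, dist_zero_right]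
    tauto
  rw [h1]
  exact (isCompact_closedBall 0 b).inter_right (isClosed_le continuous_const continuous_norm)

/-- The variance. -/
lemma var_eq {μ : Measure E3} [IsFiniteMeasure μ] {f : E3 → ℝ} (h1 : Integrable f μ)
    (h2 : Integrable (fun x => f x ^ 2) μ) :
    ∫ x, (f x - ⨍ y, f y ∂μ) ^ 2 ∂μ
      = ∫ x, f x ^ 2 ∂μ - (∫ x, f x ∂μ) ^ 2 / (∫ _x, (1 : ℝ) ∂μ) := by
  set V : ℝ := ∫ _x, (1 : ℝ) ∂μ with hV
  have hV' : V = μ.real Set.univ := by
    rw [hV]
    simp
  by_cases h0 : V = 0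
  · have hμ : μ = 0 := by
      rw [hV', Measure.real, ENNReal.toReal_eq_zero_iff] at h0
      rcases h0 with h0 | h0
      · exact Measure.measure_univ_eq_zero.1 h0
      · exact absurd h0 (measure_ne_top μ _)
    rw [hμ]
    simp
  · have hm : ⨍ y, f y ∂μ = (∫ x, f x ∂μ) / V := by
      rw [average_eq, smul_eq_mul, hV']
      ring
    rw [hm]
    set m : ℝ := (∫ x, f x ∂μ) / V with hmdef
    have e1 : ∀ x, (f x - m) ^ 2 = f x ^ 2 - 2 * m * f x + m ^ 2 := fun x => by ring
    simp only [e1]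
    have i2 : Integrable (fun x => 2 * m * f x) μ := h1.const_mul _
    have i1 : Integrable (fun x => f x ^ 2 - 2 * m * f x) μ := h2.sub i2
    rw [integral_add i1 (integrable_const _), integral_sub h2 i2, integral_const_mul,
      integral_const]
    rw [← hV', smul_eq_mul, hmdef]
    field_simp
    ring

/-- The approximating sequence. -/
structure Seq (K : Set E3) (w : E3 → ℝ) (G : E3 → Cov) (M : E3 → Bil) (v : ℕ → E3 → ℝ)
    (B : ℝ) : Prop where
  smooth : ∀ n, ContDiff ℝ ∞ (v n)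
  bd : ∀ n, ∀ x ∈ K, |v n x| ≤ B
  bdw : ∀ x ∈ K, |w x| ≤ B
  tend : ∀ x ∈ K, Tendsto (fun n => v n x) atTop (𝓝 (w x))
  memG : ∀ i, MemLp (fun x => G x i) 4 (volume.restrict K)
  memM : ∀ i j, MemLp (fun x => M x i j) 2 (volume.restrict K)
  cG : ∀ i, Tendsto (fun n => eLpNorm (fun x => grad (v n) x i - G x i) 4 (volume.restrict K))
    atTop (𝓝 0)
  cM : ∀ i j, Tendsto (fun n => eLpNorm (fun x => hess2 (v n) x i j - M x i j) 2
    (volume.restrict K)) atTop (𝓝 0)
  aG : ∀ᵐ x ∂(volume.restrict K), ∀ i, Tendsto (fun n => grad (v n) x i) atTop (𝓝 (G x i))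
  aM : ∀ᵐ x ∂(volume.restrict K), ∀ i j,
    Tendsto (fun n => hess2 (v n) x i j) atTop (𝓝 (M x i j))

lemma grad_cont {v : E3 → ℝ} (hv : ContDiff ℝ ∞ v) (i : Fin 3) : Continuous fun x => grad v x i :=
  (ML4.contDiff_pd hv i).continuous

lemma hess_cont {v : E3 → ℝ} (hv : ContDiff ℝ ∞ v) (i j : Fin 3) :
    Continuous fun x => hess2 v x i j :=
  (ML4.contDiff_pd (ML4.contDiff_pd hv j) i).continuous

lemma exists_seq {U K : Set E3} {w : E3 → ℝ} {G : E3 → Cov} {M : E3 → Bil}
    (hw : H2s U w G M) (hK : IsCompact K) (hKU : K ⊆ U) :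
    ∃ (v : ℕ → E3 → ℝ) (B : ℝ), Seq K w G M v B := by
  obtain ⟨v, hv, hun, hcG, hcM⟩ := hw.approx K hK hKU
  have mG := hw.memG K hK hKU
  have mM := hw.memM K hK hKU
  have tG : ∀ i, TendstoInMeasure (volume.restrict K) (fun n x => grad (v n) x i) atTop
      (fun x => G x i) := fun i =>
    tendstoInMeasure_of_tendsto_eLpNorm (by norm_num)
      (fun n => (grad_cont (hv n) i).aestronglyMeasurable) (mG i).1 (hcG i)
  have tM : ∀ i j, TendstoInMeasure (volume.restrict K) (fun n x => hess2 (v n) x i j) atTop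
      (fun x => M x i j) := fun i j =>
    tendstoInMeasure_of_tendsto_eLpNorm (by norm_num)
      (fun n => (hess_cont (hv n) i j).aestronglyMeasurable) (mM i j).1 (hcM i j)
  obtain ⟨ns, hns, hae⟩ := sub_ae (μ := volume.restrict K)
    (Finset.univ : Finset (Fin 3 ⊕ (Fin 3 × Fin 3)))
    (fun a n x => Sum.elim (fun i => grad (v n) x i) (fun ij => hess2 (v n) x ij.1 ij.2) a)
    (fun a x => Sum.elim (fun i => G x i) (fun ij => M x ij.1 ij.2) a) (by
      rintro (i | ij)
      · exact tG i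
      · exact tM ij.1 ij.2)
  obtain ⟨B, hB⟩ := hK.exists_bound_of_continuousOn (hw.cont.mono hKU)
  rw [Metric.tendstoUniformlyOn_iff] at hun
  obtain ⟨n₀, hn₀⟩ := eventually_atTop.1 (hun 1 one_pos)
  have hsub : Tendsto (fun n => ns (n + n₀)) atTop atTop :=
    hns.tendsto_atTop.comp (tendsto_add_atTop_nat n₀)
  have hge : ∀ n, n₀ ≤ ns (n + n₀) := fun n => (Nat.le_add_left n₀ n).trans (hns.id_le _)
  refine ⟨fun n => v (ns (n + n₀)), B + 1, fun n => hv _, ?_, ?_, ?_, mG, mM, ?_, ?_, ?_, ?_⟩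
  · intro n x hx
    have h1 := hn₀ _ (hge n) x hx
    rw [Real.dist_eq] at h1
    have h2 := hB x hx
    rw [Real.norm_eq_abs] at h2
    have h3 : |v (ns (n + n₀)) x| ≤ |w x| + |w x - v (ns (n + n₀)) x| := by
      have := abs_sub_abs_le_abs_sub (v (ns (n + n₀)) x) (w x)
      rw [abs_sub_comm] at this
      linarith
    linarith
  · intro x hx
    have h2 := hB x hx
    rw [Real.norm_eq_abs] at h2
    linarith
  · intro x hx
    have h1 : Tendsto (fun n => v n x) atTop (𝓝 (w x)) := by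
      rw [Metric.tendsto_atTop]
      intro e he
      obtain ⟨m, hm⟩ := eventually_atTop.1 (hun e he)
      refine ⟨m, fun n hn => ?_⟩
      rw [dist_comm]
      exact hm n hn x hx
    exact h1.comp hsub
  · exact fun i => (hcG i).comp hsub
  · exact fun i j => (hcM i j).comp hsub
  · rw [ae_all_iff]
    intro i
    filter_upwards [hae (Sum.inl i) (Finset.mem_univ _)] with x hx
    exact hx.comp (tendsto_add_atTop_nat n₀)
  · rw [ae_all_iff]
    intro i
    rw [ae_all_iff]
    intro j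
    filter_upwards [hae (Sum.inr (i, j)) (Finset.mem_univ _)] with x hx
    exact hx.comp (tendsto_add_atTop_nat n₀)

/-- Passage to the limit. -/
lemma lim_on {K T : Set E3} {w : E3 → ℝ} {G : E3 → Cov} {M : E3 → Bil} {v : ℕ → E3 → ℝ} {B : ℝ}
    (H : Seq K w G M v B) (hT : IsCompact T) (hTK : T ⊆ K) (F : ℕ → E3 → ℝ)
    (F' : E3 → ℝ) (C : ℝ)
    (hb : ∀ n, ∀ x ∈ T, |F n x| ≤ C * jet (grad (v n) x) (hess2 (v n) x))
    (hlim : ∀ x ∈ T, (∀ i, Tendsto (fun n => grad (v n) x i) atTop (𝓝 (G x i))) →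
      (∀ i j, Tendsto (fun n => hess2 (v n) x i j) atTop (𝓝 (M x i j))) →
      Tendsto (fun n => F n x) atTop (𝓝 (F' x)))
    (hc : ∀ n, ContinuousOn (F n) T) :
    IntegrableOn F' T ∧ Tendsto (fun n => ∫ x in T, F n x) atTop (𝓝 (∫ x in T, F' x)) := by
  have hfin : IsFiniteMeasure (volume.restrict T) := ⟨by simpa using hT.measure_lt_top⟩
  have hle : (volume.restrict T : Measure E3) ≤ volume.restrict K :=
    Measure.restrict_mono hTK le_rfl
  have hac := hle.absolutelyContinuous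
  have aG := hac.ae_le H.aG
  have aM := hac.ae_le H.aM
  refine gen4 (P := fun n => grad (v n)) (N := fun n => hess2 (v n)) (G := G) (M := M)
    (fun n i => ML4.memLp_cont hT (grad_cont (H.smooth n) i) 4)
    (fun n i j => ML4.memLp_cont hT (hess_cont (H.smooth n) i j) 2)
    (fun i => (H.memG i).mono_measure hle) (fun i j => (H.memM i j).mono_measure hle)
    (fun i => ?_) (fun i j => ?_) aG aM F F' C (fun n => ?_) ?_ (fun n => ?_)
  · exact tendsto_of_tendsto_of_tendsto_of_le_of_le tendsto_const_nhds (H.cG i)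
      (fun n => zero_le) (fun n => eLpNorm_mono_measure _ hle)
  · exact tendsto_of_tendsto_of_tendsto_of_le_of_le tendsto_const_nhds (H.cM i j)
      (fun n => zero_le) (fun n => eLpNorm_mono_measure _ hle)
  · exact (ae_restrict_iff' hT.measurableSet).2 (Eventually.of_forall (hb n))
  · have hmem : ∀ᵐ x ∂(volume.restrict T), x ∈ T := ae_restrict_mem hT.measurableSet
    filter_upwards [aG, aM, hmem] with x h1 h2 h3
    exact hlim x h3 h1 h2
  · exact (hc n).aestronglyMeasurable hT.measurableSet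

lemma chr_symm {U : Set E3} {g : TensorField} (hU : IsOpen U) (hg : MetricOn U g) {x : E3}
    (hx : x ∈ U) (k i j : Fin 3) : christoffel g k i j x = christoffel g k j i x := by
  have hs : ∀ᶠ y in 𝓝 x, ∀ i j, g y i j = g y j i := by
    filter_upwards [hU.mem_nhds hx] with y hy i j
    have := (hg.posDef y hy).isHermitian
    rw [Matrix.IsHermitian, Matrix.conjTranspose_eq_transpose_of_trivial] at this
    exact congrFun (congrFun this j) i
  have h1 : ∀ l, pd l (fun y => g y i j) x = pd l (fun y => g y j i) x := by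
    intro l
    unfold pd
    have : (fun y => g y i j) =ᶠ[𝓝 x] fun y => g y j i := by
      filter_upwards [hs] with y hy
      exact hy i j
    rw [this.fderiv_eq]
  unfold christoffel
  congr 1
  refine Finset.sum_congr rfl fun l _ => ?_
  rw [h1 l]
  ring

/-- The inequality for the regularised weight. -/
lemma step (hGRADL : Stmt_GRADL) {ε d a b ρ Cg C1 CP : ℝ} {U : Set E3} {g h : TensorField}
    {w : E3 → ℝ} {G : E3 → Cov} {M : E3 → Bil} (hε0 : 0 < ε) (hε : ε ≤ 1 / 2) (hd : 0 < d)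
    (hCg : 0 < Cg) (hC1 : 0 < C1) (hCP : 0 < CP)
    (hPT : ∀ (g h : TensorField) (x : E3) (p : Cov) (M : Bil), (g x).PosDef → (h x).IsSymm →
      M.IsSymm → (∀ k i j, christoffel g k i j x = christoffel g k j i x) → p ≠ 0 →
      (∀ v : Cov, ev (g x) v v = 1 → ev (h x) v v ≤ trg g x (h x)) →
      beps ε g x p (cHess g x p M) = len g x p ^ 2 + len g x p * beps ε g x p (h x) →
      0 ≤ diss ε g h x p M ∧
      (∀ t : ℝ, 0 ≤ t → t ≤ 1 →
        ev (g x)⁻¹ (fun i => 1 / (2 - ε) * p i + t * (∑ j, cHess g x p M i j * nrm g x p j)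
            / len g x p)
          (fun i => 1 / (2 - ε) * p i + t * (∑ j, cHess g x p M i j * nrm g x p j) / len g x p)
        ≤ C1 * t ^ 2 * (diss ε g h x p M + nsq g x (h x)) + 2 * (1 - t) ^ 2 * len g x p ^ 2))
    (hPo : ∀ f : E3 → ℝ, (∀ x ∈ cAnn (a * ρ / 2) (b * ρ), ContDiffAt ℝ 1 f x) →
      ∫ x in cAnn (a * ρ) (b * ρ), (f x - ⨍ y in cAnn (a * ρ) (b * ρ), f y) ^ 2
        ≤ CP * ρ ^ 2 * ∫ x in cAnn (a * ρ / 2) (b * ρ), ‖fderiv ℝ f x‖ ^ 2)
    (hSK : cAnn (a * ρ) (b * ρ) ⊆ cAnn (a * ρ / 2) (b * ρ))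
    (hU : IsOpen U) (hKU : cAnn (a * ρ / 2) (b * ρ) ⊆ U) (hg : MetricOn U g)
    (hh : TensorOn U h) (h2 : TwoNonneg U g h)
    (hell : ∀ x ∈ cAnn (a * ρ / 2) (b * ρ), ∀ v : Cov,
        (∑ i, v i ^ 2) ≤ Cg * ev (g x) v v ∧ ev (g x) v v ≤ Cg * ∑ i, v i ^ 2)
    (hw : H2s U w G M) (hEq : EqW U ε g h G M)
    (hInt : IntegrableOn (fun x => Real.exp (w x / (2 - ε)) * len g x (G x)
        * (diss ε g h x (G x) (M x) + nsq g x (h x)) * volDen g x)
        (cAnn (a * ρ / 2) (b * ρ))) :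
    IntegrableOn (fun x => fr ε d g x (w x) (G x) ^ 2) (cAnn (a * ρ) (b * ρ)) ∧
    IntegrableOn (fun x => fr ε d g x (w x) (G x)) (cAnn (a * ρ) (b * ρ)) ∧
    (∫ x in cAnn (a * ρ) (b * ρ), fr ε d g x (w x) (G x) ^ 2)
        - (∫ x in cAnn (a * ρ) (b * ρ), fr ε d g x (w x) (G x)) ^ 2
          / (∫ _x in cAnn (a * ρ) (b * ρ), (1 : ℝ))
      ≤ CP * ρ ^ 2 * (Cg / 4 * (C1 * Real.sqrt (Cg ^ 3)) *
          (∫ x in cAnn (a * ρ / 2) (b * ρ), Real.exp (w x / (2 - ε)) * len g x (G x)
            * (diss ε g h x (G x) (M x) + nsq g x (h x)) * volDen g x)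
          + Cg / 2 * d ^ 3 * ∫ x in cAnn (a * ρ / 2) (b * ρ), Real.exp (w x / (2 - ε))) := by
  set K := cAnn (a * ρ / 2) (b * ρ) with hKdef
  set S := cAnn (a * ρ) (b * ρ) with hSdef
  have hK : IsCompact K := isCompact_cAnn _ _
  have hS : IsCompact S := isCompact_cAnn _ _
  have hSU : S ⊆ U := hSK.trans hKU
  obtain ⟨C, hC, hCT⟩ := CT U g h hU hg hh K hK hKU
  have hPc : ∀ x ∈ K, Pc C g x := fun x hx =>
    ⟨hC, (hCT x hx).1, (hCT x hx).2.2.2.1, (hCT x hx).2.2.2.2.2.2.2.2.1⟩
  obtain ⟨v, B, HS⟩ := exists_seq hw hK hKU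
  set E : ℝ := Real.exp (B / (2 - ε)) with hE
  have h2e : 0 < 2 - ε := by linarith
  have hexp : ∀ s : ℝ, |s| ≤ B → Real.exp (s / (2 - ε)) ≤ E := by
    intro s hs
    apply Real.exp_le_exp.2
    exact div_le_div_of_nonneg_right ((le_abs_self s).trans hs) h2e.le
  -- smoothness of the approximations
  have hsm : ∀ n, ∀ x ∈ U, ContDiffAt ℝ ∞ (fun y => fr ε d g y (v n y) (grad (v n) y)) x :=
    fun n x hx => fr_smooth ε hd hU hg (HS.smooth n) hx
  have hfc : ∀ n, ContinuousOn (fun y => fr ε d g y (v n y) (grad (v n) y)) U :=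
    fun n x hx => (hsm n x hx).continuousAt.continuousWithinAt
  have hpd : ∀ n, ∀ x ∈ U, ∑ k, pd k (fun y => fr ε d g y (v n y) (grad (v n) y)) x ^ 2
      = FF ε d g x (v n x) (grad (v n) x) (hess2 (v n) x) := by
    intro n x hx
    unfold FF
    exact Finset.sum_congr rfl fun k _ => by rw [pd_fr hGRADL ε hd hU hg (HS.smooth n) hx k]
  have hFc : ∀ n, ContinuousOn (fun x => FF ε d g x (v n x) (grad (v n) x) (hess2 (v n) x)) U := by
    intro n
    have h1 : ContinuousOn
        (fun x => ∑ k, pd k (fun y => fr ε d g y (v n y) (grad (v n) y)) x ^ 2) U :=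
      fun x hx => ((ContDiffAt.sum fun k _ => (MCF.pd_smooth (hsm n x hx) k).pow 2 :
        ContDiffAt ℝ ∞ _ x)).continuousAt.continuousWithinAt
    exact h1.congr fun x hx => (hpd n x hx).symm
  -- the limits
  have L1 := lim_on HS hK subset_rfl
    (fun n x => FF ε d g x (v n x) (grad (v n) x) (hess2 (v n) x))
    (fun x => FF ε d g x (w x) (G x) (M x)) _
    (fun n x hx => FF_le hε0 hε hd (hg.posDef x (hKU hx)) (hPc x hx)
      (hexp _ (HS.bd n x hx)) _ _)
    (fun x hx h1 h2 => FF_tend (hg.posDef x (hKU hx)) hd (HS.tend x hx) h1 h2)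
    (fun n => (hFc n).mono hKU)
  have L2 := lim_on HS hS hSK
    (fun n x => fr ε d g x (v n x) (grad (v n) x) ^ 2)
    (fun x => fr ε d g x (w x) (G x) ^ 2) _
    (fun n x hx => frsq_le hd (hg.posDef x (hSU hx)) (hPc x (hSK hx))
      (hexp _ (HS.bd n x (hSK hx))) _ _)
    (fun x hx h1 _ => (fr_tend (HS.tend x (hSK hx)) h1).pow 2)
    (fun n => ((hfc n).mono hSU).pow 2)
  have L3 := lim_on HS hS hSK
    (fun n x => fr ε d g x (v n x) (grad (v n) x))
    (fun x => fr ε d g x (w x) (G x)) _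
    (fun n x hx => fr_le hd (hg.posDef x (hSU hx)) (hPc x (hSK hx))
      (hexp _ (HS.bd n x (hSK hx))) _ _)
    (fun x hx h1 _ => fr_tend (HS.tend x (hSK hx)) h1)
    (fun n => (hfc n).mono hSU)
  refine ⟨L2.1, L3.1, ?_⟩
  have hfinS : IsFiniteMeasure (volume.restrict S) := ⟨by simpa using hS.measure_lt_top⟩
  -- the inequality for the approximations
  have hn : ∀ n, (∫ x in S, fr ε d g x (v n x) (grad (v n) x) ^ 2)
      - (∫ x in S, fr ε d g x (v n x) (grad (v n) x)) ^ 2 / (∫ _x in S, (1 : ℝ))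
      ≤ CP * ρ ^ 2 * ∫ x in K, FF ε d g x (v n x) (grad (v n) x) (hess2 (v n) x) := by
    intro n
    have h1 := hPo (fun y => fr ε d g y (v n y) (grad (v n) y))
      (fun x hx => (hsm n x (hKU hx)).of_le (by simp))
    rw [var_eq (((hfc n).mono hSU).integrableOn_compact hS)
      ((((hfc n).mono hSU).pow 2).integrableOn_compact hS)] at h1
    refine h1.trans (mul_le_mul_of_nonneg_left ?_ (by positivity))
    have hder : ContinuousOn (fun x => ‖fderiv ℝ (fun y => fr ε d g y (v n y) (grad (v n) y)) x‖ ^ 2)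
        K := by
      refine ContinuousOn.pow (ContinuousOn.norm fun x hx => ?_) 2
      exact ((hsm n x (hKU hx)).fderiv_right (m := ∞) (by simp)).continuousAt.continuousWithinAt
    refine setIntegral_mono_on (hder.integrableOn_compact hK)
      (((hFc n).mono hKU).integrableOn_compact hK) hK.measurableSet fun x hx => ?_
    rw [← hpd n x (hKU hx)]
    exact norm_fderiv_le _ x
  have hlim : (∫ x in S, fr ε d g x (w x) (G x) ^ 2)
      - (∫ x in S, fr ε d g x (w x) (G x)) ^ 2 / (∫ _x in S, (1 : ℝ))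
      ≤ CP * ρ ^ 2 * ∫ x in K, FF ε d g x (w x) (G x) (M x) :=
    le_of_tendsto_of_tendsto' (L2.2.sub ((L3.2.pow 2).div_const _)) (L1.2.const_mul _) hn
  refine hlim.trans (mul_le_mul_of_nonneg_left ?_ (by positivity))
  have hJ : IntegrableOn (fun x => Real.exp (w x / (2 - ε))) K := by
    refine ContinuousOn.integrableOn_compact hK ?_
    exact Real.continuous_exp.comp_continuousOn ((hw.cont.mono hKU).div_const _)
  rw [← integral_const_mul, ← integral_const_mul, ← integral_add (hInt.const_mul _)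
    (hJ.const_mul _)]
  refine integral_mono_ae L1.1 ((hInt.const_mul _).add (hJ.const_mul _)) ?_
  have hmem : ∀ᵐ x ∂(volume.restrict K), x ∈ K := ae_restrict_mem hK.measurableSet
  have hKle : (volume.restrict K : Measure E3) ≤ volume.restrict U :=
    Measure.restrict_mono hKU le_rfl
  have hsy := hKle.absolutelyContinuous.ae_le hw.symm
  have heq := hKle.absolutelyContinuous.ae_le hEq
  filter_upwards [hmem, hsy, heq] with x hx hx1 hx2
  have hxU := hKU hx
  obtain ⟨e1, e2⟩ := FF_lim (ε := ε) (d := d) hd hC1 hCg hPT (hg.posDef x hxU) (hh.symm x hxU)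
    (chr_symm hU hg hxU) (h2 x hxU) (fun v => (hell x hx v).2) (G x) (M x) hx1 hx2.1 hx2.2 (w x)
  refine e2.trans ?_
  have hvol : 1 ≤ Real.sqrt (Cg ^ 3) * volDen g x := by
    have h3 := det_lower (hg.posDef x hxU) (fun v => (hell x hx v).1)
    unfold volDen
    rw [← Real.sqrt_mul (by positivity)]
    exact Real.one_le_sqrt.2 h3
  set X := diss ε g h x (G x) (M x) + nsq g x (h x)
  set L := len g x (G x)
  set e := Real.exp (w x / (2 - ε)) with he
  have he0 : 0 < e := Real.exp_pos _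
  have h4 : L * X ≤ (L * X) * (Real.sqrt (Cg ^ 3) * volDen g x) :=
    le_mul_of_one_le_right e1 hvol
  calc Cg / 4 * (e * (C1 * (L * X) + 2 * d ^ 3))
      = Cg / 4 * e * C1 * (L * X) + Cg / 2 * d ^ 3 * e := by ring
    _ ≤ Cg / 4 * e * C1 * ((L * X) * (Real.sqrt (Cg ^ 3) * volDen g x))
        + Cg / 2 * d ^ 3 * e := by
          have : 0 ≤ Cg / 4 * e * C1 := by positivity
          linarith [mul_le_mul_of_nonneg_left h4 this]
    _ = _ := by ring

end EWGT

open EWGT

/-- **WGT.** -/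
theorem WGT (hPTD : Stmt_PTD) (hGRADL : Stmt_GRADL) (hPOI : Stmt_POI) (_hHSYM : Stmt_HSYM) :
    Stmt_WGT := by
  intro ε a b Cg hε0 hε ha hab hCg
  obtain ⟨C1, hC1, hPT⟩ := hPTD ε hε0 hε
  obtain ⟨CP, hCP, hPo⟩ := hPOI a b ha hab
  refine ⟨CP * (Cg / 4 * (C1 * Real.sqrt (Cg ^ 3))), by positivity, ?_⟩
  intro ρ U g h w G M hρ hU hKU hg hh h2 hell hw hEq hInt
  have hH2 := L4 U w G M hU hw
  have hSK : cAnn (a * ρ) (b * ρ) ⊆ cAnn (a * ρ / 2) (b * ρ) := by
    rintro x ⟨h1, h3⟩
    have : 0 < a * ρ := by positivity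
    exact ⟨by linarith, h3⟩
  have hst := fun (d : ℝ) (hd : 0 < d) => step hGRADL hε0 hε hd hCg hC1 hCP
    (fun g h x p M a1 a2 a3 a4 a5 a6 a7 =>
      ⟨(hPT g h x p M a1 a2 a3 a4 a5 a6 a7).1, (hPT g h x p M a1 a2 a3 a4 a5 a6 a7).2.1⟩)
    (fun f hf => hPo ρ f hρ hf) hSK hU hKU hg hh h2 hell hH2 hEq hInt
  set K := cAnn (a * ρ / 2) (b * ρ) with hKdef
  set S := cAnn (a * ρ) (b * ρ) with hSdef
  have hK : IsCompact K := isCompact_cAnn _ _
  have hS : IsCompact S := isCompact_cAnn _ _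
  have hSU : S ⊆ U := hSK.trans hKU
  have hfinS : IsFiniteMeasure (volume.restrict S) := ⟨by simpa using hS.measure_lt_top⟩
  have h2e : 0 < 2 - ε := by linarith
  set V : ℝ := ∫ _x in S, (1 : ℝ) with hV
  have hV0 : 0 ≤ V := integral_nonneg fun _ => zero_le_one
  -- the weight
  set φ : E3 → ℝ := fun x => Real.exp (w x / (2 - ε)) * len g x (G x) with hφ
  have hφ0 : ∀ x, 0 ≤ φ x := fun x => mul_nonneg (Real.exp_pos _).le (Real.sqrt_nonneg _)
  set f : E3 → ℝ := fun x => Real.sqrt (φ x) with hf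
  have hf0 : ∀ x, 0 ≤ f x := fun x => Real.sqrt_nonneg _
  have hff : ∀ x, f x ^ 2 = φ x := fun x => Real.sq_sqrt (hφ0 x)
  have hfr2 : ∀ (d : ℝ), 0 < d → ∀ x ∈ S, φ x ≤ fr ε d g x (w x) (G x) ^ 2 := by
    intro d hd x hx
    rw [fr_sq]
    refine mul_le_mul_of_nonneg_left ?_ (Real.exp_pos _).le
    unfold len qd
    exact Real.sqrt_le_sqrt (by nlinarith [sq_nonneg d])
  obtain ⟨B, hB⟩ := hS.exists_bound_of_continuousOn (hw.cont.mono hSU)
  set E : ℝ := Real.exp (B / (2 - ε) / 2) with hE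
  have hE0 : 0 < E := Real.exp_pos _
  have hfr1 : ∀ (d : ℝ), 0 < d → ∀ x ∈ S,
      fr ε d g x (w x) (G x) ≤ f x + E * Real.sqrt d := by
    intro d hd x hx
    have hq := ev_nonneg (hg.posDef x (hSU hx)).inv (G x)
    have e1 : f x = Real.exp (w x / (2 - ε) / 2) * Real.sqrt (len g x (G x)) := by
      simp only [hf, hφ]
      rw [Real.sqrt_mul (Real.exp_pos _).le]
      congr 1
      rw [← Real.exp_half]
    have e2 : Real.sqrt (qd d g x (G x)) ≤ len g x (G x) + d := by
      unfold qd len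
      apply Real.sqrt_le_iff.2
      refine ⟨by positivity, ?_⟩
      nlinarith [Real.sq_sqrt hq, Real.sqrt_nonneg (ev (g x)⁻¹ (G x) (G x))]
    have e3 : Real.sqrt (Real.sqrt (qd d g x (G x)))
        ≤ Real.sqrt (len g x (G x)) + Real.sqrt d := by
      refine (Real.sqrt_le_sqrt e2).trans ?_
      have hl : 0 ≤ len g x (G x) := Real.sqrt_nonneg _
      apply Real.sqrt_le_iff.2
      refine ⟨by positivity, ?_⟩
      nlinarith [Real.sq_sqrt hl, Real.sq_sqrt hd.le, Real.sqrt_nonneg (len g x (G x)),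
        Real.sqrt_nonneg d, mul_nonneg (Real.sqrt_nonneg (len g x (G x))) (Real.sqrt_nonneg d)]
    have e4 : Real.exp (w x / (2 - ε) / 2) ≤ E := by
      apply Real.exp_le_exp.2
      have h5 := hB x hx
      rw [Real.norm_eq_abs] at h5
      have h6 : w x / (2 - ε) ≤ B / (2 - ε) :=
        div_le_div_of_nonneg_right ((le_abs_self _).trans h5) h2e.le
      linarith
    unfold fr
    rw [e1]
    calc Real.exp (w x / (2 - ε) / 2) * Real.sqrt (Real.sqrt (qd d g x (G x)))
        ≤ Real.exp (w x / (2 - ε) / 2) * (Real.sqrt (len g x (G x)) + Real.sqrt d) :=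
          mul_le_mul_of_nonneg_left e3 (Real.exp_pos _).le
      _ = Real.exp (w x / (2 - ε) / 2) * Real.sqrt (len g x (G x))
          + Real.exp (w x / (2 - ε) / 2) * Real.sqrt d := by ring
      _ ≤ _ := by
          have := mul_le_mul_of_nonneg_right e4 (Real.sqrt_nonneg d)
          linarith
  -- integrability
  have hφm : AEStronglyMeasurable φ (volume.restrict S) := by
    have hle : (volume.restrict S : Measure E3) ≤ volume.restrict S := le_rfl
    have m1 : AEStronglyMeasurable (fun x => Real.exp (w x / (2 - ε))) (volume.restrict S) :=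
      (Real.continuous_exp.comp_continuousOn ((hw.cont.mono hSU).div_const _)).aestronglyMeasurable
        hS.measurableSet
    have mG : ∀ i, AEStronglyMeasurable (fun x => G x i) (volume.restrict S) := fun i =>
      (hH2.memG S hS hSU i).1
    have mg : ∀ i j, AEStronglyMeasurable (fun x => (g x)⁻¹ i j) (volume.restrict S) :=
      fun i j => ContinuousOn.aestronglyMeasurable (fun x hx =>
        (MCF.inv_smooth hU hg (hSU hx) i j).continuousAt.continuousWithinAt) hS.measurableSet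
    have m2 : AEStronglyMeasurable (fun x => ev (g x)⁻¹ (G x) (G x)) (volume.restrict S) := by
      unfold ev
      exact Finset.aestronglyMeasurable_fun_sum _ fun i _ =>
        Finset.aestronglyMeasurable_fun_sum _ fun j _ => ((mg i j).mul (mG i)).mul (mG j)
    exact m1.mul (Real.continuous_sqrt.comp_aestronglyMeasurable m2)
  have hφi : IntegrableOn φ S := by
    refine Integrable.mono' (hst 1 one_pos).1 hφm ?_
    refine (ae_restrict_iff' hS.measurableSet).2 (Eventually.of_forall fun x hx => ?_)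
    rw [Real.norm_eq_abs, abs_of_nonneg (hφ0 x)]
    exact hfr2 1 one_pos x hx
  have hfm : AEStronglyMeasurable f (volume.restrict S) :=
    Real.continuous_sqrt.comp_aestronglyMeasurable hφm
  have hfi : IntegrableOn f S := by
    refine Integrable.mono' (hφi.add (integrable_const (1 : ℝ))) hfm ?_
    refine Eventually.of_forall fun x => ?_
    rw [Real.norm_eq_abs, abs_of_nonneg (hf0 x)]
    simp only [Pi.add_apply]
    nlinarith [hff x, sq_nonneg (f x - 1)]
  have hf2i : IntegrableOn (fun x => f x ^ 2) S := by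
    simp only [hff]
    exact hφi
  -- the limit
  set I := ∫ x in K, Real.exp (w x / (2 - ε)) * len g x (G x)
            * (diss ε g h x (G x) (M x) + nsq g x (h x)) * volDen g x with hI
  set J := ∫ x in K, Real.exp (w x / (2 - ε)) with hJ
  have hd : ∀ d : ℝ, 0 < d → (∫ x in S, f x ^ 2)
      - ((∫ x in S, f x) + E * Real.sqrt d * V) ^ 2 / V
      ≤ CP * ρ ^ 2 * (Cg / 4 * (C1 * Real.sqrt (Cg ^ 3)) * I + Cg / 2 * d ^ 3 * J) := by
    intro d hd
    obtain ⟨i1, i2, i3⟩ := hst d hd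
    refine le_trans ?_ i3
    have e1 : (∫ x in S, f x ^ 2) ≤ ∫ x in S, fr ε d g x (w x) (G x) ^ 2 := by
      refine setIntegral_mono_on hf2i i1 hS.measurableSet fun x hx => ?_
      rw [hff]
      exact hfr2 d hd x hx
    have e2 : (∫ x in S, fr ε d g x (w x) (G x)) ≤ (∫ x in S, f x) + E * Real.sqrt d * V := by
      have e3 : (∫ x in S, f x) + E * Real.sqrt d * V = ∫ x in S, (f x + E * Real.sqrt d) := by
        rw [integral_add hfi (integrable_const _), hV]
        simp [mul_comm]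
      rw [e3]
      exact setIntegral_mono_on i2 (hfi.add (integrable_const _)) hS.measurableSet
        fun x hx => hfr1 d hd x hx
    have e4 : 0 ≤ ∫ x in S, fr ε d g x (w x) (G x) := integral_nonneg fun x => fr_nonneg _ _
    have e5 : (∫ x in S, fr ε d g x (w x) (G x)) ^ 2 / V
        ≤ ((∫ x in S, f x) + E * Real.sqrt d * V) ^ 2 / V :=
      div_le_div_of_nonneg_right (pow_le_pow_left₀ e4 e2 2) hV0
    linarith
  have hlim : (∫ x in S, f x ^ 2) - (∫ x in S, f x) ^ 2 / V
      ≤ CP * ρ ^ 2 * (Cg / 4 * (C1 * Real.sqrt (Cg ^ 3)) * I) := by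
    have c1 : Continuous fun d : ℝ => (∫ x in S, f x ^ 2)
        - ((∫ x in S, f x) + E * Real.sqrt d * V) ^ 2 / V := by fun_prop
    have c2 : Continuous fun d : ℝ => CP * ρ ^ 2 * (Cg / 4 * (C1 * Real.sqrt (Cg ^ 3)) * I
        + Cg / 2 * d ^ 3 * J) := by fun_prop
    have t1 := (c1.tendsto 0).mono_left (nhdsWithin_le_nhds (s := Set.Ioi 0))
    have t2 := (c2.tendsto 0).mono_left (nhdsWithin_le_nhds (s := Set.Ioi 0))
    have t3 := le_of_tendsto_of_tendsto t1 t2 (by
      filter_upwards [self_mem_nhdsWithin] with d hd'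
      exact hd d hd')
    simpa using t3
  -- conclusion
  set m : ℝ := ⨍ x in S, f x with hm
  have hmV : m * V = ∫ x in S, f x := by
    have hV' : V = (volume.restrict S).real Set.univ := by
      rw [hV]
      simp
    by_cases h0 : V = 0
    · have hμ : (volume.restrict S : Measure E3) = 0 := by
        have h3 := h0
        rw [hV', Measure.real, ENNReal.toReal_eq_zero_iff] at h3
        rcases h3 with h3 | h3
        · exact Measure.measure_univ_eq_zero.1 h3
        · exact absurd h3 (measure_ne_top _ _)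
      rw [h0, hμ]
      simp
    · rw [hm, average_eq, smul_eq_mul, ← hV']
      field_simp
  have hm0 : 0 ≤ m := by
    rw [hm, average_eq, smul_eq_mul]
    exact mul_nonneg (inv_nonneg.2 measureReal_nonneg) (integral_nonneg hf0)
  refine ⟨m ^ 2, sq_nonneg _, ?_, ?_⟩
  · rw [Real.sqrt_sq hm0]
    exact hmV
  · rw [Real.sqrt_sq hm0]
    have h3 := var_eq hfi hf2i
    rw [h3]
    refine hlim.trans (le_of_eq ?_)
    ring

end Pool.Agent.PFlow
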