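import Pool.Agent.PFlow.StmtsE2
import Pool.Agent.PFlow.StmtsM
import Pool.Agent.PFlow.M_Coef
import Pool.Agent.PFlow.M_UP
import Pool.Agent.PFlow.M_L4

/-!
# The identity for the flux density
-/

open MeasureTheory Filter Topology
open scoped ContDiff ENNReal

namespace Pool.Agent.PFlow

open Pool.Agent.PenroseSph

namespace EXID

open MUP MCF

/-! ### Convergence of integrals -/

/-- Generalised dominated convergence. -/
theorem conv {α : Type*} [MeasurableSpace α] {μ : Measure α} {f : ℕ → α → ℝ} {f0 H : α → ℝ}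
    {e : ℕ → α → ℝ} (hf : ∀ n, AEStronglyMeasurable (f n) μ) (hH : Integrable H μ)
    (he : ∀ n, Integrable (e n) μ) (he0 : ∀ n x, 0 ≤ e n x)
    (hbd : ∀ n, ∀ᵐ x ∂μ, |f n x| ≤ H x + e n x)
    (heT : Tendsto (fun n => ∫ x, e n x ∂μ) atTop (𝓝 0))
    (hlim : ∀ᵐ x ∂μ, Tendsto (fun n => f n x) atTop (𝓝 (f0 x)))
    (hbd0 : ∀ᵐ x ∂μ, |f0 x| ≤ H x) :
    Tendsto (fun n => ∫ x, f n x ∂μ) atTop (𝓝 (∫ x, f0 x ∂μ)) := by
  have hf0 : AEStronglyMeasurable f0 μ := aestronglyMeasurable_of_tendsto_ae atTop hf hlim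
  have hi0 : Integrable f0 μ := hH.mono' hf0 (by simpa [Real.norm_eq_abs] using hbd0)
  have hi : ∀ n, Integrable (f n) μ := fun n =>
    (hH.add (he n)).mono' (hf n) (by
      filter_upwards [hbd n] with x hx
      simpa [Real.norm_eq_abs] using hx)
  have hu : Tendsto (fun n => ∫ x, max (|f n x - f0 x| - e n x) 0 ∂μ) atTop
      (𝓝 (∫ _, (0 : ℝ) ∂μ)) := by
    refine tendsto_integral_of_dominated_convergence (fun x => 2 * H x) ?_ (hH.const_mul 2) ?_ ?_
    · intro n
      exact ((((hi n).sub hi0).abs.sub (he n)).sup (integrable_zero _ _ _)).aestronglyMeasurable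
    · intro n
      filter_upwards [hbd n, hbd0] with x h1 h2
      rw [Real.norm_eq_abs, abs_of_nonneg (le_max_right _ _)]
      have h3 : 0 ≤ H x := (abs_nonneg _).trans h2
      refine max_le ?_ (by linarith)
      have h4 : |f n x - f0 x| ≤ |f n x| + |f0 x| := abs_sub _ _
      linarith
    · filter_upwards [hlim] with x hx
      have h1 : Tendsto (fun n => |f n x - f0 x|) atTop (𝓝 0) := by
        have h2 : Tendsto (fun n => f n x - f0 x) atTop (𝓝 (f0 x - f0 x)) :=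
          hx.sub tendsto_const_nhds
        rw [sub_self] at h2
        simpa using h2.abs
      refine squeeze_zero (fun n => le_max_right _ _) (fun n => ?_) h1
      exact max_le (by linarith [he0 n x]) (abs_nonneg _)
  rw [integral_zero] at hu
  have hs : Tendsto (fun n => ∫ x, f n x ∂μ - ∫ x, f0 x ∂μ) atTop (𝓝 0) := by
    have h1 := hu.add heT
    rw [add_zero] at h1
    refine squeeze_zero_norm (fun n => ?_) h1
    rw [← integral_sub (hi n) hi0]
    refine (norm_integral_le_integral_norm _).trans ?_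
    have h2 : Integrable (fun x => max (|f n x - f0 x| - e n x) 0) μ :=
      (((hi n).sub hi0).abs.sub (he n)).sup (integrable_zero _ _ _)
    rw [← integral_add h2 (he n)]
    refine integral_mono ((hi n).sub hi0).norm (h2.add (he n)) fun x => ?_
    simp only [Real.norm_eq_abs]
    have := le_max_left (|f n x - f0 x| - e n x) 0
    linarith
  have h3 := hs.add_const (∫ x, f0 x ∂μ)
  simpa using h3

theorem int4_tendsto {μ : Measure E3} {f : ℕ → E3 → ℝ} (hf : ∀ n, MemLp (f n) 4 μ)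
    (h : Tendsto (fun n => eLpNorm (f n) 4 μ) atTop (𝓝 0)) :
    Tendsto (fun n => ∫ x, f n x ^ 4 ∂μ) atTop (𝓝 0) := by
  have h0 : ∀ n, 0 ≤ ∫ x, f n x ^ 4 ∂μ := fun n => integral_nonneg fun x => by positivity
  have h1 : ∀ n, (eLpNorm (f n) 4 μ).toReal = (∫ x, f n x ^ 4 ∂μ) ^ (1 / 4 : ℝ) := fun n => by
    rw [ML4.eLp4 (hf n), ENNReal.toReal_ofReal (Real.rpow_nonneg (h0 n) _)]
  have h2 := (ENNReal.tendsto_toReal ENNReal.zero_ne_top).comp h
  simp only [Function.comp_def, h1, ENNReal.toReal_zero] at h2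
  have h3 := h2.pow 4
  simp only [ne_eq, OfNat.ofNat_ne_zero, not_false_eq_true, zero_pow] at h3
  refine h3.congr fun n => ?_
  rw [← Real.rpow_natCast, ← Real.rpow_mul (h0 n)]
  norm_num

theorem int2_tendsto {μ : Measure E3} {f : ℕ → E3 → ℝ} (hf : ∀ n, MemLp (f n) 2 μ)
    (h : Tendsto (fun n => eLpNorm (f n) 2 μ) atTop (𝓝 0)) :
    Tendsto (fun n => ∫ x, f n x ^ 2 ∂μ) atTop (𝓝 0) := by
  have h0 : ∀ n, 0 ≤ ∫ x, f n x ^ 2 ∂μ := fun n => integral_nonneg fun x => by positivity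
  have h1 : ∀ n, (eLpNorm (f n) 2 μ).toReal = Real.sqrt (∫ x, f n x ^ 2 ∂μ) := fun n => by
    rw [ML4.eLp2 (hf n), ENNReal.toReal_ofReal (Real.sqrt_nonneg _)]
  have h2 := (ENNReal.tendsto_toReal ENNReal.zero_ne_top).comp h
  simp only [Function.comp_def, h1, ENNReal.toReal_zero] at h2
  have h3 := h2.pow 2
  simp only [ne_eq, OfNat.ofNat_ne_zero, not_false_eq_true, zero_pow] at h3
  exact h3.congr fun n => Real.sq_sqrt (h0 n)

theorem int4 {μ : Measure E3} {f : E3 → ℝ} (hf : MemLp f 4 μ) :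
    Integrable (fun x => f x ^ 4) μ := by
  have h := hf.integrable_norm_pow (p := 4) (by norm_num)
  refine h.congr (Eventually.of_forall fun x => ?_)
  change ‖f x‖ ^ 4 = f x ^ 4
  rw [Real.norm_eq_abs, show |f x| ^ 4 = (|f x| ^ 2) ^ 2 by ring, sq_abs]
  ring

/-- The difference of two jets, in the sense of `L⁴` and `L²`. -/
def dj (r : Cov) (R : Bil) : ℝ := ∑ i, r i ^ 4 + ∑ i, ∑ j, R i j ^ 2

theorem dj_nonneg (r : Cov) (R : Bil) : 0 ≤ dj r R := by
  unfold dj
  refine add_nonneg (Finset.sum_nonneg fun i _ => by positivity)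
    (Finset.sum_nonneg fun i _ => Finset.sum_nonneg fun j _ => by positivity)

theorem le_dj_p (r : Cov) (R : Bil) (i : Fin 3) : r i ^ 4 ≤ dj r R := by
  have h1 : r i ^ 4 ≤ ∑ i, r i ^ 4 := Finset.single_le_sum (f := fun i => r i ^ 4)
    (s := Finset.univ) (fun i _ => by positivity) (Finset.mem_univ i)
  have h2 : 0 ≤ ∑ i, ∑ j, R i j ^ 2 :=
    Finset.sum_nonneg fun i _ => Finset.sum_nonneg fun j _ => by positivity
  have h3 : dj r R = ∑ i, r i ^ 4 + ∑ i, ∑ j, R i j ^ 2 := rfl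
  linarith

theorem le_dj_m (r : Cov) (R : Bil) (i j : Fin 3) : R i j ^ 2 ≤ dj r R := by
  have h1 : ∑ j, R i j ^ 2 ≤ ∑ i, ∑ j, R i j ^ 2 := Finset.single_le_sum
    (f := fun i => ∑ j, R i j ^ 2) (s := Finset.univ)
    (fun i _ => Finset.sum_nonneg fun j _ => by positivity) (Finset.mem_univ i)
  have h3 : R i j ^ 2 ≤ ∑ j, R i j ^ 2 := Finset.single_le_sum (f := fun j => R i j ^ 2)
    (s := Finset.univ) (fun i _ => by positivity) (Finset.mem_univ j)
  have h2 : 0 ≤ ∑ i, r i ^ 4 := Finset.sum_nonneg fun i _ => by positivity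
  have h4 : dj r R = ∑ i, r i ^ 4 + ∑ i, ∑ j, R i j ^ 2 := rfl
  linarith

/-- A weight that bounds all the quantities. -/
def wt (p : Cov) (m : Bil) : ℝ := 1 + ∑ i, p i ^ 4 + ∑ i, ∑ j, m i j ^ 2

theorem wt_add (p r : Cov) (m R : Bil) :
    wt (fun i => p i + r i) (m + R) ≤ 8 * wt p m + 8 * dj r R := by
  unfold wt dj
  have h1 : ∀ i, (p i + r i) ^ 4 ≤ 8 * p i ^ 4 + 8 * r i ^ 4 := fun i => by
    nlinarith [sq_nonneg (p i ^ 2 - r i ^ 2), sq_nonneg (p i - r i), sq_nonneg (p i + r i),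
      mul_nonneg (sq_nonneg (p i - r i)) (sq_nonneg (p i - r i)),
      mul_nonneg (sq_nonneg (p i - r i)) (sq_nonneg (p i + r i))]
  have h2 : ∀ i j, (m i j + R i j) ^ 2 ≤ 8 * m i j ^ 2 + 8 * R i j ^ 2 := fun i j => by
    nlinarith [sq_nonneg (m i j - R i j), sq_nonneg (m i j), sq_nonneg (R i j)]
  have h3 : ∑ i, (p i + r i) ^ 4 ≤ 8 * ∑ i, p i ^ 4 + 8 * ∑ i, r i ^ 4 := by
    rw [Finset.mul_sum, Finset.mul_sum, ← Finset.sum_add_distrib]
    exact Finset.sum_le_sum fun i _ => h1 i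
  have h4 : ∑ i, ∑ j, (m i j + R i j) ^ 2 ≤
      8 * ∑ i, ∑ j, m i j ^ 2 + 8 * ∑ i, ∑ j, R i j ^ 2 := by
    simp only [Finset.mul_sum]
    rw [← Finset.sum_add_distrib]
    refine Finset.sum_le_sum fun i _ => ?_
    rw [← Finset.sum_add_distrib]
    exact Finset.sum_le_sum fun j _ => h2 i j
  simp only [Matrix.add_apply]
  linarith

/-! ### Bounds -/

theorem wt_ge (p : Cov) (m : Bil) : 1 ≤ wt p m := by
  unfold wt
  have h1 : 0 ≤ ∑ i, p i ^ 4 := Finset.sum_nonneg fun i _ => by positivity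
  have h2 : 0 ≤ ∑ i, ∑ j, m i j ^ 2 :=
    Finset.sum_nonneg fun i _ => Finset.sum_nonneg fun j _ => by positivity
  linarith

theorem msq_le_wt (p : Cov) (m : Bil) : Real.sqrt (msq m) ^ 2 ≤ wt p m := by
  rw [Real.sq_sqrt (MUP.msq_nonneg m)]
  have h1 : 0 ≤ ∑ i, p i ^ 4 := Finset.sum_nonneg fun i _ => by positivity
  have h2 : wt p m = 1 + ∑ i, p i ^ 4 + msq m := rfl
  linarith

theorem vn4_le_wt (p : Cov) (m : Bil) : vn p ^ 4 ≤ 3 * wt p m := by
  have h1 : vn p ^ 4 = vsq p ^ 2 := by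
    rw [← vn_sq]
    ring
  have h2 : vsq p ^ 2 ≤ 3 * ∑ i, p i ^ 4 := by
    unfold vsq
    simp only [Fin.sum_univ_three]
    nlinarith [sq_nonneg (p 0 ^ 2 - p 1 ^ 2), sq_nonneg (p 0 ^ 2 - p 2 ^ 2),
      sq_nonneg (p 1 ^ 2 - p 2 ^ 2)]
  have h3 : 0 ≤ msq m := MUP.msq_nonneg m
  have h4 : wt p m = 1 + ∑ i, p i ^ 4 + msq m := rfl
  rw [h1]
  linarith

theorem vn_nonneg (p : Cov) : 0 ≤ vn p := Real.sqrt_nonneg _

theorem vn2_le_wt (p : Cov) (m : Bil) : vn p ^ 2 ≤ 2 * wt p m := by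
  have h1 := vn4_le_wt p m
  have h2 := wt_ge p m
  nlinarith [sq_nonneg (vn p ^ 2 - 1)]

theorem vn3_le_wt (p : Cov) (m : Bil) : vn p ^ 3 ≤ 3 * wt p m := by
  have h1 := vn4_le_wt p m
  have h2 := vn2_le_wt p m
  have h3 := wt_ge p m
  nlinarith [sq_nonneg (vn p ^ 2 - vn p), vn_nonneg p]

theorem vnk_le_wt (p : Cov) (m : Bil) : Real.sqrt (msq m) * vn p ≤ 2 * wt p m := by
  have h1 := msq_le_wt p m
  have h2 := vn2_le_wt p m
  nlinarith [sq_nonneg (Real.sqrt (msq m) - vn p)]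

section bounds

variable {g h : TensorField} {x : E3} {C : ℝ} (hC : 1 ≤ C) (hP : ∀ i j, |(g x)⁻¹ i j| ≤ C)
  (hE : ∀ p, vsq p / C ≤ ev (g x)⁻¹ p p ∧ ev (g x)⁻¹ p p ≤ C * vsq p)
  (hΓ : ∀ k i j, |christoffel g k i j x| ≤ C)

include hC hE in
theorem len_le (p : Cov) : len g x p ≤ C * vn p := by
  have hn := vn_nonneg p
  unfold len
  rw [Real.sqrt_le_left (by positivity)]
  refine (hE p).2.trans ?_
  rw [mul_pow, vn_sq]
  have := MUP.vsq_nonneg p
  nlinarith [mul_nonneg this (by linarith : 0 ≤ C - 1)]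

theorem len_nonneg (p : Cov) : 0 ≤ len g x p := Real.sqrt_nonneg _

theorem len_zero : len g x 0 = 0 := by
  unfold len ev
  simp

include hC hE in
theorem ev_nonneg' (p : Cov) : 0 ≤ ev (g x)⁻¹ p p :=
  le_trans (div_nonneg (MUP.vsq_nonneg p) (by linarith)) (hE p).1

include hC hP hE in
theorem lb (p : Cov) {B : Bil} {b : ℝ} (hB : ∀ i j, |B i j| ≤ b) :
    |len g x p * bnn g x p B| ≤ 81 * C ^ 4 * b * vn p := by
  have hn := vn_nonneg p
  have hb : 0 ≤ b := (abs_nonneg _).trans (hB 0 0)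
  by_cases h0 : p = 0
  · rw [h0, len_zero, zero_mul, abs_zero]
    have : vn (0 : Cov) = 0 := by simp [vn, vsq]
    rw [this, mul_zero]
  · rw [bnn_eq (ev_nonneg' hC hE p)]
    have h1 := nn_bd h0 (by linarith) hP (hE p).1 hB
    have h2 := len_le hC hE p
    have h3 := abs_mul_le (a := C * vn p) (x := len g x p)
      (by rw [abs_of_nonneg (len_nonneg p)]; exact h2) h1
    refine h3.trans (le_of_eq ?_)
    ring

include hC hP hE in
theorem lt (p : Cov) {B : Bil} {b : ℝ} (hB : ∀ i j, |B i j| ≤ b) :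
    |len g x p * trg g x B| ≤ 9 * C ^ 2 * b * vn p := by
  have h1 : |trg g x B| ≤ 9 * (C * b) := tr2_bd hP hB
  have h2 := len_le hC hE p
  have h3 := abs_mul_le (a := C * vn p) (x := len g x p)
    (by rw [abs_of_nonneg (len_nonneg p)]; exact h2) h1
  refine h3.trans (le_of_eq ?_)
  ring

include hΓ in
theorem ch_bd (p : Cov) (M : Bil) (i j : Fin 3) :
    |cHess g x p M i j| ≤ Real.sqrt (msq M) + 3 * (C * vn p) := by
  have h1 : cHess g x p M i j = M i j - ∑ k, christoffel g k i j x * p k := rfl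
  rw [h1]
  have h2 : |∑ k, christoffel g k i j x * p k| ≤ 3 * (C * vn p) :=
    abs_sum3 fun k => abs_mul_le (hΓ k i j) (abs_le_vn p k)
  exact (abs_sub _ _).trans (add_le_add (abs_le_msq M i j) h2)

theorem num1 {C k n W : ℝ} (hC : 1 ≤ C) (hW : 0 ≤ W) (h1 : k * n ≤ 2 * W)
    (h2 : n ^ 2 ≤ 2 * W) :
    81 * C ^ 4 * (k + 3 * (C * n)) * n + 9 * C ^ 2 * (k + 3 * (C * n)) * n
      ≤ 720 * C ^ 5 * W := by
  have e1 : (k + 3 * (C * n)) * n ≤ 8 * C * W := by
    have : C * n ^ 2 ≤ C * (2 * W) := mul_le_mul_of_nonneg_left h2 (by linarith)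
    nlinarith [mul_nonneg hW (by linarith : 0 ≤ C - 1)]
  have e2 : 81 * C ^ 4 + 9 * C ^ 2 ≤ 90 * C ^ 4 := by
    have : C ^ 2 ≤ C ^ 4 := pow_le_pow_right₀ hC (by norm_num)
    linarith
  calc 81 * C ^ 4 * (k + 3 * (C * n)) * n + 9 * C ^ 2 * (k + 3 * (C * n)) * n
      = (81 * C ^ 4 + 9 * C ^ 2) * ((k + 3 * (C * n)) * n) := by ring
    _ ≤ (81 * C ^ 4 + 9 * C ^ 2) * (8 * C * W) :=
      mul_le_mul_of_nonneg_left e1 (by positivity)
    _ ≤ 90 * C ^ 4 * (8 * C * W) := mul_le_mul_of_nonneg_right e2 (by positivity)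
    _ = 720 * C ^ 5 * W := by ring

include hC hP hE hΓ in
theorem bd_sum (p : Cov) (M : Bil) :
    |len g x p * (bnn g x p (cHess g x p M) + trg g x (cHess g x p M))|
      ≤ 720 * C ^ 5 * wt p M := by
  have h1 := lb hC hP hE p (ch_bd hΓ p M)
  have h2 := lt hC hP hE p (ch_bd hΓ p M)
  rw [mul_add]
  refine (abs_add_le _ _).trans ((add_le_add h1 h2).trans ?_)
  exact num1 hC (by linarith [wt_ge p M]) (vnk_le_wt p M) (vn2_le_wt p M)

include hC hP hE hΓ in
theorem bd_btan (p : Cov) (M : Bil) :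
    |len g x p * btan g x p (cHess g x p M)| ≤ 720 * C ^ 5 * wt p M := by
  have h1 := lb hC hP hE p (ch_bd hΓ p M)
  have h2 := lt hC hP hE p (ch_bd hΓ p M)
  unfold btan
  rw [mul_sub]
  refine (abs_sub _ _).trans ?_
  rw [add_comm]
  refine (add_le_add h1 h2).trans ?_
  exact num1 hC (by linarith [wt_ge p M]) (vnk_le_wt p M) (vn2_le_wt p M)

include hC hE in
theorem bd_len2 (p : Cov) (M : Bil) : len g x p ^ 2 ≤ 2 * C ^ 2 * wt p M := by
  have h1 := pow_le_pow_left₀ (len_nonneg p) (len_le hC hE p) 2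
  have h2 := vn2_le_wt p M
  have h3 : (C * vn p) ^ 2 = C ^ 2 * vn p ^ 2 := by ring
  have h4 : C ^ 2 * vn p ^ 2 ≤ C ^ 2 * (2 * wt p M) := mul_le_mul_of_nonneg_left h2 (by positivity)
  linarith

include hC hE in
theorem bd_len3 (p : Cov) (M : Bil) : len g x p ^ 3 ≤ 3 * C ^ 3 * wt p M := by
  have h1 := pow_le_pow_left₀ (len_nonneg p) (len_le hC hE p) 3
  have h2 := vn3_le_wt p M
  have h3 : (C * vn p) ^ 3 = C ^ 3 * vn p ^ 3 := by ring
  have h4 : C ^ 3 * vn p ^ 3 ≤ C ^ 3 * (3 * wt p M) := mul_le_mul_of_nonneg_left h2 (by positivity)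
  linarith

include hC hP hE in
theorem bd_raise (p : Cov) (M : Bil) (i : Fin 3) :
    |len g x p * raise g x p i| ≤ 6 * C ^ 2 * wt p M := by
  have h1 : |raise g x p i| ≤ 3 * (C * vn p) := up_bd hP (abs_le_vn p) i
  have h3 := abs_mul_le (a := C * vn p) (x := len g x p)
    (by rw [abs_of_nonneg (len_nonneg p)]; exact len_le hC hE p) h1
  refine h3.trans ?_
  have h2 := vn2_le_wt p M
  have h4 : C * vn p * (3 * (C * vn p)) = 3 * C ^ 2 * vn p ^ 2 := by ring
  have h5 : 3 * C ^ 2 * vn p ^ 2 ≤ 3 * C ^ 2 * (2 * wt p M) :=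
    mul_le_mul_of_nonneg_left h2 (by positivity)
  linarith

end bounds

/-! ### The identity for smooth functions -/

/-- The integrand of the identity. -/
noncomputable def Phi (ζ : E3 → ℝ) (ψ : ℝ → ℝ) (g : TensorField) (x : E3) (s : ℝ) (p : Cov)
    (m : Bil) : ℝ :=
  ζ x * ψ s * (len g x p * (bnn g x p (cHess g x p m) + trg g x (cHess g x p m))) * volDen g x
    + ζ x * deriv ψ s * len g x p ^ 3 * volDen g x
    + ψ s * (∑ i, pd i ζ x * (len g x p * raise g x p i)) * volDen g x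

/-- The vector field `|dv| ∇v`. -/
noncomputable def Fv (g : TensorField) (v : E3 → ℝ) (i : Fin 3) (y : E3) : ℝ :=
  volDen g y * up (g y)⁻¹ (fun j => len g y (grad v y) * grad v y j) i

theorem Fv_eq (g : TensorField) (v : E3 → ℝ) (i : Fin 3) (y : E3) :
    Fv g v i y = (len g y (grad v y) * raise g y (grad v y) i) * volDen g y := by
  unfold Fv up raise
  rw [Finset.mul_sum, Finset.mul_sum, Finset.sum_mul]
  refine Finset.sum_congr rfl fun j _ => ?_
  ring

theorem pd_zero {f : E3 → ℝ} {x : E3} (hx : x ∉ tsupport f) (i : Fin 3) : pd i f x = 0 := by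
  unfold pd
  rw [fderiv_of_notMem_tsupport ℝ hx]
  rfl

theorem Fv_smooth (hZD : Stmt_ZD) {U : Set E3} {g : TensorField} {v : E3 → ℝ} (hU : IsOpen U)
    (hg : MetricOn U g) (hv : ContDiffOn ℝ ∞ v U) (i : Fin 3) : ContDiffOn ℝ 1 (Fv g v i) U := by
  have h0 : TensorOn U (fun _ => (0 : Bil)) :=
    ⟨fun i j => contDiffOn_const, fun x _ => by simp [Matrix.IsSymm]⟩
  obtain ⟨h1, h2, -, -⟩ := hZD (1 / 2) U g (fun _ => 0) v 1 (by norm_num) (by norm_num) hU hg h0 hv
    one_pos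
  have h3 := ((h2 i).sub (h1 i)).const_smul (-(3 / 2) : ℝ)
  refine h3.congr fun y _ => ?_
  simp only [smul_eq_mul]
  rw [Fv_eq]
  unfold Zf
  have h4 : up (g y)⁻¹ (fun j => -(len g y (grad v y) / (2 - 1 / 2)) * grad v y j
      + app (g y)⁻¹ (0 : Bil) (grad v y) j - trg g y (0 : Bil) * grad v y j) i
      = -(2 / 3) * (len g y (grad v y) * raise g y (grad v y) i) := by
    have e1 : ∀ j, app (g y)⁻¹ (0 : Bil) (grad v y) j = 0 := fun j => by simp [app]
    have e2 : trg g y (0 : Bil) = 0 := by simp [trg]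
    have e3 : (fun j => -(len g y (grad v y) / (2 - 1 / 2)) * grad v y j
      + app (g y)⁻¹ (0 : Bil) (grad v y) j - trg g y (0 : Bil) * grad v y j)
      = fun j => -(2 / 3) * (len g y (grad v y) * grad v y j) := by
      funext j
      rw [e1, e2]
      ring
    rw [e3]
    unfold up raise
    rw [Finset.mul_sum, Finset.mul_sum]
    refine Finset.sum_congr rfl fun j _ => ?_
    ring
  rw [h4]
  ring

theorem ev_pos' {U : Set E3} {g : TensorField} (hg : MetricOn U g) {x : E3} (hx : x ∈ U)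
    (p : Cov) : 0 ≤ ev (g x)⁻¹ p p := by
  have h1 := (hg.posDef x hx).inv.posSemidef.dotProduct_mulVec_nonneg p
  have h2 : star p ⬝ᵥ (g x)⁻¹.mulVec p = ev (g x)⁻¹ p p := by
    simp only [dotProduct, Matrix.mulVec, ev, star_trivial, Finset.mul_sum]
    refine Finset.sum_congr rfl fun i _ => Finset.sum_congr rfl fun j _ => ?_
    ring
  rw [h2] at h1
  exact h1

theorem sum_raise (g : TensorField) (x : E3) (p : Cov) :
    ∑ i, p i * raise g x p i = ev (g x)⁻¹ p p := by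
  unfold raise ev
  refine Finset.sum_congr rfl fun i _ => ?_
  rw [Finset.mul_sum]
  refine Finset.sum_congr rfl fun j _ => ?_
  ring

theorem smooth_id (hLD : Stmt_LD) (hIB : Stmt_IB) (hZD : Stmt_ZD) {U : Set E3}
    {g : TensorField} {v ζ : E3 → ℝ} {ψ : ℝ → ℝ} (hU : IsOpen U) (hg : MetricOn U g)
    (hv : ContDiff ℝ ∞ v) (hζ : ContDiff ℝ ∞ ζ) (hζc : HasCompactSupport ζ)
    (hζU : tsupport ζ ⊆ U) (hψ : ContDiff ℝ 1 ψ) :
    ∫ x in tsupport ζ, Phi ζ ψ g x (v x) (grad v x) (hess2 v x) = 0 := by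
  have hF := fun i => Fv_smooth hZD hU hg hv.contDiffOn i
  have hdiv := hLD U g v hU hg hv.contDiffOn
  have h1ω : (1 : WithTop ℕ∞) ≤ ((⊤ : ℕ∞) : WithTop ℕ∞) := by exact_mod_cast le_top
  have hf1 : ContDiff ℝ 1 (fun x => ζ x * ψ (v x)) :=
    (hζ.of_le h1ω).mul (hψ.comp (hv.of_le h1ω))
  have hfc : HasCompactSupport (fun x => ζ x * ψ (v x)) := hζc.mul_right
  have hfU : tsupport (fun x => ζ x * ψ (v x)) ⊆ U :=
    (tsupport_mul_subset_left).trans hζU
  obtain ⟨C, hC⟩ := hf1.lipschitzWith_of_hasCompactSupport hfc one_ne_zero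
  have hib := hIB U (Fv g v) (fun x => ζ x * ψ (v x)) C hU hF hC hfc hfU
  have hK : IsCompact (tsupport ζ) := hζc
  have hpd : ∀ x i, pd i (fun x => ζ x * ψ (v x)) x
      = ζ x * (deriv ψ (v x) * pd i v x) + ψ (v x) * pd i ζ x := by
    intro x i
    have d1 : HasFDerivAt ζ (fderiv ℝ ζ x) x := (hζ.differentiable (by simp)).differentiableAt.hasFDerivAt
    have d2 : HasFDerivAt v (fderiv ℝ v x) x := (hv.differentiable (by simp)).differentiableAt.hasFDerivAt
    have d3 : HasDerivAt ψ (deriv ψ (v x)) (v x) :=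
      (hψ.differentiable one_ne_zero).differentiableAt.hasDerivAt
    have d4 := d1.mul (d3.comp_hasFDerivAt x d2)
    unfold pd
    have d5 : fderiv ℝ (fun x => ζ x * ψ (v x)) x = ζ x • (deriv ψ (v x) • fderiv ℝ v x)
        + ψ (v x) • fderiv ℝ ζ x := d4.fderiv
    rw [d5]
    simp
  have i1 : ∫ x, (ζ x * ψ (v x)) * ∑ i, pd i (Fv g v i) x
      = ∫ x in tsupport ζ, (ζ x * ψ (v x)) * ∑ i, pd i (Fv g v i) x :=
    (setIntegral_eq_integral_of_forall_compl_eq_zero fun x hx => by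
      rw [image_eq_zero_of_notMem_tsupport hx, zero_mul, zero_mul]).symm
  have i2 : ∫ x, ∑ i, pd i (fun x => ζ x * ψ (v x)) x * Fv g v i x
      = ∫ x in tsupport ζ, ∑ i, pd i (fun x => ζ x * ψ (v x)) x * Fv g v i x :=
    (setIntegral_eq_integral_of_forall_compl_eq_zero fun x hx => by
      refine Finset.sum_eq_zero fun i _ => ?_
      rw [hpd, pd_zero hx, image_eq_zero_of_notMem_tsupport hx, zero_mul, mul_zero, add_zero,
        zero_mul]).symm
  have n1 : IntegrableOn (fun x => (ζ x * ψ (v x)) * ∑ i, pd i (Fv g v i) x) (tsupport ζ) := by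
    refine ContinuousOn.integrableOn_compact hK ?_
    refine hf1.continuous.continuousOn.mul (continuousOn_finsetSum _ fun i _ => ?_)
    have c1 := (hF i).continuousOn_fderiv_of_isOpen hU le_rfl
    exact (c1.clm_apply continuousOn_const).mono hζU
  have n2 : IntegrableOn (fun x => ∑ i, pd i (fun x => ζ x * ψ (v x)) x * Fv g v i x)
      (tsupport ζ) := by
    refine ContinuousOn.integrableOn_compact hK ?_
    refine continuousOn_finsetSum _ fun i _ => ?_
    have c1 : Continuous (pd i fun x => ζ x * ψ (v x)) :=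
      (hf1.continuous_fderiv one_ne_zero).clm_apply continuous_const
    exact c1.continuousOn.mul (((hF i).continuousOn).mono hζU)
  have hsum : ∫ x in tsupport ζ, ((ζ x * ψ (v x)) * ∑ i, pd i (Fv g v i) x
      + ∑ i, pd i (fun x => ζ x * ψ (v x)) x * Fv g v i x) = 0 := by
    rw [integral_add n1 n2, ← i1, ← i2, hib]
    ring
  rw [← hsum]
  refine setIntegral_congr_fun (isClosed_tsupport ζ).measurableSet fun x hx => ?_
  have hxU := hζU hx
  have hev := ev_pos' hg hxU (grad v x)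
  have hl2 : len g x (grad v x) ^ 2 = ev (g x)⁻¹ (grad v x) (grad v x) := Real.sq_sqrt hev
  have e1 : ∑ i, pd i (Fv g v i) x = volDen g x * (nn (g x)⁻¹ (cHess g x (grad v x) (hess2 v x))
      (grad v x) * lp (g x)⁻¹ (grad v x) + lp (g x)⁻¹ (grad v x)
        * tr2 (g x)⁻¹ (cHess g x (grad v x) (hess2 v x))) := hdiv x hxU
  have e2 : nn (g x)⁻¹ (cHess g x (grad v x) (hess2 v x)) (grad v x)
      = bnn g x (grad v x) (cHess g x (grad v x) (hess2 v x)) := (bnn_eq hev).symm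
  have e3 : lp (g x)⁻¹ (grad v x) = len g x (grad v x) := rfl
  have e4 : tr2 (g x)⁻¹ (cHess g x (grad v x) (hess2 v x))
      = trg g x (cHess g x (grad v x) (hess2 v x)) := rfl
  have e5 : ∑ i, pd i (fun x => ζ x * ψ (v x)) x * Fv g v i x
      = ζ x * deriv ψ (v x) * len g x (grad v x) ^ 3 * volDen g x
        + ψ (v x) * (∑ i, pd i ζ x * (len g x (grad v x) * raise g x (grad v x) i))
          * volDen g x := by
    have e6 : ∀ i, pd i (fun x => ζ x * ψ (v x)) x * Fv g v i x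
        = ζ x * deriv ψ (v x) * len g x (grad v x) * volDen g x
            * (grad v x i * raise g x (grad v x) i)
          + ψ (v x) * volDen g x * (pd i ζ x * (len g x (grad v x) * raise g x (grad v x) i)) := by
      intro i
      rw [hpd, Fv_eq]
      have : pd i v x = grad v x i := rfl
      rw [this]
      ring
    rw [Finset.sum_congr rfl fun i _ => e6 i, Finset.sum_add_distrib, ← Finset.mul_sum,
      ← Finset.mul_sum, sum_raise, ← hl2]
    ring
  unfold Phi
  rw [e5, e1, e2, e3, e4]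
  ring

/-! ### The limit -/

/-- Bounds on the coefficients at a point. -/
structure Bds (g : TensorField) (x : E3) (C : ℝ) : Prop where
  one : 1 ≤ C
  inv : ∀ i j, |(g x)⁻¹ i j| ≤ C
  ell : ∀ p, vsq p / C ≤ ev (g x)⁻¹ p p ∧ ev (g x)⁻¹ p p ≤ C * vsq p
  chr : ∀ k i j, |christoffel g k i j x| ≤ C
  vol0 : 0 ≤ volDen g x
  vol : volDen g x ≤ C

theorem Phi_bd {ζ : E3 → ℝ} {ψ : ℝ → ℝ} {g : TensorField} {x : E3} {C Z P s : ℝ}
    (hb : Bds g x C) (hZ : |ζ x| ≤ Z) (hZ' : ∀ i, |pd i ζ x| ≤ Z) (hP : |ψ s| ≤ P)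
    (hP' : |deriv ψ s| ≤ P) (p : Cov) (m : Bil) :
    |Phi ζ ψ g x s p m| ≤ 741 * C ^ 6 * Z * P * wt p m := by
  have hC := hb.one
  have hZ0 : 0 ≤ Z := (abs_nonneg _).trans hZ
  have hP0 : 0 ≤ P := (abs_nonneg _).trans hP
  have hW := wt_ge p m
  have hW0 : 0 ≤ wt p m := by linarith
  have hv : |volDen g x| ≤ C := by
    rw [abs_of_nonneg hb.vol0]
    exact hb.vol
  have hl3 : |len g x p ^ 3| ≤ 3 * C ^ 3 * wt p m := by
    rw [abs_of_nonneg (pow_nonneg (len_nonneg p) 3)]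
    exact bd_len3 hC hb.ell p m
  have h1 := abs_mul_le (abs_mul_le (abs_mul_le hZ hP) (bd_sum hC hb.inv hb.ell hb.chr p m)) hv
  have h2 := abs_mul_le (abs_mul_le (abs_mul_le hZ hP') hl3) hv
  have h3 := abs_mul_le (abs_mul_le hP (abs_sum3 fun i =>
    abs_mul_le (hZ' i) (bd_raise hC hb.inv hb.ell p m i))) hv
  unfold Phi
  refine (abs_add_le _ _).trans ((add_le_add ((abs_add_le _ _).trans (add_le_add h1 h2))
    h3).trans ?_)
  have e1 : C ^ 4 ≤ C ^ 6 := pow_le_pow_right₀ hC (by norm_num)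
  have e2 : C ^ 3 ≤ C ^ 6 := pow_le_pow_right₀ hC (by norm_num)
  have e3 : 720 * C ^ 6 + 3 * C ^ 4 + 18 * C ^ 3 ≤ 741 * C ^ 6 := by linarith
  calc _ = (720 * C ^ 6 + 3 * C ^ 4 + 18 * C ^ 3) * (Z * P * wt p m) := by ring
    _ ≤ 741 * C ^ 6 * (Z * P * wt p m) := mul_le_mul_of_nonneg_right e3 (by positivity)
    _ = _ := by ring

theorem Phi_lim {ζ : E3 → ℝ} {ψ : ℝ → ℝ} {g : TensorField} {x : E3} {C : ℝ} (hb : Bds g x C)
    (hψ : ContDiff ℝ 1 ψ) {s : ℕ → ℝ} {s₀ : ℝ} {p : ℕ → Cov} {p₀ : Cov} {m : ℕ → Bil} {m₀ : Bil}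
    (hs : Tendsto s atTop (𝓝 s₀)) (hp : ∀ i, Tendsto (fun n => p n i) atTop (𝓝 (p₀ i)))
    (hm : ∀ i j, Tendsto (fun n => m n i j) atTop (𝓝 (m₀ i j))) :
    Tendsto (fun n => Phi ζ ψ g x (s n) (p n) (m n)) atTop (𝓝 (Phi ζ ψ g x s₀ p₀ m₀)) := by
  have h1 : Tendsto (fun n => ψ (s n)) atTop (𝓝 (ψ s₀)) := (hψ.continuous.tendsto _).comp hs
  have h2 : Tendsto (fun n => deriv ψ (s n)) atTop (𝓝 (deriv ψ s₀)) :=
    ((hψ.continuous_deriv le_rfl).tendsto _).comp hs
  have h3 := t_len (g := g) (x := x) hp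
  have h4 : ∀ i, Tendsto (fun n => raise g x (p n) i) atTop (𝓝 (raise g x p₀ i)) := fun i =>
    tendsto_finsetSum _ fun j _ => tendsto_const_nhds.mul (hp j)
  have h5 : Tendsto (fun n => len g x (p n) * (bnn g x (p n) (cHess g x (p n) (m n))
      + trg g x (cHess g x (p n) (m n)))) atTop (𝓝 (len g x p₀ *
        (bnn g x p₀ (cHess g x p₀ m₀) + trg g x (cHess g x p₀ m₀)))) := by
    by_cases h0 : len g x p₀ = 0
    · rw [h0, zero_mul]
      have hC := hb.one
      have hz : vsq p₀ = 0 := by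
        have e1 : ev (g x)⁻¹ p₀ p₀ ≤ 0 := Real.sqrt_eq_zero'.mp h0
        have e2 := (hb.ell p₀).1.trans e1
        have e3 := MUP.vsq_nonneg p₀
        rw [div_le_iff₀ (by linarith), zero_mul] at e2
        linarith
      have h6 : Tendsto (fun n => vn (p n)) atTop (𝓝 0) := by
        have e1 : Tendsto (fun n => vsq (p n)) atTop (𝓝 (vsq p₀)) :=
          tendsto_finsetSum _ fun i _ => (hp i).pow 2
        rw [hz] at e1
        have e2 := (Real.continuous_sqrt.tendsto 0).comp e1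
        rw [Real.sqrt_zero] at e2
        exact e2
      have h7 : Tendsto (fun n => Real.sqrt (msq (m n))) atTop (𝓝 (Real.sqrt (msq m₀))) := by
        have e1 : Tendsto (fun n => msq (m n)) atTop (𝓝 (msq m₀)) :=
          tendsto_finsetSum _ fun i _ => tendsto_finsetSum _ fun j _ => (hm i j).pow 2
        exact (Real.continuous_sqrt.tendsto _).comp e1
      have h8 : Tendsto (fun n => (81 * C ^ 4 * (Real.sqrt (msq (m n)) + 3 * (C * vn (p n)))
          * vn (p n) + 9 * C ^ 2 * (Real.sqrt (msq (m n)) + 3 * (C * vn (p n))) * vn (p n)))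
          atTop (𝓝 0) := by
        have e1 := h7.add ((h6.const_mul C).const_mul 3)
        have e2 := ((e1.const_mul (81 * C ^ 4)).mul h6).add ((e1.const_mul (9 * C ^ 2)).mul h6)
        simpa using e2
      refine squeeze_zero_norm (fun n => ?_) h8
      rw [Real.norm_eq_abs, mul_add]
      exact (abs_add_le _ _).trans (add_le_add
        (lb hC hb.inv hb.ell (p n) (ch_bd hb.chr (p n) (m n)))
        (lt hC hb.inv hb.ell (p n) (ch_bd hb.chr (p n) (m n))))
    · exact h3.mul ((t_bnn hp h0 (t_cHess hp hm)).add (t_trg (t_cHess hp hm)))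
  unfold Phi
  exact ((((tendsto_const_nhds.mul h1).mul h5).mul tendsto_const_nhds).add
    (((tendsto_const_nhds.mul h2).mul (h3.pow 3)).mul tendsto_const_nhds)).add
    ((h1.mul (tendsto_finsetSum _ fun i _ => tendsto_const_nhds.mul (h3.mul (h4 i)))).mul
      tendsto_const_nhds)

theorem Phi_meas {μ : Measure E3} {g h : TensorField} (hc : Coef μ g h) {ζ : E3 → ℝ} {ψ : ℝ → ℝ}
    (hζ : ContDiff ℝ ∞ ζ) (hψ : ContDiff ℝ 1 ψ) {v : E3 → ℝ} {p : E3 → Cov} {m : E3 → Bil}
    (hv : AEMeasurable v μ) (hp : ∀ i, AEMeasurable (fun x => p x i) μ)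
    (hm : ∀ i j, AEMeasurable (fun x => m x i j) μ) :
    AEMeasurable (fun x => Phi ζ ψ g x (v x) (p x) (m x)) μ := by
  have h1 : AEMeasurable (fun x => ψ (v x)) μ := hψ.continuous.measurable.comp_aemeasurable hv
  have h2 : AEMeasurable (fun x => deriv ψ (v x)) μ :=
    (hψ.continuous_deriv le_rfl).measurable.comp_aemeasurable hv
  have h3 : AEMeasurable ζ μ := hζ.continuous.measurable.aemeasurable
  have h4 : ∀ i, AEMeasurable (pd i ζ) μ := fun i =>
    (ML4.contDiff_pd hζ i).continuous.measurable.aemeasurable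
  have h5 := m_len hc hp
  have h6 := m_cHess hc hp hm
  unfold Phi
  exact ((((h3.mul h1).mul (h5.mul ((m_bnn hc hp h6).add (m_trg hc h6)))).mul hc.vol).add
    (((h3.mul h2).mul (h5.pow_const 3)).mul hc.vol)).add
    ((h1.mul (m_sum _ fun i => (h4 i).mul (h5.mul (m_raise hc hp i)))).mul hc.vol)

theorem sub_ae {μ : Measure E3} {f : ℕ → E3 → ℝ} (hi : ∀ n, Integrable (f n) μ)
    (h0 : ∀ n x, 0 ≤ f n x) (h : Tendsto (fun n => ∫ x, f n x ∂μ) atTop (𝓝 0)) :
    ∃ φ : ℕ → ℕ, StrictMono φ ∧ ∀ᵐ x ∂μ, Tendsto (fun n => f (φ n) x) atTop (𝓝 0) := by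
  have h1 : Tendsto (fun n => eLpNorm (f n - (fun _ => (0 : ℝ))) 1 μ) atTop (𝓝 0) := by
    have : ∀ n, eLpNorm (f n - (fun _ => (0 : ℝ))) 1 μ = ENNReal.ofReal (∫ x, f n x ∂μ) :=
      fun n => by
      rw [eLpNorm_one_eq_lintegral_enorm, ofReal_integral_eq_lintegral_ofReal (hi n)
        (Eventually.of_forall (h0 n))]
      refine lintegral_congr fun x => ?_
      simp only [Pi.sub_apply, sub_zero]
      rw [Real.enorm_eq_ofReal (h0 n x)]
    simp only [this]
    have h2 := (ENNReal.continuous_ofReal.tendsto 0).comp h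
    rw [ENNReal.ofReal_zero] at h2
    exact h2
  have h2 := tendstoInMeasure_of_tendsto_eLpNorm one_ne_zero
    (fun n => (hi n).aestronglyMeasurable) aestronglyMeasurable_const h1
  obtain ⟨φ, hφ, hae⟩ := h2.exists_seq_tendsto_ae
  exact ⟨φ, hφ, hae⟩

theorem wt_int {K : Set E3} (hK : IsCompact K) {G : E3 → Cov} {M : E3 → Bil}
    (hG : ∀ i, MemLp (fun x => G x i) 4 (volume.restrict K))
    (hM : ∀ i j, MemLp (fun x => M x i j) 2 (volume.restrict K)) :
    IntegrableOn (fun x => wt (G x) (M x)) K := by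
  unfold wt
  refine Integrable.add (Integrable.add ?_ (integrable_finsetSum _ fun i _ => int4 (hG i)))
    (integrable_finsetSum _ fun i _ => integrable_finsetSum _ fun j _ => (hM i j).integrable_sq)
  exact integrableOn_const hK.measure_lt_top.ne

theorem dj_int {K : Set E3} {G : E3 → Cov} {M : E3 → Bil}
    (hG : ∀ i, MemLp (fun x => G x i) 4 (volume.restrict K))
    (hM : ∀ i j, MemLp (fun x => M x i j) 2 (volume.restrict K)) :
    IntegrableOn (fun x => dj (G x) (M x)) K := by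
  unfold dj
  exact Integrable.add (integrable_finsetSum _ fun i _ => int4 (hG i))
    (integrable_finsetSum _ fun i _ => integrable_finsetSum _ fun j _ => (hM i j).integrable_sq)

theorem dj_lim {K : Set E3} {G : ℕ → E3 → Cov} {M : ℕ → E3 → Bil}
    (hG : ∀ n i, MemLp (fun x => G n x i) 4 (volume.restrict K))
    (hM : ∀ n i j, MemLp (fun x => M n x i j) 2 (volume.restrict K))
    (hG0 : ∀ i, Tendsto (fun n => eLpNorm (fun x => G n x i) 4 (volume.restrict K)) atTop (𝓝 0))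
    (hM0 : ∀ i j, Tendsto (fun n => eLpNorm (fun x => M n x i j) 2 (volume.restrict K)) atTop
      (𝓝 0)) :
    Tendsto (fun n => ∫ x in K, dj (G n x) (M n x)) atTop (𝓝 0) := by
  have h1 : ∀ n, ∫ x in K, dj (G n x) (M n x)
      = ∑ i, (∫ x in K, G n x i ^ 4) + ∑ i, ∑ j, ∫ x in K, M n x i j ^ 2 := by
    intro n
    unfold dj
    rw [integral_add (integrable_finsetSum _ fun i _ => int4 (hG n i))
      (integrable_finsetSum _ fun i _ => integrable_finsetSum _ fun j _ =>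
        (hM n i j).integrable_sq),
      integral_finsetSum _ fun i _ => int4 (hG n i),
      integral_finsetSum _ fun i _ => integrable_finsetSum _ fun j _ => (hM n i j).integrable_sq]
    congr 1
    exact Finset.sum_congr rfl fun i _ => integral_finsetSum _ fun j _ => (hM n i j).integrable_sq
  simp only [h1]
  have h2 := (tendsto_finsetSum (Finset.univ : Finset (Fin 3)) fun i _ =>
    int4_tendsto (fun n => hG n i) (hG0 i)).add
    (tendsto_finsetSum (Finset.univ : Finset (Fin 3)) fun i _ =>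
      tendsto_finsetSum (Finset.univ : Finset (Fin 3)) fun j _ =>
        int2_tendsto (fun n => hM n i j) (hM0 i j))
  simpa using h2

theorem tz2 {a : ℕ → ℝ} (h : Tendsto (fun n => a n ^ 2) atTop (𝓝 0)) : Tendsto a atTop (𝓝 0) := by
  have h1 := (Real.continuous_sqrt.tendsto 0).comp h
  rw [Real.sqrt_zero] at h1
  rw [tendsto_zero_iff_abs_tendsto_zero]
  exact h1.congr fun n => Real.sqrt_sq_eq_abs _

theorem tz4 {a : ℕ → ℝ} (h : Tendsto (fun n => a n ^ 4) atTop (𝓝 0)) : Tendsto a atTop (𝓝 0) := by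
  refine tz2 (tz2 (h.congr fun n => ?_))
  ring

theorem limit_id (hLD : Stmt_LD) (hL4 : Stmt_L4) (hIB : Stmt_IB) (hZD : Stmt_ZD) (hCT : Stmt_CT)
    {U : Set E3} {g h : TensorField} {w : E3 → ℝ} {G : E3 → Cov} {M : E3 → Bil} {ζ : E3 → ℝ}
    {ψ : ℝ → ℝ} (hU : IsOpen U) (hg : MetricOn U g) (hh : TensorOn U h) (hw : H2On U w G M)
    (hζ : ContDiff ℝ ∞ ζ) (hζc : HasCompactSupport ζ) (hζU : tsupport ζ ⊆ U)
    (hψ : ContDiff ℝ 1 ψ) :
    ∫ x in tsupport ζ, Phi ζ ψ g x (w x) (G x) (M x) = 0 := by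
  have h2 := hL4 U w G M hU hw
  have hK : IsCompact (tsupport ζ) := hζc
  have hKm : MeasurableSet (tsupport ζ) := (isClosed_tsupport ζ).measurableSet
  obtain ⟨v, hv, hvu, hvG, hvM⟩ := h2.approx _ hK hζU
  obtain ⟨C, hC1, hC⟩ := hCT U g h hU hg hh _ hK hζU
  have hb : ∀ x ∈ tsupport ζ, Bds g x C := fun x hx => by
    obtain ⟨c1, -, -, c4, -, -, -, -, c9, c10, c11⟩ := hC x hx
    exact ⟨hC1, c9, c1, c4, le_trans (by positivity) c10, c11⟩
  obtain ⟨R, hR⟩ := hK.exists_bound_of_continuousOn (hw.cont.mono hζU)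
  obtain ⟨N, hN⟩ : ∃ N, ∀ n, ∀ x ∈ tsupport ζ, |v (n + N) x - w x| ≤ 1 := by
    have h3 := (Metric.tendstoUniformlyOn_iff.mp hvu) 1 one_pos
    obtain ⟨N, hN⟩ := eventually_atTop.mp h3
    refine ⟨N, fun n x hx => ?_⟩
    have h4 := hN (n + N) (by omega) x hx
    rw [dist_comm, Real.dist_eq] at h4
    exact h4.le
  have hvR : ∀ n, ∀ x ∈ tsupport ζ, v (n + N) x ∈ Set.Icc (-(R + 1)) (R + 1) := fun n x hx => by
    have h3 := hN n x hx
    have h4 := hR x hx
    rw [Real.norm_eq_abs] at h4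
    rw [abs_le] at h3 h4
    constructor <;> linarith [h3.1, h3.2, h4.1, h4.2]
  have hwR : ∀ x ∈ tsupport ζ, w x ∈ Set.Icc (-(R + 1)) (R + 1) := fun x hx => by
    have h4 := hR x hx
    rw [Real.norm_eq_abs, abs_le] at h4
    constructor <;> linarith [h4.1, h4.2]
  obtain ⟨P, hP⟩ : ∃ P : ℝ, ∀ s ∈ Set.Icc (-(R + 1)) (R + 1), |ψ s| ≤ P ∧ |deriv ψ s| ≤ P := by
    obtain ⟨P1, hP1⟩ := isCompact_Icc.exists_bound_of_continuousOn
      (hψ.continuous.continuousOn (s := Set.Icc (-(R + 1)) (R + 1)))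
    obtain ⟨P2, hP2⟩ := isCompact_Icc.exists_bound_of_continuousOn
      ((hψ.continuous_deriv le_rfl).continuousOn (s := Set.Icc (-(R + 1)) (R + 1)))
    exact ⟨max P1 P2, fun s hs => ⟨(hP1 s hs).trans (le_max_left _ _),
      (hP2 s hs).trans (le_max_right _ _)⟩⟩
  obtain ⟨Z, hZ⟩ : ∃ Z : ℝ, ∀ x ∈ tsupport ζ, |ζ x| ≤ Z ∧ ∀ i, |pd i ζ x| ≤ Z := by
    obtain ⟨Z0, hZ0⟩ := hK.exists_bound_of_continuousOn hζ.continuous.continuousOn
    have h3 : ∀ i, ∃ Z' : ℝ, ∀ x ∈ tsupport ζ, ‖pd i ζ x‖ ≤ Z' := fun i =>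
      hK.exists_bound_of_continuousOn (ML4.contDiff_pd hζ i).continuous.continuousOn
    choose Z' hZ' using h3
    refine ⟨max Z0 (max (Z' 0) (max (Z' 1) (Z' 2))), fun x hx =>
      ⟨(hZ0 x hx).trans (le_max_left _ _), fun i => (hZ' i x hx).trans ?_⟩⟩
    fin_cases i <;> simp
  -- the differences
  have hmG : ∀ n i, MemLp (fun x => (fun i => pd i (v (n + N)) x - G x i : Cov) i) 4
      (volume.restrict (tsupport ζ)) := fun n i =>
    (ML4.memLp_cont hK (ML4.contDiff_pd (hv _) i).continuous 4).sub (h2.memG _ hK hζU i)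
  have hmM : ∀ n i j, MemLp (fun x => (hess2 (v (n + N)) x - M x : Bil) i j) 2
      (volume.restrict (tsupport ζ)) := fun n i j =>
    (ML4.memLp_cont hK (ML4.contDiff_pd (ML4.contDiff_pd (hv _) j) i).continuous 2).sub
      (h2.memM _ hK hζU i j)
  have hdl := dj_lim hmG hmM (fun i => (hvG i).comp (tendsto_add_atTop_nat N))
    (fun i j => (hvM i j).comp (tendsto_add_atTop_nat N))
  have hdi : ∀ n, IntegrableOn (fun x => dj (fun i => pd i (v (n + N)) x - G x i)
      (hess2 (v (n + N)) x - M x)) (tsupport ζ) := fun n => dj_int (hmG n) (hmM n)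
  obtain ⟨φ, hφ, hae⟩ := sub_ae hdi (fun n x => dj_nonneg _ _) hdl
  -- the constants
  obtain ⟨A, hA⟩ : ∃ A : ℝ, A = 741 * C ^ 6 * |Z| * |P| := ⟨_, rfl⟩
  have hA0 : 0 ≤ A := by
    rw [hA]
    have : 0 ≤ C := by linarith
    positivity
  have hPb : ∀ x ∈ tsupport ζ, ∀ s ∈ Set.Icc (-(R + 1)) (R + 1), ∀ p m,
      |Phi ζ ψ g x s p m| ≤ A * wt p m := by
    intro x hx s hs p m
    have e1 := Phi_bd (hb x hx) ((hZ x hx).1.trans (le_abs_self Z))
      (fun i => ((hZ x hx).2 i).trans (le_abs_self Z)) ((hP s hs).1.trans (le_abs_self P))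
      ((hP s hs).2.trans (le_abs_self P)) p m
    rw [hA]
    exact e1
  have hc := coef hU hg hh hK hζU
  have hmeas : ∀ n, AEStronglyMeasurable (fun x => Phi ζ ψ g x (v (φ n + N) x)
      (grad (v (φ n + N)) x) (hess2 (v (φ n + N)) x)) (volume.restrict (tsupport ζ)) := fun n =>
    (Phi_meas hc hζ hψ (hv _).continuous.measurable.aemeasurable
      (fun i => (ML4.contDiff_pd (hv _) i).continuous.measurable.aemeasurable)
      (fun i j => (ML4.contDiff_pd (ML4.contDiff_pd (hv _) j) i).continuous.measurable.aemeasurable)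
      ).aestronglyMeasurable
  have hT := conv (μ := volume.restrict (tsupport ζ)) (H := fun x => 8 * A * wt (G x) (M x))
    (f := fun n x => Phi ζ ψ g x (v (φ n + N) x) (grad (v (φ n + N)) x) (hess2 (v (φ n + N)) x))
    (f0 := fun x => Phi ζ ψ g x (w x) (G x) (M x))
    (e := fun n x => 8 * A * dj (fun i => pd i (v (φ n + N)) x - G x i)
      (hess2 (v (φ n + N)) x - M x)) hmeas
    ((wt_int hK (h2.memG _ hK hζU) (h2.memM _ hK hζU)).const_mul _)
    (fun n => (hdi (φ n)).const_mul _)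
    (fun n x => mul_nonneg (by positivity) (dj_nonneg _ _))
    (fun n => ?_) ?_ ?_ ?_
  · refine tendsto_nhds_unique hT ?_
    have e1 : ∀ n, ∫ x in tsupport ζ, Phi ζ ψ g x (v (φ n + N) x) (grad (v (φ n + N)) x)
        (hess2 (v (φ n + N)) x) = 0 := fun n =>
      smooth_id hLD hIB hZD hU hg (hv _) hζ hζc hζU hψ
    simp only [e1]
    exact tendsto_const_nhds
  · refine (ae_restrict_iff' hKm).mpr (Eventually.of_forall fun x hx => ?_)
    have e1 := hPb x hx _ (hvR (φ n) x hx) (grad (v (φ n + N)) x) (hess2 (v (φ n + N)) x)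
    have e2 := wt_add (G x) (fun i => pd i (v (φ n + N)) x - G x i) (M x)
      (hess2 (v (φ n + N)) x - M x)
    have e3 : (fun i => G x i + (pd i (v (φ n + N)) x - G x i)) = grad (v (φ n + N)) x := by
      funext i
      simp [grad]
    rw [e3, add_sub_cancel] at e2
    have e4 := mul_le_mul_of_nonneg_left e2 hA0
    linarith
  · have e1 := (hdl.comp hφ.tendsto_atTop).const_mul (8 * A)
    rw [mul_zero] at e1
    refine e1.congr fun n => ?_
    rw [integral_const_mul]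
    rfl
  · filter_upwards [hae, ae_restrict_mem hKm] with x hx hxK
    have e1 : ∀ i, Tendsto (fun n => pd i (v (φ n + N)) x - G x i) atTop (𝓝 0) := fun i => by
      have f1 : Tendsto (fun n => (pd i (v (φ n + N)) x - G x i) ^ 4) atTop (𝓝 0) :=
        squeeze_zero (fun n => by positivity) (fun n => le_dj_p (fun i => pd i (v (φ n + N)) x
          - G x i) (hess2 (v (φ n + N)) x - M x) i) hx
      exact tz4 f1
    have e2 : ∀ i j, Tendsto (fun n => hess2 (v (φ n + N)) x i j - M x i j) atTop (𝓝 0) :=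
      fun i j => by
      have f1 : Tendsto (fun n => (hess2 (v (φ n + N)) x i j - M x i j) ^ 2) atTop (𝓝 0) :=
        squeeze_zero (fun n => by positivity) (fun n => le_dj_m (fun i => pd i (v (φ n + N)) x
          - G x i) (hess2 (v (φ n + N)) x - M x) i j) hx
      exact tz2 f1
    have e3 : Tendsto (fun n => v (φ n + N) x) atTop (𝓝 (w x)) :=
      (hvu.tendsto_at hxK).comp ((tendsto_add_atTop_nat N).comp hφ.tendsto_atTop)
    refine Phi_lim (hb x hxK) hψ e3 (fun i => ?_) (fun i j => ?_)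
    · have f2 := (e1 i).add_const (G x i)
      rw [zero_add] at f2
      refine f2.congr fun n => ?_
      simp [grad]
    · have f2 := (e2 i j).add_const (M x i j)
      rw [zero_add] at f2
      refine f2.congr fun n => ?_
      simp
  · refine (ae_restrict_iff' hKm).mpr (Eventually.of_forall fun x hx => ?_)
    have e1 := hPb x hx _ (hwR x hx) (G x) (M x)
    have e2 : 0 ≤ A * wt (G x) (M x) := (abs_nonneg _).trans e1
    linarith

/-! ### The identity -/

theorem raise_zero (g : TensorField) (x : E3) (i : Fin 3) : raise g x 0 i = 0 := by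
  simp [raise]

theorem len2_bnn {g : TensorField} {x : E3} {C : ℝ} (hb : Bds g x C) (p : Cov) (B : Bil) :
    len g x p ^ 2 * bnn g x p B = ev B (raise g x p) (raise g x p) := by
  by_cases hp : p = 0
  · rw [hp, len_zero]
    simp [ev, raise_zero]
  · have h1 : 0 < len g x p := by
      have e1 := (hb.ell p).1
      have e2 := vsq_pos hp
      have e3 := hb.one
      exact Real.sqrt_pos.mpr (lt_of_lt_of_le (by positivity) e1)
    unfold bnn ev nrm
    rw [Finset.mul_sum]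
    refine Finset.sum_congr rfl fun i _ => ?_
    rw [Finset.mul_sum]
    refine Finset.sum_congr rfl fun j _ => ?_
    field_simp

theorem alg {ε l T N H Bh Rh s s' v t bh : ℝ} (hε : ε < 1) (h1 : T + ε * N = l ^ 2 + l * H)
    (h2 : H = t - (1 - ε) * bh) (h3 : Rh = l ^ 2 * bh) (h4 : Bh = t - bh) :
    s * (l * T - l ^ 3 / (2 - ε) - (l ^ 2 * t - Rh)) * v
      - 1 / (2 - ε) * ((s + ε * s') * l ^ 3 * v)
      + ε / (2 - ε) * (s * (l * (N + (T + N))) * v + s' * l ^ 3 * v)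
      = s * l ^ 2 * (2 / (2 - ε) * H - Bh) * v := by
  have h5 : T = l ^ 2 + l * H - ε * N := by linarith
  have h6 : (2 - ε) ≠ 0 := by linarith
  rw [h5, h3, h4, h2]
  field_simp
  ring

theorem alg_ae {ε C : ℝ} {g h : TensorField} {x : E3} {p : Cov} {M : Bil} {s s' : ℝ} (hε : ε < 1)
    (hb : Bds g x C)
    (hE : p ≠ 0 → beps ε g x p (cHess g x p M) = len g x p ^ 2 + len g x p * beps ε g x p (h x)) :
    s * flux ε g h x p M * volDen g x - 1 / (2 - ε) * ((s + ε * s') * len g x p ^ 3 * volDen g x)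
      + ε / (2 - ε) * (s * (len g x p * (bnn g x p (cHess g x p M) + trg g x (cHess g x p M)))
        * volDen g x + s' * len g x p ^ 3 * volDen g x)
      = s * len g x p ^ 2 * (2 / (2 - ε) * beps ε g x p (h x) - btan g x p (h x))
        * volDen g x := by
  by_cases hp : p = 0
  · have e1 : ev (h x) (raise g x p) (raise g x p) = 0 := by
      rw [hp]
      simp [ev, raise_zero]
    unfold flux
    rw [e1, hp, len_zero]
    ring
  · have h1 := hE hp
    have h2 := len2_bnn hb p (h x)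
    have h3 : trg g x (cHess g x p M) = btan g x p (cHess g x p M) + bnn g x p (cHess g x p M) := by
      unfold btan
      ring
    unfold flux
    rw [add_comm (bnn g x p (cHess g x p M)), h3, add_comm (_ + _) (bnn g x p (cHess g x p M))]
    refine alg (H := beps ε g x p (h x)) (bh := bnn g x p (h x)) hε ?_ rfl h2.symm rfl
    rw [← h1]
    unfold beps btan
    ring

theorem flux_bd {ε C : ℝ} {g h : TensorField} {x : E3} (hε : ε < 1) (hb : Bds g x C)
    (hh : ∀ i j, |h x i j| ≤ C) (p : Cov) (m : Bil) :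
    |flux ε g h x p m| ≤ 903 * C ^ 5 * wt p m := by
  have hC := hb.one
  have hW := wt_ge p m
  have hW0 : 0 ≤ wt p m := by linarith
  have h1 := bd_btan hC hb.inv hb.ell hb.chr p m
  have h2 : |len g x p ^ 3 / (2 - ε)| ≤ 3 * C ^ 3 * wt p m := by
    have e1 := bd_len3 hC hb.ell p m
    have e2 := pow_nonneg (len_nonneg (g := g) (x := x) p) 3
    rw [abs_of_nonneg (div_nonneg e2 (by linarith))]
    exact (div_le_self e2 (by linarith)).trans e1
  have h3 : |len g x p ^ 2 * trg g x (h x)| ≤ 2 * C ^ 2 * wt p m * (9 * (C * C)) := by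
    refine abs_mul_le ?_ (tr2_bd hb.inv hh)
    rw [abs_of_nonneg (pow_nonneg (len_nonneg p) 2)]
    exact bd_len2 hC hb.ell p m
  have h4 : |ev (h x) (raise g x p) (raise g x p)| ≤ 9 * (C * (3 * (C * vn p))
      * (3 * (C * vn p))) :=
    ev_bd hh (up_bd hb.inv (abs_le_vn p)) (up_bd hb.inv (abs_le_vn p))
  have h5 : 9 * (C * (3 * (C * vn p)) * (3 * (C * vn p))) ≤ 162 * C ^ 3 * wt p m := by
    have e1 : 9 * (C * (3 * (C * vn p)) * (3 * (C * vn p))) = 81 * C ^ 3 * vn p ^ 2 := by ring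
    have e2 : 81 * C ^ 3 * vn p ^ 2 ≤ 81 * C ^ 3 * (2 * wt p m) :=
      mul_le_mul_of_nonneg_left (vn2_le_wt p m) (by positivity)
    linarith
  unfold flux
  refine (abs_sub _ _).trans ((add_le_add ((abs_sub _ _).trans (add_le_add h1 h2))
    ((abs_sub _ _).trans (add_le_add h3 (h4.trans h5)))).trans ?_)
  have e1 : C ^ 3 ≤ C ^ 5 := pow_le_pow_right₀ hC (by norm_num)
  have e2 : C ^ 4 ≤ C ^ 5 := pow_le_pow_right₀ hC (by norm_num)
  have e3 : 720 * C ^ 5 + 3 * C ^ 3 + 18 * C ^ 4 + 162 * C ^ 3 ≤ 903 * C ^ 5 := by linarith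
  calc _ = (720 * C ^ 5 + 3 * C ^ 3 + 18 * C ^ 4 + 162 * C ^ 3) * wt p m := by ring
    _ ≤ 903 * C ^ 5 * wt p m := mul_le_mul_of_nonneg_right e3 hW0

theorem int_of_wt {K : Set E3} (hK : IsCompact K) {G : E3 → Cov} {M : E3 → Bil} {f : E3 → ℝ}
    {c : ℝ} (hG : ∀ i, MemLp (fun x => G x i) 4 (volume.restrict K))
    (hM : ∀ i j, MemLp (fun x => M x i j) 2 (volume.restrict K))
    (hf : AEMeasurable f (volume.restrict K)) (hb : ∀ x ∈ K, |f x| ≤ c * wt (G x) (M x)) :
    IntegrableOn f K :=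
  ((wt_int hK hG hM).const_mul c).mono' hf.aestronglyMeasurable
    ((ae_restrict_iff' hK.measurableSet).mpr (Eventually.of_forall hb))

theorem int_comb {μ : Measure E3} {A B E D : E3 → ℝ} {c d : ℝ} (iA : Integrable A μ)
    (iB : Integrable B μ) (iE : Integrable E μ) (h : ∀ᵐ x ∂μ, A x - c * B x + d * E x = D x)
    (h0 : ∫ x, E x ∂μ = 0) : ∫ x, A x ∂μ = c * ∫ x, B x ∂μ + ∫ x, D x ∂μ := by
  have h1 : ∫ x, D x ∂μ = ∫ x, (A x - c * B x + d * E x) ∂μ :=
    integral_congr_ae (h.mono fun x hx => hx.symm)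
  have h2 : ∫ x, (A x - c * B x + d * E x) ∂μ
      = ∫ x, (A x - c * B x) ∂μ + ∫ x, d * E x ∂μ :=
    integral_add (iA.sub (iB.const_mul c)) (iE.const_mul d)
  have h3 : ∫ x, (A x - c * B x) ∂μ = ∫ x, A x ∂μ - ∫ x, c * B x ∂μ :=
    integral_sub iA (iB.const_mul c)
  rw [h1, h2, h3, integral_const_mul, integral_const_mul, h0]
  ring

theorem main (hLD : Stmt_LD) (hL4 : Stmt_L4) (hIB : Stmt_IB) (hZD : Stmt_ZD) (hCT : Stmt_CT)
    {ε : ℝ} {U : Set E3} {g h : TensorField} {w : E3 → ℝ} {G : E3 → Cov} {M : E3 → Bil}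
    (hε1 : ε < 1) (hU : IsOpen U) (hg : MetricOn U g) (hh : TensorOn U h)
    (hw : H2On U w G M) (hEq : EqW U ε g h G M) {ψ : ℝ → ℝ} {K : Set E3} (hψ : ContDiff ℝ 1 ψ)
    (hK : IsCompact K) (hKU : K ⊆ U) (hKψ : ∀ x ∈ U, w x ∈ tsupport ψ → x ∈ K) :
    ∫ x in U, ψ (w x) * flux ε g h x (G x) (M x) * volDen g x
        = 1 / (2 - ε) * (∫ x in U, (ψ (w x) + ε * deriv ψ (w x)) * len g x (G x) ^ 3
            * volDen g x)
          + ∫ x in U, ψ (w x) * len g x (G x) ^ 2
              * (2 / (2 - ε) * beps ε g x (G x) (h x) - btan g x (G x) (h x)) * volDen g x := by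
  have h2 := hL4 U w G M hU hw
  have hGK := h2.memG K hK hKU
  have hMK := h2.memM K hK hKU
  -- the cut-off
  obtain ⟨L, hL, hKL, hLU⟩ := exists_compact_between hK hU hKU
  obtain ⟨ζ, h1, h0, -⟩ := exists_contMDiffMap_one_nhds_of_subset_interior (modelWithCornersSelf ℝ E3)
    (n := ⊤) hK.isClosed hKL
  have hζ : ContDiff ℝ ((⊤ : ℕ∞) : WithTop ℕ∞) (fun x => ζ x) := ζ.contMDiff.contDiff
  have hone : ∀ x ∈ K, (fun y => ζ y) =ᶠ[𝓝 x] fun _ => (1 : ℝ) := fun x hx =>
    (eventually_nhdsSet_iff_forall.1 h1) x hx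
  have hζs : tsupport (fun x => ζ x) ⊆ L := by
    refine closure_minimal ?_ hL.isClosed
    intro x hx
    by_contra hxL
    exact hx (h0 x hxL)
  have hζc : HasCompactSupport (fun x => ζ x) := hL.of_isClosed_subset (isClosed_tsupport _) hζs
  have hid := limit_id hLD hL4 hIB hZD hCT hU hg hh hw hζ hζc (hζs.trans hLU) hψ
  -- outside of `K`
  have hz : ∀ x ∈ U, x ∉ K → ψ (w x) = 0 ∧ deriv ψ (w x) = 0 := fun x hx hxK => by
    have e1 : w x ∉ tsupport ψ := fun hc => hxK (hKψ x hx hc)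
    refine ⟨image_eq_zero_of_notMem_tsupport e1, ?_⟩
    have e2 : w x ∉ tsupport (deriv ψ) := fun hc => e1 (tsupport_deriv_subset hc)
    exact image_eq_zero_of_notMem_tsupport e2
  obtain ⟨E, hE⟩ : ∃ E : E3 → ℝ, ∀ x, E x = ψ (w x) * (len g x (G x) *
      (bnn g x (G x) (cHess g x (G x) (M x)) + trg g x (cHess g x (G x) (M x)))) * volDen g x
      + deriv ψ (w x) * len g x (G x) ^ 3 * volDen g x := ⟨_, fun _ => rfl⟩
  have hKT : K ⊆ tsupport (fun x => ζ x) := fun x hx => by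
    refine subset_tsupport _ ?_
    have e1 : ζ x = 1 := (hone x hx).self_of_nhds
    simp [e1]
  have hEK : ∫ x in K, E x = 0 := by
    rw [← hid]
    have e1 : ∫ x in tsupport (fun x => ζ x), E x = ∫ x in K, E x := by
      refine setIntegral_eq_of_subset_of_forall_sdiff_eq_zero
        (isClosed_tsupport (fun x => ζ x)).measurableSet hKT fun x hx => ?_
      obtain ⟨e2, e3⟩ := hz x (hLU (hζs hx.1)) hx.2
      rw [hE, e2, e3]
      ring
    rw [← e1]
    refine setIntegral_congr_fun (isClosed_tsupport (fun x => ζ x)).measurableSet fun x hx => ?_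
    by_cases hxK : x ∈ K
    · have e2 : ζ x = 1 := (hone x hxK).self_of_nhds
      have e3 : ∀ i, pd i (fun x => ζ x) x = 0 := fun i => by
        unfold pd
        rw [(hone x hxK).fderiv_eq]
        simp
      rw [hE]
      unfold Phi
      simp only [e2, e3]
      simp
    · obtain ⟨e2, e3⟩ := hz x (hLU (hζs hx)) hxK
      rw [hE]
      unfold Phi
      rw [e2, e3]
      ring
  -- bounds
  obtain ⟨C, hC1, hC⟩ := hCT U g h hU hg hh K hK hKU
  have hb : ∀ x ∈ K, Bds g x C := fun x hx => by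
    obtain ⟨c1, -, -, c4, -, -, -, -, c9, c10, c11⟩ := hC x hx
    exact ⟨hC1, c9, c1, c4, le_trans (by positivity) c10, c11⟩
  have hhb : ∀ x ∈ K, ∀ i j, |h x i j| ≤ C := fun x hx => (hC x hx).2.2.2.2.1
  have hwK : ContinuousOn w K := hw.cont.mono hKU
  obtain ⟨P, hP0, hP⟩ : ∃ P : ℝ, 0 ≤ P ∧ ∀ x ∈ K, |ψ (w x)| ≤ P ∧ |deriv ψ (w x)| ≤ P := by
    obtain ⟨P1, hP1⟩ := hK.exists_bound_of_continuousOn (hψ.continuous.comp_continuousOn hwK)
    obtain ⟨P2, hP2⟩ := hK.exists_bound_of_continuousOn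
      ((hψ.continuous_deriv le_rfl).comp_continuousOn hwK)
    exact ⟨|max P1 P2|, abs_nonneg _, fun x hx =>
      ⟨((hP1 x hx).trans (le_max_left _ _)).trans (le_abs_self _),
      ((hP2 x hx).trans (le_max_right _ _)).trans (le_abs_self _)⟩⟩
  have hc := coef hU hg hh hK hKU
  have mw : AEMeasurable w (volume.restrict K) :=
    (hwK.aestronglyMeasurable hK.measurableSet).aemeasurable
  have m1 : AEMeasurable (fun x => ψ (w x)) (volume.restrict K) :=
    hψ.continuous.measurable.comp_aemeasurable mw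
  have m2 : AEMeasurable (fun x => deriv ψ (w x)) (volume.restrict K) :=
    (hψ.continuous_deriv le_rfl).measurable.comp_aemeasurable mw
  have mG : ∀ i, AEMeasurable (fun x => G x i) (volume.restrict K) := fun i =>
    (hGK i).aestronglyMeasurable.aemeasurable
  have mM : ∀ i j, AEMeasurable (fun x => M x i j) (volume.restrict K) := fun i j =>
    (hMK i j).aestronglyMeasurable.aemeasurable
  have hvol : ∀ x ∈ K, |volDen g x| ≤ C := fun x hx => by
    rw [abs_of_nonneg (hb x hx).vol0]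
    exact (hb x hx).vol
  have hl3 : ∀ x ∈ K, |len g x (G x) ^ 3| ≤ 3 * C ^ 3 * wt (G x) (M x) := fun x hx => by
    rw [abs_of_nonneg (pow_nonneg (len_nonneg _) 3)]
    exact bd_len3 hC1 (hb x hx).ell _ _
  have iA : IntegrableOn (fun x => ψ (w x) * flux ε g h x (G x) (M x) * volDen g x) K := by
    refine int_of_wt (c := P * (903 * C ^ 5) * C) hK hGK hMK ((m1.mul (m_flux hc ε mG mM)).mul
      hc.vol) fun x hx => ?_
    have e1 := abs_mul_le (abs_mul_le (hP x hx).1 (flux_bd hε1 (hb x hx) (hhb x hx) (G x) (M x)))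
      (hvol x hx)
    refine e1.trans (le_of_eq ?_)
    ring
  have iB : IntegrableOn (fun x => (ψ (w x) + ε * deriv ψ (w x)) * len g x (G x) ^ 3
      * volDen g x) K := by
    refine int_of_wt (c := (P + |ε| * P) * (3 * C ^ 3) * C) hK hGK hMK
      (((m1.add (m2.const_mul ε)).mul ((m_len hc mG).pow_const 3)).mul hc.vol) fun x hx => ?_
    have e2 : |ψ (w x) + ε * deriv ψ (w x)| ≤ P + |ε| * P :=
      (abs_add_le _ _).trans (add_le_add (hP x hx).1 (abs_mul_le le_rfl (hP x hx).2))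
    have e1 := abs_mul_le (abs_mul_le e2 (hl3 x hx)) (hvol x hx)
    refine e1.trans (le_of_eq ?_)
    ring
  have iE : IntegrableOn E K := by
    have e3 : E = fun x => ψ (w x) * (len g x (G x) *
      (bnn g x (G x) (cHess g x (G x) (M x)) + trg g x (cHess g x (G x) (M x)))) * volDen g x
      + deriv ψ (w x) * len g x (G x) ^ 3 * volDen g x := funext hE
    rw [e3]
    have m3 := m_cHess hc mG mM
    refine int_of_wt (c := P * (720 * C ^ 5) * C + P * (3 * C ^ 3) * C) hK hGK hMK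
      (((m1.mul ((m_len hc mG).mul ((m_bnn hc mG m3).add (m_trg hc m3)))).mul hc.vol).add
        ((m2.mul ((m_len hc mG).pow_const 3)).mul hc.vol)) fun x hx => ?_
    have e1 := abs_mul_le (abs_mul_le (hP x hx).1 (bd_sum hC1 (hb x hx).inv (hb x hx).ell
      (hb x hx).chr (G x) (M x))) (hvol x hx)
    have e2 := abs_mul_le (abs_mul_le (hP x hx).2 (hl3 x hx)) (hvol x hx)
    refine (abs_add_le _ _).trans ((add_le_add e1 e2).trans (le_of_eq ?_))
    ring
  -- reduction to `K`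
  have rK : ∀ f : E3 → ℝ, (∀ x ∈ U \ K, f x = 0) → ∫ x in U, f x = ∫ x in K, f x := fun f hf =>
    setIntegral_eq_of_subset_of_forall_sdiff_eq_zero hU.measurableSet hKU hf
  rw [rK _ fun x hx => by rw [(hz x hx.1 hx.2).1]; ring,
    rK _ fun x hx => by rw [(hz x hx.1 hx.2).1, (hz x hx.1 hx.2).2]; ring,
    rK _ fun x hx => by rw [(hz x hx.1 hx.2).1]; ring]
  refine int_comb (c := 1 / (2 - ε)) (d := ε / (2 - ε)) iA iB iE ?_ hEK
  have e1 : ∀ᵐ x ∂(volume.restrict K), (G x ≠ 0 → beps ε g x (G x) (cHess g x (G x) (M x))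
    = len g x (G x) ^ 2 + len g x (G x) * beps ε g x (G x) (h x)) ∧ (G x = 0 → M x = 0) :=
    ae_restrict_of_ae_restrict_of_subset hKU hEq
  filter_upwards [e1, ae_restrict_mem hK.measurableSet] with x hx hxK
  rw [hE]
  exact alg_ae hε1 (hb x hxK) hx.1

end EXID

/-- The identity for the flux density. -/
theorem XID (hLD : Stmt_LD) (hL4 : Stmt_L4) (hIB : Stmt_IB) (hZD : Stmt_ZD) (hCT : Stmt_CT) :
    Stmt_XID := by
  intro ε a b g h w G M _ hε1 _ _ hg hh hw hEq _ ψ K hψ hK hKU hKψ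
  have hU : IsOpen (Ann a b) :=
    (isOpen_lt continuous_const continuous_norm).inter (isOpen_lt continuous_norm continuous_const)
  exact EXID.main hLD hL4 hIB hZD hCT hε1 hU hg hh hw hEq hψ hK hKU hKψ

end Pool.Agent.PFlow
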