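import Pool.Agent.PFlow.P.Main
import Pool.Agent.PFlow.M_Main
import Pool.Agent.PFlow.E.ABS
import Pool.Agent.PFlow.E.ABSF
import Pool.Agent.PFlow.E.ABSI
import Pool.Agent.PFlow.E.ABSM
import Pool.Agent.PFlow.E.ABSW
import Pool.Agent.PFlow.E.ABSX
import Pool.Agent.PFlow.E.AFD
import Pool.Agent.PFlow.E.BARA
import Pool.Agent.PFlow.E.BARB
import Pool.Agent.PFlow.E.BARR
import Pool.Agent.PFlow.E.BETA
import Pool.Agent.PFlow.E.CUTD
import Pool.Agent.PFlow.E.CUTM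
import Pool.Agent.PFlow.E.DEFE
import Pool.Agent.PFlow.E.DIVA
import Pool.Agent.PFlow.E.DIVG
import Pool.Agent.PFlow.E.EETA
import Pool.Agent.PFlow.E.ENER
import Pool.Agent.PFlow.E.EPS
import Pool.Agent.PFlow.E.EXI1
import Pool.Agent.PFlow.E.FLX
import Pool.Agent.PFlow.E.FLXA
import Pool.Agent.PFlow.E.GRADL
import Pool.Agent.PFlow.E.HATA
import Pool.Agent.PFlow.E.HATB
import Pool.Agent.PFlow.E.HATC
import Pool.Agent.PFlow.E.HOLA
import Pool.Agent.PFlow.E.HSM2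
import Pool.Agent.PFlow.E.HSYM
import Pool.Agent.PFlow.E.JINT
import Pool.Agent.PFlow.E.JL
import Pool.Agent.PFlow.E.JPROD
import Pool.Agent.PFlow.E.JUP
import Pool.Agent.PFlow.E.KAP
import Pool.Agent.PFlow.E.LE
import Pool.Agent.PFlow.E.LE1
import Pool.Agent.PFlow.E.LE2
import Pool.Agent.PFlow.E.LEY
import Pool.Agent.PFlow.E.LIM
import Pool.Agent.PFlow.E.LIMK2
import Pool.Agent.PFlow.E.LOC
import Pool.Agent.PFlow.E.LOCU
import Pool.Agent.PFlow.E.MAIN2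
import Pool.Agent.PFlow.E.MAIN3
import Pool.Agent.PFlow.E.MATL
import Pool.Agent.PFlow.E.MOD
import Pool.Agent.PFlow.E.MODM
import Pool.Agent.PFlow.E.MSI
import Pool.Agent.PFlow.E.MSII
import Pool.Agent.PFlow.E.MSIII
import Pool.Agent.PFlow.E.PER
import Pool.Agent.PFlow.E.PERA
import Pool.Agent.PFlow.E.PHI
import Pool.Agent.PFlow.E.POI
import Pool.Agent.PFlow.E.PTD
import Pool.Agent.PFlow.E.RADN
import Pool.Agent.PFlow.E.SCAL
import Pool.Agent.PFlow.E.SETW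
import Pool.Agent.PFlow.E.SHELL
import Pool.Agent.PFlow.E.TFD
import Pool.Agent.PFlow.E.TINT
import Pool.Agent.PFlow.E.TRD
import Pool.Agent.PFlow.E.TSTA
import Pool.Agent.PFlow.E.TSTB
import Pool.Agent.PFlow.E.UPH
import Pool.Agent.PFlow.E.WGT
import Pool.Agent.PFlow.E.WGTE
import Pool.Agent.PFlow.E.XID
import Pool.Agent.PFlow.E.XWI
import Pool.Agent.PFlow.E.XWO

/-!
# Assembly of the energy block and of the main theorem
-/

namespace Pool.Agent.PFlow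

theorem eAFD : Stmt_AFD := AFD
theorem eHATA : Stmt_HATA := HATA
theorem eHATB : Stmt_HATB := HATB eHATA
theorem eJPROD : Stmt_JPROD := JPROD
theorem eHATC : Stmt_HATC := HATC eHATA eHATB eJPROD
theorem eEETA : Stmt_EETA := EETA
theorem eKAP : Stmt_KAP := KAP
theorem eCUTM : Stmt_CUTM := CUTM eHATB eKAP
theorem eCUTD : Stmt_CUTD := CUTD eKAP
theorem eSHELL : Stmt_SHELL := SHELL eHATA eHATC eJPROD eKAP eCUTM
theorem eSCAL : Stmt_SCAL := SCAL
theorem eDIVG : Stmt_DIVG := DIVG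
theorem eDIVA : Stmt_DIVA := DIVA eDIVG
theorem eBARA : Stmt_BARA := BARA
theorem eBARB : Stmt_BARB := BARB
theorem eHSM2 : Stmt_HSM2 := HSM2
theorem eMOD : Stmt_MOD := MOD eAFD eHATA eHATB eHATC eEETA eKAP eCUTM eCUTD eSHELL eSCAL eDIVA eBARA eBARB eHSM2
theorem eMODM : Stmt_MODM := MODM
theorem ePHI : Stmt_PHI := PHI
theorem eRADN : Stmt_RADN := RADN
theorem eBARR : Stmt_BARR := BARR eRADN ePHI
theorem eLOC : Stmt_LOC := LOC ePHI eBARR
theorem eLOCU : Stmt_LOCU := LOCU ePHI eBARR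
theorem eSETW : Stmt_SETW := SETW LOGWfinal
theorem ePTD : Stmt_PTD := PTD
theorem eHSYM : Stmt_HSYM := HSYM
theorem eABSI : Stmt_ABSI := ABSI eSETW INTfinal ePTD eHSYM
theorem eABSM : Stmt_ABSM := ABSM eSETW eABSI MIfinal
theorem eLE1 : Stmt_LE1 := LE1_free
theorem eLE2 : Stmt_LE2 := LE2
theorem eLE : Stmt_LE := LE eLE1 eLE2
theorem eXWO : Stmt_XWO := XWO eSETW eLE
theorem eLEY : Stmt_LEY := LEY eLE
theorem eXID : Stmt_XID := XID LDfinal L4final AllM.pIB AllM.pZD AllM.pCT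
theorem eXWI : Stmt_XWI := XWI eSETW eLEY eXID L4final
theorem eABSX : Stmt_ABSX := ABSX eSETW eXID L4final
theorem eABSW : Stmt_ABSW := ABSW eSETW eABSI Wfinal ePTD eHSYM INTfinal
theorem eFLX : Stmt_FLX := FLX
theorem eABSF : Stmt_ABSF := ABSF eSETW eFLX
theorem eABS : Stmt_ABS := ABS eSETW eABSI eABSM eXWO eXWI eABSX eABSW eABSF
theorem eBETA : Stmt_BETA := BETA
theorem eFLXA : Stmt_FLXA := FLXA
theorem eHOLA : Stmt_HOLA := HOLA
theorem eJUP : Stmt_JUP := JUP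
theorem eUPH : Stmt_UPH := UPH eSETW eBETA eFLXA eHOLA eJUP
theorem eDEFE : Stmt_DEFE := DEFE eSETW eBETA eUPH eFLXA
theorem eEXI1 : Stmt_EXI1 := EXI1 eAFD eMOD eMODM eLOC eLOCU P eABS eDEFE eSETW
theorem eGRADL : Stmt_GRADL := GRADL
theorem ePOI : Stmt_POI := POI
theorem eWGT : Stmt_WGT := WGT ePTD eGRADL ePOI eHSYM
theorem eTSTA : Stmt_TSTA := TSTA
theorem eMATL : Stmt_MATL := MATL eSETW eABSI eBETA eUPH
theorem eENER : Stmt_ENER := ENER eSETW eBETA eTSTA eUPH eMATL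
theorem eWGTE : Stmt_WGTE := WGTE eSETW eBETA eABSI eWGT eENER eUPH
theorem eMSI : Stmt_MSI := MSI eSETW eBETA eTSTA eUPH eMATL
theorem eTSTB : Stmt_TSTB := TSTB
theorem eJL : Stmt_JL := JL
theorem eMSII : Stmt_MSII := MSII eSETW eBETA eTSTB eJL eUPH eMATL
theorem ePERA : Stmt_PERA := PERA
theorem ePER : Stmt_PER := PER ePERA MOfinal
theorem eMSIII : Stmt_MSIII := MSIII eSETW eFLXA eHOLA ePER eABSI
theorem eEPS : Stmt_EPS := EPS eEXI1 eWGTE eMSI eMSII eMSIII eBETA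
theorem eLIM : Stmt_LIM := LIM
theorem eJINT : Stmt_JINT := JINT eAFD eSCAL eDIVG
theorem eTINT : Stmt_TINT := TINT eAFD eHATA eDIVG eJINT
theorem eLIMK2 : Stmt_LIMK2 := LIMK2 eAFD eHATA eTINT
theorem eMAIN2 : Stmt_MAIN2 := MAIN2 eEPS eLIM eLIMK2
theorem eMAIN3 : Stmt_MAIN3 := MAIN3 eMAIN2
theorem eTRD : Stmt_TRD := TRD eAFD
theorem eTFD : Stmt_TFD := TFD

end Pool.Agent.PFlow
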