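import Pool.Agent.PFlow.StmtsE2
import Pool.Agent.PFlow.E.HSM2
import Pool.Agent.PFlow.E.AFD
import Pool.Agent.PFlow.G.COVG

/-!
# Module LEY, first part: functions of class `H²` under the inversion
-/

set_option autoImplicit false

open MeasureTheory Filter Topology
open scoped ContDiff ENNReal Manifold

namespace Pool.Agent.PFlow.LEYaux

open Pool.Agent.PenroseSph Pool.Agent.PFlow Pool.Agent.PFlow.GB.COVGm
open Pool.Agent.PenroseConvex.CovR (D2 Chg chg_eventually)

/-! ### Calculus of the inversion -/

theorem inversion_contDiffAt {y : E3} (hy : y ≠ 0) : ContDiffAt ℝ ∞ inversion y :=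
  (AFDaux.contDiffOn_inversion y hy).contDiffAt (AFDaux.isOpen_compl_zero.mem_nhds hy)

theorem hasFDerivAt_normSqInv {y : E3} (hy : y ≠ 0) :
    HasFDerivAt (fun z : E3 => (‖z‖ ^ 2)⁻¹)
      (-((‖y‖ ^ 2) ^ 2)⁻¹ • ((2 : ℕ) • innerSL ℝ y)) y := by
  have h1 : HasFDerivAt (fun y : E3 => ‖y‖ ^ 2) ((2 : ℕ) • (innerSL ℝ y)) y :=
    (hasStrictFDerivAt_norm_sq y).hasFDerivAt
  have h0 : ‖y‖ ^ 2 ≠ 0 := by positivity
  exact (hasDerivAt_inv h0).comp_hasFDerivAt y h1

theorem pd_normSqInv {y : E3} (hy : y ≠ 0) (i : Fin 3) :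
    pd i (fun z : E3 => (‖z‖ ^ 2)⁻¹) y = -(2 * y i) / (‖y‖ ^ 2) ^ 2 := by
  unfold pd
  rw [(hasFDerivAt_normSqInv hy).fderiv]
  have h0 : ‖y‖ ≠ 0 := by positivity
  have h1 : inner ℝ y (EuclideanSpace.single i (1 : ℝ)) = y i := by
    rw [real_inner_comm, EuclideanSpace.inner_single_left]
    simp
  simp
  field_simp
  rw [h1]

theorem jac_inversion {y : E3} (hy : y ≠ 0) : PenroseConvex.jac inversion y = inversionJac y := by
  ext a i
  have e : (fun z => inversion z a) = fun z : E3 => (‖z‖ ^ 2)⁻¹ * z a := by
    funext z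
    simp [inversion]
  have h0 : ‖y‖ ≠ 0 := by positivity
  simp only [PenroseConvex.jac, inversionJac, Matrix.of_apply]
  rw [e, pd_mul (hasFDerivAt_normSqInv hy).differentiableAt (differentiableAt_coord a),
    pd_normSqInv hy, pd_coord]
  by_cases hai : a = i
  · subst hai
    simp
    field_simp
    ring
  · have hia : ¬ i = a := fun h => hai h.symm
    simp [hai, hia]
    field_simp

theorem changeAt_inversion {g : TensorField} (hg : MetricOn {0}ᶜ g) {y : E3} (hy : y ≠ 0) :
    PenroseConvex.ChangeAt inversion g (inverted g) y := by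
  have hm : inversion y ∈ ({0}ᶜ : Set E3) := by simpa using HSM2.inversion_ne y hy
  refine ⟨inversion_contDiffAt hy, ?_, ?_, ?_, ?_, ?_⟩
  · intro i j
    exact (hg.smooth i j _ hm).contDiffAt (AFDaux.isOpen_compl_zero.mem_nhds hm)
  · filter_upwards [AFDaux.isOpen_compl_zero.mem_nhds hm] with z hz
    have h := (hg.posDef z hz).isHermitian
    rw [Matrix.IsHermitian, Matrix.conjTranspose_eq_transpose_of_trivial] at h
    exact h
  · exact (hg.posDef _ hm).det_pos.ne'
  · rw [jac_inversion hy]
    exact (HSM2.jac_unit y hy).ne_zero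
  · filter_upwards [AFDaux.isOpen_compl_zero.mem_nhds (show y ∈ ({0}ᶜ : Set E3) from hy)]
      with z hz
    unfold PenroseConvex.pullback inverted
    rw [jac_inversion hz]

theorem chg_inversion {g : TensorField} (hg : MetricOn {0}ᶜ g) {y : E3} (hy : y ≠ 0) :
    Chg inversion g (inverted g) y := (chg_eventually (changeAt_inversion hg hy)).self_of_nhds

theorem measurable_inversion : Measurable inversion := by
  unfold inversion
  exact ((measurable_norm.pow_const 2).inv).smul measurable_id

theorem inversion_zero : inversion 0 = 0 := by simp [inversion]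

theorem qmp : Measure.QuasiMeasurePreserving inversion (volume : Measure E3) volume := by
  refine ⟨measurable_inversion, Measure.AbsolutelyContinuous.mk fun N hN h0 => ?_⟩
  rw [Measure.map_apply measurable_inversion hN]
  have hsub : inversion ⁻¹' N ⊆ inversion '' (N ∩ {0}ᶜ) ∪ {0} := by
    intro y hy
    rcases eq_or_ne y 0 with h | h
    · exact Or.inr h
    · exact Or.inl ⟨inversion y, ⟨hy, HSM2.inversion_ne y h⟩, HSM2.inversion_inversion y h⟩
  refine measure_mono_null hsub (measure_union_null ?_ (by simp))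
  refine addHaar_image_eq_zero_of_differentiableOn_of_addHaar_eq_zero volume ?_
    (measure_mono_null Set.inter_subset_left h0)
  intro x hx
  exact ((inversion_contDiffAt hx.2).differentiableAt (by simp)).differentiableWithinAt

theorem injOn_inversion : Set.InjOn inversion ({0}ᶜ : Set E3) := by
  intro x hx y hy h
  rw [← HSM2.inversion_inversion x hx, h, HSM2.inversion_inversion y hy]

/-- The components of the derivative are the partial derivatives of the components. -/
theorem fderiv_coord {Φ : E3 → E3} {x : E3} (h : DifferentiableAt ℝ Φ x) (v : E3) (c : Fin 3) :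
    (fderiv ℝ Φ x v) c = fderiv ℝ (fun y => Φ y c) x v := by
  have h1 : HasFDerivAt (fun y => Φ y c)
      ((EuclideanSpace.proj c : E3 →L[ℝ] ℝ).comp (fderiv ℝ Φ x)) x :=
    (EuclideanSpace.proj c : E3 →L[ℝ] ℝ).hasFDerivAt.comp x h.hasFDerivAt
  rw [h1.fderiv]
  rfl

theorem det_jac {Φ : E3 → E3} {x : E3} (h : DifferentiableAt ℝ Φ x) :
    (PenroseConvex.jac Φ x).det = (fderiv ℝ Φ x).det := by
  have h1 : PenroseConvex.jac Φ x = LinearMap.toMatrix
      (EuclideanSpace.basisFun (Fin 3) ℝ).toBasis (EuclideanSpace.basisFun (Fin 3) ℝ).toBasis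
      (fderiv ℝ Φ x : E3 →ₗ[ℝ] E3) := by
    ext a i
    rw [LinearMap.toMatrix_apply]
    simp only [PenroseConvex.jac, Matrix.of_apply, OrthonormalBasis.coe_toBasis,
      EuclideanSpace.basisFun_apply, OrthonormalBasis.coe_toBasis_repr_apply,
      EuclideanSpace.basisFun_repr, ContinuousLinearMap.coe_coe]
    rw [fderiv_coord h]
    rfl
  rw [h1, LinearMap.det_toMatrix]

theorem det_fderiv {y : E3} (hy : y ≠ 0) :
    (fderiv ℝ inversion y).det = (inversionJac y).det := by
  rw [← det_jac ((inversion_contDiffAt hy).differentiableAt (by simp)), jac_inversion hy]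

theorem abs_det {y : E3} (hy : y ≠ 0) : |(inversionJac y).det| = (‖y‖ ^ 6)⁻¹ := by
  have h := congrArg Matrix.det (HSM2.jac_sq y hy)
  rw [Matrix.det_mul, Matrix.det_smul, Matrix.det_one, mul_one, Fintype.card_fin] at h
  have h2 : |(inversionJac y).det| ^ 2 = ((‖y‖ ^ 6)⁻¹) ^ 2 := by
    rw [sq_abs, sq, h]
    have h0 : ‖y‖ ≠ 0 := by positivity
    field_simp
  exact (pow_left_inj₀ (abs_nonneg _) (by positivity) (by norm_num)).1 h2

variable {K : Set E3}

theorem hasFDerivWithinAt_inv (hK : K ⊆ {0}ᶜ) (y : E3) (hy : y ∈ K) :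
    HasFDerivWithinAt inversion (fderiv ℝ inversion y) K y :=
  ((inversion_contDiffAt (hK hy)).differentiableAt (by simp)).hasFDerivAt.hasFDerivWithinAt

theorem integrableOn_image (hKm : MeasurableSet K) (hK : K ⊆ {0}ᶜ) (F : E3 → ℝ) :
    IntegrableOn F (inversion '' K) ↔
      IntegrableOn (fun y => |(inversionJac y).det| * F (inversion y)) K := by
  rw [integrableOn_image_iff_integrableOn_abs_det_fderiv_smul volume hKm
    (hasFDerivWithinAt_inv hK) (injOn_inversion.mono hK)]
  refine integrableOn_congr_fun (fun y hy => ?_) hKm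
  show |(fderiv ℝ inversion y).det| • F (inversion y) = _
  rw [det_fderiv (hK hy), smul_eq_mul]

theorem integral_image (hKm : MeasurableSet K) (hK : K ⊆ {0}ᶜ) (F : E3 → ℝ) :
    ∫ x in inversion '' K, F x = ∫ y in K, |(inversionJac y).det| * F (inversion y) := by
  rw [integral_image_eq_integral_abs_det_fderiv_smul volume hKm
    (hasFDerivWithinAt_inv hK) (injOn_inversion.mono hK)]
  refine setIntegral_congr_fun hKm (fun y hy => ?_)
  show |(fderiv ℝ inversion y).det| • F (inversion y) = _
  rw [det_fderiv (hK hy), smul_eq_mul]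

theorem isCompact_image (hKc : IsCompact K) (hK : K ⊆ {0}ᶜ) : IsCompact (inversion '' K) :=
  hKc.image_of_continuousOn (AFDaux.contDiffOn_inversion.continuousOn.mono hK)

theorem continuousOn_pow_norm (n : ℕ) : ContinuousOn (fun y : E3 => ‖y‖ ^ n) K :=
  (continuous_norm.pow n).continuousOn

/-- Integrability of the composition. -/
theorem integrableOn_comp (hKc : IsCompact K) (hK : K ⊆ {0}ᶜ) {F : E3 → ℝ}
    (hF : IntegrableOn F (inversion '' K)) : IntegrableOn (fun y => F (inversion y)) K := by
  have h1 := (integrableOn_image hKc.measurableSet hK F).1 hF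
  have h2 := h1.continuousOn_mul (continuousOn_pow_norm (K := K) 6) hKc
  refine h2.congr_fun (fun y hy => ?_) hKc.measurableSet
  have h0 : ‖y‖ ≠ 0 := norm_ne_zero_iff.2 (hK hy)
  show ‖y‖ ^ 6 * (|(inversionJac y).det| * F (inversion y)) = F (inversion y)
  rw [abs_det (hK hy)]
  field_simp

theorem integral_comp_le (hKc : IsCompact K) (hK : K ⊆ {0}ᶜ) {D : ℝ}
    (hD : ∀ y ∈ K, ‖y‖ ^ 6 ≤ D) {F : E3 → ℝ} (hF0 : ∀ x, 0 ≤ F x)
    (hF : IntegrableOn F (inversion '' K)) :
    ∫ y in K, F (inversion y) ≤ D * ∫ x in inversion '' K, F x := by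
  rw [integral_image hKc.measurableSet hK, ← integral_const_mul]
  have h1 := (integrableOn_image hKc.measurableSet hK F).1 hF
  refine setIntegral_mono_on (integrableOn_comp hKc hK hF) (h1.const_mul D)
    hKc.measurableSet (fun y hy => ?_)
  have h0 : 0 < ‖y‖ := norm_pos_iff.2 (hK hy)
  rw [abs_det (hK hy)]
  have h2 := hD y hy
  have h3 : 1 ≤ D * (‖y‖ ^ 6)⁻¹ := by
    rw [← div_eq_mul_inv, one_le_div (by positivity)]
    exact h2
  nlinarith [hF0 (inversion y)]

theorem memLp_comp (hKc : IsCompact K) (hK : K ⊆ {0}ᶜ) {F : E3 → ℝ}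
    (hF : MemLp F 2 (volume.restrict (inversion '' K))) :
    MemLp (fun y => F (inversion y)) 2 (volume.restrict K) := by
  have hm : AEStronglyMeasurable (fun y => F (inversion y)) (volume.restrict K) :=
    hF.1.comp_quasiMeasurePreserving (qmp.restrict (Set.mapsTo_image inversion K))
  rw [memLp_two_iff_integrable_sq hm]
  exact integrableOn_comp hKc hK ((memLp_two_iff_integrable_sq hF.1).1 hF)

theorem memLp_bdd_mul (hKc : IsCompact K) {c F : E3 → ℝ} (hc : ContinuousOn c K)
    (hF : MemLp F 2 (volume.restrict K)) :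
    MemLp (fun y => c y * F y) 2 (volume.restrict K) := by
  have hm : AEStronglyMeasurable (fun y => c y * F y) (volume.restrict K) :=
    (hc.aestronglyMeasurable hKc.measurableSet).mul hF.1
  rw [memLp_two_iff_integrable_sq hm]
  have h1 : IntegrableOn (fun y => F y ^ 2) K := (memLp_two_iff_integrable_sq hF.1).1 hF
  have h2 := h1.continuousOn_mul (hc.pow 2) hKc
  refine h2.congr_fun (fun y _ => ?_) hKc.measurableSet
  show c y ^ 2 * F y ^ 2 = (c y * F y) ^ 2
  ring

/-- Finite sums of products with continuous coefficients tend to zero. -/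
theorem tendsto_sum {ι : Type} [Fintype ι] (hKc : IsCompact K) (hK : K ⊆ {0}ᶜ)
    (c : ι → E3 → ℝ) (hc : ∀ i, ContinuousOn (c i) K) (F : ℕ → ι → E3 → ℝ)
    (hF : ∀ n i, MemLp (F n i) 2 (volume.restrict (inversion '' K)))
    (ht : ∀ i, Tendsto (fun n => ∫ x in inversion '' K, F n i x ^ 2) atTop (𝓝 0)) :
    Tendsto (fun n => ∫ y in K, (∑ i, c i y * F n i (inversion y)) ^ 2) atTop (𝓝 0) := by
  obtain ⟨D, hD⟩ := hKc.exists_bound_of_continuousOn (continuousOn_pow_norm (K := K) 6)
  have hD' : ∀ y ∈ K, ‖y‖ ^ 6 ≤ D := fun y hy => by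
    have := hD y hy
    rwa [Real.norm_of_nonneg (by positivity)] at this
  have hB : ∀ i, ∃ B : ℝ, ∀ y ∈ K, ‖c i y‖ ≤ B := fun i => hKc.exists_bound_of_continuousOn (hc i)
  choose B hB using hB
  have hi : ∀ n i, IntegrableOn (fun x => F n i x ^ 2) (inversion '' K) := fun n i =>
    (memLp_two_iff_integrable_sq (hF n i).1).1 (hF n i)
  have hb : ∀ n, ∫ y in K, (∑ i, c i y * F n i (inversion y)) ^ 2
      ≤ ∑ i, (Fintype.card ι : ℝ) * B i ^ 2 * (D * ∫ x in inversion '' K, F n i x ^ 2) := by
    intro n
    have h1 : ∀ y ∈ K, (∑ i, c i y * F n i (inversion y)) ^ 2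
        ≤ ∑ i, (Fintype.card ι : ℝ) * B i ^ 2 * F n i (inversion y) ^ 2 := by
      intro y hy
      have h2 := sq_sum_le_card_mul_sum_sq (s := Finset.univ)
        (f := fun i => c i y * F n i (inversion y))
      rw [Finset.card_univ] at h2
      refine h2.trans ?_
      rw [Finset.mul_sum]
      refine Finset.sum_le_sum fun i _ => ?_
      have h3 : c i y ^ 2 ≤ B i ^ 2 := by
        rw [← sq_abs, ← Real.norm_eq_abs]
        exact pow_le_pow_left₀ (norm_nonneg _) (hB i y hy) 2
      have h4 : (0 : ℝ) ≤ Fintype.card ι := by positivity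
      calc (Fintype.card ι : ℝ) * (c i y * F n i (inversion y)) ^ 2
          = (Fintype.card ι : ℝ) * c i y ^ 2 * F n i (inversion y) ^ 2 := by ring
        _ ≤ (Fintype.card ι : ℝ) * B i ^ 2 * F n i (inversion y) ^ 2 := by gcongr
    have h5 : ∀ i, IntegrableOn (fun y => (Fintype.card ι : ℝ) * B i ^ 2
        * F n i (inversion y) ^ 2) K := fun i =>
      (integrableOn_comp (F := fun x => F n i x ^ 2) hKc hK (hi n i)).const_mul _
    have h6 : IntegrableOn (fun y => ∑ i, (Fintype.card ι : ℝ) * B i ^ 2
        * F n i (inversion y) ^ 2) K := integrable_finsetSum _ fun i _ => h5 i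
    have h7 : MemLp (fun y => ∑ i, c i y * F n i (inversion y)) 2 (volume.restrict K) :=
      memLp_finsetSum _ fun i _ => memLp_bdd_mul hKc (hc i) (memLp_comp hKc hK (hF n i))
    have h8 : IntegrableOn (fun y => (∑ i, c i y * F n i (inversion y)) ^ 2) K :=
      (memLp_two_iff_integrable_sq h7.1).1 h7
    refine (setIntegral_mono_on h8 h6 hKc.measurableSet h1).trans ?_
    rw [integral_finsetSum _ fun i _ => h5 i]
    refine Finset.sum_le_sum fun i _ => ?_
    rw [integral_const_mul]
    refine mul_le_mul_of_nonneg_left ?_ (by positivity)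
    exact integral_comp_le (F := fun x => F n i x ^ 2) hKc hK hD' (fun x => sq_nonneg _) (hi n i)
  refine squeeze_zero (fun n => integral_nonneg fun y => sq_nonneg _) hb ?_
  have h9 : Tendsto (fun n => ∑ i, (Fintype.card ι : ℝ) * B i ^ 2
      * (D * ∫ x in inversion '' K, F n i x ^ 2)) atTop
      (𝓝 (∑ i, (Fintype.card ι : ℝ) * B i ^ 2 * (D * 0))) :=
    tendsto_finsetSum _ fun i _ => ((ht i).const_mul D).const_mul _
  simpa using h9

/-! ### Transformation of `H²` functions -/

theorem jac_continuousOn (hK : K ⊆ {0}ᶜ) (a i : Fin 3) :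
    ContinuousOn (fun y => PenroseConvex.jac inversion y a i) K := by
  have h := ((AFDaux.contDiffOn_jac a i).continuousOn).mono hK
  refine h.congr fun y hy => ?_
  rw [jac_inversion (hK hy)]

theorem D2_continuousOn (hK : K ⊆ {0}ᶜ) (a i j : Fin 3) :
    ContinuousOn (D2 inversion a i j) K := by
  intro y hy
  have h1 := inversion_contDiffAt (hK hy)
  have h2 : ContDiffAt ℝ ∞ (fun y => inversion y a) y :=
    (EuclideanSpace.proj a : E3 →L[ℝ] ℝ).contDiff.contDiffAt.comp y h1
  have h3 : ∀ {f : E3 → ℝ} (k : Fin 3), ContDiffAt ℝ ∞ f y → ContDiffAt ℝ ∞ (pd k f) y := by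
    intro f k hf
    have h4 : ContDiffAt ℝ ∞ (fderiv ℝ f) y := hf.fderiv_right (m := ∞) (by simp)
    exact h4.clm_apply contDiffAt_const
  exact (h3 i (h3 j h2)).continuousAt.continuousWithinAt

/-- The first derivatives of the transformed function. -/
noncomputable def gy (G : E3 → Cov) (y : E3) : Cov :=
  pc (PenroseConvex.jac inversion y) (G (inversion y))

/-- The second derivatives of the transformed function. -/
noncomputable def my (G : E3 → Cov) (M : E3 → Bil) (y : E3) : Bil := Matrix.of fun i j =>
  (∑ b, ∑ c, M (inversion y) b c * PenroseConvex.jac inversion y b i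
    * PenroseConvex.jac inversion y c j)
  + ∑ a, G (inversion y) a * D2 inversion a i j y

theorem memLp_gy (hKc : IsCompact K) (hK : K ⊆ {0}ᶜ) {G : E3 → Cov}
    (hG : ∀ i, MemLp (fun x => G x i) 2 (volume.restrict (inversion '' K))) (i : Fin 3) :
    MemLp (fun y => gy G y i) 2 (volume.restrict K) := by
  have h : (fun y => gy G y i)
      = fun y => ∑ a, PenroseConvex.jac inversion y a i * G (inversion y) a := by
    funext y
    unfold gy pc
    refine Finset.sum_congr rfl fun a _ => ?_
    ring
  rw [h]
  exact memLp_finsetSum _ fun a _ => memLp_bdd_mul hKc (jac_continuousOn hK a i)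
    (memLp_comp hKc hK (F := fun x => G x a) (hG a))

theorem memLp_my (hKc : IsCompact K) (hK : K ⊆ {0}ᶜ) {G : E3 → Cov} {M : E3 → Bil}
    (hG : ∀ i, MemLp (fun x => G x i) 2 (volume.restrict (inversion '' K)))
    (hM : ∀ i j, MemLp (fun x => M x i j) 2 (volume.restrict (inversion '' K))) (i j : Fin 3) :
    MemLp (fun y => my G M y i j) 2 (volume.restrict K) := by
  have h : (fun y => my G M y i j)
      = fun y => (∑ b, ∑ c, (PenroseConvex.jac inversion y b i
          * PenroseConvex.jac inversion y c j) * M (inversion y) b c)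
        + ∑ a, D2 inversion a i j y * G (inversion y) a := by
    funext y
    simp only [my, Matrix.of_apply]
    congr 1
    · refine Finset.sum_congr rfl fun b _ => Finset.sum_congr rfl fun c _ => ?_
      ring
    · refine Finset.sum_congr rfl fun a _ => ?_
      ring
  rw [h]
  refine MemLp.add ?_ ?_
  · exact memLp_finsetSum _ fun b _ => memLp_finsetSum _ fun c _ => memLp_bdd_mul hKc
      ((jac_continuousOn hK b i).mul (jac_continuousOn hK c j))
      (memLp_comp hKc hK (F := fun x => M x b c) (hM b c))
  · exact memLp_finsetSum _ fun a _ => memLp_bdd_mul hKc (D2_continuousOn hK a i j)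
      (memLp_comp hKc hK (F := fun x => G x a) (hG a))

/-- Smooth extension of the composition with the inversion. -/
theorem exists_ext (hKc : IsCompact K) (hK : K ⊆ {0}ᶜ) :
    ∃ χ : E3 → ℝ, ContDiff ℝ ∞ χ ∧ (∀ᶠ y in 𝓝 (0 : E3), χ y = 0) ∧
      ∀ y ∈ K, ∀ᶠ z in 𝓝 y, χ z = 1 := by
  have hd : Disjoint ({0} : Set E3) K := by
    rw [Set.disjoint_left]
    intro y hy hyK
    exact hK hyK hy
  obtain ⟨f, h0, h1, -⟩ := exists_contMDiffMap_zero_one_nhds_of_isClosed (𝓘(ℝ, E3))
    (n := ⊤) isClosed_singleton hKc.isClosed hd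
  refine ⟨f, f.contMDiff.contDiff, ?_, ?_⟩
  · rwa [nhdsSet_singleton] at h0
  · intro y hy
    exact h1.filter_mono (nhds_le_nhdsSet hy)

theorem ext_contDiff {χ : E3 → ℝ} (h1 : ContDiff ℝ ∞ χ) (h2 : ∀ᶠ y in 𝓝 (0 : E3), χ y = 0)
    {f : E3 → ℝ} (hf : ContDiff ℝ ∞ f) : ContDiff ℝ ∞ (fun y => χ y * f (inversion y)) := by
  rw [contDiff_iff_contDiffAt]
  intro y
  rcases eq_or_ne y 0 with rfl | hy
  · have h3 : (fun y => χ y * f (inversion y)) =ᶠ[𝓝 (0 : E3)] fun _ => 0 := by
      filter_upwards [h2] with z hz
      rw [hz, zero_mul]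
    exact contDiffAt_const.congr_of_eventuallyEq h3
  · exact h1.contDiffAt.mul (hf.contDiffAt.comp y (inversion_contDiffAt hy))

/-- The transformation of the `H²` functions. -/
theorem h2_inv {U V : Set E3} (hV : V ⊆ {0}ᶜ) (hUV : Set.MapsTo inversion V U) {u : E3 → ℝ}
    {G : E3 → Cov} {M : E3 → Bil} (hu : H2On U u G M) :
    H2On V (fun y => u (inversion y)) (gy G) (my G M) := by
  refine ⟨?_, ?_, ?_, ?_⟩
  · exact hu.cont.comp (AFDaux.contDiffOn_inversion.continuousOn.mono hV) hUV
  · intro K hKc hKV i
    have hK : K ⊆ {0}ᶜ := hKV.trans hV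
    have hK' : inversion '' K ⊆ U := (hUV.mono_left hKV).image_subset
    exact memLp_gy hKc hK (fun a => hu.memG _ (isCompact_image hKc hK) hK' a) i
  · intro K hKc hKV i j
    have hK : K ⊆ {0}ᶜ := hKV.trans hV
    have hK' : inversion '' K ⊆ U := (hUV.mono_left hKV).image_subset
    exact memLp_my hKc hK (fun a => hu.memG _ (isCompact_image hKc hK) hK' a)
      (fun a b => hu.memM _ (isCompact_image hKc hK) hK' a b) i j
  · intro K hKc hKV
    have hK : K ⊆ {0}ᶜ := hKV.trans hV
    have hK' : inversion '' K ⊆ U := (hUV.mono_left hKV).image_subset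
    have hKc' := isCompact_image hKc hK
    obtain ⟨v, hv, hvu, hvG, hvM⟩ := hu.approx _ hKc' hK'
    obtain ⟨χ, hχ, hχ0, hχ1⟩ := exists_ext hKc hK
    have hmG := fun a => hu.memG _ hKc' hK' a
    have hmM := fun a b => hu.memM _ hKc' hK' a b
    -- the functions
    have e : ∀ n, ∀ y ∈ K, (fun z => χ z * v n (inversion z)) =ᶠ[𝓝 y]
        fun z => v n (inversion z) := by
      intro n y hy
      filter_upwards [hχ1 y hy] with z hz
      rw [hz, one_mul]
    have hpdc : ∀ n a, ContDiff ℝ ∞ (pd a (v n)) := fun n a => by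
      have h4 : ContDiff ℝ ∞ (fderiv ℝ (v n)) := (hv n).fderiv_right (m := ∞) (by simp)
      exact h4.clm_apply contDiff_const
    have hmem : ∀ (f : E3 → ℝ), Continuous f → MemLp f 2 (volume.restrict (inversion '' K)) := by
      intro f hf
      have : MemLp (fun x => f x * (fun _ => (1 : ℝ)) x) 2 (volume.restrict (inversion '' K)) :=
        memLp_bdd_mul hKc' hf.continuousOn (by
          have : IsFiniteMeasure (volume.restrict (inversion '' K)) :=
            ⟨by rw [Measure.restrict_apply_univ]; exact hKc'.measure_lt_top⟩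
          exact memLp_const 1)
      simpa using this
    refine ⟨fun n y => χ y * v n (inversion y), fun n => ext_contDiff hχ hχ0 (hv n), ?_, ?_, ?_⟩
    · rw [Metric.tendstoUniformlyOn_iff] at hvu ⊢
      intro ε hε
      filter_upwards [hvu ε hε] with n hn y hy
      rw [(hχ1 y hy).self_of_nhds, one_mul]
      exact hn _ (Set.mem_image_of_mem _ hy)
    · intro i
      have h1 := tendsto_sum hKc hK (fun (a : Fin 3) y => PenroseConvex.jac inversion y a i)
        (fun a => jac_continuousOn hK a i) (fun n a x => pd a (v n) x - G x a)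
        (fun n a => (hmem _ (hpdc n a).continuous).sub (hmG a)) hvG
      refine h1.congr fun n => setIntegral_congr_fun hKc.measurableSet fun y hy => ?_
      have h2 : pd i (fun y => χ y * v n (inversion y)) y
          = ∑ a, pd a (v n) (inversion y) * PenroseConvex.jac inversion y a i := by
        rw [pd_congr (e n y hy)]
        have h3 := congrFun (grad_comp (Φ := inversion) (f := v n) (y := y)
          ((hv n).contDiffAt.differentiableAt (by simp))
          ((inversion_contDiffAt (hK hy)).differentiableAt (by simp))) i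
        exact h3
      have h4 : gy G y i = ∑ a, G (inversion y) a * PenroseConvex.jac inversion y a i := rfl
      show (∑ a, PenroseConvex.jac inversion y a i
        * (pd a (v n) (inversion y) - G (inversion y) a)) ^ 2 = _
      rw [h2, h4, ← Finset.sum_sub_distrib]
      congr 1
      exact Finset.sum_congr rfl fun a _ => by ring
    · intro i j
      have h1 := tendsto_sum hKc hK
        (fun (s : (Fin 3 × Fin 3) ⊕ Fin 3) y => Sum.elim
          (fun p : Fin 3 × Fin 3 => PenroseConvex.jac inversion y p.1 i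
            * PenroseConvex.jac inversion y p.2 j) (fun a => D2 inversion a i j y) s)
        (by
          rintro (p | a)
          · exact (jac_continuousOn hK p.1 i).mul (jac_continuousOn hK p.2 j)
          · exact D2_continuousOn hK a i j)
        (fun n (s : (Fin 3 × Fin 3) ⊕ Fin 3) x => Sum.elim
          (fun p : Fin 3 × Fin 3 => pd p.1 (pd p.2 (v n)) x - M x p.1 p.2)
          (fun a => pd a (v n) x - G x a) s)
        (by
          rintro n (p | a)
          · refine (hmem _ ?_).sub (hmM p.1 p.2)
            have h4 : ContDiff ℝ ∞ (fderiv ℝ (pd p.2 (v n))) :=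
              (hpdc n p.2).fderiv_right (m := ∞) (by simp)
            exact (h4.clm_apply contDiff_const).continuous
          · exact (hmem _ (hpdc n a).continuous).sub (hmG a))
        (by
          rintro (p | a)
          · exact hvM p.1 p.2
          · exact hvG a)
      refine h1.congr fun n => setIntegral_congr_fun hKc.measurableSet fun y hy => ?_
      have h2 : pd i (pd j (fun y => χ y * v n (inversion y))) y
          = (∑ b, ∑ c, hess2 (v n) (inversion y) b c * PenroseConvex.jac inversion y b i
              * PenroseConvex.jac inversion y c j)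
            + ∑ a, grad (v n) (inversion y) a * D2 inversion a i j y := by
        have h5 : pd j (fun y => χ y * v n (inversion y)) =ᶠ[𝓝 y]
            pd j (fun z => v n (inversion z)) := by
          filter_upwards [(e n y hy).eventuallyEq_nhds] with z hz
          exact pd_congr hz
        rw [pd_congr h5]
        exact hess_comp (Φ := inversion) (f := v n)
          (((hv n).contDiffAt).of_le (WithTop.coe_le_coe.2 le_top))
          ((inversion_contDiffAt (hK hy)).of_le (WithTop.coe_le_coe.2 le_top)) i j
      simp only [Fintype.sum_sum_type, Sum.elim_inl, Sum.elim_inr, Fintype.sum_prod_type]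
      rw [h2]
      simp only [my, Matrix.of_apply, hess2, grad]
      congr 1
      have h6 : (∑ b, ∑ c, pd b (pd c (v n)) (inversion y) * PenroseConvex.jac inversion y b i
              * PenroseConvex.jac inversion y c j)
          + (∑ a, pd a (v n) (inversion y) * D2 inversion a i j y)
          - ((∑ b, ∑ c, M (inversion y) b c * PenroseConvex.jac inversion y b i
              * PenroseConvex.jac inversion y c j)
            + ∑ a, G (inversion y) a * D2 inversion a i j y)
          = ((∑ b, ∑ c, pd b (pd c (v n)) (inversion y) * PenroseConvex.jac inversion y b i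
              * PenroseConvex.jac inversion y c j)
              - (∑ b, ∑ c, M (inversion y) b c * PenroseConvex.jac inversion y b i
              * PenroseConvex.jac inversion y c j))
            + ((∑ a, pd a (v n) (inversion y) * D2 inversion a i j y)
              - ∑ a, G (inversion y) a * D2 inversion a i j y) := by ring
      rw [h6, ← Finset.sum_sub_distrib, ← Finset.sum_sub_distrib]
      congr 1
      · refine Finset.sum_congr rfl fun b _ => ?_
        rw [← Finset.sum_sub_distrib]
        refine Finset.sum_congr rfl fun c _ => ?_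
        ring
      · refine Finset.sum_congr rfl fun a _ => ?_
        ring

end Pool.Agent.PFlow.LEYaux
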