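import Pool.Agent.PFlow.E.LEYa
import Pool.Agent.PFlow.G.ALG

/-!
# Module LEY, second part: the equation in the inverted coordinates
-/

set_option autoImplicit false

open MeasureTheory Filter Topology
open scoped ContDiff ENNReal

namespace Pool.Agent.PFlow.LEYaux

open Pool.Agent.PenroseSph Pool.Agent.PFlow Pool.Agent.PFlow.GB.COVGm
open Pool.Agent.PenroseConvex.CovR (D2 Chg chg_eventually)

/-! ### Sizes -/

theorem abs_le_msz (M : Bil) (i j : Fin 3) : |M i j| ≤ msz M := by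
  unfold msz
  refine Real.abs_le_sqrt ?_
  calc M i j ^ 2 ≤ ∑ j, M i j ^ 2 :=
        Finset.single_le_sum (f := fun j => M i j ^ 2) (fun j _ => sq_nonneg _)
          (Finset.mem_univ j)
    _ ≤ ∑ i, ∑ j, M i j ^ 2 :=
        Finset.single_le_sum (f := fun i => ∑ j, M i j ^ 2)
          (fun i _ => Finset.sum_nonneg fun j _ => sq_nonneg _) (Finset.mem_univ i)

theorem abs_le_vsz (p : Cov) (i : Fin 3) : |p i| ≤ vsz p := by
  unfold vsz
  refine Real.abs_le_sqrt ?_
  exact Finset.single_le_sum (f := fun i => p i ^ 2) (fun i _ => sq_nonneg _)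
    (Finset.mem_univ i)

theorem msz_nonneg (M : Bil) : 0 ≤ msz M := Real.sqrt_nonneg _

theorem vsz_nonneg (p : Cov) : 0 ≤ vsz p := Real.sqrt_nonneg _

theorem sq_vsz (p : Cov) : vsz p ^ 2 = ∑ i, p i ^ 2 :=
  Real.sq_sqrt (Finset.sum_nonneg fun _ _ => sq_nonneg _)

theorem sq_msz (M : Bil) : msz M ^ 2 = ∑ i, ∑ j, M i j ^ 2 :=
  Real.sq_sqrt (Finset.sum_nonneg fun _ _ => Finset.sum_nonneg fun _ _ => sq_nonneg _)

theorem ev_abs_le (M : Bil) (v : Cov) : |ev M v v| ≤ msz M * ∑ i, v i ^ 2 := by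
  have h1 : ev M v v = ∑ q : Fin 3 × Fin 3, M q.1 q.2 * (v q.1 * v q.2) := by
    unfold ev
    rw [Fintype.sum_prod_type]
    exact Finset.sum_congr rfl fun i _ => Finset.sum_congr rfl fun j _ => by ring
  have h2 := Finset.sum_mul_sq_le_sq_mul_sq Finset.univ
    (fun q : Fin 3 × Fin 3 => M q.1 q.2) (fun q => v q.1 * v q.2)
  have h3 : ∑ q : Fin 3 × Fin 3, M q.1 q.2 ^ 2 = msz M ^ 2 := by
    rw [sq_msz, Fintype.sum_prod_type]
  have h4 : ∑ q : Fin 3 × Fin 3, (v q.1 * v q.2) ^ 2 = (∑ i, v i ^ 2) ^ 2 := by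
    rw [Fintype.sum_prod_type, sq, Finset.sum_mul_sum]
    exact Finset.sum_congr rfl fun i _ => Finset.sum_congr rfl fun j _ => by ring
  rw [← h1, h3, h4, ← mul_pow] at h2
  exact abs_le_of_sq_le_sq h2 (mul_nonneg (msz_nonneg _)
    (Finset.sum_nonneg fun _ _ => sq_nonneg _))

theorem sum_abs_le {A B : Bil} {α β : ℝ} (hα : 0 ≤ α) (hA : ∀ i j, |A i j| ≤ α)
    (hB : ∀ i j, |B i j| ≤ β) : |∑ i, ∑ j, A i j * B i j| ≤ 9 * α * β := by
  calc |∑ i, ∑ j, A i j * B i j| ≤ ∑ i, ∑ j, |A i j * B i j| :=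
        (Finset.abs_sum_le_sum_abs _ _).trans
          (Finset.sum_le_sum fun i _ => Finset.abs_sum_le_sum_abs _ _)
    _ ≤ ∑ _i : Fin 3, ∑ _j : Fin 3, α * β := by
        refine Finset.sum_le_sum fun i _ => Finset.sum_le_sum fun j _ => ?_
        rw [abs_mul]
        exact mul_le_mul (hA i j) (hB i j) (abs_nonneg _) hα
    _ = 9 * α * β := by simp; ring

theorem msz_le {A : Bil} {α : ℝ} (hα : 0 ≤ α) (hA : ∀ i j, |A i j| ≤ α) : msz A ≤ 3 * α := by
  unfold msz
  rw [Real.sqrt_le_left (by positivity)]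
  calc ∑ i, ∑ j, A i j ^ 2 ≤ ∑ _i : Fin 3, ∑ _j : Fin 3, α ^ 2 := by
        refine Finset.sum_le_sum fun i _ => Finset.sum_le_sum fun j _ => ?_
        rw [← sq_abs]
        exact pow_le_pow_left₀ (abs_nonneg _) (hA i j) 2
    _ = (3 * α) ^ 2 := by simp; ring

theorem ev_le {A : Bil} {α : ℝ} (hα : 0 ≤ α) (hA : ∀ i j, |A i j| ≤ α) (v : Cov) :
    |ev A v v| ≤ 3 * α * ∑ i, v i ^ 2 :=
  (ev_abs_le A v).trans (mul_le_mul_of_nonneg_right (msz_le hα hA)
    (Finset.sum_nonneg fun _ _ => sq_nonneg _))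

/-! ### The size of the trace part -/

theorem exists_frame {P : Bil} (hP : P.PosDef) : ∃ L : Bil, P = L * L.transpose := by
  have hB : ∃ B : Bil, P = B.transpose * B := by
    open scoped MatrixOrder in
    obtain ⟨B, hB⟩ := CStarAlgebra.nonneg_iff_eq_star_mul_self.mp hP.posSemidef.nonneg
    exact ⟨B, hB⟩
  obtain ⟨B, hB⟩ := hB
  exact ⟨B.transpose, by rw [Matrix.transpose_transpose]; exact hB⟩

/-- The Euclidean metric. -/
def eg : TensorField := fun _ => 1

theorem nsq_eg (x : E3) (B : Bil) : nsq eg x B = msz B ^ 2 := by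
  rw [sq_msz]
  unfold nsq eg
  simp only [inv_one, Matrix.one_apply, Fin.sum_univ_three]
  simp
  ring

theorem trg_eg (x : E3) (B : Bil) : trg eg x B = ∑ i, B i i := by
  unfold trg eg
  simp only [inv_one, Matrix.one_apply, Fin.sum_univ_three]
  simp

theorem nrm_eg (x : E3) (p : Cov) : ∑ i, nrm eg x p i ^ 2 ≤ 1 := by
  have h1 : ∀ i, nrm eg x p i = p i / √(∑ i, p i ^ 2) := by
    intro i
    unfold nrm raise len ev eg
    simp only [inv_one, Matrix.one_apply, Fin.sum_univ_three]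
    fin_cases i <;> simp <;> ring_nf
  simp only [h1, div_pow, ← Finset.sum_div]
  rw [Real.sq_sqrt (Finset.sum_nonneg fun _ _ => sq_nonneg _)]
  exact div_self_le_one _

theorem beps_le {g : TensorField} {x : E3} (hg : (g x).PosDef) (p : Cov) (T : Bil) {ε : ℝ}
    (h0 : 0 ≤ ε) (h1 : ε ≤ 1) : |beps ε g x p T| ≤ 4 * √(nsq g x T) := by
  obtain ⟨L, hL⟩ := exists_frame hg.inv
  have hrel : Rel L (eg x)⁻¹ (g x)⁻¹ := by
    intro b c
    rw [hL]
    unfold eg
    rw [inv_one]
    simp only [Matrix.one_apply, Matrix.mul_apply, Matrix.transpose_apply, Fin.sum_univ_three]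
    simp
  have e1 : trg g x T = ∑ i, pb L T i i := by rw [← trg_pb hrel, trg_eg]
  have e2 : bnn g x p T = ev (pb L T) (nrm eg x (pc L p)) (nrm eg x (pc L p)) := by
    rw [← bnn_pc hrel]
    rfl
  have e3 : √(nsq g x T) = msz (pb L T) := by
    rw [← nsq_pb hrel, nsq_eg, Real.sqrt_sq (msz_nonneg _)]
  have m0 := msz_nonneg (pb L T)
  have b1 : |∑ i, pb L T i i| ≤ 3 * msz (pb L T) := by
    refine (Finset.abs_sum_le_sum_abs _ _).trans ?_
    refine (Finset.sum_le_sum fun i _ => abs_le_msz (pb L T) i i).trans ?_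
    simp
  have b2 : |ev (pb L T) (nrm eg x (pc L p)) (nrm eg x (pc L p))| ≤ msz (pb L T) := by
    refine (ev_abs_le _ _).trans ?_
    have := nrm_eg x (pc L p)
    nlinarith
  unfold beps
  rw [e1, e2, e3]
  have b3 : |(1 - ε) * ev (pb L T) (nrm eg x (pc L p)) (nrm eg x (pc L p))| ≤ msz (pb L T) := by
    rw [abs_mul, abs_of_nonneg (by linarith : 0 ≤ 1 - ε)]
    have := abs_nonneg (ev (pb L T) (nrm eg x (pc L p)) (nrm eg x (pc L p)))
    nlinarith
  calc |∑ i, pb L T i i - (1 - ε) * ev (pb L T) (nrm eg x (pc L p)) (nrm eg x (pc L p))|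
      ≤ |∑ i, pb L T i i| + |(1 - ε) * ev (pb L T) (nrm eg x (pc L p)) (nrm eg x (pc L p))| :=
        abs_sub _ _
    _ ≤ 3 * msz (pb L T) + msz (pb L T) := add_le_add b1 b3
    _ = 4 * msz (pb L T) := by ring

/-! ### The estimate at a point -/

/-- The pointwise inequality: `t = 1/|y|`. -/
theorem point_bound {g : TensorField} {y : E3} {C t B ε : ℝ} (hC : 0 < C) (ht : 0 ≤ t)
    (hB : 0 ≤ B) (hε0 : 0 ≤ ε) (hε1 : ε ≤ 1) (hg : (g y).PosDef)
    (hA : ∀ i j, |g y i j - (1 : Bil) i j| ≤ C * t)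
    (hd : ∀ i j k, |pd k (fun z => g z i j) y| ≤ C * t ^ 2)
    (hell : ∀ v : Cov, (∑ i, v i ^ 2) ≤ C * ev (g y) v v) {p : Cov} (hp : p ≠ 0) {M : Bil}
    (hβ : |beps ε g y p (cHess g y p M)| ≤ len g y p * (B * t ^ 2)) :
    |∑ i, M i i| ≤ (1 - ε + 30 * C ^ 2 * t) * msz M
      + (√(3 * C) * B + 162 * C ^ 3) * t ^ 2 * vsz p := by
  obtain ⟨hlen, -, -, hν, -⟩ := GB.ALG g y p hg hp
  set ν := nrm g y p with hνdef
  set N : Bil := (g y)⁻¹ with hN
  have hunit : IsUnit (g y).det := hg.det_pos.ne'.isUnit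
  have bN : ∀ i j, |N i j| ≤ C := fun i j => HSM2.inv_bound (g y) C hC.le hell hunit i j
  have bν : ∑ i, ν i ^ 2 ≤ C := by
    have := hell ν
    rwa [hν, mul_one] at this
  have s0 : 0 ≤ ∑ i, ν i ^ 2 := Finset.sum_nonneg fun _ _ => sq_nonneg _
  have m0 := msz_nonneg M
  have v0 := vsz_nonneg p
  -- the size of ν
  have bν1 : ∑ i, ν i ^ 2 ≤ 1 + 3 * C ^ 2 * t := by
    have h1 : ev (1 - g y) ν ν = ∑ i, ν i ^ 2 - ev (g y) ν ν := by
      unfold ev
      simp only [Matrix.sub_apply, Matrix.one_apply, Fin.sum_univ_three]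
      simp
      ring
    have h2 : |ev (1 - g y) ν ν| ≤ 3 * (C * t) * ∑ i, ν i ^ 2 := by
      refine ev_le (by positivity) (fun i j => ?_) ν
      rw [Matrix.sub_apply, abs_sub_comm]
      exact hA i j
    rw [h1, hν] at h2
    have h3 := (abs_le.1 h2).2
    have h4 : 3 * (C * t) * ∑ i, ν i ^ 2 ≤ 3 * (C * t) * C :=
      mul_le_mul_of_nonneg_left bν (by positivity)
    nlinarith
  -- the inverse metric
  have bN1 : ∀ i j, |(1 - N) i j| ≤ 3 * C ^ 2 * t := by
    intro i j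
    have h1 : (1 : Bil) - N = N * (g y - 1) := by
      rw [Matrix.mul_sub, hN, Matrix.nonsing_inv_mul _ hunit, Matrix.mul_one]
    rw [h1, Matrix.mul_apply]
    calc |∑ k, N i k * (g y - 1) k j| ≤ ∑ k, |N i k * (g y - 1) k j| :=
          Finset.abs_sum_le_sum_abs _ _
      _ ≤ ∑ _k : Fin 3, C * (C * t) := by
          refine Finset.sum_le_sum fun k _ => ?_
          rw [abs_mul, Matrix.sub_apply]
          exact mul_le_mul (bN i k) (hA k j) (abs_nonneg _) hC.le
      _ = 3 * C ^ 2 * t := by simp; ring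
  -- the Christoffel symbols
  have bΓ : ∀ k i j, |christoffel g k i j y| ≤ 9 / 2 * C ^ 2 * t ^ 2 := by
    intro k i j
    unfold christoffel
    rw [abs_mul, abs_of_pos (by norm_num : (0 : ℝ) < 1 / 2)]
    have h1 : |∑ l, (g y)⁻¹ k l * (pd i (fun y => g y j l) y + pd j (fun y => g y i l) y
        - pd l (fun y => g y i j) y)| ≤ ∑ _l : Fin 3, C * (3 * (C * t ^ 2)) := by
      refine (Finset.abs_sum_le_sum_abs _ _).trans (Finset.sum_le_sum fun l _ => ?_)
      rw [abs_mul]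
      refine mul_le_mul (bN k l) ?_ (abs_nonneg _) hC.le
      have a1 := hd j l i
      have a2 := hd i l j
      have a3 := hd i j l
      rw [abs_le] at a1 a2 a3 ⊢
      constructor <;> linarith [a1.1, a1.2, a2.1, a2.2, a3.1, a3.2]
    calc 1 / 2 * |∑ l, (g y)⁻¹ k l * (pd i (fun y => g y j l) y + pd j (fun y => g y i l) y
        - pd l (fun y => g y i j) y)| ≤ 1 / 2 * ∑ _l : Fin 3, C * (3 * (C * t ^ 2)) := by
          gcongr
      _ = 9 / 2 * C ^ 2 * t ^ 2 := by simp; ring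
  set R : Bil := Matrix.of fun i j => ∑ k, christoffel g k i j y * p k with hR
  have bR : ∀ i j, |R i j| ≤ 27 / 2 * C ^ 2 * t ^ 2 * vsz p := by
    intro i j
    simp only [hR, Matrix.of_apply]
    calc |∑ k, christoffel g k i j y * p k| ≤ ∑ k, |christoffel g k i j y * p k| :=
          Finset.abs_sum_le_sum_abs _ _
      _ ≤ ∑ _k : Fin 3, 9 / 2 * C ^ 2 * t ^ 2 * vsz p := by
          refine Finset.sum_le_sum fun k _ => ?_
          rw [abs_mul]
          exact mul_le_mul (bΓ k i j) (abs_le_vsz p k) (abs_nonneg _) (by positivity)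
      _ = 27 / 2 * C ^ 2 * t ^ 2 * vsz p := by simp; ring
  -- decomposition
  have hdec : ∑ i, M i i = beps ε g y p (cHess g y p M) + (1 - ε) * ev M ν ν
      - (1 - ε) * ev R ν ν + (∑ i, ∑ j, N i j * R i j) + ∑ i, ∑ j, (1 - N) i j * M i j := by
    unfold beps trg bnn ev
    simp only [cHess, hR, Matrix.of_apply, ← hN, ← hνdef, Matrix.sub_apply, Matrix.one_apply,
      Fin.sum_univ_three]
    simp
    ring
  have T1 : |beps ε g y p (cHess g y p M)| ≤ √(3 * C) * vsz p * (B * t ^ 2) := by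
    refine hβ.trans (mul_le_mul_of_nonneg_right ?_ (by positivity))
    unfold len
    have e : √(3 * C) * vsz p = √(3 * C * vsz p ^ 2) := by
      rw [Real.sqrt_mul (by positivity : (0 : ℝ) ≤ 3 * C) (vsz p ^ 2), Real.sqrt_sq v0]
    rw [e]
    refine Real.sqrt_le_sqrt ?_
    rw [sq_vsz]
    exact (le_abs_self _).trans (ev_le hC.le bN p)
  have T2 : |(1 - ε) * ev M ν ν| ≤ (1 - ε) * (msz M * (1 + 3 * C ^ 2 * t)) := by
    rw [abs_mul, abs_of_nonneg (by linarith : 0 ≤ 1 - ε)]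
    refine mul_le_mul_of_nonneg_left ?_ (by linarith)
    exact (ev_abs_le M ν).trans (mul_le_mul_of_nonneg_left bν1 m0)
  have T3 : |(1 - ε) * ev R ν ν| ≤ 3 * (27 / 2 * C ^ 2 * t ^ 2 * vsz p) * C := by
    rw [abs_mul, abs_of_nonneg (by linarith : 0 ≤ 1 - ε)]
    have h1 : |ev R ν ν| ≤ 3 * (27 / 2 * C ^ 2 * t ^ 2 * vsz p) * ∑ i, ν i ^ 2 :=
      ev_le (by positivity) bR ν
    have h2 : 3 * (27 / 2 * C ^ 2 * t ^ 2 * vsz p) * ∑ i, ν i ^ 2
        ≤ 3 * (27 / 2 * C ^ 2 * t ^ 2 * vsz p) * C :=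
      mul_le_mul_of_nonneg_left bν (by positivity)
    have h3 := abs_nonneg (ev R ν ν)
    nlinarith
  have T4 : |∑ i, ∑ j, N i j * R i j| ≤ 9 * C * (27 / 2 * C ^ 2 * t ^ 2 * vsz p) :=
    sum_abs_le hC.le bN bR
  have T5 : |∑ i, ∑ j, (1 - N) i j * M i j| ≤ 9 * (3 * C ^ 2 * t) * msz M :=
    sum_abs_le (by positivity) bN1 (fun i j => abs_le_msz M i j)
  rw [hdec]
  have key : |beps ε g y p (cHess g y p M) + (1 - ε) * ev M ν ν
      - (1 - ε) * ev R ν ν + (∑ i, ∑ j, N i j * R i j) + ∑ i, ∑ j, (1 - N) i j * M i j|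
      ≤ |beps ε g y p (cHess g y p M)| + |(1 - ε) * ev M ν ν| + |(1 - ε) * ev R ν ν|
        + |∑ i, ∑ j, N i j * R i j| + |∑ i, ∑ j, (1 - N) i j * M i j| := by
    refine (abs_add_le _ _).trans (add_le_add_left ?_ _)
    refine (abs_add_le _ _).trans (add_le_add_left ?_ _)
    refine (abs_sub _ _).trans (add_le_add_left ?_ _)
    exact abs_add_le _ _
  refine key.trans ?_
  have q1 : 0 ≤ C ^ 2 * t * msz M := by positivity
  have q2 : 0 ≤ ε * (C ^ 2 * t * msz M) := by positivity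
  nlinarith

/-- The covariant Hessian in the inverted coordinates. -/
theorem cHess_inv {g : TensorField} (hg : MetricOn {0}ᶜ g) {y : E3} (hy : y ≠ 0)
    (G : E3 → Cov) (M : E3 → Bil) :
    cHess (inverted g) y (gy G y) (my G M y) = pb (PenroseConvex.jac inversion y)
      (cHess g (inversion y) (G (inversion y)) (M (inversion y))) := by
  have h := chg_inversion hg hy
  ext i j
  have h2 : ∑ k, christoffel (inverted g) k i j y * gy G y k
      = ∑ a, G (inversion y) a
        * ∑ k, PenroseConvex.jac inversion y a k * christoffel (inverted g) k i j y := by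
    simp only [gy, pc, Fin.sum_univ_three]
    ring
  simp only [cHess, Matrix.of_apply]
  rw [h2]
  simp only [PenroseConvex.CovR.covC h]
  simp only [PenroseConvex.CovR.RR, pb, my, Matrix.of_apply, Fin.sum_univ_three]
  ring

theorem cHess_neg (g : TensorField) (x : E3) (p : Cov) (M : Bil) :
    cHess g x (-p) (-M) = -cHess g x p M := by
  ext i j
  simp only [cHess, Matrix.of_apply, Matrix.neg_apply, Pi.neg_apply, Fin.sum_univ_three]
  ring

theorem len_neg (g : TensorField) (x : E3) (p : Cov) : len g x (-p) = len g x p := by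
  unfold len ev
  simp

theorem nrm_neg (g : TensorField) (x : E3) (p : Cov) : nrm g x (-p) = -nrm g x p := by
  funext i
  unfold nrm raise
  rw [len_neg]
  simp
  ring

theorem beps_neg (ε : ℝ) (g : TensorField) (x : E3) (p : Cov) (B : Bil) :
    beps ε g x (-p) (-B) = -beps ε g x p B := by
  unfold beps trg bnn ev
  rw [nrm_neg]
  simp only [Matrix.neg_apply, Pi.neg_apply, Fin.sum_univ_three]
  ring

theorem beps_inv {g : TensorField} (hg : MetricOn {0}ᶜ g) {y : E3} (hy : y ≠ 0) (ε : ℝ)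
    (p : Cov) (B : Bil) :
    beps ε (inverted g) y (pc (PenroseConvex.jac inversion y) p)
      (pb (PenroseConvex.jac inversion y) B) = beps ε g (inversion y) p B := by
  have h := rel_chg (chg_inversion hg hy)
  unfold beps
  rw [trg_pb h, bnn_pc h]

theorem christoffel_congr {g g' : TensorField} {x : E3} (h : ∀ᶠ z in 𝓝 x, g z = g' z)
    (k i j : Fin 3) : christoffel g k i j x = christoffel g' k i j x := by
  unfold christoffel
  rw [h.self_of_nhds]
  congr 1
  refine Finset.sum_congr rfl fun l _ => ?_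
  have e : ∀ a b, (fun y => g y a b) =ᶠ[𝓝 x] fun y => g' y a b := fun a b => by
    filter_upwards [h] with z hz
    rw [hz]
  rw [pd_congr (e j l), pd_congr (e i l), pd_congr (e i j)]

theorem cHess_congr {g g' : TensorField} {x : E3} (h : ∀ᶠ z in 𝓝 x, g z = g' z)
    (p : Cov) (M : Bil) : cHess g x p M = cHess g' x p M := by
  ext i j
  simp only [cHess, Matrix.of_apply, christoffel_congr h]

theorem beps_congr {g g' : TensorField} {x : E3} (h : g x = g' x) (ε : ℝ)
    (p : Cov) (B : Bil) : beps ε g x p B = beps ε g' x p B := by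
  unfold beps trg bnn ev nrm raise len
  rw [h]

theorem len_congr {g g' : TensorField} {x : E3} (h : g x = g' x) (p : Cov) :
    len g x p = len g' x p := by
  unfold len
  rw [h]

end Pool.Agent.PFlow.LEYaux
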