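import Pool.Agent.PFlow.StmtsE1
import Pool.Agent.PFlow.StmtsE3

/-!
# MAIN: the main theorem from the three inequalities
-/

namespace Pool.Agent.PFlow

theorem MAIN (hEPS : Stmt_EPS) (hLIM : Stmt_LIM) (hLIMK : Stmt_LIMK) : Stmt_MAIN := by
  intro g h m h1 h2 h3 h4 h5
  obtain ⟨V, hV, H⟩ := hEPS g h m h1 h2 h3 (hLIMK g h m h1 h2 h4 h5) h5
  exact hLIM g m V hV H

end Pool.Agent.PFlow
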