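import Pool.Agent.PFlow.StmtsE4

/-!
# MAIN2: the main theorem from EPS, LIM and LIMK2
-/

set_option autoImplicit false

open MeasureTheory Filter Topology
open scoped ContDiff ENNReal

namespace Pool.Agent.PFlow

open Pool.Agent.PenroseSph

theorem MAIN2 (hEPS : Stmt_EPS) (hLIM : Stmt_LIM) (hLIMK2 : Stmt_LIMK2) : Stmt_MAIN2 := by
  intro g h m hT hD hP hF hm
  have hk : Tendsto (fun l : ℝ => ∫ x in cAnn (l / 2) l, msz (h x) / l) atTop (𝓝 0) := by
    rcases hF with hF | hF
    · exact hLIMK2 g h hT hD hP hF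
    · exact hF
  obtain ⟨V, hV, hE⟩ := hEPS g h m hT hD hP hk hm
  exact hLIM g m V hV hE

end Pool.Agent.PFlow
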